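import Mathlib

/-! A criterion for simple connectivity. -/

namespace Pool.Agent.Lib.MP_a25f44_gt.H43

open Set Path.Homotopic

variable {X : Type} [TopologicalSpace X]

/-- loops up to homotopy -/
def Pi1 (x0 : X) : Type := Path.Homotopic.Quotient x0 x0

noncomputable instance (x0 : X) : Group (Pi1 x0) where
  mul a b := Quotient.trans a b
  one := Quotient.refl x0
  inv a := Quotient.symm a
  mul_assoc a b c := Quotient.trans_assoc a b c
  one_mul a := Quotient.refl_trans a
  mul_one a := Quotient.trans_refl a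
  inv_mul_cancel a := Quotient.symm_trans a

variable [PathConnectedSpace X] (x0 : X)

noncomputable def base (x : X) : Path.Homotopic.Quotient x0 x :=
  Path.Homotopic.Quotient.mk (PathConnectedSpace.somePath x0 x)

noncomputable def cl {x y : X} (γ : Path.Homotopic.Quotient x y) : Pi1 x0 :=
  ((base x0 x).trans γ).trans (base x0 y).symm

theorem cl_trans {x y z : X} (γ : Path.Homotopic.Quotient x y) (δ : Path.Homotopic.Quotient y z) :
    cl x0 (γ.trans δ) = cl x0 γ * cl x0 δ := by
  change _ = Quotient.trans _ _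
  unfold cl
  rw [Quotient.trans_assoc, Quotient.trans_assoc, Quotient.trans_assoc, Quotient.trans_assoc,
    Quotient.trans_assoc, ← Quotient.trans_assoc (base x0 y).symm, Quotient.symm_trans,
    Quotient.refl_trans]

theorem eq_of_cl {x : X} (γ : Path.Homotopic.Quotient x x) (h : cl x0 γ = 1) :
    γ = Quotient.refl x := by
  have h1 : ((base x0 x).trans γ).trans (base x0 x).symm = Quotient.refl x0 := h
  have h2 := congrArg (fun q => ((base x0 x).symm.trans q).trans (base x0 x)) h1
  simp only [Quotient.trans_assoc, Quotient.symm_trans, Quotient.trans_refl] at h2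
  rwa [← Quotient.trans_assoc, Quotient.symm_trans, Quotient.refl_trans] at h2

open Classical in
/-- the class of a path given as a function on the reals -/
noncomputable def clf (γ : ℝ → X) : Pi1 x0 :=
  if h : ContinuousOn γ (Icc 0 1) then cl x0 (Path.Homotopic.Quotient.mk (Path.ofLine h rfl rfl)) else 1

theorem clf_eq {x y : X} (p : Path x y) {γ : ℝ → X} (h : ∀ t : unitInterval, γ t = p t) :
    clf x0 γ = cl x0 (Path.Homotopic.Quotient.mk p) := by
  have hc : ContinuousOn γ (Icc 0 1) := by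
    rw [continuousOn_iff_continuous_domRestrict]
    exact p.continuous.congr fun t => (h t).symm
  have h0 : γ 0 = x := (h 0).trans p.source
  have h1 : γ 1 = y := (h 1).trans p.target
  subst h0 h1
  rw [clf, dif_pos hc]
  congr 2
  ext t; exact h t

theorem clf_congr {γ δ : ℝ → X} (hc : ContinuousOn γ (Icc 0 1)) (h : EqOn δ γ (Icc 0 1)) :
    clf x0 δ = clf x0 γ := by
  rw [clf_eq x0 (Path.ofLine hc rfl rfl) (γ := δ) fun t => h t.2,
    clf_eq x0 (Path.ofLine hc rfl rfl) (γ := γ) fun t => rfl]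

theorem clf_tri {Y : Type} [TopologicalSpace Y] {K : Set Y} (hK : IsSimplyConnected K) {f : Y → X}
    (hf : ContinuousOn f K) {α β γ : ℝ → Y} (ca : ContinuousOn α (Icc 0 1))
    (cb : ContinuousOn β (Icc 0 1)) (cc : ContinuousOn γ (Icc 0 1)) (ma : MapsTo α (Icc 0 1) K)
    (mb : MapsTo β (Icc 0 1) K) (mc : MapsTo γ (Icc 0 1) K) (h0 : α 0 = β 0) (h1 : α 1 = γ 0)
    (h2 : β 1 = γ 1) : clf x0 (f ∘ α) * clf x0 (f ∘ γ) = clf x0 (f ∘ β) := by
  have := hK.simplyConnectedSpace
  have z0 : (0 : ℝ) ∈ Icc (0 : ℝ) 1 := ⟨le_rfl, zero_le_one⟩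
  have z1 : (1 : ℝ) ∈ Icc (0 : ℝ) 1 := ⟨zero_le_one, le_rfl⟩
  let F : C(K, X) := ⟨K.domRestrict f, continuousOn_iff_continuous_domRestrict.1 hf⟩
  let pa : Path (⟨α 0, ma z0⟩ : K) ⟨α 1, ma z1⟩ :=
    ⟨⟨fun t => ⟨α t, ma t.2⟩, (continuousOn_iff_continuous_domRestrict.1 ca).subtype_mk _⟩, rfl, rfl⟩
  let pb : Path (⟨α 0, ma z0⟩ : K) ⟨β 1, mb z1⟩ :=
    ⟨⟨fun t => ⟨β t, mb t.2⟩, (continuousOn_iff_continuous_domRestrict.1 cb).subtype_mk _⟩,
      Subtype.ext h0.symm, rfl⟩
  let pc : Path (⟨α 1, ma z1⟩ : K) ⟨β 1, mb z1⟩ :=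
    ⟨⟨fun t => ⟨γ t, mc t.2⟩, (continuousOn_iff_continuous_domRestrict.1 cc).subtype_mk _⟩,
      Subtype.ext h1.symm, Subtype.ext h2.symm⟩
  rw [clf_eq x0 (pa.map F.continuous) fun t => rfl, clf_eq x0 (pc.map F.continuous) fun t => rfl,
    clf_eq x0 (pb.map F.continuous) fun t => rfl, ← cl_trans, ← Quotient.mk_trans,
    ← Path.map_trans]
  congr 1
  exact Path.Homotopic.Quotient.eq.2 ((SimplyConnectedSpace.paths_homotopic _ _).map F)

theorem convex_sc {V : Type} [AddCommGroup V] [Module ℝ V] [TopologicalSpace V] [ContinuousAdd V]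
    [ContinuousSMul ℝ V] {K : Set V} {x : V} (h : StarConvex ℝ x K) (hne : K.Nonempty) :
    IsSimplyConnected K := by
  have := h.contractibleSpace hne
  exact SimplyConnectedSpace.ofContractible K

theorem sc_of_cover {ι : Type} (U : ι → Set X) (hU : ∀ i, IsOpen (U i)) (hc : ∀ x, ∃ i, x ∈ U i)
    (c : X → Pi1 x0) (h : ∀ i (γ : ℝ → X), ContinuousOn γ (Icc 0 1) → MapsTo γ (Icc 0 1) (U i) →
      c (γ 0) * clf x0 γ = c (γ 1)) : SimplyConnectedSpace X := by
  rw [simply_connected_iff_loops_nullhomotopic]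
  refine ⟨inferInstance, fun x p => ?_⟩
  obtain ⟨t, t0, tm, ⟨n, hn⟩, ht⟩ := exists_monotone_Icc_subset_open_cover_unitInterval
    (c := fun i => p ⁻¹' U i) (fun i => (hU i).preimage p.continuous)
    (fun s _ => by simpa using hc (p s))
  have hK : IsSimplyConnected (univ : Set ℝ) := convex_sc (starConvex_univ 0) univ_nonempty
  have key : ∀ k, c x * clf x0 (p.extend ∘ fun s => s * t k) = c (p (t k)) := by
    intro k
    induction k with
    | zero =>
      obtain ⟨i, hi⟩ := hc x
      have := h i (p.extend ∘ fun s => s * t 0) (by fun_prop) (fun s _ => by simp [t0, hi])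
      simpa [t0] using this
    | succ k ih =>
      obtain ⟨i, hi⟩ := ht k
      have hle : (t k : ℝ) ≤ t (k + 1) := tm (Nat.le_succ k)
      have h1 := h i (p.extend ∘ fun s => t k + s * (t (k + 1) - t k)) (by fun_prop) (fun s hs => by
        have hm : (t k : ℝ) + s * (t (k + 1) - t k) ∈ Icc (0 : ℝ) 1 :=
          ⟨by nlinarith [hs.1, hs.2, (t k).2.1], by nlinarith [hs.1, hs.2, (t (k + 1)).2.2]⟩
        rw [Function.comp_apply, p.extend_apply hm]
        refine hi ⟨?_, ?_⟩
        · change (t k : ℝ) ≤ t k + s * (t (k + 1) - t k); nlinarith [hs.1]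
        · change (t k : ℝ) + s * (t (k + 1) - t k) ≤ t (k + 1); nlinarith [hs.2])
      have h2 := clf_tri x0 hK (f := p.extend) (by fun_prop) (α := fun s => s * t k)
        (β := fun s => s * t (k + 1)) (γ := fun s => t k + s * (t (k + 1) - t k)) (by fun_prop)
        (by fun_prop) (by fun_prop) (mapsTo_univ _ _) (mapsTo_univ _ _) (mapsTo_univ _ _)
        (by simp) (by simp) (by simp)
      rw [← h2, ← mul_assoc, ih]
      simpa using h1
  have h3 := key n
  rw [hn n le_rfl, clf_eq x0 p (fun s => by simp), p.target, mul_eq_left] at h3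
  exact Path.Homotopic.Quotient.eq.1 (eq_of_cl x0 _ h3)

end Pool.Agent.Lib.MP_a25f44_gt.H43
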