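import Pool.Agent.Lib.MP_a25f44_gt.Stmt

/-! The dart model of labelled triangulations. -/

namespace Pool.Agent.Lib.MP_a25f44_gt

open scoped MatrixGroups UpperHalfPlane ComplexConjugate

/-- A triangulated closed oriented surface given by darts: `nx` is the next dart in the face
(counterclockwise), `op` the opposite dart. -/
structure DartMap (D : Type) where
  nx : Equiv.Perm D
  op : Equiv.Perm D
  nx3 : ∀ d, nx (nx (nx d)) = d
  op2 : ∀ d, op (op d) = d
  nx_ne : ∀ d, nx d ≠ d
  op_ne : ∀ d, op d ≠ d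

namespace DartMap

variable {D : Type} (M : DartMap D)

/-- Counterclockwise rotation around the origin of a dart: `sg d = op (nx⁻¹ d)`. -/
def sg : Equiv.Perm D := M.op * M.nx⁻¹

/-- The vertices: cycles of `sg`. -/
def Vtx : Type := Quotient (Equiv.Perm.SameCycle.setoid M.sg)

/-- A labelling of the darts by group elements: dart `d` goes from `x` to `L d • x'`. -/
def IsLab {H : Type} [Group H] (L : D → H) : Prop :=
  (∀ d, L (M.op d) = (L d)⁻¹) ∧ ∀ d, L d * L (M.nx d) * L (M.nx (M.nx d)) = 1

/-- Universal property of the labelling `L`, up to a gauge `c` on the vertices. -/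
def Univ {Γ : Type} [Group Γ] (L : D → Γ) : Prop :=
  ∀ (H : Type) [Group H] (μ : D → H), M.IsLab μ →
    ∃ (ψ : Γ →* H) (c : D → H), (∀ d, c (M.op d) = c (M.nx d)) ∧
      ∀ d, μ d = (c d)⁻¹ * ψ (L d) * c (M.nx d)

/-- The lifted complex on `Γ × D` is connected. -/
def Conn {Γ : Type} [Group Γ] (L : D → Γ) : Prop :=
  ∀ {α : Type} (f : Γ × D → α), (∀ γ d, f (γ * L d, M.nx d) = f (γ, d)) →
    (∀ γ d, f (γ * L d, M.op d) = f (γ, d)) → ∀ x y, f x = f y

end DartMap

/-- The action of `PSL(2, ℝ)` on the upper half plane. -/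
noncomputable def pslAct : PSL(2, ℝ) →* Equiv.Perm ℍ :=
  QuotientGroup.lift _ (MulAction.toPermHom SL(2, ℝ) ℍ) (by
    intro A hA
    obtain ⟨r, hr, h⟩ := Matrix.SpecialLinearGroup.mem_center_iff.1 hA
    ext z
    have h00 : A 0 0 = r := by rw [show A 0 0 = A.1 0 0 from rfl, ← h]; simp
    have h01 : A 0 1 = 0 := by rw [show A 0 1 = A.1 0 1 from rfl, ← h]; simp
    have h10 : A 1 0 = 0 := by rw [show A 1 0 = A.1 1 0 from rfl, ← h]; simp
    have h11 : A 1 1 = r := by rw [show A 1 1 = A.1 1 1 from rfl, ← h]; simp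
    have hr0 : (r : ℂ) ≠ 0 := by
      intro h0
      have : r = 0 := by exact_mod_cast h0
      simp [this] at hr
    simp [UpperHalfPlane.coe_specialLinearGroup_apply, h00, h01, h10, h11, hr0])

@[simp] theorem pslAct_mk (A : SL(2, ℝ)) (z : ℍ) : pslAct (A : PSL(2, ℝ)) z = A • z := rfl

/-- Orientation determinant: `z ↦ (Re z, |z|^2)` maps geodesics to straight lines, so
`0 < ori z v w` says that the geodesic triangle `z v w` is counterclockwise and not flat. -/
noncomputable def ori (z v w : ℍ) : ℝ :=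
  (v.re - z.re) * (Complex.normSq w - Complex.normSq z) -
    (w.re - z.re) * (Complex.normSq v - Complex.normSq z)

/-- The disc chart centred at `z`. -/
noncomputable def cay (z w : ℍ) : ℂ := ((w : ℂ) - z) / ((w : ℂ) - conj (z : ℂ))

/-- The angle at `z` from the direction of `v` to the direction of `w`. -/
noncomputable def ang (z v w : ℍ) : ℝ := Complex.arg (cay z w * conj (cay z v))

namespace DartMap

variable {D : Type} (M : DartMap D) {Γ : Type} [Group Γ] (L : D → Γ) (ρ : Γ →* PSL(2, ℝ))
  (pos : D → ℍ)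

/-- All triangles are positive; `pos d` is the position of the origin of `d`. -/
def IsPos : Prop :=
  (∀ d, pos (M.op d) = pos (M.nx d)) ∧
    ∀ d, 0 < ori (pos d) (pslAct (ρ (L d)) (pos (M.nx d)))
      (pslAct (ρ (L d * L (M.nx d))) (pos (M.nx (M.nx d))))

/-- The angle of the face of `d` at the origin of `d`. -/
noncomputable def corner (d : D) : ℝ :=
  ang (pos d) (pslAct (ρ (L d)) (pos (M.nx d)))
    (pslAct (ρ (L d * L (M.nx d))) (pos (M.nx (M.nx d))))

end DartMap

end Pool.Agent.Lib.MP_a25f44_gt
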