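import Pool.Agent.Lib.MP_a25f44_gt.H33V

/-!
# Signed area and angles on the closed hyperbolic plane (helper33)

`Ar u v w = 2 arg (Zc u v w)` is the signed area of the geodesic triangle with vertices in the closed
cone (ideal vertices allowed): invariant, alternating, a cocycle, `|Ar| ≤ π`, sign of `det3`.
`angV u v w` is the oriented angle at `u` from `v` to `w`; Gauss–Bonnet `gauss_bonnet`.
-/

open scoped MatrixGroups UpperHalfPlane ComplexConjugate
open Complex

noncomputable section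

namespace A25f44

/-! ### spinors -/

/-- spinors: `(η₁,η₂)` represents the point `η₁/η₂` -/
abbrev Sp := ℂ × ℂ

/-- the vector of a spinor -/
def sp (η : Sp) : V := (normSq η.1, (η.1 * conj η.2).re, normSq η.2)

/-- the invariant Hermitian form; `Hf η η = Im (η₁ conj η₂)` -/
def Hf (η ξ : Sp) : ℂ := (η.2 * conj ξ.1 - η.1 * conj ξ.2) * I / 2

/-- linear action on spinors -/
def sact (g : SL(2, ℝ)) (η : Sp) : Sp :=
  (g 0 0 * η.1 + g 0 1 * η.2, g 1 0 * η.1 + g 1 1 * η.2)

lemma sact_mul (g h : SL(2, ℝ)) (η : Sp) : sact (g * h) η = sact g (sact h η) := by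
  simp only [sact, mul00, mul01, mul10, mul11]
  refine Prod.ext ?_ ?_ <;> simp only <;> push_cast <;> ring

lemma sact_one (η : Sp) : sact 1 η = η := by simp [sact]

lemma smul_sp (g : SL(2, ℝ)) (η : Sp) : g • sp η = sp (sact g η) := by
  refine Prod.ext ?_ (Prod.ext ?_ ?_) <;>
    simp only [smul_1, smul_21, smul_22, sp, sact, normSq_apply, add_re, add_im, mul_re, mul_im,
      ofReal_re, ofReal_im, conj_re, conj_im] <;> ring

lemma Hf_sact (g : SL(2, ℝ)) (η ξ : Sp) : Hf (sact g η) (sact g ξ) = Hf η ξ := by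
  have h : (g 0 0 : ℂ) * g 1 1 - g 0 1 * g 1 0 = 1 := by exact_mod_cast det_eq g
  simp only [Hf, sact, map_add, map_mul, conj_ofReal]
  linear_combination ((η.2 * conj ξ.1 - η.1 * conj ξ.2) * I / 2) * h

lemma Hf_conj (η ξ : Sp) : conj (Hf η ξ) = Hf ξ η := by
  simp only [Hf, map_div₀, map_mul, map_sub, conj_conj, conj_I, map_ofNat]
  ring

lemma Hf_self (η : Sp) : Hf η η = ((η.1 * conj η.2).im : ℝ) := by
  apply Complex.ext <;> simp [Hf] <;> ring

lemma B_sp_self (η : Sp) : B (sp η) (sp η) = (η.1 * conj η.2).im ^ 2 := by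
  simp only [B, sp, normSq_apply, mul_re, mul_im, conj_re, conj_im]; ring

lemma nrm_sp {η : Sp} (h : 0 ≤ (η.1 * conj η.2).im) : nrm (sp η) = (η.1 * conj η.2).im := by
  rw [nrm, B_sp_self, Real.sqrt_sq h]

lemma normSq_Hf (η ξ : Sp) : 2 * normSq (Hf η ξ) =
    B (sp η) (sp ξ) + (η.1 * conj η.2).im * (ξ.1 * conj ξ.2).im := by
  simp only [B, sp, Hf, normSq_apply, mul_re, mul_im, conj_re, conj_im, div_ofNat_re, div_ofNat_im,
    sub_re, sub_im, I_re, I_im]
  ring

/-! ### the area -/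

/-- the complex number whose argument is half the area -/
def Zc (u v w : V) : ℂ :=
  ⟨nrm u * nrm v * nrm w + nrm u * B v w + nrm v * B w u + nrm w * B u v, det3 u v w⟩

/-- signed area of the triangle `u v w` (vertices in the closed cone) -/
def Ar (u v w : V) : ℝ := 2 * arg (Zc u v w)

lemma Zc_re (u v w : V) : (Zc u v w).re =
  nrm u * nrm v * nrm w + nrm u * B v w + nrm v * B w u + nrm w * B u v := rfl
lemma Zc_im (u v w : V) : (Zc u v w).im = det3 u v w := rfl

lemma Zc_sp {η ξ ζ : Sp} (h1 : 0 ≤ (η.1 * conj η.2).im) (h2 : 0 ≤ (ξ.1 * conj ξ.2).im)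
    (h3 : 0 ≤ (ζ.1 * conj ζ.2).im) :
    Zc (sp η) (sp ξ) (sp ζ) = 4 * (Hf η ξ * Hf ξ ζ * Hf ζ η) := by
  apply Complex.ext
  · rw [Zc_re, nrm_sp h1, nrm_sp h2, nrm_sp h3]
    simp only [B, sp, Hf, normSq_apply, mul_re, mul_im, conj_re, conj_im, div_ofNat_re,
      div_ofNat_im, sub_re, sub_im, I_re, I_im, re_ofNat, im_ofNat]
    ring
  · rw [Zc_im]
    simp only [det3, sp, Hf, normSq_apply, mul_re, mul_im, conj_re, conj_im, div_ofNat_re,
      div_ofNat_im, sub_re, sub_im, I_re, I_im, re_ofNat, im_ofNat]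
    ring

@[simp] lemma Zc_smul (g : SL(2, ℝ)) (u v w : V) : Zc (g • u) (g • v) (g • w) = Zc u v w := by
  simp [Zc]
@[simp] lemma Ar_smul (g : SL(2, ℝ)) (u v w : V) : Ar (g • u) (g • v) (g • w) = Ar u v w := by
  simp [Ar]
@[simp] lemma Zc_psmul (g : PSL(2, ℝ)) (u v w : V) : Zc (g • u) (g • v) (g • w) = Zc u v w := by
  simp [Zc]
@[simp] lemma Ar_psmul (g : PSL(2, ℝ)) (u v w : V) : Ar (g • u) (g • v) (g • w) = Ar u v w := by
  simp [Ar]

lemma Zc_cyc (u v w : V) : Zc u v w = Zc v w u := by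
  apply Complex.ext
  · simp only [Zc_re]; ring
  · simp only [Zc_im]; exact det3_cyc _ _ _
lemma Ar_cyc (u v w : V) : Ar u v w = Ar v w u := by rw [Ar, Ar, Zc_cyc]

lemma Zc_swap (u v w : V) : Zc u w v = conj (Zc u v w) := by
  apply Complex.ext
  · simp only [Zc_re, conj_re, B_comm w v, B_comm v u, B_comm u w]; ring
  · simp only [Zc_im, conj_im]; exact det3_swap _ _ _

lemma Zc_re_nonneg {u v w : V} (hu : Cone u) (hv : Cone v) (hw : Cone w) : 0 ≤ (Zc u v w).re := by
  rw [Zc_re]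
  have := nrm_nonneg u; have := nrm_nonneg v; have := nrm_nonneg w
  have := hu.B_nonneg hv; have := hv.B_nonneg hw; have := hw.B_nonneg hu
  positivity

/-- the real part is positive as soon as one vertex is interior and the two others are not the
same ideal point -/
lemma Zc_re_pos {u v w : V} (hu : Tim u) (hv : Cone v) (hw : Cone w) (h : 0 < B v w) :
    0 < (Zc u v w).re := by
  rw [Zc_re]
  have := hu.nrm_pos; have := nrm_nonneg v; have := nrm_nonneg w
  have := hu.cone.B_nonneg hv; have := hw.B_nonneg hu.cone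
  positivity

lemma Zc_re_pos' {u v w : V} (hu : Tim u) (hv : Tim v) (hw : Cone w) : 0 < (Zc u v w).re :=
  Zc_re_pos hu hv.cone hw (hv.B_pos hw)

lemma arg_conj_of_re_nonneg {z : ℂ} (h : 0 ≤ z.re) : arg (conj z) = -arg z := by
  rw [arg_conj, if_neg]
  intro hh
  have := (arg_eq_pi_iff.1 hh).1
  linarith

lemma Ar_swap {u v w : V} (hu : Cone u) (hv : Cone v) (hw : Cone w) : Ar u w v = -Ar u v w := by
  rw [Ar, Ar, Zc_swap, arg_conj_of_re_nonneg (Zc_re_nonneg hu hv hw)]; ring
lemma Ar_swap12 {u v w : V} (hu : Cone u) (hv : Cone v) (hw : Cone w) : Ar v u w = -Ar u v w := by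
  rw [Ar_cyc v u w, Ar_swap hu hv hw]
lemma Ar_swap13 {u v w : V} (hu : Cone u) (hv : Cone v) (hw : Cone w) : Ar w v u = -Ar u v w := by
  rw [Ar_cyc w v u, Ar_swap12 hu hv hw]

lemma abs_Ar_le_pi {u v w : V} (hu : Cone u) (hv : Cone v) (hw : Cone w) : |Ar u v w| ≤ Real.pi := by
  have := abs_arg_le_pi_div_two_iff.2 (Zc_re_nonneg hu hv hw)
  rw [Ar, abs_mul, abs_two]; linarith
lemma Ar_le_pi {u v w : V} (hu : Cone u) (hv : Cone v) (hw : Cone w) : Ar u v w ≤ Real.pi :=
  (abs_le.1 (abs_Ar_le_pi hu hv hw)).2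
lemma neg_pi_le_Ar {u v w : V} (hu : Cone u) (hv : Cone v) (hw : Cone w) : -Real.pi ≤ Ar u v w :=
  (abs_le.1 (abs_Ar_le_pi hu hv hw)).1

lemma Ar_eq_zero_iff {u v w : V} (hu : Cone u) (hv : Cone v) (hw : Cone w) :
    Ar u v w = 0 ↔ det3 u v w = 0 := by
  rw [Ar, mul_eq_zero, arg_eq_zero_iff, Zc_im]
  simp [Zc_re_nonneg hu hv hw]
lemma Ar_neg_iff (u v w : V) : Ar u v w < 0 ↔ det3 u v w < 0 := by
  rw [← Zc_im, ← arg_neg_iff, Ar]; constructor <;> intro h <;> linarith
lemma Ar_nonneg_iff (u v w : V) : 0 ≤ Ar u v w ↔ 0 ≤ det3 u v w := by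
  rw [← not_lt, Ar_neg_iff, not_lt]
lemma Ar_pos_iff {u v w : V} (hu : Cone u) (hv : Cone v) (hw : Cone w) :
    0 < Ar u v w ↔ 0 < det3 u v w := by
  rw [lt_iff_le_and_ne, lt_iff_le_and_ne, Ar_nonneg_iff, ne_comm, Ne, Ar_eq_zero_iff hu hv hw]
  simp [eq_comm]
lemma Ar_nonpos_iff {u v w : V} (hu : Cone u) (hv : Cone v) (hw : Cone w) :
    Ar u v w ≤ 0 ↔ det3 u v w ≤ 0 := by
  rw [← not_lt, Ar_pos_iff hu hv hw, not_lt]
lemma Ar_self12 {u w : V} (hu : Cone u) (hw : Cone w) : Ar u u w = 0 :=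
  (Ar_eq_zero_iff hu hu hw).2 (det3_self12 _ _)
lemma Ar_self13 {u v : V} (hu : Cone u) (hv : Cone v) : Ar u v u = 0 :=
  (Ar_eq_zero_iff hu hv hu).2 (det3_self13 _ _)
lemma Ar_self23 {u v : V} (hu : Cone u) (hv : Cone v) : Ar u v v = 0 :=
  (Ar_eq_zero_iff hu hv hv).2 (det3_self23 _ _)

lemma Zc_pos_smul_1 {c : ℝ} (hc : 0 ≤ c) (u v w : V) : Zc (c • u) v w = c * Zc u v w := by
  apply Complex.ext
  · simp only [Zc_re, nrm_pos_smul hc, B_smul_left, B_smul_right, re_ofReal_mul]; ring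
  · simp only [Zc_im, det3_smul_1, im_ofReal_mul]
lemma Ar_pos_smul_1 {c : ℝ} (hc : 0 < c) (u v w : V) : Ar (c • u) v w = Ar u v w := by
  rw [Ar, Ar, Zc_pos_smul_1 hc.le, arg_real_mul _ hc]
lemma Ar_pos_smul_2 {c : ℝ} (hc : 0 < c) (u v w : V) : Ar u (c • v) w = Ar u v w := by
  rw [Ar_cyc, Ar_pos_smul_1 hc, ← Ar_cyc]
lemma Ar_pos_smul_3 {c : ℝ} (hc : 0 < c) (u v w : V) : Ar u v (c • w) = Ar u v w := by
  rw [← Ar_cyc, Ar_pos_smul_1 hc, Ar_cyc]

/-- two cone vectors with `B v w = 0` are the same ideal point, so every determinant vanishes -/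
lemma Cone.det3_eq_zero_of_B {v w : V} (hv : Cone v) (hw : Cone w) (h : B v w = 0) (u : V) :
    det3 u v w = 0 := by
  have h1 : B v v = 0 := by
    by_contra hc
    have := Tim.B_pos ⟨hv.1, lt_of_le_of_ne hv.2 (Ne.symm hc)⟩ hw
    linarith
  have h2 : B w w = 0 := by
    by_contra hc
    have := Tim.B_pos ⟨hw.1, lt_of_le_of_ne hw.2 (Ne.symm hc)⟩ hv
    rw [B_comm] at this
    linarith
  have := det3_sq u v w
  rw [h, h1, h2] at this
  have : det3 u v w ^ 2 = 0 := by rw [this]; ring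
  exact pow_eq_zero_iff two_ne_zero |>.1 this

lemma abs_Ar_lt_pi {u v w : V} (hu : Tim u) (hv : Cone v) (hw : Cone w) : |Ar u v w| < Real.pi := by
  rcases (hv.B_nonneg hw).lt_or_eq with h | h
  · have := abs_arg_lt_pi_div_two_iff.2 (Or.inl (Zc_re_pos hu hv hw h))
    rw [Ar, abs_mul, abs_two]; linarith
  · rw [(Ar_eq_zero_iff hu.cone hv hw).2 (hv.det3_eq_zero_of_B hw h.symm u)]
    simpa using Real.pi_pos

/-- three ideal vertices in positive position: area `π` -/
lemma Ar_ideal {u v w : V} (hu : B u u = 0) (hv : B v v = 0) (hw : B w w = 0)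
    (h : 0 < det3 u v w) : Ar u v w = Real.pi := by
  have : arg (Zc u v w) = Real.pi / 2 := by
    rw [arg_eq_pi_div_two_iff, Zc_re, Zc_im]
    simp [nrm, hu, hv, hw, h]
  rw [Ar, this]; ring

lemma normSq_Zc {u v w : V} (hu : Cone u) (hv : Cone v) (hw : Cone w) : normSq (Zc u v w) =
    2 * (nrm u * nrm v + B u v) * (nrm v * nrm w + B v w) * (nrm w * nrm u + B w u) := by
  rw [normSq_apply, Zc_re, Zc_im, ← sq (det3 u v w), det3_sq, ← hu.nrm_sq, ← hv.nrm_sq, ← hw.nrm_sq]
  ring

/-- a triangle with a side of length `L` has area at most `2 arctan (sinh (L/2))` -/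
lemma abs_Ar_le_of_side {u v w : V} (hu : Hyp u) (hv : Hyp v) (hw : Cone w) :
    |Ar u v w| ≤ 2 * Real.arctan √((B u v - 1) / 2) := by
  have hre := Zc_re_pos' hu.tim hv.tim hw
  have h1 := hu.one_le_B hv
  have hn := normSq_Zc hu.cone hv.cone hw
  rw [normSq_apply] at hn
  have hR := Zc_re u v w
  rw [hu.nrm, hv.nrm] at hn hR
  set R := (Zc u v w).re
  set D := (Zc u v w).im
  have hc := nrm_nonneg w
  have hx := hv.cone.B_nonneg hw
  have hy := hw.B_nonneg hu.cone
  have key : D ^ 2 ≤ (B u v - 1) / 2 * R ^ 2 := by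
    have e1 : (nrm w + B v w) + (nrm w + B w u) ≤ R := by rw [hR]; nlinarith
    have e2 : 4 * ((nrm w + B v w) * (nrm w + B w u)) ≤ R ^ 2 := by
      have : ((nrm w + B v w) + (nrm w + B w u)) ^ 2 ≤ R ^ 2 := by
        apply pow_le_pow_left₀ (by positivity) e1
      nlinarith [sq_nonneg ((nrm w + B v w) - (nrm w + B w u))]
    have e3 : R * R + D * D = (1 + B u v) / 2 * (4 * ((nrm w + B v w) * (nrm w + B w u))) := by
      rw [hn]; ring
    have e4 : (1 + B u v) / 2 * (4 * ((nrm w + B v w) * (nrm w + B w u))) ≤ (1 + B u v) / 2 * R ^ 2 :=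
      mul_le_mul_of_nonneg_left e2 (by linarith)
    nlinarith
  have habs : |D / R| ≤ √((B u v - 1) / 2) := by
    apply Real.abs_le_sqrt
    rw [div_pow, div_le_iff₀ (by positivity)]; exact key
  have harg : arg (Zc u v w) = Real.arctan (D / R) := by
    have := abs_arg_lt_pi_div_two_iff.2 (Or.inl hre)
    rw [abs_lt] at this
    rw [← tan_arg, Real.arctan_tan this.1 this.2]
  rw [Ar, harg, abs_mul, abs_two]
  have h2 := abs_le.1 habs
  have h3 := Real.arctan_strictMono.monotone h2.1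
  have h4 := Real.arctan_strictMono.monotone h2.2
  rw [Real.arctan_neg] at h3
  have : |Real.arctan (D / R)| ≤ Real.arctan √((B u v - 1) / 2) := abs_le.2 ⟨h3, h4⟩
  linarith

@[fun_prop] lemma continuous_Zc {X : Type*} [TopologicalSpace X] {f g h : X → V}
    (hf : Continuous f) (hg : Continuous g) (hh : Continuous h) :
    Continuous fun x => Zc (f x) (g x) (h x) := by
  have : (fun x => Zc (f x) (g x) (h x)) = fun x =>
      ((nrm (f x) * nrm (g x) * nrm (h x) + nrm (f x) * B (g x) (h x) + nrm (g x) * B (h x) (f x)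
        + nrm (h x) * B (f x) (g x) : ℝ) : ℂ) + (det3 (f x) (g x) (h x) : ℝ) * I := by
    funext x; apply Complex.ext <;> simp [Zc]
  rw [this]; fun_prop

/-- continuity of the area where `Zc` is off the negative axis and nonzero -/
lemma tendsto_Ar {ι : Type*} {l : Filter ι} {f g h : ι → V} {u v w : V}
    (hf : Filter.Tendsto f l (nhds u)) (hg : Filter.Tendsto g l (nhds v))
    (hh : Filter.Tendsto h l (nhds w)) (H : 0 < (Zc u v w).re ∨ det3 u v w ≠ 0) :
    Filter.Tendsto (fun x => Ar (f x) (g x) (h x)) l (nhds (Ar u v w)) := by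
  have hc : Continuous fun q : V × V × V => Zc q.1 q.2.1 q.2.2 := by fun_prop
  have h2 : Filter.Tendsto (fun x => ((f x, g x, h x) : V × V × V)) l (nhds (u, v, w)) :=
    hf.prodMk_nhds (hg.prodMk_nhds hh)
  have h3 := (hc.tendsto (u, v, w)).comp h2
  simp only [Function.comp_def] at h3
  have h4 : ContinuousAt arg (Zc u v w) := continuousAt_arg (mem_slitPlane_iff.2 H)
  have h5 := (h4.tendsto.comp h3).const_mul 2
  simpa only [Function.comp_def, Ar] using h5

lemma ContinuousAt.Ar {X : Type*} [TopologicalSpace X] {f g h : X → V} {x : X}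
    (hf : ContinuousAt f x) (hg : ContinuousAt g x) (hh : ContinuousAt h x)
    (H : 0 < (Zc (f x) (g x) (h x)).re ∨ det3 (f x) (g x) (h x) ≠ 0) :
    ContinuousAt (fun y => Ar (f y) (g y) (h y)) x :=
  tendsto_Ar hf hg hh H

/-! ### disc coordinate and the cocycle property -/

/-- spatial part of a vector as a complex number (direction in the disc model) -/
def mC (v : V) : ℂ := ⟨(v.1 - v.2.2) / 2, -v.2.1⟩

/-- Poincaré disc coordinate (Cayley transform `(z-i)/(z+i)`) -/
def disc (v : V) : ℂ := mC v / (((v.1 + v.2.2) / 2 + nrm v : ℝ) : ℂ)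

/-- the edge function: `eA u v = Ar oV u v` -/
def eA (u v : V) : ℝ := 2 * arg (1 - disc u * conj (disc v))

/-- canonical spinor -/
def csp (v : V) : Sp :=
  ((√(((v.1 + v.2.2) / 2 + nrm v) / 2) : ℝ) * I * (1 + disc v),
   (√(((v.1 + v.2.2) / 2 + nrm v) / 2) : ℝ) * (1 - disc v))

lemma Cone.s_pos {v : V} (h : Cone v) : 0 < (v.1 + v.2.2) / 2 + nrm v := by
  have := h.1; have := nrm_nonneg v; positivity

lemma Cone.normSq_disc {v : V} (h : Cone v) :
    normSq (disc v) = ((v.1 + v.2.2) / 2 - nrm v) / ((v.1 + v.2.2) / 2 + nrm v) := by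
  have hs := h.s_pos
  have hn := h.nrm_sq
  rw [disc, normSq_div, normSq_ofReal, div_eq_div_iff (by positivity) hs.ne']
  simp only [mC, normSq_mk, B] at hn ⊢
  linear_combination ((v.1 + v.2.2) / 2 + nrm v) * hn

lemma Cone.normSq_disc_le {v : V} (h : Cone v) : normSq (disc v) ≤ 1 := by
  rw [h.normSq_disc, div_le_one h.s_pos]; linarith [nrm_nonneg v]

lemma Tim.normSq_disc_lt {v : V} (h : Tim v) : normSq (disc v) < 1 := by
  rw [h.cone.normSq_disc, div_lt_one h.cone.s_pos]; linarith [h.nrm_pos]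

lemma Hf_csp (u v : V) : Hf (csp u) (csp v) =
    ((√(((u.1 + u.2.2) / 2 + nrm u) / 2) * √(((v.1 + v.2.2) / 2 + nrm v) / 2) : ℝ) : ℂ) *
      (1 - disc u * conj (disc v)) := by
  simp only [Hf, csp, map_mul, map_add, map_sub, map_one, conj_ofReal, conj_I, ofReal_mul]
  linear_combination (-(√(((u.1 + u.2.2) / 2 + nrm u) / 2) : ℂ) *
    (√(((v.1 + v.2.2) / 2 + nrm v) / 2) : ℂ) * (1 - disc u * conj (disc v))) * I_mul_I

lemma Cone.csp_im {v : V} (h : Cone v) : ((csp v).1 * conj (csp v).2).im = nrm v := by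
  have hs := h.s_pos
  have h1 := Hf_csp v v
  rw [Hf_self, mul_conj, h.normSq_disc, Real.mul_self_sqrt (by positivity)] at h1
  have h2 : ((csp v).1 * conj (csp v).2).im = ((v.1 + v.2.2) / 2 + nrm v) / 2 *
    (1 - ((v.1 + v.2.2) / 2 - nrm v) / ((v.1 + v.2.2) / 2 + nrm v)) := by exact_mod_cast h1
  rw [h2, mul_sub, mul_div_assoc', mul_comm _ (_ - _), mul_div_assoc, div_div_cancel_left' hs.ne']
  ring

lemma Cone.sp_csp {v : V} (h : Cone v) : sp (csp v) = v := by
  have hs := h.s_pos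
  have hn := h.normSq_disc
  obtain ⟨s, hsd⟩ : ∃ s, s = (v.1 + v.2.2) / 2 + nrm v := ⟨_, rfl⟩
  have hq : √(s / 2) * √(s / 2) = s / 2 := Real.mul_self_sqrt (by rw [hsd]; positivity)
  have hre : (disc v).re = (v.1 - v.2.2) / 2 / s := by
    rw [disc, div_ofReal_re, ← hsd]; rfl
  have him : (disc v).im = -v.2.1 / s := by
    rw [disc, div_ofReal_im, ← hsd]; rfl
  rw [normSq_apply, ← hsd] at hn
  rw [← hsd] at hs
  have hn' : (disc v).re * (disc v).re + (disc v).im * (disc v).im = (v.1 + v.2.2) / s - 1 := by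
    rw [hn]; field_simp; rw [hsd]; ring
  refine Prod.ext ?_ (Prod.ext ?_ ?_) <;>
    simp only [sp, csp, ← hsd, normSq_apply, mul_re, mul_im, ofReal_re, ofReal_im, I_re, I_im,
      add_re, add_im, sub_re, sub_im, one_re, one_im, conj_re, conj_im]
  · have : s / 2 * (1 + 2 * (disc v).re + ((disc v).re * (disc v).re + (disc v).im * (disc v).im))
        = v.1 := by rw [hn', hre]; field_simp; ring
    linear_combination this + (1 + 2 * (disc v).re + ((disc v).re * (disc v).re
      + (disc v).im * (disc v).im)) * hq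
  · have : s / 2 * (-2 * (disc v).im) = v.2.1 := by rw [him]; field_simp
    linear_combination this + (-2 * (disc v).im) * hq
  · have : s / 2 * (1 - 2 * (disc v).re + ((disc v).re * (disc v).re + (disc v).im * (disc v).im))
        = v.2.2 := by rw [hn', hre]; field_simp; ring
    linear_combination this + (1 - 2 * (disc v).re + ((disc v).re * (disc v).re
      + (disc v).im * (disc v).im)) * hq

/-- every point of the closed cone has a spinor -/
lemma Cone.exists_sp {v : V} (h : Cone v) :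
    ∃ η : Sp, sp η = v ∧ (η.1 * conj η.2).im = nrm v := ⟨_, h.sp_csp, h.csp_im⟩

lemma re_one_sub_mul_conj {z w : ℂ} (hz : normSq z ≤ 1) (hw : normSq w ≤ 1) :
    0 < (1 - z * conj w).re ∨ z = w ∧ normSq z = 1 := by
  by_cases h : 0 < (1 - z * conj w).re
  · exact Or.inl h
  right
  simp only [sub_re, one_re, mul_re, conj_re, conj_im, normSq_apply, not_lt] at h hz hw ⊢
  have e1 : (z.re - w.re) ^ 2 + (z.im - w.im) ^ 2 ≤ 0 := by nlinarith
  have e2 : z.re = w.re := by nlinarith [sq_nonneg (z.re - w.re), sq_nonneg (z.im - w.im)]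
  have e3 : z.im = w.im := by nlinarith [sq_nonneg (z.re - w.re), sq_nonneg (z.im - w.im)]
  refine ⟨Complex.ext e2 e3, ?_⟩
  rw [← e2, ← e3] at h; linarith

lemma abs_arg_one_sub_lt {z w : ℂ} (hz : normSq z ≤ 1) (hw : normSq w ≤ 1) :
    |arg (1 - z * conj w)| < Real.pi / 2 := by
  rw [abs_arg_lt_pi_div_two_iff]
  rcases re_one_sub_mul_conj hz hw with h | ⟨rfl, h⟩
  · exact Or.inl h
  · right; rw [mul_conj, h]; simp

lemma abs_eA_lt {u v : V} (hu : Cone u) (hv : Cone v) : |eA u v| < Real.pi := by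
  have := abs_arg_one_sub_lt hu.normSq_disc_le hv.normSq_disc_le
  rw [eA, abs_mul, abs_two]; linarith

lemma eA_swap {u v : V} (hu : Cone u) (hv : Cone v) : eA v u = -eA u v := by
  have h1 : 1 - disc v * conj (disc u) = conj (1 - disc u * conj (disc v)) := by
    simp [mul_comm]
  have h2 := abs_arg_one_sub_lt hu.normSq_disc_le hv.normSq_disc_le
  rw [eA, eA, h1, arg_conj_of_re_nonneg (abs_arg_le_pi_div_two_iff.1 h2.le)]; ring

/-- two reals that agree as angles and are closer than `2π` agree -/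
lemma eq_of_angle_eq {x y : ℝ} (h : (x : Real.Angle) = y) (hlt : |x - y| < 2 * Real.pi) : x = y := by
  rw [Real.Angle.angle_eq_iff_two_pi_dvd_sub] at h
  obtain ⟨k, hk⟩ := h
  rw [hk, abs_mul, abs_of_pos Real.two_pi_pos] at hlt
  have : |(k : ℝ)| < 1 := by nlinarith [Real.two_pi_pos]
  have hk0 : k = 0 := by
    have : |k| < 1 := by exact_mod_cast this
    exact Int.abs_lt_one_iff.1 this
  rw [hk0] at hk; simp at hk; linarith

lemma arg_mul3 {a b c : ℂ} (ha : |arg a| < Real.pi / 2) (hb : |arg b| < Real.pi / 2)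
    (hc : |arg c| < Real.pi / 2) (ha0 : a ≠ 0) (hb0 : b ≠ 0) (hc0 : c ≠ 0)
    (h : 0 ≤ (a * b * c).re) : arg (a * b * c) = arg a + arg b + arg c := by
  apply eq_of_angle_eq
  · rw [arg_mul_coe_angle (mul_ne_zero ha0 hb0) hc0, arg_mul_coe_angle ha0 hb0]
    simp
  · have := abs_arg_le_pi_div_two_iff.2 h
    rw [abs_lt] at ha hb hc ⊢
    rw [abs_le] at this
    constructor <;> linarith

/-- the area is the coboundary of the (non-invariant) edge function `eA` -/
theorem Ar_eq_eA {u v w : V} (hu : Cone u) (hv : Cone v) (hw : Cone w) :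
    Ar u v w = eA u v + eA v w + eA w u := by
  have hZ := Zc_sp (η := csp u) (ξ := csp v) (ζ := csp w) (hu.csp_im ▸ nrm_nonneg u)
    (hv.csp_im ▸ nrm_nonneg v) (hw.csp_im ▸ nrm_nonneg w)
  rw [hu.sp_csp, hv.sp_csp, hw.sp_csp, Hf_csp, Hf_csp, Hf_csp] at hZ
  have su := Real.sqrt_pos.2 (half_pos hu.s_pos)
  have sv := Real.sqrt_pos.2 (half_pos hv.s_pos)
  have sw := Real.sqrt_pos.2 (half_pos hw.s_pos)
  set a := √(((u.1 + u.2.2) / 2 + nrm u) / 2)
  set b := √(((v.1 + v.2.2) / 2 + nrm v) / 2)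
  set c := √(((w.1 + w.2.2) / 2 + nrm w) / 2)
  have hZ' : Zc u v w = ((4 * (a * b) * (b * c) * (c * a) : ℝ) : ℂ) * ((1 - disc u * conj (disc v)) *
      (1 - disc v * conj (disc w)) * (1 - disc w * conj (disc u))) := by
    rw [hZ]; push_cast; ring
  have hpos : 0 < 4 * (a * b) * (b * c) * (c * a) := by positivity
  have hre := Zc_re_nonneg hu hv hw
  rw [hZ', re_ofReal_mul] at hre
  have hre' := (mul_nonneg_iff_of_pos_left hpos).1 hre
  have e1 := eA_swap hu hv
  have e2 := eA_swap hv hw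
  have e3 := eA_swap hw hu
  have z0 : ∀ z : ℂ, normSq z = 1 → 1 - z * conj z = 0 := fun z h => by rw [mul_conj, h]; simp
  rw [Ar, hZ', arg_real_mul _ hpos]
  rcases re_one_sub_mul_conj hu.normSq_disc_le hv.normSq_disc_le with h1 | ⟨h1, h1'⟩
  swap
  · simp only [eA] at e3 ⊢
    rw [← h1, z0 _ h1']; simp only [zero_mul, arg_zero]; linarith
  rcases re_one_sub_mul_conj hv.normSq_disc_le hw.normSq_disc_le with h2 | ⟨h2, h2'⟩
  swap
  · simp only [eA] at e1 ⊢
    rw [← h2, z0 _ h2']; simp only [zero_mul, mul_zero, arg_zero]; linarith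
  rcases re_one_sub_mul_conj hw.normSq_disc_le hu.normSq_disc_le with h3 | ⟨h3, h3'⟩
  swap
  · simp only [eA] at e2 ⊢
    rw [← h3, z0 _ h3']; simp only [mul_zero, arg_zero]; linarith
  rw [arg_mul3 (abs_arg_one_sub_lt hu.normSq_disc_le hv.normSq_disc_le)
    (abs_arg_one_sub_lt hv.normSq_disc_le hw.normSq_disc_le)
    (abs_arg_one_sub_lt hw.normSq_disc_le hu.normSq_disc_le)
    (fun h => by rw [h] at h1; simp at h1) (fun h => by rw [h] at h2; simp at h2)
    (fun h => by rw [h] at h3; simp at h3) hre']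
  simp only [eA]; ring

/-- cocycle property: the two triangulations of a quadrilateral have the same area -/
theorem Ar_cocycle {u v w x : V} (hu : Cone u) (hv : Cone v) (hw : Cone w) (hx : Cone x) :
    Ar u v w + Ar u w x = Ar u v x + Ar v w x := by
  rw [Ar_eq_eA hu hv hw, Ar_eq_eA hu hw hx, Ar_eq_eA hu hv hx, Ar_eq_eA hv hw hx,
    eA_swap hu hw, eA_swap hv hx]
  ring

/-- coning off from a fourth point -/
theorem Ar_cone {u v w x : V} (hu : Cone u) (hv : Cone v) (hw : Cone w) (hx : Cone x) :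
    Ar u v w = Ar x u v + Ar x v w + Ar x w u := by
  have := Ar_cocycle hx hu hv hw
  rw [Ar_swap hx hu hw]; linarith

lemma disc_oV : disc oV = 0 := by
  simp [disc, mC, oV, Complex.ext_iff]

lemma Ar_oV {u v : V} (hu : Cone u) (hv : Cone v) : Ar oV u v = eA u v := by
  rw [Ar_eq_eA hyp_oV.cone hu hv]; simp [eA, disc_oV]

/-! ### angles -/

/-- complex number whose argument is the oriented angle at `u` from `v` to `w` -/
def Tc (u v w : V) : ℂ := ⟨B u v * B u w - B u u * B v w, nrm u * det3 u v w⟩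

/-- oriented angle at `u` from the direction of `v` to the direction of `w`, in `(-π, π]` -/
def angV (u v w : V) : ℝ := arg (Tc u v w)

lemma Tc_re (u v w : V) : (Tc u v w).re = B u v * B u w - B u u * B v w := rfl
lemma Tc_im (u v w : V) : (Tc u v w).im = nrm u * det3 u v w := rfl

@[simp] lemma Tc_smul (g : SL(2, ℝ)) (u v w : V) : Tc (g • u) (g • v) (g • w) = Tc u v w := by
  simp [Tc]
@[simp] lemma angV_smul (g : SL(2, ℝ)) (u v w : V) : angV (g • u) (g • v) (g • w) = angV u v w := by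
  simp [angV]
@[simp] lemma Tc_psmul (g : PSL(2, ℝ)) (u v w : V) : Tc (g • u) (g • v) (g • w) = Tc u v w := by
  simp [Tc]
@[simp] lemma angV_psmul (g : PSL(2, ℝ)) (u v w : V) : angV (g • u) (g • v) (g • w) = angV u v w := by
  simp [angV]

lemma Tc_swap (u v w : V) : Tc u w v = conj (Tc u v w) := by
  apply Complex.ext
  · simp only [Tc_re, conj_re, B_comm w v]; ring
  · simp only [Tc_im, conj_im, det3_swap u v w]; ring

/-- at the base point the angle is the Euclidean angle between the disc directions -/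
lemma Tc_oV (v w : V) : Tc oV v w = conj (mC v) * mC w := by
  apply Complex.ext
  · simp [Tc_re, B, oV, mC]; ring
  · simp [Tc_im, hyp_oV.nrm, det3, mC]; simp [oV]; ring

lemma Tc_self (u v : V) : Tc u v v = ((B u v ^ 2 - B u u * B v v : ℝ) : ℂ) := by
  apply Complex.ext
  · simp only [Tc_re, ofReal_re]; ring
  · simp only [Tc_im, ofReal_im, det3_self23, mul_zero]

/-- additivity of angles -/
lemma Tc_mul {u : V} (hu : Cone u) (v w x : V) :
    Tc u v w * Tc u w x = ((B u w ^ 2 - B u u * B w w : ℝ) : ℂ) * Tc u v x := by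
  have hn := hu.nrm_sq
  apply Complex.ext
  · simp only [mul_re, Tc_re, Tc_im, ofReal_re, ofReal_im]
    have := det3_mul_det3 u v w u w x
    rw [B_comm v u, B_comm w u] at this
    linear_combination (-det3 u v w * det3 u w x) * hn - B u u * this
  · simp only [mul_im, Tc_re, Tc_im, ofReal_re, ofReal_im]
    have : (B u v * B u w - B u u * B v w) * det3 u w x + det3 u v w * (B u w * B u x - B u u * B w x)
        = (B u w ^ 2 - B u u * B w w) * det3 u v x := by unfold B det3; ring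
    linear_combination nrm u * this

lemma normSq_Tc {u : V} (hu : Cone u) (v w : V) :
    normSq (Tc u v w) = (B u v ^ 2 - B u u * B v v) * (B u w ^ 2 - B u u * B w w) := by
  rw [normSq_apply, Tc_re, Tc_im]
  have h1 := det3_sq u v w
  have hn := hu.nrm_sq
  rw [B_comm w u] at h1
  linear_combination (det3 u v w ^ 2) * hn + B u u * h1

lemma angV_pos {u v w : V} (hu : Tim u) (h : 0 < det3 u v w) : 0 < angV u v w ∧ angV u v w < Real.pi := by
  have him : 0 < (Tc u v w).im := mul_pos hu.nrm_pos h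
  refine ⟨?_, arg_lt_pi_iff.2 (Or.inr him.ne')⟩
  rcases (arg_nonneg_iff.2 him.le).lt_or_eq with h1 | h1
  · exact h1
  · exact absurd (arg_eq_zero_iff.1 h1.symm).2 him.ne'

lemma angV_ideal {u v w : V} (hu : Cone u) (hv : Cone v) (hw : Cone w) (h : B u u = 0) :
    angV u v w = 0 := by
  rw [angV, arg_eq_zero_iff, Tc_re, Tc_im]
  simp [nrm, h, mul_nonneg (hu.B_nonneg hv) (hu.B_nonneg hw)]

lemma angV_nonneg_lt {u v w : V} (hu : Cone u) (hv : Cone v) (hw : Cone w) (h : 0 < det3 u v w) :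
    0 ≤ angV u v w ∧ angV u v w < Real.pi := by
  rcases hu.2.lt_or_eq with h1 | h1
  · have := angV_pos (u := u) ⟨hu.1, h1⟩ h
    exact ⟨this.1.le, this.2⟩
  · rw [angV_ideal hu hv hw h1.symm]; exact ⟨le_rfl, Real.pi_pos⟩

lemma angV_swap {u v w : V} (h : nrm u * det3 u v w ≠ 0) : angV u w v = -angV u v w := by
  rw [angV, angV, Tc_swap, arg_conj, if_neg]
  intro hh
  exact h (arg_eq_pi_iff.1 hh).2

/-- two cone vectors spanning a plane (non-proportional) satisfy the strict reverse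
Cauchy–Schwarz inequality -/
lemma Cone.nrm_mul_lt {u v : V} (hu : Cone u) (hv : Cone v) {w : V} (h : det3 u v w ≠ 0) :
    nrm u * nrm v < B u v := by
  rcases (hu.nrm_mul_le hv).lt_or_eq with h1 | h1
  · exact h1
  exfalso
  apply h
  have h2 : B (cross u v) (cross u v) = 0 := by
    rw [B_cross_cross, B_comm v u, ← h1, ← hu.nrm_sq, ← hv.nrm_sq]; ring
  have h3 : B (cross u v) (u + v) = 0 := by rw [B_add_right, B_cross, B_cross]; simp
  rcases (hu.add hv).2.lt_or_eq with h4 | h4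
  · by_cases h5 : cross u v = 0
    · rw [← B_cross, h5]; simp
    · have := Tim.B_self_neg ⟨(hu.add hv).1, h4⟩ h3 h5
      linarith
  · rw [B_add_left, B_add_right, B_add_right, B_comm v u] at h4
    have : B u v = 0 := by linarith [hu.2, hv.2, hu.B_nonneg hv]
    rw [← det3_cyc]
    exact hu.det3_eq_zero_of_B hv this w

lemma Tc_prod {u v w : V} (hu : Cone u) (hv : Cone v) (hw : Cone w) :
    2 * (Tc u v w * Tc v w u * Tc w u v) = -((B u v - nrm u * nrm v) * (B v w - nrm v * nrm w) *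
      (B w u - nrm w * nrm u) : ℝ) * (conj (Zc u v w)) ^ 2 := by
  have hd := det3_sq u v w
  have e1 : det3 v w u = det3 u v w := (det3_cyc _ _ _).symm
  have e2 : det3 w u v = det3 u v w := det3_cyc _ _ _
  apply Complex.ext
  · simp only [mul_re, mul_im, Tc_re, Tc_im, re_ofNat, im_ofNat, neg_re, neg_im, ofReal_re,
      ofReal_im, sq, conj_re, conj_im, Zc_re, Zc_im, e1, e2, B_comm u w, B_comm v u, B_comm w v]
    rw [← hu.nrm_sq, ← hv.nrm_sq, ← hw.nrm_sq] at hd ⊢
    generalize nrm u = a at *; generalize nrm v = b at *; generalize nrm w = c at *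
    generalize B u v = z at *; generalize B v w = x at *; generalize B w u = y at *
    generalize det3 u v w = D at *
    grind
  · simp only [mul_re, mul_im, Tc_re, Tc_im, re_ofNat, im_ofNat, neg_re, neg_im, ofReal_re,
      ofReal_im, sq, conj_re, conj_im, Zc_re, Zc_im, e1, e2, B_comm u w, B_comm v u, B_comm w v]
    rw [← hu.nrm_sq, ← hv.nrm_sq, ← hw.nrm_sq] at hd ⊢
    generalize nrm u = a at *; generalize nrm v = b at *; generalize nrm w = c at *
    generalize B u v = z at *; generalize B v w = x at *; generalize B w u = y at *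
    generalize det3 u v w = D at *
    grind

lemma angV_add_half_Ar_lt {u v w : V} (hu : Cone u) (hv : Cone v) (hw : Cone w)
    (h : 0 < det3 u v w) : angV u v w + Ar u v w / 2 < Real.pi := by
  have h1 := angV_nonneg_lt hu hv hw h
  have h2 := (Ar_pos_iff hu hv hw).2 h
  have h3 := Ar_le_pi hu hv hw
  have p1 := hu.nrm_mul_lt hv h.ne'
  have p2 := hw.nrm_mul_lt hu (w := v) (by rw [det3_cyc]; exact h.ne')
  have a0 := nrm_nonneg u; have b0 := nrm_nonneg v; have c0 := nrm_nonneg w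
  have q1 : 0 < B u v := lt_of_le_of_lt (by positivity) p1
  have q2 : 0 < B w u := lt_of_le_of_lt (by positivity) p2
  have him : 0 < (Tc u v w * Zc u v w).im := by
    have : (Tc u v w * Zc u v w).im = det3 u v w * (B u v * B w u + nrm u ^ 2 * nrm v * nrm w
        + nrm u * nrm v * B w u + nrm u * nrm w * B u v) := by
      simp only [mul_im, Tc_re, Tc_im, Zc_re, Zc_im, B_comm u w]
      rw [← hu.nrm_sq]; ring
    rw [this]; positivity
  have hT : Tc u v w ≠ 0 := fun h0 => by rw [h0] at him; simp at him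
  have hZ : Zc u v w ≠ 0 := fun h0 => by rw [h0] at him; simp at him
  have hlt : arg (Tc u v w * Zc u v w) < Real.pi := arg_lt_pi_iff.2 (Or.inr him.ne')
  have hge : 0 ≤ arg (Tc u v w * Zc u v w) := arg_nonneg_iff.2 him.le
  have : arg (Tc u v w * Zc u v w) = angV u v w + Ar u v w / 2 := by
    apply eq_of_angle_eq
    · rw [arg_mul_coe_angle hT hZ, angV, Ar]; simp
    · rw [abs_lt]; constructor <;> linarith [Real.pi_pos]
  linarith

/-- **Gauss–Bonnet** for a positive triangle with vertices in the closed cone -/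
theorem gauss_bonnet {u v w : V} (hu : Cone u) (hv : Cone v) (hw : Cone w) (h : 0 < det3 u v w) :
    angV u v w + angV v w u + angV w u v = Real.pi - Ar u v w := by
  have h' : 0 < det3 v w u := by rwa [← det3_cyc]
  have h'' : 0 < det3 w u v := by rwa [det3_cyc]
  have a1 := angV_nonneg_lt hu hv hw h
  have a2 := angV_nonneg_lt hv hw hu h'
  have a3 := angV_nonneg_lt hw hu hv h''
  have b1 := angV_add_half_Ar_lt hu hv hw h
  have b2 := angV_add_half_Ar_lt hv hw hu h'
  have b3 := angV_add_half_Ar_lt hw hu hv h''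
  rw [← Ar_cyc] at b2
  rw [Ar_cyc] at b3
  have c1 := (Ar_pos_iff hu hv hw).2 h
  have c2 := Ar_le_pi hu hv hw
  have p1 := hu.nrm_mul_lt hv h.ne'
  have p2 := hv.nrm_mul_lt hw h'.ne'
  have p3 := hw.nrm_mul_lt hu h''.ne'
  have hP : 0 < (B u v - nrm u * nrm v) * (B v w - nrm v * nrm w) * (B w u - nrm w * nrm u) := by
    have := sub_pos.2 p1; have := sub_pos.2 p2; have := sub_pos.2 p3; positivity
  have hZ : Zc u v w ≠ 0 := fun h0 => by
    have := Zc_im u v w; rw [h0] at this; simp at this; linarith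
  have key := Tc_prod hu hv hw
  set P := (B u v - nrm u * nrm v) * (B v w - nrm v * nrm w) * (B w u - nrm w * nrm u)
  have key2 : Tc u v w * Tc v w u * Tc w u v * (Zc u v w * Zc u v w)
      = -((P / 2 * normSq (Zc u v w) ^ 2 : ℝ) : ℂ) := by
    push_cast; rw [normSq_eq_conj_mul_self]
    linear_combination (Zc u v w * Zc u v w / 2) * key
  have hpos : 0 < P / 2 * normSq (Zc u v w) ^ 2 := by
    have := normSq_pos.2 hZ; positivity
  have hne : Tc u v w * Tc v w u * Tc w u v * (Zc u v w * Zc u v w) ≠ 0 := by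
    rw [key2, neg_ne_zero]; exact_mod_cast hpos.ne'
  have t1 : Tc u v w ≠ 0 := fun h0 => hne (by rw [h0]; ring)
  have t2 : Tc v w u ≠ 0 := fun h0 => hne (by rw [h0]; ring)
  have t3 : Tc w u v ≠ 0 := fun h0 => hne (by rw [h0]; ring)
  have harg : arg (Tc u v w * Tc v w u * Tc w u v * (Zc u v w * Zc u v w)) = Real.pi := by
    rw [key2, ← ofReal_neg]; exact arg_ofReal_of_neg (by linarith)
  have : angV u v w + angV v w u + angV w u v + Ar u v w = Real.pi := by
    apply eq_of_angle_eq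
    · rw [← harg, arg_mul_coe_angle (mul_ne_zero (mul_ne_zero t1 t2) t3) (mul_ne_zero hZ hZ),
        arg_mul_coe_angle (mul_ne_zero t1 t2) t3, arg_mul_coe_angle t1 t2, arg_mul_coe_angle hZ hZ,
        angV, angV, angV, Ar, two_mul]
      simp
    · rw [abs_lt]; constructor <;> linarith [Real.pi_pos]
  linarith

end A25f44
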