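import Pool.Agent.Lib.MP_a25f44_gt.Defs

/-! One-vertex labelled triangulations with a cut set: definitions. -/

namespace Pool.Agent.Lib.MP_a25f44_gt

open Finset

/-- An invariant alternating real 2-cocycle on a set `Y` acted on through `α`. -/
structure IsCoc {Γ Y : Type} [Group Γ] (α : Γ →* Equiv.Perm Y) (A : Y → Y → Y → ℝ) : Prop where
  inv : ∀ g x y z, A (α g x) (α g y) (α g z) = A x y z
  om : ∃ ω : Y → Y → ℝ, (∀ x y, ω y x = -ω x y) ∧ ∀ x y z, A x y z = ω x y + ω y z + ω z x

namespace DartMap

variable {D : Type} (M : DartMap D)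

/-- one vertex -/
def Tr : Prop := ∀ d d', M.sg.SameCycle d d'

/-- A universal labelling of a one-vertex map. -/
structure Mark {Γ : Type} [Group Γ] (L : D → Γ) : Prop where
  lab : M.IsLab L
  tr : M.Tr
  gen : Subgroup.closure (Set.range L) = ⊤
  univ : ∀ (H : Type) [Group H] (μ : D → H), M.IsLab μ → ∃ ψ : Γ →* H, ∀ d, μ d = ψ (L d)

/-- The value of `A` on the face of `d`; `pos d` is the position of the origin of `d`. -/
def face {Γ Y β : Type} [Group Γ] (L : D → Γ) (α : Γ →* Equiv.Perm Y) (A : Y → Y → Y → β)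
    (pos : D → Y) (d : D) : β :=
  A (pos d) (α (L d) (pos (M.nx d))) (α (L d * L (M.nx d)) (pos (M.nx (M.nx d))))

/-- A change of triangulation that keeps the marking and the fundamental class. -/
structure Move [Fintype D] {Γ : Type} [Group Γ] (L : D → Γ) (M' : DartMap D) (L' : D → Γ) :
    Prop where
  mark : M'.Mark L'
  op : M'.op = M.op
  area : ∀ (Y : Type) (α : Γ →* Equiv.Perm Y) (A : Y → Y → Y → ℝ), IsCoc α A → ∀ o : Y,
    ∑ d, M'.face L' α A (fun _ => o) d = ∑ d, M.face L α A (fun _ => o) d

/-- a nonempty set of edges of a one-vertex map -/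
structure IsCut (K : Finset D) : Prop where
  tr : M.Tr
  inv : ∀ d ∈ K, M.op d ∈ K
  ne : K.Nonempty

/-- `f` is constant on the vertices of the map cut along `K`. -/
def Compat (K : Finset D) {β : Type} (f : D → β) : Prop :=
  ∀ d, d ∉ K → f (M.op d) = f (M.nx d)

/-- one counterclockwise step around a vertex of the cut map -/
def Step (K : Finset D) (x y : D) : Prop := ∃ d, d ∉ K ∧ x = M.nx d ∧ y = M.op d

open Classical in
/-- The vertex of the cut map at the origin of `d`, named by the dart of `K` that starts there. -/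
noncomputable def vtx (K : Finset D) (d : D) : D :=
  if h : ∃ w ∈ K, Relation.ReflTransGen (M.Step K) w d then h.choose else d

/-- a union of components of the cut map -/
def Closed (K C : Finset D) : Prop := (∀ d ∈ C, M.nx d ∈ C) ∧ ∀ d ∈ C, d ∉ K → M.op d ∈ C

/-- `F` is the formal part; every other dart of `K` (a wall) is a loop of the cut map. -/
structure PS (K F : Finset D) : Prop where
  cut : M.IsCut K
  cl : M.Closed K F
  loop : ∀ w ∈ K, w ∉ F → M.vtx K (M.nx w) = w

/-- no component outside `F` is an annulus -/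
def NoAnn (K F : Finset D) : Prop :=
  ∀ C : Finset D, M.Closed K C → Disjoint C F → C.Nonempty → 6 < C.card

/-- the triangles of the walls `v`, `w` form an annulus -/
def Ann (v w : D) : Prop :=
  M.op (M.nx v) = M.nx w ∧ M.op (M.nx (M.nx v)) = M.nx (M.nx w)

/-- the face of `d` is neither formal nor on a wall -/
def Good (K F : Finset D) (d : D) : Prop :=
  d ∉ F ∧ d ∉ K ∧ M.nx d ∉ K ∧ M.nx (M.nx d) ∉ K

/-- rewiring of the faces by a permutation of the darts -/
def conj (β : Equiv.Perm D) : DartMap D where
  nx := β * M.nx * β⁻¹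
  op := M.op
  nx3 d := by simp [M.nx3]
  op2 := M.op2
  nx_ne d h := M.nx_ne (β⁻¹ d) (by
    have := congrArg (⇑β⁻¹) h
    simpa using this)
  op_ne := M.op_ne

variable [DecidableEq D]

/-- the faces of `x` -/
def tri (x : D) : Finset D := {x, M.nx x, M.nx (M.nx x)}

/-- the three edges of the face of `x` -/
def triK (x : D) : Finset D := M.tri x ∪ (M.tri x).image M.op

/-- Three times the angle defect of the part outside `F`, the walls being collapsed; `a g` is the
area between the loop from `o` to `g o` and a fixed point of `g`. -/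
noncomputable def lam [Fintype D] {Γ Y : Type} [Group Γ] (L : D → Γ) (α : Γ →* Equiv.Perm Y)
    (A : Y → Y → Y → ℝ) (o : Y) (a : Γ → ℝ) (K F : Finset D) : ℝ :=
  Real.pi * ((Fᶜ.card : ℝ) - 3 * (K \ F).card) - ∑ d ∈ Fᶜ, M.face L α A (fun _ => o) d +
    3 * ∑ w ∈ K \ F, a (L w)

/-- The flip of the edge of `a`: the faces `(a, b, c)`, `(a', b', c')` become `(a, c', b)`,
`(a', c, b')`. -/
def flip (a : D) : DartMap D :=
  M.conj (Equiv.swap (M.nx a) (M.nx (M.nx (M.op a))) *
    Equiv.swap (M.nx (M.nx (M.op a))) (M.nx (M.op a)) *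
    Equiv.swap (M.nx (M.op a)) (M.nx (M.nx a)))

/-- labels after a flip -/
def flipL {H : Type} [Group H] (L : D → H) (a : D) (d : D) : H :=
  if d = a then L (M.nx (M.nx a)) * L (M.nx (M.op a))
  else if d = M.op a then (L (M.nx (M.nx a)) * L (M.nx (M.op a)))⁻¹ else L d

/-- positions after a flip -/
def flipP {β : Type} (pos : D → β) (a : D) (d : D) : β :=
  if d = a then pos (M.nx (M.nx a)) else if d = M.op a then pos (M.nx (M.nx (M.op a))) else pos d

/-- gauge transformation by `s` at the vertex `w` of the cut map -/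
noncomputable def gauge {H : Type} [Group H] (L : D → H) (K : Finset D) (w : D) (s : H) (d : D) :
    H :=
  (if M.vtx K d = w then s else 1)⁻¹ * L d * (if M.vtx K (M.nx d) = w then s else 1)

/-- pants state at the face of `x`; the walls are `op x`, `op (nx x)`, `op (nx (nx x))` -/
def Pants (x : D) : Prop := M.PS (M.triK x) (M.tri x)

end DartMap

end Pool.Agent.Lib.MP_a25f44_gt
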