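import Pool.Agent.Lib.MP_a25f44_gt.H33Sum
import Pool.Agent.Lib.MP_a25f44_gt.H48Defs

/-!
# The area on the closed cone as an `IsCoc` cocycle (helper33)
-/

open scoped MatrixGroups
open Pool.Agent.Lib.MP_a25f44_gt

noncomputable section

namespace A25f44

/-- points of the closed cone -/
abbrev CV := {v : V // Cone v}

instance : MulAction PSL(2, ℝ) CV where
  smul g v := ⟨g • v.1, v.2.psmul g⟩
  one_smul v := Subtype.ext (one_smul _ v.1)
  mul_smul g h v := Subtype.ext (mul_smul g h v.1)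

@[simp] lemma coe_psmul (g : PSL(2, ℝ)) (v : CV) : ((g • v : CV) : V) = g • (v : V) := rfl

variable {D Γ : Type} [Group Γ]

/-- the action of `Γ` on the closed cone through `ρ` -/
def cvAct (ρ : Γ →* PSL(2, ℝ)) : Γ →* Equiv.Perm CV :=
  (MulAction.toPermHom PSL(2, ℝ) CV).comp ρ

@[simp] lemma cvAct_coe (ρ : Γ →* PSL(2, ℝ)) (g : Γ) (v : CV) :
    ((cvAct ρ g v : CV) : V) = ρ g • (v : V) := rfl

/-- area on `CV` -/
def ArC (u v w : CV) : ℝ := Ar u v w
/-- determinant on `CV` -/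
def detC (u v w : CV) : ℝ := det3 u v w
/-- angle on `CV` -/
def angC (u v w : CV) : ℝ := angV u v w

theorem isCoc_ArC (ρ : Γ →* PSL(2, ℝ)) : IsCoc (cvAct ρ) ArC where
  inv g x y z := by simp [ArC]
  om := ⟨fun x y => eA x y, fun x y => eA_swap x.2 y.2, fun x y z => Ar_eq_eA x.2 y.2 z.2⟩

lemma detC_inv (ρ : Γ →* PSL(2, ℝ)) (g : Γ) (x y z : CV) :
    detC (cvAct ρ g x) (cvAct ρ g y) (cvAct ρ g z) = detC x y z := by simp [detC]
lemma detC_cyc (x y z : CV) : detC y z x = detC x y z := (det3_cyc _ _ _).symm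
lemma angC_inv (ρ : Γ →* PSL(2, ℝ)) (g : Γ) (x y z : CV) :
    angC (cvAct ρ g x) (cvAct ρ g y) (cvAct ρ g z) = angC x y z := by simp [angC]

lemma face_ArC (M : DartMap D) (L : D → Γ) (ρ : Γ →* PSL(2, ℝ)) (pos : D → CV) (d : D) :
    M.face L (cvAct ρ) ArC pos d = faceAr M L ρ (fun x => (pos x : V)) d := rfl
lemma face_detC (M : DartMap D) (L : D → Γ) (ρ : Γ →* PSL(2, ℝ)) (pos : D → CV) (d : D) :
    M.face L (cvAct ρ) detC pos d = faceDet M L ρ (fun x => (pos x : V)) d := rfl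
lemma face_angC (M : DartMap D) (L : D → Γ) (ρ : Γ →* PSL(2, ℝ)) (pos : D → CV) (d : D) :
    M.face L (cvAct ρ) angC pos d = faceAng M L ρ (fun x => (pos x : V)) d := rfl

/-- the action of `Γ` on all of `V` through `ρ` (for invariant functions such as `det3`, `B`) -/
def vAct (ρ : Γ →* PSL(2, ℝ)) : Γ →* Equiv.Perm V := (MulAction.toPermHom PSL(2, ℝ) V).comp ρ

@[simp] lemma vAct_apply (ρ : Γ →* PSL(2, ℝ)) (g : Γ) (v : V) : vAct ρ g v = ρ g • v := rfl

lemma face_det3 (M : DartMap D) (L : D → Γ) (ρ : Γ →* PSL(2, ℝ)) (pos : D → V) (d : D) :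
    M.face L (vAct ρ) det3 pos d = faceDet M L ρ pos d := rfl
lemma face_Ar (M : DartMap D) (L : D → Γ) (ρ : Γ →* PSL(2, ℝ)) (pos : D → V) (d : D) :
    M.face L (vAct ρ) Ar pos d = faceAr M L ρ pos d := rfl

/-- moves preserve the total area -/
theorem Move_faceAr [Fintype D] {M M' : DartMap D} {L L' : D → Γ} (h : M.Move L M' L')
    (ρ : Γ →* PSL(2, ℝ)) {p : V} (hp : Cone p) :
    ∑ d, faceAr M' L' ρ (fun _ => p) d = ∑ d, faceAr M L ρ (fun _ => p) d :=
  h.area CV (cvAct ρ) ArC (isCoc_ArC ρ) ⟨p, hp⟩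

end A25f44
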