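import Pool.Agent.Lib.MP_a25f44_gt.H33Sum
import Pool.Agent.Lib.MP_a25f44_gt.H48Defs

/-! Definitions for the descent: lifts, lengths, admissible states, budget, state predicates. -/

open scoped MatrixGroups
open Pool.Agent.Lib.MP_a25f44_gt Finset

noncomputable section

namespace A25f44

/-- the lift with nonnegative trace -/
def cl (g : PSL(2, ℝ)) : SL(2, ℝ) :=
  if 0 ≤ tr (Quotient.out g) then Quotient.out g else -Quotient.out g

/-- hyperbolic distance on the hyperboloid -/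
def dV (u v : V) : ℝ := Real.arcosh (B u v)

/-- length of the loop from `v` to `A • v` -/
def lpV (A : SL(2, ℝ)) (v : V) : ℝ := dV v (A • v)

/-- translation length (for `2 ≤ |tr A|`) -/
def tl (A : SL(2, ℝ)) : ℝ := Real.arcosh (tr A ^ 2 / 2 - 1)

/-- turning of the loop of `A` at `v` -/
def qa (A : SL(2, ℝ)) (v : V) : ℝ := 2 * Complex.arg (al A v)

/-- hypotenuse -/
def hy (s t : ℝ) : ℝ := Real.arcosh (Real.cosh s * Real.cosh t)

/-- the potential of a pair of pants with cuff lengths `s, t, u` -/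
def G3 (s t u : ℝ) : ℝ := max (s + hy t u) (max (t + hy s u) (u + hy s t))

/-- `2 π` times the relative Euler number of a pair of pants -/
def Ev (a b c : SL(2, ℝ)) (o : V) : ℝ :=
  Ar o (a • o) ((a * b) • o) - qa a o - qa b o - qa c o

/-- trace of the commutator minus two -/
def Th (a b : SL(2, ℝ)) : ℝ := tr (a * b * a⁻¹ * b⁻¹) - 2

/-- ideal points -/
def Idl (v : V) : Prop := Cone v ∧ B v v = 0

/-- counterclockwise rotation by an angle in `(0, π)`, of trace `τ` -/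
def Ell (τ : ℝ) (A : SL(2, ℝ)) : Prop := 0 < τ ∧ τ < 2 ∧ tr A = τ ∧ 0 < rot A oV

variable {D Γ : Type} [Group Γ] (ρ : Γ →* PSL(2, ℝ))

/-- the lift of the holonomy of a dart -/
def lf (L : D → Γ) (d : D) : SL(2, ℝ) := cl (ρ (L d))

/-- lifts with nonnegative trace on a set of darts -/
def Lifts (L : D → Γ) (S : Finset D) (A : D → SL(2, ℝ)) : Prop :=
  ∀ w ∈ S, (A w : PSL(2, ℝ)) = ρ (L w) ∧ 0 ≤ tr (A w)

/-- the commutator of the labels of two darts -/
def com (L : D → Γ) (e a : D) : SL(2, ℝ) := cl (ρ (L e * L a * (L e)⁻¹ * (L a)⁻¹))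

variable [DecidableEq D]

/-- regular placement of the vertices of the cut map -/
def Reg (K F : Finset D) (A : D → SL(2, ℝ)) (y : D → V) : Prop :=
  (∀ d, Cone (y d)) ∧ ∀ w ∈ K \ F, Tim (y w) ∨ 2 ≤ tr (A w)

/-- the two vertices of the map cut along the edge of `e` are put at `z` (left of `e`) and `u` -/
def pos2 (M : DartMap D) (e : D) (z u : V) (d : D) : V :=
  if M.vtx {e, M.op e} d = e then z else u

/-- the edge of `a` goes from the left side of `e` to its right side -/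
def Itl (M : DartMap D) (e a : D) : Prop :=
  M.vtx {e, M.op e} a = e ∧ M.vtx {e, M.op e} (M.nx a) = M.op e

/-- the nine darts of a handle -/
def F9 (M : DartMap D) (x : D) : Finset D :=
  M.tri x ∪ M.tri (M.op (M.nx (M.nx x))) ∪ M.tri (M.op (M.nx x))

/-- pants face whose three lifts multiply to `+1` -/
def Bad (M : DartMap D) (L : D → Γ) (x : D) : Prop :=
  M.Pants x ∧ lf ρ L x * lf ρ L (M.nx x) * lf ρ L (M.nx (M.nx x)) = 1

/-- pants event at the wall `e`: nearly flat face, or short loop -/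
def EvP (M : DartMap D) (L : D → Γ) (e : D) (y : V) (η : ℝ) : Prop :=
  M.Pants e ∧
    (lpV (lf ρ L (M.nx e)) y + lpV (lf ρ L (M.nx (M.nx e))) y ≤ lpV (lf ρ L e) y + η ∨
      lpV (lf ρ L (M.nx (M.nx e))) y ≤ η)

/-- handle event: the two loops nearly touch -/
def EvW (M : DartMap D) (L : D → Γ) (e : D) (z u : V) (η : ℝ) : Prop :=
  ∃ (a : D) (m₁ m₂ : V) (s₁ s₂ : ℝ), Itl M e a ∧ Hyp m₁ ∧ Hyp m₂ ∧ 0 ≤ s₁ ∧ s₁ ≤ 1 ∧ 0 ≤ s₂ ∧
    s₂ ≤ 1 ∧ rot (lf ρ L e) m₁ = s₁ * rot (lf ρ L e) z ∧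
    rot (lf ρ L e) m₂ = s₂ * rot (lf ρ L e) u ∧ dV m₁ (ρ (L a) • m₂) ≤ η

variable [Fintype D]

/-- marked one-vertex triangulation with total angle defect `4 π` -/
structure Adm (M : DartMap D) (L : D → Γ) : Prop where
  mark : M.Mark L
  card : 12 < Fintype.card D
  area : ∑ d, faceAr M L ρ (fun _ => oV) d = Real.pi * ((Fintype.card D : ℝ) - 12)

/-- three times (angle defect outside `F` plus the turning of the walls) -/
def bud (M : DartMap D) (L : D → Γ) (K F : Finset D) (A : D → SL(2, ℝ)) (y : D → V) : ℝ :=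
  ∑ d ∈ Fᶜ, (Real.pi - faceAr M L ρ (fun d => y (M.vtx K d)) d) +
    3 * ∑ w ∈ K \ F, qa (A w) (y w)

/-- positive triangulation of the surface cut along one edge -/
structure ACfg (M : DartMap D) (L : D → Γ) (e : D) (z u : V) : Prop where
  adm : Adm ρ M L
  hz : Hyp z
  hu : Hyp u
  pos : ∀ d, 0 < faceDet M L ρ (pos2 M e z u) d

variable (D)

/-- success: all faces positive at one point -/
def Succ : Prop :=
  ∃ (M : DartMap D) (L : D → Γ) (x : V), Adm ρ M L ∧ Hyp x ∧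
    ∀ d, 0 < faceDet M L ρ (fun _ => x) d

/-- no elliptic edge -/
def NE : Prop := ∀ (M : DartMap D) (L : D → Γ), Adm ρ M L → ∀ d, 2 ≤ tr (lf ρ L d)

/-- handle with boundary length at most `l` -/
def Hd (l : ℝ) : Prop :=
  ∃ (M : DartMap D) (L : D → Γ) (x : D), Adm ρ M L ∧ Bad ρ M L x ∧
    M.Ann (M.op (M.nx (M.nx x))) (M.op (M.nx x)) ∧ tl (lf ρ L x) ≤ l

/-- state of the non elliptic descent -/
def AS (κ F : ℝ) : Prop :=
  ∃ (M : DartMap D) (L : D → Γ) (e : D) (z u : V), ACfg ρ M L e z u ∧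
    |rot (lf ρ L e) u| ≤ κ ∧ |rot (lf ρ L e) u| ≤ rot (lf ρ L e) z ∧
    lpV (lf ρ L e) z + lpV (lf ρ L e) u ≤ F

/-- state of the elliptic descent -/
def ES (τ κ r : ℝ) : Prop :=
  ∃ (M : DartMap D) (L : D → Γ) (e : D) (z u : V), ACfg ρ M L e z u ∧ Ell τ (lf ρ L e) ∧
    (∀ s t : ℝ, 0 ≤ s → 0 ≤ t → Hyp (s • z + t • u) →
      lf ρ L e • (s • z + t • u) ≠ s • z + t • u) ∧
    lpV (lf ρ L e) u ≤ κ ∧ lpV (lf ρ L e) u ≤ lpV (lf ρ L e) z ∧ lpV (lf ρ L e) z ≤ r

end A25f44
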