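import Pool.Agent.Lib.MP_a25f44_gt.H33Hyp
import Pool.Agent.Lib.MP_a25f44_gt.H71Defs

/-!
# Metric facts for `dV`, `lpV`, `tl`, `qa` (helper33)
-/

open scoped MatrixGroups UpperHalfPlane Topology
open Filter

noncomputable section

namespace A25f44

/-! ### distance -/

lemma dV_comm (u v : V) : dV u v = dV v u := by rw [dV, dV, B_comm]
@[simp] lemma dV_smul (g : SL(2, ℝ)) (u v : V) : dV (g • u) (g • v) = dV u v := by simp [dV]
@[simp] lemma dV_psmul (g : PSL(2, ℝ)) (u v : V) : dV (g • u) (g • v) = dV u v := by simp [dV]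
lemma cosh_dV {u v : V} (hu : Hyp u) (hv : Hyp v) : Real.cosh (dV u v) = B u v :=
  Real.cosh_arcosh (hu.one_le_B hv)
lemma sinh_dV {u v : V} (hu : Hyp u) (hv : Hyp v) : Real.sinh (dV u v) = √(B u v ^ 2 - 1) :=
  Real.sinh_arcosh (hu.one_le_B hv)
lemma dV_nonneg {u v : V} (hu : Hyp u) (hv : Hyp v) : 0 ≤ dV u v :=
  Real.arcosh_nonneg (hu.one_le_B hv)
lemma dV_self {u : V} (hu : Hyp u) : dV u u = 0 := by rw [dV, hu.2, Real.arcosh_zero]
lemma dV_eq_zero_iff {u v : V} (hu : Hyp u) (hv : Hyp v) : dV u v = 0 ↔ u = v :=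
  ⟨fun h => hu.eq_of_B_eq_one hv ((Real.arcosh_eq_zero_iff (hu.one_le_B hv)).1 h),
    fun h => h ▸ dV_self hu⟩
lemma dV_pos {u v : V} (hu : Hyp u) (hv : Hyp v) (h : u ≠ v) : 0 < dV u v :=
  lt_of_le_of_ne (dV_nonneg hu hv) fun e => h ((dV_eq_zero_iff hu hv).1 e.symm)
lemma dV_vec (z w : ℍ) : dV (vec z) (vec w) = dist z w := by
  rw [dV, ← cosh_dist, Real.arcosh_cosh dist_nonneg]

lemma dV_triangle {u v w : V} (hu : Hyp u) (hv : Hyp v) (hw : Hyp w) :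
    dV u w ≤ dV u v + dV v w := by
  obtain ⟨a, rfl⟩ := hu.exists_vec
  obtain ⟨b, rfl⟩ := hv.exists_vec
  obtain ⟨c, rfl⟩ := hw.exists_vec
  simp only [dV_vec]; exact dist_triangle _ _ _

lemma arcosh_le_iff {x r : ℝ} (hx : 1 ≤ x) (hr : 0 ≤ r) : Real.arcosh x ≤ r ↔ x ≤ Real.cosh r := by
  conv_lhs => rw [← Real.arcosh_cosh hr]
  exact Real.arcosh_le_arcosh (by linarith) (Real.cosh_pos r)
lemma arcosh_lt_iff {x r : ℝ} (hx : 1 ≤ x) (hr : 0 ≤ r) : Real.arcosh x < r ↔ x < Real.cosh r := by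
  conv_lhs => rw [← Real.arcosh_cosh hr]
  exact Real.arcosh_lt_arcosh (by linarith) (Real.cosh_pos r)
lemma le_arcosh_iff {x r : ℝ} (hx : 1 ≤ x) (hr : 0 ≤ r) : r ≤ Real.arcosh x ↔ Real.cosh r ≤ x := by
  rw [← not_lt, arcosh_lt_iff hx hr, not_lt]
lemma arcosh_mono {x y : ℝ} (hx : 1 ≤ x) (h : x ≤ y) : Real.arcosh x ≤ Real.arcosh y :=
  (Real.arcosh_le_arcosh (by linarith) (by linarith)).2 h

lemma dV_le_iff {u v : V} (hu : Hyp u) (hv : Hyp v) {r : ℝ} (hr : 0 ≤ r) :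
    dV u v ≤ r ↔ B u v ≤ Real.cosh r := arcosh_le_iff (hu.one_le_B hv) hr
lemma dV_lt_iff {u v : V} (hu : Hyp u) (hv : Hyp v) {r : ℝ} (hr : 0 ≤ r) :
    dV u v < r ↔ B u v < Real.cosh r := arcosh_lt_iff (hu.one_le_B hv) hr
lemma le_dV_iff {u v : V} (hu : Hyp u) (hv : Hyp v) {r : ℝ} (hr : 0 ≤ r) :
    r ≤ dV u v ↔ Real.cosh r ≤ B u v := le_arcosh_iff (hu.one_le_B hv) hr
lemma dV_le_dV {u v x y : V} (hu : Hyp u) (hv : Hyp v) (h : B u v ≤ B x y) : dV u v ≤ dV x y :=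
  arcosh_mono (hu.one_le_B hv) h

/-- `η ↦ cosh η - 1` converts the events of `sweep` to distances -/
lemma cosh_sub_one_pos {η : ℝ} (h : 0 < η) : 0 < Real.cosh η - 1 :=
  sub_pos.2 (Real.one_lt_cosh.2 h.ne')
lemma dV_lt_of_B_lt {u v : V} (hu : Hyp u) (hv : Hyp v) {η : ℝ} (hη : 0 < η)
    (h : B u v < 1 + (Real.cosh η - 1)) : dV u v < η :=
  (dV_lt_iff hu hv hη.le).2 (by linarith)

/-- additivity along a segment -/
lemma dV_add_of_middle {u w : V} (hu : Hyp u) (hw : Hyp w) {α β : ℝ} (hα : 0 ≤ α) (hβ : 0 ≤ β)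
    (h : Hyp (α • u + β • w)) : dV u (α • u + β • w) + dV (α • u + β • w) w = dV u w := by
  have h1 := h.2
  rw [B_comb_self hu hw] at h1
  have hb := hu.one_le_B hw
  have e1 : B u (α • u + β • w) = α + β * B u w := by
    simp only [B_add_right, B_smul_right, hu.2]; ring
  have e2 : B (α • u + β • w) w = α * B u w + β := by
    simp only [B_add_left, B_smul_left, hw.2]; ring
  have hs : 0 ≤ B u w ^ 2 - 1 := by nlinarith
  have s1 : Real.sinh (dV u (α • u + β • w)) = β * √(B u w ^ 2 - 1) := by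
    rw [sinh_dV hu h, e1, show (α + β * B u w) ^ 2 - 1 = β ^ 2 * (B u w ^ 2 - 1) by
      linear_combination h1, Real.sqrt_mul (sq_nonneg _), Real.sqrt_sq hβ]
  have s2 : Real.sinh (dV (α • u + β • w) w) = α * √(B u w ^ 2 - 1) := by
    rw [sinh_dV h hw, e2, show (α * B u w + β) ^ 2 - 1 = α ^ 2 * (B u w ^ 2 - 1) by
      linear_combination h1, Real.sqrt_mul (sq_nonneg _), Real.sqrt_sq hα]
  have key : Real.cosh (dV u (α • u + β • w) + dV (α • u + β • w) w) = B u w := by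
    rw [Real.cosh_add, s1, s2, cosh_dV hu h, cosh_dV h hw, e1, e2]
    have := Real.mul_self_sqrt hs
    linear_combination α * β * this + B u w * h1
  rw [← Real.arcosh_cosh (add_nonneg (dV_nonneg hu h) (dV_nonneg h hw)), key, dV]

lemma _root_.Filter.Tendsto.dV {ι : Type*} {l : Filter ι} {f g : ι → V} {u v : V}
    (hf : Tendsto f l (𝓝 u)) (hg : Tendsto g l (𝓝 v)) (h : 1 ≤ B u v)
    (h' : ∀ᶠ n in l, 1 ≤ B (f n) (g n)) :
    Tendsto (fun n => dV (f n) (g n)) l (𝓝 (dV u v)) :=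
  (Real.continuousOn_arcosh _ h).tendsto.comp (tendsto_nhdsWithin_iff.2 ⟨hf.B hg, h'⟩)

/-! ### loops -/

lemma cosh_lpV (A : SL(2, ℝ)) {v : V} (hv : Hyp v) :
    Real.cosh (lpV A v) = tr A ^ 2 / 2 - 1 + 2 * rot A v ^ 2 := by
  rw [lpV, cosh_dV hv (hv.smul A), B_smul_self, hv.2, mul_one]
lemma lpV_eq (A : SL(2, ℝ)) {v : V} (hv : Hyp v) :
    lpV A v = Real.arcosh (tr A ^ 2 / 2 - 1 + 2 * rot A v ^ 2) := by
  rw [lpV, dV, B_smul_self, hv.2, mul_one]
lemma one_le_lp (A : SL(2, ℝ)) {v : V} (hv : Hyp v) : 1 ≤ tr A ^ 2 / 2 - 1 + 2 * rot A v ^ 2 := by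
  rw [← cosh_lpV A hv]; exact Real.one_le_cosh _
lemma lpV_nonneg (A : SL(2, ℝ)) {v : V} (hv : Hyp v) : 0 ≤ lpV A v := dV_nonneg hv (hv.smul A)
lemma cosh_half_lpV_sq (A : SL(2, ℝ)) {v : V} (hv : Hyp v) :
    Real.cosh (lpV A v / 2) ^ 2 = (tr A / 2) ^ 2 + rot A v ^ 2 := by
  have h := cosh_lpV A hv
  rw [show lpV A v = 2 * (lpV A v / 2) by ring, Real.cosh_two_mul, Real.sinh_sq] at h
  linarith
lemma sinh_half_lpV_sq (A : SL(2, ℝ)) {v : V} (hv : Hyp v) :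
    Real.sinh (lpV A v / 2) ^ 2 = (tr A / 2) ^ 2 + rot A v ^ 2 - 1 := by
  rw [Real.sinh_sq, cosh_half_lpV_sq A hv]
lemma norm_al (A : SL(2, ℝ)) {v : V} (hv : Hyp v) : ‖al A v‖ = Real.cosh (lpV A v / 2) := by
  have h1 : ‖al A v‖ ^ 2 = Real.cosh (lpV A v / 2) ^ 2 := by
    rw [cosh_half_lpV_sq A hv, Complex.sq_norm, Complex.normSq_apply, al_re, al_im, hv.nrm]; ring
  exact (pow_left_inj₀ (norm_nonneg _) (Real.cosh_pos _).le two_ne_zero).1 h1
lemma lpV_neg (A : SL(2, ℝ)) (v : V) : lpV (-A) v = lpV A v := by rw [lpV, lpV, neg_smul_V]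
lemma lpV_inv (A : SL(2, ℝ)) (v : V) : lpV A⁻¹ v = lpV A v := by
  rw [lpV, lpV, ← dV_smul A, smul_inv_smul, dV_comm]
lemma lpV_conj (h A : SL(2, ℝ)) (v : V) : lpV (h * A * h⁻¹) (h • v) = lpV A v := by
  rw [lpV, lpV, mul_smul, inv_smul_smul, mul_smul, dV_smul]
lemma lpV_smul_self (A : SL(2, ℝ)) (v : V) : lpV A (A • v) = lpV A v := by
  rw [lpV, lpV, dV_smul]
lemma lpV_one {v : V} (hv : Hyp v) : lpV 1 v = 0 := by rw [lpV, one_smul, dV_self hv]
lemma lpV_eq_of_mk {A C : SL(2, ℝ)} (h : (A : PSL(2, ℝ)) = C) (v : V) : lpV A v = lpV C v := by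
  rw [lpV, lpV, ← mk_smul, h, mk_smul]
lemma lpV_mul_le (A C : SL(2, ℝ)) {v : V} (hv : Hyp v) : lpV (A * C) v ≤ lpV A v + lpV C v := by
  have := dV_triangle hv (hv.smul A) (hv.smul (A * C))
  rwa [mul_smul, dV_smul, ← mul_smul] at this
lemma lpV_le_add (A : SL(2, ℝ)) {u v : V} (hu : Hyp u) (hv : Hyp v) :
    lpV A u ≤ lpV A v + 2 * dV u v := by
  have h1 := dV_triangle hu hv (hu.smul A)
  have h2 := dV_triangle hv (hv.smul A) (hu.smul A)
  rw [dV_smul, dV_comm v u] at h2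
  simp only [lpV]; linarith
lemma lpV_mono (A : SL(2, ℝ)) {u v : V} (hu : Hyp u) (hv : Hyp v) (h : |rot A u| ≤ |rot A v|) :
    lpV A u ≤ lpV A v := by
  rw [lpV_eq A hu, lpV_eq A hv]
  have := sq_le_sq.2 h
  exact arcosh_mono (one_le_lp A hu) (by linarith)
lemma lpV_le_lpV_iff (A : SL(2, ℝ)) {u v : V} (hu : Hyp u) (hv : Hyp v) :
    lpV A u ≤ lpV A v ↔ |rot A u| ≤ |rot A v| := by
  rw [lpV_eq A hu, lpV_eq A hv, Real.arcosh_le_arcosh (by linarith [one_le_lp A hu])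
    (by linarith [one_le_lp A hv]), ← sq_le_sq]
  constructor <;> intro h <;> linarith
lemma lpV_eq_zero_iff (A : SL(2, ℝ)) {v : V} (hv : Hyp v) : lpV A v = 0 ↔ A • v = v := by
  rw [lpV, dV_eq_zero_iff hv (hv.smul A), eq_comm]

/-! ### translation length -/

lemma one_le_tl_arg {A : SL(2, ℝ)} (h : 2 ≤ |tr A|) : 1 ≤ tr A ^ 2 / 2 - 1 := by
  have : 2 ^ 2 ≤ |tr A| ^ 2 := pow_le_pow_left₀ (by norm_num) h 2
  rw [sq_abs] at this; linarith
lemma cosh_tl {A : SL(2, ℝ)} (h : 2 ≤ |tr A|) : Real.cosh (tl A) = tr A ^ 2 / 2 - 1 :=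
  Real.cosh_arcosh (one_le_tl_arg h)
lemma tl_nonneg {A : SL(2, ℝ)} (h : 2 ≤ |tr A|) : 0 ≤ tl A := Real.arcosh_nonneg (one_le_tl_arg h)
lemma cosh_half_tl {A : SL(2, ℝ)} (h : 2 ≤ |tr A|) : Real.cosh (tl A / 2) = |tr A| / 2 := by
  have h1 := cosh_tl h
  rw [show tl A = 2 * (tl A / 2) by ring, Real.cosh_two_mul, Real.sinh_sq] at h1
  have h2 : Real.cosh (tl A / 2) ^ 2 = (|tr A| / 2) ^ 2 := by rw [div_pow, sq_abs]; linarith
  exact (pow_left_inj₀ (Real.cosh_pos _).le (by positivity) two_ne_zero).1 h2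
lemma tl_eq_two_arcosh {A : SL(2, ℝ)} (h : 2 ≤ |tr A|) : tl A = 2 * Real.arcosh (|tr A| / 2) := by
  rw [← cosh_half_tl h, Real.arcosh_cosh (by linarith [tl_nonneg h])]; ring
lemma tl_eq_log {A : SL(2, ℝ)} (h : 2 ≤ tr A) : tl A = 2 * Real.log (lam A) := by
  rw [tl_eq_two_arcosh (h.trans (le_abs_self _)), abs_of_nonneg (by linarith)]; rfl
lemma tl_eq_zero_iff {A : SL(2, ℝ)} (h : 2 ≤ tr A) : tl A = 0 ↔ tr A = 2 := by
  rw [tl, Real.arcosh_eq_zero_iff (one_le_tl_arg (h.trans (le_abs_self _)))]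
  constructor
  · intro h1; nlinarith
  · intro h1; rw [h1]; norm_num
lemma tl_pos {A : SL(2, ℝ)} (h : 2 < tr A) : 0 < tl A :=
  Real.arcosh_pos (by nlinarith)
lemma tl_neg (A : SL(2, ℝ)) : tl (-A) = tl A := by rw [tl, tl, tr_neg, neg_sq]
lemma tl_inv (A : SL(2, ℝ)) : tl A⁻¹ = tl A := by rw [tl, tl, tr_inv]
lemma tl_conj (h A : SL(2, ℝ)) : tl (h * A * h⁻¹) = tl A := by rw [tl, tl, tr_conj]
lemma tl_eq_of_mk {A C : SL(2, ℝ)} (h : (A : PSL(2, ℝ)) = C) : tl A = tl C := by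
  rcases (mk_eq_iff _ _).1 h with rfl | rfl
  · rfl
  · exact tl_neg _
lemma tl_mono {A C : SL(2, ℝ)} (h : 2 ≤ |tr A|) (h' : |tr A| ≤ |tr C|) : tl A ≤ tl C := by
  have := sq_le_sq.2 h'
  exact arcosh_mono (one_le_tl_arg h) (by linarith)
lemma tl_le_lpV {A : SL(2, ℝ)} (h : 2 ≤ |tr A|) {v : V} (hv : Hyp v) : tl A ≤ lpV A v := by
  rw [lpV_eq A hv]
  exact arcosh_mono (one_le_tl_arg h) (by nlinarith [sq_nonneg (rot A v)])
lemma lpV_eq_tl {A : SL(2, ℝ)} {v : V} (hv : Hyp v) (h : rot A v = 0) : lpV A v = tl A := by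
  rw [lpV_eq A hv, h, tl]; simp
/-- `cosh (lp/2) = cosh (tl/2) cosh r` in squared form: `cosh² (lp/2) = cosh² (tl/2) + rot²` -/
lemma cosh_half_lpV_sq' {A : SL(2, ℝ)} (h : 2 ≤ |tr A|) {v : V} (hv : Hyp v) :
    Real.cosh (lpV A v / 2) ^ 2 = Real.cosh (tl A / 2) ^ 2 + rot A v ^ 2 := by
  rw [cosh_half_lpV_sq A hv, cosh_half_tl h, div_pow, div_pow, sq_abs]

/-! ### turning -/

lemma abs_qa_le {A : SL(2, ℝ)} (h : 0 ≤ tr A) (v : V) : |qa A v| ≤ Real.pi := by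
  have := Complex.abs_arg_le_pi_div_two_iff.2
    (show 0 ≤ (al A v).re from mul_nonneg (by linarith) (nrm_nonneg _))
  rw [qa, abs_mul, abs_two]; linarith
lemma abs_qa_lt {A : SL(2, ℝ)} (h : 0 < tr A) {v : V} (hv : Tim v) : |qa A v| < Real.pi := by
  have := Complex.abs_arg_lt_pi_div_two_iff.2
    (Or.inl (show 0 < (al A v).re from mul_pos (by linarith) hv.nrm_pos))
  rw [qa, abs_mul, abs_two]; linarith
lemma qa_neg_iff (A : SL(2, ℝ)) (v : V) : qa A v < 0 ↔ rot A v < 0 := by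
  rw [← al_im, ← Complex.arg_neg_iff, qa]; constructor <;> intro h <;> linarith
lemma qa_nonneg_iff (A : SL(2, ℝ)) (v : V) : 0 ≤ qa A v ↔ 0 ≤ rot A v := by
  rw [← not_lt, qa_neg_iff, not_lt]
lemma qa_eq_zero_iff {A : SL(2, ℝ)} (h : 0 ≤ tr A) (v : V) : qa A v = 0 ↔ rot A v = 0 := by
  rw [qa, mul_eq_zero, Complex.arg_eq_zero_iff, al_im]
  have : 0 ≤ (al A v).re := mul_nonneg (by linarith) (nrm_nonneg _)
  simp [this]
lemma qa_pos_iff {A : SL(2, ℝ)} (h : 0 ≤ tr A) (v : V) : 0 < qa A v ↔ 0 < rot A v := by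
  rw [lt_iff_le_and_ne, lt_iff_le_and_ne, qa_nonneg_iff, ne_comm, Ne, qa_eq_zero_iff h]
  simp [eq_comm]
lemma qa_nonpos_iff {A : SL(2, ℝ)} (h : 0 ≤ tr A) (v : V) : qa A v ≤ 0 ↔ rot A v ≤ 0 := by
  rw [← not_lt, qa_pos_iff h, not_lt]
lemma qa_inv {A : SL(2, ℝ)} (h : 0 ≤ tr A) (v : V) : qa A⁻¹ v = -qa A v := by
  rw [qa, qa, al_inv, arg_conj_of_re_nonneg (mul_nonneg (by linarith) (nrm_nonneg _))]; ring
lemma qa_conj (h A : SL(2, ℝ)) (v : V) : qa (h * A * h⁻¹) (h • v) = qa A v := by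
  rw [qa, qa, al_conj]
lemma qa_smul_self (A : SL(2, ℝ)) (v : V) : qa A (A • v) = qa A v := by rw [qa, qa, al_smul_self]
lemma qa_one (v : V) : qa 1 v = 0 := by
  rw [qa, al_one, Complex.arg_ofReal_of_nonneg (nrm_nonneg v), mul_zero]
lemma qa_pos_smul (A : SL(2, ℝ)) {c : ℝ} (hc : 0 < c) (v : V) : qa A (c • v) = qa A v := by
  rw [qa, qa, al_pos_smul A hc.le, Complex.arg_real_mul _ hc]
lemma qa_eq_arctan {A : SL(2, ℝ)} (h : 0 < tr A) {v : V} (hv : Hyp v) :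
    qa A v = 2 * Real.arctan (rot A v / (tr A / 2)) := by
  have hre : 0 < (al A v).re := mul_pos (by linarith) hv.tim.nrm_pos
  have := Complex.abs_arg_lt_pi_div_two_iff.2 (Or.inl hre)
  rw [abs_lt] at this
  rw [qa, ← Real.arctan_tan this.1 this.2, Complex.tan_arg, al_re, al_im, hv.nrm, mul_one]
lemma qa_mono {A : SL(2, ℝ)} (h : 0 < tr A) {u v : V} (hu : Hyp u) (hv : Hyp v)
    (huv : rot A u ≤ rot A v) : qa A u ≤ qa A v := by
  rw [qa_eq_arctan h hu, qa_eq_arctan h hv]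
  have := Real.arctan_strictMono.monotone (div_le_div_of_nonneg_right huv (by linarith : 0 ≤ tr A / 2))
  linarith
lemma abs_arctan_le (x : ℝ) : |Real.arctan x| ≤ |x| := by
  have key : ∀ x : ℝ, 0 ≤ x → Real.arctan x ≤ x := fun x hx => by
    have h1 := Real.le_tan (x := Real.arctan x) (Real.arctan_nonneg.2 hx)
      (Real.arctan_lt_pi_div_two x)
    rwa [Real.tan_arctan] at h1
  rcases le_total 0 x with h | h
  · rw [abs_of_nonneg (Real.arctan_nonneg.2 h), abs_of_nonneg h]; exact key x h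
  · have := key (-x) (by linarith)
    rw [Real.arctan_neg] at this
    have h2 : Real.arctan x ≤ 0 := by simpa using Real.arctan_strictMono.monotone h
    rw [abs_of_nonpos h2, abs_of_nonpos h]; exact this
/-- small `rot` gives small turning -/
lemma abs_qa_le_rot {A : SL(2, ℝ)} (h : 0 < tr A) {v : V} (hv : Hyp v) :
    |qa A v| ≤ 4 * |rot A v| / tr A := by
  rw [qa_eq_arctan h hv, abs_mul, abs_two]
  have := abs_arctan_le (rot A v / (tr A / 2))
  rw [abs_div, abs_of_pos (half_pos h)] at this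
  have e : 4 * |rot A v| / tr A = 2 * (|rot A v| / (tr A / 2)) := by field_simp; ring
  linarith
/-- for non-elliptic elements the turning is bounded in terms of the length of the loop -/
lemma abs_qa_le_lp {A : SL(2, ℝ)} (h : 2 ≤ tr A) {v : V} (hv : Hyp v) :
    |qa A v| ≤ 2 * Real.arctan (Real.sinh (lpV A v / 2)) := by
  have h0 : 0 < tr A := by linarith
  have hs : 0 ≤ Real.sinh (lpV A v / 2) := Real.sinh_nonneg_iff.2 (by linarith [lpV_nonneg A hv])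
  have h1 : |rot A v / (tr A / 2)| ≤ Real.sinh (lpV A v / 2) := by
    have e := sinh_half_lpV_sq A hv
    have h2 : |rot A v| ≤ Real.sinh (lpV A v / 2) := abs_le_of_sq_le_sq (by nlinarith) hs
    rw [abs_div, abs_of_pos (half_pos h0)]
    exact (div_le_self (abs_nonneg _) (by linarith)).trans h2
  rw [qa_eq_arctan h0 hv, abs_mul, abs_two]
  have h2 := abs_le.1 h1
  have h3 := Real.arctan_strictMono.monotone h2.1
  have h4 := Real.arctan_strictMono.monotone h2.2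
  rw [Real.arctan_neg] at h3
  have := abs_le.2 ⟨h3, h4⟩
  linarith
/-- area bound in terms of the length of a side -/
lemma abs_Ar_le_dV {u v w : V} (hu : Hyp u) (hv : Hyp v) (hw : Cone w) :
    |Ar u v w| ≤ 2 * Real.arctan (Real.sinh (dV u v / 2)) := by
  have h := abs_Ar_le_of_side hu hv hw
  have e : (B u v - 1) / 2 = Real.sinh (dV u v / 2) ^ 2 := by
    rw [← cosh_dV hu hv, show dV u v = 2 * (dV u v / 2) by ring, Real.cosh_two_mul, Real.cosh_sq]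
    ring_nf
  rwa [e, Real.sqrt_sq (Real.sinh_nonneg_iff.2 (by linarith [dV_nonneg hu hv]))] at h

lemma continuousAt_qa {A : SL(2, ℝ)} (h : 0 ≤ tr A) {v : V} (hv : Tim v) :
    ContinuousAt (qa A) v := by
  have hc : Continuous (al A) := by
    have : al A = fun v => ((tr A / 2 * nrm v : ℝ) : ℂ) + (B (ax A) v : ℝ) * Complex.I := by
      funext v; apply Complex.ext <;> simp [al, rot]
    rw [this]
    have h1 : Continuous fun v : V => nrm v := continuous_nrm continuous_id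
    have h2 : Continuous fun v : V => B (ax A) v := continuous_B continuous_const continuous_id
    fun_prop
  have hs : al A v ∈ Complex.slitPlane := by
    rw [Complex.mem_slitPlane_iff]
    have h0 : 0 ≤ (al A v).re := mul_nonneg (by linarith) (nrm_nonneg _)
    rcases h0.lt_or_eq with h1 | h1
    · exact Or.inl h1
    · exact Or.inr fun h2 => al_ne_zero A hv (Complex.ext h1.symm h2)
  exact continuousAt_const.mul ((Complex.continuousAt_arg hs).comp hc.continuousAt)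

end A25f44
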