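import Pool.Agent.Lib.MP_a25f44_gt.H33Loop
import Pool.Agent.Lib.MP_a25f44_gt.Defs

/-!
# Euler number = area (module M9) and the dictionary `ℍ ↔ V` (helper33)
-/

open scoped MatrixGroups UpperHalfPlane ComplexConjugate Matrix
open Complex Pool.Agent.Lib.MP_a25f44_gt

noncomputable section

namespace A25f44

/-! ### dictionary with `Defs.lean` -/

lemma vec_pslAct (g : PSL(2, ℝ)) (z : ℍ) : vec (pslAct g z) = g • vec z := by
  induction g using QuotientGroup.induction_on
  rw [pslAct_mk, mk_smul, vec_smul]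

lemma ori_eq (z v w : ℍ) : ori z v w = 2 * z.im * v.im * w.im * det3 (vec z) (vec v) (vec w) := by
  have := z.im_pos; have := v.im_pos; have := w.im_pos
  simp only [ori, det3, vec]; field_simp; ring

lemma ori_pos_iff (z v w : ℍ) : 0 < ori z v w ↔ 0 < det3 (vec z) (vec v) (vec w) := by
  have := z.im_pos; have := v.im_pos; have := w.im_pos
  rw [ori_eq, mul_pos_iff_of_pos_left (by positivity)]

lemma sub_conj_ne_zero (z w : ℍ) : (w : ℂ) - conj (z : ℂ) ≠ 0 := by
  intro h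
  have := congrArg Complex.im h
  have h1 := z.im_pos; have h2 := w.im_pos
  simp at this; linarith

lemma Tc_vec (z v w : ℍ) : Tc (vec z) (vec v) (vec w) =
    ((normSq ((v : ℂ) - conj (z : ℂ)) * normSq ((w : ℂ) - conj (z : ℂ)) /
      (4 * z.im ^ 2 * v.im * w.im) : ℝ) : ℂ) * (cay z w * conj (cay z v)) := by
  have h1 := z.im_pos; have h2 := v.im_pos; have h3 := w.im_pos
  have n1 := sub_conj_ne_zero z v
  have n2 := sub_conj_ne_zero z w
  have n3 : conj ((v : ℂ) - conj (z : ℂ)) ≠ 0 := (map_ne_zero _).2 n1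
  have e : ((normSq ((v : ℂ) - conj (z : ℂ)) * normSq ((w : ℂ) - conj (z : ℂ)) /
      (4 * z.im ^ 2 * v.im * w.im) : ℝ) : ℂ) * (cay z w * conj (cay z v)) =
      (((4 * z.im ^ 2 * v.im * w.im)⁻¹ : ℝ) : ℂ) * (((w : ℂ) - z) * conj ((w : ℂ) - conj (z : ℂ)) *
        conj (((v : ℂ) - z) * conj ((v : ℂ) - conj (z : ℂ)))) := by
    simp only [cay, map_div₀, map_mul, conj_conj]
    push_cast
    rw [normSq_eq_conj_mul_self, normSq_eq_conj_mul_self]
    field_simp
  rw [e]
  apply Complex.ext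
  · rw [re_ofReal_mul]
    simp only [Tc_re, B, vec, normSq_apply, mul_re, mul_im, conj_re, conj_im, sub_re,
      sub_im, UpperHalfPlane.coe_re, UpperHalfPlane.coe_im]
    field_simp; ring
  · rw [im_ofReal_mul, Tc_im, (hyp_vec z).nrm]
    simp only [det3, vec, normSq_apply, mul_re, mul_im,
      conj_re, conj_im, sub_re, sub_im, UpperHalfPlane.coe_re, UpperHalfPlane.coe_im]
    field_simp; ring

lemma ang_eq (z v w : ℍ) : ang z v w = angV (vec z) (vec v) (vec w) := by
  have h1 := z.im_pos; have h2 := v.im_pos; have h3 := w.im_pos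
  have n1 := normSq_pos.2 (sub_conj_ne_zero z v)
  have n2 := normSq_pos.2 (sub_conj_ne_zero z w)
  rw [ang, angV, Tc_vec, arg_real_mul _ (by positivity)]

/-- Gauss–Bonnet for the angles of `Defs.lean` -/
theorem ang_sum_eq (z v w : ℍ) (h : 0 < ori z v w) :
    ang z v w + ang v w z + ang w z v = Real.pi - Ar (vec z) (vec v) (vec w) := by
  rw [ang_eq, ang_eq, ang_eq]
  exact gauss_bonnet (hyp_vec z).cone (hyp_vec v).cone (hyp_vec w).cone ((ori_pos_iff _ _ _).1 h)

/-! ### lifts to `ℝ` -/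

/-- `A` acting on `ℝ² = ℂ` -/
def cact (A : SL(2, ℝ)) (w : ℂ) : ℂ := ⟨A 0 0 * w.re + A 0 1 * w.im, A 1 0 * w.re + A 1 1 * w.im⟩

/-- complex-linear part of `cact A` -/
def Pc (A : SL(2, ℝ)) : ℂ := ⟨(A 0 0 + A 1 1) / 2, (A 1 0 - A 0 1) / 2⟩
/-- antilinear part of `cact A` -/
def Qc (A : SL(2, ℝ)) : ℂ := ⟨(A 0 0 - A 1 1) / 2, (A 1 0 + A 0 1) / 2⟩

lemma cact_eq (A : SL(2, ℝ)) (w : ℂ) : cact A w = Pc A * w + Qc A * conj w := by
  apply Complex.ext <;> simp [cact, Pc, Qc] <;> ring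

lemma cact_mul (A C : SL(2, ℝ)) (w : ℂ) : cact (A * C) w = cact A (cact C w) := by
  apply Complex.ext <;> simp only [cact, mul00, mul01, mul10, mul11] <;> ring

lemma cact_real (A : SL(2, ℝ)) (r : ℝ) (w : ℂ) : cact A (r * w) = r * cact A w := by
  apply Complex.ext <;> simp [cact] <;> ring

lemma cact_one (w : ℂ) : cact 1 w = w := by
  apply Complex.ext <;> simp [cact]

lemma Pc_eq (A : SL(2, ℝ)) : Pc A = conj (al A oV) := by
  rw [al_oV]; apply Complex.ext <;> simp [Pc]; ring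

lemma normSq_Pc (A : SL(2, ℝ)) : normSq (Pc A) = normSq (Qc A) + 1 := by
  have := det_eq A
  simp only [Pc, Qc, normSq_mk]; linear_combination this

lemma Pc_ne_zero (A : SL(2, ℝ)) : Pc A ≠ 0 := by
  intro h
  have := normSq_Pc A
  rw [h] at this
  have := normSq_nonneg (Qc A)
  simp at *; linarith

/-- the factor `1 + (Q/P) e^{-2it}` -/
def fac (A : SL(2, ℝ)) (t : ℝ) : ℂ := 1 + Qc A / Pc A * exp (-2 * t * I)

lemma fac_re_pos (A : SL(2, ℝ)) (t : ℝ) : 0 < (fac A t).re := by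
  have h1 : ‖Qc A / Pc A * exp (-2 * t * I)‖ < 1 := by
    rw [norm_mul, show (-2 * t * I : ℂ) = ((-2 * t : ℝ) : ℂ) * I by push_cast; ring,
      norm_exp_ofReal_mul_I, mul_one, norm_div, div_lt_one (norm_pos_iff.2 (Pc_ne_zero A))]
    have := normSq_Pc A
    rw [normSq_eq_norm_sq, normSq_eq_norm_sq] at this
    exact lt_of_pow_lt_pow_left₀ 2 (norm_nonneg _) (by linarith)
  have h2 := abs_re_le_norm (Qc A / Pc A * exp (-2 * t * I))
  rw [fac, add_re, one_re]
  linarith [(abs_le.1 h2).1]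

lemma fac_ne_zero (A : SL(2, ℝ)) (t : ℝ) : fac A t ≠ 0 := fun h => by
  have := fac_re_pos A t; rw [h] at this; simp at this

lemma abs_arg_fac (A : SL(2, ℝ)) (t : ℝ) : |arg (fac A t)| < Real.pi / 2 :=
  abs_arg_lt_pi_div_two_iff.2 (Or.inl (fac_re_pos A t))

lemma continuous_arg_fac (A : SL(2, ℝ)) : Continuous fun t : ℝ => arg (fac A t) := by
  rw [continuous_iff_continuousAt]
  intro t
  have hc : Continuous fun t : ℝ => fac A t := by unfold fac; fun_prop
  exact ContinuousAt.comp (f := fun t : ℝ => fac A t)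
    (continuousAt_arg (mem_slitPlane_iff.2 (Or.inl (fac_re_pos A t)))) hc.continuousAt

lemma cact_exp (A : SL(2, ℝ)) (t : ℝ) :
    cact A (exp (t * I)) = Pc A * exp (t * I) * fac A t := by
  have hP := Pc_ne_zero A
  have h1 : conj (exp (t * I)) = exp (t * I) * exp (-2 * t * I) := by
    rw [← exp_conj, ← exp_add]; congr 1; simp; ring
  rw [cact_eq, h1, fac]; field_simp

/-- `F` lifts the action of `A` on rays -/
def IsLift (A : SL(2, ℝ)) (F : ℝ ≃ₜ ℝ) : Prop :=
  ∀ t : ℝ, ∃ r : ℝ, 0 < r ∧ cact A (exp (t * I)) = r * exp (F t * I)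

lemma isLift_of_mulVec {A : SL(2, ℝ)} {F : ℝ ≃ₜ ℝ} (h : ∀ t : ℝ, ∃ r : ℝ, 0 < r ∧
    A.1 *ᵥ ![Real.cos t, Real.sin t] = r • ![Real.cos (F t), Real.sin (F t)]) : IsLift A F := by
  intro t
  obtain ⟨r, hr, h⟩ := h t
  refine ⟨r, hr, ?_⟩
  have h0 := congrFun h 0
  have h1 := congrFun h 1
  simp [Matrix.mulVec, dotProduct, Fin.sum_univ_two] at h0 h1
  apply Complex.ext
  · simp only [cact, exp_ofReal_mul_I_re, exp_ofReal_mul_I_im, re_ofReal_mul]; exact h0
  · simp only [cact, exp_ofReal_mul_I_re, exp_ofReal_mul_I_im, im_ofReal_mul]; exact h1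

lemma IsLift.one : IsLift 1 1 := fun t => ⟨1, one_pos, by simp [cact_one]⟩

lemma IsLift.mul {A C : SL(2, ℝ)} {F G : ℝ ≃ₜ ℝ} (hA : IsLift A F) (hC : IsLift C G) :
    IsLift (A * C) (F * G) := by
  intro t
  obtain ⟨r, hr, h⟩ := hC t
  obtain ⟨s, hs, h'⟩ := hA (G t)
  refine ⟨r * s, mul_pos hr hs, ?_⟩
  rw [cact_mul, h, cact_real, h']; push_cast
  rw [mul_assoc]; rfl

lemma IsLift.inv {A : SL(2, ℝ)} {F : ℝ ≃ₜ ℝ} (hA : IsLift A F) : IsLift A⁻¹ F⁻¹ := by
  intro t
  obtain ⟨r, hr, h⟩ := hA (F⁻¹ t)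
  refine ⟨r⁻¹, inv_pos.2 hr, ?_⟩
  have e : F (F⁻¹ t) = t := F.apply_symm_apply t
  rw [e] at h
  have h2 := congrArg (cact A⁻¹) h
  rw [← cact_mul, inv_mul_cancel, cact_one, cact_real] at h2
  have hr' : (r : ℂ) ≠ 0 := by exact_mod_cast hr.ne'
  rw [h2]; push_cast; field_simp

/-- a continuous real function which is constant as an angle is constant -/
lemma const_of_angle {φ : ℝ → ℝ} (hφ : Continuous φ) (h : ∀ t, (φ t : Real.Angle) = φ 0) (t : ℝ) :
    φ t = φ 0 := by
  have hl : IsLocallyConstant φ := by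
    rw [IsLocallyConstant.iff_eventually_eq]
    intro x
    have := (hφ.tendsto x).eventually (Metric.ball_mem_nhds (φ x) Real.two_pi_pos)
    filter_upwards [this] with y hy
    exact eq_of_angle_eq ((h y).trans (h x).symm) hy
  exact hl.apply_eq_of_preconnectedSpace t 0

/-- rotation constant of a lift -/
def rl (A : SL(2, ℝ)) (F : ℝ ≃ₜ ℝ) : ℝ := F 0 - arg (fac A 0)

lemma IsLift.apply_eq {A : SL(2, ℝ)} {F : ℝ ≃ₜ ℝ} (hA : IsLift A F) (t : ℝ) :
    F t = t + rl A F + arg (fac A t) := by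
  have key : ∀ t : ℝ, ((F t - t - arg (fac A t) : ℝ) : Real.Angle) = arg (Pc A) := by
    intro t
    obtain ⟨r, hr, h⟩ := hA t
    rw [cact_exp] at h
    have h1 := congrArg (fun z => (arg z : Real.Angle)) h
    rw [arg_mul_coe_angle (mul_ne_zero (Pc_ne_zero A) (exp_ne_zero _)) (fac_ne_zero A t),
      arg_mul_coe_angle (Pc_ne_zero A) (exp_ne_zero _), arg_real_mul _ hr, arg_exp_mul_I,
      arg_exp_mul_I, Real.Angle.coe_toIocMod, Real.Angle.coe_toIocMod] at h1
    rw [Real.Angle.coe_sub, Real.Angle.coe_sub, ← h1]; abel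
  have hc : Continuous fun t : ℝ => F t - t - arg (fac A t) :=
    (F.continuous.sub continuous_id).sub (continuous_arg_fac A)
  have := const_of_angle hc (fun t => (key t).trans (key 0).symm) t
  simp only [rl]; linarith

lemma IsLift.rl_mul {A C : SL(2, ℝ)} {F G : ℝ ≃ₜ ℝ} (hA : IsLift A F) (hC : IsLift C G) :
    rl (A * C) (F * G) = rl A F + rl C G + Ar oV (A • oV) ((A * C) • oV) / 2 := by
  have e1 := (hA.mul hC).apply_eq 0
  have e2 := hA.apply_eq (G 0)
  have e3 := hC.apply_eq 0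
  have e4 : (F * G) 0 = F (G 0) := rfl
  have hprod : fac C 0 * fac A (G 0) * (Pc A * Pc C) = Pc (A * C) * fac (A * C) 0 := by
    obtain ⟨r, hr, h⟩ := hC 0
    have h1 := cact_exp (A * C) 0
    rw [cact_mul, h, cact_real, cact_exp] at h1
    rw [cact_exp] at h
    simp only [ofReal_zero, zero_mul, exp_zero, mul_one] at h h1
    linear_combination h1 + Pc A * fac A (G 0) * h
  have a1 := al_ne_zero A hyp_oV.tim
  have a2 := al_ne_zero C hyp_oV.tim
  have a3 := al_ne_zero (A * C) hyp_oV.tim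
  have hb := abs_Ar_lt_pi hyp_oV.tim (hyp_oV.cone.smul A) (hyp_oV.cone.smul (A * C))
  rw [Ar_loop A C hyp_oV.cone] at hb ⊢
  set W := al A oV * al C oV * conj (al (A * C) oV) with hW
  have hW0 : W ≠ 0 := mul_ne_zero (mul_ne_zero a1 a2) (by simpa using a3)
  have hprod2 : fac C 0 * fac A (G 0) * ((normSq (al A oV) * normSq (al C oV) : ℝ) : ℂ)
      = W * fac (A * C) 0 := by
    rw [Pc_eq, Pc_eq, Pc_eq] at hprod
    push_cast
    rw [normSq_eq_conj_mul_self, normSq_eq_conj_mul_self, hW]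
    linear_combination al A oV * al C oV * hprod
  have hpos : 0 < normSq (al A oV) * normSq (al C oV) :=
    mul_pos (normSq_pos.2 a1) (normSq_pos.2 a2)
  have e5 : arg (fac C 0) + arg (fac A (G 0)) = arg W + arg (fac (A * C) 0) := by
    apply eq_of_angle_eq
    · rw [Real.Angle.coe_add, Real.Angle.coe_add, ← arg_mul_coe_angle hW0 (fac_ne_zero _ _),
        ← hprod2, arg_mul_real hpos, arg_mul_coe_angle (fac_ne_zero _ _) (fac_ne_zero _ _)]
    · have b1 := abs_lt.1 (abs_arg_fac C 0)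
      have b2 := abs_lt.1 (abs_arg_fac A (G 0))
      have b3 := abs_lt.1 (abs_arg_fac (A * C) 0)
      rw [abs_mul, abs_two] at hb
      have b4 : |arg W| < Real.pi / 2 := by linarith
      rw [abs_lt] at b4 ⊢
      constructor <;> linarith
  linarith

lemma IsLift.rl_of_transl {A : SL(2, ℝ)} {F : ℝ ≃ₜ ℝ} (hA : A = 1 ∨ A = -1) {c : ℝ}
    (h : ∀ t, F t = t + c) : rl A F = c := by
  have : Qc A = 0 := by
    rcases hA with rfl | rfl <;> apply Complex.ext <;> simp [Qc]
  simp [rl, fac, this, h]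

/-! ### the primitive of the area cocycle on the free group -/

/-- change of base point for the area cocycle (prism formula) -/
lemma area_cocycle_base {o p : V} (ho : Cone o) (hp : Cone p) (g h : PSL(2, ℝ)) :
    Ar p (g • p) ((g * h) • p) = Ar o (g • o) ((g * h) • o)
      - (Ar o (g • o) (g • p) + Ar o (g • p) p) - (Ar o (h • o) (h • p) + Ar o (h • p) p)
      + (Ar o ((g * h) • o) ((g * h) • p) + Ar o ((g * h) • p) p) := by
  have e1 : Ar o (h • o) (h • p) = Ar (g • o) ((g * h) • o) ((g * h) • p) := by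
    rw [mul_smul, mul_smul, Ar_psmul]
  have e2 : Ar o (h • p) p = Ar (g • o) ((g * h) • p) (g • p) := by
    rw [mul_smul, Ar_psmul]
  have c1 := ho.psmul g; have c2 := ho.psmul (g * h); have c3 := hp.psmul g
  have c4 := hp.psmul (g * h)
  rw [e1, e2]
  simp only [Ar_eq_eA, ho, hp, c1, c2, c3, c4, eA_swap ho c2, eA_swap ho c3, eA_swap ho c4,
    eA_swap c1 c3, eA_swap c1 c4, eA_swap hp c3, eA_swap hp c4, eA_swap c3 c4]
  ring

/-- **M9.** If `ρ` has Euler number `n`, then for every base point `p` of the closed cone the area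
cocycle has a primitive `r` on the free group with `r (relator) = n π`. -/
theorem euler_primitive {g : ℕ} (ρ : SurfGroup g →* PSL(2, ℝ)) (n : ℤ) (h : HasEulerNumber ρ n)
    {p : V} (hp : Cone p) :
    ∃ r : FreeGroup (Fin g × Bool) → ℝ,
      (∀ u v, r (u * v) = r u + r v +
        Ar p (ρ (PresentedGroup.mk _ u) • p) (ρ (PresentedGroup.mk _ (u * v)) • p) / 2) ∧
      r (relator g) = n * Real.pi := by
  obtain ⟨F, hF, hrel⟩ := h
  choose A hA hAF using hF
  set φ : FreeGroup (Fin g × Bool) →* SL(2, ℝ) := FreeGroup.lift A with hφ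
  set Φ : FreeGroup (Fin g × Bool) →* (ℝ ≃ₜ ℝ) := FreeGroup.lift F with hΦ
  have hmk : ∀ u, ((φ u : SL(2, ℝ)) : PSL(2, ℝ)) = ρ (PresentedGroup.mk _ u) := by
    intro u
    have : (QuotientGroup.mk' _).comp φ = ρ.comp (PresentedGroup.mk {relator g}) := by
      ext i
      simp only [MonoidHom.comp_apply, hφ, FreeGroup.lift_apply_of, QuotientGroup.mk'_apply]
      exact hA i
    exact DFunLike.congr_fun this u
  have hl : ∀ u, IsLift (φ u) (Φ u) := by
    intro u
    induction u using FreeGroup.induction_on with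
    | C1 => rw [map_one, map_one]; exact IsLift.one
    | of i => simp only [hφ, hΦ, FreeGroup.lift_apply_of]; exact isLift_of_mulVec (hAF i)
    | inv_of i hi => rw [map_inv, map_inv]; exact hi.inv
    | mul u v hu hv => rw [map_mul, map_mul]; exact hu.mul hv
  have hrel1 : PresentedGroup.mk {relator g} (relator g) = 1 :=
    PresentedGroup.one_of_mem (Set.mem_singleton _)
  refine ⟨fun u => rl (φ u) (Φ u) + (Ar oV (ρ (PresentedGroup.mk _ u) • oV)
    (ρ (PresentedGroup.mk _ u) • p) + Ar oV (ρ (PresentedGroup.mk _ u) • p) p) / 2, ?_, ?_⟩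
  · intro u v
    have e := (hl u).rl_mul (hl v)
    rw [← mk_smul, ← mk_smul, QuotientGroup.mk_mul, hmk, hmk] at e
    simp only [map_mul]
    rw [e, area_cocycle_base hyp_oV.cone hp]
    ring
  · have h1 : φ (relator g) = 1 ∨ φ (relator g) = -1 := by
      rw [← mk_eq_iff, hmk, hrel1, map_one]; rfl
    simp only [hrel1, map_one, one_smul]
    rw [IsLift.rl_of_transl h1 hrel, Ar_self12 hyp_oV.cone hp, Ar_self23 hyp_oV.cone hp]
    ring

end A25f44
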