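import Pool.Agent.Lib.MP_a25f44_gt.H33Sum

/-!
# Compactness on the hyperboloid, flat triangles, segments (helper33)
-/

open scoped MatrixGroups Topology
open Filter

noncomputable section

namespace A25f44

/-- multiplicative triangle inequality -/
lemma B_le_two_mul {p q w : V} (hp : Hyp p) (hq : Hyp q) (hw : Cone w) :
    B p w ≤ 2 * B p q * B q w := by
  have h := det3_sq p q w
  rw [hp.2, hq.2, B_comm w p] at h
  have h1 := hp.one_le_B hq
  have h2 := hp.tim.B_pos hw
  have h3 := hw.2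
  have h4 : 0 ≤ B w w * (B p q ^ 2 - 1) := mul_nonneg h3 (by nlinarith)
  have h5 : B p w * B p w ≤ (2 * B p q * B q w) * B p w := by
    nlinarith [sq_nonneg (det3 p q w), sq_nonneg (B q w)]
  exact le_of_mul_le_mul_right h5 h2

lemma isClosed_hyp : IsClosed {w : V | Hyp w} := by
  have : {w : V | Hyp w} = {w : V | 0 ≤ w.1 + w.2.2} ∩ {w : V | B w w = 1} := by
    ext w
    simp only [Set.mem_setOf_eq, Set.mem_inter_iff, Hyp]
    constructor
    · rintro ⟨h1, h2⟩; exact ⟨h1.le, h2⟩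
    · rintro ⟨h1, h2⟩
      refine ⟨lt_of_le_of_ne h1 fun h => ?_, h2⟩
      simp only [B] at h2
      have : w.2.2 = -w.1 := by linarith
      rw [this] at h2
      nlinarith [sq_nonneg w.1, sq_nonneg w.2.1]
  rw [this]
  exact (isClosed_le continuous_const (by fun_prop)).inter
    (isClosed_eq (by fun_prop) continuous_const)

lemma isCompact_hypBall (R : ℝ) : IsCompact {w : V | Hyp w ∧ B oV w ≤ R} := by
  apply Metric.isCompact_of_isClosed_isBounded
  · exact isClosed_hyp.inter (isClosed_le (continuous_B continuous_const continuous_id)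
      continuous_const)
  · rw [isBounded_iff_forall_norm_le]
    refine ⟨2 * R, fun w ⟨hw, hR⟩ => ?_⟩
    rw [B_oV] at hR
    have h1 := hw.cone.fst_nonneg
    have h2 := hw.cone.trd_nonneg
    have h3 := hw.cone.sq_le
    have h4 : |w.2.1| ≤ 2 * R := by
      apply abs_le_of_sq_le_sq _ (by linarith)
      nlinarith
    simp only [Prod.norm_def, Real.norm_eq_abs, max_le_iff]
    refine ⟨?_, h4, ?_⟩
    · rw [abs_of_nonneg h1]; linarith
    · rw [abs_of_nonneg h2]; linarith

/-- closed balls of the hyperboloid are compact -/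
lemma isCompact_hypBall' {p : V} (hp : Hyp p) (R : ℝ) : IsCompact {w : V | Hyp w ∧ B p w ≤ R} := by
  refine (isCompact_hypBall (2 * B oV p * R)).of_isClosed_subset
    (isClosed_hyp.inter (isClosed_le (continuous_B continuous_const continuous_id)
      continuous_const)) fun w ⟨hw, hR⟩ => ⟨hw, ?_⟩
  have := hyp_oV.one_le_B hp
  exact (B_le_two_mul hyp_oV hp hw.cone).trans (mul_le_mul_of_nonneg_left hR (by linarith))

lemma _root_.Filter.Tendsto.B {ι : Type*} {l : Filter ι} {f g : ι → V} {u v : V}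
    (hf : Tendsto f l (𝓝 u)) (hg : Tendsto g l (𝓝 v)) :
    Tendsto (fun n => B (f n) (g n)) l (𝓝 (B u v)) := by
  have hc : Continuous fun q : V × V => A25f44.B q.1 q.2 := by fun_prop
  have h3 := (hc.tendsto (u, v)).comp (hf.prodMk_nhds hg)
  simpa only [Function.comp_def] using h3

lemma _root_.Filter.Tendsto.det3 {ι : Type*} {l : Filter ι} {f g h : ι → V} {u v w : V}
    (hf : Tendsto f l (𝓝 u)) (hg : Tendsto g l (𝓝 v)) (hh : Tendsto h l (𝓝 w)) :
    Tendsto (fun n => det3 (f n) (g n) (h n)) l (𝓝 (det3 u v w)) := by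
  have hc : Continuous fun q : V × V × V => A25f44.det3 q.1 q.2.1 q.2.2 := by fun_prop
  have h3 := (hc.tendsto (u, v, w)).comp (hf.prodMk_nhds (hg.prodMk_nhds hh))
  simpa only [Function.comp_def] using h3

/-- ultralimit of points at bounded distance from a convergent family -/
lemma exists_tendsto_hyp {ι : Type*} (U : Ultrafilter ι) {u w : ι → V} {u₀ : V} (R : ℝ)
    (hu₀ : Hyp u₀) (hu : Tendsto u U (𝓝 u₀))
    (h : ∀ᶠ n in (U : Filter ι), Hyp (u n) ∧ Hyp (w n) ∧ B (u n) (w n) ≤ R) :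
    ∃ w₀, Hyp w₀ ∧ Tendsto w U (𝓝 w₀) := by
  have h1 : ∀ᶠ n in (U : Filter ι), B u₀ (u n) < 2 := by
    have := (tendsto_const_nhds (x := u₀)).B hu
    rw [hu₀.2] at this
    exact this.eventually (gt_mem_nhds (by norm_num))
  have h2 : ∀ᶠ n in (U : Filter ι), w n ∈ {w : V | Hyp w ∧ B u₀ w ≤ 4 * R} := by
    filter_upwards [h, h1] with n ⟨a, b, c⟩ d
    refine ⟨b, (B_le_two_mul hu₀ a b.cone).trans ?_⟩
    have := a.one_le_B b
    nlinarith
  obtain ⟨w₀, hw₀, hle⟩ := (isCompact_hypBall' hu₀ (4 * R)).ultrafilter_le_nhds (U.map w)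
    (by rw [le_principal_iff, Ultrafilter.coe_map, mem_map]; exact h2)
  exact ⟨w₀, hw₀.1, hle⟩

/-! ### flat triangles and flips -/

/-- the two determinants after a flip of the diagonal `u w` of the quadrilateral `u x w v` -/
lemma flip_det1 (u v w x : V) : (B u w ^ 2 - B u u * B w w) * det3 u x v =
    (B u x * B u w - B u u * B x w) * det3 u w v + (B u v * B u w - B u u * B v w) * det3 w u x := by
  unfold B det3; ring

lemma flip_det2 (u v w x : V) : (B u w ^ 2 - B u u * B w w) * det3 w v x =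
    (B x w * B u w - B w w * B u x) * det3 u w v + (B v w * B u w - B w w * B u v) * det3 w u x := by
  unfold B det3; ring

/-- coordinates of `v` in the basis `u, w, u × w` -/
lemma decomp (u v w : V) : (B u w ^ 2 - B u u * B w w) • v =
    (B v w * B u w - B w w * B u v) • u + (B u v * B u w - B u u * B v w) • w
      - det3 u w v • cross u w := by
  refine Prod.ext ?_ (Prod.ext ?_ ?_) <;>
    simp only [B, det3, cross, Prod.fst_add, Prod.snd_add, Prod.fst_sub, Prod.snd_sub,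
      Prod.smul_fst, Prod.smul_snd, smul_eq_mul] <;> ring

/-- in a flat triangle the vertex opposite to a longest side is strictly in the middle -/
lemma flat_middle {u v w : V} (hu : Hyp u) (hw : Hyp w) (h : det3 u w v = 0)
    (h1 : 1 < B u v) (h2 : 1 < B v w) (h3 : B u v ≤ B u w) (h4 : B v w ≤ B u w) :
    0 < B v w * B u w - B u v ∧ 0 < B u v * B u w - B v w ∧
      ∃ α β : ℝ, 0 < α ∧ 0 < β ∧ v = α • u + β • w := by
  have a1 : 0 < B v w * B u w - B u v := by nlinarith
  have a2 : 0 < B u v * B u w - B v w := by nlinarith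
  have a3 : 0 < B u w ^ 2 - 1 := by nlinarith
  refine ⟨a1, a2, (B v w * B u w - B u v) / (B u w ^ 2 - 1),
    (B u v * B u w - B v w) / (B u w ^ 2 - 1), by positivity, by positivity, ?_⟩
  have := decomp u v w
  rw [h, hu.2, hw.2, zero_smul, sub_zero, one_mul, one_mul, one_mul] at this
  rw [div_eq_inv_mul, div_eq_inv_mul, mul_smul, mul_smul, ← smul_add, ← this, smul_smul,
    inv_mul_cancel₀ a3.ne', one_smul]

lemma B_comb_self {u w : V} (hu : Hyp u) (hw : Hyp w) (α β : ℝ) :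
    B (α • u + β • w) (α • u + β • w) = α ^ 2 + β ^ 2 + 2 * α * β * B u w := by
  simp only [B_add_left, B_add_right, B_smul_left, B_smul_right, hu.2, hw.2, B_comm w u]; ring

lemma comb_sum_le {u w : V} (hu : Hyp u) (hw : Hyp w) {α β : ℝ} (hα : 0 ≤ α) (hβ : 0 ≤ β)
    (h : Hyp (α • u + β • w)) : α + β ≤ 1 := by
  have h1 := h.2
  rw [B_comb_self hu hw] at h1
  have h2 := hu.one_le_B hw
  have h3 : (α + β) ^ 2 ≤ 1 ^ 2 := by nlinarith [mul_nonneg hα hβ]
  exact (abs_le_of_sq_le_sq' h3 zero_le_one).2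

/-- convexity: a point of a segment is not farther from `x` than the ends -/
lemma B_comb_le {u w x : V} (hu : Hyp u) (hw : Hyp w) {α β : ℝ} (hα : 0 ≤ α) (hβ : 0 ≤ β)
    (h : Hyp (α • u + β • w)) {X : ℝ} (hX : 0 ≤ X) (h1 : B u x ≤ X) (h2 : B w x ≤ X) :
    B (α • u + β • w) x ≤ X := by
  have := comb_sum_le hu hw hα hβ h
  rw [B_add_left, B_smul_left, B_smul_left]
  nlinarith

lemma B_mul_le_of_middle {u w : V} (hu : Hyp u) (hw : Hyp w) {α β : ℝ} (hα : 0 ≤ α) (hβ : 0 ≤ β)
    (h : Hyp (α • u + β • w)) : B u (α • u + β • w) * B (α • u + β • w) w ≤ B u w := by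
  have h1 := h.2
  rw [B_comb_self hu hw] at h1
  have h2 := hu.one_le_B hw
  simp only [B_add_left, B_add_right, B_smul_left, B_smul_right, hu.2, hw.2]
  have : B u w - (α * 1 + β * B u w) * (α * B u w + β * 1) = α * β * (B u w ^ 2 - 1) := by
    linear_combination (-B u w) * h1
  have h3 : 0 ≤ α * β * (B u w ^ 2 - 1) := mul_nonneg (mul_nonneg hα hβ) (by nlinarith)
  linarith

/-! ### normalised segments -/

/-- normalised segment from `p` to `q` -/
def seg (p q : V) (t : ℝ) : V := (nrm ((1 - t) • p + t • q))⁻¹ • ((1 - t) • p + t • q)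

lemma seg_zero {p : V} (hp : Hyp p) (q : V) : seg p q 0 = p := by simp [seg, hp.nrm]
lemma seg_one (p : V) {q : V} (hq : Hyp q) : seg p q 1 = q := by simp [seg, hq.nrm]

lemma one_le_B_conv {p q : V} (hp : Hyp p) (hq : Hyp q) {t : ℝ} (ht : t ∈ Set.Icc (0 : ℝ) 1) :
    1 ≤ B ((1 - t) • p + t • q) ((1 - t) • p + t • q) := by
  rw [B_comb_self hp hq]
  have := hp.one_le_B hq
  nlinarith [mul_nonneg (sub_nonneg.2 ht.2) ht.1]

lemma tim_conv {p q : V} (hp : Hyp p) (hq : Hyp q) {t : ℝ} (ht : t ∈ Set.Icc (0 : ℝ) 1) :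
    Tim ((1 - t) • p + t • q) := by
  refine ⟨?_, lt_of_lt_of_le one_pos (one_le_B_conv hp hq ht)⟩
  simp only [Prod.fst_add, Prod.snd_add, Prod.smul_fst, Prod.smul_snd, smul_eq_mul]
  have h1 := hp.1; have h2 := hq.1
  rcases ht.1.lt_or_eq with h | h
  · nlinarith [mul_nonneg (sub_nonneg.2 ht.2) h1.le, mul_pos h h2]
  · rw [← h]; linarith

lemma one_le_nrm_conv {p q : V} (hp : Hyp p) (hq : Hyp q) {t : ℝ} (ht : t ∈ Set.Icc (0 : ℝ) 1) :
    1 ≤ nrm ((1 - t) • p + t • q) := Real.one_le_sqrt.2 (one_le_B_conv hp hq ht)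

lemma hyp_seg {p q : V} (hp : Hyp p) (hq : Hyp q) {t : ℝ} (ht : t ∈ Set.Icc (0 : ℝ) 1) :
    Hyp (seg p q t) := (tim_conv hp hq ht).normalize

/-- `seg p q t = α p + β q` with `α, β ≥ 0`, `α + β ≤ 1` -/
lemma seg_eq {p q : V} (hp : Hyp p) (hq : Hyp q) {t : ℝ} (ht : t ∈ Set.Icc (0 : ℝ) 1) :
    ∃ ν : ℝ, 0 < ν ∧ ν ≤ 1 ∧ seg p q t = (ν * (1 - t)) • p + (ν * t) • q := by
  have h := one_le_nrm_conv hp hq ht
  refine ⟨(nrm ((1 - t) • p + t • q))⁻¹, by positivity, inv_le_one_of_one_le₀ h, ?_⟩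
  rw [seg, smul_add, smul_smul, smul_smul]

lemma continuousOn_seg {p q : V} (hp : Hyp p) (hq : Hyp q) :
    ContinuousOn (seg p q) (Set.Icc 0 1) := by
  unfold seg
  have hc : Continuous fun t : ℝ => (1 - t) • p + t • q := by fun_prop
  refine ContinuousOn.smul (ContinuousOn.inv₀ (continuous_nrm hc).continuousOn ?_) hc.continuousOn
  intro t ht
  exact (lt_of_lt_of_le one_pos (one_le_nrm_conv hp hq ht)).ne'

lemma B_seg_le {p q : V} (hp : Hyp p) (hq : Hyp q) {s t : ℝ} (hs : s ∈ Set.Icc (0 : ℝ) 1)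
    (ht : t ∈ Set.Icc (0 : ℝ) 1) {w : V} (hw : Cone w) :
    B (seg p q t) w ≤ Real.exp (5 * B p q * |t - s|) * B (seg p q s) w := by
  have hb := hp.one_le_B hq
  have n1 := one_le_nrm_conv hp hq hs
  have n2 := one_le_nrm_conv hp hq ht
  have m1 := (tim_conv hp hq hs).cone.nrm_sq
  have m2 := (tim_conv hp hq ht).cone.nrm_sq
  rw [B_comb_self hp hq] at m1 m2
  set ns := nrm ((1 - s) • p + s • q)
  set nt := nrm ((1 - t) • p + t • q)
  set b := B p q
  set δ := |t - s| with hδ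
  have δ0 : 0 ≤ δ := abs_nonneg _
  have δ1 := le_abs_self (t - s)
  have δ2 := neg_abs_le (t - s)
  rw [← hδ] at δ1 δ2
  have x0 := hp.tim.B_pos hw
  have y0 := hq.tim.B_pos hw
  have xy := B_le_two_mul hp hq hw
  have yx := B_le_two_mul hq hp hw
  rw [B_comm q p] at yx
  simp only [seg, B_smul_left, B_add_left]
  set x := B p w
  set y := B q w
  -- numerator
  have hN : x ≤ 2 * b * ((1 - s) * x + s * y) ∧ y ≤ 2 * b * ((1 - s) * x + s * y) := by
    have e1 : x ≤ 2 * b * x := by nlinarith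
    have e2 : y ≤ 2 * b * y := by nlinarith
    have s0 := hs.1; have s1 := sub_nonneg.2 hs.2
    constructor <;> nlinarith [mul_le_mul_of_nonneg_left e1 s1, mul_le_mul_of_nonneg_left xy s0,
      mul_le_mul_of_nonneg_left yx s1, mul_le_mul_of_nonneg_left e2 s0]
  set N := (1 - s) * x + s * y with hNdef
  have N0 : 0 < N := by nlinarith [hN.1]
  have h1 : (1 - t) * x + t * y ≤ (1 + 4 * b * δ) * N := by
    have : (1 - t) * x + t * y = N + (t - s) * y - (t - s) * x := by rw [hNdef]; ring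
    rw [this]
    have e1 : (t - s) * y ≤ δ * (2 * b * N) :=
      (mul_le_mul_of_nonneg_right δ1 y0.le).trans (mul_le_mul_of_nonneg_left hN.2 δ0)
    have e2 : -(t - s) * x ≤ δ * (2 * b * N) :=
      (mul_le_mul_of_nonneg_right (by linarith) x0.le).trans (mul_le_mul_of_nonneg_left hN.1 δ0)
    nlinarith
  -- denominators
  have h2 : ns ≤ (1 + b * δ) * nt := by
    have e1 : ns ^ 2 - nt ^ 2 = 2 * (b - 1) * ((t - s) * (s + t - 1)) := by rw [m1, m2]; ring
    have e2 : (t - s) * (s + t - 1) ≤ δ := by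
      have : |s + t - 1| ≤ 1 := abs_le.2 ⟨by linarith [hs.1, ht.1], by linarith [hs.2, ht.2]⟩
      calc (t - s) * (s + t - 1) ≤ |(t - s) * (s + t - 1)| := le_abs_self _
        _ = δ * |s + t - 1| := abs_mul _ _
        _ ≤ δ := mul_le_of_le_one_right δ0 this
    have e3 : ns ^ 2 ≤ nt ^ 2 + 2 * b * δ := by nlinarith
    have e4 : ns ^ 2 ≤ ((1 + b * δ) * nt) ^ 2 := by
      have bd : 0 ≤ b * δ := by positivity
      have : 1 ≤ nt ^ 2 := by nlinarith
      nlinarith [mul_nonneg bd (sub_nonneg.2 this), mul_nonneg (mul_nonneg bd bd) (sq_nonneg nt)]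
    exact (abs_le_of_sq_le_sq' e4 (by positivity)).2
  have h3 : (1 + 4 * b * δ) * (1 + b * δ) ≤ Real.exp (5 * b * δ) := by
    have e1 := Real.add_one_le_exp (4 * b * δ)
    have e2 := Real.add_one_le_exp (b * δ)
    rw [show 5 * b * δ = 4 * b * δ + b * δ by ring, Real.exp_add]
    exact mul_le_mul (by linarith) (by linarith) (by positivity) (by positivity)
  rw [inv_mul_eq_div, inv_mul_eq_div, ← mul_div_assoc, div_le_div_iff₀ (by linarith) (by linarith)]
  calc ((1 - t) * x + t * y) * ns ≤ ((1 + 4 * b * δ) * N) * ((1 + b * δ) * nt) :=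
        mul_le_mul h1 h2 (by linarith) (by positivity)
    _ = ((1 + 4 * b * δ) * (1 + b * δ)) * (N * nt) := by ring
    _ ≤ Real.exp (5 * b * δ) * (N * nt) := mul_le_mul_of_nonneg_right h3 (by positivity)
    _ = _ := by ring

end A25f44
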