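import Pool.Agent.Lib.MP_a25f44_gt.H33Flat

/-!
# Normal forms, fixed points, trace identities (helper33)
-/

open scoped MatrixGroups Topology
open Filter

set_option linter.unusedSimpArgs false

noncomputable section

namespace A25f44

/-- the matrix `[[a,b],[c,d]]` -/
def mkSL (a b c d : ℝ) (h : a * d - b * c = 1) : SL(2, ℝ) :=
  ⟨!![a, b; c, d], by rw [Matrix.det_fin_two_of]; exact h⟩

@[simp] lemma mkSL00 (a b c d : ℝ) (h) : mkSL a b c d h 0 0 = a := rfl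
@[simp] lemma mkSL01 (a b c d : ℝ) (h) : mkSL a b c d h 0 1 = b := rfl
@[simp] lemma mkSL10 (a b c d : ℝ) (h) : mkSL a b c d h 1 0 = c := rfl
@[simp] lemma mkSL11 (a b c d : ℝ) (h) : mkSL a b c d h 1 1 = d := rfl

lemma SL_ext {g h : SL(2, ℝ)} (h00 : g 0 0 = h 0 0) (h01 : g 0 1 = h 0 1) (h10 : g 1 0 = h 1 0)
    (h11 : g 1 1 = h 1 1) : g = h := by
  ext i j
  fin_cases i <;> fin_cases j
  exacts [h00, h01, h10, h11]

/-- every element of `PSL(2,ℝ)` has a lift of nonnegative trace -/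
lemma exists_lift (g : PSL(2, ℝ)) : ∃ N : SL(2, ℝ), 0 ≤ tr N ∧ (N : PSL(2, ℝ)) = g := by
  induction g using QuotientGroup.induction_on with | H N => ?_
  rcases le_total 0 (tr N) with h | h
  · exact ⟨N, h, rfl⟩
  · exact ⟨-N, by rw [tr_neg]; linarith, mk_neg N⟩

/-- lifts of positive trace are unique -/
lemma lift_unique {N N' : SL(2, ℝ)} (h : (N : PSL(2, ℝ)) = N') (h1 : 0 < tr N) (h2 : 0 ≤ tr N') :
    N = N' := by
  rcases (mk_eq_iff _ _).1 h with h | h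
  · exact h
  · rw [h, tr_neg] at h1; linarith

lemma mk_eq_one_iff (N : SL(2, ℝ)) : (N : PSL(2, ℝ)) = 1 ↔ N = 1 ∨ N = -1 := by
  rw [← mk_eq_iff]; rfl

/-! ### trace identities -/

lemma tr_commutator (a b : SL(2, ℝ)) : tr (a * b * a⁻¹ * b⁻¹) =
    tr a ^ 2 + tr b ^ 2 + tr (a * b) ^ 2 - tr a * tr b * tr (a * b) - 2 := by
  have ha := det_eq a
  have hb := det_eq b
  simp only [tr, mul00, mul01, mul10, mul11, inv00, inv01, inv10, inv11]
  grind

lemma tr_commutator' (a b : SL(2, ℝ)) : tr (a * b * a⁻¹ * b⁻¹) =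
    2 - 4 * B (cross (ax a) (ax b)) (cross (ax a) (ax b)) := by
  rw [tr_commutator, B_cross_cross, B_ax_ax, B_ax_ax, B_comm (ax b), tr_mul]; ring

lemma tr_sq (a : SL(2, ℝ)) : tr (a * a) = tr a ^ 2 - 2 := by
  rw [tr_mul, B_ax_ax]; ring

lemma ax_sq (a : SL(2, ℝ)) : ax (a * a) = tr a • ax a := by
  refine Prod.ext ?_ (Prod.ext ?_ ?_) <;>
    simp only [ax, tr, mul00, mul01, mul10, mul11, Prod.smul_fst, Prod.smul_snd, smul_eq_mul] <;>
    ring

/-- `tr (a² b) = tr a * tr (a b) - tr b` -/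
lemma tr_mul_mul (a b : SL(2, ℝ)) : tr (a * (a * b)) = tr a * tr (a * b) - tr b := by
  have := tr_mul_add_tr_mul_inv (a * b) a
  rw [tr_mul_comm (a * b) a, tr_conj] at this
  linarith

lemma cross_self (u : V) : cross u u = 0 := by
  refine Prod.ext ?_ (Prod.ext ?_ ?_) <;> simp only [cross, Prod.fst_zero, Prod.snd_zero] <;> ring
lemma cross_anticomm (u v : V) : cross v u = -cross u v := by
  refine Prod.ext ?_ (Prod.ext ?_ ?_) <;> simp only [cross, Prod.fst_neg, Prod.snd_neg] <;> ring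
lemma cross_smul_left (c : ℝ) (u v : V) : cross (c • u) v = c • cross u v := by
  refine Prod.ext ?_ (Prod.ext ?_ ?_) <;>
    simp only [cross, Prod.smul_fst, Prod.smul_snd, smul_eq_mul] <;> ring
lemma cross_smul_right (c : ℝ) (u v : V) : cross u (c • v) = c • cross u v := by
  refine Prod.ext ?_ (Prod.ext ?_ ?_) <;>
    simp only [cross, Prod.smul_fst, Prod.smul_snd, smul_eq_mul] <;> ring
lemma cross_add_left (u u' v : V) : cross (u + u') v = cross u v + cross u' v := by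
  refine Prod.ext ?_ (Prod.ext ?_ ?_) <;> simp only [cross, Prod.fst_add, Prod.snd_add] <;> ring
lemma cross_add_right (u v v' : V) : cross u (v + v') = cross u v + cross u v' := by
  refine Prod.ext ?_ (Prod.ext ?_ ?_) <;> simp only [cross, Prod.fst_add, Prod.snd_add] <;> ring

/-- a vector is timelike forward or backward if its square is positive -/
lemma tim_or_neg {v : V} (h : 0 < B v v) : Tim v ∨ Tim (-v) := by
  rcases lt_trichotomy 0 (v.1 + v.2.2) with h1 | h1 | h1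
  · exact Or.inl ⟨h1, h⟩
  · exfalso
    simp only [B] at h
    have : v.2.2 = -v.1 := by linarith
    rw [this] at h
    nlinarith [sq_nonneg v.1, sq_nonneg v.2.1]
  · right
    refine ⟨by simp only [Prod.fst_neg, Prod.snd_neg]; linarith, ?_⟩
    rwa [B_neg_left, B_neg_right, neg_neg]

lemma cone_or_neg {v : V} (h : 0 ≤ B v v) (h0 : v ≠ 0) : Cone v ∨ Cone (-v) := by
  rcases lt_trichotomy 0 (v.1 + v.2.2) with h1 | h1 | h1
  · exact Or.inl ⟨h1, h⟩
  · exfalso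
    simp only [B] at h
    have e : v.2.2 = -v.1 := by linarith
    rw [e] at h
    have e1 : v.1 = 0 := by nlinarith [sq_nonneg v.1, sq_nonneg v.2.1]
    have e2 : v.2.1 = 0 := by nlinarith [sq_nonneg v.1, sq_nonneg v.2.1]
    exact h0 (Prod.ext e1 (Prod.ext e2 (by rw [e, e1]; simp)))
  · right
    refine ⟨by simp only [Prod.fst_neg, Prod.snd_neg]; linarith, ?_⟩
    rwa [B_neg_left, B_neg_right, neg_neg]

/-! ### elliptic elements -/

/-- the centre of an elliptic element: `ax g = σ q`, `σ = rot g q ≠ 0` -/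
lemma exists_centre {g : SL(2, ℝ)} (hg : |tr g| < 2) :
    ∃ q : V, Hyp q ∧ g • q = q ∧ ax g = rot g q • q ∧ rot g q ^ 2 = 1 - (tr g / 2) ^ 2 ∧
      rot g q ≠ 0 := by
  have h0 : 0 < B (ax g) (ax g) := by
    rw [B_ax_ax]; have := abs_lt.1 hg; nlinarith
  have key : ∀ σ : ℝ, σ * σ = 1 → Tim (σ • ax g) → ∃ q : V, Hyp q ∧ g • q = q ∧
      ax g = rot g q • q ∧ rot g q ^ 2 = 1 - (tr g / 2) ^ 2 ∧ rot g q ≠ 0 := by
    intro σ hσ hT
    have hn := hT.nrm_pos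
    have hn2 := hT.cone.nrm_sq
    rw [B_smul_left, B_smul_right, ← mul_assoc, hσ, one_mul] at hn2
    set n := nrm (σ • ax g)
    have hr : rot g (n⁻¹ • σ • ax g) = σ * n := by
      rw [rot_smul, rot_smul, rot, ← hn2]; field_simp
    refine ⟨n⁻¹ • σ • ax g, hT.normalize, by rw [smul_comm, smul_comm g, smul_ax], ?_, ?_, ?_⟩
    · rw [hr, smul_smul, smul_smul]
      have : σ * n * n⁻¹ * σ = 1 := by field_simp; linear_combination hσ
      rw [this, one_smul]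
    · rw [hr, ← B_ax_ax, ← hn2]; linear_combination n ^ 2 * hσ
    · rw [hr]
      exact mul_ne_zero (fun h => by rw [h] at hσ; simp at hσ) hn.ne'
  rcases tim_or_neg h0 with h | h
  · exact key 1 (by norm_num) (by rwa [one_smul])
  · exact key (-1) (by norm_num) (by rwa [neg_one_smul])

/-- an element fixing an interior point is elliptic or `±1`, and `ax g = rot g q • q` -/
lemma ax_of_fixed {g : SL(2, ℝ)} {q : V} (hq : Hyp q) (h : g • q = q) :
    ax g = rot g q • q ∧ rot g q ^ 2 = 1 - (tr g / 2) ^ 2 := by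
  have h1 := B_smul_self g q
  rw [h, hq.2] at h1
  have h2 : rot g q ^ 2 = 1 - (tr g / 2) ^ 2 := by linarith
  refine ⟨?_, h2⟩
  by_contra hne
  have h3 : B (ax g - rot g q • q) q = 0 := by
    rw [B_sub_left, B_smul_left, hq.2, rot]; ring
  have := hq.tim.B_self_neg h3 (sub_ne_zero.2 hne)
  simp only [B_sub_left, B_sub_right, B_smul_left, B_smul_right, hq.2, B_ax_ax,
    B_comm q (ax g)] at this
  rw [← rot] at this
  nlinarith

/-- an element fixing `oV` is a rotation matrix -/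
lemma rotation_of_fix_oV {g : SL(2, ℝ)} (h : g • oV = oV) : g 1 1 = g 0 0 ∧ g 1 0 = -g 0 1 := by
  have := (ax_of_fixed hyp_oV h).1
  simp only [ax, oV, Prod.smul_mk, smul_eq_mul, Prod.mk.injEq] at this
  obtain ⟨a, b, c⟩ := this
  constructor <;> linarith

/-! ### non-elliptic elements -/

/-- a real vector can be moved to `(1,0)` -/
lemma exists_conj_upper {g : SL(2, ℝ)} {k1 k2 l : ℝ} (hk : 0 < k1 ^ 2 + k2 ^ 2)
    (h1 : g 0 0 * k1 + g 0 1 * k2 = l * k1) (h2 : g 1 0 * k1 + g 1 1 * k2 = l * k2) :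
    ∃ h : SL(2, ℝ), h 0 0 = k1 ∧ h 1 0 = k2 ∧ (h⁻¹ * g * h) 1 0 = 0 ∧ (h⁻¹ * g * h) 0 0 = l := by
  refine ⟨mkSL k1 (-k2 / (k1 ^ 2 + k2 ^ 2)) k2 (k1 / (k1 ^ 2 + k2 ^ 2)) (by field_simp; ring),
    rfl, rfl, ?_, ?_⟩
  · simp only [mul00, mul01, mul10, mul11, inv00, inv01, inv10, inv11, mkSL00, mkSL01, mkSL10,
      mkSL11]
    linear_combination k1 * h2 - k2 * h1
  · simp only [mul00, mul01, mul10, mul11, inv00, inv01, inv10, inv11, mkSL00, mkSL01, mkSL10,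
      mkSL11]
    field_simp
    linear_combination k1 * h1 + k2 * h2

/-- a root of the characteristic polynomial has an eigenvector -/
lemma exists_eigenvector {g : SL(2, ℝ)} {l : ℝ} (hl : l ^ 2 - tr g * l + 1 = 0) :
    ∃ k1 k2 : ℝ, 0 < k1 ^ 2 + k2 ^ 2 ∧ g 0 0 * k1 + g 0 1 * k2 = l * k1 ∧
      g 1 0 * k1 + g 1 1 * k2 = l * k2 := by
  have hd := det_eq g
  simp only [tr] at hl
  by_cases h1 : g 0 1 = 0 ∧ l - g 0 0 = 0
  · by_cases h2 : g 1 0 = 0 ∧ l - g 1 1 = 0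
    · exact ⟨1, 0, by norm_num, by linarith [h1.2], by linarith [h2.1]⟩
    · refine ⟨l - g 1 1, g 1 0, ?_, by linear_combination -hl - hd, by ring⟩
      by_contra hc
      exact h2 ⟨by nlinarith [sq_nonneg (l - g 1 1), sq_nonneg (g 1 0)],
        by nlinarith [sq_nonneg (l - g 1 1), sq_nonneg (g 1 0)]⟩
  · refine ⟨g 0 1, l - g 0 0, ?_, by ring, by linear_combination -hl - hd⟩
    by_contra hc
    exact h1 ⟨by nlinarith [sq_nonneg (l - g 0 0), sq_nonneg (g 0 1)],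
      by nlinarith [sq_nonneg (l - g 0 0), sq_nonneg (g 0 1)]⟩

/-- the larger eigenvalue -/
def lam (g : SL(2, ℝ)) : ℝ := tr g / 2 + √((tr g / 2) ^ 2 - 1)

lemma lam_char {g : SL(2, ℝ)} (hg : 2 ≤ tr g) : lam g ^ 2 - tr g * lam g + 1 = 0 := by
  have := Real.sq_sqrt (show 0 ≤ (tr g / 2) ^ 2 - 1 by nlinarith)
  unfold lam; linear_combination this
lemma one_le_lam {g : SL(2, ℝ)} (hg : 2 ≤ tr g) : 1 ≤ lam g := by
  unfold lam; linarith [Real.sqrt_nonneg ((tr g / 2) ^ 2 - 1)]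
lemma one_lt_lam {g : SL(2, ℝ)} (hg : 2 < tr g) : 1 < lam g := by
  unfold lam; linarith [Real.sqrt_nonneg ((tr g / 2) ^ 2 - 1)]
lemma lam_add_inv {g : SL(2, ℝ)} (hg : 2 ≤ tr g) : lam g + (lam g)⁻¹ = tr g := by
  have := one_le_lam hg
  have h := lam_char hg
  field_simp; linear_combination h
lemma lam_eq_one {g : SL(2, ℝ)} (hg : tr g = 2) : lam g = 1 := by simp [lam, hg]
lemma lam_conj (h g : SL(2, ℝ)) : lam (h * g * h⁻¹) = lam g := by simp only [lam, tr_conj]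
lemma lam_inv (g : SL(2, ℝ)) : lam g⁻¹ = lam g := by simp only [lam, tr_inv]

/-- normal form of a non-elliptic element: upper triangular with `∞` attracting -/
lemma exists_upper {g : SL(2, ℝ)} (hg : 2 ≤ tr g) : ∃ h : SL(2, ℝ),
    (h * g * h⁻¹) 1 0 = 0 ∧ (h * g * h⁻¹) 0 0 = lam g ∧ (h * g * h⁻¹) 1 1 = (lam g)⁻¹ := by
  obtain ⟨k1, k2, hk, h1, h2⟩ := exists_eigenvector (lam_char hg)
  obtain ⟨h, -, -, a, b⟩ := exists_conj_upper hk h1 h2
  refine ⟨h⁻¹, by rwa [inv_inv], by rwa [inv_inv], ?_⟩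
  have t := tr_conj h⁻¹ g
  rw [inv_inv] at t ⊢
  rw [tr, b, ← lam_add_inv hg] at t
  linarith

/-- normal form of a hyperbolic element -/
lemma exists_diag {g : SL(2, ℝ)} (hg : 2 < tr g) : ∃ h : SL(2, ℝ),
    (h * g * h⁻¹) 0 0 = lam g ∧ (h * g * h⁻¹) 0 1 = 0 ∧ (h * g * h⁻¹) 1 0 = 0 ∧
      (h * g * h⁻¹) 1 1 = (lam g)⁻¹ := by
  obtain ⟨h, a, b, c⟩ := exists_upper hg.le
  have hl := one_lt_lam hg
  have hne : lam g - (lam g)⁻¹ ≠ 0 := (sub_pos.2 ((inv_lt_one_of_one_lt₀ hl).trans hl)).ne'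
  set u := h * g * h⁻¹
  set t := mkSL 1 (u 0 1 / (lam g - (lam g)⁻¹)) 0 1 (by ring) with ht
  have e : t * h * g * (t * h)⁻¹ = t * u * t⁻¹ := by simp only [u]; group
  refine ⟨t * h, ?_, ?_, ?_, ?_⟩ <;> rw [e] <;>
    simp only [ht, mul00, mul01, mul10, mul11, inv00, inv01, inv10, inv11, mkSL00, mkSL01, mkSL10,
      mkSL11, a, b, c]
  · ring
  · have := div_mul_cancel₀ (u 0 1) hne
    linear_combination -this
  · ring
  · ring

/-- ideal fixed points of a hyperbolic element; every vector decomposes along them and `ax g` -/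
lemma exists_ideal_pair {g : SL(2, ℝ)} (hg : 2 < tr g) : ∃ ξp ξm : V,
    Cone ξp ∧ Cone ξm ∧ B ξp ξp = 0 ∧ B ξm ξm = 0 ∧ B ξp ξm = 1 / 2 ∧
    g • ξp = (lam g ^ 2) • ξp ∧ g • ξm = (lam g ^ 2)⁻¹ • ξm ∧ rot g ξp = 0 ∧ rot g ξm = 0 ∧
    (∀ v, rot g v = (lam g - (lam g)⁻¹) * det3 ξp ξm v) ∧
    ∀ v, v = (2 * B v ξm) • ξp + (2 * B v ξp) • ξm
      - (4 * rot g v / (lam g - (lam g)⁻¹) ^ 2) • ax g := by
  obtain ⟨h, a, b, c, d⟩ := exists_diag hg
  have hl := one_lt_lam hg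
  have hne : lam g - (lam g)⁻¹ ≠ 0 := (sub_pos.2 ((inv_lt_one_of_one_lt₀ hl).trans hl)).ne'
  set u := h * g * h⁻¹ with hu
  have hgu : ∀ v : V, g • h⁻¹ • v = h⁻¹ • u • v := fun v => by
    rw [hu, ← mul_smul, ← mul_smul]; congr 1; group
  have hrot : ∀ v, rot g (h⁻¹ • v) = rot u v := fun v => by
    rw [hu, ← rot_conj h, smul_inv_smul]
  have hax : ax g = h⁻¹ • ax u := by rw [hu, ax_conj, inv_smul_smul]
  have c1 : Cone ((1, 0, 0) : V) := by constructor <;> simp [B]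
  have c2 : Cone ((0, 0, 1) : V) := by constructor <;> simp [B]
  refine ⟨h⁻¹ • ((1, 0, 0) : V), h⁻¹ • ((0, 0, 1) : V), c1.smul _, c2.smul _,
    by rw [B_smul]; simp [B], by rw [B_smul]; simp [B], by rw [B_smul]; simp [B], ?_, ?_, ?_, ?_, fun v => ?_, fun v => ?_⟩
  · rw [hgu, ← smul_comm h⁻¹ (_ : ℝ)]; congr 1
    refine Prod.ext ?_ (Prod.ext ?_ ?_) <;> simp [smul_1, smul_21, smul_22, a, c]
  · rw [hgu, ← smul_comm h⁻¹ (_ : ℝ)]; congr 1
    refine Prod.ext ?_ (Prod.ext ?_ ?_) <;> simp [smul_1, smul_21, smul_22, b, d]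
  · rw [hrot]; simp [rot, B, ax, c]
  · rw [hrot]; simp [rot, B, ax, b]
  · obtain ⟨v, rfl⟩ : ∃ v', v = h⁻¹ • v' := ⟨h • v, by simp⟩
    rw [hrot, det3_smul]
    simp only [rot, B, ax, det3, a, b, c, d]; ring
  · obtain ⟨v, rfl⟩ : ∃ v', v = h⁻¹ • v' := ⟨h • v, by simp⟩
    rw [hrot, B_smul, B_smul, hax, ← smul_comm h⁻¹, ← smul_comm h⁻¹, ← smul_comm h⁻¹, ← smul_add,
      ← smul_sub]
    congr 1
    refine Prod.ext ?_ (Prod.ext ?_ ?_) <;>
      simp only [rot, B, ax, a, b, c, d, Prod.fst_add, Prod.snd_add, Prod.fst_sub, Prod.snd_sub,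
        Prod.smul_fst, Prod.smul_snd, smul_eq_mul]
    · ring
    · obtain ⟨m, hm⟩ : ∃ m, m = (lam g)⁻¹ := ⟨_, rfl⟩
      rw [← hm] at hne ⊢; field_simp; ring
    · ring

lemma pow_smul_eigen {g : SL(2, ℝ)} {ξ : V} {μ : ℝ} (h : g • ξ = μ • ξ) (n : ℕ) :
    g ^ n • ξ = μ ^ n • ξ := by
  induction n with
  | zero => simp
  | succ n ih => rw [pow_succ, mul_smul, h, smul_comm, ih, smul_smul, pow_succ']

/-- twisting: the rescaled orbit of any vector converges to a multiple of the attracting point -/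
lemma tendsto_pow_smul {g : SL(2, ℝ)} (hg : 2 < tr g) {ξp ξm : V}
    (h1 : g • ξp = (lam g ^ 2) • ξp) (h2 : g • ξm = (lam g ^ 2)⁻¹ • ξm) {v : V} {a b c : ℝ}
    (hv : v = a • ξp + b • ξm - c • ax g) :
    Tendsto (fun n : ℕ => ((lam g ^ 2)⁻¹ ^ n) • g ^ n • v) atTop (𝓝 (a • ξp)) := by
  have hl := one_lt_lam hg
  have hl2 : 1 < lam g ^ 2 := by nlinarith
  set μ := (lam g ^ 2)⁻¹ with hμ
  have μ0 : 0 ≤ μ := by positivity
  have μ1 : μ < 1 := inv_lt_one_of_one_lt₀ hl2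
  have t := tendsto_pow_atTop_nhds_zero_of_lt_one μ0 μ1
  have e : ∀ n : ℕ, (μ ^ n) • g ^ n • v = a • ξp + (μ ^ n * μ ^ n) • b • ξm - μ ^ n • c • ax g := by
    intro n
    have h3 : g ^ n • ax g = ax g := by
      have := pow_smul_eigen (g := g) (ξ := ax g) (μ := 1) (by rw [smul_ax, one_smul]) n
      rwa [one_pow, one_smul] at this
    rw [hv, smul_sub, smul_add, smul_comm (g ^ n) a, smul_comm (g ^ n) b, smul_comm (g ^ n) c,
      pow_smul_eigen h1, pow_smul_eigen h2, h3, smul_sub, smul_add, smul_comm (μ ^ n) a,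
      smul_smul (μ ^ n) (_ ^ n), ← mul_pow, hμ, inv_mul_cancel₀ (by positivity), one_pow, one_smul,
      smul_comm b, smul_smul, smul_smul, smul_smul]
  simp only [e]
  have := ((tendsto_const_nhds (x := a • ξp)).add ((t.mul t).smul_const (b • ξm))).sub
    (t.smul_const (c • ax g))
  simpa using this

/-- a parabolic element (or the identity): `g v = v + 2 rot v • ax - 2 ax × v` -/
lemma parabolic_cone {g : SL(2, ℝ)} (hg : tr g = 2) (h1 : g ≠ 1) :
    B (ax g) (ax g) = 0 ∧ (Cone (ax g) ∨ Cone (-ax g)) := by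
  have h0 : B (ax g) (ax g) = 0 := by rw [B_ax_ax, hg]; norm_num
  refine ⟨h0, cone_or_neg h0.ge fun h => ?_⟩
  rcases (ax_eq_zero_iff g).1 h with h | h
  · exact h1 h
  · rw [h, tr_neg, tr_one] at hg; norm_num at hg

/-- every non-elliptic element has an ideal fixed point with eigenvalue `lam g ^ 2 ≥ 1` -/
lemma exists_ideal_fixed {g : SL(2, ℝ)} (hg : 2 ≤ tr g) :
    ∃ ξ : V, Cone ξ ∧ B ξ ξ = 0 ∧ g • ξ = (lam g ^ 2) • ξ := by
  obtain ⟨k1, k2, hk, h1, h2⟩ := exists_eigenvector (lam_char hg)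
  refine ⟨(k1 ^ 2, k1 * k2, k2 ^ 2), ⟨hk, by simp only [B]; nlinarith⟩, by simp only [B]; ring, ?_⟩
  refine Prod.ext ?_ (Prod.ext ?_ ?_) <;>
    simp only [smul_1, smul_21, smul_22, Prod.smul_fst, Prod.smul_snd, smul_eq_mul]
  · linear_combination (g 0 0 * k1 + g 0 1 * k2 + lam g * k1) * h1
  · linear_combination (g 1 0 * k1 + g 1 1 * k2) * h1 + lam g * k1 * h2
  · linear_combination (g 1 0 * k1 + g 1 1 * k2 + lam g * k2) * h2

/-- an ideal eigenvector is orthogonal to the axis vector -/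
lemma rot_ideal_fixed {g : SL(2, ℝ)} {ξ : V} (h0 : B ξ ξ = 0) {μ : ℝ}
    (h : g • ξ = μ • ξ) : rot g ξ = 0 := by
  have := B_smul_self g ξ
  rw [h, B_smul_right, h0] at this
  have : rot g ξ ^ 2 = 0 := by linarith
  exact pow_eq_zero_iff two_ne_zero |>.1 this

/-- orthogonal projection to the axis -/
lemma exists_on_axis {g : SL(2, ℝ)} (hg : 2 < tr g) : ∃ q : V, Hyp q ∧ rot g q = 0 := by
  obtain ⟨ξp, ξm, c1, c2, b1, b2, b3, -, -, r1, r2, -⟩ := exists_ideal_pair hg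
  refine ⟨ξp + ξm, ⟨(c1.add c2).1, ?_⟩, by rw [rot_add, r1, r2, add_zero]⟩
  rw [B_add_left, B_add_right, B_add_right, b1, b2, B_comm ξm, b3]; norm_num

end A25f44
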