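import Pool.Agent.Lib.MP_a25f44_gt.H33Area

/-!
# Loops `p → g p` (helper33)

`g = tr g / 2 + X`, `ax g` is the vector of `X` (fixed by `g`), `rot g p = B (ax g) p` is linear in `p`,
`al g p = tr g / 2 * nrm p + i rot g p` (the `SU(1,1)` diagonal coefficient of `g` in a frame at `p`).
-/

open scoped MatrixGroups UpperHalfPlane ComplexConjugate
open Complex

noncomputable section

namespace A25f44

/-- trace -/
def tr (g : SL(2, ℝ)) : ℝ := g 0 0 + g 1 1

/-- traceless part as a vector of `V`: centre (elliptic), ideal point (parabolic), normal of the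
axis (hyperbolic) -/
def ax (g : SL(2, ℝ)) : V := (g 0 1, (g 1 1 - g 0 0) / 2, -g 1 0)

/-- the linear functional of `g`; positive at `p` near the centre of a small counter-clockwise
rotation with positive trace -/
def rot (g : SL(2, ℝ)) (v : V) : ℝ := B (ax g) v

/-- `SU(1,1)` coefficient of `g` at `v` -/
def al (g : SL(2, ℝ)) (v : V) : ℂ := ⟨tr g / 2 * nrm v, rot g v⟩

lemma al_re (g : SL(2, ℝ)) (v : V) : (al g v).re = tr g / 2 * nrm v := rfl
lemma al_im (g : SL(2, ℝ)) (v : V) : (al g v).im = rot g v := rfl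

lemma tr_one : tr 1 = 2 := by simp [tr]; norm_num
lemma tr_neg (g : SL(2, ℝ)) : tr (-g) = -tr g := by simp only [tr, neg_ap]; ring
lemma tr_inv (g : SL(2, ℝ)) : tr g⁻¹ = tr g := by simp only [tr, inv00, inv11]; ring
lemma tr_mul_comm (g h : SL(2, ℝ)) : tr (g * h) = tr (h * g) := by
  simp only [tr, mul00, mul11]; ring
lemma tr_conj (h g : SL(2, ℝ)) : tr (h * g * h⁻¹) = tr g := by
  rw [tr_mul_comm, ← mul_assoc, inv_mul_cancel, one_mul]
lemma tr_mul (g h : SL(2, ℝ)) : tr (g * h) = tr g * tr h / 2 - 2 * B (ax g) (ax h) := by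
  simp only [tr, mul00, mul11, B, ax]; ring
lemma tr_mul_add_tr_mul_inv (g h : SL(2, ℝ)) : tr (g * h) + tr (g * h⁻¹) = tr g * tr h := by
  simp only [tr, mul00, mul11, inv00, inv01, inv10, inv11]; ring

lemma ax_one : ax 1 = 0 := by simp [ax]
lemma ax_neg (g : SL(2, ℝ)) : ax (-g) = -ax g := by
  refine Prod.ext ?_ (Prod.ext ?_ ?_) <;> simp only [ax, neg_ap, Prod.fst_neg, Prod.snd_neg]
  ring
lemma ax_inv (g : SL(2, ℝ)) : ax g⁻¹ = -ax g := by
  refine Prod.ext ?_ (Prod.ext ?_ ?_) <;>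
    simp only [ax, inv00, inv01, inv10, inv11, Prod.fst_neg, Prod.snd_neg]
  ring
lemma ax_mul (g h : SL(2, ℝ)) :
    ax (g * h) = (tr g / 2) • ax h + (tr h / 2) • ax g - cross (ax g) (ax h) := by
  refine Prod.ext ?_ (Prod.ext ?_ ?_) <;>
    simp only [ax, tr, cross, mul00, mul01, mul10, mul11, Prod.fst_add, Prod.snd_add, Prod.fst_sub,
      Prod.snd_sub, Prod.smul_fst, Prod.smul_snd, smul_eq_mul] <;> ring
lemma B_ax_ax (g : SL(2, ℝ)) : B (ax g) (ax g) = 1 - (tr g / 2) ^ 2 := by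
  have := det_eq g
  simp only [B, ax, tr]; linear_combination this
lemma ax_conj (h g : SL(2, ℝ)) : ax (h * g * h⁻¹) = h • ax g := by
  refine Prod.ext ?_ (Prod.ext ?_ ?_) <;>
    simp only [ax, mul00, mul01, mul10, mul11, inv00, inv01, inv10, inv11, smul_1, smul_21,
      smul_22] <;> ring
lemma smul_ax (g : SL(2, ℝ)) : g • ax g = ax g := by
  rw [← ax_conj, mul_inv_cancel_right]
lemma eq_of_tr_ax {g h : SL(2, ℝ)} (h1 : tr g = tr h) (h2 : ax g = ax h) : g = h := by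
  simp only [tr, ax, Prod.mk.injEq] at h1 h2
  obtain ⟨a, b, c⟩ := h2
  ext i j
  fin_cases i <;> fin_cases j
  · change g 0 0 = h 0 0; linarith
  · exact a
  · change g 1 0 = h 1 0; linarith
  · change g 1 1 = h 1 1; linarith
lemma ax_eq_zero_iff (g : SL(2, ℝ)) : ax g = 0 ↔ g = 1 ∨ g = -1 := by
  constructor
  · intro h
    have h1 := B_ax_ax g
    rw [h] at h1
    have : (tr g - 2) * (tr g + 2) = 0 := by simp at h1; linear_combination 4 * h1
    rcases mul_eq_zero.1 this with h2 | h2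
    · left; exact eq_of_tr_ax (by rw [tr_one]; linarith) (by rw [h, ax_one])
    · right; exact eq_of_tr_ax (by rw [tr_neg, tr_one]; linarith) (by rw [h, ax_neg, ax_one]; simp)
  · rintro (rfl | rfl)
    · exact ax_one
    · rw [ax_neg, ax_one]; simp

/-- the action written with the trace and the axis vector -/
lemma smul_formula (g : SL(2, ℝ)) (v : V) :
    g • v = (tr g ^ 2 / 2 - 1) • v + (2 * rot g v) • ax g - tr g • cross (ax g) v := by
  have hd := det_eq g
  refine Prod.ext ?_ (Prod.ext ?_ ?_) <;>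
    simp only [rot, B, ax, tr, cross, smul_1, smul_21, smul_22, Prod.fst_add, Prod.snd_add,
      Prod.fst_sub, Prod.snd_sub, Prod.smul_fst, Prod.smul_snd, smul_eq_mul]
  · linear_combination (-v.1) * hd
  · linear_combination (-v.2.1) * hd
  · linear_combination (-v.2.2) * hd

/-- `cosh` of the displacement -/
lemma B_smul_self (g : SL(2, ℝ)) (v : V) :
    B v (g • v) = (tr g ^ 2 / 2 - 1) * B v v + 2 * rot g v ^ 2 := by
  rw [smul_formula, B_sub_right, B_add_right, B_smul_right, B_smul_right, B_smul_right,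
    B_comm v (cross _ _), B_cross, det3_self23, B_comm v (ax g), rot]; ring

/-- side of `w` with respect to the segment from `v` to `g v` -/
lemma det3_smul_self (g : SL(2, ℝ)) (v w : V) :
    det3 v (g • v) w = 2 * rot g v * det3 v (ax g) w - tr g * (B v v * rot g w - B v w * rot g v) := by
  rw [smul_formula]
  simp only [rot, det3, B, cross, Prod.fst_add, Prod.snd_add,
      Prod.fst_sub, Prod.snd_sub, Prod.smul_fst, Prod.smul_snd, smul_eq_mul]
  ring

lemma rot_neg (g : SL(2, ℝ)) (v : V) : rot (-g) v = -rot g v := by rw [rot, ax_neg, B_neg_left, rot]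
lemma rot_inv (g : SL(2, ℝ)) (v : V) : rot g⁻¹ v = -rot g v := by rw [rot, ax_inv, B_neg_left, rot]
lemma rot_one (v : V) : rot 1 v = 0 := by simp [rot, ax_one]
lemma rot_conj (h g : SL(2, ℝ)) (v : V) : rot (h * g * h⁻¹) (h • v) = rot g v := by
  rw [rot, ax_conj, B_smul, rot]
lemma rot_smul_self (g : SL(2, ℝ)) (v : V) : rot g (g • v) = rot g v := by
  rw [rot, ← smul_ax g, B_smul, rot]
lemma rot_add (g : SL(2, ℝ)) (u v : V) : rot g (u + v) = rot g u + rot g v := B_add_right _ _ _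
lemma rot_smul (g : SL(2, ℝ)) (c : ℝ) (v : V) : rot g (c • v) = c * rot g v := B_smul_right _ _ _
lemma rot_mul (g h : SL(2, ℝ)) (v : V) :
    rot (g * h) v = tr g / 2 * rot h v + tr h / 2 * rot g v - det3 (ax g) (ax h) v := by
  rw [rot, ax_mul, B_sub_left, B_add_left, B_smul_left, B_smul_left, B_cross, rot, rot]

lemma al_neg (g : SL(2, ℝ)) (v : V) : al (-g) v = -al g v := by
  apply Complex.ext
  · simp only [al_re, neg_re, tr_neg]; ring
  · simp only [al_im, neg_im, rot_neg]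
lemma al_inv (g : SL(2, ℝ)) (v : V) : al g⁻¹ v = conj (al g v) := by
  apply Complex.ext
  · simp only [al_re, conj_re, tr_inv]
  · simp only [al_im, conj_im, rot_inv]
lemma al_one (v : V) : al 1 v = (nrm v : ℝ) := by
  apply Complex.ext
  · simp [al_re, tr_one]
  · simp [al_im, rot_one]
lemma al_conj (h g : SL(2, ℝ)) (v : V) : al (h * g * h⁻¹) (h • v) = al g v := by
  apply Complex.ext
  · simp only [al_re, tr_conj, nrm_smul]
  · simp only [al_im, rot_conj]
lemma al_smul_self (g : SL(2, ℝ)) (v : V) : al g (g • v) = al g v := by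
  apply Complex.ext
  · simp only [al_re, nrm_smul]
  · simp only [al_im, rot_smul_self]
lemma al_pos_smul (g : SL(2, ℝ)) {c : ℝ} (hc : 0 ≤ c) (v : V) : al g (c • v) = c * al g v := by
  apply Complex.ext
  · simp only [al_re, nrm_pos_smul hc, re_ofReal_mul]; ring
  · simp only [al_im, rot_smul, im_ofReal_mul]

lemma normSq_al (g : SL(2, ℝ)) {v : V} (hv : Cone v) :
    2 * normSq (al g v) = B v v + B v (g • v) := by
  rw [normSq_apply, al_re, al_im, B_smul_self, ← hv.nrm_sq]; ring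

lemma al_ne_zero (g : SL(2, ℝ)) {v : V} (hv : Tim v) : al g v ≠ 0 := by
  intro h
  have h1 := normSq_al g hv.cone
  rw [h] at h1
  have := hv.2
  have := hv.B_pos (hv.cone.smul g)
  simp at h1; linarith

lemma al_oV (g : SL(2, ℝ)) : al g oV = ⟨(g 0 0 + g 1 1) / 2, (g 0 1 - g 1 0) / 2⟩ := by
  apply Complex.ext
  · simp [al_re, hyp_oV.nrm, tr]
  · simp [al_im, rot, B, ax, oV]; ring

lemma rot_vec (g : SL(2, ℝ)) (z : ℍ) :
    rot g (vec z) = (g 0 1 + (g 0 0 - g 1 1) * z.re - g 1 0 * normSq z) / (2 * z.im) := by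
  have := z.im_pos
  simp only [rot, B, ax, vec]; field_simp; ring

lemma al_sp (g : SL(2, ℝ)) {η : Sp} (h : 0 ≤ (η.1 * conj η.2).im) :
    al g (sp η) = Hf η (sact g η) := by
  apply Complex.ext
  · rw [al_re, nrm_sp h]
    simp only [tr, Hf, sact, mul_re, mul_im, conj_re, conj_im, div_ofNat_re, sub_re,
      sub_im, add_re, add_im, I_re, I_im, ofReal_re, ofReal_im]
    ring
  · simp only [al_im, rot, B, ax, sp, normSq_apply, Hf, sact, mul_re, mul_im, conj_re, conj_im,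
      div_ofNat_im, sub_re, sub_im, add_re, add_im, I_re, I_im, ofReal_re, ofReal_im]
    ring

lemma sact_im (g : SL(2, ℝ)) (η : Sp) :
    ((sact g η).1 * conj (sact g η).2).im = (η.1 * conj η.2).im := by
  have := Hf_sact g η η
  rw [Hf_self, Hf_self] at this
  exact_mod_cast this

/-- the one-vertex triangle `(v, g v, g h v)` -/
theorem Zc_loop (g h : SL(2, ℝ)) {v : V} (hv : Cone v) :
    Zc v (g • v) ((g * h) • v) = 4 * (al g v * al h v * conj (al (g * h) v)) := by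
  obtain ⟨η, rfl, hη⟩ := hv.exists_sp
  have h0 : 0 ≤ (η.1 * conj η.2).im := hη ▸ nrm_nonneg _
  rw [smul_sp, smul_sp, Zc_sp h0 (by rwa [sact_im]) (by rwa [sact_im]), al_sp g h0, al_sp h h0,
    al_sp _ h0, Hf_conj, sact_mul, Hf_sact]

theorem Ar_loop (g h : SL(2, ℝ)) {v : V} (hv : Cone v) :
    Ar v (g • v) ((g * h) • v) = 2 * arg (al g v * al h v * conj (al (g * h) v)) := by
  rw [Ar, Zc_loop g h hv]
  exact congrArg _ (by exact_mod_cast arg_real_mul _ (show (0 : ℝ) < 4 by norm_num))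

/-- if `g h k = 1` -/
theorem Zc_loop3 {g h k : SL(2, ℝ)} (H : g * h * k = 1) {v : V} (hv : Cone v) :
    Zc v (g • v) ((g * h) • v) = 4 * (al g v * al h v * al k v) := by
  rw [Zc_loop g h hv, ← al_inv, ← eq_inv_of_mul_eq_one_right H]

lemma Hf_ne_zero {η ξ : Sp} (h1 : 0 ≤ (η.1 * conj η.2).im) (h2 : 0 ≤ (ξ.1 * conj ξ.2).im)
    (h : 0 < B (sp η) (sp ξ)) : Hf η ξ ≠ 0 := by
  intro h0
  have := normSq_Hf η ξ
  rw [h0] at this
  have := mul_nonneg h1 h2
  simp at *; linarith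

/-- area of the quadrilateral `(q, p, g p, g q)` -/
theorem Ar_quad {g : SL(2, ℝ)} (hg : 0 ≤ tr g) {p q : V} (hp : Tim p) (hq : Cone q)
    (hal : al g q ≠ 0) :
    Ar q p (g • p) + Ar q (g • p) (g • q) = 2 * arg (al g p) - 2 * arg (al g q) := by
  have b1 := abs_Ar_lt_pi hp (hp.cone.smul g) hq
  have b2 := abs_Ar_lt_pi (hp.smul g) (hq.smul g) hq
  rw [← Ar_cyc] at b1 b2
  have c1 : |arg (al g p)| ≤ Real.pi / 2 :=
    abs_arg_le_pi_div_two_iff.2 (mul_nonneg (by linarith) (nrm_nonneg _))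
  have c2 : |arg (al g q)| ≤ Real.pi / 2 :=
    abs_arg_le_pi_div_two_iff.2 (mul_nonneg (by linarith) (nrm_nonneg _))
  have c3 : arg (conj (al g q)) = -arg (al g q) :=
    arg_conj_of_re_nonneg (mul_nonneg (by linarith) (nrm_nonneg _))
  have hp0 := al_ne_zero g hp
  have B1 := hp.B_pos hq
  have B2 := (hp.smul g).B_pos hq
  obtain ⟨η, rfl, hη⟩ := hp.cone.exists_sp
  obtain ⟨κ, rfl, hκ⟩ := hq.exists_sp
  have h0 : 0 ≤ (η.1 * conj η.2).im := hη ▸ nrm_nonneg _
  have k0 : 0 ≤ (κ.1 * conj κ.2).im := hκ ▸ nrm_nonneg _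
  have n1 := Hf_ne_zero h0 k0 B1
  rw [smul_sp] at B2
  have n2 := Hf_ne_zero (by rwa [sact_im]) k0 B2
  have hZ : Zc (sp κ) (sp η) (g • sp η) * Zc (sp κ) (g • sp η) (g • sp κ) =
      ((16 * normSq (Hf η κ) * normSq (Hf (sact g η) κ) : ℝ) : ℂ) *
        (al g (sp η) * conj (al g (sp κ))) := by
    rw [smul_sp, smul_sp, Zc_sp k0 h0 (by rwa [sact_im]),
      Zc_sp k0 (by rwa [sact_im]) (by rwa [sact_im]), al_sp g h0, al_sp g k0, Hf_sact, Hf_conj,
      ← Hf_conj η κ, ← Hf_conj (sact g η) κ]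
    push_cast
    rw [normSq_eq_conj_mul_self, normSq_eq_conj_mul_self]; ring
  have hpos : 0 < 16 * normSq (Hf η κ) * normSq (Hf (sact g η) κ) := by
    have := normSq_pos.2 n1; have := normSq_pos.2 n2; positivity
  have hne : Zc (sp κ) (sp η) (g • sp η) * Zc (sp κ) (g • sp η) (g • sp κ) ≠ 0 := by
    rw [hZ]
    exact mul_ne_zero (by exact_mod_cast hpos.ne') (mul_ne_zero hp0 (by simpa using hal))
  have : arg (Zc (sp κ) (sp η) (g • sp η)) + arg (Zc (sp κ) (g • sp η) (g • sp κ)) =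
      arg (al g (sp η)) - arg (al g (sp κ)) := by
    apply eq_of_angle_eq
    · rw [Real.Angle.coe_add, ← arg_mul_coe_angle (left_ne_zero_of_mul hne)
        (right_ne_zero_of_mul hne), hZ, arg_real_mul _ hpos,
        arg_mul_coe_angle hp0 (by simpa using hal), c3]
      simp [sub_eq_add_neg]
    · simp only [Ar, abs_mul, abs_two] at b1 b2
      rw [abs_le] at c1 c2
      have b1' : |arg (Zc (sp κ) (sp η) (g • sp η))| < Real.pi / 2 := by linarith
      have b2' : |arg (Zc (sp κ) (g • sp η) (g • sp κ))| < Real.pi / 2 := by linarith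
      rw [abs_lt] at b1' b2' ⊢
      constructor <;> linarith
  simp only [Ar]; linarith

/-- `q` an interior fixed point (elliptic or identity): cone triangle over the loop -/
theorem Ar_fixed {g : SL(2, ℝ)} (hg : 0 ≤ tr g) {p q : V} (hp : Tim p) (hq : Tim q)
    (hfix : g • q = q) : Ar q p (g • p) = 2 * arg (al g p) - 2 * arg (al g q) := by
  have := Ar_quad hg hp hq.cone (al_ne_zero g hq)
  rwa [hfix, Ar_self13 hq.cone (hp.cone.smul g), add_zero] at this

/-- `q` on the axis of `g` (`rot g q = 0`): the quadrilateral between the loop and the axis -/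
theorem Ar_axis {g : SL(2, ℝ)} (hg : 0 ≤ tr g) {p q : V} (hp : Tim p) (hq : Tim q)
    (hq0 : rot g q = 0) : Ar q p (g • p) + Ar q (g • p) (g • q) = 2 * arg (al g p) := by
  have h0 : arg (al g q) = 0 :=
    arg_eq_zero_iff.2 ⟨mul_nonneg (by linarith) (nrm_nonneg _), hq0⟩
  rw [Ar_quad hg hp hq.cone (al_ne_zero g hq), h0]; ring

/-- an ideal point is the square of a real vector -/
lemma Cone.exists_real {ξ : V} (h : Cone ξ) (h0 : B ξ ξ = 0) :
    ∃ k1 k2 : ℝ, ξ = (k1 ^ 2, k1 * k2, k2 ^ 2) := by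
  have h1 := h.fst_nonneg
  have h2 := h.trd_nonneg
  have h3 : ξ.2.1 ^ 2 = ξ.1 * ξ.2.2 := by simp only [B] at h0; linarith
  have h4 : |ξ.2.1| = √ξ.1 * √ξ.2.2 := by
    rw [← Real.sqrt_mul h1, ← h3, Real.sqrt_sq_eq_abs]
  rcases le_total 0 ξ.2.1 with h5 | h5
  · refine ⟨√ξ.1, √ξ.2.2, Prod.ext ?_ (Prod.ext ?_ ?_)⟩
    · exact (Real.sq_sqrt h1).symm
    · rw [← h4, abs_of_nonneg h5]
    · exact (Real.sq_sqrt h2).symm
  · refine ⟨√ξ.1, -√ξ.2.2, Prod.ext ?_ (Prod.ext ?_ ?_)⟩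
    · exact (Real.sq_sqrt h1).symm
    · simp only [mul_neg]; rw [← h4, abs_of_nonpos h5, neg_neg]
    · simp only [neg_sq]; exact (Real.sq_sqrt h2).symm

/-- an ideal fixed point comes from a real eigenvector -/
lemma exists_eigen {g : SL(2, ℝ)} {k1 k2 μ : ℝ} (hk : 0 < k1 ^ 2 + k2 ^ 2)
    (hfix : g • ((k1 ^ 2, k1 * k2, k2 ^ 2) : V) = μ • ((k1 ^ 2, k1 * k2, k2 ^ 2) : V)) :
    ∃ l : ℝ, g 0 0 * k1 + g 0 1 * k2 = l * k1 ∧ g 1 0 * k1 + g 1 1 * k2 = l * k2 ∧
      l ^ 2 - tr g * l + 1 = 0 ∧ l ^ 2 = μ := by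
  have hd := det_eq g
  have e1 := congrArg (fun v : V => v.1) hfix
  have e2 := congrArg (fun v : V => v.2.1) hfix
  have e3 := congrArg (fun v : V => v.2.2) hfix
  simp only [smul_1, smul_21, smul_22, Prod.smul_fst, Prod.smul_snd, smul_eq_mul] at e1 e2 e3
  obtain ⟨x, hx⟩ : ∃ x, x = g 0 0 * k1 + g 0 1 * k2 := ⟨_, rfl⟩
  obtain ⟨y, hy⟩ : ∃ y, y = g 1 0 * k1 + g 1 1 * k2 := ⟨_, rfl⟩
  have f1 : x ^ 2 = μ * k1 ^ 2 := by rw [hx]; linear_combination e1
  have f2 : x * y = μ * (k1 * k2) := by rw [hx, hy]; linear_combination e2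
  have f3 : y ^ 2 = μ * k2 ^ 2 := by rw [hy]; linear_combination e3
  have f4 : x * k2 - y * k1 = 0 := by
    have : (x * k2 - y * k1) ^ 2 = 0 := by
      linear_combination k2 ^ 2 * f1 - 2 * k1 * k2 * f2 + k1 ^ 2 * f3
    exact pow_eq_zero_iff two_ne_zero |>.1 this
  obtain ⟨l, hl⟩ : ∃ l, l = (x * k1 + y * k2) / (k1 ^ 2 + k2 ^ 2) := ⟨_, rfl⟩
  have g1 : x = l * k1 := by rw [hl]; field_simp; linear_combination k2 * f4
  have g2 : y = l * k2 := by rw [hl]; field_simp; linear_combination -k1 * f4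
  refine ⟨l, hx ▸ g1, hy ▸ g2, ?_, ?_⟩
  · have c1 : (l ^ 2 - tr g * l + 1) * k1 = 0 := by
      rw [hx] at g1; rw [hy] at g2
      simp only [tr]
      linear_combination (g 1 1 - l) * g1 - g 0 1 * g2 - k1 * hd
    have c2 : (l ^ 2 - tr g * l + 1) * k2 = 0 := by
      rw [hx] at g1; rw [hy] at g2
      simp only [tr]
      linear_combination (g 0 0 - l) * g2 - g 1 0 * g1 - k2 * hd
    have : (l ^ 2 - tr g * l + 1) * (k1 ^ 2 + k2 ^ 2) = 0 := by
      linear_combination k1 * c1 + k2 * c2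
    exact (mul_eq_zero.1 this).resolve_right hk.ne'
  · have : (l ^ 2 - μ) * (k1 ^ 2 + k2 ^ 2) = 0 := by
      rw [g1] at f1; rw [g2] at f3
      linear_combination f1 + f3
    have := (mul_eq_zero.1 this).resolve_right hk.ne'
    linarith

/-- `ξ` an ideal fixed point (hyperbolic, parabolic or identity with `tr > 0`) -/
theorem Ar_ideal_fixed {g : SL(2, ℝ)} (hg : 0 < tr g) {p ξ : V} (hp : Cone p) (hξ : Cone ξ)
    (h0 : B ξ ξ = 0) {μ : ℝ} (hfix : g • ξ = μ • ξ) (hB : 0 < B ξ p) :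
    Ar ξ p (g • p) = 2 * arg (al g p) := by
  obtain ⟨k1, k2, rfl⟩ := hξ.exists_real h0
  obtain ⟨l, l1, l2, l3, -⟩ := exists_eigen hξ.1 hfix
  have hl : 0 < l := by
    by_contra hc
    push Not at hc
    nlinarith [mul_nonneg hg.le (neg_nonneg.2 hc), sq_nonneg l]
  obtain ⟨η, rfl, hη⟩ := hp.exists_sp
  have e0 : 0 ≤ (η.1 * conj η.2).im := hη ▸ nrm_nonneg _
  set κ : Sp := ((k1 : ℂ), (k2 : ℂ)) with hκ
  have hs : ((k1 ^ 2, k1 * k2, k2 ^ 2) : V) = sp κ := by
    simp [sp, hκ, sq]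
  have k0 : 0 ≤ (κ.1 * conj κ.2).im := by simp [hκ]
  have hgk : sact g κ = ((l * k1 : ℂ), (l * k2 : ℂ)) := by
    simp only [sact, hκ]
    refine Prod.ext ?_ ?_ <;> simp only
    · exact_mod_cast l1
    · exact_mod_cast l2
  have h1 : (l : ℂ) * Hf (sact g η) κ = Hf η κ := by
    rw [← Hf_sact g η κ, hgk]
    simp only [Hf, hκ, map_mul, conj_ofReal]; ring
  rw [hs] at hB ⊢
  have n1 : Hf η κ ≠ 0 := Hf_ne_zero e0 k0 (by rwa [B_comm])
  have hl' : (l : ℂ) ≠ 0 := by exact_mod_cast hl.ne'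
  have hZ : Zc (sp κ) (sp η) (g • sp η) = ((4 * normSq (Hf η κ) / l : ℝ) : ℂ) * al g (sp η) := by
    rw [smul_sp, Zc_sp k0 e0 (by rwa [sact_im]), al_sp g e0, ← Hf_conj η κ]
    push_cast
    rw [normSq_eq_conj_mul_self]
    field_simp
    rw [← h1]; ring
  rw [Ar, hZ, arg_real_mul]
  have := normSq_pos.2 n1; positivity

end A25f44
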