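import Pool.Agent.Lib.MP_a25f44_gt.H33Euler

/-!
# Area sums over a labelled dart map (helper33)
-/

open scoped MatrixGroups UpperHalfPlane ComplexConjugate
open Complex Pool.Agent.Lib.MP_a25f44_gt

noncomputable section

namespace A25f44

variable {D : Type} (M : DartMap D) {Γ : Type} [Group Γ] (L : D → Γ) (ρ : Γ →* PSL(2, ℝ))

/-- area of the face of `d` (each face is counted by its three darts), positions in the cone -/
def faceAr (pos : D → V) (d : D) : ℝ :=
  Ar (pos d) (ρ (L d) • pos (M.nx d)) (ρ (L d * L (M.nx d)) • pos (M.nx (M.nx d)))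

/-- determinant of the face of `d` -/
def faceDet (pos : D → V) (d : D) : ℝ :=
  det3 (pos d) (ρ (L d) • pos (M.nx d)) (ρ (L d * L (M.nx d)) • pos (M.nx (M.nx d)))

/-- angle of the face of `d` at the origin of `d` -/
def faceAng (pos : D → V) (d : D) : ℝ :=
  angV (pos d) (ρ (L d) • pos (M.nx d)) (ρ (L d * L (M.nx d)) • pos (M.nx (M.nx d)))

variable {M L}

lemma lab_cyc (hL : M.IsLab L) (d : D) : L (M.nx d) * L (M.nx (M.nx d)) = (L d)⁻¹ := by
  rw [eq_inv_iff_mul_eq_one, ← hL.2 (M.nx d), M.nx3]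

lemma lab_cyc' (hL : M.IsLab L) (d : D) : L d * L (M.nx d) = (L (M.nx (M.nx d)))⁻¹ :=
  eq_inv_of_mul_eq_one_left (hL.2 d)

lemma faceAr_nx (hL : M.IsLab L) (pos : D → V) (d : D) :
    faceAr M L ρ pos (M.nx d) = faceAr M L ρ pos d := by
  rw [faceAr, faceAr, M.nx3, lab_cyc hL, ← Ar_psmul (ρ (L d)), ← mul_smul, ← mul_smul, ← map_mul,
    ← map_mul, mul_inv_cancel, map_one, one_smul, ← Ar_cyc]

lemma faceDet_nx (hL : M.IsLab L) (pos : D → V) (d : D) :
    faceDet M L ρ pos (M.nx d) = faceDet M L ρ pos d := by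
  rw [faceDet, faceDet, M.nx3, lab_cyc hL, ← det3_psmul (ρ (L d)), ← mul_smul, ← mul_smul,
    ← map_mul, ← map_mul, mul_inv_cancel, map_one, one_smul, ← det3_cyc]

lemma faceAng_nx (hL : M.IsLab L) (pos : D → V) (d : D) : faceAng M L ρ pos (M.nx d) =
    angV (ρ (L d) • pos (M.nx d)) (ρ (L d * L (M.nx d)) • pos (M.nx (M.nx d))) (pos d) := by
  rw [faceAng, M.nx3, lab_cyc hL, ← angV_psmul (ρ (L d)), ← mul_smul, ← mul_smul,
    ← map_mul, ← map_mul, mul_inv_cancel, map_one, one_smul]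

/-- Gauss–Bonnet for a face -/
lemma faceAng_sum (hL : M.IsLab L) {pos : D → V} (hp : ∀ d, Cone (pos d)) {d : D}
    (h : 0 < faceDet M L ρ pos d) :
    faceAng M L ρ pos d + faceAng M L ρ pos (M.nx d) + faceAng M L ρ pos (M.nx (M.nx d)) =
      Real.pi - faceAr M L ρ pos d := by
  have e : faceAng M L ρ pos (M.nx (M.nx d)) = angV (ρ (L d * L (M.nx d)) • pos (M.nx (M.nx d)))
      (pos d) (ρ (L d) • pos (M.nx d)) := by
    rw [faceAng_nx ρ hL, M.nx3, lab_cyc hL, ← angV_psmul (ρ (L d)), ← mul_smul, ← mul_smul,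
      ← map_mul, ← map_mul, mul_inv_cancel, map_one, one_smul]
  rw [e, faceAng_nx ρ hL]
  exact gauss_bonnet (hp _) ((hp _).psmul _) ((hp _).psmul _) h

/-- area of the quadrilateral swept by the edge `d` when positions move from `p` to `q` -/
def edgeQ (p q : D → V) (d : D) : ℝ :=
  Ar (p d) (q d) (ρ (L d) • q (M.nx d)) + Ar (p d) (ρ (L d) • q (M.nx d)) (ρ (L d) • p (M.nx d))

/-- prism formula for one face -/
lemma faceAr_sub (hL : M.IsLab L) {p q : D → V} (hp : ∀ d, Cone (p d)) (hq : ∀ d, Cone (q d))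
    (d : D) : faceAr M L ρ q d = faceAr M L ρ p d + edgeQ (M := M) (L := L) ρ p q d
      + edgeQ (M := M) (L := L) ρ p q (M.nx d) + edgeQ (M := M) (L := L) ρ p q (M.nx (M.nx d)) := by
  have e1 : edgeQ (M := M) (L := L) ρ p q (M.nx d) =
      Ar (ρ (L d) • p (M.nx d)) (ρ (L d) • q (M.nx d)) (ρ (L d * L (M.nx d)) • q (M.nx (M.nx d))) +
      Ar (ρ (L d) • p (M.nx d)) (ρ (L d * L (M.nx d)) • q (M.nx (M.nx d)))
        (ρ (L d * L (M.nx d)) • p (M.nx (M.nx d))) := by
    simp only [edgeQ, map_mul, mul_smul, Ar_psmul]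
  have e2 : edgeQ (M := M) (L := L) ρ p q (M.nx (M.nx d)) =
      Ar (ρ (L d * L (M.nx d)) • p (M.nx (M.nx d))) (ρ (L d * L (M.nx d)) • q (M.nx (M.nx d))) (q d) +
      Ar (ρ (L d * L (M.nx d)) • p (M.nx (M.nx d))) (q d) (p d) := by
    rw [edgeQ, M.nx3, ← Ar_psmul (ρ (L d * L (M.nx d))), ← Ar_psmul (ρ (L d * L (M.nx d))) (p _),
      ← mul_smul, ← mul_smul, ← map_mul, hL.2, map_one, one_smul, one_smul]
  rw [e1, e2, edgeQ, faceAr, faceAr]
  have a0 := hp d; have a1 := (hp (M.nx d)).psmul (ρ (L d))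
  have a2 := (hp (M.nx (M.nx d))).psmul (ρ (L d * L (M.nx d)))
  have b0 := hq d; have b1 := (hq (M.nx d)).psmul (ρ (L d))
  have b2 := (hq (M.nx (M.nx d))).psmul (ρ (L d * L (M.nx d)))
  simp only [Ar_eq_eA, a0, a1, a2, b0, b1, b2, eA_swap a0 a1, eA_swap a1 a2, eA_swap a2 a0,
    eA_swap a0 b0, eA_swap a1 b1, eA_swap a2 b2, eA_swap a0 b1, eA_swap a1 b2, eA_swap a2 b0]
  ring

lemma edgeQ_op (hL : M.IsLab L) {p q : D → V} (hp : ∀ d, Cone (p d)) (hq : ∀ d, Cone (q d))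
    {d : D} (h1 : p (M.op d) = p (M.nx d)) (h2 : q (M.op d) = q (M.nx d))
    (h3 : p (M.nx (M.op d)) = p d) (h4 : q (M.nx (M.op d)) = q d) :
    edgeQ (M := M) (L := L) ρ p q (M.op d) = -edgeQ (M := M) (L := L) ρ p q d := by
  rw [edgeQ, edgeQ, h1, h2, h3, h4, hL.1, ← Ar_psmul (ρ (L d)), ← Ar_psmul (ρ (L d)) (p _),
    ← mul_smul, ← mul_smul, ← map_mul, mul_inv_cancel, map_one, one_smul, one_smul]
  have a0 := hp d; have a1 := (hp (M.nx d)).psmul (ρ (L d))
  have b0 := hq d; have b1 := (hq (M.nx d)).psmul (ρ (L d))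
  simp only [Ar_eq_eA, a0, a1, b0, b1, eA_swap a0 a1, eA_swap a0 b0, eA_swap a1 b1, eA_swap a0 b1,
    eA_swap a1 b0, eA_swap b0 b1]
  ring

lemma sum_op_antisymm [Fintype D] {f : D → ℝ} (h : ∀ d, f (M.op d) = -f d) : ∑ d, f d = 0 := by
  have h1 : ∑ d, f (M.op d) = ∑ d, f d := Equiv.sum_comp M.op f
  simp only [h, Finset.sum_neg_distrib] at h1
  linarith

lemma sum_nx [Fintype D] (f : D → ℝ) : ∑ d, f (M.nx d) = ∑ d, f d := Equiv.sum_comp M.nx f

/-- on a closed surface the total area does not depend on the positions of the vertices -/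
theorem sum_faceAr_indep [Fintype D] (hL : M.IsLab L) {p q : D → V} (hp : ∀ d, Cone (p d))
    (hq : ∀ d, Cone (q d)) (hp' : ∀ d, p (M.op d) = p (M.nx d))
    (hq' : ∀ d, q (M.op d) = q (M.nx d)) :
    ∑ d, faceAr M L ρ q d = ∑ d, faceAr M L ρ p d := by
  have h0 : ∑ d, edgeQ (M := M) (L := L) ρ p q d = 0 := sum_op_antisymm (M := M) fun d =>
    edgeQ_op ρ hL hp hq (hp' d) (hq' d) (by rw [← hp', M.op2]) (by rw [← hq', M.op2])
  simp only [faceAr_sub ρ hL hp hq, Finset.sum_add_distrib]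
  rw [sum_nx (M := M) (fun d => edgeQ (M := M) (L := L) ρ p q (M.nx d)), sum_nx, h0]; ring

/-- total angle of a positive triangulation: `∑ angles = π #faces - area`
(`∑ d, faceAr = 3 * area`, `card D = 3 * #faces`) -/
theorem sum_faceAng [Fintype D] (hL : M.IsLab L) {pos : D → V} (hp : ∀ d, Cone (pos d))
    (h : ∀ d, 0 < faceDet M L ρ pos d) :
    3 * ∑ d, faceAng M L ρ pos d = Fintype.card D * Real.pi - ∑ d, faceAr M L ρ pos d := by
  have := Finset.sum_congr (rfl : (Finset.univ : Finset D) = _)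
    fun d _ => faceAng_sum ρ hL hp (h d)
  simp only [Finset.sum_add_distrib, Finset.sum_sub_distrib, Finset.sum_const, Finset.card_univ,
    nsmul_eq_mul] at this
  rw [sum_nx (M := M) (fun d => faceAng M L ρ pos (M.nx d)), sum_nx] at this
  linarith

/-- dictionary: positivity and corners of `Defs.lean` -/
lemma isPos_iff (pos : D → ℍ) : M.IsPos L ρ pos ↔ (∀ d, pos (M.op d) = pos (M.nx d)) ∧
    ∀ d, 0 < faceDet M L ρ (fun d => vec (pos d)) d := by
  simp only [DartMap.IsPos, faceDet, ori_pos_iff, vec_pslAct]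

lemma corner_eq (pos : D → ℍ) (d : D) :
    M.corner L ρ pos d = faceAng M L ρ (fun d => vec (pos d)) d := by
  simp only [DartMap.corner, faceAng, ang_eq, vec_pslAct]

/-! ### primitives of the area cocycle -/

/-- `r` is a primitive of the area cocycle at `p` for `φ : F →* PSL(2,ℝ)` -/
def IsPrim {F : Type} [Group F] (φ : F →* PSL(2, ℝ)) (p : V) (r : F → ℝ) : Prop :=
  ∀ u v, r (u * v) = r u + r v + Ar p (φ u • p) (φ (u * v) • p) / 2

section prim
variable {F : Type} [Group F] {φ : F →* PSL(2, ℝ)} {p : V} {r : F → ℝ}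

lemma IsPrim.one (h : IsPrim φ p r) (hp : Cone p) : r 1 = 0 := by
  have := h 1 1
  simp only [mul_one, map_one, one_smul, Ar_self12 hp hp] at this
  linarith

lemma IsPrim.inv (h : IsPrim φ p r) (hp : Cone p) (u : F) : r u⁻¹ = -r u := by
  have := h u u⁻¹
  rw [mul_inv_cancel, h.one hp, map_one, one_smul, Ar_self13 hp (hp.psmul _)] at this
  linarith

lemma IsPrim.mul_ker (h : IsPrim φ p r) (hp : Cone p) (u : F) {k : F} (hk : φ k = 1) :
    r (u * k) = r u + r k := by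
  rw [h u k, map_mul, hk, mul_one, Ar_self23 hp (hp.psmul _)]; ring

lemma IsPrim.conj_ker (h : IsPrim φ p r) (hp : Cone p) (u : F) {k : F} (hk : φ k = 1) :
    r (u * k * u⁻¹) = r k := by
  rw [h (u * k) u⁻¹, h.mul_ker hp u hk, h.inv hp, map_mul, map_mul, map_mul, hk, mul_one, ← map_mul,
    mul_inv_cancel, map_one, one_smul, Ar_self13 hp (hp.psmul _)]
  ring

/-- area sum of a one-vertex triangulation labelled in `F` whose face words lie in `ker φ` -/
theorem IsPrim.sum_area [Fintype D] (h : IsPrim φ p r) (hp : Cone p) (N : D → F)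
    (hop : ∀ d, N (M.op d) = (N d)⁻¹)
    (hker : ∀ d, φ (N d * N (M.nx d) * N (M.nx (M.nx d))) = 1) :
    ∑ d, faceAr M N φ (fun _ => p) d = 2 * ∑ d, r (N d * N (M.nx d) * N (M.nx (M.nx d))) := by
  have e : ∀ d, faceAr M N φ (fun _ => p) d = 2 * (r (N d * N (M.nx d) * N (M.nx (M.nx d)))
      - r (N d) - r (N (M.nx d)) - r (N (M.nx (M.nx d)))) := by
    intro d
    rw [h (N d * N (M.nx d)), hker, one_smul, Ar_self13 hp (hp.psmul _), h (N d), faceAr]; ring
  have h0 : ∑ d, r (N d) = 0 := sum_op_antisymm (M := M) fun d => by rw [hop, h.inv hp]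
  simp only [e, ← Finset.mul_sum, Finset.sum_sub_distrib]
  rw [sum_nx (M := M) (fun d => r (N (M.nx d))), sum_nx (M := M) (fun d => r (N d)), h0]; ring

end prim

/-- `euler_primitive` in terms of `IsPrim` -/
theorem euler_isPrim {g : ℕ} (ρ : SurfGroup g →* PSL(2, ℝ)) (n : ℤ) (h : HasEulerNumber ρ n)
    {p : V} (hp : Cone p) : ∃ r, IsPrim (ρ.comp (PresentedGroup.mk {relator g})) p r ∧
      r (relator g) = n * Real.pi :=
  euler_primitive ρ n h hp

end A25f44
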