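import Pool.Agent.Lib.MP_a25f44_gt.H33Flat

/-!
# The sweep lemma (module M3, helper33)

Move the vertex classes of a partially positive labelled triangulation along a path, flipping free
edges when necessary.  Either the end of the path is reached, or a free edge becomes short, or an
apex comes close to a wall.
-/

open scoped MatrixGroups Topology
open Filter Pool.Agent.Lib.MP_a25f44_gt

noncomputable section

namespace A25f44

variable {D C Γ : Type} [Group Γ]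

/-- cosh of the length of the edge `d` -/
def edgeB (M : DartMap D) (L : D → Γ) (ρ : Γ →* PSL(2, ℝ)) (pos : D → V) (d : D) : ℝ :=
  B (pos d) (ρ (L d) • pos (M.nx d))

/-- `(M',L',c')` is a flip of `(M,L,c)` at `d` (`c` = vertex class of the origin of a dart; only
its values on the good darts `G` matter).  Faces `(d,a1,a2)`, `(op d,b1,b2)` become `(e,a2,b1)`,
`(e',b2,a1)`, where `{e,e'} = {d, op d}` in either order. -/
def IsFlip (G : Set D) (M : DartMap D) (L : D → Γ) (c : D → C) (d : D)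
    (M' : DartMap D) (L' : D → Γ) (c' : D → C) : Prop :=
  ∃ e e' : D, (e = d ∧ e' = M.op d ∨ e = M.op d ∧ e' = d) ∧ M'.op = M.op ∧
    M'.nx e = M.nx (M.nx d) ∧ M'.nx (M.nx (M.nx d)) = M.nx (M.op d) ∧ M'.nx (M.nx (M.op d)) = e ∧
    M'.nx e' = M.nx (M.nx (M.op d)) ∧ M'.nx (M.nx (M.nx (M.op d))) = M.nx d ∧ M'.nx (M.nx d) = e' ∧
    (∀ x, x ≠ d → x ≠ M.nx d → x ≠ M.nx (M.nx d) → x ≠ M.op d → x ≠ M.nx (M.op d) →
      x ≠ M.nx (M.nx (M.op d)) → M'.nx x = M.nx x) ∧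
    L' e' = L (M.nx (M.nx d)) * L (M.nx (M.op d)) ∧ L' e = (L' e')⁻¹ ∧
    (∀ x, x ≠ d → x ≠ M.op d → L' x = L x) ∧
    c' e = c (M.nx (M.nx (M.op d))) ∧ c' e' = c (M.nx (M.nx d)) ∧
    (∀ x ∈ G, x ≠ d → x ≠ M.op d → c' x = c x)

/-- admissible motion of the vertex classes on `[0,1]` -/
def Motion (π : ℝ → C → V) : Prop :=
  (∀ t ∈ Set.Icc (0 : ℝ) 1, ∀ c, Hyp (π t c)) ∧
  (∀ c, ContinuousOn (fun t => π t c) (Set.Icc 0 1)) ∧
  ∃ Λ : ℝ, ∀ s ∈ Set.Icc (0 : ℝ) 1, ∀ t ∈ Set.Icc (0 : ℝ) 1, ∀ c w, Cone w →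
    B (π t c) w ≤ Real.exp (Λ * |t - s|) * B (π s c) w

/-- the apex of the face of `d` is `η`-close to the open segment of `d` -/
def ApexNear (M : DartMap D) (L : D → Γ) (ρ : Γ →* PSL(2, ℝ)) (pos : D → V) (η : ℝ) (d : D) :
    Prop :=
  ∃ α β : ℝ, 0 < α ∧ 0 < β ∧ Hyp (α • pos d + β • ρ (L d) • pos (M.nx d)) ∧
    B (α • pos d + β • ρ (L d) • pos (M.nx d)) (ρ (L d * L (M.nx d)) • pos (M.nx (M.nx d))) < 1 + η

theorem seg_motion [Finite C] (p q : C → V) (hp : ∀ c, Hyp (p c)) (hq : ∀ c, Hyp (q c)) :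
    Motion fun t c => seg (p c) (q c) t := by
  refine ⟨fun t ht c => hyp_seg (hp c) (hq c) ht, fun c => continuousOn_seg (hp c) (hq c), ?_⟩
  obtain ⟨b, hb⟩ := (Set.finite_range fun c => B (p c) (q c)).bddAbove
  refine ⟨5 * b, fun s hs t ht c w hw => (B_seg_le (hp c) (hq c) hs ht hw).trans ?_⟩
  refine mul_le_mul_of_nonneg_right (Real.exp_le_exp.2 ?_)
    ((hyp_seg (hp c) (hq c) hs).cone.B_nonneg hw)
  have := hb (Set.mem_range_self c)
  exact mul_le_mul_of_nonneg_right (by linarith) (abs_nonneg _)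

/-! ### combinatorics of a flip -/

section comb
variable (M : DartMap D)

lemma nx2_ne (d : D) : M.nx (M.nx d) ≠ d := fun h => M.nx_ne d (by
  have := congrArg M.nx h; rw [M.nx3] at this; exact this.symm)

lemma nx_inj {x y : D} (h : M.nx x = M.nx y) : x = y := M.nx.injective h

variable {M}

lemma six_distinct {d : D} (h1 : M.op d ≠ M.nx d) (h2 : M.op d ≠ M.nx (M.nx d)) :
    M.nx d ≠ d ∧ M.nx (M.nx d) ≠ d ∧ M.nx (M.op d) ≠ d ∧ M.nx (M.nx (M.op d)) ≠ d ∧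
    M.nx d ≠ M.op d ∧ M.nx (M.nx d) ≠ M.op d ∧ M.nx (M.op d) ≠ M.op d ∧
    M.nx (M.nx (M.op d)) ≠ M.op d := by
  refine ⟨M.nx_ne d, nx2_ne M d, fun h => h2 ?_, fun h => h1 ?_, h1.symm, h2.symm, M.nx_ne _,
    nx2_ne M _⟩
  · have := congrArg (fun x => M.nx (M.nx x)) h
    simpa only [M.nx3] using this
  · have := congrArg M.nx h
    simpa only [M.nx3] using this

end comb

section flipdata
variable {G : Set D} {M M' : DartMap D} {L L' : D → Γ} {c c' : D → C} {d : D}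

/-- labels, classes and tip classes of all darts other than `d`, `op d` are unchanged -/
lemma IsFlip.other (h : IsFlip G M L c d M' L' c') (hG : ∀ x ∈ G, M.nx x ∈ G) (hd : d ∈ G)
    (hd' : M.op d ∈ G) (hc1 : c (M.op d) = c (M.nx d)) (hc2 : c d = c (M.nx (M.op d)))
    (h1 : M.op d ≠ M.nx d) (h2 : M.op d ≠ M.nx (M.nx d)) {x : D} (hx : x ∈ G) (hxd : x ≠ d)
    (hxd' : x ≠ M.op d) : L' x = L x ∧ c' x = c x ∧ c' (M'.nx x) = c (M.nx x) := by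
  obtain ⟨e, e', -, -, -, n2, n3, -, n5, n6, nout, -, -, lout, c1, c2, cout⟩ := h
  obtain ⟨s1, s2, s3, s4, s5, s6, s7, s8⟩ := six_distinct h1 h2
  refine ⟨lout x hxd hxd', cout x hx hxd hxd', ?_⟩
  by_cases a1 : x = M.nx d
  · rw [a1, n6, c2]
  by_cases a2 : x = M.nx (M.nx d)
  · rw [a2, n2, cout _ (hG _ hd') s3 s7, M.nx3, hc2]
  by_cases b1 : x = M.nx (M.op d)
  · rw [b1, n3, c1]
  by_cases b2 : x = M.nx (M.nx (M.op d))
  · rw [b2, n5, cout _ (hG _ hd) s1 s5, M.nx3, hc1]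
  rw [nout x hxd a1 a2 hxd' b1 b2]
  refine cout _ (hG _ hx) (fun h => a2 ?_) (fun h => b2 ?_)
  · rw [← h, M.nx3]
  · rw [← h, M.nx3]

lemma IsFlip.edge_other (h : IsFlip G M L c d M' L' c') (hG : ∀ x ∈ G, M.nx x ∈ G) (hd : d ∈ G)
    (hd' : M.op d ∈ G) (hc1 : c (M.op d) = c (M.nx d)) (hc2 : c d = c (M.nx (M.op d)))
    (h1 : M.op d ≠ M.nx d) (h2 : M.op d ≠ M.nx (M.nx d)) (ρ : Γ →* PSL(2, ℝ)) (π : C → V)
    {x : D} (hx : x ∈ G) (hxd : x ≠ d) (hxd' : x ≠ M.op d) :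
    edgeB M' L' ρ (fun y => π (c' y)) x = edgeB M L ρ (fun y => π (c y)) x := by
  obtain ⟨a, b, e⟩ := h.other hG hd hd' hc1 hc2 h1 h2 hx hxd hxd'
  simp only [edgeB, a, b, e]

lemma IsFlip.det_other (h : IsFlip G M L c d M' L' c') (hG : ∀ x ∈ G, M.nx x ∈ G) (hd : d ∈ G)
    (hd' : M.op d ∈ G) (hc1 : c (M.op d) = c (M.nx d)) (hc2 : c d = c (M.nx (M.op d)))
    (h1 : M.op d ≠ M.nx d) (h2 : M.op d ≠ M.nx (M.nx d)) (ρ : Γ →* PSL(2, ℝ)) (π : C → V)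
    {x : D} (hx : x ∈ G) (a0 : x ≠ d) (a1 : x ≠ M.nx d) (a2 : x ≠ M.nx (M.nx d))
    (b0 : x ≠ M.op d) (b1 : x ≠ M.nx (M.op d)) (b2 : x ≠ M.nx (M.nx (M.op d))) :
    faceDet M' L' ρ (fun y => π (c' y)) x = faceDet M L ρ (fun y => π (c y)) x := by
  obtain ⟨p1, p2, p3⟩ := h.other hG hd hd' hc1 hc2 h1 h2 hx a0 b0
  have y0 : M.nx x ≠ d := fun h => a2 (by rw [← h, M.nx3])
  have y1 : M.nx x ≠ M.op d := fun h => b2 (by rw [← h, M.nx3])
  obtain ⟨q1, -, q3⟩ := h.other hG hd hd' hc1 hc2 h1 h2 (hG _ hx) y0 y1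
  obtain ⟨e, e', -, -, -, -, -, -, -, -, nout, -⟩ := h
  have := nout x a0 a1 a2 b0 b1 b2
  simp only [faceDet, this] at p3 ⊢
  rw [p1, p2, p3, q1, q3]

/-- the new edge and the two new faces, in the frame of `d` -/
lemma IsFlip.six (h : IsFlip G M L c d M' L' c') (hL : M.IsLab L) (hL' : M'.IsLab L')
    (hG : ∀ x ∈ G, M.nx x ∈ G) (hd : d ∈ G)
    (hd' : M.op d ∈ G) (hc1 : c (M.op d) = c (M.nx d)) (hc2 : c d = c (M.nx (M.op d)))
    (h1 : M.op d ≠ M.nx d) (h2 : M.op d ≠ M.nx (M.nx d)) (ρ : Γ →* PSL(2, ℝ)) (π : C → V)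
    {u w v x : V} (hu : u = π (c d)) (hw : w = ρ (L d) • π (c (M.nx d)))
    (hv : v = ρ (L d * L (M.nx d)) • π (c (M.nx (M.nx d))))
    (hx : x = ρ (L (M.nx (M.op d))) • π (c (M.nx (M.nx (M.op d))))) :
    edgeB M' L' ρ (fun y => π (c' y)) d = B v x ∧
    edgeB M' L' ρ (fun y => π (c' y)) (M.op d) = B v x ∧
    ∀ y, (y = d ∨ y = M.nx d ∨ y = M.nx (M.nx d) ∨ y = M.op d ∨ y = M.nx (M.op d) ∨
      y = M.nx (M.nx (M.op d))) → faceDet M' L' ρ (fun y => π (c' y)) y = det3 u x v ∨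
        faceDet M' L' ρ (fun y => π (c' y)) y = det3 w v x := by
  obtain ⟨s1, s2, s3, s4, s5, s6, s7, s8⟩ := six_distinct h1 h2
  obtain ⟨A1, A2, -⟩ := h.other hG hd hd' hc1 hc2 h1 h2 (hG _ hd) s1 s5
  obtain ⟨-, A4, -⟩ := h.other hG hd hd' hc1 hc2 h1 h2 (hG _ (hG _ hd)) s2 s6
  obtain ⟨B1, B2, -⟩ := h.other hG hd hd' hc1 hc2 h1 h2 (hG _ hd') s3 s7
  obtain ⟨-, B4, -⟩ := h.other hG hd hd' hc1 hc2 h1 h2 (hG _ (hG _ hd')) s4 s8
  obtain ⟨e, e', he, -, n1, n2, n3, n4, n5, n6, -, l1, l2, -, c1, c2, -⟩ := h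
  have k := hL.2 d
  have E1 : edgeB M' L' ρ (fun y => π (c' y)) e' = B v x := by
    simp only [edgeB, n4, l1, c2, B4]
    rw [hv, hx, ← B_psmul (ρ (L d * L (M.nx d))), ← mul_smul, ← map_mul, ← mul_assoc, k, one_mul]
  have E2 : edgeB M' L' ρ (fun y => π (c' y)) e = B v x := by
    simp only [edgeB, n1, l2, l1, c1, A4]
    rw [hv, hx, B_comm, ← B_psmul (ρ (L (M.nx (M.op d)))), ← mul_smul, ← map_mul, lab_cyc' hL,
      mul_inv_rev, mul_inv_cancel_left]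
  have F1 : faceDet M' L' ρ (fun y => π (c' y)) (M.nx (M.op d)) = det3 u x v := by
    simp only [faceDet, n3, n1, B1, B2, l2, l1, c1, A4]
    rw [hu, hv, hx, hc2, lab_cyc' hL, mul_inv_rev, mul_inv_cancel_left]
  have F2 : faceDet M' L' ρ (fun y => π (c' y)) (M.nx d) = det3 w v x := by
    simp only [faceDet, n6, n4, A1, A2, l1, c2, B4]
    rw [hw, hv, hx, ← det3_psmul (ρ (L d)), ← mul_smul, ← mul_smul, ← map_mul, ← map_mul,
      ← mul_assoc, ← mul_assoc, k, one_mul]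
  have F3 : faceDet M' L' ρ (fun y => π (c' y)) e = det3 u x v := by
    rw [← n3, faceDet_nx ρ hL', F1]
  have F4 : faceDet M' L' ρ (fun y => π (c' y)) (M.nx (M.nx d)) = det3 u x v := by
    rw [← n1, faceDet_nx ρ hL', F3]
  have F5 : faceDet M' L' ρ (fun y => π (c' y)) e' = det3 w v x := by
    rw [← n6, faceDet_nx ρ hL', F2]
  have F6 : faceDet M' L' ρ (fun y => π (c' y)) (M.nx (M.nx (M.op d))) = det3 w v x := by
    rw [← n4, faceDet_nx ρ hL', F5]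
  rcases he with ⟨rfl, rfl⟩ | ⟨rfl, rfl⟩
  · refine ⟨E2, E1, ?_⟩
    rintro y (rfl | rfl | rfl | rfl | rfl | rfl) <;> simp [*]
  · refine ⟨E1, E2, ?_⟩
    rintro y (rfl | rfl | rfl | rfl | rfl | rfl) <;> simp [*]

/-- the old edges and faces in the frame of `d` -/
lemma frame (hL : M.IsLab L) (hc1 : c (M.op d) = c (M.nx d)) (hc2 : c d = c (M.nx (M.op d)))
    (ρ : Γ →* PSL(2, ℝ)) (π : C → V)
    {u w x : V} (hu : u = π (c d)) (hw : w = ρ (L d) • π (c (M.nx d)))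
    (hx : x = ρ (L (M.nx (M.op d))) • π (c (M.nx (M.nx (M.op d))))) :
    edgeB M L ρ (fun y => π (c y)) (M.op d) = B u w ∧
    edgeB M L ρ (fun y => π (c y)) (M.nx (M.op d)) = B u x ∧
    edgeB M L ρ (fun y => π (c y)) (M.nx (M.nx (M.op d))) = B x w ∧
    faceDet M L ρ (fun y => π (c y)) (M.op d) = det3 w u x := by
  refine ⟨?_, ?_, ?_, ?_⟩
  · simp only [edgeB, hc1, ← hc2]
    rw [hu, hw, hL.1, B_comm, ← B_psmul (ρ (L d)), ← mul_smul, ← map_mul, mul_inv_cancel, map_one,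
      one_smul]
  · simp only [edgeB, ← hc2]; rw [hu, hx]
  · simp only [edgeB, M.nx3, hc1]
    rw [hx, hw, ← B_psmul (ρ (L (M.nx (M.op d)))), ← mul_smul, ← map_mul, lab_cyc hL, hL.1, inv_inv]
  · simp only [faceDet, hc1, ← hc2]
    rw [hu, hw, hx, hL.1, ← det3_psmul (ρ (L d)), ← mul_smul, ← mul_smul, ← map_mul, ← map_mul,
      mul_inv_cancel, map_one, one_smul, mul_inv_cancel_left]

lemma frame0 (hL : M.IsLab L) (ρ : Γ →* PSL(2, ℝ)) (pos : D → V) (d : D)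
    {u w v : V} (hu : u = pos d) (hw : w = ρ (L d) • pos (M.nx d))
    (hv : v = ρ (L d * L (M.nx d)) • pos (M.nx (M.nx d))) :
    edgeB M L ρ pos d = B u w ∧ edgeB M L ρ pos (M.nx d) = B v w ∧
    edgeB M L ρ pos (M.nx (M.nx d)) = B u v ∧ faceDet M L ρ pos d = det3 u w v := by
  refine ⟨by rw [hu, hw]; rfl, ?_, ?_, by rw [hu, hw, hv]; rfl⟩
  · rw [hv, hw, edgeB, map_mul, mul_smul, B_psmul, B_comm]
  · rw [hu, hv, edgeB, M.nx3, lab_cyc' hL, map_inv, ← B_psmul (ρ (L (M.nx (M.nx d)))) (pos d),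
      smul_inv_smul, B_comm]

/-- a positive face is not folded along a compatible edge -/
lemma not_folded (hL : M.IsLab L) (hc1 : c (M.op d) = c (M.nx d)) (hc2 : c d = c (M.nx (M.op d)))
    (ρ : Γ →* PSL(2, ℝ)) (π : C → V) (hpos : faceDet M L ρ (fun y => π (c y)) d ≠ 0) :
    M.op d ≠ M.nx d ∧ M.op d ≠ M.nx (M.nx d) := by
  constructor
  · intro h
    apply hpos
    have : L (M.nx d) = (L d)⁻¹ := by rw [← h, hL.1]
    simp only [faceDet, this, mul_inv_cancel, map_one, one_smul]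
    rw [← h, ← hc2, det3_self13]
  · intro h
    apply hpos
    have : L d * L (M.nx d) = L d := by rw [lab_cyc' hL, ← h, hL.1, inv_inv]
    simp only [faceDet, this]
    rw [← h, hc1, det3_self23]

end flipdata

lemma faceDet_sq {M : DartMap D} {L : D → Γ} (hL : M.IsLab L) (ρ : Γ →* PSL(2, ℝ)) {pos : D → V}
    (hp : ∀ d, Hyp (pos d)) (d : D) : faceDet M L ρ pos d ^ 2 =
      1 + 2 * edgeB M L ρ pos d * edgeB M L ρ pos (M.nx d) * edgeB M L ρ pos (M.nx (M.nx d))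
        - edgeB M L ρ pos d ^ 2 - edgeB M L ρ pos (M.nx d) ^ 2
        - edgeB M L ρ pos (M.nx (M.nx d)) ^ 2 := by
  obtain ⟨a, b, e, f⟩ := frame0 hL ρ pos d rfl rfl rfl
  rw [a, b, e, f, det3_sq, (hp _).2, ((hp _).psmul _).2, ((hp _).psmul _).2,
    B_comm (ρ (L d) • _), B_comm (ρ (L d * _) • _) (pos d)]
  ring

lemma Motion.edge_le {π : ℝ → C → V} {Λ : ℝ}
    (hH : ∀ t ∈ Set.Icc (0 : ℝ) 1, ∀ c, Hyp (π t c))
    (hΛ : ∀ s ∈ Set.Icc (0 : ℝ) 1, ∀ t ∈ Set.Icc (0 : ℝ) 1, ∀ c w, Cone w →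
      B (π t c) w ≤ Real.exp (Λ * |t - s|) * B (π s c) w)
    {s t : ℝ} (hs : s ∈ Set.Icc (0 : ℝ) 1) (ht : t ∈ Set.Icc (0 : ℝ) 1) (g : PSL(2, ℝ)) (a b : C) :
    B (π t a) (g • π t b) ≤ Real.exp (2 * Λ * |t - s|) * B (π s a) (g • π s b) := by
  have h1 := hΛ s hs t ht a _ ((hH t ht b).cone.psmul g)
  have h2 := hΛ s hs t ht b _ ((hH s hs a).cone.psmul g⁻¹)
  rw [← B_psmul g, smul_inv_smul, B_comm, ← B_psmul g (π s b), smul_inv_smul,
    B_comm (g • π s b)] at h2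
  calc _ ≤ _ := h1
    _ ≤ Real.exp (Λ * |t - s|) * (Real.exp (Λ * |t - s|) * B (π s a) (g • π s b)) :=
      mul_le_mul_of_nonneg_left h2 (Real.exp_pos _).le
    _ = _ := by rw [← mul_assoc, ← Real.exp_add]; congr 2; ring

lemma dartMap_ext {M M' : DartMap D} (h1 : M.nx = M'.nx) (h2 : M.op = M'.op) : M = M' := by
  cases M; cases M'; simp only at h1 h2; subst h1; subst h2; rfl

instance [Finite D] : Finite (DartMap D) :=
  Finite.of_injective (fun M : DartMap D => (M.nx, M.op)) fun _ _ h =>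
    dartMap_ext (congrArg Prod.fst h) (congrArg Prod.snd h)

lemma ultra_const {ι α : Type*} [Finite α] (U : Ultrafilter ι) (f : ι → α) :
    ∃ a, ∀ᶠ n in (U : Filter ι), f n = a :=
  Ultrafilter.eventually_exists_iff.1 (Eventually.of_forall fun n => ⟨f n, rfl⟩)

lemma exists_tendsto_real {ι : Type*} (U : Ultrafilter ι) {f : ι → ℝ} {a b : ℝ}
    (h : ∀ᶠ n in (U : Filter ι), f n ∈ Set.Icc a b) : ∃ y ∈ Set.Icc a b, Tendsto f U (𝓝 y) :=
  isCompact_Icc.ultrafilter_le_nhds (U.map f)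
    (by rw [le_principal_iff, Ultrafilter.coe_map, mem_map]; exact h)

lemma sum_le_of_two {s : Finset D} {f g : D → ℝ} {d d' : D} {ε : ℝ} (hd : d ∈ s) (hd' : d' ∈ s)
    (hne : d' ≠ d) (h : ∀ x ∈ s, x ≠ d → x ≠ d' → g x ≤ f x) (h2 : g d + g d' ≤ f d + f d' - ε) :
    ∑ x ∈ s, g x ≤ ∑ x ∈ s, f x - ε := by
  classical
  have m : d' ∈ s.erase d := Finset.mem_erase.2 ⟨hne, hd'⟩
  rw [← Finset.add_sum_erase s g hd, ← Finset.add_sum_erase s f hd, ← Finset.add_sum_erase _ g m,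
    ← Finset.add_sum_erase _ f m]
  have : ∑ x ∈ (s.erase d).erase d', g x ≤ ∑ x ∈ (s.erase d).erase d', f x :=
    Finset.sum_le_sum fun x hx => by
      simp only [Finset.mem_erase] at hx
      exact h x hx.2.2 hx.2.1 hx.1
  linarith

/-! ### the ultrafilter argument -/

/-- the standing hypotheses of the sweep -/
structure SweepHyp (ρ : Γ →* PSL(2, ℝ)) (G K : Set D)
    (Inv : DartMap D → (D → Γ) → (D → C) → Prop) : Prop where
  hlab : ∀ M L c, Inv M L c → M.IsLab L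
  hG : ∀ M L c, Inv M L c → ∀ d ∈ G, M.nx d ∈ G
  hfree : ∀ M L c, Inv M L c → ∀ d ∈ G, d ∉ K → M.op d ∈ G ∧ M.op d ∉ K ∧ c (M.op d) = c (M.nx d)
  hflip : ∀ M L c, Inv M L c → ∀ d ∈ G, d ∉ K → M.op d ≠ M.nx d → M.op d ≠ M.nx (M.nx d) →
    ∃ M' L' c', Inv M' L' c' ∧ IsFlip G M L c d M' L' c'

section main
variable (ρ : Γ →* PSL(2, ℝ)) (G K : Set D) (Inv : DartMap D → (D → Γ) → (D → C) → Prop)
  (M₀ : DartMap D) (L₀ : D → Γ) (c₀ : D → C)

/-- a positive state at positions `p` with unchanged walls -/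
def St (p : C → V) (M : DartMap D) (L : D → Γ) (c : D → C) : Prop :=
  Inv M L c ∧ (∀ d ∈ G, 0 < faceDet M L ρ (fun x => p (c x)) d) ∧
    ∀ d ∈ G, d ∈ K → L d = L₀ d ∧ c d = c₀ d ∧ c (M.nx d) = c₀ (M₀.nx d)

/-- a family of positive states with limits `b` (edges) and `δ` (determinants) -/
def Fam (U : Ultrafilter ℕ) (p : ℕ → C → V) (X : ℝ) (M : DartMap D) (c : D → C) (L : ℕ → D → Γ)
    (b δ : D → ℝ) : Prop :=
  (∀ᶠ n in (U : Filter ℕ), St ρ G K Inv M₀ L₀ c₀ (p n) M (L n) c) ∧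
  ∀ d ∈ G, Tendsto (fun n => edgeB M (L n) ρ (fun x => p n (c x)) d) U (𝓝 (b d)) ∧
    Tendsto (fun n => faceDet M (L n) ρ (fun x => p n (c x)) d) U (𝓝 (δ d)) ∧ b d ≤ X

open Classical in
/-- the potential -/
def Pot [Fintype D] (X ε : ℝ) (b δ : D → ℝ) : ℝ :=
  ∑ x ∈ Finset.univ.filter (· ∈ G), (b x + if δ x = 0 then 2 * X + ε else 0)

variable {ρ G K Inv M₀ L₀ c₀}

lemma fam_step [Fintype D] [Finite C] (H : SweepHyp ρ G K Inv) {U : Ultrafilter ℕ}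
    {p : ℕ → C → V} {p₀ : C → V} {X η ε : ℝ} (hp : ∀ n c, Hyp (p n c)) (hp₀ : ∀ c, Hyp (p₀ c))
    (hlim : ∀ c, Tendsto (fun n => p n c) U (𝓝 (p₀ c))) (hη : 0 < η) (hε : 0 < ε) (hεη : ε ≤ η)
    (hw : ∀ d ∈ G, d ∈ K → 1 + ε ≤ B (p₀ (c₀ d)) (ρ (L₀ d) • p₀ (c₀ (M₀.nx d))))
    (NE : ∀ n M L c, St ρ G K Inv M₀ L₀ c₀ (p n) M L c →
      (∀ d ∈ G, edgeB M L ρ (fun x => p n (c x)) d ≤ X + 1) →
      (∀ d ∈ G, d ∉ K → 1 + η ≤ edgeB M L ρ (fun x => p n (c x)) d) ∧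
        ∀ d ∈ G, d ∈ K → ¬ ApexNear M L ρ (fun x => p n (c x)) η d)
    {M : DartMap D} {c : D → C} {L : ℕ → D → Γ} {b δ : D → ℝ}
    (F : Fam ρ G K Inv M₀ L₀ c₀ U p X M c L b δ) (hflat : ∃ d ∈ G, δ d = 0) :
    ∃ M' c' L' b' δ', Fam ρ G K Inv M₀ L₀ c₀ U p X M' c' L' b' δ' ∧
      Pot G X ε b' δ' ≤ Pot G X ε b δ - ε := by
  classical
  obtain ⟨Fs, Fl⟩ := F
  obtain ⟨n₀, hn₀⟩ := Fs.exists
  have hGM := H.hG _ _ _ hn₀.1
  have hfr := H.hfree _ _ _ hn₀.1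
  have hbd : ∀ᶠ n in (U : Filter ℕ), ∀ d, d ∈ G → edgeB M (L n) ρ (fun x => p n (c x)) d ≤ X + 1 := by
    rw [eventually_all]
    intro d
    by_cases hd : d ∈ G
    · filter_upwards [(Fl d hd).1.eventually (gt_mem_nhds (show b d < X + 1 by
        linarith [(Fl d hd).2.2]))] with n hn _ using hn.le
    · exact Eventually.of_forall fun n h => absurd h hd
  have hNE : ∀ᶠ n in (U : Filter ℕ),
      (∀ d ∈ G, d ∉ K → 1 + η ≤ edgeB M (L n) ρ (fun x => p n (c x)) d) ∧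
        ∀ d ∈ G, d ∈ K → ¬ ApexNear M (L n) ρ (fun x => p n (c x)) η d := by
    filter_upwards [Fs, hbd] with n h1 h2 using NE n M (L n) c h1 h2
  have hlow : ∀ d ∈ G, 1 + ε ≤ b d := by
    intro d hd
    by_cases hk : d ∈ K
    · have h1 : Tendsto (fun n => B (p n (c₀ d)) (ρ (L₀ d) • p n (c₀ (M₀.nx d)))) U
          (𝓝 (B (p₀ (c₀ d)) (ρ (L₀ d) • p₀ (c₀ (M₀.nx d))))) :=
        (hlim _).B ((hlim _).const_smul _)
      have h2 : (fun n => B (p n (c₀ d)) (ρ (L₀ d) • p n (c₀ (M₀.nx d)))) =ᶠ[U]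
          fun n => edgeB M (L n) ρ (fun x => p n (c x)) d := by
        filter_upwards [Fs] with n hn
        obtain ⟨a1, a2, a3⟩ := hn.2.2 d hd hk
        simp only [edgeB, a1, a2, a3]
      rw [tendsto_nhds_unique (Fl d hd).1 (h1.congr' h2)]
      exact hw d hd hk
    · have : 1 + η ≤ b d := ge_of_tendsto (Fl d hd).1 (hNE.mono fun n hn => hn.1 d hd hk)
      linarith
  have hδ0 : ∀ d ∈ G, 0 ≤ δ d := fun d hd =>
    ge_of_tendsto (Fl d hd).2.1 (Fs.mono fun n hn => (hn.2.1 d hd).le)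
  have hδnx : ∀ d ∈ G, δ (M.nx d) = δ d := fun d hd =>
    tendsto_nhds_unique (Fl _ (hGM d hd)).2.1 ((Fl d hd).2.1.congr'
      (Fs.mono fun n hn => (faceDet_nx ρ (H.hlab _ _ _ hn.1) _ d).symm))
  -- the longest flat edge
  obtain ⟨d, hdS, hmax⟩ := Finset.exists_max_image
    (Finset.univ.filter fun x => x ∈ G ∧ δ x = 0) b (by
      obtain ⟨d, h1, h2⟩ := hflat; exact ⟨d, by simp [h1, h2]⟩)
  simp only [Finset.mem_filter, Finset.mem_univ, true_and] at hdS hmax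
  obtain ⟨hd, hdδ⟩ := hdS
  have ha1 := hGM d hd
  have ha2 := hGM _ ha1
  have hX : 1 + ε ≤ X := (hlow d hd).trans (Fl d hd).2.2
  -- frames
  set u : ℕ → V := fun n => p n (c d) with hu
  set w : ℕ → V := fun n => ρ (L n d) • p n (c (M.nx d)) with hwdef
  set v : ℕ → V := fun n => ρ (L n d * L n (M.nx d)) • p n (c (M.nx (M.nx d))) with hv
  have fr0 : ∀ᶠ n in (U : Filter ℕ), edgeB M (L n) ρ (fun x => p n (c x)) d = B (u n) (w n) ∧
      edgeB M (L n) ρ (fun x => p n (c x)) (M.nx d) = B (v n) (w n) ∧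
      edgeB M (L n) ρ (fun x => p n (c x)) (M.nx (M.nx d)) = B (u n) (v n) ∧
      faceDet M (L n) ρ (fun x => p n (c x)) d = det3 (u n) (w n) (v n) :=
    Fs.mono fun n hn => frame0 (H.hlab _ _ _ hn.1) ρ _ d rfl rfl rfl
  have Hu : ∀ n, Hyp (u n) := fun n => hp _ _
  have Hw : ∀ n, Hyp (w n) := fun n => (hp _ _).psmul _
  have Hv : ∀ n, Hyp (v n) := fun n => (hp _ _).psmul _
  have tu : Tendsto u U (𝓝 (p₀ (c d))) := hlim _
  set u₀ := p₀ (c d)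
  have Hu₀ : Hyp u₀ := hp₀ _
  obtain ⟨w₀, Hw₀, tw⟩ := exists_tendsto_hyp U (u := u) (w := w) (X + 1) Hu₀ tu (by
    filter_upwards [fr0, hbd] with n h1 h2 using ⟨Hu n, Hw n, h1.1 ▸ h2 d hd⟩)
  obtain ⟨v₀, Hv₀, tv⟩ := exists_tendsto_hyp U (u := u) (w := v) (X + 1) Hu₀ tu (by
    filter_upwards [fr0, hbd] with n h1 h2 using ⟨Hu n, Hv n, h1.2.2.1 ▸ h2 _ ha2⟩)
  have e0 : b d = B u₀ w₀ :=
    tendsto_nhds_unique (Fl d hd).1 ((tu.B tw).congr' (fr0.mono fun n hn => hn.1.symm))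
  have e1 : b (M.nx d) = B v₀ w₀ :=
    tendsto_nhds_unique (Fl _ ha1).1 ((tv.B tw).congr' (fr0.mono fun n hn => hn.2.1.symm))
  have e2 : b (M.nx (M.nx d)) = B u₀ v₀ :=
    tendsto_nhds_unique (Fl _ ha2).1 ((tu.B tv).congr' (fr0.mono fun n hn => hn.2.2.1.symm))
  have e3 : δ d = det3 u₀ w₀ v₀ :=
    tendsto_nhds_unique (Fl d hd).2.1 ((tu.det3 tw tv).congr' (fr0.mono fun n hn => hn.2.2.2.symm))
  have dl1 : δ (M.nx d) = 0 := by rw [hδnx d hd, hdδ]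
  have dl2 : δ (M.nx (M.nx d)) = 0 := by rw [hδnx _ ha1, dl1]
  have l1 := hlow _ ha1
  have l2 := hlow _ ha2
  have m1 := hmax _ ⟨ha1, dl1⟩
  have m2 := hmax _ ⟨ha2, dl2⟩
  rw [e1] at l1; rw [e2] at l2; rw [e0, e1] at m1; rw [e0, e2] at m2
  obtain ⟨cα, cβ, α, β, hα, hβ, hmid⟩ := flat_middle Hu₀ Hw₀ (e3 ▸ hdδ) (by linarith) (by linarith)
    m2 m1
  by_cases hk : d ∈ K
  · -- the apex is close to the wall
    exfalso
    have t1 : Tendsto (fun n => α • u n + β • w n) U (𝓝 v₀) :=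
      hmid ▸ (tu.const_smul α).add (tw.const_smul β)
    have t2 : Tendsto (fun n => (nrm (α • u n + β • w n))⁻¹) U (𝓝 1) := by
      have := ((continuous_nrm continuous_id).tendsto v₀).comp t1
      simp only [Function.comp_def, id, Hv₀.nrm] at this
      simpa using this.inv₀ one_ne_zero
    have t3 := ((t2.smul t1).B tv)
    rw [one_smul, Hv₀.2] at t3
    obtain ⟨n, h1, h2⟩ := ((t3.eventually (gt_mem_nhds (show (1 : ℝ) < 1 + η by linarith))).and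
      hNE).exists
    have hT : Tim (α • u n + β • w n) :=
      ((Hu n).tim.pos_smul hα).add_cone ((Hw n).cone.pos_smul hβ)
    have hn := hT.nrm_pos
    refine h2.2 d hd hk ⟨(nrm (α • u n + β • w n))⁻¹ * α, (nrm (α • u n + β • w n))⁻¹ * β,
      by positivity, by positivity, ?_, ?_⟩
    · have := hT.normalize
      rwa [smul_add, smul_smul, smul_smul] at this
    · rwa [smul_add, smul_smul, smul_smul] at h1
  obtain ⟨hd', hk', hc1⟩ := hfr d hd hk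
  have hc2 : c d = c (M.nx (M.op d)) := by
    have := (hfr _ hd' hk').2.2
    rwa [M.op2] at this
  obtain ⟨nf1, nf2⟩ := not_folded (H.hlab _ _ _ hn₀.1) hc1 hc2 ρ (p n₀) (hn₀.2.1 d hd).ne'
  have hb1 := hGM _ hd'
  have hb2 := hGM _ hb1
  set x : ℕ → V := fun n => ρ (L n (M.nx (M.op d))) • p n (c (M.nx (M.nx (M.op d)))) with hx
  have Hx : ∀ n, Hyp (x n) := fun n => (hp _ _).psmul _
  have fr1 : ∀ᶠ n in (U : Filter ℕ),
      edgeB M (L n) ρ (fun y => p n (c y)) (M.op d) = B (u n) (w n) ∧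
      edgeB M (L n) ρ (fun y => p n (c y)) (M.nx (M.op d)) = B (u n) (x n) ∧
      edgeB M (L n) ρ (fun y => p n (c y)) (M.nx (M.nx (M.op d))) = B (x n) (w n) ∧
      faceDet M (L n) ρ (fun y => p n (c y)) (M.op d) = det3 (w n) (u n) (x n) :=
    Fs.mono fun n hn => frame (H.hlab _ _ _ hn.1) hc1 hc2 ρ _ rfl rfl rfl
  obtain ⟨x₀, Hx₀, tx⟩ := exists_tendsto_hyp U (u := u) (w := x) (X + 1) Hu₀ tu (by
    filter_upwards [fr1, hbd] with n h1 h2 using ⟨Hu n, Hx n, h1.2.1 ▸ h2 _ hb1⟩)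
  have f0 : b (M.op d) = B u₀ w₀ :=
    tendsto_nhds_unique (Fl _ hd').1 ((tu.B tw).congr' (fr1.mono fun n hn => hn.1.symm))
  have f1 : b (M.nx (M.op d)) = B u₀ x₀ :=
    tendsto_nhds_unique (Fl _ hb1).1 ((tu.B tx).congr' (fr1.mono fun n hn => hn.2.1.symm))
  have f2 : b (M.nx (M.nx (M.op d))) = B x₀ w₀ :=
    tendsto_nhds_unique (Fl _ hb2).1 ((tx.B tw).congr' (fr1.mono fun n hn => hn.2.2.1.symm))
  have f3 : δ (M.op d) = det3 w₀ u₀ x₀ :=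
    tendsto_nhds_unique (Fl _ hd').2.1 ((tw.det3 tu tx).congr'
      (fr1.mono fun n hn => hn.2.2.2.symm))
  have g1 := hlow _ hb1
  have g2 := hlow _ hb2
  have g3 := (Fl _ hb1).2.2
  have g4 := (Fl _ hb2).2.2
  rw [f1] at g1 g3; rw [f2] at g2 g4
  have hnew : B v₀ x₀ ≤ X := by
    rw [hmid]
    exact B_comb_le Hu₀ Hw₀ hα.le hβ.le (hmid ▸ Hv₀) (by linarith) g3 (by rwa [B_comm])
  have hb : 0 < B u₀ w₀ ^ 2 - 1 := by nlinarith
  -- the two cases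
  have key : (∀ᶠ n in (U : Filter ℕ), 0 < det3 (u n) (x n) (v n) ∧ 0 < det3 (w n) (v n) (x n)) ∧
      ((δ (M.op d) = 0 ∧ B v₀ x₀ ≤ B u₀ w₀ - ε) ∨
        (det3 u₀ x₀ v₀ ≠ 0 ∧ det3 w₀ v₀ x₀ ≠ 0)) := by
    rcases (hδ0 _ hd').lt_or_eq with hpos | hz
    · rw [f3] at hpos
      have p1 : 0 < det3 u₀ x₀ v₀ := by
        have := flip_det1 u₀ v₀ w₀ x₀
        rw [← e3, hdδ, Hu₀.2, Hw₀.2, mul_zero, zero_add, one_mul, one_mul] at this
        exact pos_of_mul_pos_right (this ▸ mul_pos cβ hpos) hb.le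
      have p2 : 0 < det3 w₀ v₀ x₀ := by
        have := flip_det2 u₀ v₀ w₀ x₀
        rw [← e3, hdδ, Hu₀.2, Hw₀.2, mul_zero, zero_add, one_mul, one_mul] at this
        exact pos_of_mul_pos_right (this ▸ mul_pos cα hpos) hb.le
      exact ⟨((tu.det3 tx tv).eventually (lt_mem_nhds p1)).and
        ((tw.det3 tv tx).eventually (lt_mem_nhds p2)), Or.inr ⟨p1.ne', p2.ne'⟩⟩
    · have k1 : δ (M.nx (M.op d)) = 0 := by rw [hδnx _ hd', hz]
      have k2 : δ (M.nx (M.nx (M.op d))) = 0 := by rw [hδnx _ hb1, k1]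
      have m3 := hmax _ ⟨hb1, k1⟩
      have m4 := hmax _ ⟨hb2, k2⟩
      rw [e0, f1] at m3; rw [e0, f2] at m4
      obtain ⟨dα, dβ, α', β', hα', hβ', hmid'⟩ := flat_middle (v := x₀) Hu₀ Hw₀
        (by rw [det3_swap12, ← f3, ← hz, neg_zero]) (by linarith) (by linarith) m3 m4
      refine ⟨?_, Or.inl ⟨hz.symm, ?_⟩⟩
      · have q0 := (((tu.B tw).pow 2).sub_const 1).eventually (lt_mem_nhds hb)
        have q1 := (((tv.B tw).mul (tu.B tw)).sub (tu.B tv)).eventually (lt_mem_nhds cα)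
        have q2 := (((tu.B tv).mul (tu.B tw)).sub (tv.B tw)).eventually (lt_mem_nhds cβ)
        have q3 := (((tx.B tw).mul (tu.B tw)).sub (tu.B tx)).eventually (lt_mem_nhds dα)
        have q4 := (((tu.B tx).mul (tu.B tw)).sub (tx.B tw)).eventually (lt_mem_nhds dβ)
        filter_upwards [q0, q1, q2, q3, q4, Fs, fr0, fr1] with n q0 q1 q2 q3 q4 hs r0 r1
        have D1 := hs.2.1 d hd
        have D2 := hs.2.1 _ hd'
        rw [r0.2.2.2] at D1; rw [r1.2.2.2] at D2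
        have i1 := flip_det1 (u n) (v n) (w n) (x n)
        have i2 := flip_det2 (u n) (v n) (w n) (x n)
        rw [(Hu n).2, (Hw n).2, one_mul, one_mul, one_mul] at i1 i2
        exact ⟨pos_of_mul_pos_right (i1 ▸ add_pos (mul_pos q4 D1) (mul_pos q2 D2)) q0.le,
          pos_of_mul_pos_right (i2 ▸ add_pos (mul_pos q3 D1) (mul_pos q1 D2)) q0.le⟩
      · have r1 := B_mul_le_of_middle Hu₀ Hw₀ hα.le hβ.le (hmid ▸ Hv₀)
        rw [← hmid] at r1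
        have r2 : B x₀ v₀ ≤ B u₀ w₀ / (1 + ε) := by
          rw [hmid']
          refine B_comb_le Hu₀ Hw₀ hα'.le hβ'.le (hmid' ▸ Hx₀) (by
            have := Hu₀.one_le_B Hw₀; positivity) ?_ ?_
          · rw [le_div_iff₀ (by linarith)]; nlinarith
          · rw [le_div_iff₀ (by linarith), B_comm w₀]; nlinarith
        rw [le_div_iff₀ (by linarith), B_comm] at r2
        have := Hv₀.one_le_B Hx₀
        nlinarith
  obtain ⟨kpos, kcase⟩ := key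
  -- perform the flips
  have hfl : ∀ n, ∃ M' L' c', St ρ G K Inv M₀ L₀ c₀ (p n) M (L n) c →
      Inv M' L' c' ∧ IsFlip G M (L n) c d M' L' c' := by
    intro n
    by_cases h : St ρ G K Inv M₀ L₀ c₀ (p n) M (L n) c
    · obtain ⟨M', L', c', h'⟩ := H.hflip _ _ _ h.1 d hd hk nf1 nf2
      exact ⟨M', L', c', fun _ => h'⟩
    · exact ⟨M, L n, c, fun h' => absurd h' h⟩
  choose Mf L' cf hf using hfl
  obtain ⟨⟨M', c'⟩, hconst⟩ := ultra_const U fun n => (Mf n, cf n)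
  have hF : ∀ᶠ n in (U : Filter ℕ), Inv M' (L' n) c' ∧ IsFlip G M (L n) c d M' (L' n) c' := by
    filter_upwards [Fs, hconst] with n h1 h2
    obtain ⟨rfl, rfl⟩ := Prod.mk.inj h2
    exact hf n h1
  have six : ∀ᶠ n in (U : Filter ℕ),
      edgeB M' (L' n) ρ (fun y => p n (c' y)) d = B (v n) (x n) ∧
      edgeB M' (L' n) ρ (fun y => p n (c' y)) (M.op d) = B (v n) (x n) ∧
      ∀ y, (y = d ∨ y = M.nx d ∨ y = M.nx (M.nx d) ∨ y = M.op d ∨ y = M.nx (M.op d) ∨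
        y = M.nx (M.nx (M.op d))) →
        faceDet M' (L' n) ρ (fun y => p n (c' y)) y = det3 (u n) (x n) (v n) ∨
        faceDet M' (L' n) ρ (fun y => p n (c' y)) y = det3 (w n) (v n) (x n) := by
    filter_upwards [Fs, hF] with n h1 h2
    exact h2.2.six (H.hlab _ _ _ h1.1) (H.hlab _ _ _ h2.1) hGM hd hd' hc1 hc2 nf1 nf2 ρ (p n)
      rfl rfl rfl rfl
  have hdet : ∀ y, ∃ z : ℝ, y ∈ G →
      Tendsto (fun n => faceDet M' (L' n) ρ (fun y => p n (c' y)) y) U (𝓝 z) ∧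
      ((y = d ∨ y = M.nx d ∨ y = M.nx (M.nx d) ∨ y = M.op d ∨ y = M.nx (M.op d) ∨
        y = M.nx (M.nx (M.op d))) → z = det3 u₀ x₀ v₀ ∨ z = det3 w₀ v₀ x₀) ∧
      (¬ (y = d ∨ y = M.nx d ∨ y = M.nx (M.nx d) ∨ y = M.op d ∨ y = M.nx (M.op d) ∨
        y = M.nx (M.nx (M.op d))) → z = δ y) := by
    intro y
    by_cases hy : y = d ∨ y = M.nx d ∨ y = M.nx (M.nx d) ∨ y = M.op d ∨ y = M.nx (M.op d) ∨
        y = M.nx (M.nx (M.op d))
    · rcases Ultrafilter.eventually_or.1 (six.mono fun n hn => hn.2.2 y hy) with h | h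
      · exact ⟨_, fun _ => ⟨(tu.det3 tx tv).congr' (h.mono fun n hn => hn.symm),
          fun _ => Or.inl rfl, fun h' => absurd hy h'⟩⟩
      · exact ⟨_, fun _ => ⟨(tw.det3 tv tx).congr' (h.mono fun n hn => hn.symm),
          fun _ => Or.inr rfl, fun h' => absurd hy h'⟩⟩
    · refine ⟨δ y, fun hyG => ⟨(Fl y hyG).2.1.congr' ?_, fun h => absurd h hy, fun _ => rfl⟩⟩
      push Not at hy
      obtain ⟨y0, y1, y2, y3, y4, y5⟩ := hy
      exact hF.mono fun n hn =>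
        (hn.2.det_other hGM hd hd' hc1 hc2 nf1 nf2 ρ (p n) hyG y0 y1 y2 y3 y4 y5).symm
  choose δ' hδ' using hdet
  refine ⟨M', c', L', fun y => if y = d ∨ y = M.op d then B v₀ x₀ else b y, δ', ⟨?_, ?_⟩, ?_⟩
  · filter_upwards [Fs, hF, six, kpos] with n h1 h2 h3 h4
    refine ⟨h2.1, fun y hy => ?_, fun y hy hyK => ?_⟩
    · by_cases hy6 : y = d ∨ y = M.nx d ∨ y = M.nx (M.nx d) ∨ y = M.op d ∨ y = M.nx (M.op d) ∨
        y = M.nx (M.nx (M.op d))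
      · rcases h3.2.2 y hy6 with h | h <;> rw [h]
        exacts [h4.1, h4.2]
      · push Not at hy6
        obtain ⟨y0, y1, y2, y3, y4, y5⟩ := hy6
        rw [h2.2.det_other hGM hd hd' hc1 hc2 nf1 nf2 ρ (p n) hy y0 y1 y2 y3 y4 y5]
        exact h1.2.1 y hy
    · obtain ⟨a1, a2, a3⟩ := h2.2.other hGM hd hd' hc1 hc2 nf1 nf2 hy
        (fun h => hk (h ▸ hyK)) (fun h => hk' (h ▸ hyK))
      rw [a1, a2, a3]
      exact h1.2.2 y hy hyK
  · intro y hy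
    refine ⟨?_, (hδ' y hy).1, ?_⟩
    · by_cases h : y = d ∨ y = M.op d
      · simp only [h, if_true]
        refine (tv.B tx).congr' (six.mono fun n hn => ?_)
        rcases h with rfl | rfl
        exacts [hn.1.symm, hn.2.1.symm]
      · simp only [h, if_false]
        push Not at h
        exact (Fl y hy).1.congr' (hF.mono fun n hn =>
          (hn.2.edge_other hGM hd hd' hc1 hc2 nf1 nf2 ρ (p n) hy h.1 h.2).symm)
    · dsimp only
      split_ifs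
      exacts [hnew, (Fl y hy).2.2]
  · unfold Pot
    refine sum_le_of_two (d := d) (d' := M.op d) (by simp [hd]) (by simp [hd']) (M.op_ne d) ?_ ?_
    · intro y hy y0 y3
      simp only [Finset.mem_filter, Finset.mem_univ, true_and] at hy
      simp only [y0, y3, or_self, if_false, add_le_add_iff_left]
      by_cases hy6 : y = d ∨ y = M.nx d ∨ y = M.nx (M.nx d) ∨ y = M.op d ∨ y = M.nx (M.op d) ∨
        y = M.nx (M.nx (M.op d))
      · rcases kcase with ⟨k0, -⟩ | ⟨k1, k2⟩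
        · have : δ y = 0 := by
            rcases hy6 with rfl | rfl | rfl | rfl | rfl | rfl
            exacts [hdδ, dl1, dl2, k0, by rw [hδnx _ hd', k0], by rw [hδnx _ hb1, hδnx _ hd', k0]]
          rw [if_pos this]
          split_ifs <;> linarith
        · have : δ' y ≠ 0 := by rcases (hδ' y hy).2.1 hy6 with h | h <;> rwa [h]
          rw [if_neg this]
          split_ifs <;> linarith
      · rw [(hδ' y hy).2.2 hy6]
    · simp only [true_or, or_true, if_true, hdδ, e0, f0]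
      rcases kcase with ⟨k0, k1⟩ | ⟨k1, k2⟩
      · rw [if_pos k0]
        split_ifs <;> linarith
      · have z1 : δ' d ≠ 0 := by rcases (hδ' d hd).2.1 (Or.inl rfl) with h | h <;> rwa [h]
        have z2 : δ' (M.op d) ≠ 0 := by
          rcases (hδ' _ hd').2.1 (by simp) with h | h <;> rwa [h]
        rw [if_neg z1, if_neg z2]
        have := Hu₀.one_le_B Hw₀
        split_ifs <;> linarith

lemma fam_low (_H : SweepHyp ρ G K Inv) {U : Ultrafilter ℕ} {p : ℕ → C → V} {X : ℝ}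
    (hp : ∀ n c, Hyp (p n c)) {M : DartMap D} {c : D → C} {L : ℕ → D → Γ} {b δ : D → ℝ}
    (F : Fam ρ G K Inv M₀ L₀ c₀ U p X M c L b δ) {d : D} (hd : d ∈ G) : 1 ≤ b d ∧ 0 ≤ δ d :=
  ⟨ge_of_tendsto (F.2 d hd).1 (Eventually.of_forall fun _ => (hp _ _).one_le_B ((hp _ _).psmul _)),
    ge_of_tendsto (F.2 d hd).2.1 (F.1.mono fun _ hn => (hn.2.1 d hd).le)⟩

lemma fam_final [Fintype D] [Finite C] (H : SweepHyp ρ G K Inv) {U : Ultrafilter ℕ}
    {p : ℕ → C → V} {p₀ : C → V} {X η ε : ℝ} (hp : ∀ n c, Hyp (p n c)) (hp₀ : ∀ c, Hyp (p₀ c))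
    (hlim : ∀ c, Tendsto (fun n => p n c) U (𝓝 (p₀ c))) (hη : 0 < η) (hε : 0 < ε) (hεη : ε ≤ η)
    (hX : 0 ≤ X)
    (hw : ∀ d ∈ G, d ∈ K → 1 + ε ≤ B (p₀ (c₀ d)) (ρ (L₀ d) • p₀ (c₀ (M₀.nx d))))
    (NE : ∀ n M L c, St ρ G K Inv M₀ L₀ c₀ (p n) M L c →
      (∀ d ∈ G, edgeB M L ρ (fun x => p n (c x)) d ≤ X + 1) →
      (∀ d ∈ G, d ∉ K → 1 + η ≤ edgeB M L ρ (fun x => p n (c x)) d) ∧
        ∀ d ∈ G, d ∈ K → ¬ ApexNear M L ρ (fun x => p n (c x)) η d)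
    (k : ℕ) : ∀ {M : DartMap D} {c : D → C} {L : ℕ → D → Γ} {b δ : D → ℝ},
    Fam ρ G K Inv M₀ L₀ c₀ U p X M c L b δ → Pot G X ε b δ < k * ε →
    ∃ M' c' L' b' δ', Fam ρ G K Inv M₀ L₀ c₀ U p X M' c' L' b' δ' ∧ ∀ d ∈ G, 0 < δ' d := by
  classical
  induction k with
  | zero =>
    intro M c L b δ F h
    exfalso
    have : 0 ≤ Pot G X ε b δ := Finset.sum_nonneg fun x hx => by
      simp only [Finset.mem_filter, Finset.mem_univ, true_and] at hx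
      have := (fam_low H hp F hx).1
      split_ifs <;> linarith
    simp at h; linarith
  | succ k ih =>
    intro M c L b δ F h
    by_cases hflat : ∃ d ∈ G, δ d = 0
    · obtain ⟨M', c', L', b', δ', F', h'⟩ := fam_step H hp hp₀ hlim hη hε hεη hw NE F hflat
      exact ih F' (by push_cast at h; linarith)
    · push Not at hflat
      exact ⟨M, c, L, b, δ, F, fun d hd => lt_of_le_of_ne (fam_low H hp F hd).2 (hflat d hd).symm⟩

/-- a family with fat limit stays positive for a definite time -/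
lemma fam_stable [Fintype D] (H : SweepHyp ρ G K Inv) {U : Ultrafilter ℕ} {π : ℝ → C → V} {Λ : ℝ}
    (hΛ0 : 0 ≤ Λ) (hH : ∀ t ∈ Set.Icc (0 : ℝ) 1, ∀ c, Hyp (π t c))
    (hc : ∀ c, ContinuousOn (fun t => π t c) (Set.Icc 0 1))
    (hΛ : ∀ s ∈ Set.Icc (0 : ℝ) 1, ∀ t ∈ Set.Icc (0 : ℝ) 1, ∀ c w, Cone w →
      B (π t c) w ≤ Real.exp (Λ * |t - s|) * B (π s c) w)
    {τ : ℕ → ℝ} {t₀ X : ℝ} (hτ : ∀ n, τ n ∈ Set.Icc (0 : ℝ) 1) (hτ0 : ∀ n, τ n ≤ t₀)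
    (hτl : Tendsto τ U (𝓝 t₀)) (hX : 0 ≤ X)
    {M : DartMap D} {c : D → C} {L : ℕ → D → Γ} {b δ : D → ℝ}
    (F : Fam ρ G K Inv M₀ L₀ c₀ U (fun n => π (τ n)) X M c L b δ) (hδ : ∀ d ∈ G, 0 < δ d) :
    ∃ s > 0, ∀ t ∈ Set.Icc (0 : ℝ) 1, t₀ ≤ t → t ≤ t₀ + s →
      ∀ᶠ n in (U : Filter ℕ), St ρ G K Inv M₀ L₀ c₀ (π t) M (L n) c := by
  obtain ⟨n₀, hn₀⟩ := F.1.exists
  have hGM := H.hG _ _ _ hn₀.1
  let gr : ℝ × ℝ × ℝ → ℝ := fun q => 1 + 2 * q.1 * q.2.1 * q.2.2 - q.1 ^ 2 - q.2.1 ^ 2 - q.2.2 ^ 2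
  have hgr : Continuous gr := by fun_prop
  have h1 : ∀ᶠ r in 𝓝[>] (0 : ℝ), ∀ d, d ∈ G → ∀ q : ℝ × ℝ × ℝ,
      dist q (b d, b (M.nx d), b (M.nx (M.nx d))) < r → 0 < gr q := by
    rw [eventually_all]
    intro d
    by_cases hd : d ∈ G
    swap
    · exact Eventually.of_forall fun n h => absurd h hd
    have t1 := (hgr.tendsto _).comp ((F.2 d hd).1.prodMk_nhds
      ((F.2 _ (hGM d hd)).1.prodMk_nhds (F.2 _ (hGM _ (hGM d hd))).1))
    have t2 := (F.2 d hd).2.1.pow 2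
    have e : gr (b d, b (M.nx d), b (M.nx (M.nx d))) = δ d ^ 2 :=
      tendsto_nhds_unique t1 (t2.congr' (F.1.mono fun n hn =>
        faceDet_sq (H.hlab _ _ _ hn.1) ρ (fun _ => hH _ (hτ n) _) d))
    have hpos : 0 < gr (b d, b (M.nx d), b (M.nx (M.nx d))) := by
      rw [e]; exact pow_pos (hδ d hd) 2
    obtain ⟨r, hr, h⟩ := Metric.eventually_nhds_iff.1 ((hgr.tendsto _).eventually (lt_mem_nhds hpos))
    filter_upwards [nhdsWithin_le_nhds (Iio_mem_nhds hr)] with r' hr' _ q hq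
    exact h (hq.trans hr')
  obtain ⟨r, hr, hr0⟩ := (h1.and self_mem_nhdsWithin).exists
  replace hr0 : 0 < r := hr0
  have h2 : ∀ᶠ s in 𝓝[>] (0 : ℝ),
      (Real.exp (4 * Λ * s) - 1) * Real.exp (4 * Λ * s) * (X + r) < r / 2 := by
    have : Continuous fun s : ℝ => (Real.exp (4 * Λ * s) - 1) * Real.exp (4 * Λ * s) * (X + r) := by
      fun_prop
    have := this.tendsto 0
    simp only [mul_zero, Real.exp_zero, sub_self, zero_mul] at this
    exact nhdsWithin_le_nhds (this.eventually (gt_mem_nhds (half_pos hr0)))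
  obtain ⟨s, hs, hs0⟩ := (h2.and self_mem_nhdsWithin).exists
  replace hs0 : 0 < s := hs0
  refine ⟨s, hs0, fun t ht h0 h1 => ?_⟩
  have h3 : ∀ᶠ n in (U : Filter ℕ), ∀ d, d ∈ G →
      dist (edgeB M (L n) ρ (fun x => π (τ n) (c x)) d) (b d) < r / 2 := by
    rw [eventually_all]
    intro d
    by_cases hd : d ∈ G
    · filter_upwards [(Metric.tendsto_nhds.1 (F.2 d hd).1) _ (half_pos hr0)] with n hn _ using hn
    · exact Eventually.of_forall fun n h => absurd h hd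
  filter_upwards [F.1, h3, hτl.eventually (lt_mem_nhds (show t₀ - s < t₀ by linarith))]
    with n hs1 hs2 hs3
  refine ⟨hs1.1, fun d hd => ?_, hs1.2.2⟩
  have hsub : Set.Icc (τ n) t ⊆ Set.Icc 0 1 := Set.Icc_subset_Icc (hτ n).1 ht.2
  set k := Real.exp (4 * Λ * s) with hk
  have k1 : 1 ≤ k := Real.one_le_exp (by positivity)
  have hedge : ∀ t' ∈ Set.Icc (τ n) t, ∀ y ∈ G,
      dist (edgeB M (L n) ρ (fun x => π t' (c x)) y) (b y) < r := by
    intro t' ht' y hy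
    have a1 := Motion.edge_le hH hΛ (hτ n) (hsub ht') (ρ (L n y)) (c y) (c (M.nx y))
    have a2 := Motion.edge_le hH hΛ (hsub ht') (hτ n) (ρ (L n y)) (c y) (c (M.nx y))
    have a3 := hs2 y hy
    have a4 := (F.2 y hy).2.2
    have b1 : |t' - τ n| ≤ 2 * s := abs_le.2 ⟨by linarith [ht'.1], by linarith [ht'.2]⟩
    have b2 : Real.exp (2 * Λ * |t' - τ n|) ≤ k := Real.exp_le_exp.2 (by nlinarith)
    rw [abs_sub_comm] at a2
    have p1 := (hH _ (hτ n) (c y)).one_le_B ((hH _ (hτ n) (c (M.nx y))).psmul (ρ (L n y)))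
    have p2 := (hH _ (hsub ht') (c y)).one_le_B ((hH _ (hsub ht') (c (M.nx y))).psmul (ρ (L n y)))
    simp only [edgeB, Real.dist_eq] at a3 ⊢
    set E := B (π (τ n) (c y)) (ρ (L n y) • π (τ n) (c (M.nx y)))
    set E' := B (π t' (c y)) (ρ (L n y) • π t' (c (M.nx y)))
    have c1 : E' ≤ k * E := a1.trans (mul_le_mul_of_nonneg_right b2 (by linarith))
    have c2 : E ≤ k * E' := a2.trans (mul_le_mul_of_nonneg_right b2 (by linarith))
    rw [abs_lt] at a3 ⊢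
    have c3 : E ≤ X + r := by linarith
    have c4 : (k - 1) * E ≤ (k - 1) * k * (X + r) := by
      rw [mul_assoc]; exact mul_le_mul_of_nonneg_left (by nlinarith) (by linarith)
    have c5 : (k - 1) * E' ≤ (k - 1) * k * (X + r) := by
      rw [mul_assoc]; exact mul_le_mul_of_nonneg_left (by nlinarith) (by linarith)
    constructor <;> nlinarith
  have hne : ∀ t' ∈ Set.Icc (τ n) t, faceDet M (L n) ρ (fun x => π t' (c x)) d ≠ 0 := by
    intro t' ht' h0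
    have e := faceDet_sq (H.hlab _ _ _ hs1.1) ρ (pos := fun x => π t' (c x))
      (fun _ => hH _ (hsub ht') _) d
    have := hr d hd (edgeB M (L n) ρ (fun x => π t' (c x)) d,
      edgeB M (L n) ρ (fun x => π t' (c x)) (M.nx d),
      edgeB M (L n) ρ (fun x => π t' (c x)) (M.nx (M.nx d))) (by
        simp only [Prod.dist_eq, max_lt_iff]
        exact ⟨hedge t' ht' d hd, hedge t' ht' _ (hGM d hd), hedge t' ht' _ (hGM _ (hGM d hd))⟩)
    simp only [gr] at this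
    rw [← e, h0] at this
    simp at this
  have hcont : ContinuousOn (fun t' => faceDet M (L n) ρ (fun x => π t' (c x)) d)
      (Set.Icc (τ n) t) := by
    intro t' ht'
    exact ((hc _).mono hsub t' ht').tendsto.det3 (((hc _).mono hsub t' ht').tendsto.const_smul _)
      (((hc _).mono hsub t' ht').tendsto.const_smul _)
  by_contra hneg
  have hle : τ n ≤ t := (hτ0 n).trans h0
  obtain ⟨t', ht', h0'⟩ := intermediate_value_Icc' hle hcont
    (show (0 : ℝ) ∈ Set.Icc _ _ from ⟨not_lt.1 hneg, (hs1.2.1 d hd).le⟩)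
  exact hne t' ht' h0'

end main

/-- **Sweep lemma.** `G` = good darts (a union of faces that must be positive), `K` = walls; the
free darts are those of `G \ K`. -/
theorem sweep [Fintype D] [Finite C] (ρ : Γ →* PSL(2, ℝ)) (G K : Set D)
    (Inv : DartMap D → (D → Γ) → (D → C) → Prop)
    (hlab : ∀ M L c, Inv M L c → M.IsLab L)
    (hG : ∀ M L c, Inv M L c → ∀ d ∈ G, M.nx d ∈ G)
    (hfree : ∀ M L c, Inv M L c → ∀ d ∈ G, d ∉ K →
      M.op d ∈ G ∧ M.op d ∉ K ∧ c (M.op d) = c (M.nx d))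
    (hflip : ∀ M L c, Inv M L c → ∀ d ∈ G, d ∉ K → M.op d ≠ M.nx d → M.op d ≠ M.nx (M.nx d) →
      ∃ M' L' c', Inv M' L' c' ∧ IsFlip G M L c d M' L' c')
    (π : ℝ → C → V) (hπ : Motion π)
    (M₀ : DartMap D) (L₀ : D → Γ) (c₀ : D → C) (h₀ : Inv M₀ L₀ c₀)
    (hpos : ∀ d ∈ G, 0 < faceDet M₀ L₀ ρ (fun x => π 0 (c₀ x)) d)
    (hwall : ∀ t ∈ Set.Icc (0 : ℝ) 1, ∀ d ∈ G, d ∈ K →
      π t (c₀ d) ≠ ρ (L₀ d) • π t (c₀ (M₀.nx d))) :
    ∃ X : ℝ, ∀ η : ℝ, 0 < η → ∃ M L c, ∃ t ∈ Set.Icc (0 : ℝ) 1, Inv M L c ∧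
      (∀ d ∈ G, 0 < faceDet M L ρ (fun x => π t (c x)) d ∧ edgeB M L ρ (fun x => π t (c x)) d ≤ X) ∧
      (∀ d ∈ G, d ∈ K → L d = L₀ d ∧ c d = c₀ d ∧ c (M.nx d) = c₀ (M₀.nx d)) ∧
      (t = 1 ∨ (∃ d ∈ G, d ∉ K ∧ edgeB M L ρ (fun x => π t (c x)) d < 1 + η) ∨
        ∃ d ∈ G, d ∈ K ∧ ApexNear M L ρ (fun x => π t (c x)) η d) := by
  classical
  have H : SweepHyp ρ G K Inv := ⟨hlab, hG, hfree, hflip⟩
  obtain ⟨hH, hc, Λ', hΛ'⟩ := hπ
  set Λ := |Λ'| with hΛdef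
  have hΛ0 : 0 ≤ Λ := abs_nonneg _
  have hΛ : ∀ s ∈ Set.Icc (0 : ℝ) 1, ∀ t ∈ Set.Icc (0 : ℝ) 1, ∀ c w, Cone w →
      B (π t c) w ≤ Real.exp (Λ * |t - s|) * B (π s c) w := fun s hs t ht c w hw =>
    (hΛ' s hs t ht c w hw).trans (mul_le_mul_of_nonneg_right (Real.exp_le_exp.2
      (mul_le_mul_of_nonneg_right (le_abs_self _) (abs_nonneg _))) ((hH s hs c).cone.B_nonneg hw))
  have z0 : (0 : ℝ) ∈ Set.Icc (0 : ℝ) 1 := ⟨le_rfl, zero_le_one⟩
  obtain ⟨X₁, hX₁⟩ := (Set.finite_range (edgeB M₀ L₀ ρ fun x => π 0 (c₀ x))).bddAbove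
  set X₀ := max X₁ 1 with hX₀
  have X₀1 : 1 ≤ X₀ := le_max_right _ _
  let Xt : ℝ → ℝ := fun t => X₀ * Real.exp ((2 * Λ + 1) * t)
  have Xmono : ∀ s t, s ≤ t → Xt s ≤ Xt t := fun s t h =>
    mul_le_mul_of_nonneg_left (Real.exp_le_exp.2 (by nlinarith)) (by linarith)
  have Xpos : ∀ t, 0 < Xt t := fun t => by positivity
  refine ⟨Xt 1 + 1, fun η hη => ?_⟩
  by_contra hcon
  have NE : ∀ t ∈ Set.Icc (0 : ℝ) 1, ∀ M L c, St ρ G K Inv M₀ L₀ c₀ (π t) M L c →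
      (∀ d ∈ G, edgeB M L ρ (fun x => π t (c x)) d ≤ Xt 1 + 1) →
      t ≠ 1 ∧ (∀ d ∈ G, d ∉ K → 1 + η ≤ edgeB M L ρ (fun x => π t (c x)) d) ∧
        ∀ d ∈ G, d ∈ K → ¬ ApexNear M L ρ (fun x => π t (c x)) η d := by
    intro t ht M L c hs hb
    refine ⟨fun h => ?_, fun d hd hk => not_lt.1 fun h => ?_, fun d hd hk h => ?_⟩ <;>
      refine hcon ⟨M, L, c, t, ht, hs.1, fun d hd => ⟨hs.2.1 d hd, hb d hd⟩, hs.2.2, ?_⟩
    · exact Or.inl h
    · exact Or.inr (Or.inl ⟨d, hd, hk, h⟩)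
    · exact Or.inr (Or.inr ⟨d, hd, hk, h⟩)
  let T : Set ℝ := {t | t ∈ Set.Icc (0 : ℝ) 1 ∧ ∃ M L c, St ρ G K Inv M₀ L₀ c₀ (π t) M L c ∧
    ∀ d ∈ G, edgeB M L ρ (fun x => π t (c x)) d ≤ Xt t}
  have T0 : (0 : ℝ) ∈ T := ⟨z0, M₀, L₀, c₀, ⟨h₀, hpos, fun _ _ _ => ⟨rfl, rfl, rfl⟩⟩, fun d _ => by
    simp only [Xt, mul_zero, Real.exp_zero, mul_one]
    exact (hX₁ (Set.mem_range_self d)).trans (le_max_left _ _)⟩
  have Tb : BddAbove T := ⟨1, fun t ht => ht.1.2⟩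
  obtain ⟨τ, -, hτl, hτT⟩ := exists_seq_tendsto_sSup ⟨0, T0⟩ Tb
  set t₀ := sSup T with ht₀
  have ht₀I : t₀ ∈ Set.Icc (0 : ℝ) 1 := ⟨le_csSup Tb T0, csSup_le ⟨0, T0⟩ fun t ht => ht.1.2⟩
  have hτ : ∀ n, τ n ∈ Set.Icc (0 : ℝ) 1 := fun n => (hτT n).1
  have hτ0 : ∀ n, τ n ≤ t₀ := fun n => le_csSup Tb (hτT n)
  let U : Ultrafilter ℕ := hyperfilter ℕ
  have hτU : Tendsto τ U (𝓝 t₀) := hτl.mono_left Nat.hyperfilter_le_atTop
  have hlim : ∀ c, Tendsto (fun n => π (τ n) c) U (𝓝 (π t₀ c)) := fun c =>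
    (hc c t₀ ht₀I).tendsto.comp (tendsto_nhdsWithin_iff.2 ⟨hτU, Eventually.of_forall hτ⟩)
  choose Mf L cf hSt hbd using fun n => (hτT n).2
  obtain ⟨⟨M, c⟩, hconst⟩ := ultra_const U fun n => (Mf n, cf n)
  have hS : ∀ᶠ n in (U : Filter ℕ), St ρ G K Inv M₀ L₀ c₀ (π (τ n)) M (L n) c ∧
      ∀ d ∈ G, edgeB M (L n) ρ (fun x => π (τ n) (c x)) d ≤ Xt t₀ := by
    filter_upwards [hconst] with n h
    obtain ⟨rfl, rfl⟩ := Prod.mk.inj h
    exact ⟨hSt n, fun d hd => (hbd n d hd).trans (Xmono _ _ (hτ0 n))⟩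
  obtain ⟨n₀, hn₀⟩ := hS.exists
  have hGM := hG _ _ _ hn₀.1.1
  have hb : ∀ d, ∃ y, d ∈ G →
      Tendsto (fun n => edgeB M (L n) ρ (fun x => π (τ n) (c x)) d) U (𝓝 y) ∧ y ≤ Xt t₀ := by
    intro d
    by_cases hd : d ∈ G
    · obtain ⟨y, hy, h⟩ := exists_tendsto_real U (a := 1) (b := Xt t₀)
        (f := fun n => edgeB M (L n) ρ (fun x => π (τ n) (c x)) d) (hS.mono fun n hn =>
          ⟨(hH _ (hτ n) _).one_le_B ((hH _ (hτ n) _).psmul _), hn.2 d hd⟩)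
      exact ⟨y, fun _ => ⟨h, hy.2⟩⟩
    · exact ⟨0, fun h => absurd h hd⟩
  choose b hb using hb
  have hδ : ∀ d, ∃ y, d ∈ G →
      Tendsto (fun n => faceDet M (L n) ρ (fun x => π (τ n) (c x)) d) U (𝓝 y) := by
    intro d
    by_cases hd : d ∈ G
    · refine ⟨√(1 + 2 * b d * b (M.nx d) * b (M.nx (M.nx d)) - b d ^ 2 - b (M.nx d) ^ 2
        - b (M.nx (M.nx d)) ^ 2), fun _ => ?_⟩
      have t1 := (hb d hd).1
      have t2 := (hb _ (hGM d hd)).1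
      have t3 := (hb _ (hGM _ (hGM d hd))).1
      refine (((((((t1.const_mul 2).mul t2).mul t3).const_add 1).sub (t1.pow 2)).sub
        (t2.pow 2)).sub (t3.pow 2)).sqrt.congr' (hS.mono fun n hn => ?_)
      dsimp only
      rw [← faceDet_sq (hlab _ _ _ hn.1.1) ρ (fun _ => hH _ (hτ n) _) d,
        Real.sqrt_sq (hn.1.2.1 d hd).le]
    · exact ⟨0, fun h => absurd h hd⟩
  choose δ hδ using hδ
  have F : Fam ρ G K Inv M₀ L₀ c₀ U (fun n => π (τ n)) (Xt t₀) M c L b δ :=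
    ⟨hS.mono fun n hn => hn.1, fun d hd => ⟨(hb d hd).1, hδ d hd, (hb d hd).2⟩⟩
  have hε : ∀ᶠ ε in 𝓝[>] (0 : ℝ), ∀ d, d ∈ G → d ∈ K →
      1 + ε ≤ B (π t₀ (c₀ d)) (ρ (L₀ d) • π t₀ (c₀ (M₀.nx d))) := by
    rw [eventually_all]
    intro d
    by_cases hd : d ∈ G ∧ d ∈ K
    · have h1 := (hH _ ht₀I (c₀ d)).one_le_B ((hH _ ht₀I (c₀ (M₀.nx d))).psmul (ρ (L₀ d)))
      have h2 : 0 < B (π t₀ (c₀ d)) (ρ (L₀ d) • π t₀ (c₀ (M₀.nx d))) - 1 :=
        sub_pos.2 (lt_of_le_of_ne h1 fun h => hwall _ ht₀I d hd.1 hd.2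
          ((hH _ ht₀I _).eq_of_B_eq_one ((hH _ ht₀I _).psmul _) h.symm))
      filter_upwards [nhdsWithin_le_nhds (Iio_mem_nhds h2)] with ε hε _ _
      have : ε < _ := hε
      linarith
    · exact Eventually.of_forall fun _ h1 h2 => absurd ⟨h1, h2⟩ hd
  obtain ⟨ε, ⟨hε1, hε2⟩, hε0⟩ := ((hε.and (nhdsWithin_le_nhds (Iio_mem_nhds hη))).and
    self_mem_nhdsWithin).exists
  replace hε0 : 0 < ε := hε0
  obtain ⟨k, hk⟩ := exists_nat_gt (Pot G (Xt t₀) ε b δ / ε)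
  obtain ⟨M', c', L', b', δ', F', hδ'⟩ := fam_final H (fun n => hH _ (hτ n)) (hH _ ht₀I) hlim hη
    hε0 (le_of_lt hε2) (Xpos _).le hε1 (fun n M L c hs hb => (NE _ (hτ n) M L c hs fun d hd =>
      (hb d hd).trans (by linarith [Xmono _ _ ht₀I.2])).2) k F ((div_lt_iff₀ hε0).1 hk)
  obtain ⟨s, hs0, hs⟩ := fam_stable H hΛ0 hH hc hΛ hτ hτ0 hτU (Xpos _).le F' hδ'
  -- edges at a later time
  have hedge : ∀ t ∈ Set.Icc (0 : ℝ) 1, t₀ ≤ t → ∀ Y, Real.exp (2 * Λ * (t - t₀)) * Xt t₀ < Y →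
      ∀ᶠ n in (U : Filter ℕ), ∀ d, d ∈ G → edgeB M' (L' n) ρ (fun x => π t (c' x)) d ≤ Y := by
    intro t ht h0 Y hY
    rw [eventually_all]
    intro d
    by_cases hd : d ∈ G
    swap
    · exact Eventually.of_forall fun n h => absurd h hd
    have t1 : Tendsto (fun n => Real.exp (2 * Λ * |t - τ n|)) U (𝓝 (Real.exp (2 * Λ * |t - t₀|))) :=
      (Real.continuous_exp.tendsto _).comp (((hτU.const_sub t).abs).const_mul _)
    have t2 := t1.mul (F'.2 d hd).1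
    rw [abs_of_nonneg (sub_nonneg.2 h0)] at t2
    have : Real.exp (2 * Λ * (t - t₀)) * b' d < Y :=
      lt_of_le_of_lt (mul_le_mul_of_nonneg_left (F'.2 d hd).2.2 (Real.exp_pos _).le) hY
    filter_upwards [t2.eventually (gt_mem_nhds this)] with n hn _
    exact (Motion.edge_le hH hΛ (hτ n) ht _ _ _).trans hn.le
  rcases ht₀I.2.lt_or_eq with h1 | h1
  · set t := min (t₀ + s) 1 with ht
    have ht0 : t₀ < t := lt_min (by linarith) h1
    have htI : t ∈ Set.Icc (0 : ℝ) 1 := ⟨ht₀I.1.trans ht0.le, min_le_right _ _⟩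
    have hY : Real.exp (2 * Λ * (t - t₀)) * Xt t₀ < Xt t := by
      simp only [Xt]
      rw [mul_left_comm, ← Real.exp_add]
      exact mul_lt_mul_of_pos_left (Real.exp_lt_exp.2 (by linarith)) (by linarith)
    obtain ⟨n, a1, a2⟩ := ((hs t htI ht0.le (min_le_left _ _)).and
      (hedge t htI ht0.le _ hY)).exists
    have : t ∈ T := ⟨htI, M', L' n, c', a1, a2⟩
    exact absurd (le_csSup Tb this) (not_le.2 ht0)
  · obtain ⟨n, a1, a2⟩ := ((hs t₀ ht₀I le_rfl (by linarith)).and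
      (hedge t₀ ht₀I le_rfl (Xt 1 + 1) (by simp [h1]))).exists
    exact (NE _ ht₀I _ _ _ a1 a2).1 h1

end A25f44
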