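import Mathlib

/-!
# Minkowski model of the closed hyperbolic plane (helper33, problem MP_a25f44_gt)

`V = ℝ × ℝ × ℝ` is the space of symmetric matrices `[[E,F],[F,G]]`, written `(E,F,G)`.
`SL(2,ℝ)` (and `PSL(2,ℝ)`) act by `S ↦ g S gᵀ`.  `B` is the invariant form of signature `(+,-,-)`,
`det3` the invariant volume form (positive on counter-clockwise triangles of `ℍ`).
`Cone v`: `v` in the closed forward cone minus `0` (a point of `ℍ ∪ ∂ℍ`, up to positive scale);
`Hyp v`: `v` on the hyperboloid (`vec : ℍ → V` is a bijection onto these).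
-/

open scoped MatrixGroups UpperHalfPlane ComplexConjugate

noncomputable section

namespace A25f44

/-- Minkowski space: `(E,F,G)` is the symmetric matrix `[[E,F],[F,G]]`. -/
abbrev V := ℝ × ℝ × ℝ

/-- The Minkowski form; `B u v = cosh d(u,v)` on the hyperboloid. -/
def B (u v : V) : ℝ := (u.1 * v.2.2 + u.2.2 * v.1) / 2 - u.2.1 * v.2.1

/-- Invariant volume form, normalised so that `det3 u v w ^ 2` is the Gram determinant. -/
def det3 (u v w : V) : ℝ :=
  -(u.1 * (v.2.1 * w.2.2 - v.2.2 * w.2.1) - u.2.1 * (v.1 * w.2.2 - v.2.2 * w.1)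
    + u.2.2 * (v.1 * w.2.1 - v.2.1 * w.1)) / 2

/-- Minkowski cross product: `B (cross u v) w = det3 u v w`. -/
def cross (u v : V) : V :=
  (u.2.1 * v.1 - u.1 * v.2.1, (u.2.2 * v.1 - u.1 * v.2.2) / 2, u.2.2 * v.2.1 - u.2.1 * v.2.2)

/-- Minkowski norm (meaningful on the cone). -/
def nrm (v : V) : ℝ := √(B v v)

/-- The base point `i ∈ ℍ`. -/
def oV : V := (1, 0, 1)

/-- closed forward cone without `0`: points of `ℍ ∪ ∂ℍ` up to positive scaling -/
def Cone (v : V) : Prop := 0 < v.1 + v.2.2 ∧ 0 ≤ B v v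

/-- open forward cone: points of `ℍ` up to positive scaling -/
def Tim (v : V) : Prop := 0 < v.1 + v.2.2 ∧ 0 < B v v

/-- the hyperboloid: points of `ℍ` -/
def Hyp (v : V) : Prop := 0 < v.1 + v.2.2 ∧ B v v = 1

/-- the action `S ↦ g S gᵀ` -/
def act (g : SL(2, ℝ)) (v : V) : V :=
  (g 0 0 ^ 2 * v.1 + 2 * g 0 0 * g 0 1 * v.2.1 + g 0 1 ^ 2 * v.2.2,
   g 0 0 * g 1 0 * v.1 + (g 0 0 * g 1 1 + g 0 1 * g 1 0) * v.2.1 + g 0 1 * g 1 1 * v.2.2,
   g 1 0 ^ 2 * v.1 + 2 * g 1 0 * g 1 1 * v.2.1 + g 1 1 ^ 2 * v.2.2)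

lemma det_eq (g : SL(2, ℝ)) : g 0 0 * g 1 1 - g 0 1 * g 1 0 = 1 := by
  have := g.det_coe
  rwa [Matrix.det_fin_two] at this

lemma mul00 (g h : SL(2, ℝ)) : (g * h) 0 0 = g 0 0 * h 0 0 + g 0 1 * h 1 0 := by
  simp [Matrix.mul_apply, Fin.sum_univ_two]
lemma mul01 (g h : SL(2, ℝ)) : (g * h) 0 1 = g 0 0 * h 0 1 + g 0 1 * h 1 1 := by
  simp [Matrix.mul_apply, Fin.sum_univ_two]
lemma mul10 (g h : SL(2, ℝ)) : (g * h) 1 0 = g 1 0 * h 0 0 + g 1 1 * h 1 0 := by
  simp [Matrix.mul_apply, Fin.sum_univ_two]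
lemma mul11 (g h : SL(2, ℝ)) : (g * h) 1 1 = g 1 0 * h 0 1 + g 1 1 * h 1 1 := by
  simp [Matrix.mul_apply, Fin.sum_univ_two]
lemma inv00 (g : SL(2, ℝ)) : (g⁻¹) 0 0 = g 1 1 := by
  rw [Matrix.SpecialLinearGroup.SL2_inv_expl]; rfl
lemma inv01 (g : SL(2, ℝ)) : (g⁻¹) 0 1 = -g 0 1 := by
  rw [Matrix.SpecialLinearGroup.SL2_inv_expl]; rfl
lemma inv10 (g : SL(2, ℝ)) : (g⁻¹) 1 0 = -g 1 0 := by
  rw [Matrix.SpecialLinearGroup.SL2_inv_expl]; rfl
lemma inv11 (g : SL(2, ℝ)) : (g⁻¹) 1 1 = g 0 0 := by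
  rw [Matrix.SpecialLinearGroup.SL2_inv_expl]; rfl
lemma neg_ap (g : SL(2, ℝ)) (i j : Fin 2) : (-g) i j = -g i j := by
  simp
lemma one00 : (1 : SL(2, ℝ)) 0 0 = 1 := by simp
lemma one01 : (1 : SL(2, ℝ)) 0 1 = 0 := by simp
lemma one10 : (1 : SL(2, ℝ)) 1 0 = 0 := by simp
lemma one11 : (1 : SL(2, ℝ)) 1 1 = 1 := by simp

instance : DistribMulAction SL(2, ℝ) V where
  smul := act
  one_smul v := by
    change act 1 v = v
    simp [act]
  mul_smul g h v := by
    change act (g * h) v = act g (act h v)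
    simp only [act, mul00, mul01, mul10, mul11]
    refine Prod.ext ?_ (Prod.ext ?_ ?_) <;> simp only <;> ring
  smul_zero g := by
    change act g 0 = 0
    simp [act]
  smul_add g u v := by
    change act g (u + v) = act g u + act g v
    simp only [act, Prod.fst_add, Prod.snd_add, Prod.mk_add_mk]
    refine Prod.ext ?_ (Prod.ext ?_ ?_) <;> simp only <;> ring

lemma smul_def (g : SL(2, ℝ)) (v : V) : g • v = act g v := rfl

lemma smul_1 (g : SL(2, ℝ)) (v : V) :
    (g • v).1 = g 0 0 ^ 2 * v.1 + 2 * g 0 0 * g 0 1 * v.2.1 + g 0 1 ^ 2 * v.2.2 := rfl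
lemma smul_21 (g : SL(2, ℝ)) (v : V) :
    (g • v).2.1 = g 0 0 * g 1 0 * v.1 + (g 0 0 * g 1 1 + g 0 1 * g 1 0) * v.2.1
      + g 0 1 * g 1 1 * v.2.2 := rfl
lemma smul_22 (g : SL(2, ℝ)) (v : V) :
    (g • v).2.2 = g 1 0 ^ 2 * v.1 + 2 * g 1 0 * g 1 1 * v.2.1 + g 1 1 ^ 2 * v.2.2 := rfl

instance : SMulCommClass SL(2, ℝ) ℝ V where
  smul_comm g c v := by
    refine Prod.ext ?_ (Prod.ext ?_ ?_) <;>
      simp only [smul_1, smul_21, smul_22, Prod.smul_fst, Prod.smul_snd, smul_eq_mul] <;> ring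

instance : SMulCommClass ℝ SL(2, ℝ) V := SMulCommClass.symm _ _ _

lemma neg_smul_V (g : SL(2, ℝ)) (v : V) : (-g) • v = g • v := by
  refine Prod.ext ?_ (Prod.ext ?_ ?_) <;> simp only [smul_1, smul_21, smul_22, neg_ap] <;> ring

lemma continuous_act : Continuous fun p : SL(2, ℝ) × V => p.1 • p.2 := by
  have h : ∀ i j : Fin 2, Continuous fun p : SL(2, ℝ) × V => p.1 i j := fun i j =>
    (continuous_apply_apply i j).comp (continuous_subtype_val.comp continuous_fst)
  have h00 := h 0 0; have h01 := h 0 1; have h10 := h 1 0; have h11 := h 1 1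
  change Continuous fun p : SL(2, ℝ) × V => act p.1 p.2
  unfold act
  fun_prop

instance : ContinuousSMul SL(2, ℝ) V := ⟨continuous_act⟩

/-! ### the centre and the `PSL` action -/

lemma mem_center_iff (g : SL(2, ℝ)) : g ∈ Subgroup.center SL(2, ℝ) ↔ g = 1 ∨ g = -1 := by
  rw [Matrix.SpecialLinearGroup.mem_center_iff]
  constructor
  · rintro ⟨r, hr, h⟩
    simp only [Fintype.card_fin] at hr
    have : r = 1 ∨ r = -1 := by
      have : (r - 1) * (r + 1) = 0 := by linear_combination hr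
      rcases mul_eq_zero.1 this with h | h
      · left; linarith
      · right; linarith
    rcases this with rfl | rfl
    · left; ext i j; rw [← h]; simp
    · right; ext i j; rw [← h]; fin_cases i <;> fin_cases j <;> simp
  · rintro (rfl | rfl)
    · exact ⟨1, by simp, by simp⟩
    · refine ⟨-1, by simp, ?_⟩
      ext i j; fin_cases i <;> fin_cases j <;> simp

lemma mk_eq_iff (g h : SL(2, ℝ)) :
    (g : PSL(2, ℝ)) = (h : PSL(2, ℝ)) ↔ g = h ∨ g = -h := by
  rw [QuotientGroup.eq, mem_center_iff]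
  constructor
  · rintro (h1 | h1)
    · left; rw [inv_mul_eq_one] at h1; exact h1
    · right
      have : h = g * -1 := by rw [← h1]; group
      rw [this]; simp
  · rintro (rfl | rfl)
    · left; simp
    · right
      rw [inv_mul_eq_iff_eq_mul]; simp

lemma mk_neg (g : SL(2, ℝ)) : ((-g : SL(2, ℝ)) : PSL(2, ℝ)) = (g : PSL(2, ℝ)) :=
  (mk_eq_iff _ _).2 (Or.inr rfl)

/-- the action of `PSL(2,ℝ)` on Minkowski space -/
def pact (g : PSL(2, ℝ)) (v : V) : V :=
  Quotient.liftOn' g (fun A : SL(2, ℝ) => A • v) (by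
    intro A C h
    have : (A : PSL(2, ℝ)) = (C : PSL(2, ℝ)) := Quotient.sound' h
    rcases (mk_eq_iff _ _).1 this with rfl | rfl
    · rfl
    · exact neg_smul_V _ _)

instance : DistribMulAction PSL(2, ℝ) V where
  smul := pact
  one_smul v := one_smul SL(2, ℝ) v
  mul_smul g h v := by
    induction g using QuotientGroup.induction_on with | H g => ?_
    induction h using QuotientGroup.induction_on with | H h => ?_
    exact mul_smul g h v
  smul_zero g := by
    induction g using QuotientGroup.induction_on with | H g => ?_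
    exact smul_zero g
  smul_add g u v := by
    induction g using QuotientGroup.induction_on with | H g => ?_
    exact smul_add g u v

@[simp] lemma mk_smul (g : SL(2, ℝ)) (v : V) : (g : PSL(2, ℝ)) • v = g • v := rfl

instance : SMulCommClass PSL(2, ℝ) ℝ V where
  smul_comm g c v := by
    induction g using QuotientGroup.induction_on
    simp only [mk_smul]; exact smul_comm _ _ _

instance : SMulCommClass ℝ PSL(2, ℝ) V := SMulCommClass.symm _ _ _

instance : ContinuousConstSMul PSL(2, ℝ) V where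
  continuous_const_smul g := by
    induction g using QuotientGroup.induction_on
    simp only [mk_smul]; exact continuous_const_smul _

/-! ### bilinear algebra -/

lemma B_comm (u v : V) : B u v = B v u := by unfold B; ring
lemma B_add_left (u v w : V) : B (u + v) w = B u w + B v w := by
  simp only [B, Prod.fst_add, Prod.snd_add]; ring
lemma B_add_right (u v w : V) : B u (v + w) = B u v + B u w := by
  simp only [B, Prod.fst_add, Prod.snd_add]; ring
lemma B_sub_left (u v w : V) : B (u - v) w = B u w - B v w := by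
  simp only [B, Prod.fst_sub, Prod.snd_sub]; ring
lemma B_sub_right (u v w : V) : B u (v - w) = B u v - B u w := by
  simp only [B, Prod.fst_sub, Prod.snd_sub]; ring
lemma B_neg_left (u v : V) : B (-u) v = -B u v := by
  simp only [B, Prod.fst_neg, Prod.snd_neg]; ring
lemma B_neg_right (u v : V) : B u (-v) = -B u v := by
  simp only [B, Prod.fst_neg, Prod.snd_neg]; ring
lemma B_smul_left (c : ℝ) (u v : V) : B (c • u) v = c * B u v := by
  simp only [B, Prod.smul_fst, Prod.smul_snd, smul_eq_mul]; ring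
lemma B_smul_right (c : ℝ) (u v : V) : B u (c • v) = c * B u v := by
  simp only [B, Prod.smul_fst, Prod.smul_snd, smul_eq_mul]; ring
@[simp] lemma B_zero_left (v : V) : B 0 v = 0 := by simp [B]
@[simp] lemma B_zero_right (v : V) : B v 0 = 0 := by simp [B]

lemma det3_cyc (u v w : V) : det3 u v w = det3 v w u := by unfold det3; ring
lemma det3_swap (u v w : V) : det3 u w v = -det3 u v w := by unfold det3; ring
lemma det3_swap12 (u v w : V) : det3 v u w = -det3 u v w := by unfold det3; ring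
lemma det3_swap13 (u v w : V) : det3 w v u = -det3 u v w := by unfold det3; ring
@[simp] lemma det3_self12 (u w : V) : det3 u u w = 0 := by unfold det3; ring
@[simp] lemma det3_self13 (u v : V) : det3 u v u = 0 := by unfold det3; ring
@[simp] lemma det3_self23 (u v : V) : det3 u v v = 0 := by unfold det3; ring
lemma det3_add_1 (u u' v w : V) : det3 (u + u') v w = det3 u v w + det3 u' v w := by
  simp only [det3, Prod.fst_add, Prod.snd_add]; ring
lemma det3_add_2 (u v v' w : V) : det3 u (v + v') w = det3 u v w + det3 u v' w := by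
  simp only [det3, Prod.fst_add, Prod.snd_add]; ring
lemma det3_add_3 (u v w w' : V) : det3 u v (w + w') = det3 u v w + det3 u v w' := by
  simp only [det3, Prod.fst_add, Prod.snd_add]; ring
lemma det3_smul_1 (c : ℝ) (u v w : V) : det3 (c • u) v w = c * det3 u v w := by
  simp only [det3, Prod.smul_fst, Prod.smul_snd, smul_eq_mul]; ring
lemma det3_smul_2 (c : ℝ) (u v w : V) : det3 u (c • v) w = c * det3 u v w := by
  simp only [det3, Prod.smul_fst, Prod.smul_snd, smul_eq_mul]; ring
lemma det3_smul_3 (c : ℝ) (u v w : V) : det3 u v (c • w) = c * det3 u v w := by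
  simp only [det3, Prod.smul_fst, Prod.smul_snd, smul_eq_mul]; ring

lemma B_cross (u v w : V) : B (cross u v) w = det3 u v w := by
  unfold B cross det3; ring
lemma B_cross_cross (u v u' v' : V) :
    B (cross u v) (cross u' v') = B u u' * B v v' - B u v' * B v u' := by
  unfold B cross; ring
lemma cross_cross (u v w : V) : cross (cross u v) w = B u w • v - B v w • u := by
  refine Prod.ext ?_ (Prod.ext ?_ ?_) <;>
    simp only [B, cross, Prod.fst_sub, Prod.snd_sub, Prod.smul_fst, Prod.smul_snd, smul_eq_mul] <;>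
    ring

/-- product of two determinants as a Gram-type determinant -/
lemma det3_mul_det3 (u v w u' v' w' : V) : det3 u v w * det3 u' v' w' =
    B u u' * (B v v' * B w w' - B v w' * B w v') - B u v' * (B v u' * B w w' - B v w' * B w u')
      + B u w' * (B v u' * B w v' - B v v' * B w u') := by
  unfold B det3; ring

lemma det3_sq (u v w : V) : det3 u v w ^ 2 =
    B u u * B v v * B w w + 2 * B u v * B v w * B w u
      - B u u * B v w ^ 2 - B v v * B w u ^ 2 - B w w * B u v ^ 2 := by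
  unfold B det3; ring

/-- Cramer: four vectors in a three-dimensional space -/
lemma cramer (u v w x : V) :
    det3 u v w • x = det3 x v w • u + det3 u x w • v + det3 u v x • w := by
  refine Prod.ext ?_ (Prod.ext ?_ ?_) <;>
    simp only [det3, Prod.fst_add, Prod.snd_add, Prod.smul_fst, Prod.smul_snd, smul_eq_mul] <;>
    ring

/-- the four-term (quadrilateral) relation paired with a fifth vector -/
lemma det3_quad (u v w x y : V) :
    det3 u v w * B x y = det3 x v w * B u y + det3 u x w * B v y + det3 u v x * B w y := by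
  unfold det3 B; ring

@[fun_prop] lemma continuous_B {X : Type*} [TopologicalSpace X] {f g : X → V}
    (hf : Continuous f) (hg : Continuous g) : Continuous fun x => B (f x) (g x) := by
  unfold B; fun_prop
@[fun_prop] lemma continuous_det3 {X : Type*} [TopologicalSpace X] {f g h : X → V}
    (hf : Continuous f) (hg : Continuous g) (hh : Continuous h) :
    Continuous fun x => det3 (f x) (g x) (h x) := by
  unfold det3; fun_prop
@[fun_prop] lemma continuous_cross {X : Type*} [TopologicalSpace X] {f g : X → V}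
    (hf : Continuous f) (hg : Continuous g) : Continuous fun x => cross (f x) (g x) := by
  unfold cross; fun_prop
@[fun_prop] lemma continuous_nrm {X : Type*} [TopologicalSpace X] {f : X → V}
    (hf : Continuous f) : Continuous fun x => nrm (f x) := by
  unfold nrm; fun_prop

/-! ### invariance -/

@[simp] lemma B_smul (g : SL(2, ℝ)) (u v : V) : B (g • u) (g • v) = B u v := by
  have h := det_eq g
  simp only [B, smul_1, smul_21, smul_22]
  have : (g 0 0 * g 1 1 - g 0 1 * g 1 0) ^ 2 = 1 := by rw [h]; norm_num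
  linear_combination ((u.1 * v.2.2 + u.2.2 * v.1) / 2 - u.2.1 * v.2.1) * this

@[simp] lemma det3_smul (g : SL(2, ℝ)) (u v w : V) : det3 (g • u) (g • v) (g • w) = det3 u v w := by
  have h := det_eq g
  simp only [det3, smul_1, smul_21, smul_22]
  have : (g 0 0 * g 1 1 - g 0 1 * g 1 0) ^ 3 = 1 := by rw [h]; norm_num
  linear_combination (-(u.1 * (v.2.1 * w.2.2 - v.2.2 * w.2.1) - u.2.1 * (v.1 * w.2.2 - v.2.2 * w.1)
    + u.2.2 * (v.1 * w.2.1 - v.2.1 * w.1)) / 2) * this

lemma B_nondeg {u v : V} (h : ∀ w, B u w = B v w) : u = v := by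
  have h1 := h (0, 0, 1)
  have h2 := h (0, 1, 0)
  have h3 := h (1, 0, 0)
  simp only [B] at h1 h2 h3
  refine Prod.ext ?_ (Prod.ext ?_ ?_) <;> linarith

lemma cross_smul (g : SL(2, ℝ)) (u v : V) : cross (g • u) (g • v) = g • cross u v := by
  apply B_nondeg
  intro w
  obtain ⟨w, rfl⟩ : ∃ w', w = g • w' := ⟨g⁻¹ • w, by simp⟩
  rw [B_cross, det3_smul, B_smul, B_cross]

@[simp] lemma nrm_smul (g : SL(2, ℝ)) (v : V) : nrm (g • v) = nrm v := by simp [nrm]

@[simp] lemma B_psmul (g : PSL(2, ℝ)) (u v : V) : B (g • u) (g • v) = B u v := by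
  induction g using QuotientGroup.induction_on; simp
@[simp] lemma det3_psmul (g : PSL(2, ℝ)) (u v w : V) :
    det3 (g • u) (g • v) (g • w) = det3 u v w := by
  induction g using QuotientGroup.induction_on; simp
@[simp] lemma nrm_psmul (g : PSL(2, ℝ)) (v : V) : nrm (g • v) = nrm v := by simp [nrm]
lemma cross_psmul (g : PSL(2, ℝ)) (u v : V) : cross (g • u) (g • v) = g • cross u v := by
  induction g using QuotientGroup.induction_on; simp [cross_smul]

/-! ### the cone -/

lemma Hyp.tim {v : V} (h : Hyp v) : Tim v := ⟨h.1, by rw [h.2]; norm_num⟩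
lemma Tim.cone {v : V} (h : Tim v) : Cone v := ⟨h.1, h.2.le⟩
lemma Hyp.cone {v : V} (h : Hyp v) : Cone v := h.tim.cone
lemma Hyp.nrm {v : V} (h : Hyp v) : nrm v = 1 := by simp [A25f44.nrm, h.2]
lemma nrm_nonneg (v : V) : 0 ≤ nrm v := Real.sqrt_nonneg _
lemma Cone.nrm_sq {v : V} (h : Cone v) : nrm v ^ 2 = B v v := Real.sq_sqrt h.2
lemma Tim.nrm_pos {v : V} (h : Tim v) : 0 < nrm v := Real.sqrt_pos.2 h.2
lemma Cone.tim_iff {v : V} (h : Cone v) : Tim v ↔ 0 < nrm v :=
  ⟨Tim.nrm_pos, fun h' => ⟨h.1, Real.sqrt_pos.1 h'⟩⟩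
lemma hyp_oV : Hyp oV := by constructor <;> simp [oV, B]
lemma B_oV (v : V) : B oV v = (v.1 + v.2.2) / 2 := by simp [oV, B]; ring

lemma Cone.fst_nonneg {v : V} (h : Cone v) : 0 ≤ v.1 := by
  obtain ⟨h1, h2⟩ := h
  simp only [B] at h2
  by_contra hc
  push Not at hc
  nlinarith [sq_nonneg v.2.1]
lemma Cone.trd_nonneg {v : V} (h : Cone v) : 0 ≤ v.2.2 := by
  obtain ⟨h1, h2⟩ := h
  simp only [B] at h2
  by_contra hc
  push Not at hc
  nlinarith [sq_nonneg v.2.1]
lemma Cone.sq_le {v : V} (h : Cone v) : v.2.1 ^ 2 ≤ v.1 * v.2.2 := by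
  have h2 := h.2
  simp only [B] at h2
  nlinarith
lemma Tim.fst_pos {v : V} (h : Tim v) : 0 < v.1 := by
  have h0 := h.cone.fst_nonneg
  have h2 := h.2
  simp only [B] at h2
  rcases h0.lt_or_eq with h0 | h0
  · exact h0
  · rw [← h0] at h2; nlinarith [sq_nonneg v.2.1]
lemma Tim.trd_pos {v : V} (h : Tim v) : 0 < v.2.2 := by
  have h0 := h.cone.trd_nonneg
  have h2 := h.2
  simp only [B] at h2
  rcases h0.lt_or_eq with h0 | h0
  · exact h0
  · rw [← h0] at h2; nlinarith [sq_nonneg v.2.1]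
lemma Cone.ne_zero {v : V} (h : Cone v) : v ≠ 0 := by
  rintro rfl; have := h.1; simp at this

lemma B_cross_self_nonpos {u v : V} (hu : Cone u) : B (cross u v) (cross u v) ≤ 0 ∨ B u u = 0 := by
  by_cases h : B u u = 0
  · exact Or.inr h
  left
  have hpos : 0 < B u u := lt_of_le_of_ne hu.2 (Ne.symm h)
  have hE : 0 < u.1 := Tim.fst_pos ⟨hu.1, hpos⟩
  set n := cross u v
  have h0 : B n u = 0 := by simp [n, B_cross]
  simp only [B] at h0 hpos ⊢
  have key : u.1 ^ 2 * ((n.1 * n.2.2 + n.2.2 * n.1) / 2 - n.2.1 * n.2.1)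
      = -((u.1 * n.2.1 - u.2.1 * n.1) ^ 2 + n.1 ^ 2 * ((u.1 * u.2.2 + u.2.2 * u.1) / 2
        - u.2.1 * u.2.1)) := by
    linear_combination (2 * n.1 * u.1) * h0
  have : u.1 ^ 2 * ((n.1 * n.2.2 + n.2.2 * n.1) / 2 - n.2.1 * n.2.1) ≤ 0 := by
    rw [key]; have := sq_nonneg (u.1 * n.2.1 - u.2.1 * n.1)
    have := mul_nonneg (sq_nonneg n.1) hpos.le
    linarith
  by_contra hc
  push Not at hc
  have := mul_pos (pow_pos hE 2) hc
  linarith

/-- a vector orthogonal to a timelike vector is spacelike or zero -/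
lemma Tim.B_self_neg {u n : V} (hu : Tim u) (h0 : B n u = 0) (hn : n ≠ 0) : B n n < 0 := by
  have hpos := hu.2
  have hE : 0 < u.1 := hu.fst_pos
  simp only [B] at h0 hpos ⊢
  have key : u.1 ^ 2 * ((n.1 * n.2.2 + n.2.2 * n.1) / 2 - n.2.1 * n.2.1)
      = -((u.1 * n.2.1 - u.2.1 * n.1) ^ 2 + n.1 ^ 2 * ((u.1 * u.2.2 + u.2.2 * u.1) / 2
        - u.2.1 * u.2.1)) := by
    linear_combination (2 * n.1 * u.1) * h0
  by_contra hc
  push Not at hc
  have h1 := mul_nonneg (pow_pos hE 2).le hc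
  have h2 := sq_nonneg (u.1 * n.2.1 - u.2.1 * n.1)
  have h3 := mul_nonneg (sq_nonneg n.1) hpos.le
  have h4 : n.1 ^ 2 * ((u.1 * u.2.2 + u.2.2 * u.1) / 2 - u.2.1 * u.2.1) = 0 := by linarith
  have h5 : n.1 = 0 := by
    rcases mul_eq_zero.1 h4 with h | h
    · exact pow_eq_zero_iff (two_ne_zero) |>.1 h
    · linarith
  have h6 : (u.1 * n.2.1 - u.2.1 * n.1) ^ 2 = 0 := by linarith
  have h7 : n.2.1 = 0 := by
    rw [h5] at h6
    have : u.1 * n.2.1 = 0 := by simpa using h6
    rcases mul_eq_zero.1 this with h | h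
    · linarith
    · exact h
  have h8 : n.2.2 = 0 := by
    rw [h5, h7] at h0
    have : n.2.2 * u.1 = 0 := by linarith
    rcases mul_eq_zero.1 this with h | h
    · exact h
    · linarith
  exact hn (Prod.ext h5 (Prod.ext h7 h8))

lemma Cone.B_nonneg {u v : V} (hu : Cone u) (hv : Cone v) : 0 ≤ B u v := by
  have a1 := hu.fst_nonneg; have a2 := hu.trd_nonneg; have a3 := hu.sq_le
  have b1 := hv.fst_nonneg; have b2 := hv.trd_nonneg; have b3 := hv.sq_le
  simp only [B]
  have h1 : (u.2.1 * v.2.1) ^ 2 ≤ ((u.1 * v.2.2 + u.2.2 * v.1) / 2) ^ 2 := by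
    have e1 : (u.2.1 * v.2.1) ^ 2 ≤ (u.1 * u.2.2) * (v.1 * v.2.2) := by
      rw [mul_pow]; exact mul_le_mul a3 b3 (sq_nonneg _) (mul_nonneg a1 a2)
    nlinarith [sq_nonneg (u.1 * v.2.2 - u.2.2 * v.1)]
  have h2 : 0 ≤ (u.1 * v.2.2 + u.2.2 * v.1) / 2 := by positivity
  have := abs_le_of_sq_le_sq' h1 h2
  linarith [this.2]

/-- reverse Cauchy–Schwarz -/
lemma Cone.B_sq_ge {u v : V} (hu : Cone u) (_hv : Cone v) : B u u * B v v ≤ B u v ^ 2 := by
  rcases B_cross_self_nonpos (v := v) hu with h | h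
  · rw [B_cross_cross, B_comm v u] at h; nlinarith
  · rw [h]; simp [sq_nonneg]

lemma Cone.nrm_mul_le {u v : V} (hu : Cone u) (hv : Cone v) : nrm u * nrm v ≤ B u v := by
  have h := hu.B_sq_ge hv
  rw [← hu.nrm_sq, ← hv.nrm_sq, ← mul_pow] at h
  exact (abs_le_of_sq_le_sq' h (hu.B_nonneg hv)).2

lemma Hyp.one_le_B {u v : V} (hu : Hyp u) (hv : Hyp v) : 1 ≤ B u v := by
  have := hu.cone.nrm_mul_le hv.cone
  rwa [hu.nrm, hv.nrm, one_mul] at this

lemma Tim.B_pos {u v : V} (hu : Tim u) (hv : Cone v) : 0 < B u v := by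
  rcases (hu.cone.B_nonneg hv).lt_or_eq with h | h
  · exact h
  · exfalso
    have := hu.B_self_neg (n := v) (by rw [B_comm]; exact h.symm) hv.ne_zero
    linarith [hv.2]

lemma Hyp.eq_of_B_eq_one {u v : V} (hu : Hyp u) (hv : Hyp v) (h : B u v = 1) : u = v := by
  by_contra hne
  have h0 : B (u - v) u = 0 := by rw [B_sub_left, hu.2, B_comm v u, h]; ring
  have := hu.tim.B_self_neg h0 (sub_ne_zero.2 hne)
  rw [B_sub_left, B_sub_right, B_sub_right, hu.2, hv.2, B_comm v u, h] at this
  linarith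

lemma cone_iff_B {v : V} : Cone v ↔ 0 < B oV v ∧ 0 ≤ B v v := by
  rw [B_oV]; unfold Cone; constructor <;> rintro ⟨h1, h2⟩ <;> exact ⟨by linarith, h2⟩

lemma Cone.smul {v : V} (h : Cone v) (g : SL(2, ℝ)) : Cone (g • v) := by
  refine ⟨?_, by rw [B_smul]; exact h.2⟩
  have hd := det_eq g
  have h1 : Tim ((g⁻¹) • oV) := by
    refine ⟨?_, by rw [B_smul, hyp_oV.2]; norm_num⟩
    simp only [smul_1, smul_22, oV, inv00, inv01, inv10, inv11]
    by_contra hc
    push Not at hc
    have e1 : g 1 1 = 0 := by nlinarith [sq_nonneg (g 1 1), sq_nonneg (g 0 1), sq_nonneg (g 1 0), sq_nonneg (g 0 0)]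
    have e2 : g 0 1 = 0 := by nlinarith [sq_nonneg (g 1 1), sq_nonneg (g 0 1), sq_nonneg (g 1 0), sq_nonneg (g 0 0)]
    rw [e1, e2] at hd; simp at hd
  have h2 := h1.B_pos h
  rw [← B_smul g, smul_inv_smul, B_oV] at h2
  linarith

lemma Tim.smul {v : V} (h : Tim v) (g : SL(2, ℝ)) : Tim (g • v) :=
  ⟨(h.cone.smul g).1, by rw [B_smul]; exact h.2⟩
lemma Hyp.smul {v : V} (h : Hyp v) (g : SL(2, ℝ)) : Hyp (g • v) :=
  ⟨(h.cone.smul g).1, by rw [B_smul]; exact h.2⟩
lemma Cone.psmul {v : V} (h : Cone v) (g : PSL(2, ℝ)) : Cone (g • v) := by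
  induction g using QuotientGroup.induction_on; exact h.smul _
lemma Tim.psmul {v : V} (h : Tim v) (g : PSL(2, ℝ)) : Tim (g • v) := by
  induction g using QuotientGroup.induction_on; exact h.smul _
lemma Hyp.psmul {v : V} (h : Hyp v) (g : PSL(2, ℝ)) : Hyp (g • v) := by
  induction g using QuotientGroup.induction_on; exact h.smul _

lemma Cone.pos_smul {v : V} (h : Cone v) {c : ℝ} (hc : 0 < c) : Cone (c • v) := by
  refine ⟨?_, ?_⟩
  · simp only [Prod.smul_fst, Prod.smul_snd, smul_eq_mul]; nlinarith [h.1]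
  · rw [B_smul_left, B_smul_right]; have := h.2; positivity
lemma Tim.pos_smul {v : V} (h : Tim v) {c : ℝ} (hc : 0 < c) : Tim (c • v) := by
  refine ⟨(h.cone.pos_smul hc).1, ?_⟩
  rw [B_smul_left, B_smul_right]; have := h.2; positivity
lemma Cone.add {u v : V} (hu : Cone u) (hv : Cone v) : Cone (u + v) := by
  refine ⟨?_, ?_⟩
  · simp only [Prod.fst_add, Prod.snd_add]; linarith [hu.1, hv.1]
  · rw [B_add_left, B_add_right, B_add_right, B_comm v u]
    linarith [hu.2, hv.2, hu.B_nonneg hv]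
lemma Tim.add_cone {u v : V} (hu : Tim u) (hv : Cone v) : Tim (u + v) := by
  refine ⟨(hu.cone.add hv).1, ?_⟩
  rw [B_add_left, B_add_right, B_add_right, B_comm v u]
  linarith [hu.2, hv.2, hu.cone.B_nonneg hv]
lemma nrm_pos_smul {c : ℝ} (hc : 0 ≤ c) (v : V) : nrm (c • v) = c * nrm v := by
  unfold nrm
  rw [B_smul_left, B_smul_right, ← mul_assoc, Real.sqrt_mul (mul_self_nonneg c),
    Real.sqrt_mul_self hc]
/-- normalisation of a timelike vector -/
lemma Tim.normalize {v : V} (h : Tim v) : Hyp ((nrm v)⁻¹ • v) := by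
  have hn := h.nrm_pos
  refine ⟨(h.pos_smul (inv_pos.2 hn)).1, ?_⟩
  rw [B_smul_left, B_smul_right, ← h.cone.nrm_sq]; field_simp

/-! ### the upper half-plane -/

/-- the hyperboloid vector of a point of `ℍ` -/
def vec (z : ℍ) : V := (Complex.normSq z / z.im, z.re / z.im, 1 / z.im)

/-- inverse of `vec` on timelike vectors -/
def pt (v : V) (h : Tim v) : ℍ :=
  ⟨⟨v.2.1 / v.2.2, nrm v / v.2.2⟩, div_pos h.nrm_pos h.trd_pos⟩

lemma vec_I : vec UpperHalfPlane.I = oV := by
  simp [vec, oV]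

lemma hyp_vec (z : ℍ) : Hyp (vec z) := by
  have hy := z.im_pos
  have hn : 0 ≤ Complex.normSq z := Complex.normSq_nonneg _
  refine ⟨?_, ?_⟩
  · simp only [vec]; positivity
  · simp only [vec, B, Complex.normSq_apply, UpperHalfPlane.coe_re, UpperHalfPlane.coe_im]
    field_simp; ring

lemma vec_pt {v : V} (h : Hyp v) : vec (pt v h.tim) = v := by
  have hG := h.tim.trd_pos
  have h2 := h.2
  simp only [B] at h2
  refine Prod.ext ?_ (Prod.ext ?_ ?_) <;>
    simp only [vec, pt, Complex.normSq_apply, UpperHalfPlane.coe_mk, UpperHalfPlane.mk_re,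
      UpperHalfPlane.mk_im, h.nrm]
  · field_simp; linear_combination -h2
  · field_simp
  · field_simp

lemma vec_injective : Function.Injective vec := by
  intro z w h
  have h1 := congrArg (fun v : V => v.2.1) h
  have h2 := congrArg (fun v : V => v.2.2) h
  simp only [vec] at h1 h2
  have hz := z.im_pos; have hw := w.im_pos
  have e : z.im = w.im := by field_simp at h2; linarith
  rw [e] at h1
  have e' : z.re = w.re := by field_simp at h1; exact h1
  exact UpperHalfPlane.ext (Complex.ext e' e)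

lemma pt_vec (z : ℍ) : pt (vec z) (hyp_vec z).tim = z := vec_injective (vec_pt (hyp_vec z))

lemma vec_smul (g : SL(2, ℝ)) (z : ℍ) : vec (g • z) = g • vec z := by
  have hd := det_eq g
  have hy := z.im_pos
  have hc := UpperHalfPlane.coe_specialLinearGroup_apply g z
  simp only [Algebra.algebraMap_self, RingHom.id_apply] at hc
  set a := g 0 0 with ha; set b := g 0 1 with hb; set c := g 1 0 with hc'; set d := g 1 1 with hd'
  set x := z.re with hx; set y := z.im with hy'
  have hD : 0 < (c * x + d) ^ 2 + (c * y) ^ 2 := by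
    by_contra hh
    push Not at hh
    have e1 : c * y = 0 := by nlinarith [sq_nonneg (c * x + d), sq_nonneg (c * y)]
    have e2 : c * x + d = 0 := by nlinarith [sq_nonneg (c * x + d), sq_nonneg (c * y)]
    have e3 : c = 0 := by rcases mul_eq_zero.1 e1 with h | h; exact h; linarith
    rw [e3] at e2 hd
    have : d = 0 := by linarith
    rw [this] at hd; simp at hd
  obtain ⟨D, hDD⟩ : ∃ D, D = (c * x + d) ^ 2 + (c * y) ^ 2 := ⟨_, rfl⟩
  rw [← hDD] at hD
  have hns : Complex.normSq ((c : ℂ) * z + d) = D := by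
    simp only [Complex.add_re, Complex.mul_re, Complex.ofReal_re, Complex.ofReal_im,
      Complex.add_im, Complex.mul_im, Complex.normSq_apply, UpperHalfPlane.coe_re,
      UpperHalfPlane.coe_im, ← hx, ← hy', hDD]
    ring
  have hre : (g • z).re = ((a * x + b) * (c * x + d) + a * c * y ^ 2) / D := by
    change ((g • z : ℍ) : ℂ).re = _
    rw [hc, Complex.div_re, hns]
    simp only [Complex.add_re, Complex.mul_re, Complex.ofReal_re, Complex.ofReal_im,
      Complex.add_im, Complex.mul_im, UpperHalfPlane.coe_re,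
      UpperHalfPlane.coe_im, ← hx, ← hy']
    field_simp; ring
  have him : (g • z).im = y / D := by
    change ((g • z : ℍ) : ℂ).im = _
    rw [hc, Complex.div_im, hns]
    simp only [Complex.add_re, Complex.mul_re, Complex.ofReal_re, Complex.ofReal_im,
      Complex.add_im, Complex.mul_im, UpperHalfPlane.coe_re,
      UpperHalfPlane.coe_im, ← hx, ← hy']
    field_simp; linear_combination y * hd
  refine Prod.ext ?_ (Prod.ext ?_ ?_) <;>
    simp only [vec, smul_1, smul_21, smul_22, Complex.normSq_apply, UpperHalfPlane.coe_re,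
      UpperHalfPlane.coe_im, hre, him, ← hx, ← hy', ← ha, ← hb, ← hc', ← hd']
  · field_simp
    have : y ^ 2 = (a * d - b * c) ^ 2 * y ^ 2 := by rw [hd]; ring
    rw [hDD]
    linear_combination this
  · field_simp; ring
  · field_simp; rw [hDD]; ring

lemma cosh_dist (z w : ℍ) : Real.cosh (dist z w) = B (vec z) (vec w) := by
  rw [UpperHalfPlane.cosh_dist']
  have hz := z.im_pos; have hw := w.im_pos
  simp only [vec, B, Complex.normSq_apply, UpperHalfPlane.coe_re, UpperHalfPlane.coe_im]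
  field_simp; ring

lemma continuous_vec : Continuous vec := by
  have h1 := UpperHalfPlane.continuous_re
  have h2 := UpperHalfPlane.continuous_im
  have h3 : Continuous fun z : ℍ => Complex.normSq z :=
    Complex.continuous_normSq.comp UpperHalfPlane.continuous_coe
  unfold vec
  refine Continuous.prodMk (h3.div h2 fun z => z.im_pos.ne')
    (Continuous.prodMk (h1.div h2 fun z => z.im_pos.ne')
      (continuous_const.div h2 fun z => z.im_pos.ne'))

lemma Hyp.exists_vec {v : V} (h : Hyp v) : ∃ z : ℍ, vec z = v := ⟨_, vec_pt h⟩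

/-- transitivity on the hyperboloid -/
lemma Hyp.exists_smul {v : V} (h : Hyp v) : ∃ g : SL(2, ℝ), g • oV = v := by
  obtain ⟨z, rfl⟩ := h.exists_vec
  exact ⟨z.toSL2R, by rw [← vec_I, ← vec_smul, UpperHalfPlane.toSL2R_smul_I]⟩

end A25f44
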