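import Pool.Agent.Lib.MP_a25f44_gt.H43Geo

/-! The inverse disc chart. -/

namespace Pool.Agent.Lib.MP_a25f44_gt.H43

open scoped MatrixGroups UpperHalfPlane ComplexConjugate
open Complex

noncomputable def den (z : ℍ) (u : V3) : ℝ :=
  u.2.2 - 2 * z.re * u.2.1 + normSq z * u.1 + 2 * z.im * nrm u

theorem den_eq (z : ℍ) {u : V3} (h : Cone u) :
    den z u = u.1 * normSq ((proj u : ℂ) - conj (z : ℂ)) := by
  have h1 := h.1
  have h3 := h.nrm_sq
  rw [den, normSq_eq, normSq_apply]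
  simp only [sub_re, UpperHalfPlane.coe_re, conj_re, sub_im, UpperHalfPlane.coe_im, conj_im,
    proj_re h, proj_im h]
  field_simp; linear_combination (-1 : ℝ) * h3

theorem den_pos (z : ℍ) {u : V3} (h : Cone u) : 0 < den z u := by
  rw [den_eq z h]; exact mul_pos h.1 (normSq_pos.2 (sub_conj_ne z _))

theorem cay_proj (z : ℍ) {u : V3} (h : Cone u) : cay z (proj u) = lin z u / den z u := by
  have hn : (nrm u : ℂ) ≠ 0 := by exact_mod_cast h.nrm_pos.ne'
  have h1 : (u.1 : ℂ) ≠ 0 := by exact_mod_cast h.1.ne'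
  have h2 : (normSq ((proj u : ℂ) - conj (z : ℂ)) : ℂ) ≠ 0 := by
    exact_mod_cast (normSq_pos.2 (sub_conj_ne z _)).ne'
  have e : lin z u = nrm u * lin z (vec (proj u)) := by rw [← lin_smul, smul_vec_proj h]
  rw [cay_eq, den_eq z h, proj_im h, e]; push_cast; field_simp

theorem norm_cay_lt (z w : ℍ) : ‖cay z w‖ < 1 := by
  rw [cay, norm_div, div_lt_one (norm_pos_iff.2 (sub_conj_ne z w)), ← sq_lt_sq₀ (norm_nonneg _)
    (norm_nonneg _), Complex.sq_norm, Complex.sq_norm, normSq_apply, normSq_apply]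
  simp
  nlinarith [mul_pos z.im_pos w.im_pos]

noncomputable def uinv (z : ℍ) (C : ℂ) : V3 :=
  (normSq (1 - C), (((z : ℂ) - conj (z : ℂ) * C) * conj (1 - C)).re, normSq ((z : ℂ) - conj (z : ℂ) * C))

theorem continuous_uinv (z : ℍ) : Continuous (uinv z) := by
  unfold uinv; fun_prop

theorem uinv_q (z : ℍ) (C : ℂ) : (uinv z C).1 * (uinv z C).2.2 - (uinv z C).2.1 ^ 2 =
    (z.im * (1 - normSq C)) ^ 2 := by
  simp [uinv, normSq_apply]; ring

theorem one_sub_ne {C : ℂ} (h : ‖C‖ < 1) : 1 - C ≠ 0 := by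
  intro h0
  have : C = 1 := by linear_combination -h0
  rw [this] at h; simp at h

theorem normSq_lt {C : ℂ} (h : ‖C‖ < 1) : normSq C < 1 := by
  rw [← Complex.sq_norm]; nlinarith [norm_nonneg C]

theorem cone_uinv (z : ℍ) {C : ℂ} (h : ‖C‖ < 1) : Cone (uinv z C) := by
  refine ⟨normSq_pos.2 (one_sub_ne h), ?_⟩
  have := uinv_q z C
  have : 0 < z.im * (1 - normSq C) := mul_pos z.im_pos (by linarith [normSq_lt h])
  nlinarith

theorem coe_proj_uinv (z : ℍ) {C : ℂ} (h : ‖C‖ < 1) :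
    (proj (uinv z C) : ℂ) = ((z : ℂ) - conj (z : ℂ) * C) / (1 - C) := by
  have hc := cone_uinv z h
  have hn : nrm (uinv z C) = z.im * (1 - normSq C) := by
    rw [nrm, uinv_q]; exact Real.sqrt_sq (mul_pos z.im_pos (by linarith [normSq_lt h])).le
  apply Complex.ext
  · rw [UpperHalfPlane.coe_re, proj_re hc, Complex.div_re]; simp [uinv]; ring
  · rw [UpperHalfPlane.coe_im, proj_im hc, hn, Complex.div_im]; simp [uinv, normSq_apply]; ring

theorem two_im_ne (z : ℍ) : (z : ℂ) - conj (z : ℂ) ≠ 0 := sub_conj_ne z z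

theorem cay_proj_uinv (z : ℍ) {C : ℂ} (h : ‖C‖ < 1) : cay z (proj (uinv z C)) = C := by
  have h1 := one_sub_ne h
  have h2 := two_im_ne z
  have h3 := sub_conj_ne z (proj (uinv z C))
  rw [cay, div_eq_iff h3, coe_proj_uinv z h]; field_simp; ring

theorem cay_injective (z : ℍ) : Function.Injective (cay z) := by
  intro v w h
  have h1 := sub_conj_ne z v
  have h2 := sub_conj_ne z w
  have h3 := two_im_ne z
  rw [cay, cay, div_eq_div_iff h1 h2] at h
  apply UpperHalfPlane.ext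
  have : ((v : ℂ) - w) * ((z : ℂ) - conj (z : ℂ)) = 0 := by linear_combination h
  rcases mul_eq_zero.1 this with h4 | h4
  · linear_combination h4
  · exact absurd h4 h3

theorem proj_uinv_cay (z w : ℍ) : proj (uinv z (cay z w)) = w :=
  cay_injective z (cay_proj_uinv z (norm_cay_lt z w))

theorem eq_smul_of_proj {u v : V3} (hu : Cone u) (hv : Cone v) (h : proj u = proj v) :
    ∃ s : ℝ, 0 < s ∧ u = s • v := by
  refine ⟨nrm u / nrm v, div_pos hu.nrm_pos hv.nrm_pos, ?_⟩
  conv_rhs => rw [← smul_vec_proj hv]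
  rw [smul_smul, smul_vec_proj hv, div_mul_cancel₀ _ hv.nrm_pos.ne', ← h, smul_vec_proj hu]

theorem proj_smul {u : V3} (hu : Cone u) {s : ℝ} (hs : 0 < s) : proj (s • u) = proj u := by
  conv_lhs => rw [← smul_vec_proj hu, smul_smul]
  exact proj_smul_vec _ (mul_pos hs hu.nrm_pos)

theorem continuous_cay (z : ℍ) : Continuous (cay z) := by
  unfold cay
  exact Continuous.div (by fun_prop) (by fun_prop) (sub_conj_ne z)

theorem continuousOn_proj_uinv (z : ℍ) :
    ContinuousOn (fun C => proj (uinv z C)) (Metric.ball 0 1) := by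
  rw [UpperHalfPlane.isEmbedding_coe.continuousOn_iff]
  refine ContinuousOn.congr (f := fun C => ((z : ℂ) - conj (z : ℂ) * C) / (1 - C)) ?_ ?_
  · exact ContinuousOn.div (by fun_prop) (by fun_prop) fun C hC => one_sub_ne (by simpa using hC)
  · intro C hC; exact coe_proj_uinv z (by simpa using hC)

/-- the disc chart as a local homeomorphism -/
noncomputable def cayH (z : ℍ) : OpenPartialHomeomorph ℍ ℂ where
  toFun := cay z
  invFun C := proj (uinv z C)
  source := Set.univ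
  target := Metric.ball 0 1
  map_source' w _ := by simpa using norm_cay_lt z w
  map_target' _ _ := trivial
  left_inv' w _ := proj_uinv_cay z w
  right_inv' C hC := cay_proj_uinv z (by simpa using hC)
  open_source := isOpen_univ
  open_target := Metric.isOpen_ball
  continuousOn_toFun := (continuous_cay z).continuousOn
  continuousOn_invFun := continuousOn_proj_uinv z

theorem cramer (u0 u1 u2 u : V3) (h : det3 u0 u1 u2 ≠ 0) :
    u = (det3 u u1 u2 / det3 u0 u1 u2) • u0 + (det3 u0 u u2 / det3 u0 u1 u2) • u1 +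
      (det3 u0 u1 u / det3 u0 u1 u2) • u2 := by
  ext <;> simp only [Prod.fst_add, Prod.snd_add, Prod.smul_fst, Prod.smul_snd, smul_eq_mul] <;>
    field_simp <;> simp only [det3] <;> ring

theorem det3_comb0 (u0 u1 u2 : V3) (a b c : ℝ) :
    det3 (a • u0 + b • u1 + c • u2) u1 u2 = a * det3 u0 u1 u2 := by
  simp [det3]; ring

theorem det3_comb1 (u0 u1 u2 : V3) (a b c : ℝ) :
    det3 u0 (a • u0 + b • u1 + c • u2) u2 = b * det3 u0 u1 u2 := by
  simp [det3]; ring

theorem det3_comb2 (u0 u1 u2 : V3) (a b c : ℝ) :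
    det3 u0 u1 (a • u0 + b • u1 + c • u2) = c * det3 u0 u1 u2 := by
  simp [det3]; ring

theorem det3_smul0 (u0 u1 u2 : V3) (a : ℝ) : det3 (a • u0) u1 u2 = a * det3 u0 u1 u2 := by
  simp [det3]; ring

theorem comb_inj {u0 u1 u2 : V3} (h : det3 u0 u1 u2 ≠ 0) {a b c a' b' c' : ℝ}
    (e : a • u0 + b • u1 + c • u2 = a' • u0 + b' • u1 + c' • u2) : a = a' ∧ b = b' ∧ c = c' := by
  refine ⟨mul_right_cancel₀ h ?_, mul_right_cancel₀ h ?_, mul_right_cancel₀ h ?_⟩
  · rw [← det3_comb0 u0 u1 u2 a b c, e, det3_comb0]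
  · rw [← det3_comb1 u0 u1 u2 a b c, e, det3_comb1]
  · rw [← det3_comb2 u0 u1 u2 a b c, e, det3_comb2]

end Pool.Agent.Lib.MP_a25f44_gt.H43
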