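import Pool.Agent.Lib.MP_a25f44_gt.H43Loc

/-! The lifted complex as a topological space. -/

namespace Pool.Agent.Lib.MP_a25f44_gt.H43

open Set Function

def rot (t : V3) : V3 := (t.2.1, t.2.2, t.1)

theorem rot3 (t : V3) : rot (rot (rot t)) = t := rfl

theorem rot_mem {t : V3} (h : t ∈ Tri) : rot t ∈ Tri :=
  ⟨h.2.1, h.2.2.1, h.1, by have := h.2.2.2; simp only [rot]; linarith⟩

theorem e0_mem : ((1, 0, 0) : V3) ∈ Tri := ⟨zero_le_one, le_rfl, le_rfl, by simp⟩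

structure Cx (D Γ : Type) [Group Γ] where
  M : DartMap D
  L : D → Γ
  G : D → V3 → ℂ
  lab : M.IsLab L
  atl : Atlas M G
  ne : ∀ d, L d = 1 → vx M (M.nx d) ≠ vx M d

namespace Cx

variable {D Γ : Type} [Group Γ] (C : Cx D Γ)

def N (e : Γ × D) : Γ × D := (e.1 * C.L e.2, C.M.nx e.2)

def O (e : Γ × D) : Γ × D := (e.1 * C.L e.2, C.M.op e.2)

def sgm (e : Γ × D) : Γ × D := (e.1, C.M.sg e.2)

def org (e : Γ × D) : Γ × C.M.Vtx := (e.1, vx C.M e.2)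

theorem N3 (e : Γ × D) : C.N (C.N (C.N e)) = e := by
  refine Prod.ext ?_ (C.M.nx3 _)
  simp only [N]
  rw [mul_assoc, mul_assoc, ← mul_assoc (C.L e.2), C.lab.2, mul_one]

theorem O2 (e : Γ × D) : C.O (C.O e) = e := by
  refine Prod.ext ?_ (C.M.op2 _)
  simp only [O]
  rw [C.lab.1, mul_inv_cancel_right]

theorem sgm_N (e : Γ × D) : C.sgm (C.N e) = C.O e := Prod.ext rfl (sg_nx _ _)

theorem sgm_eq (e : Γ × D) : C.sgm e = C.O (C.N (C.N e)) := by rw [← sgm_N, N3]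

theorem org_sgm (e : Γ × D) : C.org (C.sgm e) = C.org e := Prod.ext rfl (vx_sg _ _)

theorem org_O (e : Γ × D) : C.org (C.O e) = C.org (C.N e) := by rw [← sgm_N, org_sgm]

theorem org_N_ne (e : Γ × D) : C.org (C.N e) ≠ C.org e := fun h =>
  C.ne e.2 (mul_eq_left.1 (congrArg Prod.fst h)) (congrArg Prod.snd h)

theorem org_NN_ne (e : Γ × D) : C.org (C.N (C.N e)) ≠ C.org e := by
  have := C.org_N_ne (C.N (C.N e))
  rw [N3] at this
  exact this.symm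

open Classical in
noncomputable def W0 (e : Γ × D) (t : V3) (v : Γ × C.M.Vtx) : ℝ × ℂ :=
  if C.org e = v then (t.1, t.1 * C.G e.2 t) else 0

noncomputable def W (e : Γ × D) (t : V3) (v : Γ × C.M.Vtx) : ℝ × ℂ :=
  C.W0 e t v + C.W0 (C.N e) (rot t) v + C.W0 (C.N (C.N e)) (rot (rot t)) v

theorem W0_zero (e : Γ × D) (a b : ℝ) (v : Γ × C.M.Vtx) : C.W0 e (0, a, b) v = 0 := by
  simp [W0]

theorem W0_sgm (e : Γ × D) {a b : ℝ} (h : ((a, 0, b) : V3) ∈ Tri) (v : Γ × C.M.Vtx) :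
    C.W0 (C.sgm e) (a, b, 0) v = C.W0 e (a, 0, b) v := by
  rw [W0, W0, org_sgm]
  simp only [sgm, C.atl.edge _ a b h]

theorem W_N (e : Γ × D) (t : V3) : C.W (C.N e) (rot t) = C.W e t := by
  ext1 v
  rw [W, W, N3, rot3]; abel

theorem W_org (e : Γ × D) (t : V3) : C.W e t (C.org e) = (t.1, t.1 * C.G e.2 t) := by
  simp [W, W0, C.org_N_ne e, C.org_NN_ne e]

theorem W_sgm (e : Γ × D) {a b : ℝ} (h : ((a, 0, b) : V3) ∈ Tri) :
    C.W (C.sgm e) (a, b, 0) = C.W e (a, 0, b) := by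
  ext1 v
  have h1 : C.N (C.N e) = C.sgm (C.N (C.sgm e)) := by rw [sgm_N, sgm_eq, O2]
  have h2 : ((b, 0, a) : V3) ∈ Tri :=
    ⟨h.2.2.1, le_rfl, h.1, by have := h.2.2.2; simp only at this ⊢; linarith⟩
  simp only [W, rot, W0_zero, add_zero]
  rw [C.W0_sgm e h, h1, C.W0_sgm _ h2]

theorem W_e0 {e e' : Γ × D} (h : C.org e = C.org e') : C.W e (1, 0, 0) = C.W e' (1, 0, 0) := by
  ext1 v
  simp only [W, rot, W0_zero, add_zero]
  rw [W0, W0, h, C.atl.zero, C.atl.zero]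

theorem W_of_rl {γ : Γ} {d d' : D} (h : vx C.M d = vx C.M d') {t t' : V3} (ht : t ∈ Tri)
    (ht' : t' ∈ Tri) (hr : Rl C.M d t d' t') : C.W (γ, d) t = C.W (γ, d') t' := by
  obtain ⟨a, b, c⟩ := t
  obtain ⟨a', b', c'⟩ := t'
  have s1 := ht.2.2.2
  have s2 := ht'.2.2.2
  rcases hr with ⟨rfl, h2⟩ | ⟨h1, h2, h3, h4⟩ | ⟨h1, h2, h3, rfl⟩ | ⟨h1, h2, h3, rfl⟩
  · rw [h2]
  · simp only at h1 h2 h3 h4 s1 s2
    subst h1 h2 h3 h4
    obtain rfl : a = 1 := by linarith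
    obtain rfl : a' = 1 := by linarith
    exact C.W_e0 (Prod.ext rfl h)
  · simp only at h1 h2 h3 s1 s2
    subst h1 h2 h3
    obtain rfl : a = a' := by linarith
    exact (C.W_sgm (γ, d) ht).symm
  · simp only at h1 h2 h3 s1 s2
    subst h1 h2 h3
    obtain rfl : a = a' := by linarith
    exact C.W_sgm (γ, d') ht'

theorem W_smul (δ γ : Γ) (d : D) (t : V3) (v : Γ × C.M.Vtx) :
    C.W (δ * γ, d) t v = C.W (γ, d) t (δ⁻¹ * v.1, v.2) := by
  have : ∀ γ d t, C.W0 (δ * γ, d) t v = C.W0 (γ, d) t (δ⁻¹ * v.1, v.2) := by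
    intro γ d t
    have : C.org (δ * γ, d) = v ↔ C.org (γ, d) = (δ⁻¹ * v.1, v.2) := by
      simp only [org, Prod.ext_iff, eq_inv_mul_iff_mul_eq]
    rw [W0, W0]
    by_cases h : C.org (δ * γ, d) = v
    · rw [if_pos h, if_pos (this.1 h)]
    · rw [if_neg h, if_neg (mt this.2 h)]
  simp only [W, N, mul_assoc, this]

theorem continuousOn_W (e : Γ × D) : ContinuousOn (C.W e) Tri := by
  have h0 : ∀ e v, ContinuousOn (fun t => C.W0 e t v) Tri := by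
    intro e v
    unfold W0
    split_ifs
    · exact ContinuousOn.prodMk (by fun_prop) (ContinuousOn.mul (by fun_prop) (C.atl.cont _))
    · exact continuousOn_const
  have hr : Continuous rot := by unfold rot; fun_prop
  refine continuousOn_pi.2 fun v => ((h0 e v).add ?_).add ?_
  · exact (h0 _ v).comp hr.continuousOn fun _ => rot_mem
  · exact (h0 _ v).comp (hr.comp hr).continuousOn fun _ h => rot_mem (rot_mem h)

/-- the space -/
def X : Type := {x : Γ × C.M.Vtx → ℝ × ℂ // ∃ e, ∃ t ∈ Tri, C.W e t = x}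

noncomputable instance : TopologicalSpace C.X := instTopologicalSpaceSubtype

instance : T2Space C.X := inferInstanceAs (T2Space (Subtype _))

instance : MulAction Γ C.X where
  smul δ x := ⟨fun v => x.1 (δ⁻¹ * v.1, v.2), by
    obtain ⟨⟨γ, d⟩, t, ht, h⟩ := x.2
    exact ⟨(δ * γ, d), t, ht, funext fun v => by rw [W_smul, h]⟩⟩
  one_smul x := Subtype.ext (funext fun v => by change x.1 _ = _; simp)
  mul_smul a b x := Subtype.ext (funext fun v => by change x.1 _ = x.1 _; simp [mul_assoc])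

theorem smul_val (δ : Γ) (x : C.X) (v : Γ × C.M.Vtx) : (δ • x).1 v = x.1 (δ⁻¹ * v.1, v.2) := rfl

instance : ContinuousConstSMul Γ C.X :=
  ⟨fun δ => Topology.IsInducing.subtypeVal.continuous_iff.2
    (continuous_pi fun v => (continuous_apply (δ⁻¹ * v.1, v.2)).comp continuous_subtype_val)⟩

open Classical in
noncomputable def pt (e : Γ × D) (t : V3) : C.X :=
  if h : t ∈ Tri then ⟨C.W e t, e, t, h, rfl⟩ else ⟨C.W e (1, 0, 0), e, _, e0_mem, rfl⟩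

theorem pt_val (e : Γ × D) {t : V3} (h : t ∈ Tri) : (C.pt e t).1 = C.W e t := by
  rw [pt, dif_pos h]

theorem pt_eq {e e' : Γ × D} {t t' : V3} (h : t ∈ Tri) (h' : t' ∈ Tri) :
    C.pt e t = C.pt e' t' ↔ C.W e t = C.W e' t' := by
  rw [← C.pt_val e h, ← C.pt_val e' h']; exact Subtype.ext_iff

theorem continuousOn_pt (e : Γ × D) : ContinuousOn (C.pt e) Tri :=
  Topology.IsInducing.subtypeVal.continuousOn_iff.2
    ((C.continuousOn_W e).congr fun _ h => C.pt_val e h)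

theorem exists_pt (x : C.X) : ∃ e, ∃ t ∈ Tri, C.pt e t = x := by
  obtain ⟨e, t, ht, h⟩ := x.2
  exact ⟨e, t, ht, Subtype.ext ((C.pt_val e ht).trans h)⟩

theorem pt_N (e : Γ × D) {t : V3} (h : t ∈ Tri) : C.pt (C.N e) (rot t) = C.pt e t :=
  (C.pt_eq (rot_mem h) h).2 (C.W_N e t)

theorem pt_e0 {e e' : Γ × D} (h : C.org e = C.org e') : C.pt e (1, 0, 0) = C.pt e' (1, 0, 0) :=
  (C.pt_eq e0_mem e0_mem).2 (C.W_e0 h)

theorem pt_O (e : Γ × D) {a b : ℝ} (h : ((a, b, 0) : V3) ∈ Tri) :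
    C.pt (C.O e) (b, a, 0) = C.pt e (a, b, 0) := by
  rw [← C.pt_N e h, ← sgm_N]
  have h2 := rot_mem h
  exact (C.pt_eq ⟨h.2.1, h.1, le_rfl, by have := h.2.2.2; simp only at this ⊢; linarith⟩ h2).2
    (C.W_sgm _ h2)

theorem smul_pt (δ γ : Γ) (d : D) {t : V3} (h : t ∈ Tri) :
    δ • C.pt (γ, d) t = C.pt (δ * γ, d) t :=
  Subtype.ext (funext fun v => by rw [smul_val, C.pt_val _ h, C.pt_val _ h, W_smul])

/-- the open star -/
def U (v : Γ × C.M.Vtx) : Set C.X := {x | 0 < (x.1 v).1}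

noncomputable def chi (v : Γ × C.M.Vtx) (x : C.X) : ℂ := (x.1 v).2 / (x.1 v).1

theorem continuous_ev (v : Γ × C.M.Vtx) : Continuous fun x : C.X => x.1 v :=
  (continuous_apply _).comp continuous_subtype_val

theorem isOpen_U (v : Γ × C.M.Vtx) : IsOpen (C.U v) :=
  isOpen_lt continuous_const (C.continuous_ev v).fst

theorem smul_mem_U {δ : Γ} {x : C.X} {v : Γ × C.M.Vtx} (h : x ∈ C.U v) :
    δ • x ∈ C.U (δ * v.1, v.2) := by
  change 0 < ((δ • x).1 _).1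
  rw [smul_val]; simp only [inv_mul_cancel_left]; exact h

theorem pt_mem_U (e : Γ × D) {t : V3} (h : t ∈ Tri) (h0 : 0 < t.1) : C.pt e t ∈ C.U (C.org e) := by
  change 0 < ((C.pt e t).1 _).1
  rwa [C.pt_val e h, W_org]

theorem chi_pt (e : Γ × D) {t : V3} (h : t ∈ Tri) (h0 : 0 < t.1) :
    C.chi (C.org e) (C.pt e t) = C.G e.2 t := by
  rw [chi, C.pt_val e h, W_org]
  exact mul_div_cancel_left₀ _ (by exact_mod_cast h0.ne')

theorem mem_U_cases {e : Γ × D} {t : V3} (h : t ∈ Tri) {v : Γ × C.M.Vtx}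
    (hv : C.pt e t ∈ C.U v) : (C.org e = v ∧ 0 < t.1) ∨ (C.org (C.N e) = v ∧ 0 < t.2.1) ∨
      (C.org (C.N (C.N e)) = v ∧ 0 < t.2.2) := by
  have h0 : ∀ e t, ¬ (C.org e = v ∧ 0 < t.1) → (C.W0 e t v).1 ≤ 0 := by
    intro e t h
    rw [W0]
    split_ifs with h1
    · exact not_lt.1 fun h2 => h ⟨h1, h2⟩
    · exact le_rfl
  by_contra hc
  simp only [not_or] at hc
  change 0 < ((C.pt e t).1 _).1 at hv
  rw [C.pt_val e h, W, Prod.fst_add, Prod.fst_add] at hv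
  linarith [h0 e t hc.1, h0 _ (rot t) hc.2.1, h0 _ (rot (rot t)) hc.2.2]

theorem exists_pt_U {x : C.X} {v : Γ × C.M.Vtx} (hv : x ∈ C.U v) :
    ∃ e, ∃ t ∈ Tri, C.org e = v ∧ 0 < t.1 ∧ C.pt e t = x := by
  obtain ⟨e, t, ht, rfl⟩ := C.exists_pt x
  rcases C.mem_U_cases ht hv with h | h | h
  · exact ⟨e, t, ht, h.1, h.2, rfl⟩
  · exact ⟨_, _, rot_mem ht, h.1, h.2, C.pt_N e ht⟩
  · exact ⟨_, _, rot_mem (rot_mem ht), h.1, h.2, (C.pt_N _ (rot_mem ht)).trans (C.pt_N e ht)⟩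

theorem exists_pos {t : V3} (h : t ∈ Tri) : 0 < t.1 ∨ 0 < t.2.1 ∨ 0 < t.2.2 := by
  by_contra hc
  simp only [not_or, not_lt] at hc
  linarith [h.2.2.2, hc.1, hc.2.1, hc.2.2]

theorem exists_U (x : C.X) : ∃ v, x ∈ C.U v := by
  obtain ⟨e, t, ht, rfl⟩ := C.exists_pt x
  rcases exists_pos ht with h | h | h
  · exact ⟨_, C.pt_mem_U e ht h⟩
  · exact ⟨_, C.pt_N e ht ▸ C.pt_mem_U _ (rot_mem ht) h⟩
  · exact ⟨_, C.pt_N e ht ▸ C.pt_N _ (rot_mem ht) ▸ C.pt_mem_U _ (rot_mem (rot_mem ht)) h⟩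

theorem pt_of_G {e e' : Γ × D} (h : C.org e = C.org e') {t t' : V3} (ht : t ∈ Tri)
    (ht' : t' ∈ Tri) (hG : C.G e.2 t = C.G e'.2 t') : C.pt e t = C.pt e' t' := by
  obtain ⟨γ, d⟩ := e
  obtain ⟨γ', d'⟩ := e'
  obtain rfl : γ = γ' := congrArg Prod.fst h
  have h2 : vx C.M d = vx C.M d' := congrArg Prod.snd h
  exact (C.pt_eq ht ht').2 (C.W_of_rl h2 ht ht' (C.atl.rel _ _ _ _ h2 ht ht' hG))

theorem G_of_pt {e e' : Γ × D} (h : C.org e = C.org e') {t t' : V3} (ht : t ∈ Tri)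
    (ht' : t' ∈ Tri) (h0 : 0 < t.1) (h0' : 0 < t'.1) (hp : C.pt e t = C.pt e' t') :
    C.G e.2 t = C.G e'.2 t' := by
  rw [← C.chi_pt e ht h0, ← C.chi_pt e' ht' h0', h, hp]

theorem exists_chart [Finite D] (v : Γ × C.M.Vtx) : ∃ c : OpenPartialHomeomorph C.X ℂ,
    c.source = C.U v ∧ c.target = img C.M C.G v.2 ∧ ⇑c = C.chi v := by
  have : Nonempty C.X := ⟨C.pt (1, Quotient.out v.2) 0⟩
  have hb : BijOn (C.chi v) (C.U v) (img C.M C.G v.2) := by
    refine ⟨fun x hx => ?_, fun x hx y hy h => ?_, ?_⟩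
    · obtain ⟨e, t, ht, rfl, h0, rfl⟩ := C.exists_pt_U hx
      exact ⟨e.2, rfl, t, ht, h0, (C.chi_pt e ht h0).symm⟩
    · obtain ⟨e, t, ht, rfl, h0, rfl⟩ := C.exists_pt_U hx
      obtain ⟨e', t', ht', he, h0', rfl⟩ := C.exists_pt_U hy
      rw [C.chi_pt e ht h0, ← he, C.chi_pt e' ht' h0'] at h
      exact C.pt_of_G he.symm ht ht' h
    · rintro w ⟨d, hd, t, ht, h0, rfl⟩
      have ho : C.org (v.1, d) = v := Prod.ext rfl hd
      exact ⟨_, ho ▸ C.pt_mem_U (v.1, d) ht h0, ho ▸ C.chi_pt (v.1, d) ht h0⟩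
  refine ⟨⟨⟨hb.toPartialEquiv _ _ _, ?_, ?_⟩, C.isOpen_U v, C.atl.opn _⟩, rfl, rfl, rfl⟩
  · exact ContinuousOn.div (C.continuous_ev v).snd.continuousOn
      (Complex.continuous_ofReal.comp (C.continuous_ev v).fst).continuousOn
      fun x hx => by exact_mod_cast (show 0 < (x.1 v).1 from hx).ne'
  · refine continuousOn_iff_isClosed.2 fun T hT => ⟨⋃ d : {d // vx C.M d = v.2},
      C.G d '' (Tri ∩ C.pt (v.1, d) ⁻¹' T), isClosed_iUnion_of_finite fun d => ?_, ?_⟩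
    · refine IsCompact.isClosed (IsCompact.image_of_continuousOn ?_
        ((C.atl.cont _).mono inter_subset_left))
      exact isCompact_Tri.of_isClosed_subset ((C.continuousOn_pt _).preimage_isClosed_of_isClosed
        isCompact_Tri.isClosed hT) inter_subset_left
    · ext w
      refine and_congr_left ?_
      rintro ⟨d, hd, t, ht, h0, rfl⟩
      have ho : C.org (v.1, d) = v := Prod.ext rfl hd
      have h1 : invFunOn (C.chi v) (C.U v) (C.G d t) = C.pt (v.1, d) t := by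
        have h2 := C.chi_pt (v.1, d) ht h0
        have h3 := C.pt_mem_U (v.1, d) ht h0
        rw [ho] at h2 h3
        rw [← h2]
        exact hb.invOn_invFunOn.1 h3
      change invFunOn (C.chi v) (C.U v) (C.G d t) ∈ T ↔ _
      rw [h1, mem_iUnion]
      constructor
      · exact fun h => ⟨⟨d, hd⟩, t, ⟨ht, h⟩, rfl⟩
      · rintro ⟨⟨d', hd'⟩, t', ⟨ht', h⟩, hG⟩
        rwa [← C.pt_of_G (e := (v.1, d')) (e' := (v.1, d)) (Prod.ext rfl (hd'.trans hd.symm))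
          ht' ht hG]

theorem exists_lift {α : Type} (F : Γ × D → V3 → α)
    (h1 : ∀ e, ∀ t ∈ Tri, F (C.N e) (rot t) = F e t)
    (h2 : ∀ e e', ∀ t ∈ Tri, ∀ t' ∈ Tri, C.org e = C.org e' → 0 < t.1 → 0 < t'.1 →
      C.pt e t = C.pt e' t' → F e t = F e' t') :
    ∃ f : C.X → α, ∀ e, ∀ t ∈ Tri, f (C.pt e t) = F e t := by
  have h3 : ∀ e e', ∀ t ∈ Tri, ∀ t' ∈ Tri, 0 < t.1 → C.pt e t = C.pt e' t' → F e t = F e' t' := by
    intro e e' t ht t' ht' h0 hp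
    rcases C.mem_U_cases ht' (hp ▸ C.pt_mem_U e ht h0) with h | h | h
    · exact h2 e e' t ht t' ht' h.1.symm h0 h.2 hp
    · rw [← h1 e' t' ht']
      exact h2 _ _ t ht _ (rot_mem ht') h.1.symm h0 h.2 (hp.trans (C.pt_N _ ht').symm)
    · rw [← h1 e' t' ht', ← h1 _ _ (rot_mem ht')]
      exact h2 _ _ t ht _ (rot_mem (rot_mem ht')) h.1.symm h0 h.2
        (hp.trans ((C.pt_N _ (rot_mem ht')).trans (C.pt_N _ ht')).symm)
  choose e t ht hp using C.exists_pt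
  refine ⟨fun x => F (e x) (t x), fun e' t' ht' => Eq.symm ?_⟩
  rcases exists_pos ht' with h | h | h
  · exact h3 _ _ _ ht' _ (ht _) h (hp _).symm
  · rw [← h1 e' t' ht']
    exact h3 _ _ _ (rot_mem ht') _ (ht _) h ((C.pt_N _ ht').trans (hp _).symm)
  · rw [← h1 e' t' ht', ← h1 _ _ (rot_mem ht')]
    exact h3 _ _ _ (rot_mem (rot_mem ht')) _ (ht _) h
      ((C.pt_N _ (rot_mem ht')).trans ((C.pt_N _ ht').trans (hp _).symm))

end Cx

end Pool.Agent.Lib.MP_a25f44_gt.H43
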