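import Pool.Agent.Lib.MP_a25f44_gt.Defs

/-! Hyperboloid vectors, the disc chart, angles. -/

namespace Pool.Agent.Lib.MP_a25f44_gt.H43

open scoped MatrixGroups UpperHalfPlane ComplexConjugate
open Complex

abbrev V3 := ℝ × ℝ × ℝ

noncomputable def vec (z : ℍ) : V3 := (1 / z.im, z.re / z.im, normSq z / z.im)

def Cone (u : V3) : Prop := 0 < u.1 ∧ u.2.1 ^ 2 < u.1 * u.2.2

def det3 (u v w : V3) : ℝ :=
  u.1 * (v.2.1 * w.2.2 - v.2.2 * w.2.1) - u.2.1 * (v.1 * w.2.2 - v.2.2 * w.1) +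
    u.2.2 * (v.1 * w.2.1 - v.2.1 * w.1)

theorem normSq_eq (z : ℍ) : normSq (z : ℂ) = z.re ^ 2 + z.im ^ 2 := by
  rw [normSq_apply]; simp; ring

theorem vec_q (z : ℍ) : (vec z).1 * (vec z).2.2 - (vec z).2.1 ^ 2 = 1 := by
  have := z.im_pos
  simp only [vec, normSq_eq]; field_simp; ring

theorem cone_vec (z : ℍ) : Cone (vec z) := by
  have := z.im_pos
  refine ⟨by simp only [vec]; positivity, ?_⟩
  have := vec_q z; linarith

theorem Cone.smul {u : V3} (hu : Cone u) {r : ℝ} (hr : 0 < r) : Cone (r • u) := by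
  obtain ⟨h1, h2⟩ := hu
  refine ⟨by simp; positivity, ?_⟩
  simp only [Prod.smul_fst, Prod.smul_snd, smul_eq_mul]
  nlinarith [mul_pos hr hr]

theorem Cone.add {u v : V3} (hu : Cone u) (hv : Cone v) : Cone (u + v) := by
  obtain ⟨h1, h2⟩ := hu
  obtain ⟨h3, h4⟩ := hv
  refine ⟨by simp; positivity, ?_⟩
  simp only [Prod.fst_add, Prod.snd_add]
  have : 2 * u.2.1 * v.2.1 ≤ u.1 * v.2.2 + v.1 * u.2.2 := by
    have h5 : 0 < u.1 * v.1 := mul_pos h1 h3
    by_contra hc
    push Not at hc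
    nlinarith [sq_nonneg (u.2.1 * v.1 - v.2.1 * u.1), mul_pos h1 h1, mul_pos h3 h3,
      mul_lt_mul_of_pos_left h2 (mul_pos h3 h3), mul_lt_mul_of_pos_left h4 (mul_pos h1 h1),
      mul_lt_mul_of_pos_left hc h5]
  nlinarith

theorem cone_comb {u v w : V3} (hu : Cone u) (hv : Cone v) (hw : Cone w) {a b c : ℝ}
    (ha : 0 ≤ a) (hb : 0 ≤ b) (hc : 0 ≤ c) (h : a + b + c = 1) : Cone (a • u + b • v + c • w) := by
  rcases ha.eq_or_lt with rfl | ha <;> rcases hb.eq_or_lt with rfl | hb <;>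
    rcases hc.eq_or_lt with rfl | hc
  · norm_num at h
  · simpa using hw.smul hc
  · simpa using hv.smul hb
  · simpa using (hv.smul hb).add (hw.smul hc)
  · simpa using hu.smul ha
  · simpa using (hu.smul ha).add (hw.smul hc)
  · simpa using (hu.smul ha).add (hv.smul hb)
  · exact ((hu.smul ha).add (hv.smul hb)).add (hw.smul hc)

noncomputable def nrm (u : V3) : ℝ := √(u.1 * u.2.2 - u.2.1 ^ 2)

theorem Cone.nrm_pos {u : V3} (hu : Cone u) : 0 < nrm u := Real.sqrt_pos.2 (by linarith [hu.2])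

theorem Cone.nrm_sq {u : V3} (hu : Cone u) : nrm u ^ 2 = u.1 * u.2.2 - u.2.1 ^ 2 :=
  Real.sq_sqrt (by linarith [hu.2])

open Classical in
noncomputable def proj (u : V3) : ℍ :=
  if h : Cone u then ⟨⟨u.2.1 / u.1, nrm u / u.1⟩, div_pos h.nrm_pos h.1⟩ else UpperHalfPlane.I

theorem proj_re {u : V3} (h : Cone u) : (proj u).re = u.2.1 / u.1 := by
  simp [proj, h, UpperHalfPlane.re]

theorem proj_im {u : V3} (h : Cone u) : (proj u).im = nrm u / u.1 := by
  simp [proj, h, UpperHalfPlane.im]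

theorem smul_vec_proj {u : V3} (h : Cone u) : nrm u • vec (proj u) = u := by
  have h1 := h.1
  have h2 := h.nrm_pos
  have h3 := h.nrm_sq
  ext
  · simp only [vec, proj_im h, Prod.smul_fst, smul_eq_mul]; field_simp
  · simp only [vec, proj_im h, proj_re h, Prod.smul_fst, Prod.smul_snd, smul_eq_mul]; field_simp
  · simp only [vec, normSq_eq, proj_im h, proj_re h, Prod.smul_snd, smul_eq_mul]; field_simp
    nlinarith

theorem proj_smul_vec (z : ℍ) {r : ℝ} (hr : 0 < r) : proj (r • vec z) = z := by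
  have hc := (cone_vec z).smul hr
  have hz := z.im_pos
  have hn : nrm (r • vec z) = r := by
    have := vec_q z
    unfold nrm
    rw [show (r • vec z).1 * (r • vec z).2.2 - (r • vec z).2.1 ^ 2 = r ^ 2 by
      simp only [Prod.smul_fst, Prod.smul_snd, smul_eq_mul]; linear_combination r ^ 2 * this]
    exact Real.sqrt_sq hr.le
  apply UpperHalfPlane.ext_re_im
  · rw [proj_re hc]; simp only [vec, Prod.smul_fst, Prod.smul_snd, smul_eq_mul]; field_simp
  · rw [proj_im hc, hn]; simp only [vec, Prod.smul_fst, smul_eq_mul]; field_simp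

theorem det3_vec (z v w : ℍ) : det3 (vec z) (vec v) (vec w) = ori z v w / (z.im * v.im * w.im) := by
  have := z.im_pos; have := v.im_pos; have := w.im_pos
  simp only [det3, vec, ori]; field_simp; ring

theorem det3_vec_pos {z v w : ℍ} : 0 < det3 (vec z) (vec v) (vec w) ↔ 0 < ori z v w := by
  have := z.im_pos; have := v.im_pos; have := w.im_pos
  rw [det3_vec]; exact div_pos_iff_of_pos_right (by positivity)

theorem ori_cyc (z v w : ℍ) : ori v w z = ori z v w := by simp only [ori]; ring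

/-- the adjoint action -/
def ad (A : SL(2, ℝ)) (u : V3) : V3 :=
  (A 1 1 ^ 2 * u.1 + 2 * A 1 0 * A 1 1 * u.2.1 + A 1 0 ^ 2 * u.2.2,
    A 0 1 * A 1 1 * u.1 + (A 0 0 * A 1 1 + A 0 1 * A 1 0) * u.2.1 + A 0 0 * A 1 0 * u.2.2,
    A 0 1 ^ 2 * u.1 + 2 * A 0 0 * A 0 1 * u.2.1 + A 0 0 ^ 2 * u.2.2)

theorem sl_det (A : SL(2, ℝ)) : A 0 0 * A 1 1 - A 0 1 * A 1 0 = 1 := by
  have := A.det_coe; rwa [Matrix.det_fin_two] at this

theorem den_ne (A : SL(2, ℝ)) (z : ℍ) : (A 1 0 : ℂ) * z + A 1 1 ≠ 0 := by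
  intro h
  have h1 := congrArg Complex.im h
  have h2 := congrArg Complex.re h
  simp at h1 h2
  have := z.im_pos
  have hd := sl_det A
  rcases h1 with h1 | h1
  · rw [h1] at h2 hd; simp at h2; rw [h2] at hd; simp at hd
  · linarith

theorem coe_smul' (A : SL(2, ℝ)) (z : ℍ) :
    ((A • z : ℍ) : ℂ) = ((A 0 0 : ℂ) * z + A 0 1) / ((A 1 0 : ℂ) * z + A 1 1) := by
  rw [UpperHalfPlane.coe_specialLinearGroup_apply]; simp

theorem vec_smul (A : SL(2, ℝ)) (z : ℍ) : vec (A • z) = ad A (vec z) := by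
  have hd := sl_det A
  have hn := den_ne A z
  have hz := z.im_pos
  set N : ℝ := (A 1 0 * z.re + A 1 1) ^ 2 + (A 1 0 * z.im) ^ 2 with hN
  have hNe : normSq ((A 1 0 : ℂ) * z + A 1 1) = N := by rw [normSq_apply]; simp [hN]; ring
  have hN0 : 0 < N := by rw [← hNe]; exact normSq_pos.2 hn
  have him : (A • z).im = z.im / N := by
    rw [← UpperHalfPlane.coe_im, coe_smul', Complex.div_im, hNe]; simp; field_simp
    linear_combination hd
  have hre : (A • z).re = ((A 0 0 * z.re + A 0 1) * (A 1 0 * z.re + A 1 1) +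
      A 0 0 * A 1 0 * z.im ^ 2) / N := by
    rw [← UpperHalfPlane.coe_re, coe_smul', Complex.div_re, hNe]; simp; field_simp
  have hns : normSq ((A • z : ℍ) : ℂ) = ((A 0 0 * z.re + A 0 1) ^ 2 + (A 0 0 * z.im) ^ 2) / N := by
    rw [coe_smul', normSq_div, hNe, normSq_apply]; simp; ring
  ext
  · simp only [vec, ad, him, normSq_eq]; field_simp; rw [hN]; ring
  · simp only [vec, ad, him, hre, normSq_eq]; field_simp; ring
  · simp only [vec, ad]; rw [hns, him, normSq_eq]; field_simp; ring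

theorem ad_add (A : SL(2, ℝ)) (u v : V3) : ad A (u + v) = ad A u + ad A v := by
  ext <;> simp [ad] <;> ring

theorem ad_smul (A : SL(2, ℝ)) (r : ℝ) (u : V3) : ad A (r • u) = r • ad A u := by
  ext <;> simp [ad] <;> ring

theorem proj_ad (A : SL(2, ℝ)) {u : V3} (h : Cone u) : proj (ad A u) = A • proj u := by
  conv_lhs => rw [← smul_vec_proj h, ad_smul, ← vec_smul]
  exact proj_smul_vec _ h.nrm_pos

theorem det3_ad (A : SL(2, ℝ)) (u v w : V3) : det3 (ad A u) (ad A v) (ad A w) = det3 u v w := by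
  have hd := sl_det A
  have : det3 (ad A u) (ad A v) (ad A w) = (A 0 0 * A 1 1 - A 0 1 * A 1 0) ^ 3 * det3 u v w := by
    simp only [det3, ad]; ring
  rw [this, hd]; ring

theorem ori_smul_pos (A : SL(2, ℝ)) {z v w : ℍ} (h : 0 < ori z v w) :
    0 < ori (A • z) (A • v) (A • w) := by
  rw [← det3_vec_pos] at h ⊢
  rwa [vec_smul, vec_smul, vec_smul, det3_ad]

/-- linear form giving the direction seen from `z` -/
noncomputable def lin (z : ℍ) (u : V3) : ℂ := u.2.2 - 2 * z * u.2.1 + z ^ 2 * u.1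

theorem lin_add (z : ℍ) (u v : V3) : lin z (u + v) = lin z u + lin z v := by
  simp [lin]; ring

theorem lin_smul (z : ℍ) (r : ℝ) (u : V3) : lin z (r • u) = r * lin z u := by
  simp [lin]; ring

theorem lin_vec (z w : ℍ) : lin z (vec w) = ((w : ℂ) - z) * (conj (w : ℂ) - z) / w.im := by
  have hw : (w.im : ℂ) ≠ 0 := by exact_mod_cast w.im_pos.ne'
  have h1 : (normSq (w : ℂ) : ℂ) = w * conj (w : ℂ) := (mul_conj _).symm
  have h2 : (w.re : ℂ) = ((w : ℂ) + conj (w : ℂ)) / 2 := by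
    rw [add_conj]; simp
  simp only [lin, vec]; push_cast; rw [h1, h2]; field_simp; ring

theorem lin_self (z : ℍ) : lin z (vec z) = 0 := by rw [lin_vec]; simp

theorem sub_conj_ne (z w : ℍ) : (w : ℂ) - conj (z : ℂ) ≠ 0 := by
  intro h
  have := congrArg Complex.im h
  simp at this
  linarith [z.im_pos, w.im_pos]

theorem cay_eq (z w : ℍ) :
    cay z w = ((w.im / normSq ((w : ℂ) - conj (z : ℂ)) : ℝ) : ℂ) * lin z (vec w) := by
  have hw : (w.im : ℂ) ≠ 0 := by exact_mod_cast w.im_pos.ne'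
  have h := sub_conj_ne z w
  have h' : conj (w : ℂ) - z ≠ 0 := by
    intro h0; apply h
    have := congrArg conj h0
    simpa using this
  rw [lin_vec, cay]; push_cast
  rw [← mul_conj]; simp only [map_sub, conj_conj]; field_simp

theorem exists_cay_vec (z w : ℍ) : ∃ κ : ℝ, 0 < κ ∧ cay z w = κ * lin z (vec w) :=
  ⟨_, div_pos w.im_pos (normSq_pos.2 (sub_conj_ne z w)), cay_eq z w⟩

theorem exists_cay_proj (z : ℍ) {u : V3} (h : Cone u) :
    ∃ κ : ℝ, 0 < κ ∧ cay z (proj u) = κ * lin z u := by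
  obtain ⟨κ, hκ, e⟩ := exists_cay_vec z (proj u)
  refine ⟨κ / nrm u, div_pos hκ h.nrm_pos, ?_⟩
  have hn : (nrm u : ℂ) ≠ 0 := by exact_mod_cast h.nrm_pos.ne'
  conv_rhs => rw [← smul_vec_proj h]
  rw [e, lin_smul, smul_vec_proj h]; push_cast; field_simp

theorem im_lin (z : ℍ) (v w : V3) :
    (lin z w * conj (lin z v)).im = 2 * z.im ^ 2 * det3 (vec z) v w := by
  have := z.im_pos
  simp only [lin, det3, vec, normSq_eq]
  simp [sq]; field_simp; ring

theorem ang_eq (z v w : ℍ) : ang z v w = arg (lin z (vec w) * conj (lin z (vec v))) := by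
  obtain ⟨a, ha, e1⟩ := exists_cay_vec z w
  obtain ⟨b, hb, e2⟩ := exists_cay_vec z v
  rw [ang, e1, e2, ← arg_real_mul (lin z (vec w) * conj (lin z (vec v))) (mul_pos ha hb)]
  congr 1; simp; ring

theorem cay_smul (A : SL(2, ℝ)) (z w : ℍ) : cay (A • z) (A • w) =
    cay z w * (conj ((A 1 0 : ℂ) * z + A 1 1) / ((A 1 0 : ℂ) * z + A 1 1)) := by
  have hd : (A 0 0 : ℂ) * A 1 1 - A 0 1 * A 1 0 = 1 := by exact_mod_cast sl_det A
  have h1 := den_ne A z
  have h2 := den_ne A w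
  have h3 : (A 1 0 : ℂ) * conj (z : ℂ) + A 1 1 ≠ 0 := by
    intro h0; apply h1
    have := congrArg conj h0
    simpa using this
  have h4 := sub_conj_ne z w
  have e1 : ((A • w : ℍ) : ℂ) - (A • z : ℍ) =
      ((w : ℂ) - z) / (((A 1 0 : ℂ) * w + A 1 1) * ((A 1 0 : ℂ) * z + A 1 1)) := by
    rw [coe_smul', coe_smul', div_sub_div _ _ h2 h1]
    congr 1; linear_combination ((w : ℂ) - z) * hd
  have e2 : ((A • w : ℍ) : ℂ) - conj ((A • z : ℍ) : ℂ) = ((w : ℂ) - conj (z : ℂ)) /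
      (((A 1 0 : ℂ) * w + A 1 1) * ((A 1 0 : ℂ) * conj (z : ℂ) + A 1 1)) := by
    rw [coe_smul', coe_smul']; simp only [map_div₀, map_add, map_mul, conj_ofReal]
    rw [div_sub_div _ _ h2 h3]
    congr 1; linear_combination ((w : ℂ) - conj (z : ℂ)) * hd
  rw [cay, e1, e2, cay]; simp only [map_add, map_mul, conj_ofReal]
  generalize (A 1 0 : ℂ) * w + A 1 1 = p at *
  generalize (A 1 0 : ℂ) * z + A 1 1 = q at *
  field_simp

theorem ang_smul (A : SL(2, ℝ)) (z v w : ℍ) : ang (A • z) (A • v) (A • w) = ang z v w := by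
  have h1 := den_ne A z
  rw [ang, ang, cay_smul, cay_smul]
  generalize (A 1 0 : ℂ) * z + A 1 1 = q at *
  have h3 : conj q ≠ 0 := by simpa using h1
  congr 1
  simp only [map_mul, map_div₀, conj_conj]; field_simp

theorem ang_pos {z v w : ℍ} (h : 0 < ori z v w) : 0 < ang z v w ∧ ang z v w < Real.pi := by
  rw [ang_eq]
  have : 0 < (lin z (vec w) * conj (lin z (vec v))).im := by
    rw [im_lin]; have := det3_vec_pos.2 h; have := z.im_pos; positivity
  refine ⟨?_, ?_⟩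
  · rcases (arg_nonneg_iff.2 this.le).eq_or_lt with h0 | h0
    · have := (arg_eq_zero_iff.1 h0.symm).2; linarith
    · exact h0
  · exact arg_lt_pi_iff.2 (Or.inr this.ne')

end Pool.Agent.Lib.MP_a25f44_gt.H43
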