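import Pool.Agent.Lib.MP_a25f44_gt.H43Star

/-! Local charts around the vertices of a positive triangulation. -/

namespace Pool.Agent.Lib.MP_a25f44_gt.H43

open scoped MatrixGroups UpperHalfPlane ComplexConjugate
open Complex Set Function

theorem uinv_smul (z : ℍ) (C : ℂ) (s : ℝ) :
    uinv z (s * C) = s • uinv z C + (z.im * (1 - s) * (1 - s * normSq C)) • vec z := by
  have := z.im_pos
  ext <;> simp [uinv, vec, normSq_apply] <;> field_simp <;> ring

theorem det3_add0 (u u' v w : V3) : det3 (u + u') v w = det3 u v w + det3 u' v w := by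
  simp [det3]; ring

theorem Star.starConvex_img (S : Star) {m : ℕ} (hm : 0 < m) :
    StarConvex ℝ 0 {w | ∃ k < S.n, ∃ t ∈ Tri, 0 < t.1 ∧ S.g m k t = w} := by
  rw [starConvex_zero_iff]
  rintro w ⟨k, hk, t, ht, ht0, rfl⟩ a a0 a1
  have hC1 : ‖S.C k t‖ < 1 := by rw [S.C_eq k ht]; exact norm_cay_lt _ _
  have hr : ‖S.C k t‖ ^ ((m : ℝ)⁻¹) < 1 := Real.rpow_lt_one (norm_nonneg _) hC1 (by positivity)
  have hr0 : 0 ≤ ‖S.C k t‖ ^ ((m : ℝ)⁻¹) := by positivity
  have e : a • S.g m k t = ((a * ‖S.C k t‖ ^ ((m : ℝ)⁻¹) : ℝ) : ℂ) * ex (S.vt k t / m) := by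
    rw [Star.g]; push_cast; simp [mul_assoc]
  obtain ⟨t', ht', h0, hg⟩ := S.exists_t hm k (r := a * ‖S.C k t‖ ^ ((m : ℝ)⁻¹)) (by positivity)
    (by nlinarith) (S.vt_mem k ht) (by
      rw [← e, real_smul, mul_pow, S.g_pow hm k ht, ← ofReal_pow, uinv_smul, det3_add0,
        det3_smul0, det3_smul0]
      obtain ⟨s, hs0, hu⟩ := eq_smul_of_proj (cone_uinv S.z (norm_cay_lt S.z (proj (S.u k t))))
        (S.cone_u k ht) (proj_uinv_cay _ _)
      rw [hu, det3_smul0, Star.u, det3_comb0]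
      have hq := S.pos k
      have hN := normSq_lt (norm_cay_lt S.z (proj (S.u k t)))
      have hN0 := normSq_nonneg (cay S.z (proj (S.u k t)))
      rw [Star.u] at hN hN0
      have b0 : 0 ≤ a ^ m := by positivity
      have b1 : a ^ m ≤ 1 := pow_le_one₀ a0 a1
      have hz := S.z.im_pos
      generalize a ^ m = b at *
      generalize normSq (cay S.z (proj (t.1 • vec S.z + t.2.1 • S.a k + t.2.2 • S.a (k + 1)))) = N
        at *
      have c1 : 0 < 1 - b * N := by nlinarith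
      rcases b0.eq_or_lt with rfl | b0
      · simp only [zero_mul, sub_zero, mul_one, zero_add]; positivity
      · have : 0 ≤ 1 - b := by linarith
        positivity)
  exact ⟨k, hk, t', ht', h0, hg.trans e.symm⟩

variable {D : Type} (M : DartMap D)

/-- the vertex of a dart -/
def vx (d : D) : M.Vtx := Quotient.mk (Equiv.Perm.SameCycle.setoid M.sg) d

theorem vx_eq {d d' : D} : vx M d = vx M d' ↔ M.sg.SameCycle d d' := Quotient.eq

theorem vx_out (V : M.Vtx) : vx M (Quotient.out V) = V := Quotient.out_eq V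

theorem sg_eq (d : D) : M.sg d = M.op (M.nx (M.nx d)) := by
  change M.op (M.nx⁻¹ d) = _
  congr 1
  rw [Equiv.Perm.inv_eq_iff_eq, M.nx3]

theorem sg_nx (d : D) : M.sg (M.nx d) = M.op d := by rw [sg_eq, M.nx3]

theorem vx_sg (d : D) : vx M (M.sg d) = vx M d :=
  (vx_eq M).2 (Equiv.Perm.sameCycle_apply_left.2 (Equiv.Perm.SameCycle.refl _ _))

theorem vx_op (d : D) : vx M (M.op d) = vx M (M.nx d) := by rw [← sg_nx, vx_sg]

theorem of_vx {α : Type} [Finite D] (f : D → α) (h : ∀ d, f (M.sg d) = f d) {d d' : D}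
    (e : vx M d = vx M d') : f d = f d' := by
  obtain ⟨i, rfl⟩ := ((vx_eq M).1 e).exists_nat_pow_eq
  clear e
  induction i with
  | zero => rfl
  | succ i ih => rw [pow_succ', Equiv.Perm.mul_apply, h, ← ih]

/-- gluing relation between faces with a common first vertex -/
def Rl (d : D) (t : V3) (d' : D) (t' : V3) : Prop :=
  (d = d' ∧ t = t') ∨ (t.2.1 = 0 ∧ t.2.2 = 0 ∧ t'.2.1 = 0 ∧ t'.2.2 = 0) ∨
    (t.2.1 = 0 ∧ t'.2.2 = 0 ∧ t.2.2 = t'.2.1 ∧ d' = M.sg d) ∨
    (t'.2.1 = 0 ∧ t.2.2 = 0 ∧ t'.2.2 = t.2.1 ∧ d = M.sg d')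

def img (G : D → V3 → ℂ) (V : M.Vtx) : Set ℂ :=
  {w | ∃ d, vx M d = V ∧ ∃ t ∈ Tri, 0 < t.1 ∧ G d t = w}

structure Atlas (G : D → V3 → ℂ) : Prop where
  edge : ∀ d a b, ((a, 0, b) : V3) ∈ Tri → G (M.sg d) (a, b, 0) = G d (a, 0, b)
  rel : ∀ d d' t t', vx M d = vx M d' → t ∈ Tri → t' ∈ Tri → G d t = G d' t' → Rl M d t d' t'
  cont : ∀ d, ContinuousOn (G d) Tri
  zero : ∀ d, G d (1, 0, 0) = 0
  opn : ∀ V, IsOpen (img M G V)
  star : ∀ V, StarConvex ℝ 0 (img M G V)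

variable {Γ : Type} [Group Γ] (L : D → Γ) (ρ : Γ →* PSL(2, ℝ)) (pos : D → ℍ)

noncomputable def P1 (d : D) : ℍ := pslAct (ρ (L d)) (pos (M.nx d))

noncomputable def P2 (d : D) : ℍ := pslAct (ρ (L d * L (M.nx d))) (pos (M.nx (M.nx d)))

noncomputable def uu (d : D) (t : V3) : V3 :=
  t.1 • vec (pos d) + t.2.1 • vec (P1 M L ρ pos d) + t.2.2 • vec (P2 M L ρ pos d)

variable {M L ρ pos}

theorem pos_sg (hP : M.IsPos L ρ pos) (d : D) : pos (M.sg d) = pos d := by
  rw [sg_eq, hP.1, M.nx3]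

theorem L_sg (hL : M.IsLab L) (d : D) : L (M.sg d) = L d * L (M.nx d) := by
  rw [sg_eq, hL.1, inv_eq_iff_mul_eq_one, mul_eq_one_comm, hL.2]

theorem P1_sg (hL : M.IsLab L) (hP : M.IsPos L ρ pos) (d : D) :
    P1 M L ρ pos (M.sg d) = P2 M L ρ pos d := by
  rw [P1, P2, L_sg hL, sg_eq, ← hP.1, M.op2]

theorem pos_iter (hP : M.IsPos L ρ pos) (d : D) (k : ℕ) : pos (M.sg^[k] d) = pos d := by
  induction k with
  | zero => rfl
  | succ k ih => rw [iterate_succ_apply', pos_sg hP, ih]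

/-- the star of the origin of a dart -/
noncomputable def star [Finite D] (hL : M.IsLab L) (hP : M.IsPos L ρ pos) (d : D) : Star where
  z := pos d
  n := minimalPeriod M.sg d
  hn := minimalPeriod_pos_of_mem_periodicPts (M.sg.injective.mem_periodicPts d)
  a k := vec (P1 M L ρ pos (M.sg^[k] d))
  cone k := cone_vec _
  pos k := by
    rw [iterate_succ_apply', P1_sg hL hP, det3_vec_pos, ← pos_iter hP d k]
    exact hP.2 _
  per := by rw [iterate_minimalPeriod]; rfl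

theorem exists_atlas [Fintype D] (hL : M.IsLab L) (hP : M.IsPos L ρ pos) :
    ∃ (G : D → V3 → ℂ) (m : M.Vtx → ℕ), Atlas M G ∧
      (∀ d, ∀ t ∈ Tri, G d t ^ m (vx M d) = cay (pos d) (proj (uu M L ρ pos d t))) ∧
      ∀ V, 0 < m V ∧ ∀ s : Finset D, (∀ d, d ∈ s ↔ vx M d = V) →
        ∑ d ∈ s, M.corner L ρ pos d = 2 * Real.pi * m V := by
  let S : M.Vtx → Star := fun V => star hL hP (Quotient.out V)
  choose m hm hs using fun V => (S V).exists_m
  have hv : ∀ V k, vx M (M.sg^[k] (Quotient.out V)) = V := by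
    intro V k
    induction k with
    | zero => exact vx_out M V
    | succ k ih => rw [iterate_succ_apply', vx_sg, ih]
  have hi : ∀ d, ∃ k < (S (vx M d)).n, M.sg^[k] (Quotient.out (vx M d)) = d := by
    intro d
    obtain ⟨i, hi⟩ := ((vx_eq M).1 (vx_out M (vx M d))).exists_nat_pow_eq
    exact ⟨i % (S (vx M d)).n, Nat.mod_lt _ (S _).hn, iterate_mod_minimalPeriod_eq.trans hi⟩
  choose ix ix1 ix2 using hi
  have ix3 : ∀ V k, k < (S V).n → ix (M.sg^[k] (Quotient.out V)) = k := by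
    intro V k hk
    have h1 := ix1 (M.sg^[k] (Quotient.out V))
    have h2 := ix2 (M.sg^[k] (Quotient.out V))
    rw [hv] at h1 h2
    exact (iterate_eq_iterate_iff_of_lt_minimalPeriod h1 hk).1 h2
  have ix4 : ∀ d, ix (M.sg d) = (ix d + 1) % (S (vx M d)).n := by
    intro d
    rw [← ix3 (vx M d) _ (Nat.mod_lt (ix d + 1) (S _).hn)]
    congr 1
    refine Eq.trans ?_ iterate_mod_minimalPeriod_eq.symm
    rw [iterate_succ_apply', ix2]
  have ix5 : ∀ d d', vx M d = vx M d' → ix d' = (ix d + 1) % (S (vx M d)).n → d' = M.sg d := by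
    intro d d' h1 h2
    rw [← ix2 d', ← ix2 (M.sg d), vx_sg, ix4, ← h1, h2]
  have him : ∀ V, img M (fun d => (S (vx M d)).g (m (vx M d)) (ix d)) V =
      {w | ∃ k < (S V).n, ∃ t ∈ Tri, 0 < t.1 ∧ (S V).g (m V) k t = w} := by
    intro V
    ext w
    constructor
    · rintro ⟨d, rfl, h⟩
      exact ⟨ix d, ix1 d, h⟩
    · rintro ⟨k, hk, h⟩
      refine ⟨M.sg^[k] (Quotient.out V), hv V k, ?_⟩
      simp only [hv, ix3 V k hk]
      exact h
  refine ⟨fun d => (S (vx M d)).g (m (vx M d)) (ix d), m, ⟨?_, ?_, ?_, ?_, ?_, ?_⟩, ?_, ?_⟩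
  · intro d a b h
    simp only [vx_sg, ix4]
    exact ((S _).g_edge (hm _) (hs _) (ix1 d) h (t' := (a, b, 0))
      ⟨h.1, h.2.2.1, le_rfl, by have := h.2.2.2; simp only at this ⊢; linarith⟩ rfl rfl rfl).symm
  · intro d d' t t' e ht ht' h
    have h1 := ix1 d'
    rw [← e] at h h1
    rcases (S _).rel_of_g (hm _) (hs _) (ix1 d) h1 ht ht' h with ⟨h2, h3⟩ | h2 | ⟨a, b, c, h2⟩ |
      ⟨a, b, c, h2⟩
    · exact Or.inl ⟨by rw [← ix2 d, ← ix2 d', h2, e], h3⟩
    · exact Or.inr (Or.inl h2)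
    · exact Or.inr (Or.inr (Or.inl ⟨a, b, c, ix5 d d' e h2⟩))
    · exact Or.inr (Or.inr (Or.inr ⟨a, b, c, ix5 d' d e.symm (e ▸ h2)⟩))
  · exact fun d => (S _).continuousOn_g (hm _) _
  · exact fun d => (S _).g_zero (hm _) _ rfl rfl
  · intro V; rw [him]; exact (S V).isOpen_img (hm V) (hs V)
  · intro V; rw [him]; exact (S V).starConvex_img (hm V)
  · intro d t ht
    have h1 : (S (vx M d)).z = pos d := by
      conv_rhs => rw [← ix2 d, pos_iter hP]
      rfl
    rw [(S _).g_pow (hm _) _ ht, Star.u, h1, uu]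
    change cay _ (proj (_ + _ • vec (P1 M L ρ pos (M.sg^[ix d] _)) +
      _ • vec (P1 M L ρ pos (M.sg^[ix d + 1] _)))) = _
    rw [iterate_succ_apply', ix2, P1_sg hL hP]
  · refine fun V => ⟨hm V, fun s h => ?_⟩
    rw [← hs V]
    symm
    refine Finset.sum_bij (fun k _ => M.sg^[k] (Quotient.out V)) (fun k _ => (h _).2 (hv V k))
      (fun k hk k' hk' e => (iterate_eq_iterate_iff_of_lt_minimalPeriod (Finset.mem_range.1 hk)
        (Finset.mem_range.1 hk')).1 e) (fun d hd => ?_) (fun k _ => ?_)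
    · obtain rfl := (h d).1 hd
      exact ⟨ix d, Finset.mem_range.2 (ix1 d), ix2 d⟩
    · rw [DartMap.corner, ang_eq, pos_iter hP]
      change arg (lin _ (vec (P1 M L ρ pos (M.sg^[k + 1] _))) * _) = _
      rw [iterate_succ_apply', P1_sg hL hP]
      rfl

end Pool.Agent.Lib.MP_a25f44_gt.H43
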