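import Pool.Agent.Lib.MP_a25f44_gt.H43Top

/-! Realisation of a positive triangulation as a cone structure. -/

namespace Pool.Agent.Lib.MP_a25f44_gt

open scoped MatrixGroups UpperHalfPlane ComplexConjugate
open Set Function H43

theorem exists_sl (g : PSL(2, ℝ)) : ∃ A : SL(2, ℝ), (A : PSL(2, ℝ)) = g :=
  QuotientGroup.mk_surjective g

theorem pslAct_mul' {Γ : Type} [Group Γ] (ρ : Γ →* PSL(2, ℝ)) (a b : Γ) (z : ℍ) :
    pslAct (ρ (a * b)) z = pslAct (ρ a) (pslAct (ρ b) z) := by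
  rw [map_mul, map_mul, Equiv.Perm.mul_apply]

theorem exists_two {ι : Type} [Fintype ι] (m : ι → ℕ) (h0 : ∀ i, 0 < m i)
    (h : ∑ i, m i = Fintype.card ι + 1) : ∃ j, m j = 2 ∧ ∀ i, i ≠ j → m i = 1 := by
  classical
  have h1 : ∑ i, (m i - 1) = 1 := by
    have : ∑ i, m i = ∑ i, (m i - 1 + 1) :=
      Finset.sum_congr rfl fun i _ => by have := h0 i; omega
    rw [this, Finset.sum_add_distrib] at h
    simp at h
    omega
  obtain ⟨j, -, hj⟩ := Finset.exists_ne_zero_of_sum_ne_zero (h1.trans_ne one_ne_zero)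
  have h2 := Finset.single_le_sum (f := fun i => m i - 1) (fun _ _ => Nat.zero_le _)
    (Finset.mem_univ j)
  refine ⟨j, by omega, fun i hi => ?_⟩
  have h3 := Finset.add_le_sum (f := fun i => m i - 1) (fun _ _ => Nat.zero_le _)
    (Finset.mem_univ i) (Finset.mem_univ j) hi
  have := h0 i
  omega

theorem realise {D : Type} [Fintype D] [Nonempty D] (M : DartMap D) {Γ : Type} [Group Γ]
    (L : D → Γ) (ρ : Γ →* PSL(2, ℝ)) (pos : D → ℍ) (hL : M.IsLab L) (hU : M.Univ L)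
    (hC : M.Conn L) (hP : M.IsPos L ρ pos)
    (hA : ∑ d, M.corner L ρ pos d = 2 * Real.pi * (Nat.card M.Vtx + 1)) : IsConeHolonomy ρ := by
  classical
  obtain ⟨G, m, hG, hpow, hm⟩ := exists_atlas hL hP
  have hpv : ∀ d d', vx M d = vx M d' → pos d = pos d' := fun d d' => of_vx M pos (pos_sg hP)
  let C : Cx D Γ := ⟨M, L, G, hL, hG, fun d h1 h2 => by
    have := hP.2 d
    rw [h1, map_one, map_one, hpv _ _ h2] at this
    simp [ori] at this⟩
  have hcone : ∀ d, ∀ t ∈ Tri, Cone (uu M L ρ pos d t) := fun d t ht =>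
    cone_comb (cone_vec _) (cone_vec _) (cone_vec _) ht.1 ht.2.1 ht.2.2.1 ht.2.2.2
  obtain ⟨F, hF⟩ := C.exists_lift (fun e t => pslAct (ρ e.1) (proj (uu M L ρ pos e.2 t)))
    (fun e t ht => by
      obtain ⟨A, hA⟩ := exists_sl (ρ (L e.2))
      change pslAct (ρ (e.1 * L e.2)) (proj (uu M L ρ pos (M.nx e.2) (rot t))) = _
      rw [pslAct_mul', ← hA, pslAct_mk, ← proj_ad A (hcone _ _ (rot_mem ht))]
      congr 2
      rw [uu, uu, ad_add, ad_add, ad_smul, ad_smul, ad_smul, ← vec_smul, ← vec_smul, ← vec_smul,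
        ← pslAct_mk, ← pslAct_mk, ← pslAct_mk, hA, P1, P2, P1, P2, ← pslAct_mul', ← pslAct_mul',
        ← mul_assoc, hL.2, M.nx3, map_one, map_one, Equiv.Perm.one_apply]
      simp only [rot]
      abel)
    (fun e e' t ht t' ht' ho h0 h0' hp => by
      have h1 := C.G_of_pt ho ht ht' h0 h0' hp
      have h2 : vx M e.2 = vx M e'.2 := congrArg Prod.snd ho
      have h3 : e.1 = e'.1 := (Prod.ext_iff.1 ho).1
      have h4 := hpow e.2 t ht
      change G e.2 t = G e'.2 t' at h1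
      rw [h1, h2, hpow e'.2 t' ht', hpv _ _ h2] at h4
      rw [cay_injective _ h4, h3])
  have : Finite M.Vtx := Quotient.finite _
  have := Fintype.ofFinite M.Vtx
  obtain ⟨V, hV2, hV1⟩ := exists_two m (fun V => (hm V).1) (by
    rw [← Finset.sum_fiberwise Finset.univ (vx M), Finset.sum_congr rfl
      (fun V _ => (hm V).2 _ (by simp)), ← Finset.mul_sum, Nat.card_eq_fintype_card] at hA
    exact_mod_cast mul_left_cancel₀ (by positivity) hA)
  have hloc : ∀ v, ∀ x ∈ C.U v, ∃ w, F x = pslAct (ρ v.1) w ∧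
      cay (pos (Quotient.out v.2)) w = C.chi v x ^ m v.2 := by
    intro v x hx
    obtain ⟨e, t, ht, rfl, h0, rfl⟩ := C.exists_pt_U hx
    refine ⟨_, hF e t ht, ?_⟩
    rw [C.chi_pt e ht h0]
    exact (hpv _ _ (vx_out M (vx M e.2))) ▸ (hpow e.2 t ht).symm
  have ho : ∀ γ, C.org (γ, Quotient.out V) = (γ, V) := fun γ => Prod.ext rfl (vx_out M V)
  have hp1 : ∀ γ, C.pt (γ, Quotient.out V) (1, 0, 0) ∈ C.U (γ, V) := fun γ =>
    ho γ ▸ C.pt_mem_U _ e0_mem one_pos
  have hp2 : ∀ γ, C.chi (γ, V) (C.pt (γ, Quotient.out V) (1, 0, 0)) = 0 := fun γ =>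
    (ho γ ▸ C.chi_pt _ e0_mem one_pos).trans (hG.zero _)
  refine ⟨C.X, inferInstance, inferInstance, F, C.pt (1, Quotient.out V) (1, 0, 0),
    inferInstance, C.simplyConnected hU hC, inferInstance, C.properly, C.free, C.compact,
    ?_, ?_, ?_⟩
  · intro γ A hA x
    obtain ⟨⟨δ, d⟩, t, ht, rfl⟩ := C.exists_pt x
    rw [C.smul_pt _ _ _ ht, hF _ _ ht, hF _ _ ht, pslAct_mul', ← hA, pslAct_mk]
  · refine IsLocalHomeomorphOn.mk _ _ fun x hx => ?_
    obtain ⟨v, hv⟩ := C.exists_U x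
    obtain ⟨c, c1, -, c3⟩ := C.exists_chart v
    obtain ⟨A, hA⟩ := exists_sl (ρ v.1)
    have hq : IsLocalHomeomorphOn (fun w : ℂ => w ^ m v.2) {C.chi v x} := by
      by_cases h : v.2 = V
      · refine (isCoveringMapOn_npow (m v.2) (by exact_mod_cast (hm _).1.ne')).isLocalHomeomorphOn.mono ?_
        rintro _ rfl h0
        obtain ⟨γ, V'⟩ := v
        obtain rfl : V' = V := h
        refine hx ⟨γ, ?_⟩
        have h1 : C.chi (γ, V') x = 0 := (pow_eq_zero_iff (hm _).1.ne').1 h0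
        simp only [C.smul_pt _ _ _ e0_mem, mul_one]
        exact c.injOn (c1 ▸ hp1 γ) (c1 ▸ hv) (by rw [c3, hp2, h1])
      · simp only [hV1 _ h, pow_one]
        exact (Homeomorph.refl ℂ).isLocalHomeomorph.isLocalHomeomorphOn
    have h1 : IsLocalHomeomorphOn ((fun w : ℍ => A • w) ∘ (cayH (pos (Quotient.out v.2))).symm ∘
        (fun w : ℂ => w ^ m v.2) ∘ c) {x} := by
      refine (Homeomorph.smul A).isLocalHomeomorph.isLocalHomeomorphOn.comp
        ((IsLocalHomeomorphOn.OpenPartialHomeomorph.isLocalHomeomorphOn (cayH _).symm).comp (hq.comp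
          ((IsLocalHomeomorphOn.OpenPartialHomeomorph.isLocalHomeomorphOn c).mono ?_) ?_) ?_)
        (mapsTo_univ _ _)
      · rintro _ rfl; exact c1 ▸ hv
      · rintro _ rfl; rw [c3]; rfl
      · rintro _ rfl
        obtain ⟨w, -, hw⟩ := hloc v _ hv
        change c _ ^ _ ∈ Metric.ball 0 1
        rw [c3, ← hw]
        simpa using norm_cay_lt _ _
    obtain ⟨e, e1, e2⟩ := h1 x rfl
    refine ⟨e.restrOpen _ (C.isOpen_U v), ⟨e1, hv⟩, fun y hy => ?_⟩
    obtain ⟨w, w1, w2⟩ := hloc v y hy.2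
    change F y = e y
    rw [← e2, w1, ← hA, pslAct_mk]
    change _ = A • proj (uinv _ (c y ^ _))
    rw [c3, ← w2, proj_uinv_cay]
  · obtain ⟨c, c1, -, c3⟩ := C.exists_chart (1, V)
    refine ⟨c, c1 ▸ hp1 1, fun y hy => ?_⟩
    obtain ⟨w, w1, w2⟩ := hloc _ y (c1 ▸ hy)
    obtain ⟨z, z1, z2⟩ := hloc _ _ (hp1 1)
    rw [hp2] at z2
    simp only [map_one, Equiv.Perm.one_apply, hV2] at w1 w2 z1 z2
    have z3 : z = pos (Quotient.out V) := cay_injective _ (by rw [z2]; simp [cay])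
    rw [w1, z1, z3, c3, ← w2, cay]

theorem realise_one {D : Type} [Fintype D] [Nonempty D] (M : DartMap D) {Γ : Type} [Group Γ]
    (L : D → Γ) (ρ : Γ →* PSL(2, ℝ)) (x : ℍ) (hL : M.IsLab L)
    (hσ : ∀ d d', M.sg.SameCycle d d') (hgen : Subgroup.closure (Set.range L) = ⊤)
    (hU : ∀ (H : Type) [Group H] (μ : D → H), M.IsLab μ → ∃ ψ : Γ →* H, ∀ d, μ d = ψ (L d))
    (hP : M.IsPos L ρ fun _ => x)
    (hA : ∑ d, M.corner L ρ (fun _ => x) d = 4 * Real.pi) : IsConeHolonomy ρ := by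
  refine realise M L ρ _ hL (fun H _ μ hμ => ?_) (fun f h1 h2 => ?_) hP ?_
  · obtain ⟨ψ, h⟩ := hU H μ hμ
    exact ⟨ψ, fun _ => 1, fun _ => rfl, by simpa using h⟩
  · have h3 : ∀ γ d d', f (γ, d) = f (γ, d') := fun γ d d' =>
      of_vx M (fun d => f (γ, d)) (fun d => by
        have := h2 (γ * L d * L (M.nx d)) (M.nx (M.nx d))
        rw [h1, h1, mul_assoc, mul_assoc, ← mul_assoc (L d), hL.2, mul_one, ← sg_eq] at this
        exact this) ((vx_eq M).2 (hσ d d'))
    have h4 : ∀ δ ∈ Subgroup.closure (Set.range L), ∀ γ d, f (γ * δ, d) = f (γ, d) := by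
      intro δ hδ
      induction hδ using Subgroup.closure_induction with
      | mem _ h => obtain ⟨e, rfl⟩ := h; exact fun γ d => by rw [h3 _ d (M.nx e), h1, h3 _ e d]
      | one => simp
      | mul a b _ _ ha hb => exact fun γ d => by rw [← mul_assoc, hb, ha]
      | inv a _ ha => exact fun γ d => by rw [← ha (γ * a⁻¹), inv_mul_cancel_right]
    rintro ⟨γ, d⟩ ⟨γ', d'⟩
    rw [← h4 (γ⁻¹ * γ') (hgen ▸ Subgroup.mem_top _) γ d, mul_inv_cancel_left, h3]
  · have : Nat.card M.Vtx = 1 := Nat.card_eq_one_iff_unique.2 ⟨⟨fun a b => by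
      rw [← vx_out M a, ← vx_out M b]; exact (vx_eq M).2 (hσ _ _)⟩, ⟨vx M (Classical.arbitrary D)⟩⟩
    rw [hA, this]; push_cast; ring

/-- conjugation by `diag (1, -1)` -/
def mirSL : SL(2, ℝ) →* SL(2, ℝ) where
  toFun A := ⟨!![A 0 0, -A 0 1; -A 1 0, A 1 1], by
    rw [Matrix.det_fin_two_of]; linear_combination sl_det A⟩
  map_one' := by
    ext i j; fin_cases i <;> fin_cases j <;> simp
  map_mul' A B := by
    ext i j
    fin_cases i <;> fin_cases j <;> simp [Matrix.mul_apply, Fin.sum_univ_two] <;> ring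

theorem mirSL_mirSL (A : SL(2, ℝ)) : mirSL (mirSL A) = A := by
  ext i j; fin_cases i <;> fin_cases j <;> simp [mirSL]

def mirPSL : PSL(2, ℝ) →* PSL(2, ℝ) :=
  QuotientGroup.map _ _ mirSL fun A hA => Subgroup.mem_center_iff.2 fun B => by
    rw [← mirSL_mirSL B, ← map_mul, ← map_mul, Subgroup.mem_center_iff.1 hA]

theorem mirPSL_mk (A : SL(2, ℝ)) : mirPSL (A : PSL(2, ℝ)) = (mirSL A : PSL(2, ℝ)) := rfl

theorem J_mirSL (A : SL(2, ℝ)) (z : ℍ) :
    UpperHalfPlane.J • mirSL A • z = A • UpperHalfPlane.J • z := by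
  apply UpperHalfPlane.ext
  rw [UpperHalfPlane.coe_J_smul, coe_smul', coe_smul', UpperHalfPlane.coe_J_smul]
  simp [mirSL, ← neg_div]
  ring_nf

theorem euler_mirror {g : ℕ} {ρ : SurfGroup g →* PSL(2, ℝ)} {n : ℤ} (h : HasEulerNumber ρ (-n)) :
    HasEulerNumber (mirPSL.comp ρ) n := by
  obtain ⟨F, h1, h2⟩ := h
  let φ : (ℝ ≃ₜ ℝ) →* (ℝ ≃ₜ ℝ) := (MulAut.conj (Homeomorph.neg ℝ)).toMonoidHom
  have hφ : ∀ f t, φ f t = -f (-t) := fun _ _ => rfl
  refine ⟨fun i => φ (F i), fun i => ?_, fun t => ?_⟩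
  · obtain ⟨A, hA, h⟩ := h1 i
    refine ⟨mirSL A, by rw [MonoidHom.comp_apply, ← hA, mirPSL_mk], fun t => ?_⟩
    obtain ⟨r, hr, h⟩ := h (-t)
    refine ⟨r, hr, ?_⟩
    have e0 := congrFun h 0
    have e1 := congrFun h 1
    simp [Matrix.mulVec, dotProduct, Fin.sum_univ_two] at e0 e1
    ext j
    fin_cases j <;> simp [hφ, mirSL, Matrix.mulVec, dotProduct, Fin.sum_univ_two] <;> linarith
  · rw [← FreeGroup.lift_unique (φ.comp (FreeGroup.lift F)) (by simp), MonoidHom.comp_apply, hφ,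
      h2]
    push_cast; ring

theorem cone_mirror {Γ : Type} [Group Γ] {ρ : Γ →* PSL(2, ℝ)}
    (h : IsConeHolonomy (mirPSL.comp ρ)) : IsConeHolonomy ρ := by
  obtain ⟨X, _, _, F, p, h1, h2, h3, h4, h5, h6, h7, h8, e, he, h9⟩ := h
  refine ⟨X, inferInstance, inferInstance, fun x => UpperHalfPlane.J • F x, p, h1, h2, h3, h4, h5,
    h6, fun γ A hA x => ?_, ?_, e.transHomeomorph Complex.conjLIE.toHomeomorph, he,
    fun y hy => ?_⟩
  · simp only
    rw [h7 γ (mirSL A) (by rw [MonoidHom.comp_apply, ← hA, mirPSL_mk]), J_mirSL]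
  · exact (Homeomorph.smul UpperHalfPlane.J).isLocalHomeomorph.isLocalHomeomorphOn.comp h8
      (mapsTo_univ _ _)
  · change _ = conj (e y) ^ 2
    rw [← map_pow, ← h9 y hy, UpperHalfPlane.coe_J_smul, UpperHalfPlane.coe_J_smul]
    simp only [map_div₀, map_sub, map_neg, Complex.conj_conj]
    rw [← neg_div_neg_eq]
    congr 1 <;> ring

theorem one_sign (g : ℕ) (n : ℤ)
    (h : ∀ ρ : SurfGroup g →* PSL(2, ℝ), HasEulerNumber ρ n → IsConeHolonomy ρ)
    (ρ : SurfGroup g →* PSL(2, ℝ)) (hρ : HasEulerNumber ρ (-n)) : IsConeHolonomy ρ :=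
  cone_mirror (h _ (euler_mirror hρ))

/-- the Lorentz product -/
noncomputable def H43.bb (z v : ℍ) : ℝ :=
  ((z.re - v.re) ^ 2 + z.im ^ 2 + v.im ^ 2) / (2 * z.im * v.im)

theorem H43.one_le_bb (z v : ℍ) : 1 ≤ bb z v := by
  have := z.im_pos; have := v.im_pos
  rw [bb, le_div_iff₀ (by positivity)]
  nlinarith [sq_nonneg (z.re - v.re), sq_nonneg (z.im - v.im)]

theorem H43.re_lin (z v w : ℍ) : (lin z (vec w) * conj (lin z (vec v))).re =
    4 * z.im ^ 2 * (bb z v * bb z w - bb v w) := by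
  have := z.im_pos; have := v.im_pos; have := w.im_pos
  simp only [lin, vec, normSq_eq, bb]
  simp [sq]; field_simp; ring

theorem H43.bb_comm (z v : ℍ) : bb z v = bb v z := by unfold bb; ring

theorem H43.ex_cancel {r s x y : ℝ} (hr : 0 < r) (hs : 0 < s) (h : r * ex x = s * ex y) :
    ex x = ex y := by
  have := congrArg norm h
  rw [norm_mul, norm_mul, norm_ex, norm_ex, mul_one, mul_one, Complex.norm_real,
    Complex.norm_real, Real.norm_of_nonneg hr.le, Real.norm_of_nonneg hs.le] at this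
  subst this
  exact mul_left_cancel₀ (by exact_mod_cast hr.ne') h

theorem ang_add_le (z v w : ℍ) (h : 0 < ori z v w) : ang z v w + ang v w z ≤ Real.pi := by
  have h' : 0 < ori v w z := by rwa [ori_cyc]
  obtain ⟨a1, a2⟩ := ang_pos h
  obtain ⟨b1, b2⟩ := ang_pos h'
  rw [ang_eq] at a1 a2 b1 b2
  rw [ang_eq, ang_eq]
  have i1 := im_lin z (vec v) (vec w)
  have i2 := im_lin v (vec w) (vec z)
  have r1 := re_lin z v w
  have r2 := re_lin v w z
  have d1 := det3_vec_pos.2 h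
  have d2 : det3 (vec v) (vec w) (vec z) = det3 (vec z) (vec v) (vec w) := by
    simp only [det3]; ring
  rw [d2] at i2
  have hz := z.im_pos
  have hv := v.im_pos
  generalize lin z (vec w) * conj (lin z (vec v)) = p at *
  generalize lin v (vec z) * conj (lin v (vec w)) = q at *
  have e : 0 ≤ (p * q).im := by
    have := one_le_bb z v; have := one_le_bb v w; have := one_le_bb z w
    rw [Complex.mul_im, i1, i2, r1, r2, bb_comm v z, bb_comm w z]
    have : 0 ≤ 8 * z.im ^ 2 * v.im ^ 2 * det3 (vec z) (vec v) (vec w) *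
      ((bb z v - 1) * (bb v w + bb z w)) := by
      have : 0 ≤ bb z v - 1 := by linarith
      positivity
    linarith
  have hp : p ≠ 0 := by rintro rfl; simp at a1
  have hq : q ≠ 0 := by rintro rfl; simp at b1
  by_contra hc
  have e2 : p * q = ((‖p‖ * ‖q‖ : ℝ) : ℂ) * ex (p.arg + q.arg) := by
    conv_lhs => rw [← ex_arg p, ← ex_arg q]
    rw [ex_add]; push_cast; ring
  rw [e2, Complex.im_ofReal_mul, ex_im] at e
  have h3 : Real.sin (p.arg + q.arg) < 0 := by
    rw [← Real.sin_sub_two_pi]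
    exact Real.sin_neg_of_neg_of_neg_pi_lt (by linarith) (by linarith)
  nlinarith [mul_pos (norm_pos_iff.2 hp) (norm_pos_iff.2 hq)]

theorem ang_sum (z v w : ℍ) (h : 0 < ori z v w) :
    ang z v w + ang v w z + ang w z v = Real.pi -
      2 * (Complex.arg (((z : ℂ) - (starRingEnd ℂ) v) / (2 * Complex.I)) +
        Complex.arg (((v : ℂ) - (starRingEnd ℂ) w) / (2 * Complex.I)) +
        Complex.arg (((w : ℂ) - (starRingEnd ℂ) z) / (2 * Complex.I))) := by
  have h' : 0 < ori v w z := by rwa [ori_cyc]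
  have h'' : 0 < ori w z v := by rwa [ori_cyc]
  have s1 := ang_add_le z v w h
  obtain ⟨a1, a2⟩ := ang_pos h
  obtain ⟨b1, b2⟩ := ang_pos h'
  obtain ⟨c1, c2⟩ := ang_pos h''
  have hz := z.im_pos
  have hv := v.im_pos
  have hw := w.im_pos
  have hre : ∀ z v : ℍ, 0 < (((z : ℂ) - conj (v : ℂ)) / (2 * Complex.I)).re := by
    intro z v
    have := z.im_pos; have := v.im_pos
    simp [Complex.div_re, Complex.normSq_apply]; positivity
  have hne : ∀ z v w : ℍ, 0 < ori z v w → (v : ℂ) - z ≠ 0 := by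
    intro z v w h h0
    have : v = z := UpperHalfPlane.ext (sub_eq_zero.1 h0)
    rw [this] at h; simp [ori] at h
  have hprod : 0 < ((((z : ℂ) - conj (v : ℂ)) / (2 * Complex.I)) *
      (((v : ℂ) - conj (w : ℂ)) / (2 * Complex.I)) *
      (((w : ℂ) - conj (z : ℂ)) / (2 * Complex.I))).re := by
    simp [Complex.div_re, Complex.div_im, Complex.normSq_apply]
    nlinarith [mul_nonneg hv.le (sq_nonneg (z.re - w.re)), mul_nonneg hw.le (sq_nonneg (z.re - v.re)),
      mul_nonneg hz.le (sq_nonneg (v.re - w.re)),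
      mul_pos (mul_pos (add_pos hz hv) (add_pos hv hw)) (add_pos hw hz)]
  have key : (cay z w * conj (cay z v)) * (cay v z * conj (cay v w)) * (cay w v * conj (cay w z)) *
      ((((z : ℂ) - conj (v : ℂ)) / (2 * Complex.I)) *
      (((v : ℂ) - conj (w : ℂ)) / (2 * Complex.I)) *
      (((w : ℂ) - conj (z : ℂ)) / (2 * Complex.I))) ^ 2 =
      ((Complex.normSq ((v : ℂ) - z) * Complex.normSq ((w : ℂ) - v) *
        Complex.normSq ((z : ℂ) - w) / 64 : ℝ) : ℂ) * ex Real.pi := by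
    have e1 := sub_conj_ne z w
    have e2 := sub_conj_ne v z
    have e3 := sub_conj_ne w v
    have e4 : conj (v : ℂ) - z ≠ 0 := fun h => e2 (by linear_combination -h)
    have e5 : conj (w : ℂ) - v ≠ 0 := fun h => e3 (by linear_combination -h)
    have e6 : conj (z : ℂ) - w ≠ 0 := fun h => e1 (by linear_combination -h)
    have e7 : ex Real.pi = -1 := Complex.exp_pi_mul_I
    rw [e7]; push_cast
    simp only [cay, ← Complex.mul_conj, map_div₀, map_sub, Complex.conj_conj]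
    field_simp
    rw [show Complex.I ^ 6 = -1 by rw [show 6 = 2 * 3 by rfl, pow_mul, Complex.I_sq]; norm_num]
    ring
  have p1 := hre z v
  have p2 := hre v w
  have p3 := hre w z
  have hR : 0 < Complex.normSq ((v : ℂ) - z) * Complex.normSq ((w : ℂ) - v) *
      Complex.normSq ((z : ℂ) - w) / 64 := by
    have := Complex.normSq_pos.2 (hne _ _ _ h)
    have := Complex.normSq_pos.2 (hne _ _ _ h')
    have := Complex.normSq_pos.2 (hne _ _ _ h'')
    positivity
  unfold ang at *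
  generalize cay z w * conj (cay z v) = p at *
  generalize cay v z * conj (cay v w) = q at *
  generalize cay w v * conj (cay w z) = r at *
  generalize ((z : ℂ) - conj (v : ℂ)) / (2 * Complex.I) = a at *
  generalize ((v : ℂ) - conj (w : ℂ)) / (2 * Complex.I) = b at *
  generalize ((w : ℂ) - conj (z : ℂ)) / (2 * Complex.I) = c at *
  have hp : 0 < ‖p‖ := norm_pos_iff.2 (by rintro rfl; simp at a1)
  have hq : 0 < ‖q‖ := norm_pos_iff.2 (by rintro rfl; simp at b1)
  have hr : 0 < ‖r‖ := norm_pos_iff.2 (by rintro rfl; simp at c1)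
  have ha : 0 < ‖a‖ := norm_pos_iff.2 (by rintro rfl; simp at p1)
  have hb : 0 < ‖b‖ := norm_pos_iff.2 (by rintro rfl; simp at p2)
  have hc : 0 < ‖c‖ := norm_pos_iff.2 (by rintro rfl; simp at p3)
  have e1 : a * b * c = ((‖a‖ * ‖b‖ * ‖c‖ : ℝ) : ℂ) * ex (a.arg + b.arg + c.arg) := by
    conv_lhs => rw [← ex_arg a, ← ex_arg b, ← ex_arg c]
    rw [ex_add, ex_add]; push_cast; ring
  have e2 : p * q * r = ((‖p‖ * ‖q‖ * ‖r‖ : ℝ) : ℂ) * ex (p.arg + q.arg + r.arg) := by
    conv_lhs => rw [← ex_arg p, ← ex_arg q, ← ex_arg r]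
    rw [ex_add, ex_add]; push_cast; ring
  have e3 : ex (p.arg + q.arg + r.arg + 2 * (a.arg + b.arg + c.arg)) = ex Real.pi := by
    refine ex_cancel (r := ‖p‖ * ‖q‖ * ‖r‖ * (‖a‖ * ‖b‖ * ‖c‖) ^ 2) (by positivity) hR ?_
    rw [← key, e1, e2, two_mul, ex_add (p.arg + q.arg + r.arg), ex_add (a.arg + b.arg + c.arg)]
    push_cast; ring
  have q1 := abs_lt.1 (Complex.abs_arg_lt_pi_div_two_iff.2 (Or.inl p1))
  have q2 := abs_lt.1 (Complex.abs_arg_lt_pi_div_two_iff.2 (Or.inl p2))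
  have q3 := abs_lt.1 (Complex.abs_arg_lt_pi_div_two_iff.2 (Or.inl p3))
  rw [e1, Complex.re_ofReal_mul] at hprod
  have e4 : 0 < Real.cos (a.arg + b.arg + c.arg) := by
    have := (pos_iff_pos_of_mul_pos hprod).1 (by positivity)
    rwa [ex, Complex.exp_ofReal_mul_I_re] at this
  generalize hS : a.arg + b.arg + c.arg = S at *
  have u1 : S < Real.pi / 2 := by
    by_contra hc
    linarith [Real.cos_nonpos_of_pi_div_two_le_of_le (not_lt.1 hc) (by linarith [q1.2, q2.2, q3.2])]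
  have u2 : -(Real.pi / 2) < S := by
    by_contra hc
    have := Real.cos_nonpos_of_pi_div_two_le_of_le (x := -S) (by linarith [not_lt.1 hc])
      (by linarith [q1.1, q2.1, q3.1])
    rw [Real.cos_neg] at this
    linarith
  obtain ⟨k, hk⟩ := ex_eq_iff.1 e3
  have : k = 0 := by
    have k1 : (k : ℝ) < 1 := by nlinarith [Real.pi_pos]
    have k2 : (-1 : ℝ) < k := by nlinarith [Real.pi_pos]
    have k3 : k < 1 := by exact_mod_cast k1
    have k4 : -1 < k := by exact_mod_cast k2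
    omega
  rw [this] at hk
  push_cast at hk
  linarith

end Pool.Agent.Lib.MP_a25f44_gt
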