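import Pool.Agent.Lib.MP_a25f44_gt.H43Cay

/-! The polar chart of the star of a vertex. -/

namespace Pool.Agent.Lib.MP_a25f44_gt.H43

open scoped MatrixGroups UpperHalfPlane ComplexConjugate
open Complex Set

/-- the closed standard triangle -/
def Tri : Set V3 := {t | 0 ≤ t.1 ∧ 0 ≤ t.2.1 ∧ 0 ≤ t.2.2 ∧ t.1 + t.2.1 + t.2.2 = 1}

theorem isCompact_Tri : IsCompact Tri := by
  refine (isCompact_Icc (a := ((0, 0, 0) : V3)) (b := (1, 1, 1))).of_isClosed_subset ?_ ?_
  · unfold Tri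
    refine IsClosed.and (isClosed_le (by fun_prop) (by fun_prop)) (IsClosed.and
      (isClosed_le (by fun_prop) (by fun_prop)) (IsClosed.and
      (isClosed_le (by fun_prop) (by fun_prop)) (isClosed_eq (by fun_prop) (by fun_prop))))
  · rintro ⟨a, b, c⟩ ⟨h1, h2, h3, h4⟩
    simp only at h1 h2 h3 h4
    exact ⟨⟨h1, h2, h3⟩, ⟨by simp only; linarith, by simp only; linarith, by simp only; linarith⟩⟩

noncomputable def ex (x : ℝ) : ℂ := exp (x * I)

theorem ex_add (x y : ℝ) : ex (x + y) = ex x * ex y := by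
  simp [ex, add_mul, exp_add]

theorem norm_ex (x : ℝ) : ‖ex x‖ = 1 := norm_exp_ofReal_mul_I x

theorem ex_ne (x : ℝ) : ex x ≠ 0 := exp_ne_zero _

theorem conj_ex (x : ℝ) : conj (ex x) = ex (-x) := by
  simp [ex, ← exp_conj]

theorem ex_im (x : ℝ) : (ex x).im = Real.sin x := exp_ofReal_mul_I_im x

theorem ex_zero : ex 0 = 1 := by simp [ex]

theorem ex_arg (w : ℂ) : (‖w‖ : ℂ) * ex (arg w) = w := norm_mul_exp_arg_mul_I w

theorem ex_pow (x : ℝ) (m : ℕ) : ex x ^ m = ex (m * x) := by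
  simp [ex, ← exp_nat_mul, mul_assoc]

theorem ex_eq_iff {x y : ℝ} : ex x = ex y ↔ ∃ k : ℤ, x = y + k * (2 * Real.pi) := by
  rw [ex, ex, exp_eq_exp_iff_exists_int]
  refine exists_congr fun k => ⟨fun h => ?_, fun h => ?_⟩
  · have := congrArg Complex.im h; simpa using this
  · rw [h]; push_cast; ring

theorem continuous_ex : Continuous ex := by unfold ex; fun_prop

theorem im_polar (r s x y : ℝ) : ((r * ex x) * conj (s * ex y)).im = r * s * Real.sin (x - y) := by
  have : ((r : ℂ) * ex x) * conj (s * ex y) = ((r * s : ℝ) : ℂ) * ex (x - y) := by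
    rw [map_mul, conj_ex, conj_ofReal, sub_eq_add_neg, ex_add]; push_cast; ring
  rw [this, im_ofReal_mul, ex_im]

structure Star where
  z : ℍ
  n : ℕ
  hn : 0 < n
  a : ℕ → V3
  cone : ∀ k, Cone (a k)
  pos : ∀ k, 0 < det3 (vec z) (a k) (a (k + 1))
  per : a n = a 0

namespace Star

variable (S : Star)

noncomputable def l (k : ℕ) : ℂ := lin S.z (S.a k)

noncomputable def al (k : ℕ) : ℝ := arg (S.l (k + 1) * conj (S.l k))

noncomputable def th (k : ℕ) : ℝ := arg (S.l 0) + ∑ j ∈ Finset.range k, S.al j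

theorem im_pos (k : ℕ) : 0 < (S.l (k + 1) * conj (S.l k)).im := by
  rw [l, l, im_lin]; have := S.pos k; have := S.z.im_pos; positivity

theorem l_ne (k : ℕ) : S.l k ≠ 0 := by
  intro h; have := S.im_pos k; simp [h] at this

theorem al_pos (k : ℕ) : 0 < S.al k := by
  have := S.im_pos k
  rcases (arg_nonneg_iff.2 this.le).eq_or_lt with h0 | h0
  · have := (arg_eq_zero_iff.1 h0.symm).2; linarith
  · exact h0

theorem al_lt (k : ℕ) : S.al k < Real.pi := arg_lt_pi_iff.2 (Or.inr (S.im_pos k).ne')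

theorem th_succ (k : ℕ) : S.th (k + 1) = S.th k + S.al k := by
  simp [th, Finset.sum_range_succ, add_assoc]

theorem th_mono : StrictMono S.th :=
  strictMono_nat_of_lt_succ fun k => by rw [th_succ]; linarith [S.al_pos k]

theorem polar_aux {p l : ℂ} {x : ℝ} (hl : l ≠ 0) (h : l = ‖l‖ * ex x) :
    p = ‖p‖ * ex (x + arg (p * conj l)) := by
  have h1 := ex_arg (p * conj l)
  have hn : (‖l‖ : ℂ) ≠ 0 := by exact_mod_cast (norm_pos_iff.2 hl).ne'
  have h2 : conj l = ‖l‖ * ex (-x) := by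
    conv_lhs => rw [h]
    rw [map_mul, conj_ex, conj_ofReal]
  have h3 : ex x * ex (-x) = 1 := by rw [← ex_add]; simp [ex_zero]
  rw [norm_mul, norm_conj] at h1
  rw [ex_add]
  apply mul_left_cancel₀ hn
  have : (‖l‖ : ℂ) * (‖p‖ * (ex x * ex (arg (p * conj l)))) =
      ex x * (((‖p‖ * ‖l‖ : ℝ) : ℂ) * ex (arg (p * conj l))) := by push_cast; ring
  rw [this, h1, h2]
  linear_combination (-(‖l‖ : ℂ) * p) * h3

theorem l_polar (k : ℕ) : S.l k = ‖S.l k‖ * ex (S.th k) := by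
  induction k with
  | zero => simp [th, ex_arg]
  | succ k ih => rw [th_succ]; exact polar_aux (S.l_ne k) ih

theorem exists_m : ∃ m : ℕ, 0 < m ∧ ∑ j ∈ Finset.range S.n, S.al j = 2 * Real.pi * m := by
  have h1 := S.l_polar S.n
  have h2 := S.l_polar 0
  have h3 : S.l S.n = S.l 0 := by rw [l, l, S.per]
  have hn : (‖S.l 0‖ : ℂ) ≠ 0 := by exact_mod_cast (norm_pos_iff.2 (S.l_ne 0)).ne'
  rw [h3] at h1
  have h4 : ex (S.th S.n) = ex (S.th 0) := mul_left_cancel₀ hn (h1.symm.trans h2)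
  obtain ⟨k, hk⟩ := ex_eq_iff.1 h4
  have h5 := S.th_mono S.hn
  have hk0 : 0 < k := by
    have : (0 : ℝ) < k * (2 * Real.pi) := by linarith
    have : (0 : ℝ) < k := (pos_iff_pos_of_mul_pos this).2 (by positivity)
    exact_mod_cast this
  refine ⟨k.toNat, by omega, ?_⟩
  have : ((k.toNat : ℕ) : ℝ) = k := by exact_mod_cast Int.toNat_of_nonneg hk0.le
  rw [this]
  simp only [th, Finset.range_zero, Finset.sum_empty, add_zero] at hk
  linarith

noncomputable def u (k : ℕ) (t : V3) : V3 := t.1 • vec S.z + t.2.1 • S.a k + t.2.2 • S.a (k + 1)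

noncomputable def p (k : ℕ) (t : V3) : ℂ := t.2.1 * S.l k + t.2.2 * S.l (k + 1)

noncomputable def C (k : ℕ) (t : V3) : ℂ := lin S.z (S.u k t) / den S.z (S.u k t)

noncomputable def vt (k : ℕ) (t : V3) : ℝ := S.th k + arg (S.p k t * conj (S.l k))

noncomputable def g (m k : ℕ) (t : V3) : ℂ := (‖S.C k t‖ ^ ((m : ℝ)⁻¹) : ℝ) * ex (S.vt k t / m)

theorem cone_u (k : ℕ) {t : V3} (ht : t ∈ Tri) : Cone (S.u k t) :=
  cone_comb (cone_vec _) (S.cone _) (S.cone _) ht.1 ht.2.1 ht.2.2.1 ht.2.2.2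

theorem lin_u (k : ℕ) (t : V3) : lin S.z (S.u k t) = S.p k t := by
  rw [u, lin_add, lin_add, lin_smul, lin_smul, lin_smul, lin_self]; simp [p, l]

theorem C_eq (k : ℕ) {t : V3} (ht : t ∈ Tri) : S.C k t = cay S.z (proj (S.u k t)) :=
  (cay_proj _ (S.cone_u k ht)).symm

theorem p_polar (k : ℕ) (t : V3) : S.p k t = ‖S.p k t‖ * ex (S.vt k t) :=
  polar_aux (S.l_ne k) (S.l_polar k)

theorem norm_C (k : ℕ) {t : V3} (ht : t ∈ Tri) :
    ‖S.C k t‖ = ‖S.p k t‖ / den S.z (S.u k t) := by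
  rw [C, lin_u, norm_div, norm_real, Real.norm_of_nonneg (den_pos _ (S.cone_u k ht)).le]

theorem C_polar (k : ℕ) {t : V3} (ht : t ∈ Tri) : S.C k t = ‖S.C k t‖ * ex (S.vt k t) := by
  rw [S.norm_C k ht, C, lin_u]
  conv_lhs => rw [S.p_polar k t]
  push_cast; ring

theorem im_p0 (k : ℕ) (t : V3) :
    (S.p k t * conj (S.l k)).im = t.2.2 * (S.l (k + 1) * conj (S.l k)).im := by
  simp [p]; ring

theorem im_p1 (k : ℕ) (t : V3) :
    (S.l (k + 1) * conj (S.p k t)).im = t.2.1 * (S.l (k + 1) * conj (S.l k)).im := by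
  simp [p]; ring

theorem sin0 (k : ℕ) (t : V3) : ‖S.p k t‖ * ‖S.l k‖ * Real.sin (S.vt k t - S.th k) =
    t.2.2 * (S.l (k + 1) * conj (S.l k)).im := by
  rw [← im_p0, ← im_polar, ← p_polar, ← l_polar]

theorem sin1 (k : ℕ) (t : V3) : ‖S.l (k + 1)‖ * ‖S.p k t‖ * Real.sin (S.th (k + 1) - S.vt k t) =
    t.2.1 * (S.l (k + 1) * conj (S.l k)).im := by
  rw [← im_p1, ← im_polar, ← p_polar, ← l_polar]

theorem p_eq_zero {k : ℕ} {t : V3} (h : S.p k t = 0) : t.2.1 = 0 ∧ t.2.2 = 0 := by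
  have h0 := S.im_p0 k t
  have h1 := S.im_p1 k t
  have := S.im_pos k
  rw [h] at h0 h1
  simp only [zero_mul, zero_im, map_zero, mul_zero] at h0 h1
  exact ⟨(mul_eq_zero.1 h1.symm).resolve_right this.ne', (mul_eq_zero.1 h0.symm).resolve_right this.ne'⟩

theorem vt_mem (k : ℕ) {t : V3} (ht : t ∈ Tri) : S.vt k t ∈ Icc (S.th k) (S.th (k + 1)) := by
  have hi := S.im_pos k
  have h0 : 0 ≤ arg (S.p k t * conj (S.l k)) := by
    rw [arg_nonneg_iff, im_p0]; exact mul_nonneg ht.2.2.1 hi.le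
  refine ⟨by rw [vt]; linarith, ?_⟩
  by_contra hc
  push Not at hc
  by_cases hp : S.p k t = 0
  · rw [vt, hp, th_succ] at hc; simp at hc; linarith [S.al_pos k]
  have h1 := S.sin1 k t
  have h2 : Real.sin (S.th (k + 1) - S.vt k t) < 0 := by
    apply Real.sin_neg_of_neg_of_neg_pi_lt (by linarith)
    rw [vt, th_succ]; linarith [arg_le_pi (S.p k t * conj (S.l k)), S.al_pos k]
  have h3 : 0 < ‖S.l (k + 1)‖ * ‖S.p k t‖ :=
    mul_pos (norm_pos_iff.2 (S.l_ne _)) (norm_pos_iff.2 hp)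
  nlinarith [mul_nonneg ht.2.1 hi.le]

theorem t1_of_vt {k : ℕ} {t : V3} (h : S.vt k t = S.th (k + 1)) : t.2.1 = 0 := by
  have h1 := S.sin1 k t
  rw [h] at h1; simp only [sub_self, Real.sin_zero, mul_zero] at h1
  exact (mul_eq_zero.1 h1.symm).resolve_right (S.im_pos k).ne'

theorem t2_of_vt {k : ℕ} {t : V3} (h : S.vt k t = S.th k) : t.2.2 = 0 := by
  have h1 := S.sin0 k t
  rw [h] at h1; simp only [sub_self, Real.sin_zero, mul_zero] at h1
  exact (mul_eq_zero.1 h1.symm).resolve_right (S.im_pos k).ne'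

theorem continuousOn_C (k : ℕ) : ContinuousOn (S.C k) Tri := by
  unfold C
  refine ContinuousOn.div ?_ ?_ fun t ht => ?_
  · unfold lin u; fun_prop
  · unfold den nrm u; fun_prop
  · exact_mod_cast (den_pos _ (S.cone_u k ht)).ne'

theorem continuous_p (k : ℕ) : Continuous (S.p k) := by unfold p; fun_prop

variable {m : ℕ}

theorem norm_g (k : ℕ) (t : V3) : ‖S.g m k t‖ = ‖S.C k t‖ ^ ((m : ℝ)⁻¹) := by
  rw [g, norm_mul, norm_ex, mul_one, norm_real, Real.norm_of_nonneg (by positivity)]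

theorem g_pow (hm : 0 < m) (k : ℕ) {t : V3} (ht : t ∈ Tri) :
    S.g m k t ^ m = cay S.z (proj (S.u k t)) := by
  have hm' : (m : ℝ) ≠ 0 := by positivity
  rw [← S.C_eq k ht, g, mul_pow, ex_pow, mul_div_cancel₀ _ hm', ← ofReal_pow,
    Real.rpow_inv_natCast_pow (norm_nonneg _) hm.ne', ← S.C_polar k ht]

theorem continuousOn_g (hm : 0 < m) (k : ℕ) : ContinuousOn (S.g m k) Tri := by
  have hr : ContinuousOn (fun t => ‖S.C k t‖ ^ ((m : ℝ)⁻¹)) Tri :=
    (S.continuousOn_C k).norm.rpow_const fun _ _ => Or.inr (by positivity)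
  intro t ht
  by_cases hp : S.p k t = 0
  · have h0 : ‖S.C k t‖ ^ ((m : ℝ)⁻¹) = 0 := by
      rw [S.norm_C k ht, hp]; simp only [norm_zero, zero_div]
      exact Real.zero_rpow (by positivity)
    have hg : S.g m k t = 0 := by rw [← norm_eq_zero, norm_g, h0]
    rw [ContinuousWithinAt, hg, tendsto_zero_iff_norm_tendsto_zero]
    simp only [norm_g]
    have := hr t ht
    rwa [ContinuousWithinAt, h0] at this
  · unfold g
    refine ContinuousWithinAt.mul (continuous_ofReal.continuousAt.comp_continuousWithinAt (hr t ht))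
      (ContinuousAt.continuousWithinAt (continuous_ex.continuousAt.comp ?_))
    refine ContinuousAt.div_const (ContinuousAt.add continuousAt_const ?_) _
    refine ContinuousAt.comp (f := fun t => S.p k t * conj (S.l k)) (continuousAt_arg ?_)
      ((S.continuous_p k).mul continuous_const).continuousAt
    rw [mem_slitPlane_iff_arg]
    refine ⟨?_, mul_ne_zero hp (by simpa using S.l_ne k)⟩
    have := (S.vt_mem k ht).2
    rw [vt, th_succ] at this
    linarith [S.al_lt k]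

theorem th_n (hs : ∑ j ∈ Finset.range S.n, S.al j = 2 * Real.pi * m) :
    S.th S.n = S.th 0 + 2 * Real.pi * m := by
  simp [th, hs]

theorem a_mod {k : ℕ} (hk : k < S.n) : S.a ((k + 1) % S.n) = S.a (k + 1) := by
  rcases Nat.lt_or_ge (k + 1) S.n with h | h
  · rw [Nat.mod_eq_of_lt h]
  · have : k + 1 = S.n := by omega
    rw [this, Nat.mod_self, S.per]

theorem cases_ang (hm : 0 < m) (hs : ∑ j ∈ Finset.range S.n, S.al j = 2 * Real.pi * m)
    {k k' : ℕ} (hk : k < S.n) (hk' : k' < S.n) {x y : ℝ} (hx : x ∈ Icc (S.th k) (S.th (k + 1)))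
    (hy : y ∈ Icc (S.th k') (S.th (k' + 1))) (h : ex (x / m) = ex (y / m)) :
    (k = k' ∧ x = y) ∨ (x = S.th (k + 1) ∧ y = S.th k' ∧ k' = (k + 1) % S.n) ∨
      (x = S.th k ∧ y = S.th (k' + 1) ∧ k = (k' + 1) % S.n) := by
  have hm' : (0 : ℝ) < m := by positivity
  obtain ⟨j, hj⟩ := ex_eq_iff.1 h
  have hj' : x = y + j * (2 * Real.pi * m) := by field_simp at hj; linarith
  have hn := S.th_n hs
  have M := S.th_mono.monotone
  have a1 := M (Nat.zero_le k)
  have a2 := M (show k + 1 ≤ S.n by omega)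
  have a3 := M (Nat.zero_le k')
  have a4 := M (show k' + 1 ≤ S.n by omega)
  have hP : 0 < 2 * Real.pi * m := by positivity
  obtain ⟨x1, x2⟩ := hx
  obtain ⟨y1, y2⟩ := hy
  rcases lt_trichotomy j 0 with hj0 | rfl | hj0
  · have : (j : ℝ) ≤ -1 := by exact_mod_cast (show j ≤ -1 by omega)
    have e1 : y = S.th S.n := by nlinarith
    have e2 : x = S.th 0 := by nlinarith
    have e3 : k' + 1 = S.n := S.th_mono.injective (by linarith)
    have e4 : k = 0 := S.th_mono.injective (by linarith)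
    right; right
    exact ⟨by rw [e2, e4], by rw [e1, e3], by rw [e3, e4, Nat.mod_self]⟩
  · have e : x = y := by simpa using hj'
    rcases lt_trichotomy k k' with hkk | hkk | hkk
    · have := M (show k + 1 ≤ k' by omega)
      have e3 : k + 1 = k' := S.th_mono.injective (by linarith)
      right; left
      exact ⟨by linarith, by linarith, by rw [e3, Nat.mod_eq_of_lt hk']⟩
    · exact Or.inl ⟨hkk, e⟩
    · have := M (show k' + 1 ≤ k by omega)
      have e3 : k' + 1 = k := S.th_mono.injective (by linarith)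
      right; right
      exact ⟨by linarith, by linarith, by rw [e3, Nat.mod_eq_of_lt hk]⟩
  · have : (1 : ℝ) ≤ j := by exact_mod_cast (show 1 ≤ j by omega)
    have e1 : x = S.th S.n := by nlinarith
    have e2 : y = S.th 0 := by nlinarith
    have e3 : k + 1 = S.n := S.th_mono.injective (by linarith)
    have e4 : k' = 0 := S.th_mono.injective (by linarith)
    right; left
    exact ⟨by rw [e1, e3], by rw [e2, e4], by rw [e3, e4, Nat.mod_self]⟩

/-- the gluing relation of the faces around the vertex -/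
def Rel (n k : ℕ) (t : V3) (k' : ℕ) (t' : V3) : Prop :=
  (k = k' ∧ t = t') ∨ (t.2.1 = 0 ∧ t.2.2 = 0 ∧ t'.2.1 = 0 ∧ t'.2.2 = 0) ∨
    (t.2.1 = 0 ∧ t'.2.2 = 0 ∧ t.2.2 = t'.2.1 ∧ k' = (k + 1) % n) ∨
    (t'.2.1 = 0 ∧ t.2.2 = 0 ∧ t'.2.2 = t.2.1 ∧ k = (k' + 1) % n)

theorem rel_of_g (hm : 0 < m) (hs : ∑ j ∈ Finset.range S.n, S.al j = 2 * Real.pi * m)
    {k k' : ℕ} (hk : k < S.n) (hk' : k' < S.n) {t t' : V3} (ht : t ∈ Tri) (ht' : t' ∈ Tri)
    (h : S.g m k t = S.g m k' t') : Rel S.n k t k' t' := by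
  have hC : proj (S.u k t) = proj (S.u k' t') :=
    cay_injective S.z (by rw [← S.g_pow hm k ht, ← S.g_pow hm k' ht', h])
  have hCC : S.C k t = S.C k' t' := by rw [S.C_eq k ht, S.C_eq k' ht', hC]
  obtain ⟨s, hs0, hu⟩ := eq_smul_of_proj (S.cone_u k ht) (S.cone_u k' ht') hC
  obtain ⟨p0, p1, p2, p3⟩ := ht
  obtain ⟨q0, q1, q2, q3⟩ := ht'
  have ht : t ∈ Tri := ⟨p0, p1, p2, p3⟩
  have ht' : t' ∈ Tri := ⟨q0, q1, q2, q3⟩
  by_cases h0 : S.C k t = 0
  · have e1 : S.p k t = 0 := by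
      have := S.norm_C k ht
      rw [h0, norm_zero, eq_comm, div_eq_zero_iff] at this
      exact norm_eq_zero.1 (this.resolve_right (den_pos _ (S.cone_u k ht)).ne')
    have e2 : S.p k' t' = 0 := by
      have := S.norm_C k' ht'
      rw [← hCC, h0, norm_zero, eq_comm, div_eq_zero_iff] at this
      exact norm_eq_zero.1 (this.resolve_right (den_pos _ (S.cone_u k' ht')).ne')
    exact Or.inr (Or.inl ⟨(S.p_eq_zero e1).1, (S.p_eq_zero e1).2, S.p_eq_zero e2⟩)
  have hr : ((‖S.C k t‖ ^ ((m : ℝ)⁻¹) : ℝ) : ℂ) ≠ 0 := by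
    have := norm_pos_iff.2 h0
    exact_mod_cast (Real.rpow_pos_of_pos this _).ne'
  rw [g, g, ← hCC] at h
  have hu' : t.1 • vec S.z + t.2.1 • S.a k + t.2.2 • S.a (k + 1) =
      (s * t'.1) • vec S.z + (s * t'.2.1) • S.a k' + (s * t'.2.2) • S.a (k' + 1) := by
    have := hu; rw [u, u, smul_add, smul_add, smul_smul, smul_smul, smul_smul] at this; exact this
  rcases S.cases_ang hm hs hk hk' (S.vt_mem k ht) (S.vt_mem k' ht') (mul_left_cancel₀ hr h) with
    ⟨rfl, -⟩ | ⟨e1, e2, e3⟩ | ⟨e1, e2, e3⟩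
  · obtain ⟨f0, f1, f2⟩ := comb_inj (S.pos k).ne' hu'
    have : s = 1 := by linear_combination -f0 - f1 - f2 + p3 - s * q3
    subst this
    exact Or.inl ⟨rfl, Prod.ext (by linarith) (Prod.ext (by linarith) (by linarith))⟩
  · have f1 := S.t1_of_vt e1
    have f2 := S.t2_of_vt e2
    have ha : S.a k' = S.a (k + 1) := by rw [e3, S.a_mod hk]
    have : t.1 • vec S.z + t.2.2 • S.a k' + (0 : ℝ) • S.a (k' + 1) =
      (s * t'.1) • vec S.z + (s * t'.2.1) • S.a k' + (s * t'.2.2) • S.a (k' + 1) := by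
      rw [← hu', f1, ha]; simp
    obtain ⟨f3, f4, -⟩ := comb_inj (S.pos k').ne' this
    have : s = 1 := by linear_combination -f3 - f4 + p3 - s * q3 - f1 + s * f2
    subst this
    exact Or.inr (Or.inr (Or.inl ⟨f1, f2, by linarith, e3⟩))
  · have f1 := S.t1_of_vt e2
    have f2 := S.t2_of_vt e1
    have ha : S.a k = S.a (k' + 1) := by rw [e3, S.a_mod hk']
    have : t.1 • vec S.z + (0 : ℝ) • S.a k' + t.2.1 • S.a (k' + 1) =
      (s * t'.1) • vec S.z + (s * t'.2.1) • S.a k' + (s * t'.2.2) • S.a (k' + 1) := by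
      rw [← hu', f2, ha]; simp
    obtain ⟨f3, -, f4⟩ := comb_inj (S.pos k').ne' this
    have : s = 1 := by linear_combination -f3 - f4 + p3 - s * q3 - f2 + s * f1
    subst this
    exact Or.inr (Or.inr (Or.inr ⟨f1, f2, by linarith, e3⟩))

theorem g_zero (hm : 0 < m) (k : ℕ) {t : V3} (h1 : t.2.1 = 0) (h2 : t.2.2 = 0) :
    S.g m k t = 0 := by
  have : S.C k t = 0 := by rw [C, lin_u, p, h1, h2]; simp
  rw [g, this, norm_zero, Real.zero_rpow (by positivity)]; simp

theorem g_edge (hm : 0 < m) (hs : ∑ j ∈ Finset.range S.n, S.al j = 2 * Real.pi * m)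
    {k : ℕ} (hk : k < S.n) {t t' : V3} (ht : t ∈ Tri) (ht' : t' ∈ Tri) (h1 : t.2.1 = 0)
    (h2 : t'.2.2 = 0) (h3 : t.2.2 = t'.2.1) : S.g m k t = S.g m ((k + 1) % S.n) t' := by
  rcases ht.2.2.1.eq_or_lt with h0 | h0
  · rw [S.g_zero hm k h1 h0.symm, S.g_zero hm _ (by linarith) h2]
  have hm' : (m : ℝ) ≠ 0 := by positivity
  have h4 : t.1 = t'.1 := by linarith [ht.2.2.2, ht'.2.2.2]
  have hu : S.u k t = S.u ((k + 1) % S.n) t' := by
    rw [u, u, S.a_mod hk, h1, h2, h3, h4]; simp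
  have hC : S.C k t = S.C ((k + 1) % S.n) t' := by rw [C, C, hu]
  have v1 : S.vt k t = S.th (k + 1) := by
    rw [vt, th_succ, p, h1, al, ← arg_real_mul (S.l (k + 1) * conj (S.l k)) h0]; simp [mul_assoc]
  have v2 : S.vt ((k + 1) % S.n) t' = S.th ((k + 1) % S.n) := by
    rw [vt, p, h2, ← h3]
    simp only [ofReal_zero, zero_mul, add_zero, mul_assoc, mul_conj, add_eq_left]
    rw [← ofReal_mul, arg_ofReal_of_nonneg (mul_nonneg h0.le (normSq_nonneg _))]
  rw [g, g, hC, v1, v2]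
  congr 1
  rcases Nat.lt_or_ge (k + 1) S.n with h | h
  · rw [Nat.mod_eq_of_lt h]
  · have : k + 1 = S.n := by omega
    rw [this, Nat.mod_self, S.th_n hs, ex_eq_iff]
    exact ⟨1, by field_simp; simp⟩

theorem g_of_rel (hm : 0 < m) (hs : ∑ j ∈ Finset.range S.n, S.al j = 2 * Real.pi * m)
    {k k' : ℕ} (hk : k < S.n) (hk' : k' < S.n) {t t' : V3} (ht : t ∈ Tri) (ht' : t' ∈ Tri)
    (h : Rel S.n k t k' t') : S.g m k t = S.g m k' t' := by
  rcases h with ⟨rfl, rfl⟩ | ⟨h1, h2, h3, h4⟩ | ⟨h1, h2, h3, rfl⟩ | ⟨h1, h2, h3, rfl⟩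
  · rfl
  · rw [S.g_zero hm k h1 h2, S.g_zero hm k' h3 h4]
  · exact S.g_edge hm hs hk ht ht' h1 h2 h3
  · exact (S.g_edge hm hs hk' ht' ht h1 h2 h3).symm

theorem exists_sector {x : ℝ} (N : ℕ) (h0 : S.th 0 ≤ x) (h1 : x < S.th N) :
    ∃ k < N, x ∈ Icc (S.th k) (S.th (k + 1)) := by
  induction N with
  | zero => linarith
  | succ N ih =>
    rcases lt_or_ge x (S.th N) with h | h
    · obtain ⟨k, hk, hx⟩ := ih h
      exact ⟨k, by omega, hx⟩
    · exact ⟨N, by omega, h, h1.le⟩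

/-- a point of the sector `k` with positive first coordinate lies in the image of the face `k` -/
theorem exists_t (hm : 0 < m) (k : ℕ) {r x : ℝ} (hr : 0 ≤ r) (hr1 : r < 1)
    (hx : x ∈ Icc (S.th k) (S.th (k + 1)))
    (h : 0 < det3 (uinv S.z ((r * ex (x / m)) ^ m)) (S.a k) (S.a (k + 1))) :
    ∃ t ∈ Tri, 0 < t.1 ∧ S.g m k t = r * ex (x / m) := by
  have hm' : (m : ℝ) ≠ 0 := by positivity
  set w : ℂ := (r * ex (x / m)) ^ m with hw
  have hw' : w = ((r ^ m : ℝ) : ℂ) * ex x := by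
    rw [hw, mul_pow, ex_pow, mul_div_cancel₀ _ hm']; push_cast; ring
  have hnw : ‖w‖ = r ^ m := by
    rw [hw', norm_mul, norm_ex, mul_one, norm_real, Real.norm_of_nonneg (by positivity)]
  have hw1 : ‖w‖ < 1 := by rw [hnw]; exact pow_lt_one₀ hr hr1 hm.ne'
  have hc := cone_uinv S.z hw1
  set U := uinv S.z w with hU
  have hD := S.pos k
  have hz := S.z.im_pos
  have hden := den_pos S.z hc
  have hlin : lin S.z U = ((den S.z U * r ^ m : ℝ) : ℂ) * ex x := by
    have := cay_proj S.z hc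
    rw [cay_proj_uinv S.z hw1, eq_div_iff (by exact_mod_cast hden.ne')] at this
    rw [← this, hw']; push_cast; ring
  have hal := S.al_lt k
  have hth := S.th_succ k
  have s1 : 0 ≤ det3 (vec S.z) U (S.a (k + 1)) := by
    have h1 := im_lin S.z U (S.a (k + 1))
    have h2 := S.l_polar (k + 1)
    rw [l] at h2
    rw [hlin, h2, im_polar] at h1
    have h3 : 0 ≤ Real.sin (S.th (k + 1) - x) :=
      Real.sin_nonneg_of_nonneg_of_le_pi (by linarith [hx.2]) (by linarith [hx.1])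
    have h4 : 0 ≤ 2 * S.z.im ^ 2 * det3 (vec S.z) U (S.a (k + 1)) := by rw [← h1]; positivity
    exact nonneg_of_mul_nonneg_right h4 (by positivity)
  have s2 : 0 ≤ det3 (vec S.z) (S.a k) U := by
    have h1 := im_lin S.z (S.a k) U
    have h2 := S.l_polar k
    rw [l] at h2
    rw [hlin, h2, im_polar] at h1
    have h3 : 0 ≤ Real.sin (x - S.th k) :=
      Real.sin_nonneg_of_nonneg_of_le_pi (by linarith [hx.1]) (by linarith [hx.2])
    have h4 : 0 ≤ 2 * S.z.im ^ 2 * det3 (vec S.z) (S.a k) U := by rw [← h1]; positivity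
    exact nonneg_of_mul_nonneg_right h4 (by positivity)
  have hcr := cramer (vec S.z) (S.a k) (S.a (k + 1)) U hD.ne'
  set c0 := det3 U (S.a k) (S.a (k + 1)) / det3 (vec S.z) (S.a k) (S.a (k + 1)) with hc0
  set c1 := det3 (vec S.z) U (S.a (k + 1)) / det3 (vec S.z) (S.a k) (S.a (k + 1)) with hc1
  set c2 := det3 (vec S.z) (S.a k) U / det3 (vec S.z) (S.a k) (S.a (k + 1)) with hc2
  have p0 : 0 < c0 := div_pos h hD
  have p1 : 0 ≤ c1 := div_nonneg s1 hD.le
  have p2 : 0 ≤ c2 := div_nonneg s2 hD.le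
  have hσ : 0 < c0 + c1 + c2 := by positivity
  set t : V3 := (c0 / (c0 + c1 + c2), c1 / (c0 + c1 + c2), c2 / (c0 + c1 + c2)) with ht0
  have ht : t ∈ Tri := ⟨by simp only [ht0]; positivity, by simp only [ht0]; positivity,
    by simp only [ht0]; positivity, by simp only [ht0]; field_simp⟩
  have hu : S.u k t = (c0 + c1 + c2)⁻¹ • U := by
    conv_rhs => rw [hcr]
    rw [u, smul_add, smul_add, smul_smul, smul_smul, smul_smul]
    simp only [ht0, div_eq_inv_mul]
  have hC : S.C k t = w := by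
    rw [S.C_eq k ht, hu, proj_smul hc (by positivity), cay_proj_uinv S.z hw1]
  refine ⟨t, ht, by simp only [ht0]; positivity, ?_⟩
  rw [g, hC, hnw, Real.pow_rpow_inv_natCast hr hm.ne']
  rcases hr.eq_or_lt with rfl | hr
  · simp
  have h5 := S.C_polar k ht
  rw [hC, hnw] at h5
  have h6 : ex x = ex (S.vt k t) :=
    mul_left_cancel₀ (by exact_mod_cast (pow_pos hr m).ne') (hw'.symm.trans h5)
  obtain ⟨j, hj⟩ := ex_eq_iff.1 h6
  obtain ⟨y1, y2⟩ := S.vt_mem k ht
  have : j = 0 := by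
    have a1 : (j : ℝ) < 1 := by nlinarith [hx.1, hx.2, Real.pi_pos]
    have a2 : (-1 : ℝ) < j := by nlinarith [hx.1, hx.2, Real.pi_pos]
    have a3 : j < 1 := by exact_mod_cast a1
    have a4 : -1 < j := by exact_mod_cast a2
    omega
  rw [hj, this]; simp

theorem isOpen_img (hm : 0 < m) (hs : ∑ j ∈ Finset.range S.n, S.al j = 2 * Real.pi * m) :
    IsOpen {w | ∃ k < S.n, ∃ t ∈ Tri, 0 < t.1 ∧ S.g m k t = w} := by
  have hm' : (0 : ℝ) < m := by positivity
  set Sec : ℕ → Set ℂ := fun k => (fun q : ℝ × ℝ => (q.1 : ℂ) * ex (q.2 / m)) ''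
    (Icc 0 1 ×ˢ Icc (S.th k) (S.th (k + 1))) with hSec
  have hcl : ∀ k, IsClosed (Sec k ∩ {w | det3 (uinv S.z (w ^ m)) (S.a k) (S.a (k + 1)) ≤ 0}) := by
    intro k
    refine IsClosed.inter (IsCompact.isClosed ((isCompact_Icc.prod isCompact_Icc).image ?_))
      (isClosed_le ?_ continuous_const)
    · have := continuous_ex; fun_prop
    · have := continuous_uinv S.z; unfold det3; fun_prop
  have : {w | ∃ k < S.n, ∃ t ∈ Tri, 0 < t.1 ∧ S.g m k t = w} = Metric.ball 0 1 \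
      ⋃ k ∈ Finset.range S.n,
        (Sec k ∩ {w | det3 (uinv S.z (w ^ m)) (S.a k) (S.a (k + 1)) ≤ 0}) := by
    ext w
    simp only [mem_ofPred_eq, mem_sdiff, mem_ball_zero_iff, mem_iUnion, Finset.mem_range,
      mem_inter_iff, not_exists, not_and, not_le]
    constructor
    · rintro ⟨k, hk, t, ht, ht0, rfl⟩
      have hC1 : ‖S.C k t‖ < 1 := by rw [S.C_eq k ht]; exact norm_cay_lt _ _
      refine ⟨by rw [norm_g]; exact Real.rpow_lt_one (norm_nonneg _) hC1 (by positivity), ?_⟩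
      rintro k' hk' ⟨⟨r, x⟩, ⟨hr, hx⟩, e⟩
      simp only at hr hx e
      obtain ⟨s, hs0, hu⟩ := eq_smul_of_proj (cone_uinv S.z (norm_cay_lt S.z (proj (S.u k t))))
        (S.cone_u k ht) (proj_uinv_cay _ _)
      rw [S.g_pow hm k ht, hu, det3_smul0]
      refine mul_pos hs0 ?_
      by_cases hp : S.p k t = 0
      · obtain ⟨f1, f2⟩ := S.p_eq_zero hp
        rw [u, f1, f2, zero_smul, zero_smul, add_zero, add_zero, det3_smul0]
        exact mul_pos ht0 (S.pos k')
      have hCn : 0 < ‖S.C k t‖ := by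
        rw [S.norm_C k ht]; exact div_pos (norm_pos_iff.2 hp) (den_pos _ (S.cone_u k ht))
      have hr' : r = ‖S.C k t‖ ^ ((m : ℝ)⁻¹) := by
        rw [← norm_g, ← e, norm_mul, norm_ex, mul_one, norm_real, Real.norm_of_nonneg hr.1]
      rw [g, ← hr'] at e
      have hr0 : (r : ℂ) ≠ 0 := by
        rw [hr']; exact_mod_cast (Real.rpow_pos_of_pos hCn _).ne'
      rcases S.cases_ang hm hs hk hk' (S.vt_mem k ht) hx (mul_left_cancel₀ hr0 e).symm with
        ⟨rfl, -⟩ | ⟨e1, -, e3⟩ | ⟨e1, -, e3⟩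
      · rw [u, det3_comb0]; exact mul_pos ht0 (S.pos k)
      · have ha : S.a (k + 1) = S.a k' := by rw [e3, S.a_mod hk]
        have : S.u k t = t.1 • vec S.z + t.2.2 • S.a k' + (0 : ℝ) • S.a (k' + 1) := by
          rw [u, S.t1_of_vt e1, ha]; simp
        rw [this, det3_comb0]; exact mul_pos ht0 (S.pos k')
      · have ha : S.a k = S.a (k' + 1) := by rw [e3, S.a_mod hk']
        have : S.u k t = t.1 • vec S.z + (0 : ℝ) • S.a k' + t.2.1 • S.a (k' + 1) := by
          rw [u, S.t2_of_vt e1, ha]; simp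
        rw [this, det3_comb0]; exact mul_pos ht0 (S.pos k')
    · rintro ⟨hw, h⟩
      have hP : 0 < 2 * Real.pi * m := by positivity
      set x := toIcoMod hP (S.th 0) (m * arg w) with hx
      have hx1 := toIcoMod_mem_Ico hP (S.th 0) (m * arg w)
      obtain ⟨k, hk, hxk⟩ := S.exists_sector S.n hx1.1 (by rw [S.th_n hs]; exact hx1.2)
      have e : (‖w‖ : ℂ) * ex (x / m) = w := by
        conv_rhs => rw [← ex_arg w]
        congr 1
        rw [ex_eq_iff]
        refine ⟨-toIcoDiv hP (S.th 0) (m * arg w), ?_⟩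
        have := toIcoMod_add_toIcoDiv_zsmul hP (S.th 0) (m * arg w)
        rw [← hx, zsmul_eq_mul] at this
        rw [div_eq_iff hm'.ne']; push_cast; linear_combination this
      obtain ⟨t, ht, ht0, hg⟩ := S.exists_t hm k (norm_nonneg w) hw hxk (by
        rw [e]; exact h k hk ⟨(‖w‖, x), ⟨⟨norm_nonneg w, hw.le⟩, hxk⟩, e⟩)
      exact ⟨k, hk, t, ht, ht0, hg.trans e⟩
  rw [this]
  exact Metric.isOpen_ball.sdiff (isClosed_biUnion_finset fun k _ => hcl k)

end Star

end Pool.Agent.Lib.MP_a25f44_gt.H43
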