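import Pool.Agent.Lib.MP_a25f44_gt.H43Cx
import Pool.Agent.Lib.MP_a25f44_gt.H43Pi

/-! The lifted complex is the universal cover of a compact quotient. -/

namespace Pool.Agent.Lib.MP_a25f44_gt.H43

open Set Function

def seg (t t' : V3) (s : ℝ) : V3 := (1 - s) • t + s • t'

theorem seg0 (t t' : V3) : seg t t' 0 = t := by simp [seg]

theorem seg1 (t t' : V3) : seg t t' 1 = t' := by simp [seg]

theorem continuous_seg (t t' : V3) : Continuous (seg t t') := by unfold seg; fun_prop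

theorem convex_Tri : Convex ℝ Tri := by
  rintro t ⟨p0, p1, p2, p3⟩ t' ⟨q0, q1, q2, q3⟩ a b ha hb hab
  refine ⟨by simp; positivity, by simp; positivity, by simp; positivity, ?_⟩
  simp only [Prod.fst_add, Prod.snd_add, Prod.smul_fst, Prod.smul_snd, smul_eq_mul]
  linear_combination a * p3 + b * q3 + hab

theorem seg_mem {t t' : V3} (h : t ∈ Tri) (h' : t' ∈ Tri) : MapsTo (seg t t') (Icc 0 1) Tri :=
  fun _ hs => convex_Tri h h' (by linarith [hs.2]) hs.1 (by ring)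

theorem e1_mem : ((0, 1, 0) : V3) ∈ Tri := rot_mem (rot_mem e0_mem)

theorem e2_mem : ((0, 0, 1) : V3) ∈ Tri := rot_mem e0_mem

namespace Cx

variable {D Γ : Type} [Group Γ] (C : Cx D Γ)

theorem finite_nb [Finite D] (u : Γ × C.M.Vtx) : {v | (C.U u ∩ C.U v).Nonempty}.Finite := by
  refine ((finite_range fun d => C.org (u.1, d)).union ((finite_range fun d => C.org (C.N (u.1, d))).union
    (finite_range fun d => C.org (C.N (C.N (u.1, d)))))).subset ?_
  rintro v ⟨x, hu, hv⟩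
  obtain ⟨e, t, ht, rfl, -, rfl⟩ := C.exists_pt_U hu
  rcases C.mem_U_cases ht hv with h | h | h
  · exact Or.inl ⟨e.2, h.1⟩
  · exact Or.inr (Or.inl ⟨e.2, h.1⟩)
  · exact Or.inr (Or.inr ⟨e.2, h.1⟩)

theorem finite_meet [Finite D] {K : Set C.X} (hK : IsCompact K) :
    {v | (K ∩ C.U v).Nonempty}.Finite := by
  obtain ⟨s, hs⟩ := hK.elim_finite_subcover C.U C.isOpen_U fun x _ => mem_iUnion.2 (C.exists_U x)
  refine (s.finite_toSet.biUnion fun u _ => C.finite_nb u).subset ?_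
  rintro v ⟨x, hx, hv⟩
  obtain ⟨u, hu, hxu⟩ := mem_iUnion₂.1 (hs hx)
  exact mem_iUnion₂.2 ⟨u, hu, x, hxu, hv⟩

theorem properly [Finite D] : ProperlyDiscontinuousSMul Γ C.X := by
  refine ⟨fun {K K'} hK hK' => (((C.finite_meet hK).prod (C.finite_meet hK')).image
    fun q => q.2.1 * q.1.1⁻¹).subset ?_⟩
  rintro γ ⟨_, ⟨x, hx, rfl⟩, hx'⟩
  obtain ⟨v, hv⟩ := C.exists_U x
  exact ⟨(v, (γ * v.1, v.2)), ⟨⟨x, hx, hv⟩, ⟨_, hx', C.smul_mem_U hv⟩⟩, by simp⟩

theorem free (γ : Γ) (x : C.X) (h : γ • x = x) : γ = 1 := by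
  obtain ⟨v, hv⟩ := C.exists_U x
  obtain ⟨⟨δ, d⟩, t, ht, rfl, h0, rfl⟩ := C.exists_pt_U hv
  rw [C.smul_pt _ _ _ ht] at h
  rcases C.mem_U_cases ht (h ▸ C.pt_mem_U (γ * δ, d) ht h0) with h1 | h1 | h1
  · exact mul_eq_right.1 (congrArg Prod.fst h1.1).symm
  · exfalso
    have h2 := C.G_of_pt h1.1 (rot_mem ht) ht h1.2 h0 ((C.pt_N _ ht).trans h.symm)
    rcases C.atl.rel _ _ _ _ (congrArg Prod.snd h1.1) (rot_mem ht) ht h2 with h3 | h3 | h3 | h3
    · exact C.M.nx_ne d h3.1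
    · exact h0.ne' h3.2.1
    · exact C.M.op_ne d ((sg_nx C.M d).symm.trans h3.2.2.2.symm)
    · exact h0.ne' h3.2.1
  · exfalso
    have h2 := C.G_of_pt h1.1 (rot_mem (rot_mem ht)) ht h1.2 h0
      ((C.pt_N _ (rot_mem ht)).trans ((C.pt_N _ ht).trans h.symm))
    rcases C.atl.rel _ _ _ _ (congrArg Prod.snd h1.1) (rot_mem (rot_mem ht)) ht h2 with
      h3 | h3 | h3 | h3
    · have h4 : C.M.nx (C.M.nx d) = d := h3.1
      have := C.M.nx3 d
      rw [h4] at this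
      exact C.M.nx_ne d this
    · exact h0.ne' h3.1
    · exact h0.ne' h3.1
    · exact C.M.op_ne _ ((sg_eq C.M d).symm.trans h3.2.2.2.symm)

theorem compact [Finite D] : CompactSpace (MulAction.orbitRel.Quotient Γ C.X) := by
  refine ⟨(isCompact_iUnion fun d : D => (isCompact_Tri.image_of_continuousOn
    (C.continuousOn_pt (1, d))).image (f := Quotient.mk (MulAction.orbitRel Γ C.X))
      continuous_quotient_mk').of_isClosed_subset isClosed_univ ?_⟩
  rintro ⟨x⟩ -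
  obtain ⟨⟨γ, d⟩, t, ht, rfl⟩ := C.exists_pt x
  refine mem_iUnion.2 ⟨d, _, ⟨t, ht, rfl⟩, Quotient.sound ⟨γ⁻¹, ?_⟩⟩
  simp only [C.smul_pt _ _ _ ht, inv_mul_cancel]

theorem joined_pt (e : Γ × D) {t t' : V3} (h : t ∈ Tri) (h' : t' ∈ Tri) :
    Joined (C.pt e t) (C.pt e t') :=
  (((convex_Tri.isPathConnected ⟨t, h⟩).joinedIn t h t' h').map_continuousOn
    (C.continuousOn_pt e)).joined

theorem pathConnected [Nonempty D] (hC : C.M.Conn C.L) : PathConnectedSpace C.X := by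
  refine ⟨⟨C.pt (1, Classical.arbitrary D) 0⟩, fun x y => ?_⟩
  obtain ⟨e, t, ht, rfl⟩ := C.exists_pt x
  obtain ⟨e', t', ht', rfl⟩ := C.exists_pt y
  have h1 : ∀ e, pathComponent (C.pt (C.N e) (1, 0, 0)) = pathComponent (C.pt e (1, 0, 0)) :=
    fun e => pathComponent_congr (by
      rw [mem_pathComponent_iff]
      exact C.pt_N e e1_mem ▸ C.joined_pt e e0_mem e1_mem)
  have h2 := hC (fun e => pathComponent (C.pt e (1, 0, 0))) (fun γ d => h1 (γ, d))
    (fun γ d => (congrArg pathComponent (C.pt_e0 (C.org_O (γ, d)))).trans (h1 (γ, d))) e e'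
  have h3 : Joined (C.pt e (1, 0, 0)) (C.pt e' (1, 0, 0)) := by
    rw [← mem_pathComponent_iff, h2]; exact mem_pathComponent_self _
  exact (C.joined_pt e ht e0_mem).trans (h3.trans (C.joined_pt e' e0_mem ht'))

theorem sc_U [Finite D] (v : Γ × C.M.Vtx) : IsSimplyConnected (C.U v) := by
  obtain ⟨c, h1, h2, -⟩ := C.exists_chart v
  have := (C.atl.star v.2).contractibleSpace ⟨_, _, vx_out _ _, _, e0_mem, one_pos, rfl⟩
  rw [← h2] at this
  have := c.toHomeomorphSourceTarget.contractibleSpace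
  rw [← h1]
  exact SimplyConnectedSpace.ofContractible _

theorem cobound (hU : C.M.Univ C.L) (hC : C.M.Conn C.L) [Nonempty D] {H : Type} [Group H]
    (a : Γ × D → H) (h1 : ∀ e, a e * a (C.O e) = 1)
    (h2 : ∀ e, a e * a (C.N e) * a (C.N (C.N e)) = 1) :
    ∃ c : Γ × D → H, (∀ e, c (C.O e) = c (C.N e)) ∧ ∀ e, c e * a e = c (C.N e) := by
  let T : D → Equiv.Perm (Γ × H) := fun d =>
    { toFun q := (q.1 * C.L d, q.2 * a (q.1, d))
      invFun q := (q.1 * (C.L d)⁻¹, q.2 * (a (q.1 * (C.L d)⁻¹, d))⁻¹)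
      left_inv q := by simp
      right_inv q := by simp }
  obtain ⟨ψ, k, hk, hT⟩ := hU _ (fun d => (T d)⁻¹) ⟨fun d => by
      rw [inv_inv, inv_eq_iff_mul_eq_one]
      ext1 ⟨γ, g⟩
      refine Prod.ext ?_ ?_
      · change γ * C.L d * C.L (C.M.op d) = γ
        rw [C.lab.1, mul_inv_cancel_right]
      · change g * a (γ, d) * a (C.O (γ, d)) = g
        rw [mul_assoc, h1, mul_one], fun d => by
      rw [← mul_inv_rev, ← mul_inv_rev, inv_eq_one]
      ext1 ⟨γ, g⟩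
      have h3 := congrArg Prod.fst (C.N3 (γ, d))
      refine Prod.ext h3 ?_
      change g * a (γ, d) * a (C.N (γ, d)) * a (C.N (C.N (γ, d))) = g
      rw [mul_assoc, mul_assoc, ← mul_assoc (a _), h2, mul_one]⟩
  let s : Γ × D → Γ × H := fun e => ((k e.2)⁻¹ * (ψ e.1)⁻¹) (1, 1)
  have s1 : ∀ e, s (C.N e) = T e.2 (s e) := by
    intro e
    rw [inv_eq_iff_eq_inv.1 (hT e.2), ← Equiv.Perm.mul_apply]
    simp only [s, N, map_mul, mul_inv_rev, inv_inv, mul_assoc, mul_inv_cancel_left]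
  have s2 : ∀ e, s (C.O e) = s (C.N e) := fun e => by simp only [s, O, N, hk]
  have s3 : ∀ e, (s (C.N e)).1 * (C.N e).1⁻¹ = (s e).1 * e.1⁻¹ := by
    intro e
    rw [s1]
    change (s e).1 * C.L e.2 * (e.1 * C.L e.2)⁻¹ = _
    group
  have s4 := hC (fun e => (s e).1 * e.1⁻¹) (fun γ d => s3 (γ, d))
    (fun γ d => (congrArg (fun q => q.1 * (γ * C.L d)⁻¹) (s2 (γ, d))).trans (s3 (γ, d)))
    (1, Classical.arbitrary D)
  generalize (s (1, Classical.arbitrary D)).1 * ((1, Classical.arbitrary D) : Γ × D).1⁻¹ = δ at s4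
  refine ⟨fun e => (s (δ⁻¹ * e.1, e.2)).2, fun e => ?_, fun e => ?_⟩
  · have := s2 (δ⁻¹ * e.1, e.2)
    simp only [O, N, mul_assoc] at this ⊢
    rw [this]
  · have h3 := congrArg Prod.snd (s1 (δ⁻¹ * e.1, e.2))
    have h4 : (s (δ⁻¹ * e.1, e.2)).1 = e.1 := by
      have := s4 (δ⁻¹ * e.1, e.2)
      rw [eq_mul_inv_iff_mul_eq, mul_inv_cancel_left] at this
      exact this.symm
    simp only [N, mul_assoc] at h3 ⊢
    rw [h3]
    change _ = _ * a (_, _)
    rw [h4]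

theorem simplyConnected [Finite D] [Nonempty D] (hU : C.M.Univ C.L) (hC : C.M.Conn C.L) :
    SimplyConnectedSpace C.X := by
  have := C.pathConnected hC
  let x0 : C.X := Classical.arbitrary _
  let φ : Γ × D → V3 → V3 → Pi1 x0 := fun e t t' => clf x0 (C.pt e ∘ seg t t')
  have hc : ∀ e, ∀ t ∈ Tri, ∀ t' ∈ Tri, ContinuousOn (C.pt e ∘ seg t t') (Icc 0 1) :=
    fun e t ht t' ht' => (C.continuousOn_pt e).comp (continuous_seg _ _).continuousOn
      (seg_mem ht ht')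
  have p1 : ∀ e, ∀ t ∈ Tri, ∀ t' ∈ Tri, ∀ t'' ∈ Tri, φ e t t' * φ e t' t'' = φ e t t'' :=
    fun e t ht t' ht' t'' ht'' => clf_tri x0 (convex_sc (convex_Tri.starConvex ht) ⟨t, ht⟩)
      (C.continuousOn_pt e) (continuous_seg _ _).continuousOn (continuous_seg _ _).continuousOn
      (continuous_seg _ _).continuousOn (seg_mem ht ht') (seg_mem ht ht'') (seg_mem ht' ht'')
      (by rw [seg0, seg0]) (by rw [seg0, seg1]) (by rw [seg1, seg1])
  have p2 : ∀ e, ∀ t ∈ Tri, φ e t t = 1 := fun e t ht => mul_eq_left.1 (p1 e t ht t ht t ht)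
  have p3 : ∀ e, ∀ t ∈ Tri, ∀ t' ∈ Tri, φ (C.N e) (rot t) (rot t') = φ e t t' :=
    fun e t ht t' ht' => clf_congr x0 (hc e t ht t' ht') fun s hs => C.pt_N e (seg_mem ht ht' hs)
  have p4 : ∀ e, φ (C.O e) (1, 0, 0) (0, 1, 0) = φ e (0, 1, 0) (1, 0, 0) := by
    refine fun e => clf_congr x0 (hc e _ e1_mem _ e0_mem) fun s hs => ?_
    have h := seg_mem e1_mem e0_mem hs
    have e1 : seg (0, 1, 0) (1, 0, 0) s = (s, 1 - s, 0) := by simp [seg]
    have e2 : seg (1, 0, 0) (0, 1, 0) s = (1 - s, s, 0) := by simp [seg]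
    simp only [comp_apply]
    rw [e1] at h
    rw [e1, e2, C.pt_O e h]
  obtain ⟨c, c1, c2⟩ := C.cobound hU hC (fun e => φ e (1, 0, 0) (0, 1, 0))
    (fun e => by rw [p4, p1 e _ e0_mem _ e1_mem _ e0_mem, p2 e _ e0_mem])
    (fun e => by
      have q1 : φ (C.N e) (1, 0, 0) (0, 1, 0) = _ := p3 e _ e1_mem _ e2_mem
      have q2 : φ (C.N (C.N e)) (1, 0, 0) (0, 1, 0) = _ :=
        (p3 _ _ e1_mem _ e2_mem).trans (p3 e _ e2_mem _ e0_mem)
      rw [q1, q2, p1 e _ e0_mem _ e1_mem _ e2_mem, p1 e _ e0_mem _ e2_mem _ e0_mem,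
        p2 e _ e0_mem])
  have c3 : ∀ e e', C.org e = C.org e' → c e = c e' := by
    rintro ⟨γ, d⟩ ⟨γ', d'⟩ h
    obtain rfl : γ = γ' := congrArg Prod.fst h
    refine of_vx C.M (fun d => c (γ, d)) (fun d => ?_) (congrArg Prod.snd h)
    have := c1 (C.N (C.N (γ, d)))
    rwa [N3, ← sgm_eq] at this
  have hm : ∀ e, ∀ t ∈ Tri, 0 < t.1 →
      MapsTo (C.pt e ∘ seg (1, 0, 0) t) (Icc 0 1) (C.U (C.org e)) := by
    intro e t ht h0 s hs
    refine C.pt_mem_U e (seg_mem e0_mem ht hs) ?_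
    simp only [seg, Prod.fst_add, Prod.smul_fst, smul_eq_mul]
    nlinarith [hs.1, hs.2, ht.2.1, ht.2.2.1, ht.2.2.2]
  have key : ∀ e e', ∀ t ∈ Tri, ∀ t' ∈ Tri, C.org e = C.org e' → 0 < t.1 → 0 < t'.1 →
      ∀ γ : ℝ → C.X, ContinuousOn γ (Icc 0 1) → MapsTo γ (Icc 0 1) (C.U (C.org e)) →
      C.pt e t = γ 0 → C.pt e' t' = γ 1 → φ e (1, 0, 0) t * clf x0 γ = φ e' (1, 0, 0) t' :=
    fun e e' t ht t' ht' ho h0 h0' γ g1 g2 g3 g4 => by
      have := clf_tri x0 (C.sc_U (C.org e)) (f := id) (α := C.pt e ∘ seg (1, 0, 0) t)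
        (β := C.pt e' ∘ seg (1, 0, 0) t') (γ := γ) continuousOn_id (hc e _ e0_mem _ ht)
        (hc e' _ e0_mem _ ht') g1 (hm e t ht h0) (ho ▸ hm e' t' ht' h0') g2
        (by simp only [comp_apply, seg0]; exact C.pt_e0 ho) (by simp only [comp_apply, seg1, g3])
        (by simp only [comp_apply, seg1, g4])
      simpa only [id_comp] using this
  obtain ⟨f, hf⟩ := C.exists_lift (fun e t => c e * φ e (1, 0, 0) t)
    (fun e t ht => by
      have q1 : φ (C.N e) (1, 0, 0) (rot t) = _ := p3 e _ e1_mem _ ht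
      rw [q1, ← c2, mul_assoc, p1 e _ e0_mem _ e1_mem _ ht])
    (fun e e' t ht t' ht' ho h0 h0' hp => by
      rw [c3 e e' ho, ← key e e' t ht t' ht' ho h0 h0' (C.pt e ∘ seg t t) (hc e t ht t ht)
        (fun s _ => by
          have : seg t t s = t := by rw [seg, ← add_smul]; simp
          rw [comp_apply, this]; exact C.pt_mem_U e ht h0)
        (by simp only [comp_apply, seg0]) (by simp only [comp_apply, seg1, hp])]
      congr 1
      exact (mul_eq_left.2 (p2 e t ht)).symm)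
  refine sc_of_cover x0 C.U C.isOpen_U C.exists_U f fun v γ g1 g2 => ?_
  obtain ⟨e, t, ht, rfl, h0, g3⟩ := C.exists_pt_U (g2 ⟨le_rfl, zero_le_one⟩)
  obtain ⟨e', t', ht', ho, h0', g4⟩ := C.exists_pt_U (g2 ⟨zero_le_one, le_rfl⟩)
  rw [← g3, ← g4, hf e t ht, hf e' t' ht', mul_assoc,
    key e e' t ht t' ht' ho.symm h0 h0' γ g1 g2 g3 g4, c3 e e' ho.symm]

end Cx

end Pool.Agent.Lib.MP_a25f44_gt.H43
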