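import Pool.Agent.Lib.MP_a25f44_gt.H48Base

/-! Area of a cut map: prism formula and budget. -/

set_option linter.unusedSectionVars false
set_option linter.unusedVariables false

namespace Pool.Agent.Lib.MP_a25f44_gt

open Finset

section
variable {Γ Y : Type} [Group Γ] {α : Γ →* Equiv.Perm Y} {A : Y → Y → Y → ℝ}

theorem act_mul (α : Γ →* Equiv.Perm Y) (g h : Γ) (y : Y) : α (g * h) y = α g (α h y) := by
  simp

theorem IsCoc.cyc (h : IsCoc α A) (x y z : Y) : A y z x = A x y z := by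
  obtain ⟨ω, -, e⟩ := h.om
  rw [e, e]; ring

theorem IsCoc.swap (h : IsCoc α A) (x y z : Y) : A y x z = -A x y z := by
  obtain ⟨ω, a, e⟩ := h.om
  rw [e, e, a x y, a z x, a y z]; ring

theorem IsCoc.swap' (h : IsCoc α A) (x y z : Y) : A x z y = -A x y z := by
  rw [← h.cyc, h.swap, h.cyc]

theorem IsCoc.self (h : IsCoc α A) (x y : Y) : A x x y = 0 := by
  have := h.swap x x y
  linarith

theorem IsCoc.four (h : IsCoc α A) (x y z w : Y) : A x y z + A x z w = A y z w + A y w x := by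
  obtain ⟨ω, a, e⟩ := h.om
  simp only [e, a x z, a y w]; ring

/-- translation by the element in front -/
theorem IsCoc.inv' (h : IsCoc α A) (s g₁ g₂ g₃ : Γ) (x y z : Y) :
    A (α (s * g₁) x) (α (s * g₂) y) (α (s * g₃) z) = A (α g₁ x) (α g₂ y) (α g₃ z) := by
  simp only [act_mul, h.inv]

end

namespace DartMap

variable {D : Type} {M : DartMap D} {K F C : Finset D} {Γ : Type} [Group Γ] {L : D → Γ}
  {Y : Type} {α : Γ →* Equiv.Perm Y}

theorem IsLab.nx2 (hL : M.IsLab L) (d : D) : L (M.nx (M.nx d)) = (L d * L (M.nx d))⁻¹ :=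
  eq_inv_of_mul_eq_one_right (hL.2 d)

theorem face_nx (hL : M.IsLab L) {β : Type} {A : Y → Y → Y → β}
    (h1 : ∀ g x y z, A (α g x) (α g y) (α g z) = A x y z) (h2 : ∀ x y z, A y z x = A x y z)
    (pos : D → Y) (d : D) : M.face L α A pos (M.nx d) = M.face L α A pos d := by
  simp only [face, M.nx3]
  rw [← h1 (L d), ← act_mul, ← act_mul, ← mul_assoc, hL.2 d, map_one, Equiv.Perm.one_apply, h2]

variable [Fintype D] [DecidableEq D] {A : Y → Y → Y → ℝ}

theorem Closed.sum_nx (hC : M.Closed K C) (f : D → ℝ) : ∑ d ∈ C, f (M.nx d) = ∑ d ∈ C, f d :=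
  sum_equiv M.nx (fun d => (hC.nx_mem_iff d).symm) fun _ _ => rfl

theorem Closed.compl (hC : M.Closed K C) (hK : ∀ d ∈ K, M.op d ∈ K) : M.Closed K Cᶜ :=
  ⟨fun d hd => by rwa [mem_compl, hC.nx_mem_iff, ← mem_compl],
    fun d hd k => by rwa [mem_compl, hC.op_mem_iff hK k, ← mem_compl]⟩

theorem prism (hL : M.IsLab L) (hA : IsCoc α A) (hC : M.Closed K C)
    (hK : ∀ d ∈ K, M.op d ∈ K) {p q : D → Y} (hp : M.Compat K p) (hq : M.Compat K q) :
    ∑ d ∈ C, M.face L α A p d - ∑ d ∈ C, M.face L α A q d =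
      3 * ∑ w ∈ C ∩ K, (A (p w) (α (L w) (p (M.nx w))) (α (L w) (q (M.nx w))) +
        A (p w) (α (L w) (q (M.nx w))) (q w)) := by
  set Q : D → ℝ := fun w => A (p w) (α (L w) (p (M.nx w))) (α (L w) (q (M.nx w))) +
    A (p w) (α (L w) (q (M.nx w))) (q w) with hQ
  have h1 : ∀ d, M.face L α A p d - M.face L α A q d = Q d + Q (M.nx d) + Q (M.nx (M.nx d)) := by
    intro d
    simp only [hQ, face, M.nx3]
    rw [← hA.inv (L d) (p (M.nx d)), ← hA.inv (L d) (p (M.nx d)),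
      ← hA.inv (L d * L (M.nx d)) (p (M.nx (M.nx d))),
      ← hA.inv (L d * L (M.nx d)) (p (M.nx (M.nx d)))]
    simp only [← act_mul, hL.2 d, map_one, Equiv.Perm.one_apply]
    obtain ⟨ω, a, e⟩ := hA.om
    simp only [e]
    rw [a (p d) (α (L d) (q (M.nx d))), a (q d) (α (L d) (q (M.nx d))),
      a (α (L d) (p (M.nx d))) (α (L d * L (M.nx d)) (q (M.nx (M.nx d)))),
      a (α (L d) (q (M.nx d))) (α (L d * L (M.nx d)) (q (M.nx (M.nx d)))),
      a (α (L d) (p (M.nx d))) (α (L d) (q (M.nx d))),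
      a (α (L d * L (M.nx d)) (p (M.nx (M.nx d)))) (q d),
      a (α (L d * L (M.nx d)) (p (M.nx (M.nx d)))) (α (L d * L (M.nx d)) (q (M.nx (M.nx d)))),
      a (p d) (q d), a (q d) (α (L d * L (M.nx d)) (q (M.nx (M.nx d))))]
    ring
  have nK : ∀ d, d ∉ K → M.op d ∉ K := fun d hd c => hd (by simpa [M.op2] using hK _ c)
  have h2 : ∀ d, d ∉ K → Q d + Q (M.op d) = 0 := by
    intro d hd
    have e1 := hp _ (nK d hd)
    have e2 := hq _ (nK d hd)
    rw [M.op2] at e1 e2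
    simp only [hQ, hp d hd, hq d hd, ← e1, ← e2, hL.1]
    rw [← hA.inv (L d) (p (M.nx d)), ← hA.inv (L d) (p (M.nx d))]
    simp only [← act_mul, mul_inv_cancel, map_one, Equiv.Perm.one_apply]
    have := hA.four (p d) (α (L d) (p (M.nx d))) (α (L d) (q (M.nx d))) (q d)
    rw [this, hA.swap' (α (L d) (p (M.nx d))) (q d), hA.swap' (α (L d) (p (M.nx d))) (p d)]
    ring
  have h3 : ∑ d ∈ C \ K, Q d = 0 :=
    sum_involution (fun d _ => M.op d) (fun d hd => h2 d (mem_sdiff.1 hd).2)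
      (fun d _ _ => M.op_ne d)
      (fun d hd => mem_sdiff.2 ⟨hC.2 d (mem_sdiff.1 hd).1 (mem_sdiff.1 hd).2,
        nK d (mem_sdiff.1 hd).2⟩) fun d _ => M.op2 d
  rw [← sum_sub_distrib, sum_congr rfl fun d _ => h1 d, sum_add_distrib, sum_add_distrib,
    hC.sum_nx Q, hC.sum_nx fun d => Q (M.nx d), hC.sum_nx Q, ← sum_inter_add_sum_sdiff C K Q, h3]
  ring

theorem sum_tri (M : DartMap D) (x : D) (f : D → ℝ) :
    ∑ d ∈ M.tri x, f d = f x + f (M.nx x) + f (M.nx (M.nx x)) := by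
  rw [tri, sum_insert (by simp [(M.nx_ne x).symm, (M.nx2_ne x).symm]),
    sum_pair (M.nx2_ne_nx x).symm, add_assoc]

theorem sum_tri_face (hL : M.IsLab L) (hA : IsCoc α A) (pos : D → Y) (x : D) :
    ∑ d ∈ M.tri x, M.face L α A pos d = 3 * M.face L α A pos x := by
  simp only [sum_tri, face_nx hL hA.inv hA.cyc]; ring

open Classical in
theorem PS.sum_compl (h : M.PS K F) (f : D → ℝ) : ∑ d ∈ Fᶜ, f d =
    ∑ d ∈ univ.filter (M.Good K F), f d + ∑ w ∈ K \ F, ∑ d ∈ M.tri w, f d := by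
  have nt : ∀ a ∈ K, ∀ b ∈ K \ F, a ∈ M.tri b → a = b := fun a ha b hb c => by
    obtain ⟨p1, p2⟩ := h.nx_notMem (mem_sdiff.1 hb).1 (mem_sdiff.1 hb).2
    rcases mem_tri.1 c with g | g | g
    exacts [g, absurd (g ▸ ha) p1, absurd (g ▸ ha) p2]
  rw [← sum_biUnion (fun a ha b hb ne => tri_disjoint fun c =>
    ne (nt b (mem_sdiff.1 hb).1 a ha c).symm), ← sum_union]
  · refine sum_congr ?_ fun _ _ => rfl
    ext d
    simp only [mem_compl, mem_union, mem_filter, mem_univ, true_and, mem_biUnion, mem_sdiff]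
    constructor
    · intro hF
      by_cases c : d ∈ K
      · exact .inr ⟨d, ⟨c, hF⟩, by simp [tri]⟩
      · exact (h.good_or c hF).imp id fun ⟨w, h1, h2, h3⟩ => ⟨w, ⟨h1, h2⟩, mem_tri.2 (.inr h3)⟩
    · rintro (g | ⟨w, ⟨-, h2⟩, h3⟩)
      · exact g.1
      · exact fun c => h2 (h.cl.tri_subset c (by rw [tri_eq_of_mem h3]; simp [tri]))
  · refine disjoint_left.2 fun d h1 h2 => ?_
    obtain ⟨w, hw, h3⟩ := mem_biUnion.1 h2
    have g := (mem_filter.1 h1).2
    have : w ∈ M.tri d := by rw [tri_eq_of_mem h3]; simp [tri]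
    rcases mem_tri.1 this with rfl | rfl | rfl
    exacts [g.2.1 (mem_sdiff.1 hw).1, g.2.2.1 (mem_sdiff.1 hw).1, g.2.2.2 (mem_sdiff.1 hw).1]

open Classical in
theorem PS.budget (h : M.PS K F) (hL : M.IsLab L) (hA : IsCoc α A) (o : Y) (a : Γ → ℝ) (P : D → Y)
    (h1 : ∀ w ∈ K, w ∉ F → ∀ y, A (P w) (α (L w) (P w)) y = 0)
    (h2 : ∀ w ∈ K, w ∉ F → a (L w) = A (P w) o (α (L w) o)) :
    M.lam L α A o a K F =
      ∑ d ∈ univ.filter (M.Good K F), (Real.pi - M.face L α A (fun d => P (M.vtx K d)) d) := by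
  have hp : M.Compat K fun d => P (M.vtx K d) := fun d hd => by simp only [h.cut.vtx_op d hd]
  have e1 := prism hL hA (h.cl.compl h.cut.inv) h.cut.inv hp (q := fun _ => o) fun _ _ => rfl
  have e2 : Fᶜ ∩ K = K \ F := by ext; simp [and_comm]
  have e3 : ∑ w ∈ K \ F, (A (P (M.vtx K w)) (α (L w) (P (M.vtx K (M.nx w)))) (α (L w) o) +
      A (P (M.vtx K w)) (α (L w) o) o) = -∑ w ∈ K \ F, a (L w) := by
    rw [← sum_neg_distrib]
    refine sum_congr rfl fun w hw => ?_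
    obtain ⟨w1, w2⟩ := mem_sdiff.1 hw
    rw [h.cut.vtx_self w1, h.loop w w1 w2, h1 w w1 w2, h2 w w1 w2, hA.swap', zero_add]
  have e4 := h.sum_compl (M.face L α A fun d => P (M.vtx K d))
  have e5 := h.sum_compl fun _ => 1
  have e6 : ∑ w ∈ K \ F, ∑ d ∈ M.tri w, M.face L α A (fun d => P (M.vtx K d)) d = 0 :=
    sum_eq_zero fun w hw => by
      obtain ⟨w1, w2⟩ := mem_sdiff.1 hw
      rw [sum_tri_face hL hA, face, h.cut.vtx_self w1, h.loop w w1 w2, h1 w w1 w2, mul_zero]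
  rw [e2, e3] at e1
  simp only [sum_const, card_tri, nsmul_eq_mul, mul_one, Nat.cast_ofNat] at e5
  rw [lam, sum_sub_distrib, sum_const, nsmul_eq_mul, e5]
  linear_combination e1 - e4 - e6

theorem sum_compl_eq (F : Finset D) (f : D → ℝ) : ∑ d ∈ Fᶜ, f d = ∑ d, f d - ∑ d ∈ F, f d := by
  rw [← sum_compl_add_sum F f]; ring

theorem card_compl_eq (F : Finset D) : (Fᶜ.card : ℝ) = Fintype.card D - F.card := by
  have := sum_compl_eq F fun _ => 1
  simpa using this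

theorem Pants.lam_eq {x : D} (h : M.Pants x) (hL : M.IsLab L) (hA : IsCoc α A) (o : Y)
    (a : Γ → ℝ) : M.lam L α A o a (M.triK x) (M.tri x) =
      Real.pi * ((Fintype.card D : ℝ) - 12) - ∑ d, M.face L α A (fun _ => o) d +
        3 * (a (L (M.op (M.nx (M.nx x)))) + a (L (M.op (M.nx x))) + a (L (M.op x)) -
          A o (α (L (M.op (M.nx (M.nx x)))) o)
            (α (L (M.op (M.nx (M.nx x))) * L (M.op (M.nx x))) o)) := by
  have n1 : M.op x ≠ M.op (M.nx x) := op_inj.not.2 (M.nx_ne x).symm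
  have n2 : M.op x ≠ M.op (M.nx (M.nx x)) := op_inj.not.2 (M.nx2_ne x).symm
  have n3 : M.op (M.nx x) ≠ M.op (M.nx (M.nx x)) := op_inj.not.2 (M.nx2_ne_nx x).symm
  rw [lam, h.cut.tr.triK_sdiff, card_eq_three.2 ⟨_, _, _, n1, n2, n3, rfl⟩,
    sum_insert (by simp [n1, n2]), sum_pair n3, card_compl_eq, card_tri, sum_compl_eq,
    sum_tri_face hL hA, face, hA.swap' o]
  simp only [hL.1, hL.nx2, inv_inv, mul_inv_cancel_right]
  push_cast
  ring

end DartMap

end Pool.Agent.Lib.MP_a25f44_gt
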