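import Pool.Agent.Lib.MP_a25f44_gt.H48Defs

/-! Vertices of a cut map. -/

set_option linter.unusedSectionVars false
set_option linter.unusedVariables false

namespace Pool.Agent.Lib.MP_a25f44_gt

open Finset

namespace DartMap

variable {D : Type} {M : DartMap D} {K F C : Finset D}

theorem nx_inj {a b : D} : M.nx a = M.nx b ↔ a = b := M.nx.injective.eq_iff

theorem op_inj {a b : D} : M.op a = M.op b ↔ a = b := M.op.injective.eq_iff

theorem op_eq_iff {a b : D} : M.op a = b ↔ a = M.op b :=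
  ⟨fun h => by rw [← h, M.op2], fun h => by rw [h, M.op2]⟩

theorem nx_eq_iff {a b : D} : M.nx a = b ↔ a = M.nx (M.nx b) :=
  ⟨fun h => by rw [← h, M.nx3], fun h => by rw [h, M.nx3]⟩

theorem nx2_ne (M : DartMap D) (d : D) : M.nx (M.nx d) ≠ d := fun h =>
  M.nx_ne d (by have := congrArg M.nx h; rw [M.nx3] at this; exact this.symm)

theorem nx2_ne_nx (M : DartMap D) (d : D) : M.nx (M.nx d) ≠ M.nx d := M.nx_ne _

theorem sg_nx (M : DartMap D) (d : D) : M.sg (M.nx d) = M.op d := by simp [sg]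

theorem sg_inv_op (M : DartMap D) (d : D) : M.sg⁻¹ (M.op d) = M.nx d := by
  rw [← sg_nx]; simp

variable [Fintype D]

theorem Tr.ind (h : M.Tr) {Q : D → Prop} {x : D} (h0 : Q x)
    (h1 : ∀ d, Q (M.nx d) → Q (M.op d)) (d : D) : Q d := by
  classical
  obtain ⟨n, -, rfl⟩ := (h x d).exists_pow_eq'
  induction n with
  | zero => simpa using h0
  | succ n ih =>
    rw [pow_succ', Equiv.Perm.mul_apply, ← M.nx3 ((M.sg ^ n) x), sg_nx]
    exact h1 _ (by rwa [M.nx3])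

theorem Tr.ind_rev (h : M.Tr) {Q : D → Prop} {x : D} (h0 : Q x)
    (h1 : ∀ d, Q (M.op d) → Q (M.nx d)) (d : D) : Q d := by
  classical
  obtain ⟨n, -, rfl⟩ := (Equiv.Perm.sameCycle_inv.2 (h x d)).exists_pow_eq'
  induction n with
  | zero => simpa using h0
  | succ n ih =>
    rw [pow_succ', Equiv.Perm.mul_apply, ← M.op2 ((M.sg⁻¹ ^ n) x), sg_inv_op]
    exact h1 _ (by rwa [M.op2])

omit [Fintype D] in
theorem tr_of_ind (x : D)
    (h : ∀ Q : D → Prop, Q x → (∀ d, Q (M.nx d) ↔ Q (M.op d)) → ∀ d, Q d) : M.Tr := by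
  have k := h (fun d => M.sg.SameCycle x d) (Equiv.Perm.SameCycle.refl _ _) fun d => by
    rw [← sg_nx, Equiv.Perm.sameCycle_apply_right]
  exact fun d d' => (k d).symm.trans (k d')

theorem Tr.op_ne_nx (h : M.Tr) (d : D) : M.op d ≠ M.nx d := fun e =>
  M.nx_ne d (h.ind (Q := fun y => y = M.nx d) rfl
    (fun c hc => by rw [nx_inj.1 hc, e]) d).symm

theorem Tr.op_ne_nx2 (h : M.Tr) (d : D) : M.op d ≠ M.nx (M.nx d) := fun e =>
  h.op_ne_nx (M.op d) (by rw [M.op2, e, M.nx3])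

theorem IsCut.ind (h : M.IsCut K) {Q : D → Prop} (h0 : ∀ w ∈ K, Q w)
    (h1 : ∀ d, d ∉ K → Q (M.nx d) → Q (M.op d)) (d : D) : Q d := by
  obtain ⟨w, hw⟩ := h.ne
  refine h.tr.ind (h0 w hw) (fun d hd => ?_) d
  by_cases c : d ∈ K
  · exact h0 _ (h.inv d c)
  · exact h1 d c hd

omit [Fintype D] in
theorem IsCut.op_notMem (h : M.IsCut K) {d : D} (hd : d ∉ K) : M.op d ∉ K := fun c =>
  hd (by simpa [M.op2] using h.inv _ c)

theorem IsCut.ind_rev (h : M.IsCut K) {Q : D → Prop} (h0 : ∀ w ∈ K, Q (M.nx w))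
    (h1 : ∀ d, d ∉ K → Q (M.op d) → Q (M.nx d)) (d : D) : Q d := by
  obtain ⟨w, hw⟩ := h.ne
  refine h.tr.ind_rev (h0 w hw) (fun d hd => ?_) d
  by_cases c : d ∈ K
  · exact h0 _ c
  · exact h1 d c hd

omit [Fintype D] in
theorem IsCut.start_unique (h : M.IsCut K) {v w d : D} (hv : v ∈ K) (hw : w ∈ K)
    (h1 : Relation.ReflTransGen (M.Step K) v d) (h2 : Relation.ReflTransGen (M.Step K) w d) :
    v = w := by
  have k : ∀ {x y}, y ∈ K → ¬M.Step K x y := by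
    rintro x y hy ⟨c, hc, -, rfl⟩
    exact h.op_notMem hc hy
  induction h1 with
  | refl =>
    rcases h2.cases_tail with e | ⟨c, -, hc⟩
    · exact e
    · exact absurd hc (k hv)
  | tail _ hs ih =>
    rcases h2.cases_tail with e | ⟨c, h3, hc⟩
    · exact absurd hs (k (e ▸ hw))
    · obtain ⟨a, -, rfl, ha⟩ := hs
      obtain ⟨b, -, rfl, hb⟩ := hc
      rw [op_inj.1 (ha.symm.trans hb)] at ih
      exact ih h3

theorem IsCut.vtx_spec (h : M.IsCut K) (d : D) :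
    M.vtx K d ∈ K ∧ Relation.ReflTransGen (M.Step K) (M.vtx K d) d := by
  have : ∃ w ∈ K, Relation.ReflTransGen (M.Step K) w d :=
    h.ind (Q := fun d => ∃ w ∈ K, Relation.ReflTransGen (M.Step K) w d)
      (fun w hw => ⟨w, hw, .refl⟩) (fun c hc ⟨w, hw, k⟩ => ⟨w, hw, k.tail ⟨c, hc, rfl, rfl⟩⟩) d
  rw [vtx, dif_pos this]
  exact this.choose_spec

theorem IsCut.vtx_mem (h : M.IsCut K) (d : D) : M.vtx K d ∈ K := (h.vtx_spec d).1

theorem IsCut.vtx_self (h : M.IsCut K) {w : D} (hw : w ∈ K) : M.vtx K w = w :=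
  h.start_unique (h.vtx_mem w) hw (h.vtx_spec w).2 .refl

theorem IsCut.vtx_op (h : M.IsCut K) : M.Compat K (M.vtx K) := fun d hd =>
  h.start_unique (h.vtx_mem _) (h.vtx_mem _) (h.vtx_spec _).2
    ((h.vtx_spec _).2.tail ⟨d, hd, rfl, rfl⟩)

theorem IsCut.eq_vtx (h : M.IsCut K) {β : Type} {f : D → β} (hf : M.Compat K f) (d : D) :
    f d = f (M.vtx K d) :=
  h.ind (Q := fun d => f d = f (M.vtx K d)) (fun w hw => by rw [h.vtx_self hw])
    (fun c hc k => by rw [hf c hc, k, h.vtx_op c hc]) d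

/-- characterisation of `vtx` -/
theorem IsCut.vtx_eq (h : M.IsCut K) {f : D → D} (hf : M.Compat K f) (h0 : ∀ w ∈ K, f w = w) :
    M.vtx K = f := funext fun d => by rw [h.eq_vtx hf d, h0 _ (h.vtx_mem d)]

theorem IsCut.succ_inj (h : M.IsCut K) {v w : D} (hv : v ∈ K) (hw : w ∈ K)
    (e : M.vtx K (M.nx v) = M.vtx K (M.nx w)) : v = w := by
  have k : ∀ {x y}, x ∈ K → ¬M.Step K (M.nx x) y := by
    rintro x y hx ⟨c, hc, e, -⟩
    exact hc (nx_inj.1 e ▸ hx)
  have h1 := (h.vtx_spec (M.nx v)).2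
  have h2 := (h.vtx_spec (M.nx w)).2
  rw [← e] at h2
  generalize M.vtx K (M.nx v) = u at h1 h2
  induction h1 using Relation.ReflTransGen.head_induction_on with
  | refl =>
    rcases h2.cases_head with e | ⟨c, hc, -⟩
    · exact nx_inj.1 e
    · exact absurd hc (k hv)
  | head hs _ ih =>
    rcases h2.cases_head with e | ⟨c, hc, h3⟩
    · exact absurd (e ▸ hs) (k hw)
    · obtain ⟨a, -, ha, rfl⟩ := hs
      obtain ⟨b, -, hb, rfl⟩ := hc
      rw [← nx_inj.1 (ha.symm.trans hb)] at h3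
      exact ih h3

/-- a set of vertices of the cut map that is stable under crossing the cut is everything -/
theorem IsCut.all_of_cross (h : M.IsCut K) {Q : D → Prop} {x : D} (hx : x ∈ K) (h0 : Q x)
    (h1 : ∀ w ∈ K, Q (M.vtx K (M.nx w)) → Q (M.op w)) {w : D} (hw : w ∈ K) : Q w := by
  have := h.tr.ind (Q := fun d => Q (M.vtx K d)) (x := x) (by rwa [h.vtx_self hx]) (fun d hd => by
    by_cases c : d ∈ K
    · rw [h.vtx_self (h.inv d c)]
      exact h1 d c hd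
    · rwa [h.vtx_op d c]) w
  rwa [h.vtx_self hw] at this

theorem IsCut.succ_ne_op (h : M.IsCut K) {w : D} (hw : w ∈ K) : M.vtx K (M.nx w) ≠ M.op w :=
  fun e => M.op_ne w (h.all_of_cross (Q := fun d => d = M.op w) (h.inv w hw) rfl
    (fun v hv k => by rw [h.succ_inj hv hw (k.trans e.symm)]) hw).symm

theorem IsCut.vtx_mono {K' : Finset D} (h : M.IsCut K) (h' : M.IsCut K') (hK : K' ⊆ K) (d : D) :
    M.vtx K' d = M.vtx K' (M.vtx K d) :=
  h.eq_vtx (fun c hc => h'.vtx_op c fun k => hc (hK k)) d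

theorem Closed.vtx_mem_iff (h : M.Closed K C) (hK : M.IsCut K) (d : D) :
    M.vtx K d ∈ C ↔ d ∈ C := by
  have := hK.eq_vtx (f := fun d => d ∈ C) (fun c hc => propext ⟨fun k => h.1 _ (by
    simpa [M.op2] using h.2 _ k (hK.op_notMem hc)), fun k => h.2 _ (by
      simpa [M.nx3] using h.1 _ (h.1 _ k)) hc⟩) d
  exact (iff_of_eq this).symm

omit [Fintype D] in
theorem Closed.nx_mem_iff (h : M.Closed K C) (d : D) : M.nx d ∈ C ↔ d ∈ C :=
  ⟨fun k => by simpa [M.nx3] using h.1 _ (h.1 _ k), h.1 d⟩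

omit [Fintype D] in
theorem Closed.op_mem_iff (h : M.Closed K C) (hK : ∀ d ∈ K, M.op d ∈ K) {d : D} (hd : d ∉ K) :
    M.op d ∈ C ↔ d ∈ C :=
  ⟨fun k => by simpa [M.op2] using h.2 _ k fun c => hd (by simpa [M.op2] using hK _ c),
    fun k => h.2 d k hd⟩

theorem PS.nx_notMem (h : M.PS K F) {w : D} (hw : w ∈ K) (hF : w ∉ F) :
    M.nx w ∉ K ∧ M.nx (M.nx w) ∉ K := by
  refine ⟨fun c => M.nx_ne w ?_, fun c => M.nx2_ne w ?_⟩
  · rw [← h.cut.vtx_self c, h.loop w hw hF]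
  · have := h.loop _ c (by rwa [h.cl.nx_mem_iff, h.cl.nx_mem_iff])
    rw [M.nx3, h.cut.vtx_self hw] at this
    exact this.symm

variable [DecidableEq D]

theorem Tr.isCut_edge (h : M.Tr) (e : D) : M.IsCut {e, M.op e} :=
  ⟨h, by simp [M.op2], by simp⟩

theorem Tr.ps_edge (h : M.Tr) (e : D) : M.PS {e, M.op e} ∅ := by
  have hK := h.isCut_edge e
  refine ⟨hK, ⟨by simp, by simp⟩, fun w hw _ => ?_⟩
  have h1 := hK.vtx_mem (M.nx w)
  have h2 := hK.succ_ne_op hw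
  simp only [mem_insert, mem_singleton] at hw h1
  rcases hw with rfl | rfl
  · tauto
  · rw [M.op2] at h2
    tauto

omit [Fintype D] in
theorem mem_tri {x d : D} : d ∈ M.tri x ↔ d = x ∨ d = M.nx x ∨ d = M.nx (M.nx x) := by
  simp [tri]

omit [Fintype D] in
theorem card_tri (M : DartMap D) (x : D) : (M.tri x).card = 3 :=
  card_eq_three.2 ⟨_, _, _, (M.nx_ne x).symm, (M.nx2_ne x).symm, (M.nx2_ne_nx x).symm, rfl⟩

omit [Fintype D] in
theorem nx_mem_tri {x d : D} : M.nx d ∈ M.tri x ↔ d ∈ M.tri x := by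
  simp only [mem_tri, nx_inj, nx_eq_iff (b := x)]
  tauto

omit [Fintype D] in
theorem tri_eq_of_mem {x d : D} (h : d ∈ M.tri x) : M.tri d = M.tri x := by
  rcases mem_tri.1 h with rfl | rfl | rfl <;> ext y <;> simp only [mem_tri, M.nx3] <;> tauto

omit [Fintype D] in
theorem tri_disjoint {x y : D} (h : y ∉ M.tri x) : Disjoint (M.tri x) (M.tri y) :=
  disjoint_left.2 fun d h1 h2 => h (by
    rw [← tri_eq_of_mem h1, tri_eq_of_mem h2]; simp [tri])

theorem Tr.op_notMem_tri (h : M.Tr) {x d : D} (hd : d ∈ M.tri x) : M.op d ∉ M.tri x := by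
  rw [← tri_eq_of_mem hd, mem_tri]
  have := M.op_ne d
  have := h.op_ne_nx d
  have := h.op_ne_nx2 d
  tauto

omit [Fintype D] in
theorem mem_triK {x d : D} : d ∈ M.triK x ↔ d ∈ M.tri x ∨ M.op d ∈ M.tri x := by
  simp only [triK, mem_union, mem_image]
  refine or_congr Iff.rfl ⟨?_, fun h => ⟨_, h, M.op2 d⟩⟩
  rintro ⟨a, ha, rfl⟩
  rwa [M.op2]

omit [Fintype D] in
theorem Closed.tri_subset (h : M.Closed K C) {d : D} (hd : d ∈ C) : M.tri d ⊆ C := fun y hy => by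
  rcases mem_tri.1 hy with rfl | rfl | rfl
  exacts [hd, h.1 _ hd, h.1 _ (h.1 _ hd)]

theorem PS.exists_ann (h : M.PS K F) (hn : ¬M.NoAnn K F) :
    ∃ v ∈ K, ∃ w ∈ K, v ∉ F ∧ w ∉ F ∧ v ≠ w ∧ M.Ann v w := by
  simp only [NoAnn, not_forall, not_lt] at hn
  obtain ⟨C, hC, hF, ⟨d, hd⟩, h6⟩ := hn
  have ht := h.cut.tr
  have hv := h.cut.vtx_mem d
  have vC := (hC.vtx_mem_iff h.cut d).2 hd
  generalize M.vtx K d = v at hv vC
  have vF : v ∉ F := disjoint_left.1 hF vC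
  obtain ⟨p1, p2⟩ := h.nx_notMem hv vF
  set r := M.op (M.nx v) with hr
  have rC : r ∈ C := hC.2 _ (hC.1 _ vC) p1
  have r1 : r ∉ M.tri v := ht.op_notMem_tri (by simp [tri])
  have e : M.tri v ∪ M.tri r = C := eq_of_subset_of_card_le
    (union_subset (hC.tri_subset vC) (hC.tri_subset rC))
    (by rw [card_union_of_disjoint (tri_disjoint r1), card_tri, card_tri]; exact h6)
  have k : ∀ y ∈ C, y ∈ M.tri v ∨ y ∈ M.tri r := fun y hy => mem_union.1 (e ▸ hy)
  have s1 : M.op (M.nx (M.nx v)) ∈ M.tri r :=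
    (k _ (hC.2 _ (hC.1 _ (hC.1 _ vC)) p2)).resolve_left (ht.op_notMem_tri (by simp [tri]))
  have third : ∀ y ∈ M.tri r, y ≠ r → y ≠ M.op (M.nx (M.nx v)) → y ∈ K := fun y hy h1 h2 => by
    by_contra c
    have := (k _ (hC.2 _ (hC.tri_subset rC hy) c)).resolve_right (ht.op_notMem_tri hy)
    rcases mem_tri.1 this with g | g | g
    · exact h.cut.op_notMem c (g ▸ hv)
    · exact h1 (op_eq_iff.1 g)
    · exact h2 (op_eq_iff.1 g)
  have v1 : M.vtx K (M.nx r) = v := by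
    rw [← h.cut.vtx_op r (h.cut.op_notMem p1), hr, M.op2, h.loop v hv vF]
  rcases mem_tri.1 s1 with g | g | g
  · exact absurd (op_inj.1 g) (M.nx2_ne_nx v)
  · have w1 := third (M.nx (M.nx r)) (by simp [tri]) (M.nx2_ne r) (g ▸ M.nx2_ne_nx r)
    refine ⟨v, hv, _, w1, vF, disjoint_left.1 hF (hC.1 _ (hC.1 _ rC)), fun c => r1 ?_, ?_, ?_⟩
    · rw [c, mem_tri, M.nx3]; tauto
    · rw [M.nx3]
    · rw [M.nx3, g]
  · have w1 := third (M.nx r) (by simp [tri]) (M.nx_ne r) (g ▸ (M.nx2_ne_nx r).symm)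
    rw [h.cut.vtx_self w1] at v1
    exact absurd (by rw [← v1, mem_tri, M.nx3]; tauto) r1

theorem PS.closed_ann (h : M.PS K F) {v w : D} (hv : v ∈ K) (hw : w ∈ K) (ha : M.Ann v w) :
    M.Closed K (M.tri v ∪ M.tri w) := by
  refine ⟨fun d hd => by simpa only [mem_union, nx_mem_tri] using hd, fun d hd hK => ?_⟩
  simp only [mem_union, mem_tri] at hd ⊢
  rcases hd with (rfl | rfl | rfl) | rfl | rfl | rfl
  · exact absurd hv hK
  · simp [ha.1]
  · simp [ha.2]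
  · exact absurd hw hK
  · simp [← ha.1, M.op2]
  · simp [← ha.2, M.op2]

theorem PS.ann_notMem (h : M.PS K F) {v w : D} (hv : v ∈ K) (hF : v ∉ F) (ha : M.Ann v w) :
    w ∉ F := fun c => hF (by
  have := h.cl.1 _ c
  rwa [← ha.1, h.cl.op_mem_iff h.cut.inv (h.nx_notMem hv hF).1, h.cl.nx_mem_iff] at this)

theorem PS.not_ann (h : M.PS K F) (hn : M.NoAnn K F) {v w : D} (hv : v ∈ K) (hF : v ∉ F)
    (hw : w ∈ K) : ¬M.Ann v w := fun ha => by
  have wF := h.ann_notMem hv hF ha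
  have k : ∀ {x}, x ∉ F → Disjoint (M.tri x) F := fun hx => disjoint_left.2 fun d hd c =>
    hx (h.cl.tri_subset c (by rw [tri_eq_of_mem hd]; simp [tri]))
  have := hn _ (h.closed_ann hv hw ha) (disjoint_union_left.2 ⟨k hF, k wF⟩) ⟨v, by simp [tri]⟩
  have h2 := card_union_le (M.tri v) (M.tri w)
  rw [card_tri, card_tri] at h2
  omega

theorem Tr.noAnn_edge (h : M.Tr) (e : D) (hD : 6 < Fintype.card D) : M.NoAnn {e, M.op e} ∅ := by
  by_contra c
  have hP := h.ps_edge e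
  obtain ⟨v, hv, w, hw, -, -, hne, ha⟩ := hP.exists_ann c
  have hC := hP.closed_ann hv hw ha
  have vw : M.op v = w ∧ M.op w = v := by
    simp only [mem_insert, mem_singleton] at hv hw
    rcases hv with rfl | rfl <;> rcases hw with rfl | rfl <;> simp_all [M.op2]
  have all : ∀ d, d ∈ M.tri v ∪ M.tri w := h.ind (x := v) (by simp [tri]) fun d hd => by
    rw [hC.nx_mem_iff] at hd
    by_cases g : d ∈ ({e, M.op e} : Finset D)
    · have : d = v ∨ d = w := by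
        simp only [mem_insert, mem_singleton] at hv hw g
        rcases hv with rfl | rfl <;> rcases hw with rfl | rfl <;> simp_all [or_comm]
      rcases this with rfl | rfl <;> simp [vw, tri]
    · exact hC.2 d hd g
  have h2 := card_union_le (M.tri v) (M.tri w)
  rw [card_tri, card_tri, eq_univ_iff_forall.2 all, card_univ] at h2
  omega

omit [DecidableEq D] in
/-- a dart outside `F` and `K` lies on a good face or on the face of a wall -/
theorem PS.good_or (h : M.PS K F) {d : D} (hd : d ∉ K) (hF : d ∉ F) :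
    M.Good K F d ∨ ∃ w ∈ K, w ∉ F ∧ (d = M.nx w ∨ d = M.nx (M.nx w)) := by
  by_cases c1 : M.nx d ∈ K
  · exact .inr ⟨_, c1, by rwa [h.cl.nx_mem_iff], .inr (M.nx3 d).symm⟩
  by_cases c2 : M.nx (M.nx d) ∈ K
  · exact .inr ⟨_, c2, by rwa [h.cl.nx_mem_iff, h.cl.nx_mem_iff], .inl (M.nx3 d).symm⟩
  exact .inl ⟨hF, hd, c1, c2⟩

/-- two wall faces are glued along `nx` sides or along `nx nx` sides -/
theorem PS.glue_walls (h : M.PS K F) {v w : D} (hv : v ∈ K) (vF : v ∉ F) (hw : w ∈ K)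
    (e : M.op (M.nx v) = M.nx (M.nx w)) : False := by
  have p := (h.nx_notMem hv vF).1
  have := h.cut.vtx_op _ (h.cut.op_notMem p)
  rw [M.op2, h.loop v hv vF, e, M.nx3, h.cut.vtx_self hw] at this
  exact h.cut.tr.op_ne_nx _ (this ▸ e)

theorem PS.nd (h : M.PS K F) (hn : M.NoAnn K F) {Q : D → Prop} (h0 : ∀ d, M.Good K F d → Q d)
    (h1 : ∀ d, d ∉ K → Q d → Q (M.op d))
    (h2 : ∀ w ∈ K, w ∉ F → (Q (M.nx w) ↔ Q (M.nx (M.nx w)))) {d : D} (hd : d ∉ K) (hF : d ∉ F) :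
    Q d := by
  have back : ∀ x, x ∉ K → Q (M.op x) → Q x := fun x hx k => by
    simpa [M.op2] using h1 _ (h.cut.op_notMem hx) k
  have oF : ∀ x, x ∉ K → x ∉ F → M.op x ∉ F := fun x hx k => by
    rwa [h.cl.op_mem_iff h.cut.inv hx]
  have wall : ∀ v ∈ K, v ∉ F → Q (M.nx v) := fun v hv vF => by
    obtain ⟨p1, p2⟩ := h.nx_notMem hv vF
    have f1 : M.nx v ∉ F := by rwa [h.cl.nx_mem_iff]
    have f2 : M.nx (M.nx v) ∉ F := by rwa [h.cl.nx_mem_iff]
    rcases h.good_or (h.cut.op_notMem p1) (oF _ p1 f1) with g | ⟨w, hw, wF, g | g⟩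
    · exact back _ p1 (h0 _ g)
    · rcases h.good_or (h.cut.op_notMem p2) (oF _ p2 f2) with g' | ⟨u, hu, uF, g' | g'⟩
      · exact (h2 v hv vF).2 (back _ p2 (h0 _ g'))
      · exact (h.glue_walls hu uF hv (op_eq_iff.1 g').symm).elim
      · have a1 := h.cut.vtx_op _ p1
        have a2 := h.cut.vtx_op _ (h.cut.op_notMem p2)
        rw [g, h.loop w hw wF] at a1
        rw [M.op2, g', M.nx3, h.cut.vtx_self hu, ← a1] at a2
        exact (h.not_ann hn hv vF hw ⟨g, a2 ▸ g'⟩).elim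
    · exact (h.glue_walls hv vF hw g).elim
  rcases h.good_or hd hF with g | ⟨w, hw, wF, rfl | rfl⟩
  · exact h0 d g
  · exact wall w hw wF
  · exact (h2 w hw wF).1 (wall w hw wF)

theorem Good.nx {d : D} (h : M.Good K F d) (hF : M.Closed K F) : M.Good K F (M.nx d) :=
  ⟨by rw [hF.nx_mem_iff]; exact h.1, h.2.2.1, h.2.2.2, by rw [M.nx3]; exact h.2.1⟩

theorem PS.exists_good (h : M.PS K F) (hn : M.NoAnn K F) {w : D} (hw : w ∈ K) (hF : w ∉ F) :
    ∃ d, M.Good K F d ∧ M.vtx K d = w := by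
  have := h.nd hn (Q := fun d => (∃ x, M.Good K F x ∧ M.vtx K x = M.vtx K d) ∧
      ∃ x, M.Good K F x ∧ M.vtx K x = M.vtx K (M.nx d))
    (fun d g => ⟨⟨d, g, rfl⟩, _, g.nx h.cl, rfl⟩)
    (fun d hd g => by
      rw [h.cut.vtx_op d hd, ← h.cut.vtx_op _ (h.cut.op_notMem hd), M.op2]
      exact g.symm)
    (fun v hv vF => by rw [M.nx3, h.loop v hv vF, h.cut.vtx_self hv, and_comm])
    (h.nx_notMem hw hF).1 (by rwa [h.cl.nx_mem_iff])
  simpa only [h.loop w hw hF] using this.1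

theorem Tr.triK_sdiff (h : M.Tr) (x : D) :
    M.triK x \ M.tri x = {M.op x, M.op (M.nx x), M.op (M.nx (M.nx x))} := by
  ext d
  simp only [mem_sdiff, mem_triK, mem_insert, mem_singleton, ← op_eq_iff (a := d), ← mem_tri]
  refine ⟨fun k => k.1.resolve_left k.2, fun k => ⟨.inr k, fun c => h.op_notMem_tri c k⟩⟩

theorem Pants.handle {x : D} (h : M.Pants x)
    (ha : M.Ann (M.op (M.nx (M.nx x))) (M.op (M.nx x))) :
    let F := M.tri x ∪ M.tri (M.op (M.nx (M.nx x))) ∪ M.tri (M.op (M.nx x))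
    M.PS (M.triK x) F ∧ M.NoAnn (M.triK x) F ∧ M.triK x \ F = {M.op x} ∧ F.card = 9 := by
  intro F
  have ht := h.cut.tr
  have m : ∀ d ∈ M.tri x, M.op d ∈ M.triK x ∧ M.op d ∉ M.tri x := fun d hd =>
    ⟨mem_triK.2 (.inr (by rwa [M.op2])), ht.op_notMem_tri hd⟩
  obtain ⟨v1, v2⟩ := m (M.nx (M.nx x)) (by simp [tri])
  obtain ⟨w1, w2⟩ := m (M.nx x) (by simp [tri])
  obtain ⟨u1, u2⟩ := m x (by simp [tri])
  have hC := h.closed_ann v1 w1 ha
  have nt : ∀ a ∈ M.triK x, ∀ b ∈ M.triK x, b ∉ M.tri x → a ≠ b → a ∉ M.tri b :=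
    fun a ha b hb bF ne c => by
      obtain ⟨p1, p2⟩ := h.nx_notMem hb bF
      rcases mem_tri.1 c with g | g | g
      exacts [ne g, p1 (g ▸ ha), p2 (g ▸ ha)]
  have cl : M.Closed (M.triK x) F := by
    refine ⟨fun d hd => by simpa only [F, mem_union, nx_mem_tri] using hd, fun d hd hK => ?_⟩
    simp only [F, union_assoc] at hd ⊢
    rcases mem_union.1 hd with g | g
    · exact mem_union_left _ (h.cl.2 d g hK)
    · exact mem_union_right _ (hC.2 d g hK)
  have ps : M.PS (M.triK x) F :=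
    ⟨h.cut, cl, fun w hw wF => h.loop w hw fun c => wF (by simp [F, c])⟩
  have e : M.triK x \ F = {M.op x} := by
    ext d
    simp only [mem_sdiff, mem_singleton, F, mem_union, not_or]
    constructor
    · rintro ⟨h1, ⟨h2, h3⟩, h4⟩
      have : d ∈ M.triK x \ M.tri x := mem_sdiff.2 ⟨h1, h2⟩
      rw [ht.triK_sdiff] at this
      simp only [mem_insert, mem_singleton] at this
      rcases this with g | g | g
      · exact g
      · exact absurd (by simp [g, tri]) h4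
      · exact absurd (by simp [g, tri]) h3
    · rintro rfl
      exact ⟨u1, ⟨u2, nt _ u1 _ v1 v2 (op_inj.not.2 (M.nx2_ne x).symm)⟩,
        nt _ u1 _ w1 w2 (op_inj.not.2 (M.nx_ne x).symm)⟩
  refine ⟨ps, by_contra fun c => ?_, e, ?_⟩
  · obtain ⟨a, a1, b, b1, a2, b2, ne, -⟩ := ps.exists_ann c
    have a3 : a ∈ M.triK x \ F := mem_sdiff.2 ⟨a1, a2⟩
    have b3 : b ∈ M.triK x \ F := mem_sdiff.2 ⟨b1, b2⟩
    rw [e, mem_singleton] at a3 b3
    exact ne (a3.trans b3.symm)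
  · rw [card_union_of_disjoint (disjoint_union_left.2 ⟨tri_disjoint w2,
      tri_disjoint (nt _ w1 _ v1 v2 (op_inj.not.2 (M.nx2_ne_nx x).symm))⟩),
      card_union_of_disjoint (tri_disjoint v2), card_tri, card_tri, card_tri]

theorem NoAnn.congr (hn : M.NoAnn K F) {M' : DartMap D} (h1 : M'.op = M.op)
    (h2 : ∀ d, d ∉ F → M'.nx d = M.nx d) : M'.NoAnn K F := fun C hC hF hne =>
  hn C ⟨fun d hd => h2 d (disjoint_left.1 hF hd) ▸ hC.1 d hd, fun d hd k => h1 ▸ hC.2 d hd k⟩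
    hF hne

end DartMap

end Pool.Agent.Lib.MP_a25f44_gt
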