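import Pool.Agent.Lib.MP_a25f44_gt.H48X
import Pool.Agent.Lib.MP_a25f44_gt.H33Sweep

/-! Complements on cut maps. -/

set_option linter.unusedSectionVars false

namespace Pool.Agent.Lib.MP_a25f44_gt

open Finset

namespace DartMap

variable {D : Type} [Fintype D] [DecidableEq D] {M : DartMap D} {K F C : Finset D}
  {Γ : Type} [Group Γ] {L : D → Γ}

theorem IsCut.isFlip (h : M.IsCut K) (L : D → Γ) {a : D} (ha : a ∉ K) (G : Set D) :
    A25f44.IsFlip G M L (M.vtx K) a (M.flip a) (M.flipL L a) ((M.flip a).vtx K) := by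
  obtain ⟨f1, f2, f3, f4, f5, f6, f7⟩ := h.tr.flip_nx a
  have n := M.op_ne a
  rw [h.flip_vtx ha]
  refine ⟨M.op a, a, .inr ⟨rfl, rfl⟩, rfl, f4, f5, f6, f1, f2, f3,
    fun x h1 h2 h3 h4 h5 h6 => f7 x (by simp [mem_tri, *]) (by simp [mem_tri, *]), ?_, ?_,
    fun x h1 h2 => ?_, ?_, ?_, fun x _ h1 h2 => ?_⟩ <;> simp [flipL, flipP, *]

theorem tri_nx (M : DartMap D) (x : D) : M.tri (M.nx x) = M.tri x := tri_eq_of_mem (by simp [tri])

theorem triK_nx (M : DartMap D) (x : D) : M.triK (M.nx x) = M.triK x := by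
  simp only [triK, tri_nx]

theorem Pants.nx {x : D} (h : M.Pants x) : M.Pants (M.nx x) := by
  rwa [Pants, tri_nx, triK_nx]

theorem Ann.symm {v w : D} (h : M.Ann v w) : M.Ann w v :=
  ⟨by rw [← h.1, M.op2], by rw [← h.2, M.op2]⟩

/-- labels in an annulus -/
theorem Ann.lab {v w : D} (h : M.Ann v w) (hL : M.IsLab L) :
    L w = (L (M.nx v))⁻¹ * (L v)⁻¹ * L (M.nx v) := by
  rw [eq_inv_of_mul_eq_one_right (lab_cyc (hL.2 w)).1, ← h.2, ← h.1, hL.1, hL.1, hL.nx2]
  group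

theorem Pants.walls {x : D} (h : M.Pants x) {d : D} (hd : d ∈ M.tri x) :
    M.op d ∈ M.triK x ∧ M.op d ∉ M.tri x ∧ M.vtx (M.triK x) (M.nx (M.op d)) = M.op d :=
  have a := h.cut.inv d (mem_triK.2 (.inl hd))
  ⟨a, h.cut.tr.op_notMem_tri hd, h.loop _ a (h.cut.tr.op_notMem_tri hd)⟩

/-- dichotomy for a pants state: no annulus, or a handle at one of the three rotations -/
theorem Pants.noAnn_or {x : D} (h : M.Pants x) : M.NoAnn (M.triK x) (M.tri x) ∨
    ∃ y ∈ M.tri x, M.Ann (M.op (M.nx (M.nx y))) (M.op (M.nx y)) := by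
  refine or_iff_not_imp_left.2 fun c => ?_
  obtain ⟨v, h1, w, h2, h3, h4, ne, ha⟩ := h.exists_ann c
  have a1 : v ∈ M.triK x \ M.tri x := mem_sdiff.2 ⟨h1, h3⟩
  have a2 : w ∈ M.triK x \ M.tri x := mem_sdiff.2 ⟨h2, h4⟩
  rw [h.cut.tr.triK_sdiff] at a1 a2
  simp only [mem_insert, mem_singleton] at a1 a2
  simp only [mem_tri, exists_eq_or_imp, exists_eq_left, M.nx3]
  have := ha.symm
  rcases a1 with rfl | rfl | rfl <;> rcases a2 with rfl | rfl | rfl <;> simp [*] at ne ⊢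

theorem IsCut.star_aux (h : M.IsCut K) {w d : D} (hw : w ∈ K) (hl : M.vtx K (M.nx w) = w)
    (hd : M.vtx K d = w) (h1 : d ≠ M.nx w) :
    M.nx (M.nx d) ∉ K ∧ M.sg d = M.op (M.nx (M.nx d)) ∧ M.vtx K (M.sg d) = w ∧ M.sg d ∉ K := by
  have a1 : M.nx (M.nx d) ∉ K := fun c =>
    h1 (by rw [← h.succ_inj c hw (by rw [M.nx3, hd, hl]), M.nx3])
  have a2 : M.sg d = M.op (M.nx (M.nx d)) := by rw [← sg_nx, M.nx3]
  exact ⟨a1, a2, by rw [a2, h.vtx_op _ a1, M.nx3, hd], a2 ▸ h.op_notMem a1⟩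

/-- telescoping around the vertex of a loop wall -/
theorem IsCut.star_prod (h : M.IsCut K) {w : D} (hw : w ∈ K) (hl : M.vtx K (M.nx w) = w)
    {G : Type} [CommGroup G] (f : D → G) :
    ∏ d ∈ univ.filter (fun d => M.vtx K d = w ∧ d ≠ w ∧ d ≠ M.nx w), f (M.sg d) / f d =
      f (M.nx w) / f (M.sg w) := by
  have n := M.nx_ne w
  have e : ∏ d ∈ Insert.insert w (univ.filter fun d => M.vtx K d = w ∧ d ≠ w ∧ d ≠ M.nx w),
      f (M.sg d) = ∏ d ∈ Insert.insert (M.nx w)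
        (univ.filter fun d => M.vtx K d = w ∧ d ≠ w ∧ d ≠ M.nx w), f d := by
    refine prod_equiv M.sg (fun d => ?_) fun _ _ => rfl
    simp only [mem_insert, mem_filter, mem_univ, true_and]
    constructor
    · intro hd
      have : M.vtx K d = w ∧ d ≠ M.nx w := by
        rcases hd with rfl | hd
        exacts [⟨h.vtx_self hw, n.symm⟩, ⟨hd.1, hd.2.2⟩]
      obtain ⟨-, -, a3, a4⟩ := h.star_aux hw hl this.1 this.2
      exact or_iff_not_imp_left.2 fun c => ⟨a3, fun k => a4 (k ▸ hw), c⟩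
    · intro hd
      have a1 : M.vtx K (M.sg d) = w ∧ M.sg d ≠ w := by
        rcases hd with g | g
        exacts [g ▸ ⟨hl, n⟩, ⟨g.1, g.2.1⟩]
      have a2 : M.sg d = M.op (M.nx (M.nx d)) := by rw [← sg_nx, M.nx3]
      have a3 : M.nx (M.nx d) ∉ K := fun c =>
        a1.2 (by rw [← a1.1, a2, h.vtx_self (h.inv _ c)])
      refine or_iff_not_imp_left.2 fun c => ⟨?_, c, fun k => a3 (by rwa [k, M.nx3])⟩
      rw [← a1.1, a2, h.vtx_op _ a3, M.nx3]
  rw [prod_insert (by simp), prod_insert (by simp)] at e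
  rw [prod_div_distrib, div_eq_div_iff_mul_eq_mul, mul_comm, e]

theorem IsCut.star_sum (h : M.IsCut K) {w : D} (hw : w ∈ K) (hl : M.vtx K (M.nx w) = w)
    {G : Type} [AddCommGroup G] (f : D → G) :
    ∑ d ∈ univ.filter (fun d => M.vtx K d = w ∧ d ≠ w ∧ d ≠ M.nx w), (f (M.sg d) - f d) =
      f (M.nx w) - f (M.sg w) :=
  h.star_prod hw hl (G := Multiplicative G) fun d => Multiplicative.ofAdd (f d)

/-- an edge is non-separating (some dart joins the two sides) or separating -/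
theorem Tr.sep_or (h : M.Tr) (e : D) :
    (∃ a, M.vtx {e, M.op e} a = e ∧ M.vtx {e, M.op e} (M.nx a) = M.op e) ∨
      M.Closed {e, M.op e} (univ.filter fun d => M.vtx {e, M.op e} d = e) := by
  have hK := h.isCut_edge e
  refine or_iff_not_imp_left.2 fun c => ?_
  have k : ∀ d, M.vtx {e, M.op e} d = e → M.vtx {e, M.op e} (M.nx d) = e := fun d hd => by
    have := hK.vtx_mem (M.nx d)
    simp only [mem_insert, mem_singleton] at this
    exact this.resolve_right fun g => c ⟨d, hd, g⟩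
  simp only [Closed, mem_filter, mem_univ, true_and]
  exact ⟨k, fun d hd g => by rw [hK.vtx_op d g, k d hd]⟩

/-- `lam` of an A state -/
theorem lam_edge {Y : Type} (α : Γ →* Equiv.Perm Y) (A : Y → Y → Y → ℝ) (o : Y) (f : Γ → ℝ)
    (hL : M.IsLab L) (e : D) : M.lam L α A o f {e, M.op e} ∅ =
      Real.pi * ((Fintype.card D : ℝ) - 6) - ∑ d, M.face L α A (fun _ => o) d +
        3 * (f (L e) + f (L e)⁻¹) := by
  rw [lam_eq, sdiff_empty, sum_pair (M.op_ne e).symm, card_pair (M.op_ne e).symm, hL.1]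
  simp only [card_empty, sum_empty]
  push_cast
  ring

end DartMap

end Pool.Agent.Lib.MP_a25f44_gt
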