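import Pool.Agent.Lib.MP_a25f44_gt.H48Area

/-! Flips. -/

set_option linter.unusedSectionVars false
set_option linter.unusedVariables false
set_option linter.unusedSimpArgs false

namespace Pool.Agent.Lib.MP_a25f44_gt

open Finset

namespace DartMap

variable {D : Type} [Fintype D] [DecidableEq D] {M : DartMap D} {K F C : Finset D}
  {Γ : Type} [Group Γ] {L : D → Γ}

theorem Move.refl (h : M.Mark L) : M.Move L M L := ⟨h, rfl, fun _ _ _ _ _ => rfl⟩

theorem Move.trans {M' M'' : DartMap D} {L' L'' : D → Γ} (h : M.Move L M' L')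
    (h' : M'.Move L' M'' L'') : M.Move L M'' L'' :=
  ⟨h'.mark, h'.op.trans h.op, fun Y α A hA o => (h'.area Y α A hA o).trans (h.area Y α A hA o)⟩

theorem Mark.mark_of (h : M.Mark L) {M' : DartMap D} {L' : D → Γ} (tr : M'.Tr) (lab : M'.IsLab L')
    (gen : ∀ S : Subgroup Γ, (∀ d, L' d ∈ S) → ∀ d, L d ∈ S)
    (univ : ∀ (H : Type) [Group H] (μ' : D → H), M'.IsLab μ' → ∃ μ : D → H, M.IsLab μ ∧
      ∀ ψ : Γ →* H, (∀ d, μ d = ψ (L d)) → ∀ d, μ' d = ψ (L' d)) : M'.Mark L' := by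
  refine ⟨lab, tr, ?_, fun H _ μ' hμ => ?_⟩
  · rw [eq_top_iff, ← h.gen, Subgroup.closure_le]
    rintro _ ⟨d, rfl⟩
    exact gen _ (fun d => Subgroup.subset_closure (Set.mem_range_self d)) d
  · obtain ⟨μ, h1, h2⟩ := univ H μ' hμ
    obtain ⟨ψ, h3⟩ := h.univ H μ h1
    exact ⟨ψ, h2 ψ h3⟩

theorem sum_change (S : Finset D) {f g : D → ℝ} (h : ∀ d, d ∉ S → f d = g d)
    (hS : ∑ d ∈ S, f d = ∑ d ∈ S, g d) : ∑ d, f d = ∑ d, g d := by
  rw [← sum_compl_add_sum S f, ← sum_compl_add_sum S g, hS,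
    sum_congr rfl fun d hd => h d (mem_compl.1 hd)]

@[simp] theorem conj_op (M : DartMap D) (β : Equiv.Perm D) : (M.conj β).op = M.op := rfl

theorem conj_nx (M : DartMap D) (β : Equiv.Perm D) (d : D) :
    (M.conj β).nx (β d) = β (M.nx d) := by simp [conj]

@[simp] theorem flip_op (M : DartMap D) (a : D) : (M.flip a).op = M.op := rfl

theorem IsLab.cyc {H : Type} [Group H] {μ : D → H} (h : M.IsLab μ) {a b c : D} (h1 : M.nx a = b)
    (h2 : M.nx b = c) : μ a * μ b * μ c = 1 := by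
  subst h1 h2; exact h.2 a

theorem lab_cyc {H : Type} [Group H] {x y z : H} (h : x * y * z = 1) :
    y * z * x = 1 ∧ z * x * y = 1 := by
  have : z = (x * y)⁻¹ := eq_inv_of_mul_eq_one_right h
  subst this
  constructor <;> group

/-- the six darts of a quadrilateral are distinct -/
theorem Tr.six (h : M.Tr) (a : D) : ∀ x ∈ M.tri a, ∀ y ∈ M.tri (M.op a), x ≠ y :=
  fun x hx y hy e => disjoint_left.1 (tri_disjoint (h.op_notMem_tri (x := a) (by simp [tri])))
    hx (e ▸ hy)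

theorem Tr.flip_nx (h : M.Tr) (a : D) :
    (M.flip a).nx a = M.nx (M.nx (M.op a)) ∧ (M.flip a).nx (M.nx (M.nx (M.op a))) = M.nx a ∧
    (M.flip a).nx (M.nx a) = a ∧ (M.flip a).nx (M.op a) = M.nx (M.nx a) ∧
    (M.flip a).nx (M.nx (M.nx a)) = M.nx (M.op a) ∧ (M.flip a).nx (M.nx (M.op a)) = M.op a ∧
    ∀ d, d ∉ M.tri a → d ∉ M.tri (M.op a) → (M.flip a).nx d = M.nx d := by
  have k := h.six a
  simp only [mem_tri, forall_eq_or_imp, forall_eq] at k
  obtain ⟨⟨k1, k2, k3⟩, ⟨k4, k5, k6⟩, k7, k8, k9⟩ := k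
  have n1 := M.nx_ne a
  have n2 := M.nx2_ne a
  have n3 := M.nx2_ne_nx a
  have m1 := M.nx_ne (M.op a)
  have m2 := M.nx2_ne (M.op a)
  have m3 := M.nx2_ne_nx (M.op a)
  refine ⟨?_, ?_, ?_, ?_, ?_, ?_, fun d h1 h2 => ?_⟩
  any_goals
    simp [flip, conj, Equiv.swap_apply_def, M.nx3, *, n1.symm, n2.symm, n3.symm, m1.symm, m2.symm,
      m3.symm, k1.symm, k2.symm, k3.symm, k4.symm, k5.symm, k6.symm, k7.symm, k8.symm, k9.symm]
  have h3 := nx_mem_tri.not.2 h1
  have h4 := nx_mem_tri.not.2 h2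
  simp only [mem_tri, not_or] at h1 h2 h3 h4
  simp [flip, conj, Equiv.swap_apply_def, h1, h2, h3, h4]

/-- case analysis on the quadrilateral of `a` -/
theorem quad_cases (M : DartMap D) (a d : D) : d = a ∨ d = M.nx a ∨ d = M.nx (M.nx a) ∨
    d = M.op a ∨ d = M.nx (M.op a) ∨ d = M.nx (M.nx (M.op a)) ∨
      (d ∉ M.tri a ∧ d ∉ M.tri (M.op a)) := by
  simp only [mem_tri]; tauto

theorem Tr.flip_aux (h : M.Tr) (a : D) : M.nx a ≠ a ∧ M.nx a ≠ M.op a ∧ M.nx (M.nx a) ≠ a ∧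
    M.nx (M.nx a) ≠ M.op a ∧ M.nx (M.op a) ≠ a ∧ M.nx (M.op a) ≠ M.op a ∧
    M.nx (M.nx (M.op a)) ≠ a ∧ M.nx (M.nx (M.op a)) ≠ M.op a ∧ M.op a ≠ a ∧
    (∀ d, M.op d = a ↔ d = M.op a) ∧ (∀ d, M.op d = M.op a ↔ d = a) ∧
    ∀ d, d ∉ M.tri a → d ∉ M.tri (M.op a) → d ≠ a ∧ d ≠ M.op a ∧ M.nx d ≠ a ∧ M.nx d ≠ M.op a ∧
      M.nx (M.nx d) ≠ a ∧ M.nx (M.nx d) ≠ M.op a := by
  have k := h.six a
  simp only [mem_tri, forall_eq_or_imp, forall_eq] at k
  obtain ⟨⟨k1, k2, k3⟩, ⟨k4, k5, k6⟩, k7, k8, k9⟩ := k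
  refine ⟨M.nx_ne a, k4, M.nx2_ne a, k7, k2.symm, M.nx_ne _, k3.symm, M.nx2_ne _, k1.symm,
    fun d => op_eq_iff, fun d => op_inj, fun d h1 h2 => ?_⟩
  have h3 := nx_mem_tri.not.2 h1
  have h4 := nx_mem_tri.not.2 h2
  have h5 := nx_mem_tri.not.2 h3
  have h6 := nx_mem_tri.not.2 h4
  simp only [mem_tri, not_or] at h1 h2 h3 h4 h5 h6
  tauto

theorem Tr.flip (h : M.Tr) (a : D) : (M.flip a).Tr := by
  obtain ⟨f1, f2, f3, f4, f5, f6, f7⟩ := h.flip_nx a
  obtain ⟨n1, n2, n3, n4, n5, n6, n7, n8, n9, o1, o2, n0⟩ := h.flip_aux a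
  refine tr_of_ind (M.nx a) fun Q h0 hQ => ?_
  simp only [flip_op] at hQ
  have qa := hQ (M.op a)
  have qa' := hQ a
  rw [f4, M.op2] at qa
  rw [f1] at qa'
  have k := h.ind (Q := fun d => if d = a then Q (M.nx (M.op a)) else
      if d = M.op a then Q (M.nx a) else Q d) (x := M.nx a) (by simpa [n1, n2] using h0)
    fun d hd => by
      have q := hQ d
      rcases M.quad_cases a d with rfl | rfl | rfl | rfl | rfl | rfl | ⟨h1, h2⟩
      all_goals simp_all [M.nx3, M.op2]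
  intro d
  have := k d
  have k1 := k (M.nx (M.nx a))
  have k2 := k (M.nx (M.nx (M.op a)))
  by_cases c1 : d = a
  · simp_all
  by_cases c2 : d = M.op a <;> simp_all

theorem Tr.flip_lab (h : M.Tr) (a : D) {H : Type} [Group H] {μ : D → H} (hμ : M.IsLab μ) :
    (M.flip a).IsLab (M.flipL μ a) := by
  obtain ⟨f1, f2, f3, f4, f5, f6, f7⟩ := h.flip_nx a
  obtain ⟨n1, n2, n3, n4, n5, n6, n7, n8, n9, o1, o2, n0⟩ := h.flip_aux a
  have e1 := hμ.nx2 a
  have e2 := hμ.nx2 (M.op a)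
  rw [hμ.1] at e2
  refine ⟨fun d => ?_, fun d => ?_⟩
  · by_cases c1 : d = a
    · simp [flipL, c1, n9]
    by_cases c2 : d = M.op a <;> simp [flipL, c1, c2, n9, o1, o2, M.op2, hμ.1]
  · rcases M.quad_cases a d with rfl | rfl | rfl | rfl | rfl | rfl | ⟨h1, h2⟩
    any_goals simp only [flipL, *, if_true, if_false]; group
    have := n0 d h1 h2
    rw [f7 d h1 h2, f7 _ (nx_mem_tri.not.2 h1) (nx_mem_tri.not.2 h2)]
    simp only [flipL, this, if_false, hμ.2]

theorem Tr.flip_face (h : M.Tr) (hL : M.IsLab L) {a : D} {Y β : Type}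
    {α : Γ →* Equiv.Perm Y} {A : Y → Y → Y → β}
    (h1 : ∀ g x y z, A (α g x) (α g y) (α g z) = A x y z) {pos : D → Y}
    (p1 : pos (M.op a) = pos (M.nx a)) (p2 : pos (M.nx (M.op a)) = pos a) :
    let x := pos a
    let y := α (L a) (pos (M.nx a))
    let u := α (L a * L (M.nx a)) (pos (M.nx (M.nx a)))
    let v := α (L (M.nx (M.op a))) (pos (M.nx (M.nx (M.op a))))
    M.face L α A pos a = A x y u ∧ M.face L α A pos (M.op a) = A y x v ∧
    (M.flip a).face (M.flipL L a) α A (M.flipP pos a) a = A u v y ∧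
    (M.flip a).face (M.flipL L a) α A (M.flipP pos a) (M.op a) = A v u x ∧
    ∀ d, d ∉ M.tri a → d ∉ M.tri (M.op a) →
      (M.flip a).face (M.flipL L a) α A (M.flipP pos a) d = M.face L α A pos d := by
  obtain ⟨f1, f2, f3, f4, f5, f6, f7⟩ := h.flip_nx a
  obtain ⟨n1, n2, n3, n4, n5, n6, n7, n8, n9, o1, o2, n0⟩ := h.flip_aux a
  have e1 := hL.nx2 a
  have e2 := hL.nx2 (M.op a)
  rw [hL.1] at e2
  refine ⟨rfl, ?_, ?_, ?_, fun d d1 d2 => ?_⟩
  · rw [face, ← h1 (L a), p1, p2, hL.1]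
    simp only [← act_mul, mul_inv_cancel, mul_inv_cancel_left, map_one, Equiv.Perm.one_apply]
  · rw [face, ← h1 (L a * L (M.nx a))]
    simp only [flipL, flipP, *, if_true, if_false, ← act_mul]
    congr 3 <;> group
  · rw [face, ← h1 (L (M.nx (M.op a)))]
    simp only [flipL, flipP, *, if_true, if_false, ← act_mul]
    have : pos a = α 1 (pos a) := by simp
    conv_rhs => rw [this]
    congr 3 <;> group
  · have := n0 d d1 d2
    rw [face, f7 d d1 d2, f7 _ (nx_mem_tri.not.2 d1) (nx_mem_tri.not.2 d2)]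
    simp only [flipL, flipP, this, if_false, face]

theorem IsCut.flip_face (h : M.IsCut K) (hL : M.IsLab L) {a : D} (ha : a ∉ K) {Y β : Type}
    {α : Γ →* Equiv.Perm Y} {A : Y → Y → Y → β}
    (h1 : ∀ g x y z, A (α g x) (α g y) (α g z) = A x y z) {pos : D → Y} (hp : M.Compat K pos) :
    let x := pos a
    let y := α (L a) (pos (M.nx a))
    let u := α (L a * L (M.nx a)) (pos (M.nx (M.nx a)))
    let v := α (L (M.nx (M.op a))) (pos (M.nx (M.nx (M.op a))))
    M.face L α A pos a = A x y u ∧ M.face L α A pos (M.op a) = A y x v ∧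
    (M.flip a).face (M.flipL L a) α A (M.flipP pos a) a = A u v y ∧
    (M.flip a).face (M.flipL L a) α A (M.flipP pos a) (M.op a) = A v u x ∧
    ∀ d, d ∉ M.tri a → d ∉ M.tri (M.op a) →
      (M.flip a).face (M.flipL L a) α A (M.flipP pos a) d = M.face L α A pos d :=
  h.tr.flip_face hL h1 (hp a ha) (by rw [← hp _ (h.op_notMem ha), M.op2])

theorem Tr.flip_tri (h : M.Tr) (a : D) :
    (M.flip a).tri a ∪ (M.flip a).tri (M.op a) = M.tri a ∪ M.tri (M.op a) := by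
  obtain ⟨f1, f2, f3, f4, f5, f6, f7⟩ := h.flip_nx a
  ext d
  simp only [mem_union, mem_tri, f1, f2, f4, f5]
  tauto

theorem Mark.flip (h : M.Mark L) (a : D) : M.Move L (M.flip a) (M.flipL L a) := by
  obtain ⟨f1, f2, f3, f4, f5, f6, f7⟩ := h.tr.flip_nx a
  obtain ⟨n1, n2, n3, n4, n5, n6, n7, n8, n9, o1, o2, n0⟩ := h.tr.flip_aux a
  have lab := h.tr.flip_lab a h.lab
  have tr := h.tr.flip a
  refine ⟨h.mark_of tr lab (fun S hS d => ?_) fun H _ μ hμ => ?_, rfl, fun Y α A hA o => ?_⟩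
  · have k : L a ∈ S := by
      have s1 := hS (M.nx a)
      have s2 := hS (M.nx (M.nx a))
      simp only [flipL, n1, n2, n3, n4, if_false] at s1 s2
      rw [show L a = (L (M.nx (M.nx a)))⁻¹ * (L (M.nx a))⁻¹ by rw [h.lab.nx2]; group]
      exact S.mul_mem (S.inv_mem s2) (S.inv_mem s1)
    have := hS d
    by_cases c1 : d = a
    · rwa [c1]
    by_cases c2 : d = M.op a
    · rw [c2, h.lab.1]; exact S.inv_mem k
    · simpa only [flipL, c1, c2, if_false] using this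
  · have e1 := hμ.cyc f1 f2
    have e2 := hμ.cyc f4 f5
    have e3 : μ (M.op a) = (μ a)⁻¹ := hμ.1 a
    rw [e3] at e2
    have e4 : μ a = μ (M.nx (M.nx a)) * μ (M.nx (M.op a)) := by
      rw [mul_assoc] at e2; exact inv_mul_eq_one.1 e2
    have e5 : μ (M.nx (M.nx (M.op a))) = (μ a)⁻¹ * (μ (M.nx a))⁻¹ := by
      rw [← mul_inv_rev]; exact eq_inv_of_mul_eq_one_right (lab_cyc e1).2
    refine ⟨fun d => if d = a then (μ (M.nx a) * μ (M.nx (M.nx a)))⁻¹ else
      if d = M.op a then μ (M.nx a) * μ (M.nx (M.nx a)) else μ d, ⟨fun d => ?_, fun d => ?_⟩,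
      fun ψ hψ d => ?_⟩
    · by_cases c1 : d = a
      · simp [c1, n9]
      by_cases c2 : d = M.op a
      · simp [c2, n9, M.op2]
      · simpa [c1, c2, o1, o2] using hμ.1 d
    · rcases M.quad_cases a d with rfl | rfl | rfl | rfl | rfl | rfl | ⟨h1, h2⟩
      any_goals simp only [*, if_true, if_false, M.nx3]; group
      have := n0 d h1 h2
      have g := hμ.2 d
      rw [f7 d h1 h2, f7 _ (nx_mem_tri.not.2 h1) (nx_mem_tri.not.2 h2)] at g
      simpa only [this, if_false] using g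
    · have s1 := hψ (M.nx (M.nx a))
      have s2 := hψ (M.nx (M.op a))
      simp only [n3, n4, n5, n6, if_false] at s1 s2
      by_cases c1 : d = a
      · simp only [flipL, c1, if_true, map_mul, ← s1, ← s2, e4]
      by_cases c2 : d = M.op a
      · simp only [flipL, c2, n9, if_true, if_false, map_inv, map_mul, ← s1, ← s2, e3, e4]
      · simpa only [flipL, c1, c2, if_false] using hψ d
  · obtain ⟨g1, g2, g3, g4, g5⟩ := h.tr.flip_face h.lab (a := a) hA.inv (pos := fun _ => o) rfl rfl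
    have c : M.flipP (fun _ => o) a = fun _ => o := by ext d; simp [flipP]
    rw [c] at g3 g4 g5
    refine sum_change (M.tri a ∪ M.tri (M.op a))
      (fun d hd => g5 d (fun k => hd (by simp [k])) fun k => hd (by simp [k])) ?_
    conv_lhs => rw [← h.tr.flip_tri a]
    have dj : Disjoint ((M.flip a).tri a) ((M.flip a).tri (M.op a)) :=
      tri_disjoint (tr.op_notMem_tri (x := a) (d := a) (by simp [tri]))
    rw [sum_union dj,
      sum_union (tri_disjoint (h.tr.op_notMem_tri (x := a) (d := a) (by simp [tri]))),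
      sum_tri_face lab hA, sum_tri_face lab hA, sum_tri_face h.lab hA, sum_tri_face h.lab hA,
      g1, g2, g3, g4]
    obtain ⟨ω, b, e⟩ := hA.om
    simp only [e]
    rw [b o (α (L a) o), b (α (L a * L (M.nx a)) o) (α (L (M.nx (M.op a))) o)]
    ring

theorem IsCut.flip (h : M.IsCut K) (a : D) : (M.flip a).IsCut K := ⟨h.tr.flip a, h.inv, h.ne⟩

theorem IsCut.flip_compat (h : M.IsCut K) {a : D} (ha : a ∉ K) {β : Type} {f : D → β}
    (hf : M.Compat K f) : (M.flip a).Compat K (M.flipP f a) ∧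
      ∀ d, d ≠ a → d ≠ M.op a → M.flipP f a ((M.flip a).nx d) = f (M.nx d) := by
  obtain ⟨f1, f2, f3, f4, f5, f6, f7⟩ := h.tr.flip_nx a
  obtain ⟨n1, n2, n3, n4, n5, n6, n7, n8, n9, o1, o2, n0⟩ := h.tr.flip_aux a
  have p1 := hf a ha
  have p2 := hf _ (h.op_notMem ha)
  rw [M.op2] at p2
  have k : ∀ d, d ≠ a → d ≠ M.op a → M.flipP f a ((M.flip a).nx d) = f (M.nx d) := by
    intro d c1 c2
    rcases M.quad_cases a d with rfl | rfl | rfl | rfl | rfl | rfl | ⟨h1, h2⟩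
    any_goals simp only [flipP, *, if_true, if_false, M.nx3]
    · exact absurd rfl c1
    · exact absurd rfl c2
    · have := n0 d h1 h2
      rw [f7 d h1 h2]
      simp only [this, if_false]
  refine ⟨fun d hd => ?_, k⟩
  by_cases c1 : d = a
  · simp [flipP, *]
  by_cases c2 : d = M.op a
  · simp [flipP, *, M.op2]
  · rw [k d c1 c2, ← hf d hd]
    simp [flipP, *]

theorem IsCut.flip_vtx (h : M.IsCut K) {a : D} (ha : a ∉ K) :
    (M.flip a).vtx K = M.flipP (M.vtx K) a :=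
  (h.flip a).vtx_eq (h.flip_compat ha h.vtx_op).1 fun w hw => by
    have c1 : w ≠ a := fun c => ha (c ▸ hw)
    have c2 : w ≠ M.op a := fun c => h.op_notMem ha (c ▸ hw)
    simp only [flipP, c1, c2, if_false, h.vtx_self hw]

theorem PS.flip (h : M.PS K F) {a : D} (ha : a ∉ K) (hF : a ∉ F) : (M.flip a).PS K F := by
  have k : ∀ {x d}, x ∉ F → d ∈ F → d ∉ M.tri x := fun hx hd c =>
    hx (h.cl.tri_subset hd (by rw [tri_eq_of_mem c]; simp [tri]))
  refine ⟨h.cut.flip a, ⟨fun d hd => ?_, h.cl.2⟩, fun w hw wF => ?_⟩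
  · rw [(h.cut.tr.flip_nx a).2.2.2.2.2.2 d (k hF hd)
      (k (by rwa [h.cl.op_mem_iff h.cut.inv ha]) hd)]
    exact h.cl.1 d hd
  · rw [h.cut.flip_vtx ha, (h.cut.flip_compat ha h.cut.vtx_op).2 w (fun c => ha (c ▸ hw))
      fun c => h.cut.op_notMem ha (c ▸ hw), h.loop w hw wF]

theorem NoAnn.flip (hn : M.NoAnn K F) (h : M.PS K F) {a : D} (ha : a ∉ K) :
    (M.flip a).NoAnn K F := by
  obtain ⟨f1, f2, f3, f4, f5, f6, f7⟩ := h.cut.tr.flip_nx a
  refine fun C hC hF hne => hn C ⟨fun d hd => ?_, hC.2⟩ hF hne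
  have i0 : M.op a ∈ C ↔ a ∈ C := hC.op_mem_iff (M := M.flip a) h.cut.inv ha
  have i1 := hC.nx_mem_iff a
  have i2 := hC.nx_mem_iff (M.nx a)
  have i3 := hC.nx_mem_iff (M.op a)
  have i4 := hC.nx_mem_iff (M.nx (M.op a))
  rw [f1] at i1
  rw [f3] at i2
  rw [f4] at i3
  rw [f6] at i4
  rcases M.quad_cases a d with rfl | rfl | rfl | rfl | rfl | rfl | ⟨h1, h2⟩
  any_goals (try rw [M.nx3]); tauto
  exact f7 d h1 h2 ▸ hC.1 d hd

end DartMap

end Pool.Agent.Lib.MP_a25f44_gt
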