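import Pool.Agent.Lib.MP_a25f44_gt.H48Flip

/-! Twists and back-flips. -/

set_option linter.unusedSectionVars false
set_option linter.unusedVariables false
set_option linter.unusedSimpArgs false

namespace Pool.Agent.Lib.MP_a25f44_gt

open Finset

theorem IsCoc.self2 {Γ Y : Type} [Group Γ] {α : Γ →* Equiv.Perm Y} {A : Y → Y → Y → ℝ}
    (h : IsCoc α A) (x y : Y) : A x y y = 0 := by rw [← h.cyc, h.self]

theorem IsCoc.self3 {Γ Y : Type} [Group Γ] {α : Γ →* Equiv.Perm Y} {A : Y → Y → Y → ℝ}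
    (h : IsCoc α A) (x y : Y) : A x y x = 0 := by rw [h.cyc, h.self]

theorem IsCoc.move {Γ Y : Type} [Group Γ] {α : Γ →* Equiv.Perm Y} {A : Y → Y → Y → ℝ}
    (hA : IsCoc α A) (o : Y) (s : Γ) {g h : Γ} (g' h' : Γ) (e1 : s * g = g') (e2 : s * h = h') :
    A o (α g o) (α h o) = A (α s o) (α g' o) (α h' o) := by
  rw [← e1, ← e2, act_mul, act_mul, hA.inv]

namespace DartMap

variable {D : Type} [Fintype D] [DecidableEq D] {M : DartMap D} {K F C : Finset D}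
  {Γ : Type} [Group Γ] {L : D → Γ} {H : Type} [Group H] {μ : D → H}

theorem gauge_face {Y β : Type} {α : Γ →* Equiv.Perm Y} {A : Y → Y → Y → β}
    (h1 : ∀ g x y z, A (α g x) (α g y) (α g z) = A x y z) (w : D) (s : Γ) (pos : D → Y) (d : D) :
    M.face (M.gauge L K w s) α A
      (fun d => if M.vtx K d = w then α s⁻¹ (pos d) else pos d) d = M.face L α A pos d := by
  have e : ∀ d, (if M.vtx K d = w then α s⁻¹ (pos d) else pos d) =
      α (if M.vtx K d = w then s else 1)⁻¹ (pos d) := fun d => by split_ifs <;> simp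
  simp only [face, gauge, e]
  rw [← h1 (if M.vtx K d = w then s else 1)]
  simp only [← act_mul]
  congr 1
  · simp
  · congr 2; group
  · congr 2; group

theorem gauge_gauge (M : DartMap D) (μ : D → H) (K : Finset D) (w : D) (s t : H) :
    M.gauge (M.gauge μ K w s) K w t = M.gauge μ K w (s * t) := by
  ext d
  simp only [gauge]
  split_ifs <;> group

theorem gauge_one (M : DartMap D) (μ : D → H) (K : Finset D) (w : D) : M.gauge μ K w 1 = μ := by
  ext d; simp [gauge]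

theorem map_gauge (ψ : Γ →* H) (h : ∀ d, μ d = ψ (L d)) (w : D) (s : Γ) (d : D) :
    M.gauge μ K w (ψ s) d = ψ (M.gauge L K w s d) := by
  simp only [gauge, h, map_mul, map_inv]
  split_ifs <;> simp

theorem gauge_congr {ν : D → H} {w d : D} {s : H} (h : μ d = ν d) :
    M.gauge μ K w s d = M.gauge ν K w s d := by simp only [gauge, h]

theorem gauge_mem (S : Subgroup H) {w d : D} {s : H} (h1 : s ∈ S) (h2 : μ d ∈ S) :
    M.gauge μ K w s d ∈ S := by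
  simp only [gauge]
  split_ifs <;> simp [S.mul_mem, S.inv_mem, h1, h2]

theorem gauge_tri {w d : D} {s : H} (h : μ d * μ (M.nx d) * μ (M.nx (M.nx d)) = 1) :
    M.gauge μ K w s d * M.gauge μ K w s (M.nx d) * M.gauge μ K w s (M.nx (M.nx d)) = 1 := by
  simp only [gauge, M.nx3, eq_inv_of_mul_eq_one_right h]
  group

theorem IsCut.gauge_op (hK : M.IsCut K) {w d : D} {s : H} (hd : d ∉ K)
    (h : μ (M.op d) = (μ d)⁻¹) : M.gauge μ K w s (M.op d) = (M.gauge μ K w s d)⁻¹ := by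
  have := hK.vtx_op _ (hK.op_notMem hd)
  rw [M.op2] at this
  simp only [gauge, h, hK.vtx_op d hd, ← this]
  group

theorem IsCut.gauge_wall (hK : M.IsCut K) {x w d : D} {s : H} (hx : x ∈ K)
    (hl : M.vtx K (M.nx x) = w) (hd : d ∈ K) (h1 : d ≠ w) (h2 : d ≠ x) :
    M.gauge μ K w s d = μ d := by
  have : M.vtx K (M.nx d) ≠ w := fun c => h2 (hK.succ_inj hd hx (c.trans hl.symm))
  simp [gauge, hK.vtx_self hd, h1, this]

theorem IsCut.gauge_loop (hK : M.IsCut K) {w : D} {s : H} (hw : w ∈ K)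
    (hl : M.vtx K (M.nx w) = w) : M.gauge μ K w s w = s⁻¹ * μ w * s := by
  simp [gauge, hK.vtx_self hw, hl]

theorem sum_gauge {Y : Type} {α : Γ →* Equiv.Perm Y} {A : Y → Y → Y → ℝ} (hL : M.IsLab L)
    (hA : IsCoc α A) (hK : M.IsCut K) (hC : M.Closed K C) (o : Y) (w : D) (s : Γ) :
    ∑ d ∈ C, M.face (M.gauge L K w s) α A (fun _ => o) d =
      ∑ d ∈ C, M.face L α A (fun _ => o) d + 3 * ∑ d ∈ C ∩ K,
        (A (if d = w then α s o else o)
          (α (L d) (if M.vtx K (M.nx d) = w then α s o else o)) (α (L d) o) +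
        A (if d = w then α s o else o) (α (L d) o) o) := by
  have e1 := prism hL hA hC hK.inv (p := fun d => if M.vtx K d = w then α s o else o)
    (q := fun _ => o) (fun d hd => by simp only [hK.vtx_op d hd]) fun _ _ => rfl
  have e2 : ∀ d, M.face (M.gauge L K w s) α A (fun _ => o) d =
      M.face L α A (fun d => if M.vtx K d = w then α s o else o) d := fun d => by
    rw [← gauge_face (K := K) (L := L) hA.inv w s]
    congr 1
    ext d
    split_ifs <;> simp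
  rw [sum_congr rfl fun d _ => e2 d, ← sub_eq_iff_eq_add', e1]
  congr 1
  exact sum_congr rfl fun d hd => by rw [hK.vtx_self (mem_inter.1 hd).2]

theorem IsCut.twist_lab (hK : M.IsCut K) (hμ : M.IsLab μ) {w : D} (hw : w ∈ K)
    (hl : M.vtx K (M.nx w) = w) (n : ℤ) :
    M.IsLab (M.gauge μ K w (μ w ^ n)) ∧ ∀ d ∈ K, M.gauge μ K w (μ w ^ n) d = μ d := by
  have k : ∀ d ∈ K, M.gauge μ K w (μ w ^ n) d = μ d := fun d hd => by
    by_cases c : d = w
    · rw [c, hK.gauge_loop hw hl]; group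
    · exact hK.gauge_wall hw hl hd c c
  refine ⟨⟨fun d => ?_, fun d => gauge_tri (hμ.2 d)⟩, k⟩
  by_cases c : d ∈ K
  · rw [k d c, k _ (hK.inv d c), hμ.1]
  · exact hK.gauge_op c (hμ.1 d)

theorem _root_.Pool.Agent.Lib.MP_a25f44_gt.IsCoc.quad_zpow {Y : Type} {α : Γ →* Equiv.Perm Y}
    {A : Y → Y → Y → ℝ} (hA : IsCoc α A) (g : Γ) (o : Y) (n : ℤ) :
    A (α (g ^ n) o) (α g (α (g ^ n) o)) (α g o) + A (α (g ^ n) o) (α g o) o = 0 := by
  have step : ∀ n : ℤ, A (α (g ^ (n + 1)) o) (α g (α (g ^ (n + 1)) o)) (α g o) +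
      A (α (g ^ (n + 1)) o) (α g o) o =
      A (α (g ^ n) o) (α g (α (g ^ n) o)) (α g o) + A (α (g ^ n) o) (α g o) o := fun n => by
    rw [add_comm n, zpow_one_add, act_mul, hA.inv]
    obtain ⟨ω, a, e⟩ := hA.om
    simp only [e]
    rw [a o (α g (α (g ^ n) o)), a (α (g ^ n) o) (α g o)]
    ring
  induction n using Int.induction_on with
  | zero => simp [hA.self2, hA.self3]
  | succ n ih => rw [step, ih]
  | pred n ih => rw [← step, sub_add_cancel, ih]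

theorem Mark.twist (h : M.Mark L) (hK : M.IsCut K) {w : D} (hw : w ∈ K)
    (hl : M.vtx K (M.nx w) = w) (n : ℤ) :
    M.Move L M (M.gauge L K w (L w ^ n)) ∧ ∀ d ∈ K, M.gauge L K w (L w ^ n) d = L d := by
  obtain ⟨lab, k⟩ := hK.twist_lab h.lab hw hl n
  refine ⟨⟨h.mark_of h.tr lab (fun S hS d => ?_) fun H _ μ hμ => ?_, rfl, fun Y α A hA o => ?_⟩, k⟩
  · have := gauge_mem (M := M) (K := K) (w := w) S (S.inv_mem (S.zpow_mem (k w hw ▸ hS w) n)) (hS d)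
    rwa [gauge_gauge, mul_inv_cancel, gauge_one] at this
  · obtain ⟨l2, k2⟩ := hK.twist_lab hμ hw hl (-n)
    refine ⟨_, l2, fun ψ hψ d => ?_⟩
    rw [← map_gauge ψ hψ, gauge_gauge, map_zpow, ← hψ, k2 w hw, ← zpow_add, neg_add_cancel,
      zpow_zero, gauge_one]
  · rw [sum_gauge h.lab hA hK ⟨by simp, by simp⟩, sum_eq_zero (s := Finset.univ ∩ K), mul_zero,
      add_zero]
    intro d hd
    have hd := (mem_inter.1 hd).2
    by_cases c : d = w
    · simp only [c, hl, if_true, hA.quad_zpow]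
    · have : M.vtx K (M.nx d) ≠ w := fun e => c (hK.succ_inj hd hw (e.trans hl.symm))
      simp only [c, this, if_false, hA.self2, hA.self3, add_zero]

/-- labels after a gauge at a loop wall `v`, the opposite dart being corrected -/
noncomputable def bf (M : DartMap D) (μ : D → H) (K : Finset D) (v : D) (s : H) (d : D) : H :=
  if d = M.op v then (M.gauge μ K v s v)⁻¹ else M.gauge μ K v s d

theorem IsCut.bf_op (hK : M.IsCut K) {v : D} (hv : v ∈ K) (hl : M.vtx K (M.nx v) = v) (s : H)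
    (h : ∀ d, μ (M.op d) = (μ d)⁻¹) (d : D) : M.bf μ K v s (M.op d) = (M.bf μ K v s d)⁻¹ := by
  by_cases c1 : d = v
  · simp [bf, c1, (M.op_ne v).symm]
  by_cases c2 : d = M.op v
  · simp [bf, c2, M.op2, (M.op_ne v).symm]
  simp only [bf, c2, op_inj, c1, if_false]
  by_cases c : d ∈ K
  · have c3 : M.op d ≠ v := fun e => c2 (op_eq_iff.1 e)
    rw [hK.gauge_wall hv hl c c1 c1, hK.gauge_wall hv hl (hK.inv d c) c3 c3, h]
  · exact hK.gauge_op c (h d)

theorem bf_bf {v : D} (h : μ (M.op v) = (μ v)⁻¹) (s : H) : M.bf (M.bf μ K v s) K v s⁻¹ = μ := by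
  ext d
  have e : ∀ d, d ≠ M.op v → M.gauge (M.bf μ K v s) K v s⁻¹ d = μ d := fun d hd => by
    rw [gauge_congr (ν := M.gauge μ K v s) (by simp [bf, hd]), gauge_gauge, mul_inv_cancel,
      gauge_one]
  by_cases c : d = M.op v
  · rw [bf, if_pos c, e v (M.op_ne v).symm, c, h]
  · rw [bf, if_neg c, e d c]

theorem Mark.backflip (h : M.Mark L) {x : D} (hx : M.Pants x) :
    let M' := M.conj (Equiv.swap (M.nx x) (M.nx (M.nx x)))
    ∃ L', M.Move L M' L' ∧ M'.Pants x ∧ M'.nx x = M.nx (M.nx x) ∧ M'.nx (M'.nx x) = M.nx x ∧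
      M'.tri x = M.tri x ∧ M'.triK x = M.triK x ∧ (∀ d, d ∉ M.tri x → M'.nx d = M.nx d) ∧
      (∀ d, d ∉ M.tri x → M'.vtx (M.triK x) d = M.vtx (M.triK x) d) ∧
      ∀ d, d ∉ M.tri x →
        L' d = M.gauge L (M.triK x) (M.op (M.nx (M.nx x))) (L (M.op (M.nx x))) d := by
  intro M'
  have n1 := M.nx_ne x
  have n2 := M.nx2_ne x
  have n3 := M.nx2_ne_nx x
  have f1 : M'.nx x = M.nx (M.nx x) := by simp [M', conj, Equiv.swap_apply_def, n1.symm, n2.symm]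
  have f2 : M'.nx (M.nx (M.nx x)) = M.nx x := by simp [M', conj]
  have f3 : M'.nx (M.nx x) = x := by
    simp [M', conj, Equiv.swap_apply_def, M.nx3, n1.symm, n2.symm]
  have f4 : ∀ d, d ∉ M.tri x → M'.nx d = M.nx d := fun d h1 => by
    have h3 := nx_mem_tri.not.2 h1
    simp only [mem_tri, not_or] at h1 h3
    simp [M', conj, Equiv.swap_apply_def, h1, h3]
  have t1 : M'.tri x = M.tri x := by ext d; simp only [mem_tri, f1, f2]; tauto
  have t2 : M'.triK x = M.triK x := by simp only [triK, t1]; rfl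
  have hK := hx.cut
  have m : ∀ d ∈ M.tri x, d ∈ M.triK x ∧ M.op d ∈ M.triK x ∧ M.op d ∉ M.tri x ∧
      M.vtx (M.triK x) (M.nx (M.op d)) = M.op d := fun d hd =>
    have a := mem_triK.2 (.inl hd)
    ⟨a, hK.inv d a, h.tr.op_notMem_tri hd, hx.loop _ (hK.inv d a) (h.tr.op_notMem_tri hd)⟩
  obtain ⟨a1, a2, a3, a4⟩ := m x (by simp [tri])
  obtain ⟨b1, b2, b3, b4⟩ := m (M.nx x) (by simp [tri])
  obtain ⟨c1, c2, c3, c4⟩ := m (M.nx (M.nx x)) (by simp [tri])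
  have cp : ∀ {β : Type} {f : D → β}, M'.Compat (M.triK x) f ↔ M.Compat (M.triK x) f :=
    forall₂_congr fun d hd => by rw [f4 d fun c => hd (m d c).1]; rfl
  have tr : M'.Tr := by
    refine tr_of_ind x fun Q h0 hQ d => ?_
    have e := hK.eq_vtx (f := Q) (cp.1 fun d _ => propext (hQ d).symm)
    have q1 := hQ x
    have q2 := hQ (M.nx x)
    have q3 := hQ (M.nx (M.nx x))
    have r1 := hQ (M.op x)
    have r2 := hQ (M.op (M.nx x))
    have r3 := hQ (M.op (M.nx (M.nx x)))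
    rw [f4 _ a3, e, a4] at r1
    rw [f4 _ b3, e, b4] at r2
    rw [f4 _ c3, e, c4] at r3
    simp only [f1, f2, f3, M', conj_op, M.op2] at q1 q2 q3 r1 r2 r3
    have := hK.vtx_mem d
    rw [e]
    simp only [mem_triK, mem_tri, op_eq_iff] at this
    have k1 := q2.1 h0
    have k2 := r2.1 k1
    have k3 := q3.1 k2
    rcases this with (g | g | g) | g | g | g <;> rw [g]
    exacts [h0, k2, r3.1 k3, r1.2 h0, k1, k3]
  have hK' : M'.IsCut (M.triK x) := ⟨tr, hK.inv, hK.ne⟩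
  have v : M'.vtx (M.triK x) = M.vtx (M.triK x) :=
    hK'.vtx_eq (cp.2 hK.vtx_op) fun w hw => hK.vtx_self hw
  have gw : ∀ (H : Type) [Group H] (μ : D → H) (s : H), ∀ d ∈ M.triK x,
      d ≠ M.op (M.nx (M.nx x)) → d ≠ M.nx (M.nx x) →
      M.bf μ (M.triK x) (M.op (M.nx (M.nx x))) s d = μ d := fun H _ μ s d hd d1 d2 => by
    rw [bf, M.op2, if_neg d2, hK.gauge_wall c2 c4 hd d1 d1]
  have g1 : ∀ (H : Type) [Group H] (μ : D → H) (s : H),
      M.bf μ (M.triK x) (M.op (M.nx (M.nx x))) s (M.nx (M.nx x)) =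
        (s⁻¹ * μ (M.op (M.nx (M.nx x))) * s)⁻¹ := fun H _ μ s => by
    rw [bf, M.op2, if_pos rfl, hK.gauge_loop c2 c4]
  have g2 : ∀ (H : Type) [Group H] (μ : D → H) (s : H), ∀ d, d ∉ M.tri x →
      M.bf μ (M.triK x) (M.op (M.nx (M.nx x))) s d =
        M.gauge μ (M.triK x) (M.op (M.nx (M.nx x))) s d := fun H _ μ s d hd => by
    rw [bf, M.op2, if_neg fun c => hd (by simp [c, tri])]
  have o1 : x ≠ M.op (M.nx (M.nx x)) := fun c => c3 (by simp [← c, tri])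
  have o2 : M.nx x ≠ M.op (M.nx (M.nx x)) := fun c => c3 (by simp [← c, tri])
  have o3 : M.op (M.nx x) ≠ M.op (M.nx (M.nx x)) := op_inj.not.2 n3.symm
  have o4 : M.op (M.nx x) ≠ M.nx (M.nx x) := fun c => b3 (by simp [c, tri])
  have g3 : ∀ (H : Type) [Group H] (μ : D → H) (s : H), ∀ d, d ∉ M.tri x →
      μ d * μ (M.nx d) * μ (M.nx (M.nx d)) = 1 →
      M.bf μ (M.triK x) (M.op (M.nx (M.nx x))) s d *
        M.bf μ (M.triK x) (M.op (M.nx (M.nx x))) s (M.nx d) *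
        M.bf μ (M.triK x) (M.op (M.nx (M.nx x))) s (M.nx (M.nx d)) = 1 :=
    fun H _ μ s d hd e => by
      rw [g2 _ _ _ _ hd, g2 _ _ _ _ (nx_mem_tri.not.2 hd),
        g2 _ _ _ _ (nx_mem_tri.not.2 (nx_mem_tri.not.2 hd))]
      exact gauge_tri e
  have lab : M'.IsLab (M.bf L (M.triK x) (M.op (M.nx (M.nx x))) (L (M.op (M.nx x)))) := by
    refine ⟨hK.bf_op c2 c4 _ h.lab.1, fun d => ?_⟩
    by_cases c : d ∈ M.tri x
    · rcases mem_tri.1 c with rfl | rfl | rfl <;>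
        simp only [f1, f2, f3, g1, gw _ _ _ _ a1 o1 n2.symm, gw _ _ _ _ b1 o2 n3.symm, h.lab.1,
          h.lab.nx2] <;> group
    · rw [f4 d c, f4 _ (nx_mem_tri.not.2 c)]
      exact g3 _ _ _ _ c (h.lab.2 d)
  refine ⟨_, ⟨h.mark_of tr lab (fun S hS d => ?_) fun H _ μ hμ => ?_, rfl, fun Y α A hA o => ?_⟩,
    ?_, f1, by rw [f1, f2], t1, t2, f4, fun d _ => by rw [v], g2 _ _ _⟩
  · have s1 := hS (M.op (M.nx x))
    rw [gw _ _ _ _ b2 o3 o4] at s1
    rw [← bf_bf (M := M) (K := M.triK x) (h.lab.1 (M.op (M.nx (M.nx x)))) (L (M.op (M.nx x))), bf]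
    split_ifs
    · exact S.inv_mem (gauge_mem S (S.inv_mem s1) (hS _))
    · exact gauge_mem S (S.inv_mem s1) (hS _)
  · have e0 : ∀ d, μ (M.op d) = (μ d)⁻¹ := hμ.1
    have e1 := eq_inv_of_mul_eq_one_right (lab_cyc (hμ.cyc f1 f2)).2
    refine ⟨M.bf μ (M.triK x) (M.op (M.nx (M.nx x))) (μ (M.op (M.nx x)))⁻¹,
      ⟨hK.bf_op c2 c4 _ e0, fun d => ?_⟩, fun ψ hψ d => ?_⟩
    · by_cases c : d ∈ M.tri x
      · rcases mem_tri.1 c with rfl | rfl | rfl <;>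
          simp only [M.nx3, g1, gw _ _ _ _ a1 o1 n2.symm, gw _ _ _ _ b1 o2 n3.symm, e0, e1] <;>
          group
      · refine g3 _ _ _ _ c ?_
        have := hμ.2 d
        rwa [f4 d c, f4 _ (nx_mem_tri.not.2 c)] at this
    · have s1 := hψ (M.op (M.nx x))
      rw [gw _ _ _ _ b2 o3 o4] at s1
      conv_lhs => rw [← bf_bf (M := M) (K := M.triK x) (e0 (M.op (M.nx (M.nx x))))
        (μ (M.op (M.nx x)))⁻¹, inv_inv]
      rw [bf, bf]
      split_ifs
      · rw [map_inv, ← map_gauge ψ hψ, ← s1]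
      · rw [← map_gauge ψ hψ, ← s1]
  · have hC := hx.cl.compl hK.inv
    have e1 := sum_gauge h.lab hA hK hC o (M.op (M.nx (M.nx x))) (L (M.op (M.nx x)))
    have e2 : (M.tri x)ᶜ ∩ M.triK x = M.triK x \ M.tri x := by ext; simp [and_comm]
    have p1 : M.op x ≠ M.op (M.nx x) := op_inj.not.2 n1.symm
    have p2 : M.op x ≠ M.op (M.nx (M.nx x)) := op_inj.not.2 n2.symm
    rw [e2, h.tr.triK_sdiff, sum_insert (by simp [p1, p2]), sum_pair o3] at e1
    simp only [a4, b4, c4, p2, o3, if_true, if_false] at e1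
    rw [← sum_compl_add_sum (M.tri x), ← sum_compl_add_sum (M.tri x) (M.face _ _ _ _),
      sum_tri_face h.lab hA, ← t1, sum_tri_face lab hA, t1, sum_congr rfl (g := M.face
        (M.gauge L (M.triK x) (M.op (M.nx (M.nx x))) (L (M.op (M.nx x)))) α A fun _ => o), e1]
    · simp only [face, f1, g1, gw _ _ _ _ a1 o1 n2.symm, h.lab.1, h.lab.nx2, ← act_mul, inv_inv]
      rw [show L x * ((L (M.nx x) * (L x * L (M.nx x)) * (L (M.nx x))⁻¹)⁻¹) = (L (M.nx x))⁻¹ by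
        group, mul_inv_cancel_right]
      simp only [hA.self2, hA.self3, add_assoc, zero_add, add_right_inj]
      obtain ⟨ω, a, e⟩ := hA.om
      simp only [e]
      rw [a o (α (L (M.nx x))⁻¹ o), a (α (L (M.nx x))⁻¹ o) (α (L x) o),
        a (α (L (M.nx x))⁻¹ o) (α (L x * L (M.nx x)) o)]
      ring
    · intro d hd
      have c := mem_compl.1 hd
      simp only [face, f4 d c, f4 _ (nx_mem_tri.not.2 c), g2 _ _ _ _ c,
        g2 _ _ _ _ (nx_mem_tri.not.2 c)]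
  · rw [Pants, t1, t2]
    exact ⟨hK', ⟨fun d hd => t1 ▸ nx_mem_tri.2 (t1 ▸ hd), hx.cl.2⟩,
      fun w hw wF => by rw [v, f4 w wF, hx.loop w hw wF]⟩

/-- labels of a handle with generators `a`, `b` -/
def tl (M : DartMap D) (μ : D → H) (x : D) (a b : H) (d : D) : H :=
  if d = M.op (M.nx (M.nx x)) then a else if d = M.nx (M.nx x) then a⁻¹ else
  if d = M.nx (M.op (M.nx (M.nx x))) then b⁻¹ else if d = M.nx (M.op (M.nx x)) then b else
  if d = M.nx (M.nx (M.op (M.nx (M.nx x)))) then b * a⁻¹ else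
  if d = M.nx (M.nx (M.op (M.nx x))) then a * b⁻¹ else
  if d = M.op (M.nx x) then b * a⁻¹ * b⁻¹ else if d = M.nx x then b * a * b⁻¹ else μ d

theorem Pants.tl_spec {x : D} (hx : M.Pants x)
    (ha : M.Ann (M.op (M.nx (M.nx x))) (M.op (M.nx x))) (μ : D → H) (a b : H) :
    let v := M.op (M.nx (M.nx x))
    let w := M.op (M.nx x)
    (M.tl μ x a b v = a ∧ M.tl μ x a b (M.nx v) = b⁻¹ ∧ M.tl μ x a b (M.nx (M.nx v)) = b * a⁻¹) ∧
    (M.tl μ x a b w = b * a⁻¹ * b⁻¹ ∧ M.tl μ x a b (M.nx w) = b ∧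
      M.tl μ x a b (M.nx (M.nx w)) = a * b⁻¹) ∧
    (M.tl μ x a b x = μ x ∧ M.tl μ x a b (M.nx x) = b * a * b⁻¹ ∧
      M.tl μ x a b (M.nx (M.nx x)) = a⁻¹) ∧
    (∀ d, d ∉ M.tri x → d ∉ M.tri v → d ∉ M.tri w → M.tl μ x a b d = μ d) ∧
    Disjoint (M.tri x) (M.tri v) ∧ Disjoint (M.tri x ∪ M.tri v) (M.tri w) := by
  intro v w
  have c9 := (hx.handle ha).2.2.2
  have u1 := card_union_le (M.tri x) (M.tri v)
  have u2 := card_union_add_card_inter (M.tri x ∪ M.tri v) (M.tri w)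
  have u3 := card_union_add_card_inter (M.tri x) (M.tri v)
  simp only [card_tri] at u1 u2 u3
  have d2 : Disjoint (M.tri x ∪ M.tri v) (M.tri w) :=
    disjoint_iff_inter_eq_empty.2 (card_eq_zero.1 (by simp only [v, w] at *; omega))
  have d1 : Disjoint (M.tri x) (M.tri v) :=
    disjoint_iff_inter_eq_empty.2 (card_eq_zero.1 (by simp only [v, w] at *; omega))
  obtain ⟨d3, d4⟩ := disjoint_union_left.1 d2
  have k1 := disjoint_iff_ne.1 d1
  have k2 := disjoint_iff_ne.1 d1.symm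
  have k3 := disjoint_iff_ne.1 d3
  have k4 := disjoint_iff_ne.1 d3.symm
  have k5 := disjoint_iff_ne.1 d4
  have k6 := disjoint_iff_ne.1 d4.symm
  simp only [mem_tri, forall_eq_or_imp, forall_eq, v, w] at k1 k2 k3 k4 k5 k6
  have n1 := fun d => M.nx_ne d
  have n2 := fun d => M.nx2_ne d
  have n3 := fun d => (M.nx_ne d).symm
  have n4 := fun d => (M.nx2_ne d).symm
  refine ⟨⟨?_, ?_, ?_⟩, ⟨?_, ?_, ?_⟩, ⟨?_, ?_, ?_⟩, fun d h1 h2 h3 => ?_, d1, d2⟩
  any_goals simp only [tl, v, w, k1, k2, k3, k4, k5, k6, n1, n2, n3, n4, if_true, if_false]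
  simp only [mem_tri, not_or, v, w] at h1 h2 h3
  simp only [h1, h2, h3, if_false]

theorem handle_cases (M : DartMap D) (x v w d : D) :
    (d = v ∨ d = M.nx v ∨ d = M.nx (M.nx v)) ∨ (d = w ∨ d = M.nx w ∨ d = M.nx (M.nx w)) ∨
      (d = x ∨ d = M.nx x ∨ d = M.nx (M.nx x)) ∨ (d ∉ M.tri x ∧ d ∉ M.tri v ∧ d ∉ M.tri w) := by
  simp only [← mem_tri]; tauto

theorem Pants.tl_lab {x : D} (hx : M.Pants x)
    (ha : M.Ann (M.op (M.nx (M.nx x))) (M.op (M.nx x))) (hμ : M.IsLab μ) {a b : H}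
    (e : μ x = a * b * a⁻¹ * b⁻¹) : M.IsLab (M.tl μ x a b) := by
  obtain ⟨⟨v1, v2, v3⟩, ⟨w1, w2, w3⟩, ⟨x1, x2, x3⟩, k, -⟩ := hx.tl_spec ha μ a b
  obtain ⟨ps, -, e1, -⟩ := hx.handle ha
  have o : M.op x ∉ M.tri x ∪ M.tri (M.op (M.nx (M.nx x))) ∪ M.tri (M.op (M.nx x)) :=
    (mem_sdiff.1 (e1.symm ▸ mem_singleton_self _ : M.op x ∈ _)).2
  simp only [mem_union, not_or] at o
  have x0 := k _ o.1.1 o.1.2 o.2
  refine ⟨fun d => ?_, fun d => ?_⟩
  · rcases M.handle_cases x (M.op (M.nx (M.nx x))) (M.op (M.nx x)) d with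
      (rfl | rfl | rfl) | (rfl | rfl | rfl) | (rfl | rfl | rfl) | ⟨h1, h2, h3⟩
    · rw [M.op2, v1, x3]
    · rw [ha.1, w2, v2, inv_inv]
    · rw [ha.2, w3, v3]; group
    · rw [M.op2, w1, x2]; group
    · rw [w2, ← ha.1, M.op2, v2]
    · rw [w3, ← ha.2, M.op2, v3]; group
    · rw [x0, x1, hμ.1]
    · rw [w1, x2]; group
    · rw [v1, x3, inv_inv]
    · by_cases c : d ∈ M.triK x
      · have : d ∈ M.triK x \ _ := mem_sdiff.2 ⟨c, show d ∉ M.tri x ∪
          M.tri (M.op (M.nx (M.nx x))) ∪ M.tri (M.op (M.nx x)) by simp [h1, h2, h3]⟩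
        rw [e1, mem_singleton] at this
        rw [this, M.op2, x0, x1, hμ.1, inv_inv]
      · have := (ps.cl.op_mem_iff ps.cut.inv c).not.2 (by simp [h1, h2, h3])
        simp only [mem_union, not_or] at this
        rw [k _ this.1.1 this.1.2 this.2, k d h1 h2 h3, hμ.1]
  · rcases M.handle_cases x (M.op (M.nx (M.nx x))) (M.op (M.nx x)) d with
      (rfl | rfl | rfl) | (rfl | rfl | rfl) | (rfl | rfl | rfl) | ⟨h1, h2, h3⟩
    any_goals simp only [M.nx3, v1, v2, v3, w1, w2, w3, x1, x2, x3, e]; group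
    have n := fun {y z} (g : z ∉ M.tri y) => nx_mem_tri.not.2 g
    rw [k d h1 h2 h3, k _ (n h1) (n h2) (n h3), k _ (n (n h1)) (n (n h2)) (n (n h3)), hμ.2]

theorem Pants.tl_self {x : D} (hx : M.Pants x)
    (ha : M.Ann (M.op (M.nx (M.nx x))) (M.op (M.nx x))) (hμ : M.IsLab μ) :
    let a := μ (M.op (M.nx (M.nx x)))
    let b := (μ (M.nx (M.op (M.nx (M.nx x)))))⁻¹
    μ x = a * b * a⁻¹ * b⁻¹ ∧ ∀ ν : D → H, ν x = μ x → (∀ d, d ∉ M.tri x →
      d ∉ M.tri (M.op (M.nx (M.nx x))) → d ∉ M.tri (M.op (M.nx x)) → ν d = μ d) →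
      M.tl ν x a b = μ := by
  intro a b
  have v2 : μ (M.nx (M.op (M.nx (M.nx x)))) = b⁻¹ := (inv_inv _).symm
  have v3 : μ (M.nx (M.nx (M.op (M.nx (M.nx x))))) = b * a⁻¹ := by
    rw [hμ.nx2, v2, mul_inv_rev, inv_inv]
  have w2 : μ (M.nx (M.op (M.nx x))) = b := by rw [← ha.1, hμ.1]
  have w3 : μ (M.nx (M.nx (M.op (M.nx x)))) = a * b⁻¹ := by rw [← ha.2, hμ.1, v3]; group
  have w1 : μ (M.op (M.nx x)) = b * a⁻¹ * b⁻¹ := by
    rw [eq_inv_of_mul_eq_one_right (lab_cyc (hμ.2 _)).1, w2, w3]; group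
  have x3 : μ (M.nx (M.nx x)) = a⁻¹ := by simp only [a, hμ.1, inv_inv]
  have x2 : μ (M.nx x) = b * a * b⁻¹ := by rw [← inv_inj, ← hμ.1, w1]; group
  refine ⟨by rw [eq_inv_of_mul_eq_one_right (lab_cyc (hμ.2 x)).1, x2, x3]; group,
    fun ν h0 h => funext fun d => ?_⟩
  obtain ⟨⟨a1, a2, a3⟩, ⟨b1, b2, b3⟩, ⟨c1, c2, c3⟩, k, -⟩ := hx.tl_spec ha ν a b
  rcases M.handle_cases x (M.op (M.nx (M.nx x))) (M.op (M.nx x)) d with
    (rfl | rfl | rfl) | (rfl | rfl | rfl) | (rfl | rfl | rfl) | ⟨h1, h2, h3⟩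
  exacts [a1, a2.trans v2.symm, a3.trans v3.symm, b1.trans w1.symm, b2.trans w2.symm,
    b3.trans w3.symm, c1.trans h0, c2.trans x2.symm, c3.trans x3.symm,
    (k d h1 h2 h3).trans (h d h1 h2 h3)]

theorem map_tl (ψ : Γ →* H) (x : D) (a b : Γ) (d : D) :
    ψ (M.tl L x a b d) = M.tl (fun d => ψ (L d)) x (ψ a) (ψ b) d := by
  simp only [tl]
  split_ifs <;> simp

theorem tl_mem (S : Subgroup H) (x : D) {a b : H} (ha : a ∈ S) (hb : b ∈ S) (h : ∀ d, μ d ∈ S)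
    (d : D) : M.tl μ x a b d ∈ S := by
  simp only [tl]
  split_ifs <;> simp [S.mul_mem, S.inv_mem, ha, hb, h]

theorem Mark.torus (h : M.Mark L) {x : D} (hx : M.Pants x)
    (ha : M.Ann (M.op (M.nx (M.nx x))) (M.op (M.nx x))) :
    let v := M.op (M.nx (M.nx x))
    ∃ L', M.Move L M L' ∧ L' v = L v * (L (M.nx v))⁻¹ ∧ L' (M.nx v) = L v ∧ L' x = L x ∧
      ∀ d, d ∉ M.tri x → d ∉ M.tri v → d ∉ M.tri (M.op (M.nx x)) → L' d = L d := by
  intro v
  obtain ⟨e0, s0⟩ := hx.tl_self ha h.lab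
  set a := L (M.op (M.nx (M.nx x))) with ea
  set b := (L (M.nx (M.op (M.nx (M.nx x)))))⁻¹ with eb
  obtain ⟨⟨v1, v2, v3⟩, ⟨w1, w2, w3⟩, ⟨x1, x2, x3⟩, k, d1, d2⟩ := hx.tl_spec ha L (a * b) a⁻¹
  have lab := hx.tl_lab ha h.lab (a := a * b) (b := a⁻¹) (by rw [e0]; group)
  refine ⟨_, ⟨h.mark_of h.tr lab (fun S hS d => ?_) fun H _ μ hμ => ?_, rfl,
    fun Y α A hA o => ?_⟩, v1, v2.trans (inv_inv _), x1, k⟩
  · have s1 : a ∈ S := by simpa only [v2, inv_inv] using hS (M.nx (M.op (M.nx (M.nx x))))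
    have s2 : b ∈ S := (S.mul_mem_cancel_left s1).1 (v1 ▸ hS _)
    rw [← s0 _ x1 k]
    exact tl_mem S x s1 s2 hS d
  · obtain ⟨e1, s1⟩ := hx.tl_self ha hμ
    set a' := μ (M.op (M.nx (M.nx x))) with ea'
    set b' := (μ (M.nx (M.op (M.nx (M.nx x)))))⁻¹ with eb'
    obtain ⟨⟨p1, p2, -⟩, -, ⟨q1, -⟩, k', -⟩ := hx.tl_spec ha μ b'⁻¹ (b' * a')
    refine ⟨_, hx.tl_lab ha hμ (a := b'⁻¹) (b := b' * a') (by rw [e1]; group), fun ψ hψ d => ?_⟩
    have r1 : ψ a = b'⁻¹ := by rw [ea, ← hψ, p1]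
    have r2 : ψ b = b' * a' := by rw [eb, map_inv, ← hψ, p2, inv_inv]
    rw [map_tl, map_mul, map_inv ψ a, r1, r2, inv_mul_cancel_left, inv_inv,
      s1 _ ((hψ x).symm.trans q1) fun d h1 h2 h3 => (hψ d).symm.trans (k' d h1 h2 h3)]
  · obtain ⟨⟨p1, p2, -⟩, ⟨r1, r2, -⟩, ⟨q1, q2, -⟩, -⟩ := hx.tl_spec ha L a b
    rw [s0 L rfl fun _ _ _ _ => rfl] at p1 p2 r1 r2 q1 q2
    have n := fun {y z} (g : z ∉ M.tri y) => nx_mem_tri.not.2 g
    refine sum_change (M.tri x ∪ M.tri v ∪ M.tri (M.op (M.nx x))) (fun d hd => ?_) ?_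
    · simp only [mem_union, not_or] at hd
      simp only [face, k d hd.1.1 hd.1.2 hd.2, k _ (n hd.1.1) (n hd.1.2) (n hd.2)]
    · simp only [sum_union d1, sum_union d2, v, sum_tri_face lab hA, sum_tri_face h.lab hA]
      simp only [face, v1, v2, w1, w2, x1, x2, p1, p2, r1, r2, q2, e0]
      rw [show a * b * a⁻¹ * b⁻¹ * (a⁻¹ * (a * b) * a⁻¹⁻¹) = a * b by group,
        show a * b * a⁻¹ * b⁻¹ * (b * a * b⁻¹) = a * b * b⁻¹ by group, mul_inv_cancel_right,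
        hA.move o (a * b * a⁻¹) (g := a) (h := a * b⁻¹) (a * b) a (by group) (by group),
        hA.move o a (g := b * a⁻¹ * b⁻¹) (a * b * a⁻¹ * b⁻¹) (a * b * a⁻¹) (by group) (by group),
        hA.move o (a * b * a⁻¹ * b⁻¹ * a⁻¹) (g := a * b) (h := a * b * a⁻¹⁻¹) (a * b * a⁻¹) (a * b)
          (by group) (by group),
        hA.move o (a * b) (g := a⁻¹ * (a * b)⁻¹ * a⁻¹⁻¹) (a * b * a⁻¹ * b⁻¹)
          (a * b * a⁻¹ * b⁻¹ * a⁻¹) (by group) (by group)]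
      have i5 := hA.move o (a * b * a⁻¹ * b⁻¹ * a⁻¹) (g := a) (h := a * b) (a * b * a⁻¹ * b⁻¹)
        (a * b * a⁻¹) (by group) (by group)
      generalize α (a * b * a⁻¹ * b⁻¹ * a⁻¹) o = y5, α (a * b * a⁻¹ * b⁻¹) o = y4,
        α (a * b * a⁻¹) o = y3, α (a * b) o = y2, α a o = y1 at i5 ⊢
      obtain ⟨ω, s, e⟩ := hA.om
      simp only [e] at i5 ⊢
      linarith [s o y1, s o y2, s y1 y2, s y1 y3, s y1 y4, s y2 y4, s y2 y5, s y3 y5, s y4 y5,
        s y3 y4]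

end DartMap

end Pool.Agent.Lib.MP_a25f44_gt
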