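import Pool.Agent.Lib.MP_a25f44_gt.H48Move

/-! Slides: two consecutive walls are cut off by a face. -/

set_option linter.unusedSectionVars false
set_option linter.unusedVariables false
set_option linter.unusedSimpArgs false

namespace Pool.Agent.Lib.MP_a25f44_gt

open Finset

namespace DartMap

variable {D : Type} [Fintype D] [DecidableEq D] {M : DartMap D} {K F C : Finset D}
  {Γ : Type} [Group Γ] {L : D → Γ}

/-- renaming of the vertices after a slide -/
def kap (x y W m j : D) : D := if (if j = y then W else j) = x then m else if j = y then W else j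

/-- After the slide, `(x, y, q)` is a face and `op q` replaces the walls `x`, `y`. -/
structure Slid (M : DartMap D) (L : D → Γ) (K : Finset D) (x y : D) (M' : DartMap D) (L' : D → Γ)
    (q : D) : Prop where
  move : M.Move L M' L'
  qK : q ∉ K
  n1 : M'.nx x = y
  n2 : M'.nx y = q
  n3 : M'.nx q = x
  lab : ∀ d ∈ K, L' d = L d
  mem : ∀ C, M.Closed K C → y ∈ C → q ∈ C
  out : ∀ C, M.Closed K C → y ∉ C → ∀ d ∈ C, M'.nx d = M.nx d ∧ L' d = L d
  back : ∀ C, M'.Closed K C → y ∈ C → M.Closed K C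
  succ : ∀ j ∈ K, j ≠ x → j ≠ y → M'.vtx (insert q (insert (M.op q) K)) (M'.nx j) =
    kap x y (M.vtx K (M.nx y)) (M.op q) (M.vtx K (M.nx j))
  succm : M'.vtx (insert q (insert (M.op q) K)) (M'.nx (M.op q)) =
    kap x y (M.vtx K (M.nx y)) (M.op q) y

theorem IsCut.insert (h : M.IsCut K) (q : D) : M.IsCut (insert q (insert (M.op q) K)) :=
  ⟨h.tr, fun d hd => by
    simp only [mem_insert] at hd ⊢
    rcases hd with rfl | rfl | hd
    exacts [.inr (.inl rfl), .inl (M.op2 _), .inr (.inr (h.inv d hd))], by simp⟩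

theorem Mark.slide_ear (h : M.Mark L) (hK : M.IsCut K) {x : D} (hx : x ∈ K) (hy : M.nx x ∈ K)
    (hq : M.nx (M.nx x) ∉ K) : M.Slid L K x (M.nx x) M L (M.nx (M.nx x)) := by
  set y := M.nx x with ey
  set q := M.nx y with eq
  have e3 : M.nx q = x := M.nx3 x
  have hK' := hK.insert q
  have mK := hK.op_notMem hq
  have vm : M.vtx K (M.op q) = x := by rw [hK.vtx_op q hq, e3, hK.vtx_self hx]
  have xy : x ≠ y := (M.nx_ne x).symm
  have v : M.vtx (insert q (insert (M.op q) K)) =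
      fun d => if d = x ∨ d = y ∨ d = q then d else kap x y (M.vtx K q) (M.op q) (M.vtx K d) := by
    refine hK'.vtx_eq (fun d hd => ?_) fun w hw => ?_
    · have h2 := hK'.op_notMem hd
      simp only [mem_insert, not_or] at hd h2
      have a1 : ¬(M.op d = x ∨ M.op d = y ∨ M.op d = q) := by
        rintro (c | c | c)
        exacts [h2.2.2 (c ▸ hx), h2.2.2 (c ▸ hy), h2.1 c]
      have a2 : ¬(M.nx d = x ∨ M.nx d = y ∨ M.nx d = q) := by
        rintro (c | c | c)
        exacts [hd.1 (nx_inj.1 (c.trans e3.symm)), hd.2.2 (nx_inj.1 c ▸ hx),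
          hd.2.2 (nx_inj.1 c ▸ hy)]
      simp only [a1, a2, if_false, hK.vtx_op d hd.2.2]
    · split_ifs with c
      · rfl
      simp only [mem_insert, not_or] at hw c
      rcases hw with rfl | rfl | hw
      · exact absurd rfl c.2.2
      · simp [kap, vm, xy]
      · simp [kap, hK.vtx_self hw, c.1, c.2.1]
  refine ⟨Move.refl h, hq, rfl, rfl, e3, fun _ _ => rfl, fun C hC c => hC.1 _ c,
    fun _ _ _ _ _ => ⟨rfl, rfl⟩, fun _ hC _ => hC, fun j hj j1 j2 => ?_, ?_⟩
  · have a2 : ¬(M.nx j = x ∨ M.nx j = y ∨ M.nx j = q) := by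
      rintro (c | c | c)
      exacts [hq (nx_inj.1 (c.trans e3.symm) ▸ hj), j1 (nx_inj.1 c), j2 (nx_inj.1 c)]
    simp only [v, a2, if_false, ← eq]
  · have a2 : ¬(M.nx (M.op q) = x ∨ M.nx (M.op q) = y ∨ M.nx (M.op q) = q) := by
      rintro (c | c | c)
      exacts [M.op_ne q (nx_inj.1 (c.trans e3.symm)), mK (nx_inj.1 c ▸ hx), mK (nx_inj.1 c ▸ hy)]
    have a3 : M.vtx K q ≠ y := fun c =>
      xy (hK.succ_inj hx hy ((hK.vtx_self hy).trans c.symm))
    simp only [v, a2, if_false, ← hK.vtx_op _ mK, M.op2]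
    simp [kap, a3, ← eq]

theorem Mark.slide_gen (h : M.Mark L) (hK : M.IsCut K) {x y : D} (hx : x ∈ K)
    (hxy : M.vtx K (M.nx x) = y) (ne : x ≠ y) (hn : M.nx x ≠ y) :
    ∃ M' L', M.Slid L K x y M' L' (M.nx (M.nx y)) := by
  have hy : y ∈ K := hxy ▸ hK.vtx_mem _
  obtain ⟨p, ep⟩ : ∃ p, M.nx y = p := ⟨_, rfl⟩
  obtain ⟨q, eq⟩ : ∃ q, M.nx p = q := ⟨_, rfl⟩
  obtain ⟨m, em⟩ : ∃ m, M.op q = m := ⟨_, rfl⟩
  obtain ⟨W, eW⟩ : ∃ W, M.vtx K p = W := ⟨_, rfl⟩
  have e3 : M.nx q = y := by rw [← eq, ← ep, M.nx3]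
  have em' : M.op m = q := by rw [← em, M.op2]
  have qK : q ∉ K := fun c => hn (by
    rw [← hK.succ_inj c hx (by rw [e3, hK.vtx_self hy, hxy]), e3])
  have mK : m ∉ K := em ▸ hK.op_notMem qK
  have tm : ∀ d, d ∈ M.tri y ↔ d = y ∨ d = p ∨ d = q := fun d => by rw [mem_tri, ep, eq]
  have mt : m ∉ M.tri y := em ▸ h.tr.op_notMem_tri ((tm q).2 (by simp))
  have py : p ≠ y := ep ▸ M.nx_ne y
  have qp : q ≠ p := eq ▸ M.nx_ne p
  have qy : q ≠ y := fun c => qK (c ▸ hy)
  have qx : q ≠ x := fun c => qK (c ▸ hx)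
  have mx : m ≠ x := fun c => mK (c ▸ hx)
  obtain ⟨my, mp, mq⟩ : m ≠ y ∧ m ≠ p ∧ m ≠ q := by simpa only [tm, not_or] using mt
  have Wy : W ≠ y := fun c => ne (hK.succ_inj hx hy (by rw [hxy, ep, eW, c]))
  have vm : M.vtx K m = y := by rw [← em, hK.vtx_op q qK, e3, hK.vtx_self hy]
  have vq : M.vtx K (M.nx m) = M.vtx K q := by rw [← hK.vtx_op m mK, em']
  have oxy : M.op x ≠ y := fun c => hK.succ_ne_op hx (hxy.trans c.symm)
  set β := Equiv.swap q x * Equiv.swap x m * Equiv.swap m p with hβ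
  have b1 : β y = y := by simp [hβ, Equiv.swap_apply_def, my.symm, py.symm, ne.symm, qy.symm]
  have b2 : β p = q := by simp [hβ]
  have b3 : β q = x := by simp [hβ, Equiv.swap_apply_def, mq.symm, qp, qx]
  have b4 : β m = if p = x then m else p := by
    by_cases c : p = x <;> simp [hβ, Equiv.swap_apply_def, c, mq, mx, mp.symm, qp.symm]
  have b5 : p ≠ x → β x = m := fun c => by
    simp [hβ, Equiv.swap_apply_def, c.symm, mq, mx, mx.symm]
  have b6 : ∀ d, d ≠ p → d ≠ q → d ≠ x → d ≠ m → β d = d := fun d c1 c2 c3 c4 => by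
    simp [hβ, Equiv.swap_apply_def, c1, c2, c3, c4]
  set M' := M.conj β with hM'
  have cn : ∀ d, M'.nx (β d) = β (M.nx d) := M.conj_nx β
  have n1 : M'.nx x = y := by rw [← b3, cn, e3, b1]
  have n2 : M'.nx y = q := by rw [← b1, cn, ep, b2]
  have n3 : M'.nx q = x := by rw [← b2, cn, eq, b3]
  have nt : ∀ {d}, d ∉ M.tri y → M.nx d ∉ M.tri y := fun g => nx_mem_tri.not.2 g
  have key : ∀ {γ : Type} (g g' : D → γ), (∀ d, d ≠ x → d ≠ y → d ≠ q → d ≠ m → g' d = g d) →
      g' m = g x → g m = g p → ∀ d, d ∉ M.tri y → g' (β d) = g d := by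
    intro γ g g' k1 k2 k3 d hd
    simp only [tm, not_or] at hd
    by_cases c1 : d = m
    · rw [c1, b4]
      split_ifs with c
      · rw [k2, k3, c]
      · rw [k1 p c py qp.symm mp.symm, k3]
    by_cases c2 : d = x
    · rw [c2, b5 fun c => hd.2.1 (c2.trans c.symm), k2]
    · rw [b6 d hd.2.1 hd.2.2 c2 c1, k1 d c2 hd.1 hd.2.2 c1]
  have pre : ∀ d, d ≠ x → d ≠ y → d ≠ q → ∃ e, e ∉ M.tri y ∧ β e = d ∧
      M.vtx K (M.nx e) = if d = m then y else M.vtx K (M.nx d) := by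
    intro d c1 c2 c3
    by_cases c4 : d = m
    · by_cases c : p = x
      · exact ⟨m, mt, by rw [b4, if_pos c, c4], by rw [if_pos c4, vq, ← eq, c, hxy]⟩
      · exact ⟨x, by simp [tm, ne, Ne.symm c, qx.symm], by rw [b5 c, c4], by rw [if_pos c4, hxy]⟩
    by_cases c5 : d = p
    · exact ⟨m, mt, by rw [b4, if_neg (c5 ▸ c1), c5], by rw [if_neg c4, vq, c5, eq]⟩
    · exact ⟨d, by simp [tm, c2, c3, c5], b6 d c5 c3 c1 c4, by rw [if_neg c4]⟩
  have tr : M'.Tr := by
    refine tr_of_ind x fun Q h0 hQ => ?_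
    simp only [hM', conj_op] at hQ
    simp only [← hM'] at hQ
    set R : D → Prop := fun d => if d ∈ M.tri y then (if d = q then Q (β (M.nx m)) else Q (β m))
      else Q (β d) with hR
    have r0 : ∀ d, d ∉ M.tri y → R d = Q (β d) := fun d hd => by simp only [hR, hd, if_false]
    have r1 : R y = Q (β m) := by simp [hR, tm, qy.symm]
    have r2 : R p = Q (β m) := by simp [hR, tm, qp.symm]
    have r3 : R q = Q (β (M.nx m)) := by simp [hR, tm]
    have r4 : ∀ d, d ≠ x → d ≠ y → d ≠ q → d ≠ m → R d = Q d := fun d c1 c2 c3 c4 => by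
      by_cases c : d = p
      · rw [c, r2, b4, if_neg (c ▸ c1)]
      · rw [r0 d (by simp [tm, c, c2, c3]), b6 d c c3 c1 c4]
    have r5 : ∀ d, d ≠ x → d ≠ y → d ≠ q → d ≠ m → R (M.nx d) = Q (M'.nx d) :=
      fun d c1 c2 c3 c4 => by
        by_cases c : d = p
        · rw [c, eq, r3, ← cn, b4, if_neg (c ▸ c1)]
        · rw [r0 _ (nt (by simp [tm, c, c2, c3])), ← cn, b6 d c c3 c1 c4]
    have r6 : R x = Q m := by
      by_cases c : p = x
      · rw [← c, r2, b4, if_pos c]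
      · rw [r0 x (by simp [tm, ne, Ne.symm c, qx.symm]), b5 c]
    have cp : M.Compat K R := fun d hd => by
      by_cases c1 : d = q
      · rw [c1, em, e3, r0 m mt, r1]
      by_cases c2 : d = m
      · rw [c2, em', r3, r0 _ (nt mt)]
      have o := hK.op_notMem hd
      rw [r5 d (fun c => hd (c ▸ hx)) (fun c => hd (c ▸ hy)) c1 c2, hQ d,
        r4 (M.op d) (fun c => o (c ▸ hx)) (fun c => o (c ▸ hy))
          (fun c => c2 (by rw [← em, ← c, M.op2])) fun c => c1 (op_inj.1 (c.trans em.symm))]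
    have ev := hK.eq_vtx cp
    have r7 : Q q ↔ R y := by
      rw [← em', ← hQ, ← hxy, ← ev]
      by_cases c : p = x
      · rw [← c, eq, r3, ← cn, b4, if_pos c]
      · rw [r0 _ (nt (by simp [tm, ne, Ne.symm c, qx.symm])), ← cn, b5 c]
    have r8 : ∀ w ∈ K, w ≠ y → (R w ↔ Q w) := fun w hw c => by
      by_cases c1 : w = x
      · rw [c1, r6, ← em, ← hQ, n3]
      · rw [r4 w c1 c (fun c => qK (c ▸ hw)) fun c => mK (c ▸ hw)]
    have r9 : R y ↔ Q W := by rw [r1, ← r2, ev, eW, r8 W (eW ▸ hK.vtx_mem _) Wy]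
    have all : ∀ w ∈ K, Q w := fun w hw => hK.all_of_cross hx h0 (fun v hv k => by
      rw [← hQ]
      by_cases c1 : v = x
      · rwa [c1, n1, ← hxy, ← c1]
      by_cases c2 : v = y
      · rw [c2, n2, r7, r9]; rwa [c2, ep, eW] at k
      · rw [← r5 v c1 c2 (fun c => qK (c ▸ hv)) fun c => mK (c ▸ hv), ev,
          r8 _ (hK.vtx_mem _) fun c => c1 (hK.succ_inj hv hx (c.trans hxy.symm))]
        exact k) hw
    have ry := r9.2 (all W (eW ▸ hK.vtx_mem _))
    intro d
    by_cases c1 : d = x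
    · exact c1 ▸ h0
    by_cases c2 : d = y
    · exact c2 ▸ all y hy
    by_cases c3 : d = q
    · exact c3 ▸ r7.2 ry
    obtain ⟨e, e1, rfl, -⟩ := pre d c1 c2 c3
    rw [← r0 e e1, ev]
    by_cases c : M.vtx K e = y
    · rwa [c]
    · exact (r8 _ (hK.vtx_mem _) c).2 (all _ (hK.vtx_mem _))
  have gK : ∀ {H : Type} [Group H] (μ : D → H) (s : H), ∀ d ∈ K, d ≠ x → d ≠ y →
      M.gauge μ K y s d = μ d := fun μ s d hd c1 c2 => hK.gauge_wall hx hxy hd c2 c1
  have gx : ∀ {H : Type} [Group H] (μ : D → H) (s : H), M.gauge μ K y s x = μ x * s :=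
    fun μ s => by simp [gauge, hK.vtx_self hx, ne, hxy]
  have gy : ∀ {H : Type} [Group H] (μ : D → H) (s : H), M.gauge μ K y s y = s⁻¹ * μ y :=
    fun μ s => by simp [gauge, hK.vtx_self hy, ep, eW, Wy]
  obtain ⟨G, hG⟩ : ∃ G, G = M.gauge L K y (L y) := ⟨_, rfl⟩
  obtain ⟨L', hL'⟩ : ∃ L' : D → Γ, L' = fun d => if d = x ∨ d = y then L d else
    if d = q then (L x * L y)⁻¹ else if d = m then L x * L y else G d := ⟨_, rfl⟩
  have l1 : L' x = L x := by simp [hL']
  have l2 : L' y = L y := by simp [hL']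
  have l3 : L' q = (L x * L y)⁻¹ := by simp [hL', qx, qy]
  have l4 : L' m = L x * L y := by simp [hL', mx, my, mq]
  have l5 : ∀ d, d ≠ x → d ≠ y → d ≠ q → d ≠ m → L' d = G d := fun d c1 c2 c3 c4 => by
    simp [hL', c1, c2, c3, c4]
  have G1 : G y = 1 := by rw [hG, gy, inv_mul_cancel]
  have G2 : G x = L x * L y := by rw [hG, gx]
  have G3 : ∀ d, d ∉ K → G (M.op d) = (G d)⁻¹ := fun d hd => hG ▸ hK.gauge_op hd (h.lab.1 d)
  have G4 : ∀ d, G d * G (M.nx d) * G (M.nx (M.nx d)) = 1 := fun d => hG ▸ gauge_tri (h.lab.2 d)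
  have G5 : G m = G p := by
    have := G4 y
    rw [ep, eq, G1, one_mul] at this
    rw [← em, G3 q qK, eq_inv_of_mul_eq_one_left this]
  have kl := key G L' l5 (l4.trans G2.symm) G5
  have lK : ∀ d ∈ K, L' d = L d := fun d hd => by
    by_cases c1 : d = x
    · rw [c1, l1]
    by_cases c2 : d = y
    · rw [c2, l2]
    rw [l5 d c1 c2 (fun c => qK (c ▸ hd)) fun c => mK (c ▸ hd), hG, gK _ _ d hd c1 c2]
  have off : ∀ d, d ∉ K → d ≠ q → d ≠ m → d ≠ x ∧ d ≠ y ∧ M.op d ≠ x ∧ M.op d ≠ y ∧ M.op d ≠ q ∧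
      M.op d ≠ m := fun d hd c1 c2 =>
    ⟨fun c => hd (c ▸ hx), fun c => hd (c ▸ hy), fun c => hK.op_notMem hd (c ▸ hx),
      fun c => hK.op_notMem hd (c ▸ hy), fun c => c2 (by rw [← em, ← c, M.op2]),
      fun c => c1 (op_inj.1 (c.trans em.symm))⟩
  have lab : M'.IsLab L' := by
    refine ⟨fun d => ?_, fun d => ?_⟩
    · show L' (M.op d) = _
      by_cases c : d ∈ K
      · rw [lK d c, lK _ (hK.inv d c), h.lab.1]
      by_cases c1 : d = q
      · rw [c1, em, l4, l3, inv_inv]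
      by_cases c2 : d = m
      · rw [c2, em', l4, l3]
      obtain ⟨o1, o2, o3, o4, o5, o6⟩ := off d c c1 c2
      rw [l5 _ o3 o4 o5 o6, l5 d o1 o2 c1 c2, G3 d c]
    · by_cases c1 : d = x
      · rw [c1, n1, n2, l1, l2, l3, mul_inv_cancel]
      by_cases c2 : d = y
      · rw [c2, n2, n3, l1, l2, l3]; group
      by_cases c3 : d = q
      · rw [c3, n3, n1, l1, l2, l3]; group
      obtain ⟨e, e1, rfl, -⟩ := pre d c1 c2 c3
      rw [cn, cn, kl e e1, kl _ (nt e1), kl _ (nt (nt e1)), G4]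
  have mv : M.Move L M' L' := by
    refine ⟨h.mark_of tr lab (fun S hS d => ?_) fun H _ μ hμ => ?_, rfl, fun Y α A hA o => ?_⟩
    · have k : ∀ d, d ∉ M.tri y → G d ∈ S := fun d hd => kl d hd ▸ hS _
      have k2 : G d ∈ S := by
        by_cases c : d ∈ M.tri y
        · rcases (tm d).1 c with rfl | rfl | rfl
          · rw [G1]; exact S.one_mem
          · rw [← G5]; exact k m mt
          · rw [← em', G3 m mK]; exact S.inv_mem (k m mt)
        · exact k d c
      have := gauge_mem (M := M) (K := K) (w := y) S (S.inv_mem (l2 ▸ hS y)) k2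
      rwa [hG, gauge_gauge, mul_inv_cancel, gauge_one] at this
    · have o0 : ∀ d, μ (M.op d) = (μ d)⁻¹ := hμ.1
      have m4 : μ m = μ x * μ y := by
        rw [← em, o0, eq_inv_of_mul_eq_one_right (hμ.cyc n1 n2), inv_inv]
      obtain ⟨ν, hν⟩ : ∃ ν : D → H, ν = fun d => if d = y then 1 else if d = x then μ m else
        if d = m then μ (β m) else if d = q then (μ (β m))⁻¹ else μ d := ⟨_, rfl⟩
      have v1 : ν y = 1 := by simp [hν]
      have v2 : ν x = μ m := by simp [hν, ne]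
      have v3 : ν m = μ (β m) := by simp [hν, mx, my]
      have v4 : ν q = (μ (β m))⁻¹ := by simp [hν, qx, qy, mq.symm]
      have v5 : ∀ d, d ≠ x → d ≠ y → d ≠ q → d ≠ m → μ d = ν d := fun d c1 c2 c3 c4 => by
        simp [hν, c1, c2, c3, c4]
      have v6 : ν m = ν p := by
        rw [v3, b4]
        split_ifs with c
        · rw [c, v2]
        · exact v5 p c py qp.symm mp.symm
      have kn := key ν μ v5 v2.symm v6
      have vK : ∀ d ∈ K, M.gauge ν K y (μ y)⁻¹ d = μ d := fun d hd => by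
        by_cases c1 : d = x
        · rw [c1, gx, v2, m4, mul_inv_cancel_right]
        by_cases c2 : d = y
        · rw [c2, gy, v1, inv_inv, mul_one]
        rw [gK _ _ d hd c1 c2, v5 d c1 c2 (fun c => qK (c ▸ hd)) fun c => mK (c ▸ hd)]
      refine ⟨M.gauge ν K y (μ y)⁻¹, ⟨fun d => ?_, fun d => gauge_tri ?_⟩, fun ψ hψ d => ?_⟩
      · by_cases c : d ∈ K
        · rw [vK d c, vK _ (hK.inv d c), o0]
        refine hK.gauge_op c ?_
        by_cases c1 : d = q
        · rw [c1, em, v3, v4, inv_inv]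
        by_cases c2 : d = m
        · rw [c2, em', v3, v4]
        obtain ⟨o1, o2, o3, o4, o5, o6⟩ := off d c c1 c2
        rw [← v5 _ o3 o4 o5 o6, ← v5 d o1 o2 c1 c2, o0]
      · by_cases c : d ∈ M.tri y
        · rcases (tm d).1 c with rfl | rfl | rfl <;>
            simp only [ep, eq, e3, v1, v4, ← v6, v3] <;> group
        · rw [← kn d c, ← kn _ (nt c), ← kn _ (nt (nt c)), ← cn (M.nx d), ← cn d, hμ.2]
      · have a1 : ψ (L x) = μ x := by rw [← hψ, vK x hx]
        have a2 : ψ (L y) = μ y := by rw [← hψ, vK y hy]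
        by_cases c1 : d = x
        · rw [c1, l1, a1]
        by_cases c2 : d = y
        · rw [c2, l2, a2]
        by_cases c3 : d = q
        · rw [c3, l3, map_inv, map_mul, a1, a2, ← m4, ← em', o0]
        by_cases c4 : d = m
        · rw [c4, l4, map_mul, a1, a2, m4]
        rw [l5 d c1 c2 c3 c4, hG, ← map_gauge ψ hψ, gauge_gauge, a2, inv_mul_cancel, gauge_one,
          v5 d c1 c2 c3 c4]
    · have e1 := sum_gauge h.lab hA hK (C := Finset.univ) ⟨by simp, by simp⟩ o y (L y)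
      rw [univ_inter, ← hG, sum_eq_single_of_mem x hx fun d hd c1 => by
        by_cases c2 : d = y
        · simp only [c2, ep, eW, Wy, if_true, if_false, hA.self, hA.self2, add_zero]
        · have : M.vtx K (M.nx d) ≠ y := fun c => c1 (hK.succ_inj hd hx (c.trans hxy.symm))
          simp only [c2, this, if_false, hA.self2, hA.self3, add_zero]] at e1
      simp only [ne, hxy, if_true, if_false, hA.self3, add_zero, ← act_mul] at e1
      have g1 := face_nx lab hA.inv hA.cyc (fun _ => o) x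
      have g2 := face_nx lab hA.inv hA.cyc (fun _ => o) q
      rw [n1] at g1
      rw [n3] at g2
      rw [← Equiv.sum_comp β, ← sum_compl_add_sum (M.tri y), sum_tri, ep, eq, b1, b2, b3, g1, ← g2,
        sum_congr rfl (g := M.face G α A fun _ => o) fun d hd => by
          simp only [face, cn, kl d (mem_compl.1 hd), kl _ (nt (mem_compl.1 hd))]]
      rw [← sum_compl_add_sum (M.tri y), sum_tri, ep, eq] at e1
      have f1 : M.face G α A (fun _ => o) y = 0 := by simp [face, G1, hA.self]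
      have f2 : M.face G α A (fun _ => o) p = 0 := by
        have := G4 y
        rw [ep, eq, G1, one_mul] at this
        simp [face, eq, this, hA.self3]
      have f3 : M.face G α A (fun _ => o) q = 0 := by simp [face, e3, G1, hA.self2]
      simp only [face, n1, l1, l2] at f1 f2 f3 e1 ⊢
      rw [hA.swap' o (α (L x) o)] at e1
      linarith
  have hK' : M'.IsCut (insert q (insert m K)) := by
    have := IsCut.insert (M := M') ⟨tr, hK.inv, hK.ne⟩ q
    rwa [show M'.op q = m from em] at this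
  have k1 : kap x y W m x = m := by simp [kap, ne]
  have k2 : kap x y W m W = kap x y W m y := by simp [kap, Wy]
  obtain ⟨f, hf⟩ : ∃ f : D → D, f = fun d => if d = x ∨ d = y ∨ d = q ∨ d = m then d else
    kap x y W m (M.vtx K d) := ⟨_, rfl⟩
  have f5 : ∀ d, d ≠ x → d ≠ y → d ≠ q → d ≠ m → f d = kap x y W m (M.vtx K d) :=
    fun d c1 c2 c3 c4 => by simp [hf, c1, c2, c3, c4]
  have kf := key (fun d => kap x y W m (M.vtx K d)) f f5
    (by simp only [hf, hK.vtx_self hx, k1]; simp) (by simp only [vm, eW, k2])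
  have sc : ∀ d, d ≠ x → d ≠ y → d ≠ q →
      f (M'.nx d) = kap x y W m (if d = m then y else M.vtx K (M.nx d)) := fun d c1 c2 c3 => by
    obtain ⟨e, e1, rfl, e2⟩ := pre d c1 c2 c3
    rw [cn, kf _ (nt e1), e2]
  have v : M'.vtx (insert q (insert m K)) = f := by
    refine hK'.vtx_eq (fun d hd => ?_) fun w hw => ?_
    · simp only [mem_insert, not_or] at hd
      obtain ⟨o1, o2, o3, o4, o5, o6⟩ := off d hd.2.2 hd.1 hd.2.1
      rw [sc d o1 o2 hd.1, if_neg hd.2.1, ← hK.vtx_op d hd.2.2]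
      exact f5 _ o3 o4 o5 o6
    · by_cases c : w = x ∨ w = y ∨ w = q ∨ w = m
      · simp only [hf, c, if_true]
      simp only [mem_insert, not_or] at hw c
      rw [f5 w c.1 c.2.1 c.2.2.1 c.2.2.2, hK.vtx_self (by tauto)]
      simp [kap, c.1, c.2.1]
  rw [ep, eq]
  refine ⟨M', L', mv, qK, n1, n2, n3, lK, fun C hC c => eq ▸ hC.1 _ (ep ▸ hC.1 _ c),
    fun C hC c d hd => ?_, fun C hC c => ⟨fun d hd => ?_, hC.2⟩, fun j hj c1 c2 => ?_, ?_⟩
  · have a1 : p ∉ C := by rwa [← ep, hC.nx_mem_iff]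
    have a2 : q ∉ C := by rwa [← eq, hC.nx_mem_iff]
    have a3 : m ∉ C := by rwa [← em, hC.op_mem_iff hK.inv qK]
    have a4 : x ∉ C := by rwa [← hC.nx_mem_iff, ← hC.vtx_mem_iff hK, hxy]
    have a5 : ∀ d ∈ C, β d = d := fun d hd => b6 d (fun c => a1 (c ▸ hd)) (fun c => a2 (c ▸ hd))
      (fun c => a4 (c ▸ hd)) fun c => a3 (c ▸ hd)
    have a6 : ∀ d ∈ C, M.vtx K d ≠ y := fun d hd e => c (e ▸ (hC.vtx_mem_iff hK d).2 hd)
    refine ⟨by conv_lhs => rw [← a5 d hd, cn, a5 _ (hC.1 d hd)], ?_⟩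
    rw [l5 d (fun e => a4 (e ▸ hd)) (fun e => c (e ▸ hd)) (fun e => a2 (e ▸ hd))
      fun e => a3 (e ▸ hd), hG]
    simp [gauge, a6 d hd, a6 _ (hC.1 d hd)]
  · have a2 : q ∈ C := n2 ▸ hC.1 _ c
    have a4 : x ∈ C := n3 ▸ hC.1 _ a2
    have a3 : m ∈ C := em ▸ hC.2 q a2 qK
    have hC' : M'.Closed (insert q (insert m K)) C :=
      ⟨hC.1, fun d hd k => hC.2 d hd fun e => k (by simp [e])⟩
    have a1 : p ∈ C := by
      by_cases e : p = x
      · rwa [e]
      rw [← hC'.vtx_mem_iff hK', v, f5 p e py qp.symm mp.symm, eW, k2]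
      have := (hC'.vtx_mem_iff hK' _).2 (hC.1 m a3)
      rwa [v, sc m mx my mq, if_pos rfl] at this
    have a5 : ∀ d, β d ∈ C ↔ d ∈ C := fun d => by
      by_cases c1 : d = p
      · simp [c1, b2, a1, a2]
      by_cases c2 : d = q
      · simp [c2, b3, a2, a4]
      by_cases c3 : d = m
      · rw [c3, b4]; split_ifs <;> simp [a1, a3]
      by_cases c4 : d = x
      · rw [c4, b5 fun e => c1 (c4.trans e.symm)]; simp [a3, a4]
      · rw [b6 d c1 c2 c4 c3]
    rw [← a5, ← cn]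
    exact hC.1 _ ((a5 d).2 hd)
  · rw [em, v, ep, eW, sc j c1 c2 (fun c => qK (c ▸ hj)), if_neg fun c : j = m => mK (c ▸ hj)]
  · rw [em, v, ep, eW, sc m mx my mq, if_pos rfl]

theorem Mark.slide (h : M.Mark L) (hK : M.IsCut K) {x y : D} (hx : x ∈ K)
    (hxy : M.vtx K (M.nx x) = y) (ne : x ≠ y) (hn : M.nx x = y → M.nx y ∉ K) :
    ∃ M' L' q, M.Slid L K x y M' L' q := by
  by_cases c : M.nx x = y
  · have hq := hn c
    have hy : y ∈ K := hxy ▸ hK.vtx_mem _
    subst c
    exact ⟨_, _, _, h.slide_ear hK hx hy hq⟩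
  · obtain ⟨M', L', k⟩ := h.slide_gen hK hx hxy ne c
    exact ⟨_, _, _, k⟩

end DartMap

end Pool.Agent.Lib.MP_a25f44_gt
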