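import Pool.Agent.Lib.MP_a25f44_gt.H48Slide

/-! Extraction of pants and handles. -/

set_option linter.unusedSectionVars false
set_option linter.unusedVariables false
set_option linter.unusedSimpArgs false

namespace Pool.Agent.Lib.MP_a25f44_gt

open Finset

namespace DartMap

variable {D : Type} [Fintype D] [DecidableEq D] {M : DartMap D} {K F C : Finset D}
  {Γ : Type} [Group Γ] {L : D → Γ}

theorem Closed.mono {K' : Finset D} (h : M.Closed K C) (hK : K ⊆ K') : M.Closed K' C :=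
  ⟨h.1, fun d hd c => h.2 d hd fun k => c (hK k)⟩

theorem lam_eq {Y : Type} (α : Γ →* Equiv.Perm Y) (A : Y → Y → Y → ℝ) (o : Y) (f : Γ → ℝ) :
    M.lam L α A o f K F = Real.pi * ((Fintype.card D : ℝ) - F.card - 3 * (K \ F).card) -
      ∑ d, M.face L α A (fun _ => o) d + ∑ d ∈ F, M.face L α A (fun _ => o) d +
      3 * ∑ w ∈ K \ F, f (L w) := by
  rw [lam, card_compl_eq, sum_compl_eq]; ring

theorem lam_cut {Y : Type} (α : Γ →* Equiv.Perm Y) (A : Y → Y → Y → ℝ) (o : Y) (f : Γ → ℝ)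
    (hL : M.IsLab L) (hK : M.IsCut K) (hF : M.Closed K F) {a : D} (ha : a ∉ K) (aF : a ∉ F) :
    M.lam L α A o f (insert a (insert (M.op a) K)) F =
      M.lam L α A o f K F - 6 * Real.pi + 3 * (f (L a) + f (L a)⁻¹) := by
  have o1 := hK.op_notMem ha
  have o2 : M.op a ∉ F := by rwa [hF.op_mem_iff hK.inv ha]
  have n1 : M.op a ∉ K \ F := by simp [o1]
  have n2 : a ∉ insert (M.op a) (K \ F) := by simp [ha, (M.op_ne a).symm]
  rw [lam, lam, insert_sdiff_of_notMem _ aF, insert_sdiff_of_notMem _ o2, sum_insert n2,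
    sum_insert n1, card_insert_of_notMem n2, card_insert_of_notMem n1, hL.1]
  push_cast
  ring

theorem Slid.step {x y q : D} {M' : DartMap D} {L' : D → Γ} (s : M.Slid L K x y M' L' q)
    (hK : M.IsCut K) (hF : M.Closed K F) (hx : x ∈ K) (hxy : M.vtx K (M.nx x) = y) (ne : x ≠ y)
    (yF : y ∉ F) :
    M'.IsCut (insert q (insert (M.op q) K)) ∧
    M'.Closed (insert q (insert (M.op q) K)) (F ∪ {x, y, q}) ∧ q ∉ F ∧ M.op q ∉ F ∧
    M.op q ∉ K ∧ (∀ d ∈ F, M'.nx d = M.nx d ∧ L' d = L d) ∧ L' (M.op q) = L x * L y ∧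
    ∀ (Y : Type) (α : Γ →* Equiv.Perm Y) (A : Y → Y → Y → ℝ), IsCoc α A → ∀ (o : Y) (f : Γ → ℝ),
      M'.lam L' α A o f (insert q (insert (M.op q) K)) (F ∪ {x, y, q}) = M.lam L α A o f K F +
        3 * (A o (α (L x) o) (α (L x * L y) o) + f (L x * L y) - f (L x) - f (L y)) := by
  have hy : y ∈ K := hxy ▸ hK.vtx_mem _
  have xF : x ∉ F := by rwa [← hF.nx_mem_iff, ← hF.vtx_mem_iff hK, hxy]
  have qF : q ∉ F := mem_compl.1 (s.mem _ (hF.compl hK.inv) (mem_compl.2 yF))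
  have mF : M.op q ∉ F := by rwa [hF.op_mem_iff hK.inv s.qK]
  have mK := hK.op_notMem s.qK
  have lab := s.move.mark.lab
  have out := s.out F hF yF
  have t : M'.tri x = {x, y, q} := by rw [tri, s.n1, s.n2]
  have lm : L' (M.op q) = L x * L y := by
    rw [← s.move.op, lab.1, eq_inv_of_mul_eq_one_right (lab.cyc s.n1 s.n2), inv_inv, s.lab x hx,
      s.lab y hy]
  refine ⟨?_, ⟨fun d hd => ?_, fun d hd c => ?_⟩, qF, mF, mK, out, lm, fun Y α A hA o f => ?_⟩
  · have := IsCut.insert (M := M') ⟨s.move.mark.tr, s.move.op ▸ hK.inv, hK.ne⟩ q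
    rwa [s.move.op] at this
  · rcases mem_union.1 hd with g | g
    · exact mem_union_left _ ((out d g).1 ▸ hF.1 d g)
    · exact mem_union_right _ (t ▸ nx_mem_tri.2 (t ▸ g))
  · simp only [mem_insert, not_or, mem_union, mem_singleton] at c hd
    rcases hd with g | g | g | g
    · exact mem_union_left _ (s.move.op ▸ hF.2 d g c.2.2)
    exacts [absurd (g ▸ hx) c.2.2, absurd (g ▸ hy) c.2.2, absurd g c.1]
  · have dj : Disjoint F {x, y, q} := by simp [xF, yF, qF]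
    have e1 : insert q (insert (M.op q) K) \ (F ∪ {x, y, q}) =
        insert (M.op q) (((K \ F).erase x).erase y) := by
      ext d
      simp only [mem_sdiff, mem_insert, mem_union, mem_singleton, mem_erase, not_or]
      constructor
      · grind
      · rintro (rfl | g)
        · exact ⟨by simp, mF, fun c => mK (c ▸ hx), fun c => mK (c ▸ hy), M.op_ne q⟩
        · exact ⟨by simp [g], g.2.2.2, g.2.1, g.1, fun c => s.qK (c ▸ g.2.2.1)⟩
    have x1 : x ∈ K \ F := mem_sdiff.2 ⟨hx, xF⟩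
    have y1 : y ∈ (K \ F).erase x := mem_erase.2 ⟨ne.symm, mem_sdiff.2 ⟨hy, yF⟩⟩
    have n1 : M.op q ∉ ((K \ F).erase x).erase y := by simp [mK]
    have c1 := card_erase_add_one x1
    have c2 := card_erase_add_one y1
    rw [lam_eq, lam_eq, e1, sum_insert n1, card_insert_of_notMem n1, card_union_of_disjoint dj,
      sum_union dj, ← t, card_tri, sum_tri_face lab hA, s.move.area Y α A hA o, lm,
      ← add_sum_erase _ _ x1, ← add_sum_erase _ _ y1, ← c1, ← c2,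
      sum_congr rfl (s₁ := F) (g := M.face L α A fun _ => o) fun d hd => by
        simp only [face, (out d hd).1, (out d hd).2, (out _ (hF.1 d hd)).2],
      sum_congr rfl (s₁ := ((K \ F).erase x).erase y) (g := fun w => f (L w)) fun d hd => by
        rw [s.lab d (mem_sdiff.1 (mem_of_mem_erase (mem_of_mem_erase hd))).1],
      face, s.n1, s.lab x hx, s.lab y hy]
    push_cast
    ring

/-- vertices after cutting along one more edge -/
theorem PS.cut_succ (h : M.PS K F) {a : D} (ha : a ∉ K) :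
    (∀ d w, M.vtx K d = w → M.vtx (insert a (insert (M.op a) K)) d = w ∨
      (M.vtx K a = w ∧ M.vtx (insert a (insert (M.op a) K)) d = a) ∨
      (M.vtx K (M.nx a) = w ∧ M.vtx (insert a (insert (M.op a) K)) d = M.op a)) ∧
    ∀ e ∈ K, M.vtx K a = e ∨ M.vtx K (M.nx a) = e →
      M.vtx (insert a (insert (M.op a) K)) (M.nx e) ≠ e := by
  have hK := h.cut
  have hK1 := hK.insert a
  refine ⟨fun d w e => ?_, fun e he k c => ?_⟩
  · have h1 := hK1.vtx_mono hK (fun x hx => by simp [hx]) d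
    have h2 := hK1.vtx_mem d
    simp only [mem_insert] at h2
    rcases h2 with g | g | g
    · exact .inr (.inl ⟨by rw [← e, h1, g], g⟩)
    · exact .inr (.inr ⟨by rw [← e, h1, g, hK.vtx_op a ha], g⟩)
    · exact .inl (by rw [← e, h1, hK.vtx_self g])
  · have e1 : e ∈ insert a (insert (M.op a) K) := by simp [he]
    have := hK.ind (Q := fun d => M.vtx K d = e → M.vtx (insert a (insert (M.op a) K)) d = e)
      (fun w hw g => by rw [hK.vtx_self hw] at g; rw [g, hK1.vtx_self e1]) fun d hd ih g => by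
        have := ih (hK.vtx_op d hd ▸ g)
        by_cases c1 : d ∈ insert a (insert (M.op a) K)
        · exact absurd (hK1.succ_inj c1 e1 (this.trans c.symm) ▸ he) hd
        · rw [hK1.vtx_op d c1, this]
    rcases k with k | k
    · exact ha ((hK1.vtx_self (by simp)).symm.trans (this a k) ▸ he)
    · exact hK.op_notMem ha ((hK1.vtx_self (by simp)).symm.trans
        (this _ ((hK.vtx_op a ha).trans k)) ▸ he)

theorem Mark.x1 (h : M.Mark L) (hP : M.PS K F) {a e : D} (ha : a ∉ K) (hF : a ∉ F)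
    (h1 : M.vtx K a = e) (h2 : M.vtx K (M.nx a) = e) :
    ∃ (M' : DartMap D) (L' : D → Γ) (b q : D), M.Move L M' L' ∧ (b = a ∨ b = M.op a) ∧
      (M.nx a = e → b = M.op a) ∧ M'.nx (M.op b) = e ∧ M'.nx e = q ∧ M'.nx q = M.op b ∧
      L' b = L b ∧ (∀ d ∈ K ∪ F, L' d = L d) ∧ (∀ d ∈ F, M'.nx d = M.nx d) ∧
      M'.PS (K ∪ {b, M.op b, q, M.op q}) (F ∪ {M.op b, e, q}) ∧
      ∀ (Y : Type) (α : Γ →* Equiv.Perm Y) (A : Y → Y → Y → ℝ), IsCoc α A → ∀ (o : Y) (f : Γ → ℝ),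
        M'.lam L' α A o f (K ∪ {b, M.op b, q, M.op q}) (F ∪ {M.op b, e, q}) =
          M.lam L α A o f K F - 6 * Real.pi + 3 * (f (L b) + f ((L b)⁻¹ * L e) - f (L e) -
            A o (α (L b) o) (α (L e) o)) := by
  have hK := hP.cut
  have hK1 := hK.insert a
  obtain ⟨c1, c2⟩ := hP.cut_succ ha
  have he : e ∈ K := h1 ▸ hK.vtx_mem a
  have eF : e ∉ F := by rwa [← h1, hP.cl.vtx_mem_iff hK]
  have oa := hK.op_notMem ha
  have a1 : a ∈ insert a (insert (M.op a) K) := by simp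
  have a2 : M.op a ∈ insert a (insert (M.op a) K) := by simp
  have e1 : e ∈ insert a (insert (M.op a) K) := by simp [he]
  have s0 := c1 _ _ (hP.loop e he eF)
  have s1 := c1 _ _ h2
  have s2 := c1 (M.nx (M.op a)) e (by rw [← hK.vtx_op _ oa, M.op2, h1])
  have t0 := c2 e he (.inl h1)
  have t1 := hK1.succ_ne_op a1
  have t2 := hK1.succ_ne_op a2
  rw [M.op2] at t2
  have ae : a ≠ e := fun c => ha (c ▸ he)
  have oe : M.op a ≠ e := fun c => oa (c ▸ he)
  obtain ⟨b, hb, hb', b1, b2, b3⟩ : ∃ b, (b = a ∨ b = M.op a) ∧ (M.nx a = e → b = M.op a) ∧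
      M.vtx (insert a (insert (M.op a) K)) (M.nx (M.op b)) = e ∧
      M.vtx (insert a (insert (M.op a) K)) (M.nx e) = M.op b ∧
      M.vtx (insert a (insert (M.op a) K)) (M.nx b) = b := by
    have i1 := mt (hK1.succ_inj a1 e1) ae
    have i2 := mt (hK1.succ_inj a2 e1) oe
    have i3 := mt (hK1.succ_inj a2 a1) (M.op_ne a)
    rcases s0 with g | ⟨-, g⟩ | ⟨-, g⟩
    · exact absurd g t0
    · have g1 : M.vtx (insert a (insert (M.op a) K)) (M.nx a) = e := by grind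
      exact ⟨M.op a, .inr rfl, fun _ => rfl, by rwa [M.op2], by rwa [M.op2], by grind⟩
    · have g1 : M.vtx (insert a (insert (M.op a) K)) (M.nx (M.op a)) = e := by grind
      have g2 : M.vtx (insert a (insert (M.op a) K)) (M.nx a) = a := by grind
      exact ⟨a, .inl rfl, fun c => absurd (by rw [← g2, c, hK1.vtx_self e1]) ae, g1, g, g2⟩
  have eK : insert a (insert (M.op a) K) = insert b (insert (M.op b) K) := by
    rcases hb with rfl | rfl
    · rfl
    · rw [M.op2, insert_comm]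
  have bK : b ∉ K := by rcases hb with rfl | rfl <;> assumption
  have bF : b ∉ F := by
    rcases hb with rfl | rfl
    · exact hF
    · rwa [hP.cl.op_mem_iff hK.inv ha]
  have c3 : ∀ j ∈ K, j ∉ F → j ≠ e → M.vtx (insert a (insert (M.op a) K)) (M.nx j) = j :=
    fun j hj jF je => by have := c1 _ _ (hP.loop j hj jF); grind
  rw [eK] at hK1 b1 b2 b3 e1 c3
  have ob := hK.op_notMem bK
  have x1 : M.op b ∈ insert b (insert (M.op b) K) := by simp
  have xe : M.op b ≠ e := fun c => ob (c ▸ he)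
  have be : b ≠ e := fun c => bK (c ▸ he)
  obtain ⟨M', L', q, s⟩ := h.slide hK1 x1 b1 xe fun c => by
    simp only [mem_insert, not_or]
    exact ⟨fun k => h.tr.op_ne_nx2 (M.op b) (by rw [c, k, M.op2]),
      fun k => M.nx2_ne (M.op b) (by rw [c, k]), (hP.nx_notMem he eF).1⟩
  have hF1 := hP.cl.mono (K' := insert b (insert (M.op b) K)) fun x hx => by simp [hx]
  obtain ⟨p1, p2, p3, p4, p5, p6, p7, p8⟩ := s.step hK1 hF1 x1 b1 xe eF
  have eK2 : K ∪ {b, M.op b, q, M.op q} =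
      insert q (insert (M.op q) (insert b (insert (M.op b) K))) := by
    ext; simp only [mem_union, mem_insert, mem_singleton]; grind
  refine ⟨M', L', b, q, ?_⟩
  rw [eK2]
  refine ⟨s.move, hb, hb', s.n1, s.n2, s.n3, s.lab b (by simp), fun d hd => ?_,
    fun d hd => (p6 d hd).1, ⟨p1, p2, fun w hw wF => ?_⟩, fun Y α A hA o f => ?_⟩
  · exact (mem_union.1 hd).elim (fun g => s.lab d (by simp [g])) fun g => (p6 d g).2
  · simp only [mem_insert, mem_union, mem_singleton, not_or] at hw wF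
    rcases hw with g | rfl | rfl | g | g
    · exact absurd g wF.2.2.2
    · rw [s.succm, b2]; simp [kap]
    · rw [s.succ w (by simp) wF.2.1 be, b3]; simp [kap, be, wF.2.1]
    · exact absurd g wF.2.1
    · rw [s.succ w (by simp [g]) wF.2.1 wF.2.2.1, c3 w g wF.1 wF.2.2.1]
      simp [kap, wF.2.1, wF.2.2.1]
  · rw [p8 Y α A hA, lam_cut α A o f h.lab hK hP.cl bK bF, h.lab.1,
      hA.move o (L b) 1 (L e) (by group) (by group), map_one, Equiv.Perm.one_apply, hA.swap]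
    ring

theorem Mark.x1A (h : M.Mark L) {a e : D} (ha : a ≠ e) (ha' : a ≠ M.op e)
    (h1 : M.vtx {e, M.op e} a = e) (h2 : M.vtx {e, M.op e} (M.nx a) = e) :
    ∃ (M' : DartMap D) (L' : D → Γ), M.Move L M' L' ∧ M'.Pants e ∧ L' e = L e ∧
      (L' (M.op (M'.nx (M'.nx e))) = (L a)⁻¹ ∨
        (M.nx a ≠ e ∧ L' (M.op (M'.nx (M'.nx e))) = L a)) := by
  obtain ⟨M', L', b, q, mv, hb, hb', n1, n2, n3, l1, l2, -, ps, -⟩ :=
    h.x1 (h.tr.ps_edge e) (by simp [ha, ha']) (by simp) h1 h2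
  refine ⟨M', L', mv, ?_, l2 e (by simp), ?_⟩
  · have t : M'.tri e = ∅ ∪ {M.op b, e, q} := by
      ext; simp only [mem_tri, n2, n3, empty_union, mem_insert, mem_singleton]; grind
    have t2 : M'.triK e = {e, M.op e} ∪ {b, M.op b, q, M.op q} := by
      ext d
      simp only [mem_triK, mem_tri, n2, n3, mem_union, mem_insert, mem_singleton, mv.op,
        op_eq_iff (a := d), M.op2]
      grind
    rwa [Pants, t, t2]
  · rw [n2, n3, M.op2, l1]
    by_cases c : M.nx a = e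
    · exact .inl (by rw [hb' c, h.lab.1])
    · rcases hb with rfl | rfl
      exacts [.inr ⟨c, rfl⟩, .inl (h.lab.1 a)]

theorem Mark.x2_core (h : M.Mark L) (hP : M.PS K F) (hn : M.NoAnn K F) {a i j : D} (ha : a ∉ K)
    (hF : a ∉ F) (h1 : M.vtx K a = i) (h2 : M.vtx K (M.nx a) = j) (hij : i ≠ j) :
    ∃ (M' : DartMap D) (L' : D → Γ) (q₁ q₂ q₃ : D) (K' F' : Finset D), M.Move L M' L' ∧
      K' = insert q₃ (insert (M.op q₃) (insert q₂ (insert (M.op q₂) (insert q₁ (insert (M.op q₁)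
        (insert a (insert (M.op a) K))))))) ∧
      F' = F ∪ {a, j, q₁} ∪ {M.op q₁, M.op a, q₂} ∪ {i, M.op q₂, q₃} ∧ M'.PS K' F' ∧
      (M'.nx a = j ∧ M'.nx j = q₁ ∧ M'.nx q₁ = a) ∧
      (M'.nx (M.op q₁) = M.op a ∧ M'.nx (M.op a) = q₂ ∧ M'.nx q₂ = M.op q₁) ∧
      (M'.nx i = M.op q₂ ∧ M'.nx (M.op q₂) = q₃ ∧ M'.nx q₃ = i) ∧
      (∀ d ∈ K ∪ F, L' d = L d) ∧ (∀ d ∈ F, M'.nx d = M.nx d) ∧ L' a = L a ∧
      L' (M.op q₂) = L a * L j * (L a)⁻¹ ∧ M.op q₃ ∉ F' ∧
      ∀ (Y : Type) (α : Γ →* Equiv.Perm Y) (A : Y → Y → Y → ℝ), IsCoc α A → ∀ (o : Y) (f : Γ → ℝ),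
        M'.lam L' α A o f K' F' = M.lam L α A o f K F - 6 * Real.pi +
          3 * (f (L i * (L a * L j * (L a)⁻¹)) - f (L i) - f (L j) +
            A o (α (L a) o) (α (L a * L j) o) + A o (α (L a * L j) o) (α (L a * L j * (L a)⁻¹) o) +
            A o (α (L i) o) (α (L i * (L a * L j * (L a)⁻¹)) o)) := by
  have hK := hP.cut
  have hK1 := hK.insert a
  obtain ⟨c1, c2⟩ := hP.cut_succ ha
  have hi : i ∈ K := h1 ▸ hK.vtx_mem a
  have hj : j ∈ K := h2 ▸ hK.vtx_mem _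
  have iF : i ∉ F := by rwa [← h1, hP.cl.vtx_mem_iff hK]
  have jF : j ∉ F := by rwa [← h2, hP.cl.vtx_mem_iff hK, hP.cl.nx_mem_iff]
  have oa := hK.op_notMem ha
  have oF : M.op a ∉ F := by rwa [hP.cl.op_mem_iff hK.inv ha]
  have aa := M.op_ne a
  set K1 := insert a (insert (M.op a) K) with eK1
  have a1 : a ∈ K1 := by simp [eK1]
  have a2 : M.op a ∈ K1 := by simp [eK1]
  have sub1 : K ⊆ K1 := fun x hx => by simp [eK1, hx]
  have ai : a ≠ i := fun c => ha (c ▸ hi)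
  have aj : a ≠ j := fun c => ha (c ▸ hj)
  have oi : M.op a ≠ i := fun c => oa (c ▸ hi)
  have oj : M.op a ≠ j := fun c => oa (c ▸ hj)
  have si : M.vtx K1 (M.nx i) = a := by
    have := c1 _ _ (hP.loop i hi iF); have := c2 i hi (.inl h1); grind
  have sj : M.vtx K1 (M.nx j) = M.op a := by
    have := c1 _ _ (hP.loop j hj jF); have := c2 j hj (.inr h2); grind
  have sa : M.vtx K1 (M.nx a) = j := by
    have := c1 _ _ h2; have := hK1.succ_ne_op a1; grind
  have so : M.vtx K1 (M.nx (M.op a)) = i := by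
    have := c1 (M.nx (M.op a)) i (by rw [← hK.vtx_op _ oa, M.op2, h1])
    have t := hK1.succ_ne_op a2
    rw [M.op2] at t
    grind
  have sl : ∀ l ∈ K, l ∉ F → l ≠ i → l ≠ j → M.vtx K1 (M.nx l) = l := fun l hl lF _ _ => by
    have := c1 _ _ (hP.loop l hl lF); grind
  have hF1 := hP.cl.mono sub1
  obtain ⟨M1, L1, q1, s⟩ := h.slide hK1 a1 sa aj fun c => by
    simp only [eK1, mem_insert, not_or]
    exact ⟨fun k => M.nx2_ne a (by rw [c, k]), fun k => h.tr.op_ne_nx2 a (by rw [c, k]),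
      (hP.nx_notMem hj jF).1⟩
  obtain ⟨p1, p2, p3, p4, p5, p6, p7, p8⟩ := s.step hK1 hF1 a1 sa aj jF
  have o1 := s.move.op
  set K2 := insert q1 (insert (M.op q1) K1) with eK2
  have sub2 : K1 ⊆ K2 := fun x hx => by simp [eK2, hx]
  have m1 : M.op q1 ∈ K2 := by simp [eK2]
  have n1 : ∀ x ∈ K1, M.op q1 ≠ x ∧ q1 ≠ x := fun x hx =>
    ⟨fun c => p5 (c ▸ hx), fun c => s.qK (c ▸ hx)⟩
  have ti : M1.vtx K2 (M1.nx i) = M.op q1 := by
    rw [s.succ i (sub1 hi) ai.symm hij, si]; simp [kap, aj]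
  have tq : M1.vtx K2 (M1.nx (M.op a)) = i := by
    rw [s.succ _ a2 aa oj, so]; simp [kap, hij, ai.symm]
  have tm : M1.vtx K2 (M1.nx (M.op q1)) = M.op a := by rw [s.succm, sj]; simp [kap, aa]
  have tl : ∀ l ∈ K, l ∉ F → l ≠ i → l ≠ j → M1.vtx K2 (M1.nx l) = l := fun l hl lF li lj => by
    have : l ≠ a := fun c => ha (c ▸ hl)
    rw [s.succ l (sub1 hl) this lj, sl l hl lF li lj]; simp [kap, lj, this]
  obtain ⟨M2, L2, q2, t⟩ := s.move.mark.slide p1 m1 tm (n1 _ a2).1 fun c k => by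
    have e3 : M1.nx (M1.nx (M.op a)) = M.op q1 := by rw [← c, M1.nx3]
    have e2 : M1.nx (M.op a) = i := p1.succ_inj k (sub2 (sub1 hi)) (by
      rw [e3, p1.vtx_self m1, ti])
    rw [e2] at e3
    have hC : M1.Closed K ({a, j, q1} ∪ {M.op q1, M.op a, i}) := by
      constructor <;> simp [s.n1, s.n2, s.n3, c, e2, e3, o1, M.op2, hi, hj]
    have := hn _ ⟨(s.back _ (hC.mono sub1) (by simp)).1, o1 ▸ hC.2⟩
      (by simp [hF, jF, p3, p4, oF, iF]) (by simp)
    have h2 := card_union_le ({a, j, q1} : Finset D) {M.op q1, M.op a, i}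
    have h3 : ({a, j, q1} : Finset D).card ≤ 3 := card_le_three
    have h4 : ({M.op q1, M.op a, i} : Finset D).card ≤ 3 := card_le_three
    omega
  obtain ⟨r1, r2, r3, r4, r5, r6, r7, r8⟩ := t.step p1 p2 m1 tm (n1 _ a2).1
    (by simp [oF, aa, oj, (n1 _ a2).2.symm])
  have o2 := t.move.op
  have ts := t.succ
  have tsm := t.succm
  simp only [o1] at r1 r2 r4 r5 r7 r8 ts tsm
  set K3 := insert q2 (insert (M.op q2) K2) with eK3
  have sub3 : K2 ⊆ K3 := fun x hx => by simp [eK3, hx]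
  have m2 : M.op q2 ∈ K3 := by simp [eK3]
  have n2 : ∀ x ∈ K2, M.op q2 ≠ x ∧ q2 ≠ x := fun x hx =>
    ⟨fun c => r5 (c ▸ hx), fun c => t.qK (c ▸ hx)⟩
  have i1 := sub1 hi
  have i2 := sub2 i1
  have ui : M2.vtx K3 (M2.nx i) = M.op q2 := by
    rw [ts i i2 (n1 i i1).1.symm oi.symm, ti]; simp [kap, (n1 _ a2).1]
  have um : M2.vtx K3 (M2.nx (M.op q2)) = i := by rw [tsm, tq]; simp [kap, (n1 i i1).1.symm]
  have ul : ∀ l ∈ K, l ∉ F → l ≠ i → l ≠ j → M2.vtx K3 (M2.nx l) = l := fun l hl lF li lj => by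
    have k1 := (n1 l (sub1 hl)).1.symm
    have k2 : l ≠ M.op a := fun c => oa (c ▸ hl)
    rw [ts l (sub2 (sub1 hl)) k1 k2, tl l hl lF li lj]; simp [kap, k1, k2]
  obtain ⟨M3, L3, q3, u⟩ := t.move.mark.slide r1 (sub3 i2) ui (n2 i i2).1.symm fun c k =>
    M2.nx_ne _ (r1.succ_inj k m2 (by rw [← c, M2.nx3, r1.vtx_self (sub3 i2), c, um]))
  obtain ⟨v1, v2, v3, v4, v5, v6, v7, v8⟩ := u.step r1 r2 (sub3 i2) ui (n2 i i2).1.symm (by
    rw [mem_union, not_or]
    exact ⟨r4, by simp [(n2 _ m1).1, (n2 _ (sub2 a2)).1, M.op_ne]⟩)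
  have us := u.succ
  have usm := u.succm
  simp only [o1, o2] at v1 v2 v4 v5 v7 v8 us usm
  have lab : ∀ d ∈ K1, L3 d = L d := fun d hd => by
    rw [u.lab d (sub3 (sub2 hd)), t.lab d (sub2 hd), s.lab d hd]
  have l1 : L2 (M.op q2) = L a * L j * (L a)⁻¹ := by rw [r7, p7, s.lab _ a2, h.lab.1]
  have w1 : ∀ d ∈ F ∪ {a, j, q1}, M3.nx d = M1.nx d := fun d hd =>
    (v6 d (mem_union_left _ hd)).1.trans (r6 d hd).1
  have n3 : M.op q3 ∉ ({i, M.op q2, q3} : Finset D) := by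
    simp only [mem_insert, mem_singleton, not_or]
    exact ⟨fun c => v5 (c ▸ sub3 i2), fun c => v5 (c ▸ m2), M.op_ne _⟩
  refine ⟨M3, L3, q1, q2, q3, _, _, (s.move.trans t.move).trans u.move, rfl, rfl,
    ⟨v1, v2, fun w hw wF => ?_⟩, ⟨?_, ?_, ?_⟩, ⟨?_, ?_, ?_⟩, ⟨u.n1, u.n2, u.n3⟩, fun d hd => ?_,
    fun d hd => (w1 d (mem_union_left _ hd)).trans (p6 d hd).1, lab a a1,
    (u.lab _ m2).trans l1, fun c => (mem_union.1 c).elim v4 n3, fun Y α A hA o f => ?_⟩
  · simp only [mem_union, mem_insert, mem_singleton, not_or] at wF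
    by_cases c : w = M.op q3
    · rw [c, usm, um]; simp [kap]
    have hw' : w ∈ K := by
      simp only [eK1, eK2, eK3, mem_insert] at hw
      grind
    have k1 := (n2 w (sub2 (sub1 hw'))).1.symm
    rw [us w (sub3 (sub2 (sub1 hw'))) wF.2.1 k1, ul w hw' wF.1.1.1 wF.2.1 wF.1.1.2.2.1]
    simp [kap, k1, wF.2.1]
  · rw [w1 _ (by simp), s.n1]
  · rw [w1 _ (by simp), s.n2]
  · rw [w1 _ (by simp), s.n3]
  · rw [(v6 _ (by simp)).1, t.n1]
  · rw [(v6 _ (by simp)).1, t.n2]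
  · rw [(v6 _ (by simp)).1, t.n3]
  · rcases mem_union.1 hd with g | g
    · exact lab d (sub1 g)
    · rw [(v6 d (by simp [g])).2, (r6 d (by simp [g])).2, (p6 d g).2]
  · rw [v8 Y α A hA, r8 Y α A hA, p8 Y α A hA, lam_cut α A o f h.lab hK hP.cl ha hF, l1, p7,
      t.lab i i2, s.lab i i1, s.lab _ a2, h.lab.1]
    ring

theorem Mark.x2 (h : M.Mark L) (hP : M.PS K F) (hn : M.NoAnn K F) {a i j : D} (ha : a ∉ K)
    (hF : a ∉ F) (h1 : M.vtx K a = i) (h2 : M.vtx K (M.nx a) = j) (hij : i ≠ j) :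
    ∃ (M' : DartMap D) (L' : D → Γ) (K' F' : Finset D), M.Move L M' L' ∧ M'.PS K' F' ∧
      ∀ (Y : Type) (α : Γ →* Equiv.Perm Y) (A : Y → Y → Y → ℝ), IsCoc α A → ∀ (o : Y) (f : Γ → ℝ),
        M'.lam L' α A o f K' F' = M.lam L α A o f K F - 6 * Real.pi +
          3 * (f (L i * (L a * L j * (L a)⁻¹)) - f (L i) - f (L j) +
            A o (α (L a) o) (α (L a * L j) o) + A o (α (L a * L j) o) (α (L a * L j * (L a)⁻¹) o) +
            A o (α (L i) o) (α (L i * (L a * L j * (L a)⁻¹)) o)) := by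
  obtain ⟨M', L', -, -, -, K', F', h1, -, -, h2, -, -, -, -, -, -, -, -, h3⟩ :=
    h.x2_core hP hn ha hF h1 h2 hij
  exact ⟨M', L', K', F', h1, h2, h3⟩

theorem Mark.x2A (h : M.Mark L) (hD : 6 < Fintype.card D) {a e : D}
    (h1 : M.vtx {e, M.op e} a = e) (h2 : M.vtx {e, M.op e} (M.nx a) = M.op e) :
    ∃ (M' : DartMap D) (L' : D → Γ) (q : D), M.Move L M' L' ∧ M'.Pants q ∧ M'.nx q = e ∧
      M'.Ann (M.op (M'.nx e)) (M.op e) ∧ L' e = L e ∧
      L' (M'.nx e) = L a * (L e)⁻¹ * (L a)⁻¹ := by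
  have hP := h.tr.ps_edge e
  have ha : a ∉ ({e, M.op e} : Finset D) := fun c => by
    rw [hP.loop a c (by simp)] at h2
    rw [hP.cut.vtx_self c] at h1
    exact M.op_ne e (h2.symm.trans h1)
  obtain ⟨M', L', q1, q2, q3, K', F', mv, eK, eF, ps, ⟨a1, a2, a3⟩, ⟨b1, b2, b3⟩, ⟨c1, c2, c3⟩,
    l1, -, -, l2, n3, -⟩ := h.x2_core hP (h.tr.noAnn_edge e hD) ha (by simp) h1 h2 (M.op_ne e).symm
  have o := mv.op
  have tr := mv.mark.tr
  have t : ∀ d, d ∈ M'.triK q3 ↔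
      d = q3 ∨ d = e ∨ d = M.op q2 ∨ d = M.op q3 ∨ d = M.op e ∨ d = q2 := fun d => by
    simp only [mem_triK, mem_tri, c1, c3, o, op_eq_iff (a := d), M.op2, or_assoc]
  have hK : M'.IsCut (M'.triK q3) := ⟨tr, fun d hd => by
    rw [mem_triK] at hd ⊢; rw [M'.op2]; exact hd.symm, ⟨q3, by simp [t]⟩⟩
  have oe : M.op e ∉ M'.tri q3 := o ▸ tr.op_notMem_tri (by simp [mem_tri, c3])
  have oq : q2 ∉ M'.tri q3 := by
    have := tr.op_notMem_tri (x := q3) (d := M.op q2) (by simp [mem_tri, c3, c1])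
    rwa [o, M.op2] at this
  have d1 := disjoint_left.1 (tri_disjoint oe).symm
  have d2 := disjoint_left.1 (tri_disjoint oq).symm
  have nK : ∀ d, d ∈ M'.tri (M.op e) → M.op d ∈ M'.tri q2 → d ≠ M.op e → M.op d ≠ q2 →
      d ∉ M'.triK q3 := fun d g1 g2 g3 g4 c => by
    rcases mem_triK.1 c with k | k
    exacts [d1 g1 k, d2 g2 (o ▸ k)]
  have k1 : a ∉ M'.triK q3 := nK a (by simp [mem_tri, a2, a3]) (by simp [mem_tri, b3, b1])
    (a1 ▸ (M'.nx_ne a).symm) (b2 ▸ (M'.nx_ne _).symm)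
  have k2 : q1 ∉ M'.triK q3 := nK q1 (by simp [mem_tri, a2]) (by simp [mem_tri, b3])
    (by rw [← a2]; exact M'.nx_ne _) (by rw [← b3]; exact M'.nx_ne _)
  refine ⟨M', L', q3, mv, ⟨hK, ⟨fun d hd => nx_mem_tri.2 hd,
    fun d hd c => absurd (mem_triK.2 (.inl hd)) c⟩, fun w hw wF => ?_⟩, c3, ⟨?_, ?_⟩,
    l1 e (by simp), by rw [c1, l2, h.lab.1]⟩
  · have : w = M.op q3 ∨ w = M.op e ∨ w = q2 := by
      rw [t] at hw
      simp only [mem_tri, c1, c3, not_or] at wF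
      grind
    rcases this with rfl | rfl | rfl
    · have sub : M'.triK q3 ⊆ K' := fun d hd => by
        rw [t] at hd
        simp only [eK, mem_insert, mem_singleton]
        grind
      rw [ps.cut.vtx_mono hK sub, ps.loop _ (by simp [eK]) n3, hK.vtx_self hw]
    · have e1 := hK.vtx_op _ (hK.op_notMem k2)
      have e2 := hK.vtx_op _ k1
      rw [M'.op2, o, b1] at e1
      rw [o, a1] at e2
      rw [a2, e1, e2, hK.vtx_self hw]
    · have e1 := hK.vtx_op _ k2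
      have e2 := hK.vtx_op _ (hK.op_notMem k1)
      rw [o, a3] at e1
      rw [M'.op2, o, b2] at e2
      rw [b3, e1, e2, hK.vtx_self hw]
  · rw [c1, M.op2, b3, a2, o, M.op2]
  · rw [c1, M.op2, b3, b1, a2, a3, o, M.op2]

end DartMap

end Pool.Agent.Lib.MP_a25f44_gt
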