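import Pool.Agent.Lib.MP_a25f44_gt.H49Start
import Pool.Agent.Lib.MP_a25f44_gt.H43Real

/-!
# From success to the final statement (helper49)
-/

open scoped MatrixGroups
open Pool.Agent.Lib.MP_a25f44_gt Finset

namespace A25f44

theorem cone_of_succ {D Γ : Type} [Group Γ] [Fintype D] {ρ : Γ →* PSL(2, ℝ)} (h : Succ D ρ) :
    IsConeHolonomy ρ := by
  obtain ⟨M, L, x, hM, hx, hp⟩ := h
  obtain ⟨z, rfl⟩ := hx.exists_vec
  have : Nonempty D := Fintype.card_pos_iff.1 (by have := hM.card; omega)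
  refine realise_one M L ρ z hM.mark.lab hM.mark.tr hM.mark.gen hM.mark.univ
    ((isPos_iff ρ _).2 ⟨fun _ => rfl, hp⟩) ?_
  have e1 := sum_faceAng ρ hM.mark.lab (fun _ => hx.cone) hp
  rw [sum_faceAr_indep ρ hM.mark.lab (p := fun _ => oV) (fun _ => hyp_oV.cone) (fun _ => hx.cone)
    (fun _ => rfl) (fun _ => rfl), hM.area] at e1
  simp only [corner_eq]
  linarith

/-- the final statement follows from the descent -/
theorem result_of_succ (g : ℕ) (hg : 2 ≤ g)
    (main : ∀ (ρ : SurfGroup g →* PSL(2, ℝ)) (M : DartMap (Fin (12 * g - 6)))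
      (L : Fin (12 * g - 6) → SurfGroup g), Adm ρ M L → Succ (Fin (12 * g - 6)) ρ)
    (ρ : SurfGroup g →* PSL(2, ℝ)) (n : ℤ) (hn : |n| = 2 * g - 3) (h : HasEulerNumber ρ n) :
    IsConeHolonomy ρ := by
  have k : ∀ ρ : SurfGroup g →* PSL(2, ℝ), HasEulerNumber ρ (2 * g - 3) → IsConeHolonomy ρ :=
    fun ρ h => cone_of_succ (main ρ _ _ (adm_Tg hg ρ h))
  rcases (abs_eq (by omega)).1 hn with rfl | rfl
  · exact k ρ h
  · exact one_sign g _ k ρ h

end A25f44
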