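import Pool.Agent.Lib.MP_a25f44_gt.H71Defs
import Pool.Agent.Lib.MP_a25f44_gt.H48Base

/-!
# Parity of the face signs (helper49)

In a one-vertex triangulation with `n` darts there are `n / 2 - 3` darts in pants faces; the other
faces are of torus type.  If all labels are non elliptic and the defect is `4 π`, some pants face
has sign `+1` or some torus face has sign `-1`.
-/

open scoped MatrixGroups ComplexConjugate
open Pool.Agent.Lib.MP_a25f44_gt Finset

namespace A25f44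

lemma cl_coe' (g : PSL(2, ℝ)) : (cl g : PSL(2, ℝ)) = g := by
  unfold cl
  split_ifs
  · exact Quotient.out_eq g
  · rw [← Quotient.out_eq g]
    refine (mk_eq_iff _ _).2 (Or.inr ?_)
    rw [Quotient.out_eq]

lemma cl_tr' (g : PSL(2, ℝ)) : 0 ≤ tr (cl g) := by
  unfold cl
  split_ifs with h
  · exact h
  · rw [tr_neg]; linarith

lemma cl_eq' {g : PSL(2, ℝ)} {A : SL(2, ℝ)} (h : (A : PSL(2, ℝ)) = g) (ht : 0 < tr A) :
    cl g = A := by
  rcases (mk_eq_iff _ _).1 ((cl_coe' g).trans h.symm) with e | e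
  · exact e
  · have := cl_tr' g
    rw [e, tr_neg] at this
    linarith

variable {D : Type} [Fintype D] {M : DartMap D}

/-- positions of the darts around the vertex -/
structure IsPosn (M : DartMap D) (p : D → ℕ) : Prop where
  lt : ∀ d, p d < Fintype.card D
  inj : Function.Injective p
  step : ∀ d, p (M.op d) = p (M.nx d) + 1 ∨ p (M.nx d) + 1 = Fintype.card D ∧ p (M.op d) = 0
  zero : ∃ d, p d = 0

lemma exists_posn (h : M.Tr) (d0 : D) : ∃ p, IsPosn M p := by
  have hc : M.sg.IsCycleOn (univ : Finset D) :=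
    ⟨by simp, fun x _ y _ => h x y⟩
  choose p hp1 hp2 using fun d => hc.exists_pow_eq (mem_univ d0) (mem_univ d)
  rw [card_univ] at hp1
  refine ⟨p, hp1, fun a b e => by rw [← hp2 a, e, hp2], fun d => ?_, d0, ?_⟩
  · have : (M.sg ^ p (M.op d)) d0 = (M.sg ^ (p (M.nx d) + 1)) d0 := by
      rw [pow_succ', Equiv.Perm.mul_apply, hp2, hp2, DartMap.sg_nx]
    rw [hc.pow_apply_eq_pow_apply (mem_univ d0), card_univ] at this
    rcases (Nat.succ_le_of_lt (hp1 (M.nx d))).lt_or_eq with k | k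
    · exact Or.inl (this.eq_of_lt_of_lt (hp1 _) k)
    · refine Or.inr ⟨k, ?_⟩
      rw [show p (M.nx d) + 1 = Fintype.card D from k] at this
      exact (this.trans (Nat.modEq_zero_iff_dvd.2 dvd_rfl)).eq_of_lt_of_lt (hp1 _)
        (Nat.zero_lt_of_lt (hp1 d))
  · have : (M.sg ^ p d0) d0 = (M.sg ^ 0) d0 := by rw [hp2]; rfl
    rw [hc.pow_apply_eq_pow_apply (mem_univ d0), card_univ] at this
    exact this.eq_of_lt_of_lt (hp1 _) (Nat.zero_lt_of_lt (hp1 d0))

/-- `b` lies in the cyclic interval `[a, c)` -/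
def Btw (a b c : ℕ) : Prop := a ≤ b ∧ b < c ∨ b < c ∧ c < a ∨ c < a ∧ a ≤ b

variable {p : D → ℕ}

lemma IsPosn.ne (hp : IsPosn M p) {a b : D} (h : a ≠ b) : p a ≠ p b := fun e => h (hp.inj e)

lemma IsPosn.btw (hp : IsPosn M p) {K : Finset D} (hK : M.IsCut K) {w w' : D} (hw : w ∈ K)
    (hw' : w' ∈ K) (d : D) : Btw (p w) (p d) (p w') ↔ Btw (p w) (p (M.vtx K d)) (p w') := by
  refine Iff.of_eq (hK.eq_vtx (f := fun d => Btw (p w) (p d) (p w')) (fun c hc => ?_) d)
  have h0 := hK.op_notMem hc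
  have h1 : p (M.op c) ≠ p w := hp.ne fun e => h0 (e ▸ hw)
  have h2 : p (M.op c) ≠ p w' := hp.ne fun e => h0 (e ▸ hw')
  have h3 := hp.step c
  have h4 := hp.lt w
  have h5 := hp.lt w'
  apply propext
  unfold Btw
  omega

/-- the number of descents of the face of `x` -/
def desc (M : DartMap D) (p : D → ℕ) (d : D) : ℤ := if p (M.nx d) < p d then 1 else 0

lemma IsPosn.sum_desc (hp : IsPosn M p) : 2 * ∑ d, desc M p d = Fintype.card D - 2 := by
  classical
  obtain ⟨d0, h0⟩ := hp.zero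
  have e : ∀ d, desc M p d =
      (if p (M.op d) < p d then 1 else 0) - if d = M.op d0 then 1 else 0 := by
    intro d
    have h1 := hp.step d
    have h2 := hp.ne (M.op_ne d)
    have h3 := hp.lt d
    have h4 : d = M.op d0 ↔ p (M.op d) = 0 :=
      ⟨fun e => by rw [e, M.op2, h0], fun e => by rw [← hp.inj (e.trans h0.symm), M.op2]⟩
    unfold desc
    simp only [h4]
    split_ifs <;> omega
  have e2 : ∑ d, (if p (M.op d) < p d then (1 : ℤ) else 0) =
      ∑ d, (if p d < p (M.op d) then (1 : ℤ) else 0) := by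
    rw [← Equiv.sum_comp M.op]; simp only [M.op2]
  have e3 : ∑ d, ((if p (M.op d) < p d then (1 : ℤ) else 0) +
      (if p d < p (M.op d) then (1 : ℤ) else 0)) = ∑ _d : D, (1 : ℤ) := by
    refine sum_congr rfl fun d _ => ?_
    have h2 := hp.ne (M.op_ne d)
    split_ifs <;> omega
  rw [sum_add_distrib, ← e2] at e3
  simp only [e, sum_sub_distrib, sum_ite_eq', mem_univ, if_true]
  simp only [sum_const, card_univ, nsmul_eq_mul, mul_one] at e3
  omega

variable [DecidableEq D]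

omit [Fintype D] in
lemma isCut_triK (h : M.Tr) (x : D) : M.IsCut (M.triK x) :=
  ⟨h, fun d hd => by rw [DartMap.mem_triK] at hd ⊢; rw [M.op2]; exact hd.symm,
    ⟨x, by simp [DartMap.triK, DartMap.tri]⟩⟩

lemma IsPosn.loop (hp : IsPosn M p) (h : M.Tr) {x : D}
    (hx : Btw (p x) (p (M.nx (M.nx x))) (p (M.nx x))) :
    M.vtx (M.triK x) (M.nx (M.op x)) = M.op x := by
  have hK := isCut_triK h x
  have s0 := hp.step x
  have s1 := hp.step (M.nx x)
  have s2 := hp.step (M.nx (M.nx x))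
  have s3 := hp.step (M.op x)
  rw [M.nx3] at s2
  rw [M.op2] at s3
  have n0 := hp.ne (M.op_ne x)
  have n1 := hp.ne (M.nx2_ne x)
  have n2 := hp.ne (h.op_ne_nx2 (M.nx x))
  have n3 := hp.ne (M.op_ne (M.nx (M.nx x)))
  have n4 := hp.ne (M.op_ne (M.nx x))
  rw [M.nx3] at n2
  have l0 := hp.lt x
  have l1 := hp.lt (M.nx x)
  have l2 := hp.lt (M.nx (M.nx x))
  have l3 := hp.lt (M.op x)
  have hb := (hp.btw hK (w := M.op x) (w' := x) (by simp [DartMap.mem_triK, DartMap.mem_tri, M.op2])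
    (by simp [DartMap.mem_triK, DartMap.mem_tri]) (M.nx (M.op x))).1 (by unfold Btw; omega)
  have hm := hK.vtx_mem (M.nx (M.op x))
  generalize M.vtx (M.triK x) (M.nx (M.op x)) = v at hb hm
  simp only [DartMap.mem_triK, DartMap.mem_tri, DartMap.op_eq_iff (a := v)] at hm
  unfold Btw at hb hx
  rcases hm with (rfl | rfl | rfl) | rfl | rfl | rfl
  all_goals first | rfl | omega

lemma IsPosn.pants (hp : IsPosn M p) (h : M.Tr) {x : D}
    (hx : Btw (p x) (p (M.nx (M.nx x))) (p (M.nx x))) : M.Pants x := by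
  have n0 := hp.ne (M.nx_ne x)
  have n1 := hp.ne (M.nx2_ne x)
  have n2 := hp.ne (M.nx2_ne_nx x)
  refine ⟨isCut_triK h x, ⟨fun d hd => DartMap.nx_mem_tri.2 hd, fun d hd k =>
    absurd (DartMap.mem_triK.2 (Or.inl hd)) k⟩, fun w hw hF => ?_⟩
  have hw' := (DartMap.mem_triK.1 hw).resolve_left hF
  have e : M.triK (M.op w) = M.triK x := by
    unfold DartMap.triK; rw [DartMap.tri_eq_of_mem hw']
  have := hp.loop h (x := M.op w) (by
    rcases DartMap.mem_tri.1 hw' with e | e | e <;> rw [e] <;> (try simp only [M.nx3]) <;>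
      unfold Btw at hx ⊢ <;> omega)
  rwa [e, M.op2] at this

lemma IsPosn.itl (hp : IsPosn M p) (h : M.Tr) {x : D}
    (hx : ¬Btw (p x) (p (M.nx (M.nx x))) (p (M.nx x))) : Itl M x (M.nx x) := by
  have hK := h.isCut_edge x
  refine ⟨(h.ps_edge x).loop x (by simp) (by simp), ?_⟩
  have s0 := hp.step x
  have n0 := hp.ne (M.op_ne x)
  have n1 := hp.ne (M.nx2_ne x)
  have n2 := hp.ne (M.nx2_ne_nx x)
  have n3 := hp.ne (M.nx_ne x)
  have l0 := hp.lt x
  have l2 := hp.lt (M.nx (M.nx x))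
  have hb := (hp.btw hK (w := M.op x) (w' := x) (by simp) (by simp) (M.nx (M.nx x))).1
    (by unfold Btw at hx ⊢; omega)
  have hm := hK.vtx_mem (M.nx (M.nx x))
  generalize M.vtx {x, M.op x} (M.nx (M.nx x)) = v at hb hm
  simp only [mem_insert, mem_singleton] at hm
  unfold Btw at hb
  rcases hm with rfl | rfl
  all_goals first | rfl | omega

variable {Γ : Type} [Group Γ] {ρ : Γ →* PSL(2, ℝ)} {L : D → Γ}

omit [Fintype D] [DecidableEq D] in
lemma lf_op' (hL : M.IsLab L) {d : D} (h : 0 < tr (lf ρ L d)) :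
    lf ρ L (M.op d) = (lf ρ L d)⁻¹ :=
  cl_eq' (by rw [QuotientGroup.mk_inv, lf, cl_coe', hL.1, map_inv]) (by rwa [tr_inv])

omit [Fintype D] [DecidableEq D] in
lemma lf_face' (hL : M.IsLab L) (d : D) :
    lf ρ L d * lf ρ L (M.nx d) * lf ρ L (M.nx (M.nx d)) = 1 ∨
      lf ρ L d * lf ρ L (M.nx d) * lf ρ L (M.nx (M.nx d)) = -1 := by
  rw [← mk_eq_iff, QuotientGroup.mk_mul, QuotientGroup.mk_mul, lf, lf, lf, cl_coe', cl_coe', cl_coe',
    ← map_mul, ← map_mul, hL.2, map_one]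
  rfl

open Complex in
lemma area_sign {a b c : SL(2, ℝ)} (h : a * b * c = 1 ∨ a * b * c = -1) : ∃ k : ℤ,
    Ar oV (a • oV) ((a * b) • oV) / 2 = arg (al a oV) + arg (al b oV) + arg (al c oV) +
      Real.pi * (2 * k + (if a * b * c = 1 then (0 : ℤ) else 1 : ℤ)) := by
  have ha := al_ne_zero a hyp_oV.tim
  have hb := al_ne_zero b hyp_oV.tim
  have hc := al_ne_zero c hyp_oV.tim
  rw [Ar_loop a b hyp_oV.cone, mul_div_cancel_left₀ _ two_ne_zero]
  by_cases h1 : a * b * c = 1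
  · rw [if_pos h1, eq_inv_of_mul_eq_one_left h1, al_inv, conj_conj]
    have : (arg (al a oV * al b oV * al c oV) : Real.Angle) =
        (arg (al a oV) + arg (al b oV) + arg (al c oV) : ℝ) := by
      rw [arg_mul_coe_angle (mul_ne_zero ha hb) hc, arg_mul_coe_angle ha hb]; simp
    obtain ⟨k, hk⟩ := Real.Angle.angle_eq_iff_two_pi_dvd_sub.1 this
    exact ⟨k, by push_cast; linarith⟩
  · have h2 : a * b = -c⁻¹ := by
      rw [← mul_inv_cancel_right (a * b) c, h.resolve_left h1, neg_mul, one_mul]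
    rw [if_neg h1, h2, al_neg, al_inv, map_neg, conj_conj]
    have : (arg (al a oV * al b oV * -al c oV) : Real.Angle) =
        (arg (al a oV) + arg (al b oV) + arg (al c oV) + Real.pi : ℝ) := by
      rw [arg_mul_coe_angle (mul_ne_zero ha hb) (neg_ne_zero.2 hc), arg_mul_coe_angle ha hb,
        arg_neg_coe_angle hc]
      simp [add_assoc]
    obtain ⟨k, hk⟩ := Real.Angle.angle_eq_iff_two_pi_dvd_sub.1 this
    exact ⟨k, by push_cast; linarith⟩

/-- **Parity.** -/
theorem bad_or_itl (hM : Adm ρ M L) (hne : ∀ d, 0 < tr (lf ρ L d)) :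
    ∃ x, Bad ρ M L x ∨ Itl M x (M.nx x) ∧
      lf ρ L x * lf ρ L (M.nx x) * lf ρ L (M.nx (M.nx x)) = -1 := by
  by_contra hc
  have hL := hM.mark.lab
  have ht := hM.mark.tr
  obtain ⟨d0⟩ : Nonempty D := Fintype.card_pos_iff.1 (by have := hM.card; omega)
  obtain ⟨p, hp⟩ := exists_posn ht d0
  have e1 : ∀ d, (if lf ρ L d * lf ρ L (M.nx d) * lf ρ L (M.nx (M.nx d)) = 1 then (0 : ℤ) else 1) =
      desc M p d + desc M p (M.nx d) + desc M p (M.nx (M.nx d)) - 1 := by
    intro d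
    have n0 := hp.ne (M.nx_ne d)
    have n1 := hp.ne (M.nx2_ne d)
    have n2 := hp.ne (M.nx2_ne_nx d)
    by_cases hb : Btw (p d) (p (M.nx (M.nx d))) (p (M.nx d))
    · rw [if_neg fun k => hc ⟨d, Or.inl ⟨hp.pants ht hb, k⟩⟩]
      simp only [desc, M.nx3]
      unfold Btw at hb
      split_ifs <;> omega
    · rw [if_pos ((lf_face' hL d).resolve_right fun k => hc ⟨d, Or.inr ⟨hp.itl ht hb, k⟩⟩)]
      simp only [desc, M.nx3]
      unfold Btw at hb
      split_ifs <;> omega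
  choose k hk using fun d => area_sign (lf_face' (ρ := ρ) hL d)
  have e2 : ∀ d, faceAr M L ρ (fun _ => oV) d =
      Ar oV (lf ρ L d • oV) ((lf ρ L d * lf ρ L (M.nx d)) • oV) := fun d => by
    rw [← mk_smul, ← mk_smul, QuotientGroup.mk_mul, lf, lf, cl_coe', cl_coe', ← map_mul, faceAr]
  have e3 : ∑ d, Complex.arg (al (lf ρ L d) oV) = 0 := sum_op_antisymm (M := M) fun d => by
    rw [lf_op' hL (hne d), al_inv, arg_conj_of_re_nonneg]
    rw [al_re]
    exact mul_nonneg (by linarith [hne d]) (nrm_nonneg _)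
  have e4 := sum_congr (rfl : (univ : Finset D) = _) fun d _ => hk d
  simp only [← e2, e1] at e4
  rw [← sum_div, hM.area, sum_add_distrib, sum_add_distrib, sum_add_distrib,
    sum_nx (M := M) (fun d => Complex.arg (al (lf ρ L (M.nx d)) oV)),
    sum_nx (M := M) (fun d => Complex.arg (al (lf ρ L d) oV)), e3, ← mul_sum] at e4
  have e5 : ((Fintype.card D : ℝ) - 12) = 2 * ∑ d, (2 * (k d : ℝ) +
      ((desc M p d + desc M p (M.nx d) + desc M p (M.nx (M.nx d)) - 1 : ℤ) : ℝ)) := by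
    apply mul_left_cancel₀ Real.pi_ne_zero
    linarith
  have e6 : ((Fintype.card D : ℤ) - 12) = 2 * ∑ d, (2 * k d +
      (desc M p d + desc M p (M.nx d) + desc M p (M.nx (M.nx d)) - 1)) := by exact_mod_cast e5
  have e7 := hp.sum_desc
  have e8 : ∑ d, desc M p (M.nx d) = ∑ d, desc M p d := Equiv.sum_comp M.nx _
  have e9 : ∑ d, desc M p (M.nx (M.nx d)) = ∑ d, desc M p (M.nx d) :=
    Equiv.sum_comp M.nx fun d => desc M p (M.nx d)
  simp only [sum_add_distrib, sum_sub_distrib, ← mul_sum, sum_const, card_univ, nsmul_eq_mul,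
    mul_one, e8, e9] at e6
  omega

/-- Fricke -/
lemma tr_comm' (a b : SL(2, ℝ)) : tr (a * b * a⁻¹ * b⁻¹) =
    tr a ^ 2 + tr b ^ 2 + tr (a * b) ^ 2 - tr a * tr b * tr (a * b) - 2 := by
  have da := det_eq a
  have db := det_eq b
  simp only [tr, mul00, mul01, mul10, mul11, inv00, inv01, inv10, inv11]
  linear_combination ((b 0 0 + b 1 1) ^ 2 - 2 * (b 0 0 * b 1 1 - b 0 1 * b 1 0)) * da +
    ((a 0 0 + a 1 1) ^ 2 - 2) * db

/-- a torus face with sign `-1` has a hyperbolic commutator -/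
lemma two_le_tr_comm {a b c : SL(2, ℝ)} (ha : 0 < tr a) (hb : 0 < tr b) (hc : 2 ≤ tr c)
    (h : a * b * c = -1) : 2 < tr (a * b * a⁻¹ * b⁻¹) := by
  have h2 : a * b = -c⁻¹ := by rw [← mul_inv_cancel_right (a * b) c, h, neg_mul, one_mul]
  have h3 : tr (a * b) = -tr c := by rw [h2, tr_neg, tr_inv]
  have key := tr_comm' a b
  rw [key, h3]
  nlinarith [mul_pos (mul_pos ha hb) (show 0 < tr c by linarith)]

end A25f44
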