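import Pool.Agent.Lib.MP_a25f44_gt.H33Sum
import Pool.Agent.Lib.MP_a25f44_gt.H48Defs

/-!
# The fan triangulation of the `4g`-gon as a marked one-vertex map (helper49)

Dart `3 k + j` is side `j` of the face with corners `0, k + 1, k + 2` of the polygon.
-/

open scoped MatrixGroups
open Pool.Agent.Lib.MP_a25f44_gt

namespace A25f44

/-- next dart in a face -/
def nxN (d : ℕ) : ℕ := if d % 3 = 2 then d - 2 else d + 1

/-- opposite dart -/
def opN (g d : ℕ) : ℕ :=
  if d % 3 = 0 then (if d = 0 then 4 else d - 1)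
  else if d % 3 = 2 then (if d = 12 * g - 7 then 12 * g - 11 else d + 1)
  else if d = 4 then 0 else if d = 12 * g - 11 then 12 * g - 7
  else if (d / 3 + 1) % 4 < 2 then d + 6 else d - 6

lemma nxN_lt {g d : ℕ} (h : d < 12 * g - 6) : nxN d < 12 * g - 6 := by
  unfold nxN; split_ifs <;> omega

lemma opN_lt {g d : ℕ} (h : d < 12 * g - 6) : opN g d < 12 * g - 6 := by
  unfold opN; split_ifs <;> omega

lemma nxN3 (d : ℕ) : nxN (nxN (nxN d)) = d := by
  unfold nxN; split_ifs <;> omega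

lemma opN2 {g d : ℕ} (h : d < 12 * g - 6) : opN g (opN g d) = d := by
  obtain ⟨e, he⟩ : ∃ e, e = opN g d := ⟨_, rfl⟩
  rw [← he]
  unfold opN at he ⊢
  split_ifs at he <;> split_ifs <;> omega

/-- the map -/
def Tg (g : ℕ) : DartMap (Fin (12 * g - 6)) where
  nx := ⟨fun d => ⟨nxN d, nxN_lt d.2⟩, fun d => ⟨nxN (nxN d), nxN_lt (nxN_lt d.2)⟩,
    fun d => Fin.ext (nxN3 d), fun d => Fin.ext (nxN3 d)⟩
  op := ⟨fun d => ⟨opN g d, opN_lt d.2⟩, fun d => ⟨opN g d, opN_lt d.2⟩,
    fun d => Fin.ext (opN2 d.2), fun d => Fin.ext (opN2 d.2)⟩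
  nx3 d := Fin.ext (nxN3 d)
  op2 d := Fin.ext (opN2 d.2)
  nx_ne d h := by
    have : nxN d = d := congrArg Fin.val h
    unfold nxN at this; split_ifs at this <;> omega
  op_ne d h := by
    have : opN g d = d := congrArg Fin.val h
    have := d.2
    unfold opN at *; split_ifs at * <;> omega

lemma Tg_nx (g : ℕ) (d : Fin (12 * g - 6)) : ((Tg g).nx d : ℕ) = nxN d := rfl
lemma Tg_op (g : ℕ) (d : Fin (12 * g - 6)) : ((Tg g).op d : ℕ) = opN g d := rfl
lemma Tg_sg (g : ℕ) (d : Fin (12 * g - 6)) : ((Tg g).sg d : ℕ) = opN g (nxN (nxN d)) := rfl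

/-- rank of a corner of the polygon in the walk around the vertex -/
def rk (t : ℕ) : ℕ := if t % 4 = 1 then t + 2 else if t % 4 = 3 then t - 2 else t

/-- potential decreasing along the walk around the vertex -/
def potN (g d : ℕ) : ℕ :=
  if d % 3 = 0 then (if d = 0 then 0 else 100 * g - d)
  else if d % 3 = 1 then 2 * rk (d / 3 + 1) + 1 else 2 * rk (d / 3 + 2)

lemma potN0 (g k : ℕ) : potN g (3 * k) = if k = 0 then 0 else 100 * g - 3 * k := by
  unfold potN; split_ifs <;> omega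
lemma potN1 (g k : ℕ) : potN g (3 * k + 1) = 2 * rk (k + 1) + 1 := by
  unfold potN; rw [if_neg (by omega), if_pos (by omega), show (3 * k + 1) / 3 = k by omega]
lemma potN2 (g k : ℕ) : potN g (3 * k + 2) = 2 * rk (k + 2) := by
  unfold potN; rw [if_neg (by omega), if_neg (by omega), show (3 * k + 2) / 3 = k by omega]
lemma nxN0 (k : ℕ) : nxN (3 * k) = 3 * k + 1 := by unfold nxN; split_ifs <;> omega
lemma nxN1 (k : ℕ) : nxN (3 * k + 1) = 3 * k + 2 := by unfold nxN; split_ifs <;> omega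
lemma nxN2 (k : ℕ) : nxN (3 * k + 2) = 3 * k := by unfold nxN; split_ifs <;> omega

lemma potN_lt {g d : ℕ} (h : d < 12 * g - 6) (h0 : d ≠ 0) :
    potN g (opN g (nxN (nxN d))) < potN g d := by
  obtain ⟨k, rfl | rfl | rfl⟩ : ∃ k, d = 3 * k ∨ d = 3 * k + 1 ∨ d = 3 * k + 2 :=
    ⟨d / 3, by omega⟩
  · rw [nxN0, nxN1, potN0, if_neg (by omega), opN, if_neg (by omega), if_pos (by omega)]
    split_ifs with h1
    · rw [show 12 * g - 11 = 3 * (4 * g - 4) + 1 by omega, potN1, rk]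
      split_ifs <;> omega
    · rw [show 3 * k + 2 + 1 = 3 * (k + 1) by omega, potN0]
      split_ifs <;> omega
  · rw [nxN1, nxN2, potN1, opN, if_pos (by omega)]
    split_ifs with h1
    · rw [show 4 = 3 * 1 + 1 from rfl, potN1, show k = 0 by omega]
      simp [rk]
    · rw [show 3 * k - 1 = 3 * (k - 1) + 2 by omega, potN2, show k - 1 + 2 = k + 1 by omega]
      omega
  · rw [nxN2, nxN0, potN2, opN, if_neg (by omega), if_neg (by omega)]
    split_ifs with h1 h2 h3
    · rw [show k = 1 by omega]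
      simp [rk, potN]
    · rw [show 12 * g - 7 = 3 * (4 * g - 3) + 2 by omega, potN2, rk, rk]
      split_ifs <;> omega
    · rw [show 3 * k + 1 + 6 = 3 * (k + 2) + 1 by omega, potN1, rk, rk]
      split_ifs <;> omega
    · rw [show 3 * k + 1 - 6 = 3 * (k - 2) + 1 by omega, potN1, rk, rk]
      split_ifs <;> omega

lemma Tg_tr {g : ℕ} (hg : 1 ≤ g) : (Tg g).Tr := by
  have h0 : 0 < 12 * g - 6 := by omega
  have key : ∀ n, ∀ d : Fin (12 * g - 6), potN g d = n → (Tg g).sg.SameCycle d ⟨0, h0⟩ := by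
    intro n
    induction n using Nat.strong_induction_on with
    | _ n ih =>
      intro d hd
      by_cases h : (d : ℕ) = 0
      · rw [show d = ⟨0, h0⟩ from Fin.ext h]
      · have := ih _ (hd ▸ potN_lt d.2 h) ((Tg g).sg d) rfl
        exact Equiv.Perm.sameCycle_apply_left.1 this
  exact fun d d' => (key _ d rfl).trans (key _ d' rfl).symm

section lab
variable {G : Type} [Group G] (a b : ℕ → G)

/-- letters of the relator -/
def xl (t : ℕ) : G :=
  if t % 4 = 0 then a (t / 4) else if t % 4 = 1 then b (t / 4)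
  else if t % 4 = 2 then (a (t / 4))⁻¹ else (b (t / 4))⁻¹

/-- prefixes of the relator -/
def Pl : ℕ → G
  | 0 => 1
  | t + 1 => Pl t * xl a b t

lemma xl_add_two {t : ℕ} (h : t % 4 < 2) : xl a b (t + 2) = (xl a b t)⁻¹ := by
  have e : (t + 2) / 4 = t / 4 := by omega
  unfold xl
  rw [e]
  split_ifs <;> first | rfl | omega

lemma Pl_four (i : ℕ) : Pl a b (4 * i) =
    ((List.range i).map fun j => a j * b j * (a j)⁻¹ * (b j)⁻¹).prod := by
  induction i with
  | zero => rfl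
  | succ i ih =>
    rw [List.range_succ, List.map_append, List.prod_append, ← ih,
      show 4 * (i + 1) = 4 * i + 1 + 1 + 1 + 1 by ring]
    have e0 : xl a b (4 * i) = a i := by
      unfold xl; rw [if_pos (by omega), show 4 * i / 4 = i by omega]
    have e1 : xl a b (4 * i + 1) = b i := by
      unfold xl; rw [if_neg (by omega), if_pos (by omega), show (4 * i + 1) / 4 = i by omega]
    have e2 : xl a b (4 * i + 1 + 1) = (a i)⁻¹ := by rw [← e0, ← xl_add_two a b (by omega)]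
    have e3 : xl a b (4 * i + 1 + 1 + 1) = (b i)⁻¹ := by rw [← e1, ← xl_add_two a b (by omega)]
    simp only [Pl, e0, e1, e2, e3, List.map_cons, List.map_nil, List.prod_cons, List.prod_nil,
      mul_one, mul_assoc]

/-- labels of the darts -/
def labN (g d : ℕ) : G :=
  if d % 3 = 0 then Pl a b (d / 3 + 1) else if d % 3 = 1 then xl a b (d / 3 + 1)
  else if d = 12 * g - 7 then xl a b (4 * g - 1) else (Pl a b (d / 3 + 2))⁻¹

lemma labN0 (g k : ℕ) : labN a b g (3 * k) = Pl a b (k + 1) := by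
  unfold labN; rw [if_pos (by omega), show 3 * k / 3 = k by omega]
lemma labN1 (g k : ℕ) : labN a b g (3 * k + 1) = xl a b (k + 1) := by
  unfold labN; rw [if_neg (by omega), if_pos (by omega), show (3 * k + 1) / 3 = k by omega]
lemma labN2 {g k : ℕ} (h : k + 3 ≠ 4 * g) (hg : 1 ≤ g) :
    labN a b g (3 * k + 2) = (Pl a b (k + 2))⁻¹ := by
  unfold labN
  rw [if_neg (by omega), if_neg (by omega), if_neg (by omega), show (3 * k + 2) / 3 = k by omega]
lemma labN3 {g k : ℕ} (h : k + 3 = 4 * g) : labN a b g (3 * k + 2) = xl a b (k + 2) := by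
  unfold labN
  rw [if_neg (by omega), if_neg (by omega), if_pos (by omega), show 4 * g - 1 = k + 2 by omega]

lemma labN_op {g d : ℕ} (h : d < 12 * g - 6) : labN a b g (opN g d) = (labN a b g d)⁻¹ := by
  have hg : 1 ≤ g := by omega
  have h04 : labN a b g 4 = (labN a b g 0)⁻¹ := by
    rw [show 4 = 3 * 1 + 1 from rfl, labN1, show 0 = 3 * 0 from rfl, labN0,
      show 1 + 1 = 0 + 2 from rfl, xl_add_two a b (by omega)]
    simp [Pl]
  have hl : labN a b g (12 * g - 7) = (labN a b g (12 * g - 11))⁻¹ := by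
    rw [show 12 * g - 7 = 3 * (4 * g - 3) + 2 by omega, labN3 a b (by omega),
      show 12 * g - 11 = 3 * (4 * g - 4) + 1 by omega, labN1,
      show 4 * g - 4 + 1 = 4 * g - 3 by omega, xl_add_two a b (by omega)]
  unfold opN
  split_ifs with h1 h2 h3 h4 h5 h6 h7
  · rw [h2, h04]
  · obtain ⟨k, rfl⟩ : ∃ k, d = 3 * (k + 1) := ⟨d / 3 - 1, by omega⟩
    rw [show 3 * (k + 1) - 1 = 3 * k + 2 by omega, labN2 a b (by omega) hg, labN0]
  · rw [h4, hl, inv_inv]
  · obtain ⟨k, rfl⟩ : ∃ k, d = 3 * k + 2 := ⟨d / 3, by omega⟩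
    rw [show 3 * k + 2 + 1 = 3 * (k + 1) by omega, labN2 a b (by omega) hg, labN0, inv_inv]
  · rw [h5, h04, inv_inv]
  · rw [h6, hl]
  · obtain ⟨k, rfl⟩ : ∃ k, d = 3 * k + 1 := ⟨d / 3, by omega⟩
    rw [show 3 * k + 1 + 6 = 3 * (k + 2) + 1 by omega, labN1, labN1,
      show k + 2 + 1 = k + 1 + 2 by omega, xl_add_two a b (by omega)]
  · obtain ⟨k, rfl⟩ : ∃ k, d = 3 * (k + 2) + 1 := ⟨d / 3 - 2, by omega⟩
    rw [show 3 * (k + 2) + 1 - 6 = 3 * k + 1 by omega, labN1, labN1,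
      show k + 2 + 1 = k + 1 + 2 by omega, xl_add_two a b (by omega), inv_inv]

lemma labN_face {g k : ℕ} (hg : 1 ≤ g) :
    labN a b g (3 * k) * labN a b g (3 * k + 1) * labN a b g (3 * k + 2) =
      if k + 3 = 4 * g then Pl a b (4 * g) else 1 := by
  rw [labN0, labN1]
  split_ifs with h
  · rw [labN3 a b h, ← h]; rfl
  · rw [labN2 a b h hg]; exact mul_inv_cancel _

lemma labN_word {g : ℕ} (hg : 1 ≤ g) (d : ℕ) : ∃ u : G,
    labN a b g d * labN a b g (nxN d) * labN a b g (nxN (nxN d)) =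
      u * (if d / 3 + 3 = 4 * g then Pl a b (4 * g) else 1) * u⁻¹ := by
  rw [← labN_face a b hg]
  obtain ⟨k, rfl | rfl | rfl⟩ : ∃ k, d = 3 * k ∨ d = 3 * k + 1 ∨ d = 3 * k + 2 :=
    ⟨d / 3, by omega⟩
  · refine ⟨1, ?_⟩
    rw [nxN0, nxN1, show 3 * k / 3 = k by omega]
    group
  · refine ⟨(labN a b g (3 * k))⁻¹, ?_⟩
    rw [nxN1, nxN2, show (3 * k + 1) / 3 = k by omega]
    group
  · refine ⟨labN a b g (3 * k + 2), ?_⟩
    rw [nxN2, nxN0, show (3 * k + 2) / 3 = k by omega]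
    group

variable {H : Type} [Group H] (φ : G →* H)

lemma map_xl (t : ℕ) : φ (xl a b t) = xl (φ ∘ a) (φ ∘ b) t := by
  unfold xl; split_ifs <;> simp

lemma map_Pl (t : ℕ) : φ (Pl a b t) = Pl (φ ∘ a) (φ ∘ b) t := by
  induction t with
  | zero => exact map_one φ
  | succ t ih => simp only [Pl, map_mul, ih, map_xl]

lemma map_labN (g d : ℕ) : φ (labN a b g d) = labN (φ ∘ a) (φ ∘ b) g d := by
  unfold labN; split_ifs <;> simp only [map_inv, map_xl, map_Pl]

end lab

/-- the generators, indexed by `ℕ` -/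
def gen (g : ℕ) (s : Bool) (i : ℕ) : FreeGroup (Fin g × Bool) :=
  if h : i < g then FreeGroup.of (⟨i, h⟩, s) else 1

lemma Pl_gen (g : ℕ) : Pl (gen g false) (gen g true) (4 * g) = relator g := by
  rw [Pl_four, relator, ← List.map_coe_finRange_eq_range, List.map_map]
  congr 1
  refine List.map_congr_left fun i _ => ?_
  simp [gen]

/-- free labels -/
def NT (g : ℕ) (d : Fin (12 * g - 6)) : FreeGroup (Fin g × Bool) :=
  labN (gen g false) (gen g true) g d

/-- labels -/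
def LT (g : ℕ) (d : Fin (12 * g - 6)) : SurfGroup g := PresentedGroup.mk _ (NT g d)

lemma NT_op (g : ℕ) (d : Fin (12 * g - 6)) : NT g ((Tg g).op d) = (NT g d)⁻¹ :=
  labN_op _ _ d.2

lemma NT_word {g : ℕ} (hg : 1 ≤ g) (d : Fin (12 * g - 6)) : ∃ u,
    NT g d * NT g ((Tg g).nx d) * NT g ((Tg g).nx ((Tg g).nx d)) =
      u * (if (d : ℕ) / 3 + 3 = 4 * g then relator g else 1) * u⁻¹ := by
  rw [← Pl_gen]
  exact labN_word _ _ hg d

lemma mk_relator (g : ℕ) : PresentedGroup.mk {relator g} (relator g) = 1 :=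
  PresentedGroup.one_of_mem (Set.mem_singleton _)

lemma LT_lab {g : ℕ} (hg : 1 ≤ g) : (Tg g).IsLab (LT g) := by
  refine ⟨fun d => by rw [LT, NT_op, map_inv, LT], fun d => ?_⟩
  obtain ⟨u, hu⟩ := NT_word hg d
  rw [LT, LT, LT, ← map_mul, ← map_mul, hu]
  split_ifs <;> simp [mk_relator]

lemma LT_gen {g : ℕ} (hg : 1 ≤ g) : Subgroup.closure (Set.range (LT g)) = ⊤ := by
  rw [eq_top_iff, ← PresentedGroup.closure_range_of]
  refine Subgroup.closure_mono ?_
  rintro _ ⟨⟨i, s⟩, rfl⟩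
  have hi := i.2
  cases s
  · by_cases h : (i : ℕ) = 0
    · refine ⟨⟨3 * 0, by omega⟩, ?_⟩
      simp only [LT, NT, labN0, Pl, xl, gen]
      simp [show 0 < g by omega, show (⟨0, by omega⟩ : Fin g) = i from Fin.ext h.symm]
      rfl
    · refine ⟨⟨3 * (4 * i - 1) + 1, by omega⟩, ?_⟩
      simp only [LT, NT, labN1, xl, gen]
      rw [if_pos (by omega), show (4 * (i : ℕ) - 1 + 1) / 4 = i by omega, dif_pos hi]
      rfl
  · refine ⟨⟨3 * (4 * i) + 1, by omega⟩, ?_⟩
    simp only [LT, NT, labN1, xl, gen]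
    rw [if_neg (by omega), if_pos (by omega), show (4 * (i : ℕ) + 1) / 4 = i by omega, dif_pos hi]
    rfl

/-- every labelling is determined by the labels of the generators -/
lemma lab_eq {g : ℕ} (hg : 1 ≤ g) {H : Type} [Group H] (μ : ℕ → H)
    (h1 : ∀ d, d < 12 * g - 6 → μ (opN g d) = (μ d)⁻¹)
    (h2 : ∀ k, k + 2 < 4 * g → μ (3 * k) * μ (3 * k + 1) * μ (3 * k + 2) = 1) :
    ∃ a b : ℕ → H, Pl a b (4 * g) = 1 ∧ ∀ d, d < 12 * g - 6 → μ d = labN a b g d := by
  refine ⟨fun i => μ (12 * i - 2), fun i => μ (12 * i + 1), ?_⟩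
  set a : ℕ → H := fun i => μ (12 * i - 2) with ha
  set b : ℕ → H := fun i => μ (12 * i + 1) with hb
  have e1 : ∀ k, k + 2 < 4 * g → μ (3 * k + 1) = xl a b (k + 1) := by
    intro k hk
    unfold xl
    split_ifs with c0 c1 c2
    · rw [ha]; congr 1; omega
    · rw [hb]; congr 1; omega
    · simp only [ha]
      rw [← h1 _ (by omega)]; congr 1
      unfold opN; split_ifs <;> omega
    · simp only [hb]
      rw [← h1 _ (by omega)]; congr 1
      unfold opN; split_ifs <;> omega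
  have e3 : μ (12 * g - 7) = xl a b (4 * g - 1) := by
    unfold xl
    rw [if_neg (by omega), if_neg (by omega), if_neg (by omega)]
    simp only [hb]
    rw [← h1 _ (by omega)]; congr 1
    unfold opN; split_ifs <;> omega
  have e0 : ∀ k, k + 2 < 4 * g → μ (3 * k) = Pl a b (k + 1) ∧
      μ (3 * k + 2) = (Pl a b (k + 2))⁻¹ := by
    have st : ∀ k, k + 2 < 4 * g → μ (3 * k) = Pl a b (k + 1) →
        μ (3 * k + 2) = (Pl a b (k + 2))⁻¹ := by
      intro k hk h
      have := h2 k hk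
      rw [h, e1 k hk] at this
      exact eq_inv_of_mul_eq_one_right this
    intro k
    induction k with
    | zero =>
      intro hk
      have : μ (3 * 0) = Pl a b (0 + 1) := by simp [Pl, xl, ha]
      exact ⟨this, st _ hk this⟩
    | succ k ih =>
      intro hk
      have : μ (3 * (k + 1)) = Pl a b (k + 1 + 1) := by
        rw [← inv_inv (Pl a b _), ← (ih (by omega)).2, ← h1 _ (by omega)]; congr 1
        unfold opN; split_ifs <;> omega
      exact ⟨this, st _ hk this⟩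
  constructor
  · have := (e0 (4 * g - 3) (by omega)).2
    rw [show 3 * (4 * g - 3) + 2 = 12 * g - 7 by omega, e3,
      show 4 * g - 3 + 2 = 4 * g - 1 by omega] at this
    rw [show 4 * g = 4 * g - 1 + 1 by omega, Pl, this, mul_inv_cancel]
  · intro d hd
    obtain ⟨k, rfl | rfl | rfl⟩ : ∃ k, d = 3 * k ∨ d = 3 * k + 1 ∨ d = 3 * k + 2 :=
      ⟨d / 3, by omega⟩
    · rw [labN0, (e0 k (by omega)).1]
    · rw [labN1, e1 k (by omega)]
    · by_cases h : k + 3 = 4 * g
      · rw [labN3 a b h, show 3 * k + 2 = 12 * g - 7 by omega, e3]; congr 1; omega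
      · rw [labN2 a b h hg, (e0 k (by omega)).2]

lemma labN_congr {G : Type} [Group G] {a b a' b' : ℕ → G} {g : ℕ}
    (ha : ∀ i < g, a i = a' i) (hb : ∀ i < g, b i = b' i) :
    (∀ t ≤ 4 * g, Pl a b t = Pl a' b' t) ∧ ∀ d < 12 * g - 6, labN a b g d = labN a' b' g d := by
  have hx : ∀ t < 4 * g, xl a b t = xl a' b' t := fun t ht => by
    unfold xl; rw [ha _ (by omega), hb _ (by omega)]
  have hP : ∀ t ≤ 4 * g, Pl a b t = Pl a' b' t := by
    intro t
    induction t with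
    | zero => exact fun _ => rfl
    | succ t ih => intro ht; rw [Pl, Pl, ih (by omega), hx t (by omega)]
  refine ⟨hP, fun d hd => ?_⟩
  unfold labN
  rw [hP _ (by omega), hP (d / 3 + 2) (by omega), hx _ (by omega), hx (4 * g - 1) (by omega)]

lemma LT_univ {g : ℕ} (hg : 1 ≤ g) (H : Type) [Group H] (μ : Fin (12 * g - 6) → H)
    (hμ : (Tg g).IsLab μ) : ∃ ψ : SurfGroup g →* H, ∀ d, μ d = ψ (LT g d) := by
  obtain ⟨a, b, h1, h2⟩ := lab_eq hg (fun d => if h : d < 12 * g - 6 then μ ⟨d, h⟩ else 1)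
    (fun d hd => by
      simp only [dif_pos hd, dif_pos (opN_lt hd)]
      exact hμ.1 ⟨d, hd⟩)
    (fun k hk => by
      have := hμ.2 ⟨3 * k, by omega⟩
      rw [dif_pos (by omega), dif_pos (by omega), dif_pos (by omega)]
      rwa [show (Tg g).nx ((Tg g).nx ⟨3 * k, by omega⟩) = ⟨3 * k + 2, by omega⟩ from
        Fin.ext (by rw [Tg_nx, Tg_nx, nxN0, nxN1]),
        show (Tg g).nx ⟨3 * k, by omega⟩ = ⟨3 * k + 1, by omega⟩ from Fin.ext (nxN0 k)] at this)
  let f : Fin g × Bool → H := fun i => if i.2 then b i.1 else a i.1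
  have hc := labN_congr (a := FreeGroup.lift f ∘ gen g false) (b := FreeGroup.lift f ∘ gen g true)
    (a' := a) (b' := b) (g := g) (fun i hi => by simp [gen, hi, f]) (fun i hi => by simp [gen, hi, f])
  have hrel : ∀ r ∈ ({relator g} : Set _), FreeGroup.lift f r = 1 := by
    rintro _ rfl
    rw [← Pl_gen, map_Pl, hc.1 _ le_rfl, h1]
  refine ⟨PresentedGroup.toGroup hrel, fun d => ?_⟩
  have := h2 d d.2
  rw [dif_pos d.2] at this
  rw [this, ← hc.2 _ d.2, ← map_labN]
  rfl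

theorem Tg_mark {g : ℕ} (hg : 1 ≤ g) : (Tg g).Mark (LT g) :=
  ⟨LT_lab hg, Tg_tr hg, LT_gen hg, LT_univ hg⟩

theorem Tg_area {g : ℕ} (hg : 1 ≤ g) (ρ : SurfGroup g →* PSL(2, ℝ)) (n : ℤ)
    (h : HasEulerNumber ρ n) {p : V} (hp : Cone p) :
    ∑ d, faceAr (Tg g) (LT g) ρ (fun _ => p) d = 6 * n * Real.pi := by
  obtain ⟨r, hr, hn⟩ := euler_isPrim ρ n h hp
  have hk : ∀ d : Fin (12 * g - 6), (ρ.comp (PresentedGroup.mk {relator g}))
      (if (d : ℕ) / 3 + 3 = 4 * g then relator g else 1) = 1 := by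
    intro d; split_ifs <;> simp [mk_relator]
  have e := hr.sum_area (M := Tg g) hp (NT g) (NT_op g) (fun d => by
    obtain ⟨u, hu⟩ := NT_word hg d
    rw [hu, map_mul, map_mul, hk, mul_one, ← map_mul, mul_inv_cancel, map_one])
  have e1 : ∀ d, faceAr (Tg g) (NT g) (ρ.comp (PresentedGroup.mk {relator g})) (fun _ => p) d =
      faceAr (Tg g) (LT g) ρ (fun _ => p) d := fun d => by
    simp only [faceAr, LT, MonoidHom.comp_apply, map_mul]
  have e2 : ∀ d : Fin (12 * g - 6),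
      r (NT g d * NT g ((Tg g).nx d) * NT g ((Tg g).nx ((Tg g).nx d))) =
      if (d : ℕ) / 3 + 3 = 4 * g then n * Real.pi else 0 := by
    intro d
    obtain ⟨u, hu⟩ := NT_word hg d
    rw [hu, hr.conj_ker hp u (hk d)]
    split_ifs
    exacts [hn, hr.one hp]
  simp only [e1, e2] at e
  rw [e, Fin.sum_univ_eq_sum_range (fun d => if d / 3 + 3 = 4 * g then n * Real.pi else 0),
    show 12 * g - 6 = 12 * g - 9 + 1 + 1 + 1 by omega, Finset.sum_range_succ,
    Finset.sum_range_succ, Finset.sum_range_succ, if_pos (by omega), if_pos (by omega),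
    if_pos (by omega), Finset.sum_eq_zero fun d hd => if_neg (by
      have := Finset.mem_range.1 hd; omega)]
  ring

/-- **M7, first part.** -/
theorem exists_Tg (g : ℕ) (hg : 1 ≤ g) :
    ∃ (M : DartMap (Fin (12 * g - 6))) (L : Fin (12 * g - 6) → SurfGroup g), M.Mark L ∧
      ∀ (ρ : SurfGroup g →* PSL(2, ℝ)) (n : ℤ), HasEulerNumber ρ n → ∀ p : V, Cone p →
        ∑ d, faceAr M L ρ (fun _ => p) d = 6 * n * Real.pi :=
  ⟨Tg g, LT g, Tg_mark hg, fun ρ n h _ hp => Tg_area hg ρ n h hp⟩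

end A25f44
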