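import Pool.Agent.Lib.MP_a25f44_gt.H49Par
import Pool.Agent.Lib.MP_a25f44_gt.H49Tg
import Pool.Agent.Lib.MP_a25f44_gt.H33Coc

/-!
# The starting states (helper49)
-/

open scoped MatrixGroups
open Pool.Agent.Lib.MP_a25f44_gt Finset

namespace A25f44

/-- the initial admissible state -/
theorem adm_Tg {g : ℕ} (hg : 2 ≤ g) (ρ : SurfGroup g →* PSL(2, ℝ))
    (h : HasEulerNumber ρ (2 * g - 3)) : Adm ρ (Tg g) (LT g) := by
  refine ⟨Tg_mark (by omega), by rw [Fintype.card_fin]; omega, ?_⟩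
  rw [Tg_area (by omega) ρ _ h hyp_oV.cone, Fintype.card_fin, Nat.cast_sub (by omega)]
  push_cast; ring

variable {D Γ : Type} [Group Γ] [Fintype D] [DecidableEq D] {ρ : Γ →* PSL(2, ℝ)} {M : DartMap D}
  {L : D → Γ}

omit [DecidableEq D] in
theorem Adm.of_move (hM : Adm ρ M L) {M' : DartMap D} {L' : D → Γ} (h : M.Move L M' L') :
    Adm ρ M' L' := ⟨h.mark, hM.card, (Move_faceAr h ρ hyp_oV.cone).trans hM.area⟩

/-- START, given the handle move -/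
theorem start_of (hM : Adm ρ M L) (hne : ∀ d, 2 ≤ tr (lf ρ L d))
    (x2A : ∀ a e, M.vtx {e, M.op e} a = e → M.vtx {e, M.op e} (M.nx a) = M.op e →
      ∃ (M' : DartMap D) (L' : D → Γ) (q : D), M.Move L M' L' ∧ M'.Pants q ∧ M'.nx q = e ∧
        M'.Ann (M.op (M'.nx e)) (M.op e) ∧ L' e = L e ∧
        L' (M'.nx e) = L a * (L e)⁻¹ * (L a)⁻¹) :
    ∃ (M' : DartMap D) (L' : D → Γ) (x : D), Adm ρ M' L' ∧ Bad ρ M' L' x := by
  have hp : ∀ d, 0 < tr (lf ρ L d) := fun d => by linarith [hne d]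
  obtain ⟨x, h | ⟨h1, h2⟩⟩ := bad_or_itl hM hp
  · exact ⟨M, L, x, hM, h⟩
  obtain ⟨M', L', q, hm, hP, e1, -, e2, e3⟩ := x2A _ _ h1.1 h1.2
  refine ⟨M', L', q, hM.of_move hm, hP, ?_⟩
  have hc := two_le_tr_comm (hp _) (hp _) (hne _) h2
  have f := hm.mark.lab.2 q
  rw [e1, e2, e3, mul_assoc] at f
  have c0 : ∀ d, ((lf ρ L d : SL(2, ℝ)) : PSL(2, ℝ)) = ρ (L d) := fun d => cl_coe' _
  have c1 : lf ρ L' x = lf ρ L x := by rw [lf, lf, e2]
  have c2 : lf ρ L' (M'.nx x) = lf ρ L (M.nx x) * (lf ρ L x)⁻¹ * (lf ρ L (M.nx x))⁻¹ := by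
    refine cl_eq' ?_ (by rw [tr_conj, tr_inv]; exact hp _)
    simp only [e3, QuotientGroup.mk_mul, QuotientGroup.mk_inv, c0, map_mul, map_inv]
  have c3 : lf ρ L' q = (lf ρ L x * lf ρ L (M.nx x) * (lf ρ L x)⁻¹ * (lf ρ L (M.nx x))⁻¹)⁻¹ := by
    refine cl_eq' ?_ (by rw [tr_inv]; linarith)
    simp only [eq_inv_of_mul_eq_one_left f, QuotientGroup.mk_mul, QuotientGroup.mk_inv, c0, map_mul,
      map_inv, mul_assoc]
  rw [e1, c1, c2, c3]
  group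

end A25f44
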