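import Pool.Agent.Lib.MP_a25f44_gt.SGeo

/-! Trace identities for a bad pair of pants. -/

open scoped MatrixGroups
open Pool.Agent.Lib.MP_a25f44_gt Finset

noncomputable section

namespace A25f44

lemma SAlg.tr_ab {a b c : SL(2, ℝ)} (h : a * b * c = 1) : tr (a * b) = tr c := by
  rw [eq_inv_of_mul_eq_one_left h, tr_inv]

lemma Th_eq {a b c : SL(2, ℝ)} (h : a * b * c = 1) :
    Th a b = tr a ^ 2 + tr b ^ 2 + tr c ^ 2 - tr a * tr b * tr c - 4 := by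
  rw [Th, tr_commutator, SAlg.tr_ab h]; ring

lemma Th_eq_B (a b : SL(2, ℝ)) :
    Th a b = 4 * B (ax a) (ax b) ^ 2 - (tr a ^ 2 - 4) * (tr b ^ 2 - 4) / 4 := by
  rw [Th, tr_commutator', B_cross_cross, B_ax_ax, B_ax_ax, B_comm (ax b)]; ring

lemma SAlg.Th_cross (a b : SL(2, ℝ)) :
    Th a b = -4 * B (cross (ax a) (ax b)) (cross (ax a) (ax b)) := by
  rw [Th, tr_commutator']; ring

lemma SAlg.ax_pos {a : SL(2, ℝ)} (h : |tr a| < 2) : 0 < B (ax a) (ax a) := by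
  rw [B_ax_ax]
  obtain ⟨h1, h2⟩ := abs_lt.1 h
  nlinarith

/-- a nonzero vector orthogonal to the centre is spacelike -/
lemma SAlg.neg_of_orth {a : SL(2, ℝ)} (h : |tr a| < 2) {n : V} (h0 : B n (ax a) = 0)
    (hn : n ≠ 0) : B n n < 0 := by
  rcases tim_or_neg (SAlg.ax_pos h) with t | t
  · exact t.B_self_neg h0 hn
  · exact t.B_self_neg (by rw [B_neg_right, h0, neg_zero]) hn

lemma SAlg.cross_orth (u v : V) : B (cross u v) u = 0 := by
  unfold B cross; ring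

lemma Th_nonneg_ell {a : SL(2, ℝ)} (h : |tr a| < 2) (b : SL(2, ℝ)) : 0 ≤ Th a b := by
  rw [SAlg.Th_cross]
  by_cases hn : cross (ax a) (ax b) = 0
  · rw [hn]; simp [B]
  · have := SAlg.neg_of_orth h (SAlg.cross_orth _ _) hn
    linarith

lemma Th_zero_ell {a b : SL(2, ℝ)} (h : |tr a| < 2) (h0 : Th a b = 0) :
    a * b * a⁻¹ * b⁻¹ = 1 := by
  have hn : cross (ax a) (ax b) = 0 := by
    by_contra hn
    have := SAlg.neg_of_orth h (SAlg.cross_orth _ _) hn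
    rw [SAlg.Th_cross] at h0
    linarith
  have hc : a * b = b * a := by
    refine eq_of_tr_ax (tr_mul_comm a b) ?_
    rw [ax_mul, ax_mul, cross_anticomm (ax a) (ax b), hn, neg_zero, add_comm]
  rw [hc]; group

lemma Th_pos_ell {a b : SL(2, ℝ)} (h : |tr a| < 2) (hb : 2 ≤ |tr b|) (h1 : b ≠ 1) (h2 : b ≠ -1) :
    0 < Th a b := by
  have ha := SAlg.ax_pos h
  have hb' : B (ax b) (ax b) ≤ 0 := by
    rw [B_ax_ax]
    have : 2 ^ 2 ≤ |tr b| ^ 2 := pow_le_pow_left₀ (by norm_num) hb 2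
    rw [sq_abs] at this
    nlinarith
  have hne : ax b ≠ 0 := fun e => by
    rcases (ax_eq_zero_iff b).1 e with e | e
    · exact h1 e
    · exact h2 e
  rw [SAlg.Th_cross, B_cross_cross, B_comm (ax b) (ax a)]
  by_cases h0 : B (ax a) (ax b) = 0
  · have := SAlg.neg_of_orth h (n := ax b) (by rw [B_comm, h0]) hne
    have := mul_pos ha (neg_pos.2 this)
    rw [h0]; nlinarith
  · have := mul_self_pos.2 h0
    have := mul_nonneg ha.le (neg_nonneg.2 hb')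
    nlinarith

lemma SAlg.small {x y z : ℝ} (hx : 0 ≤ x) (hy : 0 ≤ y) (hxz : x ≤ z) (hyz : y ≤ z) (hz : z ≤ 1) :
    |x ^ 2 + y ^ 2 + z ^ 2 - 2 * (x * y + y * z + x * z) - x * y * z| ≤ 7 * z ^ 2 := by
  have h0 : 0 ≤ z := hx.trans hxz
  have e1 : x * y ≤ z ^ 2 := by nlinarith
  have e2 : y * z ≤ z ^ 2 := by nlinarith
  have e3 : x * z ≤ z ^ 2 := by nlinarith
  have e4 : x * y * z ≤ z ^ 2 := by nlinarith [mul_nonneg hx hy]
  have e5 : x ^ 2 ≤ z ^ 2 := by nlinarith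
  have e6 : y ^ 2 ≤ z ^ 2 := by nlinarith
  have f1 := mul_nonneg hx hy
  have f2 := mul_nonneg hy h0
  have f3 := mul_nonneg hx h0
  have f4 := mul_nonneg f1 h0
  rw [abs_le]
  constructor <;> nlinarith [sq_nonneg x, sq_nonneg y, sq_nonneg z]

theorem small_m (Bd : ℝ) {κ : ℝ} (hκ : 0 < κ) : ∃ η : ℝ, 0 < η ∧ ∀ a b c : SL(2, ℝ),
    a * b * c = 1 → 2 ≤ tr a → 2 ≤ tr b → tr a ≤ tr c → tr b ≤ tr c → 2 < tr c → tr c ≤ Bd →
    |Th a b| ≤ η → tr c ^ 2 * |Th a b| / (tr c ^ 2 - 4) ≤ κ := by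
  obtain ⟨z0, hz0, hz1, hz2⟩ : ∃ z0 : ℝ, 0 < z0 ∧ z0 ≤ 1 ∧ 16 * z0 ≤ κ :=
    ⟨min 1 (κ / 16), lt_min one_pos (by positivity), min_le_left _ _, by
      have := min_le_right 1 (κ / 16); linarith⟩
  have hB : 0 < Bd ^ 2 + 1 := by positivity
  refine ⟨κ * (4 * z0) / (Bd ^ 2 + 1), by positivity, ?_⟩
  intro a b c h ha hb hac hbc hc hBd hη
  have hden : 0 < tr c ^ 2 - 4 := by nlinarith
  rw [div_le_iff₀ hden]
  obtain ⟨z, hz⟩ : ∃ z, tr c = 2 + z := ⟨tr c - 2, by ring⟩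
  have zp : 0 < z := by linarith
  by_cases hs : z ≤ z0
  · have key := SAlg.small (x := tr a - 2) (y := tr b - 2) (z := z) (by linarith) (by linarith)
      (by linarith) (by linarith) (by linarith)
    have e : Th a b = (tr a - 2) ^ 2 + (tr b - 2) ^ 2 + z ^ 2 -
        2 * ((tr a - 2) * (tr b - 2) + (tr b - 2) * z + (tr a - 2) * z) -
        (tr a - 2) * (tr b - 2) * z := by rw [Th_eq h, hz]; ring
    rw [← e] at key
    have c9 : tr c ^ 2 ≤ 9 := by nlinarith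
    have k1 : tr c ^ 2 * |Th a b| ≤ 9 * (7 * z ^ 2) :=
      mul_le_mul c9 key (abs_nonneg _) (by norm_num)
    have k2 : 4 * z ≤ tr c ^ 2 - 4 := by rw [hz]; nlinarith
    have k3 : κ * (4 * z) ≤ κ * (tr c ^ 2 - 4) := mul_le_mul_of_nonneg_left k2 hκ.le
    have k4 : 16 * z * (4 * z) ≤ κ * (4 * z) :=
      mul_le_mul_of_nonneg_right (by linarith) (by linarith)
    nlinarith
  · push Not at hs
    have c1 : tr c ^ 2 ≤ Bd ^ 2 + 1 := by nlinarith
    have k1 : tr c ^ 2 * |Th a b| ≤ (Bd ^ 2 + 1) * (κ * (4 * z0) / (Bd ^ 2 + 1)) :=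
      mul_le_mul c1 hη (abs_nonneg _) hB.le
    rw [mul_div_cancel₀ _ hB.ne'] at k1
    have k2 : 4 * z0 ≤ tr c ^ 2 - 4 := by rw [hz]; nlinarith
    exact k1.trans (mul_le_mul_of_nonneg_left k2 hκ.le)

theorem all_par {a b c : SL(2, ℝ)} (h : a * b * c = 1) (ha : tr a = 2) (hb : tr b = 2)
    (hc : tr c = 2) (ha1 : a ≠ 1) : rot a oV < 0 ∨ rot b oV < 0 ∨ rot c oV < 0 := by
  have h1 : B (ax a) (ax b) = 0 := by
    have := tr_mul a b
    rw [SAlg.tr_ab h, ha, hb, hc] at this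
    linarith
  have h2 : B (ax a) (ax a) = 0 := by rw [B_ax_ax, ha]; norm_num
  have h3 : B (ax b) (ax b) = 0 := by rw [B_ax_ax, hb]; norm_num
  have h4 : det3 (ax a) (ax b) oV = 0 := by
    have := det3_sq (ax a) (ax b) oV
    rw [h1, h2, h3] at this
    exact pow_eq_zero_iff two_ne_zero |>.1 (by rw [this]; ring)
  have h5 : rot c oV = -(rot a oV + rot b oV) := by
    rw [eq_inv_of_mul_eq_one_right h, rot_inv, rot_mul, h4, ha, hb]; ring
  have h6 : rot a oV ≠ 0 := by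
    refine rot_ne_zero (by rw [ha]; norm_num) ha1 (fun e => ?_) hyp_oV.tim
    rw [e, tr_neg, tr_one] at ha
    norm_num at ha
  by_contra hn
  push Not at hn
  obtain ⟨n1, n2, n3⟩ := hn
  exact h6 (by linarith)

end A25f44
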