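import Pool.Agent.Lib.MP_a25f44_gt.SGeo

/-! Turning and the relative Euler number of pants. -/

open scoped MatrixGroups
open Pool.Agent.Lib.MP_a25f44_gt Finset

noncomputable section

namespace A25f44

lemma qa_neg_angle (A : SL(2, ℝ)) (v : V) :
    ((qa (-A) v : ℝ) : Real.Angle) = (qa A v : ℝ) := by
  rw [qa, qa, al_neg]
  by_cases h : al A v = 0
  · rw [h, neg_zero]
  · rw [two_mul, two_mul, Real.Angle.coe_add, Real.Angle.coe_add, Complex.arg_neg_coe_angle h,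
      add_add_add_comm, Real.Angle.coe_pi_add_coe_pi, add_zero]

lemma qa_idl {A : SL(2, ℝ)} {v : V} (hv : B v v = 0) (h0 : 0 < rot A v) :
    qa A v = Real.pi := by
  have : Complex.arg (al A v) = Real.pi / 2 :=
    Complex.arg_eq_pi_div_two_iff.2 ⟨by simp [al_re, nrm, hv], h0⟩
  rw [qa, this]; ring

/-- `|qa| ≤ 2 |rot|` for non elliptic elements -/
lemma abs_qa_le_two_rot {A : SL(2, ℝ)} (h : 2 ≤ tr A) {v : V} (hv : Hyp v) :
    |qa A v| ≤ 2 * |rot A v| := by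
  refine (abs_qa_le_rot (by linarith) hv).trans ?_
  rw [div_le_iff₀ (by linarith)]
  nlinarith [abs_nonneg (rot A v)]

lemma Ar_fix_idl {A : SL(2, ℝ)} (h : 2 ≤ tr A) {ξ y : V} (hξ : Idl ξ) (h0 : rot A ξ = 0)
    (hy : Cone y) : Ar ξ y (A • y) = qa A y := by
  obtain ⟨μ, -, hf⟩ := hξ.fix h0
  rcases (hξ.1.B_nonneg hy).lt_or_eq with hB | hB
  · exact Ar_ideal_fixed (by linarith) hy hξ.1 hξ.2 hf hB
  · obtain ⟨ν, hν, rfl⟩ := hξ.par hy hB.symm
    rw [Ar_pos_smul_2 hν, Ar_self12 hξ.1 (hy.smul A), eq_comm, qa_eq_zero_iff (by linarith),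
      rot_smul, h0, mul_zero]

/-- prism over a wall -/
lemma Ar_quad_reg {A : SL(2, ℝ)} (h : 0 ≤ tr A) {p q : V} (hp : Cone p) (hq : Cone q)
    (h1 : Tim p ∨ 2 ≤ tr A) (h2 : Tim q ∨ 2 ≤ tr A) :
    Ar p (A • p) (A • q) + Ar p (A • q) q = qa A p - qa A q := by
  by_cases ht : 2 ≤ tr A
  · obtain ⟨ξ, hξ, h0⟩ := exists_fix (A := A) (by rwa [abs_of_nonneg h])
    obtain ⟨μ, hμ, hf⟩ := hξ.fix h0
    have e1 : Ar ξ (A • p) (A • q) = Ar ξ p q := by
      rw [← Ar_pos_smul_1 hμ, ← hf, Ar_smul]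
    rw [Ar_cone hp (hp.smul A) (hq.smul A) hξ.1, Ar_cone hp (hq.smul A) hq hξ.1, e1,
      Ar_swap hξ.1 hp (hq.smul A), Ar_swap hξ.1 hq (hq.smul A), Ar_swap hξ.1 hp hq,
      Ar_fix_idl ht hξ h0 hp, Ar_fix_idl ht hξ h0 hq]
    ring
  · have := Ar_quad h (h1.resolve_right ht) hq (al_ne_zero A (h2.resolve_right ht))
    rw [Ar_cocycle hp (hp.smul A) (hq.smul A) hq, ← Ar_cyc q p, ← Ar_cyc q (A • p)]
    exact this

/-- moving from a finite point to a fixed point -/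
lemma Ar_to_fix {A : SL(2, ℝ)} (h : 0 ≤ tr A) {x y : V} (hx : Tim x) (hy : Cone y) {μ : ℝ}
    (hμ : 0 < μ) (hf : A • y = μ • y) (h2 : Tim y ∨ 2 ≤ tr A) :
    Ar y x (A • x) = qa A x - qa A y := by
  have := Ar_quad_reg h hx.cone hy (Or.inl hx) h2
  rwa [hf, Ar_pos_smul_3 hμ, Ar_pos_smul_2 hμ, Ar_self23 hx.cone hy, add_zero, ← Ar_cyc] at this

lemma al_mul_fix {A C : SL(2, ℝ)} {v : V} (hv : Hyp v) (h : A • v = v ∨ C • v = v) :
    al (A * C) v = al A v * al C v := by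
  have key : B (ax A) (ax C) = rot A v * rot C v ∧ det3 (ax A) (ax C) v = 0 := by
    rcases h with h | h
    · rw [(ax_of_fixed hv h).1, B_smul_left, det3_smul_1, det3_self13, mul_zero, B_comm v]
      exact ⟨rfl, rfl⟩
    · rw [(ax_of_fixed hv h).1, B_smul_right, det3_smul_2, det3_self23, mul_zero, mul_comm]
      exact ⟨rfl, rfl⟩
  apply Complex.ext
  · simp only [Complex.mul_re, al_re, al_im, hv.nrm, tr_mul, key.1]; ring
  · simp only [Complex.mul_im, al_re, al_im, hv.nrm, rot_mul, key.2]; ring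

/-- the angle of the rotation -/
lemma angV_rot {A : SL(2, ℝ)} {p w : V} (hp : Hyp p) (h : A • p = p) (hw : Cone w)
    (hne : B w w < B p w ^ 2) : ((angV p w (A • w) : ℝ) : Real.Angle) = (qa A p : ℝ) := by
  obtain ⟨h1, h2⟩ := ax_of_fixed hp h
  have h3 : rot A w = rot A p * B p w := by rw [rot, h1, B_smul_left]
  have h4 : B p (A • w) = B p w := by rw [← B_smul A p w, h]
  have h5 : det3 w (ax A) p = 0 := by rw [h1, det3_smul_2, det3_self23, mul_zero]
  have e : Tc p w (A • w) = ((B p w ^ 2 - B w w : ℝ) : ℂ) * (al A p * al A p) := by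
    apply Complex.ext
    · rw [Complex.re_ofReal_mul]
      simp only [Tc_re, Complex.mul_re, al_re, al_im, hp.nrm, hp.2, h4, B_smul_self, h3]
      linear_combination (-(B p w ^ 2) - B w w) * h2
    · rw [Complex.im_ofReal_mul]
      simp only [Tc_im, Complex.mul_im, al_re, al_im, hp.nrm]
      rw [det3_cyc, det3_smul_self, h5, h3, B_comm w p]; ring
  have h0 := al_ne_zero A hp.tim
  rw [angV, e, Complex.arg_real_mul _ (sub_pos.2 hne), Complex.arg_mul_coe_angle h0 h0, qa,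
    two_mul, Real.Angle.coe_add]

lemma STurn.abs_arg_al {a : SL(2, ℝ)} (ha : 0 < tr a) {o : V} (ho : Tim o) :
    |Complex.arg (al a o)| < Real.pi / 2 :=
  Complex.abs_arg_lt_pi_div_two_iff.2 (Or.inl (mul_pos (half_pos ha) ho.nrm_pos))

lemma Ev_zero {a b c : SL(2, ℝ)} (ha : 0 < tr a) (hb : 0 < tr b) (hc : 0 < tr c)
    (h : a * b * c = 1) {o : V} (ho : Tim o) : Ev a b c o = 0 := by
  have hZ := Zc_loop3 h ho.cone
  have hre := Zc_re_nonneg ho.cone (ho.cone.smul a) (ho.cone.smul (a * b))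
  have e : Zc o (a • o) ((a * b) • o) = ((4 : ℝ) : ℂ) * (al a o * al b o * al c o) := by
    rw [hZ]; norm_num
  rw [e, Complex.re_ofReal_mul] at hre
  rw [Ev, Ar, e, Complex.arg_real_mul _ (by norm_num), arg_mul3 (STurn.abs_arg_al ha ho)
    (STurn.abs_arg_al hb ho) (STurn.abs_arg_al hc ho) (al_ne_zero a ho) (al_ne_zero b ho)
    (al_ne_zero c ho) (by linarith), qa, qa, qa]
  ring

lemma Ev_neg_one {a b c : SL(2, ℝ)} (ha : 0 < tr a) (hb : 0 < tr b) (hc : 0 < tr c)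
    (h : a * b * c = -1) {o : V} (ho : Tim o) : |Ev a b c o| = 2 * Real.pi := by
  have hZ := Zc_loop3 (k := -c) (by rw [mul_neg, h, neg_neg]) ho.cone
  have hre := Complex.abs_arg_le_pi_div_two_iff.2
    (Zc_re_nonneg ho.cone (ho.cone.smul a) (ho.cone.smul (a * b)))
  have e : Zc o (a • o) ((a * b) • o) = ((4 : ℝ) : ℂ) * -(al a o * al b o * al c o) := by
    rw [hZ, al_neg]; push_cast; ring
  have n1 := al_ne_zero a ho
  have n2 := al_ne_zero b ho
  have n3 := al_ne_zero c ho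
  obtain ⟨x, hx⟩ : ∃ x, x = Complex.arg (Zc o (a • o) ((a * b) • o)) - Complex.arg (al a o) -
    Complex.arg (al b o) - Complex.arg (al c o) := ⟨_, rfl⟩
  have e1 : (x : Real.Angle) = (Real.pi : ℝ) := by
    rw [hx, e, Complex.arg_real_mul _ (by norm_num), Real.Angle.coe_sub, Real.Angle.coe_sub,
      Real.Angle.coe_sub, Complex.arg_neg_coe_angle (mul_ne_zero (mul_ne_zero n1 n2) n3),
      Complex.arg_mul_coe_angle (mul_ne_zero n1 n2) n3, Complex.arg_mul_coe_angle n1 n2]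
    abel
  have e2 : Ev a b c o = 2 * x := by rw [hx, Ev, Ar, qa, qa, qa]; ring
  have b1 := abs_lt.1 (STurn.abs_arg_al ha ho)
  have b2 := abs_lt.1 (STurn.abs_arg_al hb ho)
  have b3 := abs_lt.1 (STurn.abs_arg_al hc ho)
  have b4 := abs_le.1 hre
  have hπ := Real.pi_pos
  rcases le_total 0 x with h0 | h0
  · rw [e2, eq_of_angle_eq e1 (abs_lt.2 ⟨by linarith, by linarith⟩), abs_of_pos (by linarith)]
  · have e3 : (x : Real.Angle) = (-Real.pi : ℝ) := by
      rw [e1, Real.Angle.coe_neg, Real.Angle.neg_coe_pi]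
    rw [e2, eq_of_angle_eq e3 (abs_lt.2 ⟨by linarith, by linarith⟩), abs_of_neg (by linarith)]
    ring

end A25f44
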