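import Pool.Agent.Lib.MP_a25f44_gt.SCombB
import Pool.Agent.Lib.MP_a25f44_gt.STurn

/-! The budget. -/

set_option linter.unusedSectionVars false
set_option linter.unusedVariables false

open scoped MatrixGroups
open Pool.Agent.Lib.MP_a25f44_gt Finset

noncomputable section

namespace A25f44

variable {D Γ : Type} [Group Γ] [Fintype D] [DecidableEq D] {ρ : Γ →* PSL(2, ℝ)}
  {M : DartMap D} {L : D → Γ} {K F : Finset D}

theorem SBud.sum_tri (hL : M.IsLab L) (pos : D → V) (x : D) :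
    ∑ d ∈ M.tri x, (Real.pi - faceAr M L ρ pos d) = 3 * (Real.pi - faceAr M L ρ pos x) := by
  simp only [DartMap.sum_tri, faceAr_nx ρ hL]
  ring

theorem bud_indep (hL : M.IsLab L) (hP : M.PS K F) {A : D → SL(2, ℝ)} (hA : Lifts ρ L (K \ F) A)
    {y y' : D → V} (hy : Reg K F A y) (hy' : Reg K F A y') :
    bud ρ M L K F A y = bud ρ M L K F A y' := by
  have e := DartMap.prism hL (isCoc_ArC ρ) (hP.cl.compl hP.cut.inv) hP.cut.inv
    (p := fun d => (⟨y (M.vtx K d), hy.1 _⟩ : CV)) (q := fun d => (⟨y' (M.vtx K d), hy'.1 _⟩ : CV))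
    (fun d hd => by simp only [hP.cut.vtx_op d hd]) (fun d hd => by simp only [hP.cut.vtx_op d hd])
  rw [show Fᶜ ∩ K = K \ F by ext; simp [and_comm], sum_congr (s₁ := K \ F) rfl
    (g := fun w => qa (A w) (y w) - qa (A w) (y' w)) fun w hw => ?_] at e
  · simp only [face_ArC, sum_sub_distrib] at e
    simp only [bud, sum_sub_distrib]
    linarith
  · obtain ⟨w1, w2⟩ := mem_sdiff.1 hw
    simp only [ArC, cvAct_coe, hP.cut.vtx_self w1, hP.loop w w1 w2, ← (hA w hw).1, mk_smul]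
    exact Ar_quad_reg (hA w hw).2 (hy.1 w) (hy'.1 w) (hy.2 w hw) (hy'.2 w hw)

theorem bud_const (h : Adm ρ M L) (A : D → SL(2, ℝ)) {o : V} (ho : Cone o) :
    bud ρ M L K F A (fun _ => o) = 12 * Real.pi -
      ∑ d ∈ F, (Real.pi - faceAr M L ρ (fun _ => o) d) + 3 * ∑ w ∈ K \ F, qa (A w) o := by
  rw [bud, DartMap.sum_compl_eq, h.total ho]

lemma def_nonneg {pos : D → V} (hp : ∀ d, Cone (pos d)) (d : D) :
    0 ≤ Real.pi - faceAr M L ρ pos d :=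
  sub_nonneg.2 (Ar_le_pi (hp _) ((hp _).psmul _) ((hp _).psmul _))

lemma def_pos {pos : D → V} (hp : ∀ d, Cone (pos d)) {d : D} (h : Tim (pos d)) :
    0 < Real.pi - faceAr M L ρ pos d :=
  sub_pos.2 (abs_lt.1 (abs_Ar_lt_pi h ((hp _).psmul _) ((hp _).psmul _))).2

lemma det_pos_of_def {pos : D → V} (hp : ∀ d, Cone (pos d)) {d : D}
    (h : Real.pi - faceAr M L ρ pos d < Real.pi) : 0 < faceDet M L ρ pos d :=
  (Ar_pos_iff (hp _) ((hp _).psmul _) ((hp _).psmul _)).1 ((sub_lt_self_iff _).1 h)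

/-- lower bound of the defect by distinct faces -/
theorem sum_faces_le (hL : M.IsLab L) {C : Finset D} (hC : ∀ d ∈ C, M.nx d ∈ C) {pos : D → V}
    (hp : ∀ d, Cone (pos d)) {S : Finset D} (hS : S ⊆ C)
    (hd : ∀ d ∈ S, ∀ d' ∈ S, d' ∈ M.tri d → d' = d) :
    3 * ∑ d ∈ S, (Real.pi - faceAr M L ρ pos d) ≤ ∑ d ∈ C, (Real.pi - faceAr M L ρ pos d) := by
  rw [mul_sum, sum_congr rfl fun d _ => (SBud.sum_tri hL pos d).symm, ← sum_biUnion
    fun a ha b hb ne => DartMap.tri_disjoint fun c => ne (hd a ha b hb c).symm]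
  refine sum_le_sum_of_subset_of_nonneg (fun d h => ?_) fun d _ _ => def_nonneg hp d
  obtain ⟨a, ha, h⟩ := mem_biUnion.1 h
  rcases DartMap.mem_tri.1 h with rfl | rfl | rfl
  exacts [hS ha, hC _ (hS ha), hC _ (hC _ (hS ha))]

/-- faces of different walls are different -/
theorem wall_tri (hP : M.PS K F) {v w : D} (hv : v ∈ K \ F) (hw : w ∈ K) (h : w ∈ M.tri v) :
    w = v := by
  obtain ⟨p1, p2⟩ := hP.nx_notMem (mem_sdiff.1 hv).1 (mem_sdiff.1 hv).2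
  rcases DartMap.mem_tri.1 h with g | g | g
  exacts [g, absurd (g ▸ hw) p1, absurd (g ▸ hw) p2]

/-- a wall whose vertex is at a fixed point has a degenerate face -/
lemma faceAr_fix (hP : M.PS K F) {y : D → V} (hy : ∀ d, Cone (y d)) {w : D} (hw : w ∈ K \ F)
    {μ : ℝ} (hμ : 0 < μ) (hf : ρ (L w) • y w = μ • y w) :
    faceAr M L ρ (fun d => y (M.vtx K d)) w = 0 ∧
      faceDet M L ρ (fun d => y (M.vtx K d)) w = 0 := by
  obtain ⟨w1, w2⟩ := mem_sdiff.1 hw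
  have h : faceDet M L ρ (fun d => y (M.vtx K d)) w = 0 := by
    simp only [faceDet, hP.cut.vtx_self w1, hP.loop w w1 w2, hf, det3_smul_2, det3_self12, mul_zero]
  exact ⟨(Ar_eq_zero_iff (hy _) ((hy _).psmul _) ((hy _).psmul _)).2 h, h⟩

/-- all walls at fixed points: the defect splits into walls and good faces -/
theorem sum_def_fix (hL : M.IsLab L) (hP : M.PS K F) {y : D → V} (hy : ∀ d, Cone (y d))
    (hf : ∀ w ∈ K \ F, ∃ μ : ℝ, 0 < μ ∧ ρ (L w) • y w = μ • y w) :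
    ∑ d ∈ Fᶜ, (Real.pi - faceAr M L ρ (fun d => y (M.vtx K d)) d) =
      3 * Real.pi * (K \ F).card + ∑ d ∈ Fᶜ.filter (fun d => d ∉ K ∧ M.nx d ∉ K ∧
        M.nx (M.nx d) ∉ K), (Real.pi - faceAr M L ρ (fun d => y (M.vtx K d)) d) := by
  rw [hP.sum_compl, sum_congr (s₁ := K \ F) rfl (g := fun _ => 3 * Real.pi) fun w hw => ?_,
    sum_const, nsmul_eq_mul, add_comm, mul_comm]
  · congr 2
    ext d
    simp [DartMap.Good]
  · obtain ⟨μ, h1, h2⟩ := hf w hw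
    rw [SBud.sum_tri hL, (faceAr_fix hP hy hw h1 h2).1, sub_zero]

theorem bud_ge (hL : M.IsLab L) (hP : M.PS K F) {A : D → SL(2, ℝ)} (hA : Lifts ρ L (K \ F) A)
    (h2 : ∀ w ∈ K \ F, 2 ≤ tr (A w)) {y : D → V} (hy : ∀ d, Cone (y d)) :
    3 * Real.pi * (K \ F).card ≤ bud ρ M L K F A y := by
  have h3 : ∀ w, ∃ ξ, Cone ξ ∧ (w ∈ K \ F → Idl ξ ∧ rot (A w) ξ = 0) := fun w => by
    by_cases hw : w ∈ K \ F
    · obtain ⟨ξ, h⟩ := exists_fix ((h2 w hw).trans (le_abs_self _))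
      exact ⟨ξ, h.1.1, fun _ => h⟩
    · exact ⟨oV, hyp_oV.cone, fun h => absurd h hw⟩
  choose z z1 z2 using h3
  rw [bud_indep hL hP hA ⟨hy, fun w hw => .inr (h2 w hw)⟩ ⟨z1, fun w hw => .inr (h2 w hw)⟩, bud,
    sum_def_fix hL hP z1 fun w hw => by
      rw [← (hA w hw).1, mk_smul]; exact (z2 w hw).1.fix (z2 w hw).2,
    sum_eq_zero fun w hw => (qa_eq_zero_iff (hA w hw).2 _).2 (z2 w hw).2, mul_zero, add_zero]
  exact le_add_of_nonneg_right (sum_nonneg fun d _ => def_nonneg (fun _ => z1 _) d)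

theorem bud_pants (h : Adm ρ M L) {x : D} (h1 : 0 < tr (lf ρ L x))
    (h2 : 0 < tr (lf ρ L (M.nx x))) (h3 : 0 < tr (lf ρ L (M.nx (M.nx x)))) {o : V} (ho : Cone o) :
    bud ρ M L (M.triK x) (M.tri x) (lf ρ L) (fun _ => o) = 9 * Real.pi +
      3 * Ev (lf ρ L x) (lf ρ L (M.nx x)) (lf ρ L (M.nx (M.nx x))) o := by
  have n1 : M.op x ≠ M.op (M.nx x) := DartMap.op_inj.not.2 (M.nx_ne x).symm
  have n2 : M.op x ≠ M.op (M.nx (M.nx x)) := DartMap.op_inj.not.2 (M.nx2_ne x).symm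
  have n3 : M.op (M.nx x) ≠ M.op (M.nx (M.nx x)) := DartMap.op_inj.not.2 (M.nx2_ne_nx x).symm
  have hL := h.mark.lab
  rw [bud_const h _ ho, SBud.sum_tri hL, h.mark.tr.triK_sdiff, sum_insert (by simp [n1, n2]),
    sum_pair n3, lf_op hL h1, lf_op hL h2, lf_op hL h3, qa_inv h1.le, qa_inv h2.le, qa_inv h3.le,
    faceAr_const, Ev]
  ring

theorem Ev_nonneg (h : Adm ρ M L) {x : D} (hx : M.Pants x) (h1 : 2 ≤ tr (lf ρ L x))
    (h2 : 2 ≤ tr (lf ρ L (M.nx x))) (h3 : 2 ≤ tr (lf ρ L (M.nx (M.nx x)))) {o : V} (ho : Cone o) :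
    0 ≤ Ev (lf ρ L x) (lf ρ L (M.nx x)) (lf ρ L (M.nx (M.nx x))) o := by
  have hL := h.mark.lab
  have e := bud_ge hL hx (lifts_lf (ρ := ρ) L _) (fun w hw => by
    rw [h.mark.tr.triK_sdiff] at hw
    simp only [mem_insert, mem_singleton] at hw
    rcases hw with rfl | rfl | rfl <;> rwa [tr_lf_op hL]) (y := fun _ => o) fun _ => ho
  rw [bud_pants h (by linarith) (by linarith) (by linarith) ho, card_walls h.mark.tr] at e
  push_cast at e
  linarith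

theorem bud_bad (h : Adm ρ M L) {x : D} (hx : Bad ρ M L x) (h1 : 0 < tr (lf ρ L x))
    (h2 : 0 < tr (lf ρ L (M.nx x))) (h3 : 0 < tr (lf ρ L (M.nx (M.nx x)))) {y : D → V}
    (hy : Reg (M.triK x) (M.tri x) (lf ρ L) y) :
    bud ρ M L (M.triK x) (M.tri x) (lf ρ L) y =
      3 * Real.pi * (M.triK x \ M.tri x).card := by
  rw [bud_indep h.mark.lab hx.1 (lifts_lf L _) hy (y' := fun _ => oV)
    ⟨fun _ => hyp_oV.cone, fun _ _ => .inl hyp_oV.tim⟩, bud_pants h h1 h2 h3 hyp_oV.cone,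
    Ev_zero h1 h2 h3 hx.2 hyp_oV.tim, card_walls h.mark.tr]
  push_cast
  ring

theorem bud_handle (h : Adm ρ M L) {x : D} (hx : Bad ρ M L x)
    (ha : M.Ann (M.op (M.nx (M.nx x))) (M.op (M.nx x))) (h1 : 2 ≤ tr (lf ρ L x))
    (h2 : 0 < tr (lf ρ L (M.nx x))) {y : D → V} (hy : ∀ d, Cone (y d)) :
    bud ρ M L (M.triK x) (F9 M x) (lf ρ L) y = 3 * Real.pi * (M.triK x \ F9 M x).card := by
  have hL := h.mark.lab
  obtain ⟨ps, e⟩ := handle_ps hx.1 ha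
  obtain ⟨l1, l2, -⟩ := ann_lab hL ha
  have h0 : 0 < tr (lf ρ L x) := by linarith
  obtain ⟨v1, v2, -⟩ := hx.1.walls (d := M.nx (M.nx x)) (by simp [DartMap.tri])
  obtain ⟨w1, w2, -⟩ := hx.1.walls (d := M.nx x) (by simp [DartMap.tri])
  have vw : M.op (M.nx x) ∉ M.tri (M.op (M.nx (M.nx x))) := fun c =>
    M.nx2_ne_nx x (DartMap.op_inj.1 (wall_tri hx.1 (mem_sdiff.2 ⟨v1, v2⟩) w1 c)).symm
  have t1 := tr_lf_op (ρ := ρ) hL (M.nx (M.nx x))
  have f3 := faceAr_tri (ρ := ρ) hL (fun _ => oV) (x := M.op (M.nx x))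
    (d := M.nx (M.nx (M.op (M.nx x)))) (by simp [DartMap.tri])
  have l3 := lab_cyc hL (M.nx (M.op (M.nx x)))
  rw [M.nx3] at l3
  have l4 := lf_op (ρ := ρ) hL (d := M.nx (M.nx x))
  rw [faceAr, M.nx3, l3, ← ha.2, ← ha.1, hL.1, hL.1, inv_inv, ← lab_cyc' hL] at f3
  generalize hv : M.op (M.nx (M.nx x)) = v at *
  have t2 : tr (lf ρ L (M.nx x)) = tr (lf ρ L v) := by
    have := tr_cl_conj (ρ (L v)) (ρ (L (M.nx v)))⁻¹
    rwa [inv_inv, ← map_inv, ← map_mul, ← map_mul, ← l2] at this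
  have t3 : lf ρ L (M.nx x) = (lf ρ L (M.nx v))⁻¹ * lf ρ L v * (lf ρ L (M.nx v))⁻¹⁻¹ := by
    have := cl_conj (g := ρ (L v)) (h2.trans_eq t2) (lf ρ L (M.nx v))⁻¹
    rwa [QuotientGroup.mk_inv, lf_mk, inv_inv, ← map_inv, ← map_mul, ← map_mul, ← l2] at this
  have h3 : 0 < tr (lf ρ L (M.nx (M.nx x))) := by linarith
  have q1 := Ar_quad_reg (A := lf ρ L v) (t2 ▸ h2.le) hyp_oV.cone
    (hyp_oV.cone.smul (lf ρ L (M.nx v))) (.inl hyp_oV.tim) (.inl (hyp_oV.tim.smul _))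
  have q2 := qa_conj (lf ρ L (M.nx v))⁻¹ (lf ρ L v) (lf ρ L (M.nx v) • oV)
  have q3 := Ev_zero h0 h2 h3 hx.2 hyp_oV.tim
  have q4 := qa_inv h3.le oV
  rw [← t3, inv_smul_smul] at q2
  rw [← l4 h3] at q4
  rw [map_mul, mul_smul, ← lf_smul, ← lf_smul] at f3
  rw [bud_indep hL ps (lifts_lf L _) ⟨hy, fun w hw => .inr (by
      rw [e, mem_singleton] at hw; rwa [hw, tr_lf_op hL])⟩ (y' := fun _ => oV)
    ⟨fun _ => hyp_oV.cone, fun _ _ => .inl hyp_oV.tim⟩, bud_const h _ hyp_oV.cone, e, sum_singleton,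
    card_singleton, F9, hv, sum_union (disjoint_union_left.2
      ⟨DartMap.tri_disjoint w2, DartMap.tri_disjoint vw⟩), sum_union (DartMap.tri_disjoint v2),
    SBud.sum_tri hL, SBud.sum_tri hL, SBud.sum_tri hL, ← f3, faceAr_const, faceAr_const,
    lf_op hL h0, qa_inv h0.le, mul_smul (lf ρ L v)]
  rw [Ev] at q3
  push_cast
  linarith

end A25f44
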