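import Pool.Agent.Lib.MP_a25f44_gt.SGeo
import Pool.Agent.Lib.MP_a25f44_gt.H48Extra
import Pool.Agent.Lib.MP_a25f44_gt.H49Fin

/-! Admissible states, lifts of labels, half twists. -/

set_option linter.unusedSectionVars false

open scoped MatrixGroups
open Pool.Agent.Lib.MP_a25f44_gt Finset

noncomputable section

namespace A25f44

variable {D Γ : Type} [Group Γ] [Fintype D] [DecidableEq D] {ρ : Γ →* PSL(2, ℝ)}
  {M : DartMap D} {L : D → Γ} {K F : Finset D}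

theorem Adm.total (h : Adm ρ M L) {o : V} (ho : Cone o) :
    ∑ d, (Real.pi - faceAr M L ρ (fun _ => o) d) = 12 * Real.pi := by
  rw [sum_sub_distrib, sum_faceAr_indep ρ h.mark.lab (p := fun _ => oV) (fun _ => hyp_oV.cone)
    (fun _ => ho) (fun _ => rfl) (fun _ => rfl), h.area, sum_const, card_univ, nsmul_eq_mul]
  ring

lemma lf_mk (L : D → Γ) (d : D) : (lf ρ L d : PSL(2, ℝ)) = ρ (L d) := cl_coe' _

lemma lf_smul (L : D → Γ) (d : D) (v : V) : lf ρ L d • v = ρ (L d) • v := by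
  rw [← mk_smul, lf_mk]

lemma lifts_lf (L : D → Γ) (S : Finset D) : Lifts ρ L S (lf ρ L) :=
  fun w _ => ⟨lf_mk L w, cl_tr' _⟩

lemma lf_op (hL : M.IsLab L) {d : D} (h : 0 < tr (lf ρ L d)) :
    lf ρ L (M.op d) = (lf ρ L d)⁻¹ := lf_op' hL h

lemma tr_lf_op (hL : M.IsLab L) (d : D) : tr (lf ρ L (M.op d)) = tr (lf ρ L d) := by
  rw [lf, lf, hL.1, map_inv, tr_cl_inv]

lemma lpV_lf_op (hL : M.IsLab L) (d : D) (v : V) :
    lpV (lf ρ L (M.op d)) v = lpV (lf ρ L d) v := by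
  rw [lpV, lpV, lf_smul, lf_smul, hL.1, map_inv, ← dV_psmul (ρ (L d)), smul_inv_smul, dV_comm]

lemma lf_mul3 (hL : M.IsLab L) (d : D) :
    lf ρ L d * lf ρ L (M.nx d) * lf ρ L (M.nx (M.nx d)) = 1 ∨
      lf ρ L d * lf ρ L (M.nx d) * lf ρ L (M.nx (M.nx d)) = -1 := lf_face' hL d

lemma faceDet_const (L : D → Γ) (x : V) (d : D) : faceDet M L ρ (fun _ => x) d =
    det3 x (lf ρ L d • x) ((lf ρ L d * lf ρ L (M.nx d)) • x) := by
  rw [mul_smul, lf_smul, lf_smul, lf_smul, ← mul_smul, ← map_mul, faceDet]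

lemma faceAr_const (L : D → Γ) (x : V) (d : D) : faceAr M L ρ (fun _ => x) d =
    Ar x (lf ρ L d • x) ((lf ρ L d * lf ρ L (M.nx d)) • x) := by
  rw [mul_smul, lf_smul, lf_smul, lf_smul, ← mul_smul, ← map_mul, faceAr]

lemma faceDet_tri (hL : M.IsLab L) (pos : D → V) {x d : D} (h : d ∈ M.tri x) :
    faceDet M L ρ pos d = faceDet M L ρ pos x := by
  rcases DartMap.mem_tri.1 h with rfl | rfl | rfl <;> simp only [faceDet_nx ρ hL]

lemma faceAr_tri (hL : M.IsLab L) (pos : D → V) {x d : D} (h : d ∈ M.tri x) :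
    faceAr M L ρ pos d = faceAr M L ρ pos x := by
  rcases DartMap.mem_tri.1 h with rfl | rfl | rfl <;> simp only [faceAr_nx ρ hL]

theorem Bad.nx {x : D} (h : Bad ρ M L x) : Bad ρ M L (M.nx x) :=
  ⟨h.1.nx, by rw [M.nx3]; exact (DartMap.lab_cyc h.2).1⟩

theorem card_walls (h : M.Tr) (x : D) : (M.triK x \ M.tri x).card = 3 := by
  rw [h.triK_sdiff]
  exact card_eq_three.2 ⟨_, _, _, DartMap.op_inj.not.2 (M.nx_ne x).symm,
    DartMap.op_inj.not.2 (M.nx2_ne x).symm, DartMap.op_inj.not.2 (M.nx2_ne_nx x).symm, rfl⟩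

theorem tr_com_op (hL : M.IsLab L) (e a : D) :
    tr (com ρ L (M.op e) (M.op a)) = tr (com ρ L e a) := by
  rw [com, com, hL.1, hL.1, ← tr_cl_conj (ρ (L e * L a * (L e)⁻¹ * (L a)⁻¹)) (ρ (L a * L e)⁻¹),
    ← map_inv ρ, ← map_mul, ← map_mul]
  congr 3
  group

/-- labels in a handle; `al = L v`, `be = (L (nx v))⁻¹` -/
theorem ann_lab (hL : M.IsLab L) {x : D} (ha : M.Ann (M.op (M.nx (M.nx x))) (M.op (M.nx x))) :
    let v := M.op (M.nx (M.nx x))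
    L (M.nx (M.nx x)) = (L v)⁻¹ ∧ L (M.nx x) = (L (M.nx v))⁻¹ * L v * L (M.nx v) ∧
      L x = L v * (L (M.nx v))⁻¹ * (L v)⁻¹ * L (M.nx v) := by
  intro v
  have e1 : L (M.nx (M.nx x)) = (L v)⁻¹ := by simp only [v, hL.1, inv_inv]
  have e2 : L (M.nx x) = (L (M.nx v))⁻¹ * L v * L (M.nx v) := by
    rw [← inv_inj, ← hL.1, DartMap.Ann.lab (v := v) ha hL]
    group
  refine ⟨e1, e2, ?_⟩
  rw [eq_inv_of_mul_eq_one_right (DartMap.lab_cyc (hL.2 x)).1, e1, e2]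
  group

/-- half twist: `(a, b)` becomes `(a b a⁻¹, a)` -/
theorem backflip' (h : Adm ρ M L) {x : D} (hx : M.Pants x) : ∃ (M' : DartMap D) (L' : D → Γ),
    Adm ρ M' L' ∧ M'.op = M.op ∧ M'.Pants x ∧ M'.nx x = M.nx (M.nx x) ∧ M'.nx (M'.nx x) = M.nx x ∧
    M'.tri x = M.tri x ∧ M'.triK x = M.triK x ∧ (∀ d, d ∉ M.tri x → M'.nx d = M.nx d) ∧
    L' x = L x ∧ L' (M.nx x) = L (M.nx x) ∧
    L' (M.nx (M.nx x)) = L (M.nx x) * L (M.nx (M.nx x)) * (L (M.nx x))⁻¹ ∧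
    (M.NoAnn (M.triK x) (M.tri x) → M'.NoAnn (M.triK x) (M.tri x)) := by
  obtain ⟨L', mv, h1, h2, h3, h4, h5, h6, -, h7⟩ := h.mark.backflip hx
  have hL := h.mark.lab
  have o := mv.op
  have hL' : ∀ d, L' d = (L' (M.op d))⁻¹ := fun d => by rw [← o, mv.mark.lab.1, inv_inv]
  obtain ⟨a1, a2, -⟩ := hx.walls (d := x) (by simp [DartMap.mem_tri])
  obtain ⟨b1, b2, -⟩ := hx.walls (d := M.nx x) (by simp [DartMap.mem_tri])
  obtain ⟨c1, c2, c3⟩ := hx.walls (d := M.nx (M.nx x)) (by simp [DartMap.mem_tri])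
  have n1 := (DartMap.op_inj (M := M)).not.2 (M.nx2_ne x).symm
  have n2 := (DartMap.op_inj (M := M)).not.2 (M.nx2_ne_nx x).symm
  refine ⟨_, L', h.of_move mv, o, h1, h2, h3, h4, h5, h6, ?_, ?_, ?_, fun k => k.congr o h6⟩
  · rw [hL', h7 _ a2, hx.cut.gauge_wall c1 c3 a1 n1 n1, hL.1, inv_inv]
  · rw [hL', h7 _ b2, hx.cut.gauge_wall c1 c3 b1 n2 n2, hL.1, inv_inv]
  · rw [hL', h7 _ c2, hx.cut.gauge_loop c1 c3, hL.1, hL.1]
    group

/-- the same with lifts -/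
theorem backflip_bad (h : Adm ρ M L) {x : D} (hx : Bad ρ M L x)
    (hb : 0 < tr (lf ρ L (M.nx (M.nx x)))) : ∃ (M' : DartMap D) (L' : D → Γ),
    Adm ρ M' L' ∧ Bad ρ M' L' x ∧ lf ρ L' x = lf ρ L x ∧
    lf ρ L' (M'.nx x) = lf ρ L (M.nx x) * lf ρ L (M.nx (M.nx x)) * (lf ρ L (M.nx x))⁻¹ ∧
    lf ρ L' (M'.nx (M'.nx x)) = lf ρ L (M.nx x) ∧
    (M.NoAnn (M.triK x) (M.tri x) → M'.NoAnn (M'.triK x) (M'.tri x)) ∧
    (M.Ann (M.op (M.nx (M.nx x))) (M.op (M.nx x)) →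
      M'.Ann (M'.op (M'.nx (M'.nx x))) (M'.op (M'.nx x))) := by
  obtain ⟨M', L', a, o, p, f1, f2, t1, t2, f3, l1, l2, l3, na⟩ := backflip' h hx.1
  have e1 : lf ρ L' x = lf ρ L x := by rw [lf, lf, l1]
  have e2 : lf ρ L' (M'.nx x) =
      lf ρ L (M.nx x) * lf ρ L (M.nx (M.nx x)) * (lf ρ L (M.nx x))⁻¹ := by
    rw [f1, lf, l3, map_mul, map_mul, map_inv, ← lf_mk L (M.nx x)]
    exact cl_conj hb _
  have e3 : lf ρ L' (M'.nx (M'.nx x)) = lf ρ L (M.nx x) := by rw [f2, lf, lf, l2]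
  refine ⟨M', L', a, ⟨p, ?_⟩, e1, e2, e3, by rwa [t1, t2], fun k => ?_⟩
  · rw [e1, e2, e3, ← hx.2]
    group
  · have b2 := (hx.1.walls (d := M.nx x) (by simp [DartMap.mem_tri])).2.1
    have c2 := (hx.1.walls (d := M.nx (M.nx x)) (by simp [DartMap.mem_tri])).2.1
    rw [f2, f1, o, DartMap.Ann, o, f3 _ b2, f3 _ c2, f3 _ (DartMap.nx_mem_tri.not.2 b2),
      f3 _ (DartMap.nx_mem_tri.not.2 c2)]
    exact k.symm

end A25f44
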