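import Pool.Agent.Lib.MP_a25f44_gt.SComb

/-! Combinatorial complements. -/

set_option linter.unusedSectionVars false

open scoped MatrixGroups
open Pool.Agent.Lib.MP_a25f44_gt Finset

noncomputable section

namespace A25f44

variable {D Γ : Type} [Group Γ] [Fintype D] [DecidableEq D] {ρ : Γ →* PSL(2, ℝ)}
  {M : DartMap D} {L : D → Γ} {K F : Finset D}

/-- vertices of the map cut along one edge of a pants face -/
theorem vtx_pants {e : D} (h : M.Pants e) (d : D) :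
    M.vtx {e, M.op e} d = if M.vtx (M.triK e) d = M.op e then M.op e else e := by
  have hK := h.cut
  obtain ⟨a1, -, a3⟩ := h.walls (d := e) (by simp [DartMap.mem_tri])
  have a0 : e ∈ M.triK e := by simp [DartMap.mem_triK, DartMap.mem_tri]
  refine congrFun ((hK.tr.isCut_edge e).vtx_eq
    (f := fun d => if M.vtx (M.triK e) d = M.op e then M.op e else e) (fun c hc => ?_)
    fun w hw => ?_) d
  · simp only [mem_insert, mem_singleton, not_or] at hc
    by_cases k : c ∈ M.triK e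
    · have k1 : M.vtx (M.triK e) (M.nx c) ≠ M.op e := fun g =>
        hc.2 (hK.succ_inj k a1 (g.trans a3.symm))
      simp only [hK.vtx_self (hK.inv c k), DartMap.op_inj, hc.1, k1]
    · simp only [hK.vtx_op c k]
  · simp only [mem_insert, mem_singleton] at hw
    rcases hw with rfl | rfl
    · simp only [hK.vtx_self a0, (M.op_ne w).symm, if_false]
    · simp only [hK.vtx_self a1, if_true]

theorem vtx_edge (h : M.Tr) (e d : D) :
    M.vtx {e, M.op e} d = e ∨ M.vtx {e, M.op e} d = M.op e := by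
  simpa only [mem_insert, mem_singleton] using (h.isCut_edge e).vtx_mem d

/-- the apex of an annulus face -/
theorem vtx_ann (h : M.PS K F) {v w : D} (hv : v ∈ K) (hF : v ∉ F) (hw : w ∈ K) (ha : M.Ann v w) :
    M.vtx K (M.nx (M.nx v)) = w := by
  have := h.cut.vtx_op _ (h.nx_notMem hw (h.ann_notMem hv hF ha)).2
  rwa [M.nx3, h.cut.vtx_self hw, ← ha.2, M.op2] at this

theorem Itl.op {e a : D} (h : M.Tr) (ha : Itl M e a) : Itl M (M.op e) (M.op a) := by
  have hP := h.ps_edge e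
  have k : a ∉ ({e, M.op e} : Finset D) := fun c => by
    have h1 := ha.1
    have h2 := ha.2
    rw [hP.loop a c (by simp)] at h2
    rw [hP.cut.vtx_self c] at h1
    exact M.op_ne e (h2.symm.trans h1)
  rw [Itl, M.op2, pair_comm, hP.cut.vtx_op a k, ← hP.cut.vtx_op _ (hP.cut.op_notMem k), M.op2]
  exact ha.symm

/-- an annulus at the wall `op e` of a pants state gives a handle through `e` -/
theorem itl_of_ann (hL : M.IsLab L) {e : D} (h : M.Pants e) :
    (M.Ann (M.op e) (M.op (M.nx e)) → ∃ a, Itl M e a ∧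
      tr (com ρ L e a) = tr (lf ρ L (M.nx (M.nx e)))) ∧
    (M.Ann (M.op e) (M.op (M.nx (M.nx e))) → ∃ a, Itl M e a ∧
      tr (com ρ L e a) = tr (lf ρ L (M.nx e))) := by
  obtain ⟨a1, a2, -⟩ := h.walls (d := e) (by simp [DartMap.mem_tri])
  have k : ∀ d ∈ M.tri e, d ≠ e → M.Ann (M.op e) (M.op d) → Itl M e (M.nx (M.nx (M.op e))) ∧
      L d = L (M.nx (M.nx (M.op e))) * (L e)⁻¹ * (L (M.nx (M.nx (M.op e))))⁻¹ := by
    intro d hd ne ha
    refine ⟨⟨?_, ?_⟩, ?_⟩
    · rw [vtx_pants h, vtx_ann h a1 a2 (h.walls hd).1 ha, if_neg (DartMap.op_inj.not.2 ne)]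
    · rw [vtx_pants h, M.nx3, h.cut.vtx_self a1, if_pos rfl]
    · rw [← inv_inj, ← hL.1, ha.lab hL, hL.nx2, hL.1]
      group
  refine ⟨fun ha => ?_, fun ha => ?_⟩
  · obtain ⟨k1, k2⟩ := k _ (by simp [DartMap.mem_tri]) (M.nx_ne e) ha
    refine ⟨_, k1, ?_⟩
    rw [lf, hL.nx2 e, k2, map_inv, tr_cl_inv, com, ← mul_assoc, ← mul_assoc]
  · obtain ⟨k1, k2⟩ := k _ (by simp [DartMap.mem_tri]) (M.nx2_ne e) ha
    refine ⟨_, k1, ?_⟩
    rw [lf, eq_inv_of_mul_eq_one_right (DartMap.lab_cyc (hL.2 e)).2, k2, map_inv, tr_cl_inv, com,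
      ← tr_cl_conj _ (ρ (L e)⁻¹), ← map_inv ρ, ← map_mul, ← map_mul]
    congr 3
    group

/-- an edge has a crossing edge, or separates -/
theorem sep_or (h : M.Tr) (e : D) : (∃ a, Itl M e a) ∨
    ∃ C : Finset D, M.PS {e, M.op e} C ∧ M.PS {e, M.op e} Cᶜ ∧ {e, M.op e} \ C = {M.op e} ∧
      {e, M.op e} \ Cᶜ = {e} := by
  refine (h.sep_or e).imp id fun hC => ?_
  have hP := h.ps_edge e
  have e1 := hP.cut.vtx_self (w := e) (by simp)
  have e2 := hP.cut.vtx_self (w := M.op e) (by simp)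
  have n := M.op_ne e
  refine ⟨_, ⟨hP.cut, hC, fun w hw _ => hP.loop w hw (by simp)⟩,
    ⟨hP.cut, hC.compl hP.cut.inv, fun w hw _ => hP.loop w hw (by simp)⟩, ?_, ?_⟩
  · ext d
    simp only [mem_sdiff, mem_insert, mem_singleton, mem_filter, mem_univ, true_and]
    exact ⟨fun k => k.1.resolve_left fun g => k.2 (g ▸ e1),
      fun g => ⟨.inr g, by rwa [g, e2]⟩⟩
  · ext d
    simp only [mem_sdiff, mem_insert, mem_singleton, mem_compl, mem_filter, mem_univ, true_and,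
      not_not]
    exact ⟨fun k => k.1.resolve_right fun g => n (e2.symm.trans (g ▸ k.2)),
      fun g => ⟨.inl g, by rw [g, e1]⟩⟩

theorem noAnn_one (h : M.PS K F) {w : D} (hw : K \ F = {w}) : M.NoAnn K F := by
  by_contra c
  obtain ⟨a, a1, b, b1, a2, b2, ne, -⟩ := h.exists_ann c
  have a3 : a ∈ K \ F := mem_sdiff.2 ⟨a1, a2⟩
  have b3 : b ∈ K \ F := mem_sdiff.2 ⟨b1, b2⟩
  rw [hw, mem_singleton] at a3 b3
  exact ne (a3.trans b3.symm)

theorem two_good (h : M.PS K F) {w : D} (hw : K \ F = {w}) :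
    ∃ d d', M.Good K F d ∧ M.Good K F d' ∧ d' ∉ M.tri d := by
  have u : ∀ d ∈ K, d ∉ F → d = w := fun d h1 h2 =>
    mem_singleton.1 (hw ▸ mem_sdiff.2 ⟨h1, h2⟩)
  obtain ⟨w1, w2⟩ := mem_sdiff.1 (hw.symm ▸ mem_singleton_self w : w ∈ K \ F)
  obtain ⟨p1, p2⟩ := h.nx_notMem w1 w2
  have ht := h.cut.tr
  have f1 : M.nx w ∉ F := by rwa [h.cl.nx_mem_iff]
  have f2 : M.nx (M.nx w) ∉ F := by rwa [h.cl.nx_mem_iff]
  have g : ∀ d ∈ M.tri w, d ∉ K → d ∉ F → M.Good K F (M.op d) := fun d hd k1 k2 => by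
    refine (h.good_or (h.cut.op_notMem k1) (by rwa [h.cl.op_mem_iff h.cut.inv k1])).resolve_right ?_
    rintro ⟨y, y1, y2, y3⟩
    rw [u y y1 y2] at y3
    exact ht.op_notMem_tri hd (DartMap.mem_tri.2 (.inr y3))
  refine ⟨_, _, g _ (by simp [DartMap.mem_tri]) p1 f1, g _ (by simp [DartMap.mem_tri]) p2 f2,
    fun c => ?_⟩
  rcases DartMap.mem_tri.1 c with c | c | c
  · exact M.nx2_ne_nx w (DartMap.op_inj.1 c)
  · have k := h.cut.ind (Q := fun y => M.vtx K y = w →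
      y = w ∨ y = M.op (M.nx (M.nx w)) ∨ y = M.nx w)
      (fun y hy e => .inl (by rwa [h.cut.vtx_self hy] at e)) (fun y hy q e => by
        rcases q (by rwa [← h.cut.vtx_op y hy]) with r | r | r
        · exact .inr (.inl (by rw [DartMap.nx_eq_iff.1 r]))
        · exact .inr (.inr (by rw [DartMap.nx_inj.1 (r.trans c), M.op2]))
        · exact absurd (DartMap.nx_inj.1 r ▸ w1) hy) (M.nx (M.nx w))
      (u _ (h.cut.vtx_mem _) (by rwa [h.cl.vtx_mem_iff h.cut]))
    rcases k with r | r | r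
    exacts [M.nx2_ne w r, M.op_ne _ r.symm, M.nx2_ne_nx w r]
  · have k := ht.ind (Q := fun y => y = M.op (M.nx w) ∨ y = M.nx (M.nx w)) (.inr rfl)
      (fun y q => by
        rcases q with r | r
        · exact .inr (by rw [DartMap.nx_eq_iff.1 r, ← c, M.op2])
        · exact .inl (by rw [DartMap.nx_inj.1 r])) w
    rcases k with r | r
    exacts [h.cut.op_notMem p1 (r ▸ w1), p2 (r ▸ w1)]

theorem handle_ps {x : D} (h : M.Pants x) (ha : M.Ann (M.op (M.nx (M.nx x))) (M.op (M.nx x))) :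
    M.PS (M.triK x) (F9 M x) ∧ M.triK x \ F9 M x = {M.op x} :=
  ⟨(h.handle ha).1, (h.handle ha).2.2.1⟩

/-- the handle state of a crossing edge -/
theorem handle_of_itl (h : Adm ρ M L) {e a : D} (ha : Itl M e a) :
    ∃ (M' : DartMap D) (L' : D → Γ) (x : D), Adm ρ M' L' ∧ M'.Pants x ∧ M'.nx x = e ∧
      M'.Ann (M'.op (M'.nx (M'.nx x))) (M'.op (M'.nx x)) ∧ L' e = L e ∧
      L' (M'.nx e) = L a * (L e)⁻¹ * (L a)⁻¹ ∧
      L' x = (L e * L a * (L e)⁻¹ * (L a)⁻¹)⁻¹ := by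
  obtain ⟨M', L', q, mv, p, e1, an, l1, l2⟩ :=
    h.mark.x2A (by have := h.card; omega) ha.1 ha.2
  refine ⟨M', L', q, h.of_move mv, p, e1, by rwa [e1, mv.op], l1, l2, ?_⟩
  rw [eq_inv_of_mul_eq_one_right (DartMap.lab_cyc (mv.mark.lab.2 q)).1, e1, l1, l2, ← mul_assoc,
    ← mul_assoc]

end A25f44
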