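import Pool.Agent.Lib.MP_a25f44_gt.SStar

/-! The counting lemma with one finite vertex. -/

open scoped MatrixGroups
open Pool.Agent.Lib.MP_a25f44_gt Finset

noncomputable section

namespace A25f44

variable {D Γ : Type} [Group Γ] [Fintype D] [DecidableEq D] {ρ : Γ →* PSL(2, ℝ)}
  {M : DartMap D} {L : D → Γ} {K F : Finset D}

/-- a clockwise rotation by less than `π`, placed at its centre -/
def Spec (A : SL(2, ℝ)) (p : V) : Prop :=
  0 < tr A ∧ tr A < 2 ∧ Hyp p ∧ A • p = p ∧ rot A p < 0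

namespace SCount

lemma ang_neg {u v w : V} (hu : Cone u) (hv : Cone v) (hw : Cone w) (h : det3 u v w < 0) :
    angV u v w = -angV u w v := by
  by_cases h0 : nrm u = 0
  · have : B u u = 0 := by rw [← hu.nrm_sq, h0]; norm_num
    rw [angV_ideal hu hv hw this, angV_ideal hu hw hv this, neg_zero]
  · rw [angV_swap (mul_ne_zero h0 h.ne), neg_neg]

lemma ang_nonpos {u v w : V} (hu : Cone u) (hv : Cone v) (hw : Cone w) (h : det3 u v w < 0) :
    angV u v w ≤ 0 := by
  rw [ang_neg hu hv hw h, neg_nonpos]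
  exact (angV_nonneg_lt hu hw hv (by rw [det3_swap]; linarith)).1

lemma ang_sum_neg {u v w : V} (hu : Cone u) (hv : Cone v) (hw : Cone w) (h : det3 u v w < 0) :
    -Real.pi ≤ angV u v w + angV v w u + angV w u v := by
  have h' : 0 < det3 u w v := by rw [det3_swap]; linarith
  have g := gauss_bonnet hu hw hv h'
  have a := (Ar_pos_iff hu hw hv).2 h'
  rw [ang_neg hu hv hw h, ang_neg hv hw hu (by rwa [← det3_cyc]),
    ang_neg hw hu hv (by rwa [det3_cyc])]
  linarith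

lemma ang_flat {u v w : V} (h : det3 u v w = 0) : angV u v w = 0 ∨ angV u v w = Real.pi := by
  have e : (Tc u v w).im = 0 := by rw [Tc_im, h, mul_zero]
  rcases le_or_gt 0 (Tc u v w).re with a | a
  · exact Or.inl (Complex.arg_eq_zero_iff.2 ⟨a, e⟩)
  · exact Or.inr (Complex.arg_eq_pi_iff.2 ⟨a, e⟩)

lemma ang_two {u v w : V} (hu : Cone u) (hv : Cone v) (hw : Cone w)
    (h : angV u v w = Real.pi) : angV v w u ≠ Real.pi := by
  intro h'
  have a := (Complex.arg_eq_pi_iff.1 h).1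
  have b := (Complex.arg_eq_pi_iff.1 h').1
  rw [Tc_re] at a b
  rw [B_comm v u, B_comm w u] at b
  have c := hu.B_sq_ge hv
  have n1 := hu.B_nonneg hv
  have n2 := hu.B_nonneg hw
  have n3 := hv.B_nonneg hw
  have k := mul_lt_mul'' (sub_neg.1 a) (sub_neg.1 b) (mul_nonneg n1 n2) (mul_nonneg n3 n1)
  have := mul_le_mul_of_nonneg_right c (mul_nonneg n2 n3)
  nlinarith

lemma ang_par {u v : V} (hu : Cone u) (hv : Cone v) {μ : ℝ} (hμ : 0 < μ) :
    angV u v (μ • v) = 0 := by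
  refine Complex.arg_eq_zero_iff.2 ⟨?_, ?_⟩
  · rw [Tc_re, B_smul_right, B_smul_right]
    have := mul_le_mul_of_nonneg_left (hu.B_sq_ge hv) hμ.le
    nlinarith
  · rw [Tc_im, det3_smul_3, det3_self23, mul_zero, mul_zero]

omit [Fintype D] [DecidableEq D] in
lemma faceAng_nx2 (hL : M.IsLab L) (pos : D → V) (d : D) :
    faceAng M L ρ pos (M.nx (M.nx d)) = angV (ρ (L d * L (M.nx d)) • pos (M.nx (M.nx d))) (pos d)
      (ρ (L d) • pos (M.nx d)) := by
  unfold faceAng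
  rw [M.nx3, ← angV_psmul (ρ (L d * L (M.nx d))), ← mul_smul, ← mul_smul, ← map_mul, ← map_mul,
    hL.2 d, ← mul_assoc, hL.2 d, one_mul, map_one, one_smul]

/-- corners of a face that is not positive -/
lemma sub_sum (hL : M.IsLab L) {pos : D → V} (hp : ∀ d, Cone (pos d)) {x : D}
    (h : faceDet M L ρ pos x ≤ 0) {C : Finset D} (hC : C ⊆ M.tri x) :
    (-Real.pi ≤ ∑ d ∈ C, faceAng M L ρ pos d ∧ ∑ d ∈ C, faceAng M L ρ pos d ≤ 0) ∨
      ∑ d ∈ C, faceAng M L ρ pos d = Real.pi := by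
  rcases h.lt_or_eq with h | h
  · have a : ∀ d ∈ M.tri x, faceAng M L ρ pos d ≤ 0 := fun d hd =>
      ang_nonpos (hp _) ((hp _).psmul _) ((hp _).psmul _) ((faceDet_tri hL pos hd).trans_lt h)
    refine Or.inl ⟨?_, sum_nonpos fun d hd => a d (hC hd)⟩
    refine le_trans ?_ (sum_le_sum_of_subset_of_nonpos' hC fun d hd _ => a d hd)
    rw [M.sum_tri, faceAng_nx2 hL, faceAng_nx ρ hL]
    exact ang_sum_neg (hp _) ((hp _).psmul _) ((hp _).psmul _) h
  · have a : ∀ d ∈ M.tri x, faceAng M L ρ pos d = 0 ∨ faceAng M L ρ pos d = Real.pi :=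
      fun d hd => ang_flat ((faceDet_tri hL pos hd).trans h)
    have b : ∀ d, faceAng M L ρ pos d = Real.pi → faceAng M L ρ pos (M.nx d) ≠ Real.pi := by
      intro d hd
      rw [faceAng_nx ρ hL]
      exact ang_two (hp _) ((hp _).psmul _) ((hp _).psmul _) hd
    by_cases he : ∃ e ∈ C, faceAng M L ρ pos e = Real.pi
    · obtain ⟨e, eC, he⟩ := he
      refine Or.inr ((sum_eq_single_of_mem e eC fun d hd ne => ?_).trans he)
      refine (a d (hC hd)).resolve_right fun hd' => ?_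
      have : d ∈ M.tri e := by rw [DartMap.tri_eq_of_mem (hC eC)]; exact hC hd
      rcases DartMap.mem_tri.1 this with rfl | rfl | rfl
      · exact ne rfl
      · exact b e he hd'
      · exact b _ hd' (by rwa [M.nx3])
    · have : ∑ d ∈ C, faceAng M L ρ pos d = 0 :=
        sum_eq_zero fun d hd => (a d (hC hd)).resolve_right fun k => he ⟨d, hd, k⟩
      rw [this]
      exact Or.inl ⟨neg_nonpos.2 Real.pi_pos.le, le_rfl⟩

/-- corners of positive faces -/
lemma pos_sum (hL : M.IsLab L) {pos : D → V} (hp : ∀ d, Cone (pos d)) {N C : Finset D}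
    (hN : ∀ d ∈ N, M.nx d ∈ N) (h : ∀ d ∈ N, 0 < faceDet M L ρ pos d) (hC : C ⊆ N) :
    0 ≤ ∑ d ∈ C, faceAng M L ρ pos d ∧
      3 * ∑ d ∈ C, faceAng M L ρ pos d ≤ ∑ d ∈ N, (Real.pi - faceAr M L ρ pos d) := by
  have a : ∀ d ∈ N, 0 ≤ faceAng M L ρ pos d := fun d hd =>
    (angV_nonneg_lt (hp _) ((hp _).psmul _) ((hp _).psmul _) (h d hd)).1
  refine ⟨sum_nonneg fun d hd => a d (hC hd), ?_⟩
  have hc : M.Closed univ N := ⟨hN, fun d _ k => absurd (mem_univ d) k⟩
  have e1 := hc.sum_nx (faceAng M L ρ pos)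
  have e2 := hc.sum_nx fun d => faceAng M L ρ pos (M.nx d)
  have e3 := sum_le_sum_of_subset_of_nonneg (f := faceAng M L ρ pos) hC fun d hd _ => a d hd
  rw [← sum_congr rfl fun d hd => faceAng_sum ρ hL hp (h d hd), sum_add_distrib, sum_add_distrib]
  linarith

/-- the apex corner of a wall at a fixed point -/
lemma apex (hL : M.IsLab L) (hP : M.PS K F) {y : D → V} (hy : ∀ d, Cone (y d)) {w : D}
    (hw : w ∈ K \ F) {μ : ℝ} (hμ : 0 < μ) (hf : ρ (L w) • y w = μ • y w) :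
    faceAng M L ρ (fun d => y (M.vtx K d)) (M.nx (M.nx w)) = 0 := by
  obtain ⟨h1, h2⟩ := mem_sdiff.1 hw
  rw [faceAng_nx2 hL]
  simp only [hP.cut.vtx_self h1, hP.loop w h1 h2, hf]
  exact ang_par ((hy _).psmul _) (hy _) hμ

/-- no edge at the special vertex collapses -/
lemma noCol (hL : M.IsLab L) (hP : M.PS K F) {y : D → V} (hy : ∀ d, Cone (y d)) {r i x : D}
    (hr : r ∈ K \ F) (hp : Hyp (y r)) (hf : ρ (L r) • y r = y r) (hi : ρ (L i) • y i ≠ y i)
    (h1 : ∀ w ∈ K \ F, Hyp (y w) ∨ B (y w) (y w) = 0)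
    (h2 : ∀ w ∈ K \ F, Hyp (y w) → w = r ∨ w = i)
    (hz : ∀ e, e ∉ F → faceDet M L ρ (fun d => y (M.vtx K d)) e = 0 →
      e ∈ M.tri x ∨ e ∈ M.tri r ∨ ∃ w ∈ K \ F, B (y w) (y w) = 0 ∧ e ∈ M.tri w)
    {d : D} (hd : M.vtx K d = r) (hne : d ≠ r) : NonCol ρ M L (fun d => y (M.vtx K d)) d := by
  obtain ⟨rK, rF⟩ := mem_sdiff.1 hr
  have hK := hP.cut
  have hT := hK.tr
  have vW : ∀ e, e ∉ F → M.vtx K e ∈ K \ F := fun e he =>
    mem_sdiff.2 ⟨hK.vtx_mem e, fun k => he ((hP.cl.vtx_mem_iff hK e).1 k)⟩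
  have vo : ∀ e, e ∉ K → M.vtx K (M.op e) = M.vtx K (M.nx e) := hK.vtx_op
  have vo' : ∀ e, e ∉ K → M.vtx K (M.nx (M.op e)) = M.vtx K e := fun e he => by
    rw [← vo _ (hK.op_notMem he), M.op2]
  let Col : D → Prop := fun e => e ∉ K ∧ e ∉ F ∧ Hyp (y (M.vtx K e)) ∧
    Hyp (y (M.vtx K (M.nx e))) ∧ ρ (L e) • y (M.vtx K (M.nx e)) = y (M.vtx K e)
  have cop : ∀ e, Col e → Col (M.op e) := by
    rintro e ⟨a1, a2, a3, a4, a5⟩
    refine ⟨hK.op_notMem a1, fun k => a2 ((hP.cl.op_mem_iff hK.inv a1).1 k), ?_, ?_, ?_⟩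
    · rwa [vo e a1]
    · rwa [vo' e a1]
    · rw [vo e a1, vo' e a1, hL.1, map_inv, ← a5, inv_smul_smul]
  have cin : ∀ e, Col e → e ∈ M.tri x ∨ e ∈ M.tri r := by
    rintro e ⟨a1, a2, a3, a4, a5⟩
    have z : faceDet M L ρ (fun d => y (M.vtx K d)) e = 0 := by
      unfold faceDet
      simp only [a5, det3_self12]
    rcases hz e a2 z with k | k | ⟨w, hw, b, k⟩
    · exact Or.inl k
    · exact Or.inr k
    · exfalso
      obtain ⟨wK, wF⟩ := mem_sdiff.1 hw
      rcases DartMap.mem_tri.1 k with rfl | rfl | rfl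
      · exact a1 wK
      · rw [hP.loop w wK wF] at a3
        exact zero_ne_one (b.symm.trans a3.2)
      · rw [M.nx3, hK.vtx_self wK] at a4
        exact zero_ne_one (b.symm.trans a4.2)
  by_contra hn
  have dK : d ∉ K := fun k => hne ((hK.vtx_self k).symm.trans hd)
  have dF : d ∉ F := fun k => rF (hd ▸ (hP.cl.vtx_mem_iff hK d).2 k)
  have cd : Col d := by
    unfold NonCol at hn
    simp only [hd, hp.2, one_mul, not_lt] at hn
    have bp := hp.tim.B_pos ((hy (M.vtx K (M.nx d))).psmul (ρ (L d)))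
    have hq : Hyp (y (M.vtx K (M.nx d))) :=
      (h1 _ (vW _ fun k => dF ((hP.cl.nx_mem_iff d).1 k))).resolve_right fun k => by
        rw [k] at hn
        nlinarith
    refine ⟨dK, dF, hd ▸ hp, hq, ?_⟩
    rw [hq.2] at hn
    have b1 := hp.one_le_B (hq.psmul (ρ (L d)))
    rw [hd]
    exact (hp.eq_of_B_eq_one (hq.psmul _) (by nlinarith)).symm
  obtain ⟨aK, bK⟩ := hP.nx_notMem rK rF
  have aF : M.nx r ∉ F := fun k => rF ((hP.cl.nx_mem_iff r).1 k)
  have bF : M.nx (M.nx r) ∉ F := fun k => aF ((hP.cl.nx_mem_iff _).1 k)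
  have va : M.vtx K (M.nx r) = r := hP.loop r rK rF
  have vr : M.vtx K (M.nx (M.nx (M.nx r))) = r := by rw [M.nx3, hK.vtx_self rK]
  have lab : ρ (L r) * ρ (L (M.nx r)) * ρ (L (M.nx (M.nx r))) = 1 := by
    rw [← map_mul, ← map_mul, hL.2, map_one]
  have cab : Col (M.nx r) ↔ Col (M.nx (M.nx r)) := by
    constructor
    · rintro ⟨-, -, -, a4, a5⟩
      refine ⟨bK, bF, a4, by rwa [vr], ?_⟩
      rw [va] at a5
      rw [vr, eq_inv_of_mul_eq_one_right lab, inv_smul_eq_iff, mul_smul, a5, hf]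
    · rintro ⟨-, -, a3, -, a5⟩
      refine ⟨aK, aF, by rwa [va], a3, ?_⟩
      rw [vr] at a5
      rw [mul_assoc] at lab
      rw [va, ← a5, ← mul_smul, eq_inv_of_mul_eq_one_right lab, inv_smul_eq_iff, hf]
  have key : ∀ e, Col e → e ∈ M.tri r → Col (M.nx r) := by
    intro e ce k
    rcases DartMap.mem_tri.1 k with rfl | rfl | rfl
    exacts [absurd rK ce.1, ce, cab.2 ce]
  have ca : Col (M.nx r) := by
    rcases cin d cd with k | k
    · exact key _ (cop d cd) ((cin _ (cop d cd)).resolve_left (hT.op_notMem_tri k))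
    · exact key d cd k
  have cb := cab.1 ca
  have ta : M.nx r ∈ M.tri r := DartMap.mem_tri.2 (Or.inr (Or.inl rfl))
  have tb : M.nx (M.nx r) ∈ M.tri r := DartMap.mem_tri.2 (Or.inr (Or.inr rfl))
  have oa := (cin _ (cop _ ca)).resolve_right (hT.op_notMem_tri ta)
  have ob := (cin _ (cop _ cb)).resolve_right (hT.op_notMem_tri tb)
  have ob' := ob
  rw [← DartMap.tri_eq_of_mem oa] at ob'
  rcases DartMap.mem_tri.1 ob' with k | k | k
  · exact M.nx_ne _ (DartMap.op_inj.1 k)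
  · have star : ∀ e, M.vtx K e = r → e = r ∨ e = M.op (M.nx (M.nx r)) ∨ e = M.nx r := by
      refine hK.ind (fun w hw e => Or.inl ((hK.vtx_self hw).symm.trans e)) fun e eK ih v => ?_
      rcases ih ((vo e eK).symm.trans v) with c | c | c
      · exact Or.inr (Or.inl (by rw [DartMap.nx_eq_iff.1 c]))
      · exact Or.inr (Or.inr (by rw [DartMap.nx_inj.1 (c.trans k), M.op2]))
      · exact absurd (DartMap.nx_inj.1 c ▸ rK) eK
    have vb : M.vtx K (M.nx (M.nx r)) = i := by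
      refine (h2 _ (vW _ bF) cb.2.2.1).resolve_left fun v => ?_
      rcases star _ v with c | c | c
      exacts [M.nx2_ne r c, M.op_ne _ c.symm, M.nx2_ne_nx r c]
    set t := M.nx (M.op (M.nx (M.nx r))) with ht
    have nt : M.nx t = M.op (M.nx r) := by rw [ht, k, M.nx3]
    have vt : M.vtx K t = i := (vo' _ bK).trans vb
    have vt' : M.vtx K (M.nx t) = i := by rw [nt, vo _ aK, vb]
    have lt : L t = L (M.nx (M.nx r)) * L (M.nx r) := by
      have := hL.2 (M.op (M.nx r))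
      rw [← k, ← ht, hL.1, hL.1] at this
      rw [eq_inv_of_mul_eq_one_right this]
      group
    have ft : ρ (L t) • y i = y i := by
      have a5 := ca.2.2.2.2
      have b5 := cb.2.2.2.2
      rw [vb, va] at a5
      rw [vb, vr] at b5
      rw [lt, map_mul, mul_smul, a5, b5]
    have hq : Hyp (y i) := vb ▸ cb.2.2.1
    by_cases tK : t ∈ K
    · rw [(hK.vtx_self tK).symm.trans vt] at ft
      exact hi ft
    · have tF : t ∉ F := fun c => (cop _ cb).2.1 ((hP.cl.nx_mem_iff _).1 c)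
      have ct : Col t := ⟨tK, tF, vt ▸ hq, vt' ▸ hq, by rw [vt, vt', ft]⟩
      have tx : t ∈ M.tri x := DartMap.nx_mem_tri.2 ob
      rcases DartMap.mem_tri.1 ((cin _ (cop _ ct)).resolve_left (hT.op_notMem_tri tx)) with
        c | c | c
      · exact (cop _ ct).1 (c ▸ rK)
      · exact M.nx_ne t (nt.trans (DartMap.op_eq_iff.1 c).symm)
      · exact M.nx_ne _ (ht.symm.trans (DartMap.op_eq_iff.1 c))
  · have := hT.ind (Q := fun e => e = M.nx (M.nx r) ∨ e = M.op (M.nx r)) (Or.inl rfl)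
      (fun e c => by
        rcases c with c | c
        · exact Or.inr (by rw [DartMap.nx_inj.1 c])
        · exact Or.inl (by rw [DartMap.nx_eq_iff.1 c, ← k, M.op2])) r
    rcases this with c | c
    · exact M.nx2_ne r c.symm
    · exact hT.op_notMem_tri ta (c ▸ DartMap.mem_tri.2 (Or.inl rfl))

/-- the defect of the faces that are not faces of walls at fixed points -/
lemma budget (hL : M.IsLab L) (hP : M.PS K F) {y : D → V} (hy : ∀ d, Cone (y d))
    {A : D → SL(2, ℝ)} {X : Finset D} (hX : X ⊆ K \ F)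
    (hf : ∀ w ∈ X, ∃ μ : ℝ, 0 < μ ∧ ρ (L w) • y w = μ • y w)
    (hb : bud ρ M L K F A y = 3 * Real.pi * (K \ F).card) :
    ∑ d ∈ Fᶜ \ X.biUnion M.tri, (Real.pi - faceAr M L ρ (fun d => y (M.vtx K d)) d) =
      3 * ∑ w ∈ K \ F, ((if w ∈ X then 0 else Real.pi) - qa (A w) (y w)) := by
  have hs : X.biUnion M.tri ⊆ Fᶜ := by
    intro d hd
    obtain ⟨w, hw, k⟩ := mem_biUnion.1 hd
    refine (hP.cl.compl hP.cut.inv).tri_subset (mem_compl.2 (mem_sdiff.1 (hX hw)).2) k
  have e1 := sum_sdiff (f := fun d => Real.pi - faceAr M L ρ (fun d => y (M.vtx K d)) d) hs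
  have e2 : ∑ d ∈ X.biUnion M.tri, (Real.pi - faceAr M L ρ (fun d => y (M.vtx K d)) d) =
      ∑ _w ∈ X, 3 * Real.pi := by
    rw [sum_biUnion fun v hv w hw ne => DartMap.tri_disjoint fun k =>
      ne (wall_tri hP (hX hv) (mem_sdiff.1 (hX hw)).1 k).symm]
    refine sum_congr rfl fun w hw => ?_
    obtain ⟨μ, hμ, k⟩ := hf w hw
    rw [sum_congr rfl fun d hd => by
      rw [faceAr_tri hL _ hd, (faceAr_fix hP hy (hX hw) hμ k).1, sub_zero]]
    simp [M.card_tri]
  have e3 : ∑ w ∈ K \ F, (if w ∈ X then 0 else Real.pi) =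
      Real.pi * (K \ F).card - Real.pi * X.card := by
    rw [← sum_sdiff hX, sum_congr rfl fun w hw => if_neg (mem_sdiff.1 hw).2,
      sum_congr rfl fun w hw => if_pos hw, ← card_sdiff_add_card_eq_card hX]
    simp only [sum_const, nsmul_eq_mul, Nat.cast_add]
    ring
  rw [sum_const, nsmul_eq_mul] at e2
  unfold bud at hb
  rw [sum_sub_distrib (s := K \ F), e3]
  linarith

end SCount

open SCount in
/-- at most one finite non elliptic vertex `i` -/
theorem count1 (hL : M.IsLab L) (hP : M.PS K F) {y : D → V} (hy : ∀ d, Cone (y d)) (r i : D)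
    (hw : ∀ w ∈ K \ F, (w = r ∧ Spec (lf ρ L w) (y w)) ∨ (2 ≤ tr (lf ρ L w) ∧
      ((w = i ∧ Hyp (y w) ∧ 0 < rot (lf ρ L w) (y w)) ∨
        (B (y w) (y w) = 0 ∧ 0 ≤ rot (lf ρ L w) (y w)))))
    (hb : bud ρ M L K F (lf ρ L) y = 3 * Real.pi * (K \ F).card) {d : D} (hd : d ∉ F)
    (h0 : ∀ w ∈ K \ F, d ∈ M.tri w → 0 < rot (lf ρ L w) (y w)) :
    0 < faceDet M L ρ (fun d => y (M.vtx K d)) d := by
  classical
  by_contra hneg
  rw [not_lt] at hneg
  have hp : ∀ e, Cone (y (M.vtx K e)) := fun e => hy _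
  have pi0 := Real.pi_pos
  set X := (K \ F).filter fun w => rot (lf ρ L w) (y w) ≤ 0 with hXdef
  have hX : X ⊆ K \ F := filter_subset _ _
  have hXt : ∀ w ∈ X, (w = r ∧ Spec (lf ρ L w) (y w)) ∨
      (B (y w) (y w) = 0 ∧ rot (lf ρ L w) (y w) = 0) := by
    intro w k
    obtain ⟨k1, k2⟩ := mem_filter.1 k
    rcases hw w k1 with a | ⟨-, a | a⟩
    exacts [Or.inl a, absurd a.2.2 (not_lt.2 k2), Or.inr ⟨a.1, k2.antisymm a.2⟩]
  have hf : ∀ w ∈ X, ∃ μ : ℝ, 0 < μ ∧ ρ (L w) • y w = μ • y w := by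
    intro w k
    rw [← lf_smul]
    rcases hXt w k with a | a
    · exact ⟨1, one_pos, by rw [a.2.2.2.2.1, one_smul]⟩
    · exact Idl.fix ⟨hy w, a.1⟩ a.2
  have hB := budget hL hP hy hX hf hb
  set N := Fᶜ \ X.biUnion M.tri with hN
  have memN : ∀ e, e ∈ N ↔ e ∉ F ∧ ∀ w ∈ X, e ∉ M.tri w := fun e => by
    simp only [hN, mem_sdiff, mem_compl, mem_biUnion, not_exists, not_and]
  have nxN : ∀ e, M.nx e ∈ N ↔ e ∈ N := fun e => by
    simp only [memN, hP.cl.nx_mem_iff, DartMap.nx_mem_tri]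
  have dN : d ∈ N := (memN d).2 ⟨hd, fun w k t =>
    absurd (h0 w (hX k) t) (not_lt.2 (mem_filter.1 k).2)⟩
  have triN : ∀ e ∈ N, M.tri e ⊆ N := by
    intro e he z hz
    rcases DartMap.mem_tri.1 hz with rfl | rfl | rfl
    exacts [he, (nxN _).2 he, (nxN _).2 ((nxN _).2 he)]
  have tri3 : ∀ e, ∑ z ∈ M.tri e, (Real.pi - faceAr M L ρ (fun d => y (M.vtx K d)) z) =
      3 * (Real.pi - faceAr M L ρ (fun d => y (M.vtx K d)) e) := fun e => by
    rw [sum_congr rfl fun z hz => by rw [faceAr_tri hL _ hz]]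
    rw [sum_const, M.card_tri, nsmul_eq_mul, Nat.cast_ofNat]
  have hsplit := sum_sdiff (f := fun z => Real.pi - faceAr M L ρ (fun d => y (M.vtx K d)) z)
    (triN d dN)
  rw [tri3] at hsplit
  have hα : faceAr M L ρ (fun d => y (M.vtx K d)) d ≤ 0 :=
    (Ar_nonpos_iff (hp _) ((hp _).psmul _) ((hp _).psmul _)).2 hneg
  have hR : 0 ≤ ∑ z ∈ N \ M.tri d, (Real.pi - faceAr M L ρ (fun d => y (M.vtx K d)) z) :=
    sum_nonneg fun z _ => def_nonneg hp z
  let S : Prop := r ∈ K \ F ∧ Spec (lf ρ L r) (y r)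
  let T : Prop := i ∈ K \ F ∧ 2 ≤ tr (lf ρ L i) ∧ Hyp (y i) ∧ 0 < rot (lf ρ L i) (y i)
  let θ : ℝ := if S then -qa (lf ρ L r) (y r) else 0
  let φ : ℝ := if T then Real.pi - qa (lf ρ L i) (y i) else 0
  have θ1 : 0 ≤ θ ∧ θ < Real.pi := by
    by_cases k : S
    · have a := (qa_neg_iff _ _).2 k.2.2.2.2.2
      have b := abs_lt.1 (abs_qa_lt k.2.1 k.2.2.2.1.tim)
      simp only [θ, if_pos k]
      constructor <;> linarith [b.1]
    · simp only [θ, if_neg k]
      exact ⟨le_rfl, pi0⟩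
  have φ1 : 0 ≤ φ ∧ φ < Real.pi := by
    by_cases k : T
    · have a := (qa_pos_iff (zero_le_two.trans k.2.1) _).2 k.2.2.2
      have b := abs_le.1 (abs_qa_le (zero_le_two.trans k.2.1) (y i))
      simp only [φ, if_pos k]
      constructor <;> linarith [b.2]
    · simp only [φ, if_neg k]
      exact ⟨le_rfl, pi0⟩
  have hg : ∑ w ∈ K \ F, ((if w ∈ X then 0 else Real.pi) - qa (lf ρ L w) (y w)) ≤ θ + φ := by
    have t1 : ∀ (a : D) (c : ℝ), 0 ≤ c → ∑ w ∈ K \ F, (if w = a then c else 0) ≤ c := by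
      intro a c hc
      rw [sum_ite_eq']
      split_ifs
      exacts [le_rfl, hc]
    have t2 : ∀ (a w : D) (c : ℝ), 0 ≤ c → 0 ≤ (if w = a then c else 0) := by
      intro a w c hc
      split_ifs
      exacts [hc, le_rfl]
    refine le_trans (sum_le_sum (g := fun w => (if w = r then θ else 0) + if w = i then φ else 0)
      fun w k => ?_) ?_
    · have a1 := t2 r w θ θ1.1
      have a2 := t2 i w φ φ1.1
      rcases hw w k with ⟨rfl, a⟩ | ⟨b, ⟨rfl, a⟩ | a⟩
      · rw [if_pos (show w ∈ X from mem_filter.2 ⟨k, a.2.2.2.2.le⟩), if_pos rfl]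
        simp only [θ, if_pos (show S from ⟨k, a⟩)]
        linarith
      · rw [if_neg (show w ∉ X from fun c => absurd a.2 (not_lt.2 (mem_filter.1 c).2)),
          if_pos (rfl : w = w)]
        simp only [φ, if_pos (show T from ⟨k, b, a⟩)]
        linarith
      · rcases a.2.eq_or_lt with c | c
        · rw [if_pos (show w ∈ X from mem_filter.2 ⟨k, c.ge⟩),
            (qa_eq_zero_iff (zero_le_two.trans b) _).2 c.symm]
          linarith
        · rw [if_neg (show w ∉ X from fun c' => absurd c (not_lt.2 (mem_filter.1 c').2)),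
            qa_idl a.1 c]
          linarith
    · rw [sum_add_distrib]
      exact add_le_add (t1 r θ θ1.1) (t1 i φ φ1.1)
  have hS : S := by
    by_contra k
    have : θ = 0 := if_neg k
    linarith [φ1.2]
  have hT : T := by
    by_contra k
    have : φ = 0 := if_neg k
    linarith [θ1.2]
  obtain ⟨rW, s1, s2, s3, s4, s5⟩ := id hS
  have hRθ : ∑ z ∈ N \ M.tri d, (Real.pi - faceAr M L ρ (fun d => y (M.vtx K d)) z) < 3 * θ := by
    linarith [φ1.2]
  have nx' : ∀ e ∈ N \ M.tri d, M.nx e ∈ N \ M.tri d := fun e he =>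
    mem_sdiff.2 ⟨(nxN e).2 (mem_sdiff.1 he).1, fun k => (mem_sdiff.1 he).2 (DartMap.nx_mem_tri.1 k)⟩
  have hpos : ∀ e ∈ N \ M.tri d, 0 < faceDet M L ρ (fun d => y (M.vtx K d)) e := by
    intro e he
    have sub : M.tri e ⊆ N \ M.tri d := by
      intro z hz
      rcases DartMap.mem_tri.1 hz with rfl | rfl | rfl
      exacts [he, nx' _ he, nx' _ (nx' _ he)]
    have := sum_le_sum_of_subset_of_nonneg
      (f := fun z => Real.pi - faceAr M L ρ (fun d => y (M.vtx K d)) z) sub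
      fun z _ _ => def_nonneg hp z
    rw [tri3] at this
    exact det_pos_of_def hp (by linarith [θ1.2])
  have hc : ∀ e, M.vtx K e = r → e ≠ r → NonCol ρ M L (fun d => y (M.vtx K d)) e := by
    refine fun e h1 h2 => noCol (i := i) (x := d) hL hP hy rW s3 (by rw [← lf_smul, s4]) ?_ ?_ ?_ ?_
      h1 h2
    · rw [← lf_smul]
      intro k
      have := B_smul_self (lf ρ L i) (y i)
      rw [k, hT.2.2.1.2] at this
      nlinarith [hT.2.1, hT.2.2.2]
    · intro w k
      rcases hw w k with a | ⟨-, a | a⟩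
      exacts [Or.inl a.2.2.2.1, Or.inl a.2.1, Or.inr a.1]
    · intro w k h
      rcases hw w k with a | ⟨-, a | a⟩
      exacts [Or.inl a.1, Or.inr a.1, absurd (a.1.symm.trans h.2) zero_ne_one]
    · intro z zF z0
      by_cases k : z ∈ N
      · exact Or.inl (by_contra fun c => (hpos z (mem_sdiff.2 ⟨k, c⟩)).ne' z0)
      · rw [memN] at k
        push Not at k
        obtain ⟨w, k1, k2⟩ := k zF
        rcases hXt w k1 with a | a
        exacts [Or.inr (Or.inl (a.1 ▸ k2)), Or.inr (Or.inr ⟨w, hX k1, a.1, k2⟩)]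
  have hstar := star0 hL hP hy rW s3 (lf_mk L r) s4 hc
  have hθ : θ = -qa (lf ρ L r) (y r) := if_pos hS
  rw [← hθ] at hstar
  set C := univ.filter fun e => M.vtx K e = r ∧ e ≠ r ∧ e ≠ M.nx r with hC
  have e1 : starS ρ M L K y r = ∑ e ∈ C ∩ N, faceAng M L ρ (fun d => y (M.vtx K d)) e := by
    refine (sum_subset inter_subset_left fun e he k => ?_).symm
    obtain ⟨c1, c2, c3⟩ := (mem_filter.1 he).2
    have eF : e ∉ F := fun c => (mem_sdiff.1 rW).2 (c1 ▸ (hP.cl.vtx_mem_iff hP.cut e).2 c)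
    have k' : e ∉ N := fun c => k (mem_inter.2 ⟨he, c⟩)
    rw [memN] at k'
    push Not at k'
    obtain ⟨w, k1, k2⟩ := k' eF
    obtain ⟨wK, wF⟩ := mem_sdiff.1 (hX k1)
    obtain ⟨μ, hμ, f⟩ := hf w k1
    rcases DartMap.mem_tri.1 k2 with rfl | rfl | rfl
    · exact absurd ((hP.cut.vtx_self wK).symm.trans c1) c2
    · exact absurd (by rw [(hP.loop w wK wF).symm.trans c1]) c3
    · exact apex hL hP hy (hX k1) hμ f
  have e2 := sum_inter_add_sum_sdiff (C ∩ N) (M.tri d) (faceAng M L ρ fun d => y (M.vtx K d))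
  have b1 := sub_sum hL hp hneg (C := C ∩ N ∩ M.tri d) inter_subset_right
  have b2 := pos_sum hL hp nx' hpos (C := (C ∩ N) \ M.tri d)
    (sdiff_subset_sdiff inter_subset_right Subset.rfl)
  have fin : starS ρ M L K y r = θ := by
    refine eq_of_angle_eq hstar (abs_lt.2 ⟨?_, ?_⟩) <;> rcases b1 with b1 | b1
    · linarith [b1.1, b2.1, θ1.2]
    · linarith [b2.1, θ1.2]
    · linarith [b1.2, b2.2]
    · linarith [b2.2]
  rcases b1 with b1 | b1
  · linarith [b1.2, b2.2]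
  · linarith [b2.1, θ1.2]

end A25f44
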