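import Pool.Agent.Lib.MP_a25f44_gt.SStar

/-! No edge has trivial holonomy; separating half turns. -/

open scoped MatrixGroups
open Pool.Agent.Lib.MP_a25f44_gt Finset

noncomputable section

namespace A25f44

variable {D Γ : Type} [Group Γ] [Fintype D] [DecidableEq D] {ρ : Γ →* PSL(2, ℝ)}
  {M : DartMap D} {L : D → Γ} {K F : Finset D}

lemma SNoId.angle {S θ : ℝ} (hS : 0 < S) (h : (S : Real.Angle) = (θ : Real.Angle))
    (hθ : θ ≤ 0) : θ + 2 * Real.pi ≤ S := by
  obtain ⟨k, hk⟩ := Real.Angle.angle_eq_iff_two_pi_dvd_sub.1 h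
  have hp := Real.pi_pos
  have h1 : (0 : ℝ) < k := by
    by_contra hc
    push Not at hc
    nlinarith
  have h2 : (1 : ℝ) ≤ k := by
    have : 0 < k := by exact_mod_cast h1
    exact_mod_cast this
  nlinarith

lemma SNoId.angle_pi {S θ : ℝ} (hS : 0 < S) (h : (S : Real.Angle) = (θ : Real.Angle))
    (hθ : θ = Real.pi ∨ θ = -Real.pi) : Real.pi ≤ S := by
  have : (S : Real.Angle) = ((-Real.pi : ℝ) : Real.Angle) := by
    rcases hθ with rfl | rfl
    · rw [h]; simp
    · exact h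
  have := SNoId.angle hS this (by linarith [Real.pi_pos])
  linarith

/-- one wall with trivial holonomy needs more than `6 π` -/
lemma SNoId.triv (hL : M.IsLab L) (hP : M.PS K F) {w : D} (hw : K \ F = {w}) (h1 : ρ (L w) = 1) :
    6 * Real.pi < ∑ d ∈ Fᶜ, (Real.pi - faceAr M L ρ (fun _ => oV) d) := by
  by_contra hc
  push Not at hc
  obtain ⟨-, S, hS, hA, hb⟩ := one_wall hL hP hw hyp_oV (by rw [h1, one_smul]) hc
  have e : lf ρ L w = 1 := cl_eq_one.2 h1
  rw [e, qa_one, neg_zero] at hA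
  have := SNoId.angle hS hA le_rfl
  linarith [Real.pi_pos]

lemma SNoId.split (h : Adm ρ M L) {o : V} (ho : Cone o) (C : Finset D) :
    ∑ d ∈ Cᶜ, (Real.pi - faceAr M L ρ (fun _ => o) d) +
      ∑ d ∈ C, (Real.pi - faceAr M L ρ (fun _ => o) d) = 12 * Real.pi := by
  rw [← h.total ho, add_comm, sum_add_sum_compl]

lemma SNoId.face_triv (hL : M.IsLab L) {x : D} (h1 : ρ (L x) = 1) {d : D} (hd : d ∈ M.tri x) :
    faceAr M L ρ (fun _ => oV) d = 0 := by
  rw [faceAr_tri hL _ hd, faceAr_const]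
  have e : lf ρ L x = 1 := cl_eq_one.2 h1
  rw [e, one_smul]
  exact Ar_self12 hyp_oV.cone (hyp_oV.cone.smul _)

theorem no_id (h : Adm ρ M L) (d : D) : ρ (L d) ≠ 1 := by
  intro h1
  have hp := Real.pi_pos
  rcases sep_or h.mark.tr d with ⟨a, ha⟩ | ⟨C, c1, c2, c3, c4⟩
  · obtain ⟨M', L', x, hA, hx, hn, hAnn, e1, -, e3⟩ := handle_of_itl h ha
    obtain ⟨p1, p2⟩ := handle_ps hx hAnn
    have hL := hA.mark.lab
    have t1 : ρ (L' x) = 1 := by rw [e3]; simp [h1]
    have t2 : ρ (L' (M'.op x)) = 1 := by rw [hL.1, map_inv, t1, inv_one]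
    have t3 : ρ (L' (M'.op (M'.nx x))) = 1 := by rw [hL.1, map_inv, hn, e1, h1, inv_one]
    have k1 := SNoId.triv hL p1 p2 t2
    have k2 := SNoId.split hA hyp_oV.cone (F9 M' x)
    have hsub : M'.tri x ∪ M'.tri (M'.op (M'.nx x)) ⊆ F9 M' x := by
      intro y hy
      simp only [F9, mem_union] at hy ⊢
      tauto
    have hdis : Disjoint (M'.tri x) (M'.tri (M'.op (M'.nx x))) :=
      DartMap.tri_disjoint (hA.mark.tr.op_notMem_tri (DartMap.mem_tri.2 (Or.inr (Or.inl rfl))))
    have k3 : ∑ y ∈ M'.tri x ∪ M'.tri (M'.op (M'.nx x)),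
        (Real.pi - faceAr M' L' ρ (fun _ => oV) y) = 6 * Real.pi := by
      rw [sum_union hdis, sum_congr rfl fun y hy => by rw [SNoId.face_triv hL t1 hy],
        sum_congr (s₁ := M'.tri (M'.op (M'.nx x))) rfl
          fun y hy => by rw [SNoId.face_triv hL t3 hy]]
      simp only [sum_const, DartMap.card_tri, nsmul_eq_mul]
      push_cast
      ring
    have k4 := sum_le_sum_of_subset_of_nonneg hsub
      (f := fun y => Real.pi - faceAr M' L' ρ (fun _ => oV) y)
      fun y _ _ => def_nonneg (fun _ => hyp_oV.cone) y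
    linarith
  · have hL := h.mark.lab
    have k1 := SNoId.triv hL c1 c3 (by rw [hL.1, map_inv, h1, inv_one])
    have k2 := SNoId.triv hL c2 c4 h1
    rw [compl_compl] at k2
    have := SNoId.split h hyp_oV.cone C
    linarith

theorem lf_ne_one (h : Adm ρ M L) (d : D) : lf ρ L d ≠ 1 ∧ lf ρ L d ≠ -1 :=
  ⟨fun e => no_id h d (by rw [← lf_mk]; exact (mk_eq_one_iff _).2 (Or.inl e)),
    fun e => no_id h d (by rw [← lf_mk]; exact (mk_eq_one_iff _).2 (Or.inr e))⟩

lemma SNoId.qa_half {A : SL(2, ℝ)} (h0 : tr A = 0) {p : V} (hp : Hyp p) (hf : A • p = p) :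
    -qa A p = Real.pi ∨ -qa A p = -Real.pi := by
  have h1 := rot_centre_sq hp hf
  rw [h0] at h1
  have h2 : (rot A p - 1) * (rot A p + 1) = 0 := by linear_combination h1
  rcases mul_eq_zero.1 h2 with e | e
  · right
    have : al A p = Complex.I := by
      apply Complex.ext
      · simp [al_re, h0]
      · rw [al_im, Complex.I_im]; linarith
    rw [qa, this, Complex.arg_I]; ring
  · left
    have : al A p = -Complex.I := by
      apply Complex.ext
      · simp [al_re, h0]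
      · rw [al_im, Complex.neg_im, Complex.I_im]; linarith
    rw [qa, this, Complex.arg_neg_I]; ring

/-- one wall with a half turn -/
lemma SNoId.half (hL : M.IsLab L) (hP : M.PS K F) {w : D} (hw : K \ F = {w})
    (h0 : tr (lf ρ L w) = 0) {p : V} (hp : Hyp p) (hf : ρ (L w) • p = p) :
    6 * Real.pi ≤ ∑ d ∈ Fᶜ, (Real.pi - faceAr M L ρ (fun _ => p) d) := by
  by_contra hc
  push Not at hc
  obtain ⟨-, S, hS, hA, hb⟩ := one_wall hL hP hw hp hf hc.le
  have := SNoId.angle_pi hS hA (SNoId.qa_half h0 hp (by rw [lf_smul, hf]))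
  linarith

/-- a separating half turn -/
theorem half_sep (h : Adm ρ M L) {e : D} (h0 : tr (lf ρ L e) = 0) (hs : ¬∃ a, Itl M e a) {p : V}
    (hp : Hyp p) (hf : lf ρ L e • p = p) (d : D) (h1 : d ∉ M.tri e) (h2 : d ∉ M.tri (M.op e)) :
    0 < faceDet M L ρ (fun _ => p) d := by
  obtain ⟨C, c1, c2, c3, c4⟩ := (sep_or h.mark.tr e).resolve_left hs
  have hL := h.mark.lab
  rw [lf_smul] at hf
  have hf' : ρ (L (M.op e)) • p = p := by rw [hL.1, map_inv, inv_smul_eq_iff, hf]
  have k1 := SNoId.half hL c1 c3 (by rw [tr_lf_op hL, h0]) hp hf'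
  have k2 := SNoId.half hL c2 c4 h0 hp hf
  have k3 := SNoId.split h hp.cone C
  have k4 := SNoId.split h hp.cone Cᶜ
  by_cases hd : d ∈ C
  · exact (one_wall hL c2 c4 hp hf (by linarith)).1 d (by simpa using hd) h1
  · rw [compl_compl] at k2
    exact (one_wall hL c1 c3 hp hf' (by linarith)).1 d hd h2

end A25f44
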