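import Pool.Agent.Lib.MP_a25f44_gt.SCount
import Pool.Agent.Lib.MP_a25f44_gt.SNoId

/-! The counting lemma and the type of parabolic walls. -/

open scoped MatrixGroups
open Pool.Agent.Lib.MP_a25f44_gt Finset

noncomputable section

namespace A25f44

variable {D Γ : Type} [Group Γ] [Fintype D] [DecidableEq D] {ρ : Γ →* PSL(2, ℝ)}
  {M : DartMap D} {L : D → Γ} {K F : Finset D}

namespace SCountB

/-- admissible placements of the walls -/
def Ok (ρ : Γ →* PSL(2, ℝ)) (L : D → Γ) (K F : Finset D) (r : D) (y : D → V) : Prop :=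
  ∀ w ∈ K \ F, (w = r ∧ Spec (lf ρ L w) (y w)) ∨ (2 ≤ tr (lf ρ L w) ∧
    ((Hyp (y w) ∧ 0 < rot (lf ρ L w) (y w)) ∨ (B (y w) (y w) = 0 ∧ 0 ≤ rot (lf ρ L w) (y w))))

open Classical in
/-- finite non elliptic walls -/
def fin (ρ : Γ →* PSL(2, ℝ)) (L : D → Γ) (K F : Finset D) (y : D → V) : Finset D :=
  (K \ F).filter fun w => 2 ≤ tr (lf ρ L w) ∧ Hyp (y w)

omit [Fintype D] in
lemma mem_fin {y : D → V} {w : D} :
    w ∈ fin ρ L K F y ↔ w ∈ K \ F ∧ 2 ≤ tr (lf ρ L w) ∧ Hyp (y w) := by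
  simp only [fin, mem_filter]

omit [Fintype D] in
lemma Ok.reg {r : D} {y : D → V} (h : Ok ρ L K F r y) (hy : ∀ d, Cone (y d)) :
    Reg K F (lf ρ L) y :=
  ⟨hy, fun w hw => (h w hw).imp (fun k => k.2.2.2.1.tim) fun k => k.1⟩

omit [Fintype D] [DecidableEq D] in
lemma lifts (S : Finset D) : Lifts ρ L S (lf ρ L) := fun _ _ => ⟨cl_mk _, cl_tr _⟩

omit [Fintype D] in
lemma cone_upd {y : D → V} (hy : ∀ d, Cone (y d)) (j : D) {ζ : V} (hζ : Cone ζ) (d : D) :
    Cone (Function.update y j ζ d) := by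
  by_cases h : d = j
  · rw [h, Function.update_self]; exact hζ
  · rw [Function.update_of_ne h]; exact hy d

lemma not_tri (hP : M.PS K F) {j d : D} (hj : j ∈ K \ F) (h1 : M.vtx K (M.nx d) ≠ j)
    (h2 : M.vtx K (M.nx (M.nx d)) ≠ j) : d ∉ M.tri j := by
  obtain ⟨jK, jF⟩ := mem_sdiff.1 hj
  intro h
  rcases DartMap.mem_tri.1 h with rfl | rfl | rfl
  · exact h1 (hP.loop _ jK jF)
  · rw [M.nx3] at h2
    exact h2 (hP.cut.vtx_self jK)
  · rw [M.nx3] at h1
    exact h1 (hP.cut.vtx_self jK)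

omit [Fintype D] in
lemma pigeon {a b c i j : D} {P : Prop} (hij : i ≠ j) (h1 : b ≠ i → c ≠ i → P)
    (h2 : c ≠ i → a ≠ i → P) (h3 : a ≠ i → b ≠ i → P) (k1 : b ≠ j → c ≠ j → P)
    (k2 : c ≠ j → a ≠ j → P) (k3 : a ≠ j → b ≠ j → P) : P := by
  by_cases ha : a = i
  · by_cases hb : b = i
    · exact k3 (ha ▸ hij) (hb ▸ hij)
    · by_cases hc : c = i
      · exact k2 (hc ▸ hij) (ha ▸ hij)
      · exact h1 hb hc
  · by_cases hb : b = i
    · by_cases hc : c = i
      · exact k1 (hb ▸ hij) (hc ▸ hij)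
      · exact h2 hc ha
    · exact h3 ha hb

theorem aux (hL : M.IsLab L) (hP : M.PS K F) (r : D) (n : ℕ) : ∀ y : D → V,
    (fin ρ L K F y).card = n → (∀ d, Cone (y d)) → Ok ρ L K F r y →
    bud ρ M L K F (lf ρ L) y = 3 * Real.pi * (K \ F).card → ∀ d, d ∉ F →
    (∀ w ∈ K \ F, d ∈ M.tri w → 0 < rot (lf ρ L w) (y w)) →
    0 < faceDet M L ρ (fun d => y (M.vtx K d)) d := by
  induction n using Nat.strong_induction_on with | _ n ih => ?_
  intro y hn hy hw hb
  have key : ∀ j ∈ fin ρ L K F y, ∀ d, d ∉ F →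
      (∀ w ∈ K \ F, d ∈ M.tri w → 0 < rot (lf ρ L w) (y w)) → M.vtx K (M.nx d) ≠ j →
      M.vtx K (M.nx (M.nx d)) ≠ j → 0 < faceDet M L ρ (fun d => y (M.vtx K d)) d := by
    intro j hj d hd h0 h1 h2
    obtain ⟨jW, jt, jH⟩ := mem_fin.1 hj
    have upd : ∀ ζ, Idl ζ → 0 ≤ rot (lf ρ L j) ζ →
        0 < faceDet M L ρ (fun d => Function.update y j ζ (M.vtx K d)) d := by
      intro ζ hζ hr
      have c1 := cone_upd hy j hζ.1
      have c2 : Ok ρ L K F r (Function.update y j ζ) := fun w hw' => by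
        by_cases e : w = j
        · rw [e, Function.update_self]
          exact Or.inr ⟨jt, Or.inr ⟨hζ.2, hr⟩⟩
        · rw [Function.update_of_ne e]
          exact hw w hw'
      have c3 : fin ρ L K F (Function.update y j ζ) ⊆ (fin ρ L K F y).erase j := fun w k => by
        obtain ⟨k1, k2, k3⟩ := mem_fin.1 k
        have e : w ≠ j := by
          rintro rfl
          rw [Function.update_self] at k3
          have := k3.2
          rw [hζ.2] at this
          exact zero_ne_one this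
        rw [Function.update_of_ne e] at k3
        exact mem_erase.2 ⟨e, mem_fin.2 ⟨k1, k2, k3⟩⟩
      refine ih _ (hn ▸ (card_le_card c3).trans_lt (card_erase_lt_of_mem hj)) _ rfl c1 c2
        ((bud_indep hL hP (lifts _) (c2.reg c1) (hw.reg hy)).trans hb) d hd fun w k1 k2 => ?_
      have e : w ≠ j := by
        rintro rfl
        exact not_tri hP jW h1 h2 k2
      rw [Function.update_of_ne e]
      exact h0 w k1 k2
    obtain ⟨ξ, hξ, r0⟩ := exists_fix (A := lf ρ L j) (jt.trans (le_abs_self _))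
    have p1 := upd ξ hξ r0.ge
    by_cases e : M.vtx K d = j
    · obtain ⟨a, b, ζ, ha, hb', hζ, hy'⟩ := decomp_idl hξ jH.tim
      have r1 : 0 ≤ rot (lf ρ L j) (y j) := by
        rcases hw j jW with k | ⟨-, k | k⟩
        · linarith [k.2.2.1]
        · exact k.2.le
        · exact k.2
      rw [hy', rot_add, rot_smul, rot_smul, r0, mul_zero, zero_add] at r1
      have p2 := upd ζ hζ (nonneg_of_mul_nonneg_right r1 hb')
      simp only [faceDet, e, Function.update_self, Function.update_of_ne h1,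
        Function.update_of_ne h2] at p1 p2 ⊢
      rw [hy', det3_add_1, det3_smul_1, det3_smul_1]
      exact add_pos (mul_pos ha p1) (mul_pos hb' p2)
    · simpa only [faceDet, Function.update_of_ne e, Function.update_of_ne h1,
        Function.update_of_ne h2] using p1
  intro d hd h0
  by_cases hc : (fin ρ L K F y).card ≤ 1
  · have : Nonempty D := ⟨d⟩
    obtain ⟨i, hi⟩ := card_le_one_iff_subset_singleton.1 hc
    refine count1 hL hP hy r i (fun w k => (hw w k).imp id fun k1 => ⟨k1.1, k1.2.imp_left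
      fun k2 => ⟨mem_singleton.1 (hi (mem_fin.2 ⟨k, k1.1, k2.1⟩)), k2⟩⟩) hb hd h0
  · obtain ⟨i, hi, j, hj, hij⟩ := one_lt_card.1 (not_le.1 hc)
    have hd1 : M.nx d ∉ F := fun k => hd ((hP.cl.nx_mem_iff d).1 k)
    have hd2 : M.nx (M.nx d) ∉ F := fun k => hd1 ((hP.cl.nx_mem_iff _).1 k)
    have t1 := fun w k1 k2 => h0 w k1 (DartMap.nx_mem_tri.1 k2)
    have t2 := fun w k1 k2 => t1 w k1 (DartMap.nx_mem_tri.1 k2)
    have k0 := fun j hj => key j hj d hd h0
    have k1 := fun j hj => key j hj _ hd1 t1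
    have k2 := fun j hj => key j hj _ hd2 t2
    simp only [M.nx3, faceDet_nx ρ hL] at k1 k2
    exact pigeon hij (k0 i hi) (k1 i hi) (k2 i hi) (k0 j hj) (k1 j hj) (k2 j hj)

end SCountB

theorem count (hL : M.IsLab L) (hP : M.PS K F) {y : D → V} (hy : ∀ d, Cone (y d)) (r : D)
    (hw : ∀ w ∈ K \ F, (w = r ∧ Spec (lf ρ L w) (y w)) ∨ (2 ≤ tr (lf ρ L w) ∧
      ((Hyp (y w) ∧ 0 < rot (lf ρ L w) (y w)) ∨
        (B (y w) (y w) = 0 ∧ 0 ≤ rot (lf ρ L w) (y w)))))
    (hb : bud ρ M L K F (lf ρ L) y = 3 * Real.pi * (K \ F).card) {d : D} (hd : d ∉ F)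
    (h0 : ∀ w ∈ K \ F, d ∈ M.tri w → 0 < rot (lf ρ L w) (y w)) :
    0 < faceDet M L ρ (fun d => y (M.vtx K d)) d :=
  SCountB.aux hL hP r _ y rfl hy hw hb d hd h0

/-- parabolic walls are cusps -/
theorem np (h : Adm ρ M L) (hP : M.PS K F) (hn : M.NoAnn K F)
    (hne : ∀ w ∈ K \ F, 2 ≤ tr (lf ρ L w)) {y : D → V} (hy : ∀ d, Cone (y d))
    (hb : bud ρ M L K F (lf ρ L) y = 3 * Real.pi * (K \ F).card) {w : D} (hw : w ∈ K \ F)
    (h2 : tr (lf ρ L w) = 2) : rot (lf ρ L w) oV < 0 := by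
  have hL := h.mark.lab
  have ht : |tr (lf ρ L w)| ≤ 2 := by rw [h2]; norm_num
  by_contra hcon
  have r0 : 0 < rot (lf ρ L w) oV := lt_of_le_of_ne (not_lt.1 hcon)
    (rot_ne_zero ht (lf_ne_one h w).1 (lf_ne_one h w).2 hyp_oV.tim).symm
  have hfix : ∀ v, ∃ ξ, Cone ξ ∧ (v ∈ K \ F → Idl ξ ∧ rot (lf ρ L v) ξ = 0) := fun v => by
    by_cases hv : v ∈ K \ F
    · obtain ⟨ξ, k1, k2⟩ := exists_fix (A := lf ρ L v) ((hne v hv).trans (le_abs_self _))
      exact ⟨ξ, k1.1, fun _ => ⟨k1, k2⟩⟩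
    · exact ⟨oV, hyp_oV.cone, fun k => absurd k hv⟩
  choose z hz hz' using hfix
  obtain ⟨wK, wF⟩ := mem_sdiff.1 hw
  obtain ⟨d, hg, hd⟩ := hP.exists_good hn wK wF
  have key : ∀ p, Cone p → Hyp p ∨ B p p = 0 →
      0 < faceDet M L ρ (fun d => Function.update z w p (M.vtx K d)) d := by
    intro p hp hp'
    have c1 := SCountB.cone_upd hz w hp
    refine count hL hP c1 w (fun v hv => Or.inr ⟨hne v hv, ?_⟩)
      ((bud_indep hL hP (SCountB.lifts _) ⟨c1, fun v hv => Or.inr (hne v hv)⟩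
        ⟨hy, fun v hv => Or.inr (hne v hv)⟩).trans hb) hg.1 fun v hv k => ?_
    · by_cases e : v = w
      · rw [e, Function.update_self]
        exact hp'.imp (fun k => ⟨k, rot_pos_all ht hyp_oV.tim r0 k.tim⟩)
          fun k => ⟨k, (rot_par h2 r0).1.1.B_nonneg hp⟩
      · rw [Function.update_of_ne e]
        exact Or.inr ⟨(hz' v hv).1.2, (hz' v hv).2.ge⟩
    · exfalso
      have vK := (mem_sdiff.1 hv).1
      rcases DartMap.mem_tri.1 k with rfl | rfl | rfl
      · exact hg.2.1 vK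
      · exact hg.2.2.2 (by rwa [M.nx3])
      · exact hg.2.2.1 (by rwa [M.nx3])
  by_cases e : M.vtx K (M.nx d) = w
  · obtain ⟨p, μ, k1, -, k3, k4⟩ := exists_fix_any (A := lf ρ L d) (cl_tr _)
    have := key p k1 (k4.imp (·.1) (·.2))
    rw [lf, cl_smul] at k3
    simp only [faceDet, hd, e, Function.update_self, k3, det3_smul_2, det3_self12,
      mul_zero] at this
    exact lt_irrefl _ this
  · have c : M.vtx K (M.nx d) ∈ K \ F := mem_sdiff.2 ⟨hP.cut.vtx_mem _, fun k =>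
      hg.1 ((hP.cl.nx_mem_iff d).1 ((hP.cl.vtx_mem_iff hP.cut _).1 k))⟩
    have k1 := (hz' _ c).1.psmul (ρ (L d))
    have := key _ k1.1 (Or.inr k1.2)
    simp only [faceDet, hd, Function.update_self, Function.update_of_ne e, det3_self12] at this
    exact lt_irrefl _ this

end A25f44
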