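import Pool.Agent.Lib.MP_a25f44_gt.STurn

/-! Uniform estimates. -/

open scoped MatrixGroups
open Pool.Agent.Lib.MP_a25f44_gt Finset

noncomputable section

namespace A25f44

lemma STurnB.arc_mono {s t : ℝ} (h : s ≤ t) :
    2 * Real.arctan (Real.sinh (s / 2)) ≤ 2 * Real.arctan (Real.sinh (t / 2)) := by
  have := Real.arctan_mono (Real.sinh_le_sinh.2 (show s / 2 ≤ t / 2 by linarith))
  linarith

lemma STurnB.neg_qa_le {a : SL(2, ℝ)} (ha : 2 ≤ tr a) {x : V} (hx : Hyp x) {κ : ℝ} (hκ : 0 < κ)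
    (h : -κ ≤ rot a x) : -qa a x ≤ 2 * κ := by
  rcases le_total 0 (rot a x) with h0 | h0
  · have := (qa_nonneg_iff a x).2 h0
    linarith
  · have h1 := abs_qa_le_two_rot ha hx
    rw [abs_of_nonpos h0] at h1
    linarith [neg_le_abs (qa a x)]

lemma STurnB.cosh_le {r b : ℝ} (h0 : 0 ≤ r) (h : r ≤ b) : Real.cosh r ≤ Real.cosh b :=
  Real.cosh_le_cosh.2 (by rw [abs_of_nonneg h0, abs_of_nonneg (h0.trans h)]; exact h)

/-- bounded loops and two small terms: the pants are bad -/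
theorem Ev_small (Bd : ℝ) : ∃ κ : ℝ, 0 < κ ∧ ∀ (a b c : SL(2, ℝ)) (x : V), 2 ≤ tr a → 2 ≤ tr b →
    2 ≤ tr c → (a * b * c = 1 ∨ a * b * c = -1) → Hyp x → lpV a x ≤ Bd → lpV b x ≤ Bd →
    lpV c x ≤ Bd → 0 ≤ Ev a b c x → -κ ≤ rot a x →
    (Ar x (a • x) ((a * b) • x) ≤ κ ∨ -κ ≤ rot b x) → a * b * c = 1 := by
  have h0 := Real.arctan_lt_pi_div_two (Real.sinh (Bd / 2))
  refine ⟨(Real.pi - 2 * Real.arctan (Real.sinh (Bd / 2))) / 4, by linarith, ?_⟩
  intro a b c x ha hb hc h hx la lb lc hE h1 h2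
  refine h.resolve_right fun h => ?_
  have e := Ev_neg_one (by linarith) (by linarith) (by linarith) h hx.tim
  rw [abs_of_nonneg hE, Ev] at e
  have qb := (abs_le.1 ((abs_qa_le_lp hb hx).trans (STurnB.arc_mono lb))).1
  have qc := (abs_le.1 ((abs_qa_le_lp hc hx).trans (STurnB.arc_mono lc))).1
  have qa' := STurnB.neg_qa_le ha hx (by linarith) h1
  rcases h2 with h2 | h2
  · linarith
  · have qb' := STurnB.neg_qa_le hb hx (by linarith) h2
    have := (abs_le.1 ((abs_Ar_le_dV hx (hx.smul a) (hx.cone.smul (a * b))).trans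
      (STurnB.arc_mono la))).2
    linarith

/-- a triangle with a bounded side is not ideal -/
theorem Ar_side (Bd : ℝ) : ∃ c : ℝ, 0 < c ∧ ∀ u v w : V, Hyp u → Hyp v → Cone w → dV u v ≤ Bd →
    |Ar u v w| ≤ Real.pi - c := by
  have h0 := Real.arctan_lt_pi_div_two (Real.sinh (Bd / 2))
  refine ⟨Real.pi - 2 * Real.arctan (Real.sinh (Bd / 2)), by linarith, fun u v w hu hv hw h => ?_⟩
  have := (abs_Ar_le_dV hu hv hw).trans (STurnB.arc_mono h)
  linarith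

theorem Ar_short {κ : ℝ} (hκ : 0 < κ) : ∃ η : ℝ, 0 < η ∧ ∀ u v w : V, Hyp u → Hyp v → Cone w →
    dV u v ≤ η → |Ar u v w| ≤ κ := by
  refine ⟨2 * Real.arsinh (κ / 2), mul_pos two_pos (Real.arsinh_pos_iff.2 (half_pos hκ)),
    fun u v w hu hv hw h => ?_⟩
  have h1 := (abs_Ar_le_dV hu hv hw).trans (STurnB.arc_mono h)
  rw [mul_div_cancel_left₀ _ two_ne_zero, Real.sinh_arsinh] at h1
  have h2 := abs_arctan_le (κ / 2)
  rw [abs_of_pos (half_pos hκ)] at h2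
  linarith [le_abs_self (Real.arctan (κ / 2))]

lemma STurnB.abs_Ar_le_det {u v w : V} (hu : Hyp u) (hv : Hyp v) (hw : Hyp w) :
    |Ar u v w| ≤ 2 * |det3 u v w| := by
  have h1 : 1 ≤ (Zc u v w).re := by
    rw [Zc_re, hu.nrm, hv.nrm, hw.nrm]
    linarith [hu.one_le_B hv, hv.one_le_B hw, hw.one_le_B hu]
  have h2 := abs_lt.1 (Complex.abs_arg_lt_pi_div_two_iff.2 (Or.inl (one_pos.trans_le h1)))
  have h3 := abs_arctan_le (Real.tan (Complex.arg (Zc u v w)))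
  rw [Real.arctan_tan h2.1 h2.2, Complex.tan_arg, Zc_im, abs_div,
    abs_of_pos (one_pos.trans_le h1)] at h3
  have h4 := div_le_self (abs_nonneg (det3 u v w)) h1
  rw [Ar, abs_mul, abs_two]
  linarith

theorem Ar_flat (Bd : ℝ) {κ : ℝ} (hκ : 0 < κ) : ∃ η : ℝ, 0 < η ∧ ∀ u v w : V, Hyp u → Hyp v →
    Hyp w → dV u v ≤ Bd → dV u w + dV w v ≤ dV u v + η → |Ar u v w| ≤ κ := by
  have hC := Real.cosh_pos Bd
  have hε : 0 < κ ^ 2 / (4 * Real.cosh Bd ^ 2) := by positivity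
  refine ⟨Real.log (1 + κ ^ 2 / (4 * Real.cosh Bd ^ 2)), Real.log_pos (by linarith),
    fun u v w hu hv hw h1 h2 => ?_⟩
  have hη := Real.exp_log (show 0 < 1 + κ ^ 2 / (4 * Real.cosh Bd ^ 2) by linarith)
  have hη0 := Real.log_pos (show 1 < 1 + κ ^ 2 / (4 * Real.cosh Bd ^ 2) by linarith)
  generalize Real.log (1 + κ ^ 2 / (4 * Real.cosh Bd ^ 2)) = η at *
  have hd := det3_sq u v w
  rw [hu.2, hv.2, hw.2, B_comm v w, B_comm w u, ← cosh_dV hu hv, ← cosh_dV hu hw,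
    ← cosh_dV hw hv] at hd
  have r0 := dV_nonneg hu hv
  have s0 := dV_nonneg hu hw
  have t0 := dV_nonneg hw hv
  have tri := dV_triangle hu hw hv
  generalize dV u v = r at *
  generalize dV u w = s at *
  generalize dV w v = t at *
  have e : det3 u v w ^ 2 = (Real.cosh (s + t) - Real.cosh r) * (Real.cosh r - Real.cosh (s - t)) := by
    rw [hd, Real.cosh_add, Real.cosh_sub]
    linear_combination (Real.cosh s ^ 2 - 1) * Real.cosh_sq t + Real.sinh t ^ 2 * Real.cosh_sq s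
  have f1 := STurnB.cosh_le r0 tri
  have f2 := STurnB.cosh_le (by linarith) h2
  have f3 := STurnB.cosh_le r0 h1
  have f4 := Real.cosh_pos (s - t)
  have f5 := Real.sinh_lt_cosh r
  have f6 := Real.sinh_nonneg_iff.2 hη0.le
  have f7 := Real.one_le_cosh η
  have f8 := Real.cosh_add_sinh η
  have f9 : Real.cosh (s + t) - Real.cosh r ≤ Real.cosh Bd * (κ ^ 2 / (4 * Real.cosh Bd ^ 2)) := by
    rw [Real.cosh_add r η] at f2
    nlinarith [mul_le_mul_of_nonneg_right f3 (sub_nonneg.2 f7),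
      mul_le_mul_of_nonneg_right (f5.le.trans f3) f6]
  have g1 : det3 u v w ^ 2 ≤ (κ / 2) ^ 2 := by
    calc det3 u v w ^ 2 ≤ (Real.cosh (s + t) - Real.cosh r) * Real.cosh Bd := by
          rw [e]; exact mul_le_mul_of_nonneg_left (by linarith) (by linarith)
      _ ≤ Real.cosh Bd * (κ ^ 2 / (4 * Real.cosh Bd ^ 2)) * Real.cosh Bd :=
          mul_le_mul_of_nonneg_right f9 hC.le
      _ = (κ / 2) ^ 2 := by field_simp; ring
  have g2 := abs_le_of_sq_le_sq' g1 (half_pos hκ).le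
  have := STurnB.abs_Ar_le_det hu hv hw
  have := abs_le.2 g2
  linarith

theorem rot_near (Bd : ℝ) {κ : ℝ} (hκ : 0 < κ) : ∃ η : ℝ, 0 < η ∧
    ∀ (A : SL(2, ℝ)) (u v : V), Hyp u → Hyp v → lpV A u ≤ Bd → dV u v ≤ η →
      |rot A v - rot A u| ≤ κ := by
  have hC := Real.cosh_pos Bd
  obtain ⟨ε, h0, h1, h2⟩ : ∃ ε : ℝ, 0 < ε ∧ ε ≤ 1 ∧ (4 * Real.cosh Bd + 1) * ε ≤ κ ^ 2 :=
    ⟨min 1 (κ ^ 2 / (4 * Real.cosh Bd + 1)), lt_min one_pos (by positivity), min_le_left _ _,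
      (le_div_iff₀' (by positivity)).1 (min_le_right _ _)⟩
  have hη : 0 < Real.arcosh (1 + ε) := Real.arcosh_pos (by linarith)
  refine ⟨_, hη, fun A u v hu hv hl hd => ?_⟩
  rw [dV_le_iff hu hv hη.le, Real.cosh_arcosh (by linarith)] at hd
  have l1 := STurnB.cosh_le (lpV_nonneg A hu) hl
  rw [cosh_lpV A hu] at l1
  have l2 := one_le_lp A hu
  have x1 := hu.one_le_B hv
  have hq := sq_nonneg (det3 u (ax A) v)
  rw [det3_sq, hu.2, hv.2, B_ax_ax, B_comm u (ax A), B_comm v u] at hq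
  change 0 ≤ _ + 2 * rot A u * rot A v * _ - 1 * rot A v ^ 2 - _ - 1 * rot A u ^ 2 at hq
  generalize rot A u = a at *
  generalize rot A v = z at *
  generalize B u v = x at *
  generalize Real.cosh Bd = C at *
  have k1 : (z - a * x) ^ 2 ≤ (a ^ 2 + tr A ^ 2 / 4 - 1) * (x ^ 2 - 1) := by nlinarith
  have k2 : x ^ 2 - 1 ≤ 3 * ε := by nlinarith
  have k3 : (x - 1) ^ 2 ≤ ε := by nlinarith
  have k4 : (a ^ 2 + tr A ^ 2 / 4 - 1) * (x ^ 2 - 1) ≤ C / 2 * (3 * ε) :=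
    mul_le_mul (by linarith) k2 (by nlinarith) (by linarith)
  have k5 : a ^ 2 * (x - 1) ^ 2 ≤ (C + 1) / 2 * ε :=
    mul_le_mul (by nlinarith [sq_nonneg (tr A)]) k3 (sq_nonneg _) (by linarith)
  refine abs_le.2 (abs_le_of_sq_le_sq' ?_ hκ.le)
  nlinarith [sq_nonneg (z - a * x - a * (x - 1))]

end A25f44
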