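import Pool.Agent.Lib.MP_a25f44_gt.SStar
import Pool.Agent.Lib.MP_a25f44_gt.STurnB

/-! A small pair of pants on the small side of an elliptic edge. -/

open scoped MatrixGroups
open Pool.Agent.Lib.MP_a25f44_gt Finset

noncomputable section

namespace A25f44

variable {D Γ : Type} [Group Γ] [Fintype D] [DecidableEq D] {ρ : Γ →* PSL(2, ℝ)}
  {M : DartMap D} {L : D → Γ} {K F : Finset D}

theorem SEllR.bound (h : Adm ρ M L) (hP : M.PS K F) {u : V} (hu : Hyp u) {y : D → V}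
    (hy : ∀ d, Cone (y d))
    (hf : ∀ w ∈ K \ F, (∃ μ : ℝ, 0 < μ ∧ lf ρ L w • y w = μ • y w) ∧
      (Tim (y w) ∨ 2 ≤ tr (lf ρ L w))) {κ : ℝ}
    (hF : ∀ d ∈ F, |faceAr M L ρ (fun _ => u) d| ≤ κ)
    (hw : ∀ w ∈ K \ F, ∀ z, Cone z → |Ar u (lf ρ L w • u) z| ≤ κ) :
    ∑ d ∈ Fᶜ, (Real.pi - faceAr M L ρ (fun d => y (M.vtx K d)) d) ≤
      12 * Real.pi - F.card * (Real.pi - κ) + 3 * ((K \ F).card * κ) := by
  have e := bud_indep h.mark.lab hP (lifts_lf (ρ := ρ) L (K \ F)) (y := y) (y' := fun _ => u)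
    ⟨hy, fun w hw => (hf w hw).2⟩ ⟨fun _ => hu.cone, fun _ _ => Or.inl hu.tim⟩
  rw [bud_const h _ hu.cone, bud] at e
  have h1 : F.card * (Real.pi - κ) ≤ ∑ d ∈ F, (Real.pi - faceAr M L ρ (fun _ => u) d) := by
    rw [← nsmul_eq_mul]
    exact card_nsmul_le_sum _ _ _ fun d hd => by linarith [(abs_le.1 (hF d hd)).2]
  have h2 : ∑ w ∈ K \ F, (qa (lf ρ L w) u - qa (lf ρ L w) (y w)) ≤ (K \ F).card * κ := by
    rw [← nsmul_eq_mul]
    refine sum_le_card_nsmul _ _ _ fun w hw' => ?_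
    obtain ⟨⟨μ, hμ, e1⟩, h3⟩ := hf w hw'
    rw [← Ar_to_fix (show 0 ≤ tr (lf ρ L w) from cl_tr _) hu.tim (hy w) hμ e1 h3, Ar_cyc]
    exact (abs_le.1 (hw w hw' _ (hy w))).2
  rw [sum_sub_distrib] at h2
  linarith

theorem SEllR.angle {τ : ℝ} {A : SL(2, ℝ)} (hE : Ell τ A) {p : V} (hp : Hyp p) {S : ℝ}
    (h0 : 0 < S) (h : (S : Real.Angle) = ((-qa A p : ℝ) : Real.Angle)) : Real.pi < S := by
  obtain ⟨t0, t2, ht, hr⟩ := hE
  have h1 : 0 < qa A p := (qa_pos_iff (by linarith) p).2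
    (rot_pos_all (by rw [abs_of_pos (by linarith)]; linarith) hyp_oV.tim hr hp.tim)
  have h2 := (abs_lt.1 (abs_qa_lt (A := A) (by linarith) hp.tim)).2
  by_contra hc
  have := eq_of_angle_eq h (abs_lt.2 ⟨by linarith, by linarith⟩)
  linarith

theorem pantsR : ∃ η : ℝ, 0 < η ∧ ∀ (M : DartMap D) (L : D → Γ) (e : D) (τ : ℝ) (u : V),
    Adm ρ M L → Ell τ (lf ρ L e) → M.Pants (M.op e) → Hyp u →
    (∀ d ∈ M.tri (M.op e), lpV (lf ρ L d) u ≤ η) →
    ∃ a, Itl M e a ∧ (tr (com ρ L e a) = tr (lf ρ L (M.nx (M.op e))) ∨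
      tr (com ρ L e a) = tr (lf ρ L (M.nx (M.nx (M.op e))))) := by
  obtain ⟨η, hη, hs⟩ := Ar_short (κ := 1 / 10) (by norm_num)
  refine ⟨η, hη, fun M L e τ u h hE hP hu hl => ?_⟩
  have hL := h.mark.lab
  have hT := h.mark.tr
  have hπ := Real.pi_gt_three
  obtain ⟨x, rfl⟩ : ∃ x, e = M.op x := ⟨M.op e, (M.op2 e).symm⟩
  rw [M.op2] at hP hl ⊢
  have hA : ∀ d ∈ M.tri x, ∀ z, Cone z → |Ar u (lf ρ L d • u) z| ≤ 1 / 10 := fun d hd z hz =>
    hs u _ z hu (hu.smul _) hz (hl d hd)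
  have hA' : ∀ d ∈ M.tri x, ∀ z, Cone z → |Ar u (lf ρ L (M.op d) • u) z| ≤ 1 / 10 :=
    fun d hd z hz => hs u _ z hu (hu.smul _) hz ((lpV_lf_op hL d u).trans_le (hl d hd))
  have m0 : x ∈ M.tri x := DartMap.mem_tri.2 (Or.inl rfl)
  have m1 : M.nx x ∈ M.tri x := DartMap.mem_tri.2 (Or.inr (Or.inl rfl))
  have m2 : M.nx (M.nx x) ∈ M.tri x := DartMap.mem_tri.2 (Or.inr (Or.inr rfl))
  choose y μ hy hμ hf hc using fun d => exists_fix_any (show 0 ≤ tr (lf ρ L d) from cl_tr _)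
  have hp := (hc (M.op x)).resolve_right fun h' => by linarith [h'.1, hE.2.1, hE.2.2.1]
  rcases hP.noAnn_or with hn | ⟨z, hz, ha⟩
  · exfalso
    have hb := SEllR.bound h hP hu hy
      (fun w _ => ⟨⟨μ w, hμ w, hf w⟩, (hc w).imp (fun h' => h'.1.tim) fun h' => h'.1⟩)
      (κ := 1 / 10) (fun d hd => by rw [faceAr_const]; exact hA d hd _ (hu.cone.smul _))
      (fun w hw => by
        have hw' := mem_sdiff.1 hw
        have := hA' _ ((DartMap.mem_triK.1 hw'.1).resolve_left hw'.2)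
        rwa [M.op2] at this)
    have hf' : ∀ w ∈ M.triK x \ M.tri x, ∃ μ : ℝ, 0 < μ ∧ ρ (L w) • y w = μ • y w :=
      fun w _ => ⟨μ w, hμ w, by rw [← lf_smul]; exact hf w⟩
    have hc3 := card_walls hT x
    rw [hc3, M.card_tri] at hb
    obtain ⟨s1, s2⟩ := star_le hL hP hn hy hf'
      (fun d hd => good_pos hL hP hy hf' (by rw [hc3]; push_cast at hb ⊢; linarith) hd)
      (W := {M.op x}) (singleton_subset_iff.2 (mem_sdiff.2 ⟨(hP.walls m0).1, (hP.walls m0).2.1⟩))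
      (fun w hw => by rw [mem_singleton.1 hw]; exact hp.1)
    obtain ⟨s3, s4⟩ := s1 _ (mem_singleton_self _)
    have := SEllR.angle hE hp.1 s3 s4
    rw [hc3, sum_singleton] at s2
    push_cast at hb s2
    linarith
  · rcases DartMap.mem_tri.1 hz with rfl | rfl | rfl
    · exfalso
      obtain ⟨hP', hw⟩ := handle_ps hP ha
      have c9 : (F9 M z).card = 9 := (hP.handle ha).2.2.2
      have hfp : lf ρ L (M.op z) • y (M.op z) = y (M.op z) := by rw [hf, hp.2, one_smul]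
      have hb := SEllR.bound h hP' hu (y := fun _ => y (M.op z)) (fun _ => hy _)
        (fun w hw' => by
          rw [hw, mem_singleton] at hw'
          rw [hw']
          exact ⟨⟨1, one_pos, by rw [hfp, one_smul]⟩, Or.inl hp.1.tim⟩)
        (κ := 1 / 10) (fun d hd => by
          rcases mem_union.1 hd with hd | hd
          · rcases mem_union.1 hd with hd | hd
            · rw [faceAr_const]; exact hA d hd _ (hu.cone.smul _)
            · rw [faceAr_tri hL _ hd, faceAr_const]; exact hA' _ m2 _ (hu.cone.smul _)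
          · rw [faceAr_tri hL _ hd, faceAr_const]; exact hA' _ m1 _ (hu.cone.smul _))
        (fun w hw' => by
          rw [hw, mem_singleton] at hw'
          rw [hw']
          exact hA' _ m0)
      rw [hw, card_singleton, c9] at hb
      push_cast at hb
      obtain ⟨-, S, s1, s2, s3⟩ := one_wall hL hP' hw hp.1 (by rw [← lf_smul]; exact hfp)
        (hb.trans (by linarith))
      have := SEllR.angle hE hp.1 s1 s2
      linarith [s3.trans hb]
    · rw [M.nx3] at ha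
      obtain ⟨a, h1, h2⟩ := (itl_of_ann (ρ := ρ) hL hP).2 ha
      exact ⟨M.op a, h1.op hT, Or.inl ((tr_com_op hL x a).trans h2)⟩
    · rw [M.nx3, M.nx3] at ha
      obtain ⟨a, h1, h2⟩ := (itl_of_ann (ρ := ρ) hL hP).1 ha.symm
      exact ⟨M.op a, h1.op hT, Or.inr ((tr_com_op hL x a).trans h2)⟩

end A25f44
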