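import Pool.Agent.Lib.MP_a25f44_gt.SUnc
import Pool.Agent.Lib.MP_a25f44_gt.SNoId

/-! An elliptic edge at its centre. -/

open scoped MatrixGroups
open Pool.Agent.Lib.MP_a25f44_gt Finset

noncomputable section

namespace A25f44

variable {D Γ : Type} [Group Γ] [Fintype D] [DecidableEq D] {ρ : Γ →* PSL(2, ℝ)}
  {M : DartMap D} {L : D → Γ} {K F : Finset D}

/-- a direction that opens both degenerate faces -/
theorem SNode.solve {A : SL(2, ℝ)} {p q v : V} (hp : Hyp p) (hf : A • p = p) (ht : tr A ^ 2 < 4)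
    (hd : det3 p q v ≠ 0) : ∃ ν : V, 0 < det3 p (A • ν - ν) q ∧ det3 p (A • ν - ν) v < 0 := by
  have key : ∀ μ w : V, det3 p (A • (A⁻¹ • μ - μ) - (A⁻¹ • μ - μ)) w =
      (4 - tr A ^ 2) * det3 p μ w := by
    intro μ w
    rw [smul_sub, smul_inv_smul, smul_formula A μ, smul_formula A⁻¹ μ, tr_inv, rot_inv, ax_inv,
      ax_centre hp hf]
    simp only [det3, cross, Prod.fst_sub, Prod.snd_sub, Prod.fst_add, Prod.snd_add, Prod.smul_fst,
      Prod.smul_snd, Prod.fst_neg, Prod.snd_neg, smul_eq_mul]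
    ring
  have h2 := mul_pos (sub_pos.2 ht) (mul_self_pos.2 hd)
  refine ⟨A⁻¹ • (det3 p v q • (q + v)) - det3 p v q • (q + v), ?_, ?_⟩ <;>
    rw [key, det3_smul_2, det3_add_2, det3_self23, det3_swap p q v] <;> linarith

/-- the two apexes are not aligned with the centre -/
theorem SNode.good (h : Adm ρ M L) {e : D} (hE : tr (lf ρ L e) < 2) {p : V} (hp : Hyp p)
    (hf : ρ (L e) • p = p)
    (hpos : ∀ d, d ∉ M.tri e → d ∉ M.tri (M.op e) → 0 < faceDet M L ρ (fun _ => p) d)
    (hd : det3 p (ρ (L e * L (M.nx e)) • p) (ρ (L (M.nx (M.op e))) • p) ≠ 0) : Succ D ρ := by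
  have hL := h.mark.lab
  have hP := h.mark.tr.ps_edge e
  have h0 : 0 ≤ tr (lf ρ L e) := cl_tr _
  obtain ⟨ν, n1, n2⟩ := SNode.solve hp ((lf_smul L e p).trans hf) (by nlinarith) hd
  rw [lf_smul] at n1 n2
  have hf' : ρ (L (M.op e)) • p = p := by rw [hL.1, map_inv, inv_smul_eq_iff, hf]
  have ev := uncollapse (ρ := ρ) (L := L) hP (y := fun _ => p)
    (ν := fun d => if d ∈ ({e, M.op e} : Finset D) then ν else 0) (W := {e, M.op e}) (by simp)
    (fun d hd => if_neg hd) (fun w hw => by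
      rcases mem_insert.1 hw with rfl | hw
      · exact hf
      · rw [mem_singleton.1 hw]; exact hf')
    (fun w hw => by
      rw [if_pos hw]
      rcases mem_insert.1 hw with rfl | hw
      · exact n1
      · rw [mem_singleton.1 hw, ← det3_psmul (ρ (L e)), hf, smul_sub, ← mul_smul, ← mul_smul,
          ← map_mul, ← map_mul, hL.1, mul_inv_cancel, mul_inv_cancel_left, map_one, one_smul]
        refine (neg_pos.2 n2).trans_eq ?_
        simp only [det3, Prod.fst_sub, Prod.snd_sub]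
        ring)
    hL (fun d _ hd => hpos d (hd e (by simp)) (hd _ (by simp)))
  simp only [hP.cut.vtx_mem, if_true] at ev
  have c1 : Continuous fun s : ℝ => (p + s • ν).1 + (p + s • ν).2.2 := by fun_prop
  have c2 : Continuous fun s : ℝ => B (p + s • ν) (p + s • ν) := by fun_prop
  have e1 : ∀ᶠ s in nhds (0 : ℝ), 0 < (p + s • ν).1 + (p + s • ν).2.2 :=
    c1.continuousAt.eventually (lt_mem_nhds (by simpa using hp.1))
  have e2 : ∀ᶠ s in nhds (0 : ℝ), 0 < B (p + s • ν) (p + s • ν) :=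
    c2.continuousAt.eventually (lt_mem_nhds (by simpa using hp.tim.2))
  obtain ⟨s, s1, s2⟩ := (ev.and ((e1.and e2).filter_mono nhdsWithin_le_nhds)).exists
  have ht : Tim (p + s • ν) := s2
  exact ⟨M, L, _, h, ht.normalize, fun d => (faceDet_scale (pos := fun _ => p + s • ν)
    (fun _ => ⟨_, inv_pos.2 ht.nrm_pos, rfl⟩) d).2 (s1 d (by simp))⟩

/-- an edge of the face of `e` whose other side is not the face of `op e` -/
theorem SNode.exists_edge (h : M.Tr) (hD : 6 < Fintype.card D) (e : D) :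
    M.op (M.nx e) ∉ M.tri (M.op e) ∨ M.op (M.nx (M.nx e)) ∉ M.tri (M.op e) := by
  by_contra c
  rw [not_or, not_not, not_not, DartMap.mem_tri, DartMap.mem_tri] at c
  have hP := h.ps_edge e
  obtain ⟨c1 | c1 | c1, c2⟩ := c
  · exact M.nx_ne e (DartMap.op_inj.1 c1)
  · rcases c2 with c2 | c2 | c2
    · exact M.nx2_ne e (DartMap.op_inj.1 c2)
    · exact M.nx2_ne_nx e (DartMap.op_inj.1 (c2.trans c1.symm))
    · exact hP.not_ann (h.noAnn_edge e hD) (v := e) (w := M.op e) (by simp) (by simp) (by simp)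
        ⟨c1, c2⟩
  · exact hP.glue_walls (v := e) (w := M.op e) (by simp) (by simp) (by simp) c1

/-- a flip changes the apex of `e` and keeps everything else -/
theorem SNode.flip (h : Adm ρ M L) {e : D} {p : V} (hf : ρ (L e) • p = p)
    (hpos : ∀ d, d ∉ M.tri e → d ∉ M.tri (M.op e) → 0 < faceDet M L ρ (fun _ => p) d) :
    ∃ (M' : DartMap D) (L' : D → Γ), Adm ρ M' L' ∧ M'.op = M.op ∧ L' e = L e ∧
      L' (M'.nx (M.op e)) = L (M.nx (M.op e)) ∧
      (∀ d, d ∉ M'.tri e → d ∉ M'.tri (M.op e) → 0 < faceDet M' L' ρ (fun _ => p) d) ∧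
      det3 p (ρ (L e * L (M.nx e)) • p) (ρ (L' e * L' (M'.nx e)) • p) ≠ 0 := by
  have hL := h.mark.lab
  have hT := h.mark.tr
  have main : ∀ a, a ∈ M.tri e → a ≠ e → M.op a ∉ M.tri (M.op e) →
      (∀ x, (x = a ∨ x = M.op a) → e ∉ (M.flip a).tri x →
        0 < faceDet (M.flip a) (M.flipL L a) ρ (fun _ => p) x) →
      det3 p (ρ (L e * L (M.nx e)) • p) (ρ (L e * M.flipL L a ((M.flip a).nx e)) • p) ≠ 0 →
      ∃ (M' : DartMap D) (L' : D → Γ), Adm ρ M' L' ∧ M'.op = M.op ∧ L' e = L e ∧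
      L' (M'.nx (M.op e)) = L (M.nx (M.op e)) ∧
      (∀ d, d ∉ M'.tri e → d ∉ M'.tri (M.op e) → 0 < faceDet M' L' ρ (fun _ => p) d) ∧
      det3 p (ρ (L e * L (M.nx e)) • p) (ρ (L' e * L' (M'.nx e)) • p) ≠ 0 := by
    intro a ha ne hn h1 h2
    have hm := h.mark.flip a
    have ta : M.tri a = M.tri e := DartMap.tri_eq_of_mem ha
    have self : ∀ (N : DartMap D) (x : D), x ∈ N.tri x := fun N x => by simp [DartMap.tri]
    have o1 : M.op e ∉ M.tri a := ta ▸ hT.op_notMem_tri (self M e)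
    have o2 : M.op e ∉ M.tri (M.op a) := fun c => hn (DartMap.tri_eq_of_mem c ▸ self M _)
    have f7 := (hT.flip_nx a).2.2.2.2.2.2
    have n0 := (hT.flip_aux a).2.2.2.2.2.2.2.2.2.2.2 _ o1 o2
    have le : M.flipL L a e = L e := by
      have : e ≠ M.op a := fun c => hT.op_notMem_tri ha (c ▸ self M e)
      simp only [DartMap.flipL, ne.symm, this, if_false]
    have t2 : (M.flip a).tri (M.op e) = M.tri (M.op e) := by
      rw [DartMap.tri, DartMap.tri, f7 _ o1 o2,
        f7 _ (DartMap.nx_mem_tri.not.2 o1) (DartMap.nx_mem_tri.not.2 o2)]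
    refine ⟨_, _, h.of_move hm, rfl, le, ?_, fun d d1 d2 => ?_, by rwa [le]⟩
    · rw [f7 _ o1 o2]
      simp only [DartMap.flipL, n0, if_false]
    by_cases c : d ∈ (M.flip a).tri a ∪ (M.flip a).tri (M.op a)
    · have k : ∀ x, (x = a ∨ x = M.op a) → d ∈ (M.flip a).tri x →
          0 < faceDet (M.flip a) (M.flipL L a) ρ (fun _ => p) d := fun x hx hd => by
        rw [faceDet_tri hm.mark.lab _ hd]
        exact h1 x hx fun c => d1 (DartMap.tri_eq_of_mem c ▸ hd)
      rcases mem_union.1 c with c | c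
      exacts [k _ (.inl rfl) c, k _ (.inr rfl) c]
    · rw [hT.flip_tri, mem_union, not_or] at c
      have := (hT.flip_face hL (a := a) (α := vAct ρ) (A := det3)
        (fun g x y z => det3_psmul _ _ _ _) (pos := fun _ => p) rfl rfl).2.2.2.2 d c.1 c.2
      rw [show M.flipP (fun _ => p) a = fun _ => p by funext x; simp [DartMap.flipP],
        face_det3, face_det3] at this
      rw [this]
      exact hpos d (ta ▸ c.1) (t2 ▸ d2)
  have face := fun a => hT.flip_face hL (a := a) (α := vAct ρ) (A := det3)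
    (fun g x y z => det3_psmul _ _ _ _) (pos := fun _ => p) rfl rfl
  have cst : ∀ a, M.flipP (fun _ => p) a = fun _ => p := fun a => by
    funext x; simp [DartMap.flipP]
  simp only [cst, face_det3, vAct_apply] at face
  rcases SNode.exists_edge hT (by have := h.card; omega) e with hn | hn
  · have ha : M.nx e ∈ M.tri e := by simp [DartMap.tri]
    obtain ⟨f1, f2, f3, f4, f5, f6, -⟩ := hT.flip_nx (M.nx e)
    obtain ⟨n1, n2, n3, n4, n5, n6, -⟩ := hT.flip_aux (M.nx e)
    obtain ⟨-, g2, g3, -⟩ := face (M.nx e)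
    have p0 := hpos _ (hT.op_notMem_tri ha) hn
    rw [M.nx3] at f4 f5
    rw [g2] at p0
    rw [lab_cyc hL, map_inv, inv_smul_eq_iff.2 hf.symm] at g3
    refine main _ ha (M.nx_ne e) hn (fun x hx he => ?_) ?_
    · rcases hx with rfl | rfl
      · rwa [g3, ← det3_cyc]
      · exact absurd (by simp [DartMap.tri, f4]) he
    · rw [f5]
      simp only [DartMap.flipL, n5, n6, if_false]
      rw [map_mul, map_mul, mul_smul, mul_smul]
      nth_rw 1 [← hf]
      rw [det3_psmul, det3_swap12]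
      exact neg_ne_zero.2 p0.ne'
  · have ha : M.nx (M.nx e) ∈ M.tri e := by simp [DartMap.tri]
    obtain ⟨f1, f2, f3, f4, f5, f6, -⟩ := hT.flip_nx (M.nx (M.nx e))
    obtain ⟨-, g2, -, g4, -⟩ := face (M.nx (M.nx e))
    have p0 := hpos _ (hT.op_notMem_tri ha) hn
    rw [M.nx3] at f2 f3 g4
    rw [g2] at p0
    rw [map_mul, mul_smul, hf] at g4
    refine main _ ha (M.nx2_ne e) hn (fun x hx he => ?_) ?_
    · rcases hx with rfl | rfl
      · exact absurd (by simp [DartMap.tri, f1, f2]) he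
      · rwa [g4, det3_cyc]
    · rw [f3]
      simp only [DartMap.flipL, if_true, M.nx3]
      rw [← det3_psmul (ρ (L e * L (M.nx e))), ← mul_smul, ← mul_smul, ← map_mul, ← map_mul,
        hL.2, map_one, one_smul, mul_assoc] at p0
      exact p0.ne'

/-- an elliptic edge at its centre, all other faces positive -/
theorem node (h : Adm ρ M L) {e : D} (hE : tr (lf ρ L e) < 2) {p : V} (hp : Hyp p)
    (hf : lf ρ L e • p = p)
    (hpos : ∀ d, d ∉ M.tri e → d ∉ M.tri (M.op e) → 0 < faceDet M L ρ (fun _ => p) d) :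
    Succ D ρ := by
  rw [lf_smul] at hf
  have hL := h.mark.lab
  by_cases hd : det3 p (ρ (L e * L (M.nx e)) • p) (ρ (L (M.nx (M.op e))) • p) = 0
  swap
  · exact SNode.good h hE hp hf hpos hd
  obtain ⟨M', L', h', o', l1, l2, hpos', hq⟩ := SNode.flip h hf hpos
  obtain ⟨M₂, L₂, -, -, -, -, -, hv⟩ := SNode.flip h (e := M.op e) (p := p)
    (by rw [hL.1, map_inv, inv_smul_eq_iff, hf]) fun d h1 h2 => hpos d (by rwa [M.op2] at h2) h1
  rw [← det3_psmul (ρ (L e)), hf, ← mul_smul, ← map_mul, hL.1, mul_inv_cancel_left] at hv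
  refine SNode.good h' (e := e) (by rwa [lf, l1]) hp (by rwa [l1]) (by rwa [o']) ?_
  rw [o', l2]
  intro h0
  have c := cramer p (ρ (L e * L (M.nx e)) • p) (ρ (L' e * L' (M'.nx e)) • p)
    (ρ (L (M.nx (M.op e))) • p)
  rw [hd, det3_swap p (ρ (L' e * L' (M'.nx e)) • p) (ρ (L (M.nx (M.op e))) • p), h0, neg_zero,
    zero_smul, zero_smul, add_zero, add_zero] at c
  refine mul_ne_zero hq hv ?_
  rw [← det3_smul_2, c, det3_smul_2, det3_self12, mul_zero]

end A25f44
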