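import Pool.Agent.Lib.MP_a25f44_gt.SUnc
import Pool.Agent.Lib.MP_a25f44_gt.SCountB

/-! Construction of states. -/

open scoped MatrixGroups
open Pool.Agent.Lib.MP_a25f44_gt Finset

noncomputable section

namespace A25f44

variable {D Γ : Type} [Group Γ] [Fintype D] [DecidableEq D] {ρ : Γ →* PSL(2, ℝ)}
  {M : DartMap D} {L : D → Γ} {K F : Finset D}

namespace SMake

/-- near an ideal fixed point the turning is small -/
lemma par_small {A : SL(2, ℝ)} {ξ : V} (hξ : Idl ξ) (h0 : rot A ξ = 0) {κ : ℝ} (hκ : 0 < κ) :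
    ∀ᶠ s in nhdsWithin (0 : ℝ) (Set.Ioi 0),
      |rot A ((nrm (ξ + s • oV))⁻¹ • (ξ + s • oV))| ≤ κ := by
  have hβ : 0 < B oV ξ := hyp_oV.tim.B_pos hξ.1
  have hc : 0 < κ ^ 2 * (2 * B oV ξ) / (rot A oV ^ 2 + 1) := by positivity
  filter_upwards [Ioo_mem_nhdsGT hc] with s hs
  have hs0 : 0 < s := hs.1
  have hs1 := (lt_div_iff₀ (by positivity)).1 hs.2
  have hT : Tim (ξ + s • oV) := by
    rw [add_comm]; exact (hyp_oV.tim.pos_smul hs0).add_cone hξ.1
  have hN := hT.nrm_pos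
  have hN2 : nrm (ξ + s • oV) ^ 2 = 2 * s * B oV ξ + s ^ 2 := by
    rw [hT.cone.nrm_sq, B_add_left, B_add_right, B_add_right, B_smul_left, B_smul_right,
      B_smul_left, B_smul_right, hξ.2, hyp_oV.2, B_comm ξ oV]
    ring
  rw [rot_smul, rot_add, rot_smul, h0, zero_add, abs_mul, abs_of_pos (inv_pos.2 hN),
    inv_mul_le_iff₀ hN]
  refine abs_le_of_sq_le_sq' ?_ (by positivity) |> abs_le.2
  rw [mul_pow, mul_pow, hN2]
  have h1 : s * (s * (rot A oV ^ 2 + 1)) ≤ s * (κ ^ 2 * (2 * B oV ξ)) :=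
    mul_le_mul_of_nonneg_left hs1.le hs0.le
  nlinarith [sq_nonneg (s * κ), sq_nonneg s]

omit [Fintype D] [DecidableEq D] in
lemma apex_B (hL : M.IsLab L) {pos : D → V} {w : D} (h : NonCol ρ M L pos (M.nx (M.nx w))) :
    B (pos w) (pos w) * B (pos (M.nx (M.nx w))) (pos (M.nx (M.nx w))) <
      B (pos w) (ρ (L w * L (M.nx w)) • pos (M.nx (M.nx w))) ^ 2 := by
  unfold NonCol at h
  rw [M.nx3] at h
  rw [lab_cyc' hL, map_inv, ← B_psmul (ρ (L (M.nx (M.nx w)))) (pos w) (_ • _), smul_inv_smul,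
    B_comm (_ • pos w), mul_comm]
  exact h

lemma nonCol_apex (hL : M.IsLab L) (hP : M.PS K F) {y : D → V} (hy : ∀ d, Cone (y d)) {w : D}
    (hw : w ∈ K \ F)
    (h : ∀ d, d ∉ F → d ∉ M.tri w → 0 < faceDet M L ρ (fun d => y (M.vtx K d)) d) :
    NonCol ρ M L (fun d => y (M.vtx K d)) (M.nx (M.nx w)) := by
  obtain ⟨hK, hF⟩ := mem_sdiff.1 hw
  have h1 := (hP.nx_notMem hK hF).2
  by_contra hc
  refine (h _ ?_ ?_).ne' (det_zero_of_col hL hP.cut hy h1 hc).2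
  · rwa [hP.cl.op_mem_iff hP.cut.inv h1, hP.cl.nx_mem_iff, hP.cl.nx_mem_iff]
  · exact hP.cut.tr.op_notMem_tri (by simp [DartMap.tri])

lemma par_data {A : SL(2, ℝ)} (h2 : tr A = 2) (h0 : rot A oV < 0) :
    Idl (ax A⁻¹) ∧ A • ax A⁻¹ = ax A⁻¹ ∧ rot A (ax A⁻¹) = 0 := by
  obtain ⟨h1, h3⟩ := rot_par (A := A⁻¹) (by rw [tr_inv, h2]) (by rw [rot_inv]; linarith)
  have h4 : A • ax A⁻¹ = ax A⁻¹ := by
    conv_lhs => rw [← h3, smul_inv_smul]
  exact ⟨h1, h4, h1.rot_eq_zero (μ := 1) (by rw [h4, one_smul])⟩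

/-- moving the cusps inside -/
theorem lift (hL : M.IsLab L) (hP : M.PS K F) {y : D → V} (hy : ∀ d, Cone (y d)) {W : Finset D}
    (hW : W ⊆ K \ F)
    (hp : ∀ w ∈ W, tr (lf ρ L w) = 2 ∧ rot (lf ρ L w) oV < 0 ∧ y w = ax (lf ρ L w)⁻¹)
    (hH : ∀ d, d ∉ W → Hyp (y d))
    (hc : ∀ w ∈ W, NonCol ρ M L (fun d => y (M.vtx K d)) (M.nx (M.nx w)))
    (hpos : ∀ d, d ∉ F → (∀ w ∈ W, d ∉ M.tri w) → 0 < faceDet M L ρ (fun d => y (M.vtx K d)) d)
    {κ : ℝ} (hκ : 0 < κ) :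
    ∃ y₀ : D → V, (∀ d, Hyp (y₀ d)) ∧ (∀ d, d ∉ W → y₀ d = y d) ∧
      (∀ w ∈ W, |rot (lf ρ L w) (y₀ w)| ≤ κ) ∧
      ∀ d, d ∉ F → 0 < faceDet M L ρ (fun d => y₀ (M.vtx K d)) d := by
  have hd := fun w hw => par_data (hp w hw).1 (hp w hw).2.1
  have e1 := uncollapse (ρ := ρ) (L := L) hP (y := y) (ν := fun d => if d ∈ W then oV else 0) hW
    (fun d hd => if_neg hd)
    (fun w hw => by rw [← lf_smul, (hp w hw).2.2]; exact (hd w hw).2.1)
    (fun w hw => by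
      have h1 := apex_B hL (hc w hw)
      simp only [hP.cut.vtx_self (mem_sdiff.1 (hW hw)).1] at h1
      have h2 := (hy w).B_nonneg ((hy (M.vtx K (M.nx (M.nx w)))).psmul (ρ (L w * L (M.nx w))))
      rw [(hp w hw).2.2] at h1 h2 ⊢
      rw [(hd w hw).1.2, zero_mul] at h1
      have h3 := det_par (A := (lf ρ L w)⁻¹) (by rw [tr_inv, (hp w hw).1])
        (by rw [rot_inv]; linarith [(hp w hw).2.1]) hyp_oV.tim
        (lt_of_le_of_ne h2 fun e => by rw [← e] at h1; simp at h1)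
      rw [inv_inv, lf_smul] at h3
      simpa only [if_pos hw] using h3)
    hL hpos
  have e2 : ∀ᶠ s in nhdsWithin (0 : ℝ) (Set.Ioi 0), ∀ w ∈ W,
      |rot (lf ρ L w) ((nrm (y w + s • oV))⁻¹ • (y w + s • oV))| ≤ κ :=
    (Filter.eventually_all_finset W).2 fun w hw => by
      rw [(hp w hw).2.2]
      exact par_small (hd w hw).1 (hd w hw).2.2 hκ
  obtain ⟨s, ⟨h1, h2⟩, hs⟩ := ((e1.and e2).and self_mem_nhdsWithin).exists
  have hs0 : 0 < s := hs
  have hT : ∀ d, Tim (y d + s • oV) := fun d => by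
    rw [add_comm]; exact (hyp_oV.tim.pos_smul hs0).add_cone (hy d)
  refine ⟨fun d => if d ∈ W then (nrm (y d + s • oV))⁻¹ • (y d + s • oV) else y d,
    fun d => ?_, fun d hd => if_neg hd, fun w hw => ?_, fun d hd => ?_⟩
  · dsimp only
    split_ifs with h
    · exact (hT d).normalize
    · exact hH d h
  · simpa only [if_pos hw] using h2 w hw
  · refine (faceDet_scale (fun d => ?_) d).2 (h1 d hd)
    by_cases h : M.vtx K d ∈ W
    · exact ⟨_, inv_pos.2 (hT (M.vtx K d)).nrm_pos, by simp only [if_pos h]⟩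
    · exact ⟨1, one_pos, by simp only [if_neg h, smul_zero, add_zero, one_smul]⟩

/-- placement for a pants state -/
def yP (M : DartMap D) (e : D) (x u : V) (d : D) : V := if d = M.op e then u else x

lemma pos2_eq {e : D} (h : M.Pants e) (x u : V) :
    pos2 M e x u = fun d => yP M e x u (M.vtx (M.triK e) d) := by
  funext d
  unfold pos2 yP
  rw [vtx_pants h]
  by_cases c : M.vtx (M.triK e) d = M.op e
  · rw [if_pos c, if_pos c, if_neg (M.op_ne e)]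
  · rw [if_neg c, if_neg c, if_pos rfl]

lemma face_pants (hL : M.IsLab L) {e : D} (h : M.Pants e) (x u : V) {d : D} (hd : d ∈ M.tri e) :
    faceDet M L ρ (fun d => yP M e x u (M.vtx (M.triK e) d)) d =
      faceDet M L ρ (fun _ => x) e := by
  have k : ∀ c ∈ M.tri e, yP M e x u (M.vtx (M.triK e) c) = x := by
    intro c hc
    rw [h.cut.vtx_self (DartMap.mem_triK.2 (.inl hc)), yP, if_neg]
    rintro rfl
    exact h.cut.tr.op_notMem_tri (x := e) (d := e) (by simp [DartMap.tri]) hc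
  rw [faceDet_tri hL _ hd]
  simp only [faceDet]
  rw [k e (by simp [DartMap.tri]), k (M.nx e) (by simp [DartMap.tri]),
    k (M.nx (M.nx e)) (by simp [DartMap.tri])]

lemma other_walls (h : Adm ρ M L) {e : D} (h2 : 2 ≤ tr (lf ρ L (M.nx e)))
    (h3 : 2 ≤ tr (lf ρ L (M.nx (M.nx e)))) {x : V} (r2 : rot (lf ρ L (M.nx e)) x < 0)
    (r3 : rot (lf ρ L (M.nx (M.nx e))) x < 0) {w : D} (hw : w ∈ M.triK e \ M.tri e)
    (hne : w ≠ M.op e) : 2 ≤ tr (lf ρ L w) ∧ 0 < rot (lf ρ L w) x := by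
  rw [h.mark.tr.triK_sdiff] at hw
  simp only [mem_insert, mem_singleton] at hw
  rcases hw with rfl | rfl | rfl
  · exact absurd rfl hne
  · rw [lf_op h.mark.lab (by linarith), tr_inv, rot_inv]; exact ⟨h2, by linarith⟩
  · rw [lf_op h.mark.lab (by linarith), tr_inv, rot_inv]; exact ⟨h3, by linarith⟩

/-- the counting lemma in a bad pants state -/
lemma count_pants (h : Adm ρ M L) {e : D} (hB : Bad ρ M L e) (h1 : 0 < tr (lf ρ L e))
    (h2 : 2 ≤ tr (lf ρ L (M.nx e))) (h3 : 2 ≤ tr (lf ρ L (M.nx (M.nx e)))) {x u : V} (hx : Hyp x)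
    (r2 : rot (lf ρ L (M.nx e)) x < 0) (r3 : rot (lf ρ L (M.nx (M.nx e))) x < 0) (hu : Cone u)
    (hs : Spec (lf ρ L e)⁻¹ u ∨ (2 ≤ tr (lf ρ L e) ∧ ((Hyp u ∧ 0 < rot (lf ρ L e)⁻¹ u) ∨
      (B u u = 0 ∧ 0 ≤ rot (lf ρ L e)⁻¹ u)))) {d : D} (hd : d ∉ M.tri e)
    (h0 : d ∈ M.tri (M.op e) → 0 < rot (lf ρ L e)⁻¹ u) :
    0 < faceDet M L ρ (fun d => yP M e x u (M.vtx (M.triK e) d)) d := by
  have hL := h.mark.lab
  have hy : ∀ d, Cone (yP M e x u d) := fun d => by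
    unfold yP
    split_ifs
    · exact hu
    · exact hx.cone
  have hop := lf_op (ρ := ρ) hL h1
  have y1 : yP M e x u (M.op e) = u := if_pos rfl
  have y2 : ∀ w, w ≠ M.op e → yP M e x u w = x := fun w hw => if_neg hw
  refine count hL hB.1 hy (M.op e) (fun w hw => ?_)
    (bud_bad h hB h1 (by linarith) (by linarith) ⟨hy, fun w hw => ?_⟩) hd fun w hw hdw => ?_
  · by_cases c : w = M.op e
    · subst c
      rw [hop, y1, tr_inv]
      exact hs.imp (fun k => ⟨rfl, k⟩) id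
    · have := other_walls h h2 h3 r2 r3 hw c
      rw [y2 w c]
      exact .inr ⟨this.1, .inl ⟨hx, this.2⟩⟩
  · by_cases c : w = M.op e
    · subst c
      rw [hop, y1, tr_inv]
      exact hs.imp (fun k => k.2.2.1.tim) fun k => k.1
    · exact .inr (other_walls h h2 h3 r2 r3 hw c).1
  · by_cases c : w = M.op e
    · subst c
      rw [hop, y1]
      exact h0 hdw
    · rw [y2 w c]
      exact (other_walls h h2 h3 r2 r3 hw c).2

lemma cfg (h : Adm ρ M L) {e : D} (hP : M.Pants e) {x u : V} (hx : Hyp x) (hu : Hyp u)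
    (hd : 0 < faceDet M L ρ (fun _ => x) e)
    (hpos : ∀ d, d ∉ M.tri e →
      0 < faceDet M L ρ (fun d => yP M e x u (M.vtx (M.triK e) d)) d) : ACfg ρ M L e x u := by
  refine ⟨h, hx, hu, fun d => ?_⟩
  rw [pos2_eq hP]
  by_cases c : d ∈ M.tri e
  · rwa [face_pants h.mark.lab hP x u c]
  · exact hpos d c

lemma exists_dir {τ : ℝ} {A : SL(2, ℝ)} (hA : Ell τ A) {p q z : V} (hp : Hyp p) (hf : A • p = p)
    (hq : Hyp q) (hqp : q ≠ p) (hz : Hyp z) (hzp : z ≠ p) :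
    ∃ ν : V, Cone ν ∧ 0 < det3 p (A⁻¹ • ν - ν) q ∧ det3 p z ν ≠ 0 := by
  have sub2 : ∀ u v w : V, det3 p (u - v) w = det3 p u w - det3 p v w := fun u v w => by
    simp only [det3, Prod.fst_sub, Prod.snd_sub]; ring
  have f1 : 0 < det3 p (A⁻¹ • q - q) q := by
    have := det_centre hA hp hf (hq.smul A⁻¹) (fun e => hqp (by rw [← hf, ← e, smul_inv_smul]))
    rw [smul_inv_smul] at this
    rw [sub2, det3_self23, sub_zero, det3_cyc]
    exact this
  have g1 : 0 < det3 p z (A • z) := by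
    rw [det3_cyc]; exact det_centre hA hp hf hz hzp
  by_cases c : det3 p z q = 0
  · set t := det3 p (A⁻¹ • A • z - A • z) q with ht
    have ha : 0 < (|t| + 1) / det3 p (A⁻¹ • q - q) q := by positivity
    refine ⟨((|t| + 1) / det3 p (A⁻¹ • q - q) q) • q + A • z,
      (hq.cone.pos_smul ha).add (hz.smul A).cone, ?_, ?_⟩
    · rw [smul_add, smul_comm, add_sub_add_comm, ← smul_sub, det3_add_2, det3_smul_2,
        div_mul_cancel₀ _ f1.ne', ← ht]
      linarith [neg_abs_le t]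
    · rw [det3_add_3, det3_smul_3, c, mul_zero, zero_add]
      exact g1.ne'
  · exact ⟨q, hq.cone, f1, c⟩

lemma lp_small {A : SL(2, ℝ)} {p : V} (hp : Hyp p) (hf : A • p = p) {ν : V} (hν : Cone ν) {r : ℝ}
    (hr : 0 < r) : ∀ᶠ s in nhdsWithin (0 : ℝ) (Set.Ioi 0),
      lpV A ((nrm (p + s • ν))⁻¹ • (p + s • ν)) ≤ r := by
  have hc : Continuous fun s : ℝ =>
      Real.cosh r * B (p + s • ν) (p + s • ν) - B (p + s • ν) (A • (p + s • ν)) := by fun_prop
  have h0 : 0 < Real.cosh r * B (p + (0 : ℝ) • ν) (p + (0 : ℝ) • ν) -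
      B (p + (0 : ℝ) • ν) (A • (p + (0 : ℝ) • ν)) := by
    simp only [zero_smul, add_zero, hf, hp.2, mul_one]
    exact cosh_sub_one_pos hr
  filter_upwards [nhdsWithin_le_nhds (hc.continuousAt.eventually (lt_mem_nhds h0)),
    self_mem_nhdsWithin] with s h1 hs
  have hT : Tim (p + s • ν) := hp.tim.add_cone (hν.pos_smul hs)
  have hN := hT.nrm_pos
  rw [lpV, dV_le_iff hT.normalize (hT.normalize.smul A) hr.le, smul_comm, B_smul_left,
    B_smul_right, ← mul_assoc, ← mul_inv, inv_mul_le_iff₀ (by positivity), ← sq, hT.cone.nrm_sq]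
  linarith

end SMake

open SMake

theorem makeA (h : Adm ρ M L) {e : D} (hB : Bad ρ M L e) (h1 : 2 ≤ tr (lf ρ L e))
    (h2 : 2 ≤ tr (lf ρ L (M.nx e))) (h3 : 2 ≤ tr (lf ρ L (M.nx (M.nx e)))) {x : V} (hx : Hyp x)
    (hd : 0 < faceDet M L ρ (fun _ => x) e) (r1 : 0 < rot (lf ρ L e) x)
    (r2 : rot (lf ρ L (M.nx e)) x < 0) (r3 : rot (lf ρ L (M.nx (M.nx e))) x < 0) {κ ε : ℝ}
    (hκ : 0 < κ) (hε : 0 < ε) : AS D ρ κ (tl (lf ρ L e) + lpV (lf ρ L e) x + ε) := by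
  have hL := h.mark.lab
  obtain ⟨κ₀, hκ₀, hl⟩ := lpV_near_tl (A := lf ρ L e) (h1.trans (le_abs_self _)) hε
  have hk : 0 < min κ (min κ₀ (rot (lf ρ L e) x)) := lt_min hκ (lt_min hκ₀ r1)
  suffices H : ∃ u, Hyp u ∧ |rot (lf ρ L e) u| ≤ min κ (min κ₀ (rot (lf ρ L e) x)) ∧
      ∀ d, d ∉ M.tri e → 0 < faceDet M L ρ (fun d => yP M e x u (M.vtx (M.triK e) d)) d by
    obtain ⟨u, hu, hr, hpos⟩ := H
    rw [le_min_iff, le_min_iff] at hr
    exact ⟨M, L, e, x, u, cfg h hB.1 hx hu hd hpos, hr.1, hr.2.2, by linarith [hl u hu hr.2.1]⟩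
  rcases h1.lt_or_eq with h1' | h1'
  · obtain ⟨u, hu, u1, u2⟩ := exists_rot_small (A := (lf ρ L e)⁻¹) (by rwa [tr_inv]) hk
    refine ⟨u, hu, ?_, fun d hd => count_pants h hB (by linarith) h2 h3 hx r2 r3 hu.cone
      (.inr ⟨h1, .inl ⟨hu, u1⟩⟩) hd fun _ => u1⟩
    rwa [← abs_neg, ← rot_inv, abs_of_pos u1]
  · have hop := lf_op (ρ := ρ) hL (d := e) (by linarith)
    have r0 : rot (lf ρ L e)⁻¹ oV < 0 := by
      have := rot_pos_all (A := lf ρ L e) (by rw [← h1']; norm_num) hx.tim r1 hyp_oV.tim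
      rw [rot_inv]; linarith
    obtain ⟨p1, -, p3⟩ := par_data (A := (lf ρ L e)⁻¹) (by rw [tr_inv, h1']) r0
    have hw := (hB.1.walls (d := e) (by simp [DartMap.tri]))
    have hy : ∀ d, Cone (yP M e x (ax (lf ρ L e)⁻¹⁻¹) d) := fun d => by
      unfold yP
      split_ifs
      · exact p1.1
      · exact hx.cone
    have hpos : ∀ d, d ∉ M.tri e → d ∉ M.tri (M.op e) → 0 < faceDet M L ρ
        (fun d => yP M e x (ax (lf ρ L e)⁻¹⁻¹) (M.vtx (M.triK e) d)) d := fun d hd hd' =>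
      count_pants h hB (by linarith) h2 h3 hx r2 r3 p1.1 (.inr ⟨h1, .inr ⟨p1.2, p3.ge⟩⟩) hd
        fun c => absurd c hd'
    obtain ⟨y₀, a1, a2, a3, a4⟩ := lift hL hB.1 hy (W := {M.op e})
      (singleton_subset_iff.2 (mem_sdiff.2 ⟨hw.1, hw.2.1⟩))
      (fun w hw => by
        rw [mem_singleton.1 hw, hop, tr_inv]
        exact ⟨h1'.symm, r0, if_pos rfl⟩)
      (fun d hd => by rw [yP, if_neg (fun c => hd (mem_singleton.2 c))]; exact hx)
      (fun w hw' => by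
        rw [mem_singleton.1 hw']
        exact nonCol_apex hL hB.1 hy (mem_sdiff.2 ⟨hw.1, hw.2.1⟩) hpos)
      (fun d hd hd' => hpos d hd (hd' _ (mem_singleton_self _))) hk
    have e0 : yP M e x (y₀ (M.op e)) = y₀ := by
      funext d
      by_cases c : d = M.op e
      · rw [c, yP, if_pos rfl]
      · rw [a2 d (fun k => c (mem_singleton.1 k)), yP, yP, if_neg c, if_neg c]
    refine ⟨y₀ (M.op e), a1 _, ?_, by rw [e0]; exact a4⟩
    have := a3 _ (mem_singleton_self _)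
    rwa [hop, rot_inv, abs_neg] at this

theorem makeE0 (h : Adm ρ M L) {e : D} {τ : ℝ} (hE : Ell τ (lf ρ L e)) {p z : V} (hp : Hyp p)
    (hf : lf ρ L e • p = p) (hz : Hyp z) (hne : z ≠ p)
    (hpos : ∀ d, d ∉ M.tri (M.op e) → 0 < faceDet M L ρ (pos2 M e z p) d) {κ : ℝ} (hκ : 0 < κ) :
    ES D ρ τ κ (lpV (lf ρ L e) z) := by
  have hL := h.mark.lab
  have hP := h.mark.tr.ps_edge e
  have ht : |tr (lf ρ L e)| < 2 := by rw [hE.2.2.1, abs_of_pos hE.1]; exact hE.2.1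
  have hop := lf_op (ρ := ρ) hL (d := e) (by rw [hE.2.2.1]; exact hE.1)
  let y : D → V := fun d => if d = e then z else p
  have hy : ∀ d, Hyp (y d) := fun d => by
    simp only [y]
    split_ifs
    · exact hz
    · exact hp
  have y1 : y (M.op e) = p := if_neg (M.op_ne e)
  have hw : M.op e ∈ ({e, M.op e} : Finset D) \ ∅ := by simp
  have hc := apex_B hL (nonCol_apex (ρ := ρ) hL hP (fun d => (hy d).cone) hw
    fun d _ hd => hpos d hd)
  simp only [hP.cut.vtx_self (mem_sdiff.1 hw).1, (hy _).2, y1] at hc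
  set q := ρ (L (M.op e) * L (M.nx (M.op e))) • y (M.vtx {e, M.op e} (M.nx (M.nx (M.op e))))
    with hq
  have hq1 : Hyp q := (hy _).psmul _
  obtain ⟨ν, n1, n2, n3⟩ := exists_dir hE hp hf hq1
    (fun c => by rw [c, hp.2] at hc; simp at hc) hz hne
  have e1 := uncollapse (ρ := ρ) (L := L) hP (y := y) (ν := fun d => if d = M.op e then ν else 0)
    (W := {M.op e}) (singleton_subset_iff.2 hw)
    (fun d hd => if_neg fun c => hd (mem_singleton.2 c))
    (fun w hw => by rw [mem_singleton.1 hw, ← lf_smul, hop, y1, inv_smul_eq_iff, hf])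
    (fun w hw => by
      rw [mem_singleton.1 hw, ← lf_smul, hop, y1]
      simpa only [if_true] using n2)
    hL fun d _ hd => hpos d (hd _ (mem_singleton_self _))
  have hlz : 0 < lpV (lf ρ L e) z := lt_of_le_of_ne (lpV_nonneg _ hz) fun c =>
    hne (centre_unique ht hz hp ((lpV_eq_zero_iff _ hz).1 c.symm) hf)
  obtain ⟨s, ⟨h1, h2⟩, hs⟩ :=
    ((e1.and (lp_small hp hf n1 (lt_min hκ hlz))).and self_mem_nhdsWithin).exists
  have hs0 : 0 < s := hs
  have hT : Tim (p + s • ν) := hp.tim.add_cone (n1.pos_smul hs0)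
  have hN := inv_pos.2 hT.nrm_pos
  rw [le_min_iff] at h2
  refine ⟨M, L, e, z, (nrm (p + s • ν))⁻¹ • (p + s • ν), ⟨h, hz, hT.normalize, fun d => ?_⟩, hE,
    fun a b ha hb hH hfix => ?_, h2.1, h2.2, le_rfl⟩
  · refine (faceDet_scale (fun d => ?_) d).2 (h1 d (notMem_empty d))
    rcases vtx_edge h.mark.tr e d with c | c
    · exact ⟨1, one_pos, by simp [pos2, y, c, (M.op_ne e).symm]⟩
    · exact ⟨_, hN, by simp [pos2, y, c, M.op_ne e]⟩
  · have k := centre_unique ht hH hp hfix hf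
    have k1 := congrArg (det3 p z) k
    rw [det3_add_3, det3_smul_3, det3_smul_3, det3_smul_3, det3_add_3, det3_smul_3, det3_self23,
      det3_self13, mul_zero, zero_add, zero_add] at k1
    have hb0 : b = 0 := by
      rcases mul_eq_zero.1 k1 with c | c
      · exact c
      · exact absurd c (mul_ne_zero hN.ne' (mul_ne_zero hs0.ne' n3))
    rw [hb0, zero_smul, add_zero] at k
    have k2 := hp.2
    rw [← k, B_smul_left, B_smul_right, hz.2] at k2
    have ha1 : a = 1 := by nlinarith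
    rw [ha1, one_smul] at k
    exact hne k

theorem makeE (h : Adm ρ M L) {e : D} (hB : Bad ρ M L e) {τ : ℝ} (hE : Ell τ (lf ρ L e))
    (h2 : 2 ≤ tr (lf ρ L (M.nx e))) (h3 : 2 ≤ tr (lf ρ L (M.nx (M.nx e)))) {x : V} (hx : Hyp x)
    (hd : 0 < faceDet M L ρ (fun _ => x) e) (r2 : rot (lf ρ L (M.nx e)) x < 0)
    (r3 : rot (lf ρ L (M.nx (M.nx e))) x < 0) {κ : ℝ} (hκ : 0 < κ) :
    ES D ρ τ κ (lpV (lf ρ L e) x) := by
  have t0 : 0 < tr (lf ρ L e) := by rw [hE.2.2.1]; exact hE.1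
  have t2 : tr (lf ρ L e) < 2 := by rw [hE.2.2.1]; exact hE.2.1
  have ht : |tr (lf ρ L e)| < 2 := by rwa [abs_of_pos t0]
  obtain ⟨p, hp, hf, -⟩ := exists_centre ht
  have hr := rot_pos_all ht.le hyp_oV.tim hE.2.2.2 hp.tim
  refine makeE0 h hE hp hf hx (fun c => ?_) (fun d hd' => ?_) hκ
  · rw [faceDet_const, c, hf, det3_self12] at hd
    exact lt_irrefl _ hd
  · rw [pos2_eq hB.1]
    by_cases c : d ∈ M.tri e
    · rwa [face_pants h.mark.lab hB.1 x p c]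
    · exact count_pants h hB t0 h2 h3 hx r2 r3 hp.cone
        (.inl ⟨by rwa [tr_inv], by rwa [tr_inv], hp, by rw [inv_smul_eq_iff, hf],
          by rw [rot_inv]; linarith⟩) c fun k => absurd k hd'

theorem init_place (h : Adm ρ M L) (hP : M.PS K F) (hn : M.NoAnn K F)
    (h2 : ∀ w ∈ K \ F, 2 ≤ tr (lf ρ L w)) {y : D → V} (hy : ∀ d, Cone (y d))
    (hb : bud ρ M L K F (lf ρ L) y = 3 * Real.pi * (K \ F).card) {κ : ℝ} (hκ : 0 < κ) :
    ∃ y₀ : D → V, (∀ d, Hyp (y₀ d)) ∧ (∀ w ∈ K \ F, |rot (lf ρ L w) (y₀ w)| ≤ κ) ∧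
      ∀ d, d ∉ F → 0 < faceDet M L ρ (fun d => y₀ (M.vtx K d)) d := by
  have hL := h.mark.lab
  let W := (K \ F).filter fun w => tr (lf ρ L w) = 2
  have hW : ∀ w, w ∈ W ↔ w ∈ K \ F ∧ tr (lf ρ L w) = 2 := fun w => mem_filter
  have hneg : ∀ w ∈ W, rot (lf ρ L w) oV < 0 := fun w hw =>
    np h hP hn h2 hy hb ((hW w).1 hw).1 ((hW w).1 hw).2
  have hd := fun w hw => par_data ((hW w).1 hw).2 (hneg w hw)
  have ex : ∀ d, ∃ v, (d ∈ W → v = ax (lf ρ L d)⁻¹) ∧ (d ∉ W → Hyp v ∧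
      (d ∈ K \ F → 0 < rot (lf ρ L d) v ∧ rot (lf ρ L d) v ≤ κ)) := by
    intro d
    by_cases c : d ∈ W
    · exact ⟨_, fun _ => rfl, fun k => absurd c k⟩
    by_cases c' : d ∈ K \ F
    · obtain ⟨v, v1, v2⟩ := exists_rot_small (A := lf ρ L d)
        (lt_of_le_of_ne (h2 d c') fun k => c ((hW d).2 ⟨c', k.symm⟩)) hκ
      exact ⟨v, fun k => absurd k c, fun _ => ⟨v1, fun _ => v2⟩⟩
    · exact ⟨oV, fun k => absurd k c, fun _ => ⟨hyp_oV, fun k => absurd k c'⟩⟩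
  choose z z1 z2 using ex
  have hz : ∀ d, Cone (z d) := fun d => by
    by_cases c : d ∈ W
    · rw [z1 d c]; exact (hd d c).1.1
    · exact (z2 d c).1.cone
  have hb' := (bud_indep hL hP (lifts_lf (ρ := ρ) L (K \ F)) (y := z) (y' := y)
    ⟨hz, fun w hw => .inr (h2 w hw)⟩ ⟨hy, fun w hw => .inr (h2 w hw)⟩).trans hb
  have hpos : ∀ d, d ∉ F → (∀ w ∈ W, d ∉ M.tri w) →
      0 < faceDet M L ρ (fun d => z (M.vtx K d)) d := by
    intro d hdF hdW
    refine count hL hP hz d (fun w hw => .inr ⟨h2 w hw, ?_⟩) hb' hdF fun w hw hdw => ?_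
    · by_cases c : w ∈ W
      · rw [z1 w c]; exact .inr ⟨(hd w c).1.2, (hd w c).2.2.ge⟩
      · exact .inl ⟨(z2 w c).1, ((z2 w c).2 hw).1⟩
    · exact ((z2 w fun c => hdW w c hdw).2 hw).1
  have hc : ∀ w ∈ W, NonCol ρ M L (fun d => z (M.vtx K d)) (M.nx (M.nx w)) := by
    intro w hw
    obtain ⟨wK, wF⟩ := mem_sdiff.1 ((hW w).1 hw).1
    refine nonCol_all hL hP hn hz (fun d hg => hpos d hg.1 fun v hv c => ?_) (fun v hv => ?_)
      (hP.nx_notMem wK wF).2 (by rwa [hP.cl.nx_mem_iff, hP.cl.nx_mem_iff])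
    · have vK := (mem_sdiff.1 ((hW v).1 hv).1).1
      have : v ∈ M.tri d := by rw [DartMap.tri_eq_of_mem c]; simp [DartMap.tri]
      rcases DartMap.mem_tri.1 this with rfl | rfl | rfl
      exacts [hg.2.1 vK, hg.2.2.1 vK, hg.2.2.2 vK]
    · by_cases c : v ∈ W
      · exact .inr ⟨1, one_pos, by rw [← lf_smul, z1 v c, one_smul]; exact (hd v c).2.1⟩
      · exact .inl (hpos v (mem_sdiff.1 hv).2 fun u hu k =>
          c (wall_tri hP ((hW u).1 hu).1 (mem_sdiff.1 hv).1 k ▸ hu))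
  obtain ⟨y₀, a1, a2, a3, a4⟩ := lift hL hP hz (W := W) (filter_subset _ _)
    (fun w hw => ⟨((hW w).1 hw).2, hneg w hw, z1 w hw⟩) (fun d hd => (z2 d hd).1) hc hpos hκ
  refine ⟨y₀, a1, fun w hw => ?_, a4⟩
  by_cases c : w ∈ W
  · exact a3 w c
  · rw [a2 w c, abs_of_pos ((z2 w c).2 hw).1]
    exact ((z2 w c).2 hw).2

end A25f44
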