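import Pool.Agent.Lib.MP_a25f44_gt.SComb

/-! The sweep lemma for a cut state. -/

open scoped MatrixGroups
open Pool.Agent.Lib.MP_a25f44_gt Finset

noncomputable section

namespace A25f44

variable {D Γ : Type} [Group Γ] [Fintype D] [DecidableEq D] {ρ : Γ →* PSL(2, ℝ)}
  {M : DartMap D} {L : D → Γ} {K F : Finset D}

/-- the sweep lemma for a cut state -/
theorem sweepPS (h : Adm ρ M L) (hP : M.PS K F) {y₀ y₁ : D → V} (h₀ : ∀ d, Hyp (y₀ d))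
    (h₁ : ∀ d, Hyp (y₁ d)) (hpos : ∀ d, d ∉ F → 0 < faceDet M L ρ (fun d => y₀ (M.vtx K d)) d)
    (hw : ∀ w ∈ K \ F, ∀ s t : ℝ, 0 ≤ s → 0 ≤ t → Hyp (s • y₀ w + t • y₁ w) →
      ρ (L w) • (s • y₀ w + t • y₁ w) ≠ s • y₀ w + t • y₁ w) {η : ℝ} (hη : 0 < η) :
    ∃ (M' : DartMap D) (L' : D → Γ) (y : D → V), Adm ρ M' L' ∧ M'.op = M.op ∧ M'.PS K F ∧
      (M.NoAnn K F → M'.NoAnn K F) ∧ (∀ d ∈ F, M'.nx d = M.nx d ∧ L' d = L d) ∧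
      (∀ d ∈ K, L' d = L d) ∧
      (∀ d, Hyp (y d) ∧ ∃ s t : ℝ, 0 ≤ s ∧ 0 ≤ t ∧ s + t ≤ 1 ∧ y d = s • y₀ d + t • y₁ d) ∧
      (∀ d, d ∉ F → 0 < faceDet M' L' ρ (fun d => y (M'.vtx K d)) d) ∧
      (y = y₁ ∨
        (∃ d, d ∉ F ∧ d ∉ K ∧ dV (y (M'.vtx K d)) (ρ (L' d) • y (M'.vtx K (M'.nx d))) ≤ η) ∨
        ∃ w ∈ K \ F, ∃ s t : ℝ, 0 ≤ s ∧ 0 ≤ t ∧ Hyp (s • y w + t • ρ (L' w) • y w) ∧
          dV (s • y w + t • ρ (L' w) • y w)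
            (ρ (L' w * L' (M'.nx w)) • y (M'.vtx K (M'.nx (M'.nx w)))) ≤ η) := by
  obtain ⟨X, H⟩ := sweep (C := D) ρ {d | d ∉ F} (K : Set D)
    (fun M' L' c => Adm ρ M' L' ∧ M'.op = M.op ∧ M'.PS K F ∧ (M.NoAnn K F → M'.NoAnn K F) ∧
      (∀ d ∈ F, M'.nx d = M.nx d ∧ L' d = L d) ∧ (∀ d ∈ K, L' d = L d) ∧ c = M'.vtx K)
    (fun _ _ _ k => k.1.mark.lab)
    (fun _ _ _ k d hd c => hd ((k.2.2.1.cl.nx_mem_iff d).1 c))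
    (fun M' _ _ k d hd hK => ⟨fun c => hd ((k.2.2.1.cl.op_mem_iff k.2.2.1.cut.inv hK).1 c),
      k.2.2.1.cut.op_notMem hK, by rw [k.2.2.2.2.2.2]; exact k.2.2.1.cut.vtx_op d hK⟩)
    (by
      rintro M' L' c ⟨k1, k2, k3, k4, k5, k6, rfl⟩ d hd hK - -
      have hK' : M'.op d ∉ K := k3.cut.op_notMem hK
      have hd' : M'.op d ∉ F := fun c => hd ((k3.cl.op_mem_iff k3.cut.inv hK).1 c)
      have nt : ∀ x ∈ F, ∀ a, a ∉ F → x ∉ M'.tri a := fun x hx a ha c =>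
        ha (k3.cl.tri_subset hx (by rw [DartMap.tri_eq_of_mem c]; simp [DartMap.tri]))
      have fl : ∀ x, x ≠ d → x ≠ M'.op d → M'.flipL L' d x = L' x := fun x a b => by
        simp [DartMap.flipL, a, b]
      refine ⟨M'.flip d, M'.flipL L' d, (M'.flip d).vtx K, ⟨k1.of_move (k1.mark.flip d), k2,
        k3.flip hK hd, fun c => (k4 c).flip k3 hK, fun x hx => ⟨?_, ?_⟩, fun x hx => ?_, rfl⟩,
        k3.cut.isFlip L' hK _⟩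
      · rw [(k3.cut.tr.flip_nx d).2.2.2.2.2.2 x (nt x hx d hd) (nt x hx _ hd'), (k5 x hx).1]
      · rw [fl x (fun c => hd (c ▸ hx)) (fun c => hd' (c ▸ hx)), (k5 x hx).2]
      · rw [fl x (fun c => hK (c ▸ hx)) (fun c => hK' (c ▸ hx)), k6 x hx])
    (fun t c => seg (y₀ c) (y₁ c) t) (seg_motion y₀ y₁ h₀ h₁) M L (M.vtx K)
    ⟨h, rfl, hP, id, fun _ _ => ⟨rfl, rfl⟩, fun _ _ => rfl, rfl⟩
    (fun d hd => by simpa only [seg_zero (h₀ _)] using hpos d hd)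
    (fun t ht d hd hK => by
      rw [hP.cut.vtx_self hK, hP.loop d hK hd]
      have a := hyp_seg (h₀ d) (h₁ d) ht
      obtain ⟨ν, n0, -, e⟩ := seg_eq (h₀ d) (h₁ d) ht
      rw [e] at a ⊢
      exact (hw d (mem_sdiff.2 ⟨hK, hd⟩) _ _ (mul_nonneg n0.le (sub_nonneg.2 ht.2))
        (mul_nonneg n0.le ht.1) a).symm)
  obtain ⟨M', L', c, t, ht, ⟨k1, k2, k3, k4, k5, k6, rfl⟩, p1, -, p3⟩ := H _ (cosh_sub_one_pos hη)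
  have hy : ∀ d, Hyp (seg (y₀ d) (y₁ d) t) := fun d => hyp_seg (h₀ d) (h₁ d) ht
  refine ⟨M', L', fun d => seg (y₀ d) (y₁ d) t, k1, k2, k3, k4, k5, k6, fun d => ⟨hy d, ?_⟩,
    fun d hd => (p1 d hd).1, ?_⟩
  · obtain ⟨ν, n0, n1, e⟩ := seg_eq (h₀ d) (h₁ d) ht
    exact ⟨_, _, mul_nonneg n0.le (sub_nonneg.2 ht.2), mul_nonneg n0.le ht.1, by linarith, e⟩
  · rcases p3 with rfl | ⟨d, hd, hK, e⟩ | ⟨w, hd, hK, α, β, a, b, e1, e2⟩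
    · exact Or.inl (funext fun d => seg_one _ (h₁ d))
    · exact Or.inr (Or.inl ⟨d, hd, hK, (dV_lt_of_B_lt (hy _) ((hy _).psmul _) hη e).le⟩)
    · simp only [k3.cut.vtx_self hK, k3.loop w hK hd] at e1 e2
      exact Or.inr (Or.inr ⟨w, mem_sdiff.2 ⟨hK, hd⟩, α, β, a.le, b.le, e1,
        (dV_lt_of_B_lt e1 ((hy _).psmul _) hη e2).le⟩)

end A25f44
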