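import Pool.Agent.Lib.MP_a25f44_gt.SShort
import Pool.Agent.Lib.MP_a25f44_gt.SMake
import Pool.Agent.Lib.MP_a25f44_gt.SSweep

/-! Placement with small turning. -/

open scoped MatrixGroups
open Pool.Agent.Lib.MP_a25f44_gt Finset

noncomputable section

namespace A25f44

variable {D Γ : Type} [Group Γ] [Fintype D] [DecidableEq D] {ρ : Γ →* PSL(2, ℝ)}
  {M : DartMap D} {L : D → Γ} {K F : Finset D}

/-- a bounded loop has bounded `rot` -/
lemma SPlace.abs_rot_le {A : SL(2, ℝ)} {x : V} (hx : Hyp x) {b : ℝ} (h : lpV A x ≤ b) :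
    |rot A x| ≤ Real.cosh b := by
  have h0 := lpV_nonneg A hx
  have h1 := cosh_half_lpV_sq A hx
  have h2 : Real.cosh (lpV A x / 2) ≤ Real.cosh b := by
    rw [Real.cosh_le_cosh, abs_of_nonneg (by linarith), abs_of_nonneg (by linarith)]
    linarith
  refine le_trans ?_ h2
  exact abs_le_of_sq_le_sq (by nlinarith [sq_nonneg (tr A / 2)]) (Real.cosh_pos _).le

omit [Fintype D] [DecidableEq D] in
/-- the formal faces are kept -/
lemma SPlace.faceAr_keep {M' : DartMap D} {L' : D → Γ} (hP : M.PS K F)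
    (hF : ∀ d ∈ F, M'.nx d = M.nx d ∧ L' d = L d) (x : V) {d : D} (hd : d ∈ F) :
    faceAr M' L' ρ (fun _ => x) d = faceAr M L ρ (fun _ => x) d ∧
      faceDet M' L' ρ (fun _ => x) d = faceDet M L ρ (fun _ => x) d := by
  simp only [faceAr, faceDet, (hF d hd).1, (hF d hd).2, (hF _ (hP.cl.1 d hd)).2, and_self]

theorem place (Bd : ℝ) : ∃ κ : ℝ, 0 < κ ∧ ∀ (M : DartMap D) (L : D → Γ) (K F : Finset D) (x : V),
    Adm ρ M L → M.PS K F → M.NoAnn K F → (∀ w ∈ K \ F, 2 ≤ tr (lf ρ L w)) → Hyp x →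
    bud ρ M L K F (lf ρ L) (fun _ => x) = 3 * Real.pi * (K \ F).card →
    (∀ w ∈ K \ F, lpV (lf ρ L w) x ≤ Bd ∧ -κ ≤ rot (lf ρ L w) x) →
    ∃ (M' : DartMap D) (L' : D → Γ), Adm ρ M' L' ∧ M'.op = M.op ∧
      (∀ d ∈ F, M'.nx d = M.nx d ∧ L' d = L d) ∧
      ∀ d, d ∉ F → 0 < faceDet M' L' ρ (fun _ => x) d := by
  obtain ⟨b', hb'⟩ := lpV_le_of_bounds (2 * Real.cosh Bd)
  obtain ⟨κ₁, hκ₁, H₁⟩ := no_short (D := D) (ρ := ρ) b'
  obtain ⟨κ₂, hκ₂, H₂⟩ := no_touch (D := D) (ρ := ρ) b'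
  have hc1 := Real.one_le_cosh Bd
  refine ⟨min 1 (min κ₁ κ₂), lt_min one_pos (lt_min hκ₁ hκ₂), ?_⟩
  intro M L K F x h hP hn h2 hx hb hB
  set κ := min 1 (min κ₁ κ₂) with hκdef
  have hκ : 0 < κ := lt_min one_pos (lt_min hκ₁ hκ₂)
  have hκ0 : κ ≤ 1 := min_le_left _ _
  have hκ1 : κ ≤ κ₁ := (min_le_right _ _).trans (min_le_left _ _)
  have hκ2 : κ ≤ κ₂ := (min_le_right _ _).trans (min_le_right _ _)
  obtain ⟨y₀, hy₀, hr₀, hp₀⟩ := init_place h hP hn h2 (y := fun _ => x) (fun _ => hx.cone) hb hκ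
  obtain ⟨M', L', y, h', hop, hP', hn', hF, hK, hy, hpos, hev⟩ :=
    sweepPS h hP hy₀ (y₁ := fun _ => x) (fun _ => hx) hp₀
      (fun w hw s t _ _ hH => by
        rw [← lf_smul]
        exact no_fix (h2 w hw) (lf_ne_one h w).1 hH) hκ
  have hlf : ∀ w ∈ K \ F, lf ρ L' w = lf ρ L w := fun w hw => by
    rw [lf, lf, hK w (mem_sdiff.1 hw).1]
  have h2' : ∀ w ∈ K \ F, 2 ≤ tr (lf ρ L' w) := fun w hw => by rw [hlf w hw]; exact h2 w hw
  have hb2 : bud ρ M' L' K F (lf ρ L') y = 3 * Real.pi * (K \ F).card := by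
    rw [bud_indep h'.mark.lab hP' (lifts_lf L' _) (y' := fun _ => x)
      ⟨fun d => (hy d).1.cone, fun w hw => Or.inr (h2' w hw)⟩
      ⟨fun _ => hx.cone, fun w hw => Or.inr (h2' w hw)⟩, bud_const h' _ hx.cone, ← hb,
      bud_const h _ hx.cone]
    have e1 : ∑ d ∈ F, (Real.pi - faceAr M' L' ρ (fun _ => x) d) =
        ∑ d ∈ F, (Real.pi - faceAr M L ρ (fun _ => x) d) :=
      sum_congr rfl fun d hd => by rw [(SPlace.faceAr_keep (ρ := ρ) hP hF x hd).1]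
    have e2 : ∑ w ∈ K \ F, qa (lf ρ L' w) x = ∑ w ∈ K \ F, qa (lf ρ L w) x :=
      sum_congr rfl fun w hw => by rw [hlf w hw]
    rw [e1, e2]
  have hB' : ∀ w ∈ K \ F, lpV (lf ρ L' w) (y w) ≤ b' ∧ -κ ≤ rot (lf ρ L' w) (y w) := by
    intro w hw
    rw [hlf w hw]
    obtain ⟨hH, s, t, hs, ht, hst, e⟩ := hy w
    have er : rot (lf ρ L w) (y w) = s * rot (lf ρ L w) (y₀ w) + t * rot (lf ρ L w) x := by
      rw [e, rot_add, rot_smul, rot_smul]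
    have a0 := abs_le.1 (hr₀ w hw)
    have a1 := abs_le.1 (SPlace.abs_rot_le hx (hB w hw).1)
    have a2 := (hB w hw).2
    refine ⟨hb' _ _ hH (tr_le_of_lpV hx (hB w hw).1) (abs_le.2 ⟨?_, ?_⟩), ?_⟩ <;> rw [er]
    · nlinarith [mul_le_mul_of_nonneg_left a0.1 hs, mul_le_mul_of_nonneg_left a1.1 ht]
    · nlinarith [mul_le_mul_of_nonneg_left a0.2 hs, mul_le_mul_of_nonneg_left a1.2 ht]
    · nlinarith [mul_le_mul_of_nonneg_left a0.1 hs, mul_le_mul_of_nonneg_left a2 ht]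
  rcases hev with rfl | ⟨d, hd, hdK, hs⟩ | ⟨w, hw, s, t, hs, ht, hH, hle⟩
  · exact ⟨M', L', h', hop, hF, hpos⟩
  · have := H₁ M' L' K F y h'.mark.lab hP' (hn' hn) h2' (fun d => (hy d).1) hb2
      (fun w hw => ⟨(hB' w hw).1, by linarith [(hB' w hw).2]⟩) d hd hdK
    linarith
  · have := H₂ M' L' K F y h'.mark.lab hP' (hn' hn) h2' (fun d => (hy d).1) hb2
      (fun w hw => ⟨(hB' w hw).1, by linarith [(hB' w hw).2]⟩) w hw s t hs ht hH
    linarith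

/-- the same, in the form used when the formal faces are positive -/
theorem place_succ (Bd : ℝ) : ∃ κ : ℝ, 0 < κ ∧ ∀ (M : DartMap D) (L : D → Γ) (K F : Finset D)
    (x : V), Adm ρ M L → M.PS K F → M.NoAnn K F → (∀ w ∈ K \ F, 2 ≤ tr (lf ρ L w)) → Hyp x →
    bud ρ M L K F (lf ρ L) (fun _ => x) = 3 * Real.pi * (K \ F).card →
    (∀ w ∈ K \ F, lpV (lf ρ L w) x ≤ Bd ∧ -κ ≤ rot (lf ρ L w) x) →
    (∀ d ∈ F, 0 < faceDet M L ρ (fun _ => x) d) → Succ D ρ := by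
  obtain ⟨κ, hκ, H⟩ := place (D := D) (ρ := ρ) Bd
  refine ⟨κ, hκ, fun M L K F x h hP hn h2 hx hb hB hF => ?_⟩
  obtain ⟨M', L', h', -, hk, hpos⟩ := H M L K F x h hP hn h2 hx hb hB
  refine ⟨M', L', x, h', hx, fun d => ?_⟩
  by_cases hd : d ∈ F
  · rw [(SPlace.faceAr_keep (ρ := ρ) hP hk x hd).2]; exact hF d hd
  · exact hpos d hd

end A25f44
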