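import Pool.Agent.Lib.MP_a25f44_gt.SEllH
import Pool.Agent.Lib.MP_a25f44_gt.SPlace
import Pool.Agent.Lib.MP_a25f44_gt.SNode

/-! Small handles and half turns. -/

open scoped MatrixGroups
open Pool.Agent.Lib.MP_a25f44_gt Finset

noncomputable section

namespace A25f44

variable {D Γ : Type} [Group Γ] [Fintype D] [DecidableEq D] {ρ : Γ →* PSL(2, ℝ)}
  {M : DartMap D} {L : D → Γ} {K F : Finset D}

/-- the handle of a crossing edge, before and after the torus move -/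
theorem ear (h : Adm ρ M L) {e a : D} (ha : Itl M e a) :
    ∃ (M' : DartMap D) (L₀ L' : D → Γ) (x : D) (be : Γ), Adm ρ M' L₀ ∧ Adm ρ M' L' ∧ M'.Pants x ∧
      M'.Ann (M'.op (M'.nx (M'.nx x))) (M'.op (M'.nx x)) ∧ L₀ (M'.nx x) = L e ∧
      L₀ (M'.nx (M'.nx x)) = (L a * L e * (L a)⁻¹)⁻¹ ∧ L₀ x = L a * L e * (L a)⁻¹ * (L e)⁻¹ ∧
      L' x = L₀ x ∧ (∀ d, d ∉ F9 M' x → L' d = L₀ d) ∧
      L' (M'.nx (M'.op (M'.nx (M'.nx x)))) = L a * L e * (L a)⁻¹ ∧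
      L' (M'.nx (M'.nx x)) = (L a * L e * (L a)⁻¹ * be)⁻¹ ∧
      be * (L a * L e * (L a)⁻¹) * be⁻¹ = L e := by
  obtain ⟨M', L₀, x, h0, hx, e1, an, l1, l2, l3⟩ := handle_of_itl h ha
  obtain ⟨L', mv, t1, t2, t3, t4⟩ := h0.mark.torus hx an
  obtain ⟨-, a2, -⟩ := ann_lab h0.mark.lab an
  have k1 : L₀ (M'.nx (M'.nx x)) = (L a * L e * (L a)⁻¹)⁻¹ := by rw [e1, l2]; group
  have k2 : L₀ (M'.op (M'.nx (M'.nx x))) = L a * L e * (L a)⁻¹ := by
    rw [h0.mark.lab.1, k1, inv_inv]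
  refine ⟨M', L₀, L', x, (L₀ (M'.nx (M'.op (M'.nx (M'.nx x)))))⁻¹, h0, h0.of_move mv, hx, an,
    by rw [e1, l1], k1, by rw [l3]; group, t3, fun d hd => ?_, t2.trans k2, ?_, ?_⟩
  · simp only [F9, mem_union, not_or] at hd
    exact t4 d hd.1.1 hd.1.2 hd.2
  · rw [← k2, ← t1, mv.mark.lab.1, inv_inv]
  · rw [← k2, inv_inv, ← a2, e1, l1]

/-- the outcome of a placement in a handle state -/
structure SEllS.Out (ρ : Γ →* PSL(2, ℝ)) (M : DartMap D) (L : D → Γ) (x : D) (p : V) : Prop where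
  adm : Adm ρ M L
  ann : M.Ann (M.op (M.nx (M.nx x))) (M.op (M.nx x))
  out : M.op x ∉ F9 M x
  pos : ∀ d, d ∉ F9 M x → 0 < faceDet M L ρ (fun _ => p) d

theorem SEllS.placed (Bd : ℝ) : ∃ κ : ℝ, 0 < κ ∧ ∀ (M : DartMap D) (L : D → Γ) (x : D) (p : V),
    Adm ρ M L → M.Pants x → M.Ann (M.op (M.nx (M.nx x))) (M.op (M.nx x)) → 2 ≤ tr (lf ρ L x) →
    Hyp p → bud ρ M L (M.triK x) (F9 M x) (lf ρ L) (fun _ => p) =
      3 * Real.pi * (M.triK x \ F9 M x).card → lpV (lf ρ L x) p ≤ Bd → rot (lf ρ L x) p ≤ κ →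
    ∃ (M' : DartMap D) (L' : D → Γ), SEllS.Out ρ M' L' x p ∧ L' x = L x ∧
      L' (M'.nx (M'.nx x)) = L (M.nx (M.nx x)) ∧
      L' (M'.nx (M'.op (M'.nx (M'.nx x)))) = L (M.nx (M.op (M.nx (M.nx x)))) := by
  obtain ⟨κ, h0, H⟩ := place (D := D) (ρ := ρ) Bd
  refine ⟨κ, h0, fun M L x p h hx an h2 hp hb h3 h4 => ?_⟩
  have hL := h.mark.lab
  obtain ⟨ps, e⟩ := handle_ps hx an
  obtain ⟨M', L', h', o, k, pos⟩ := H M L _ _ p h ps (noAnn_one ps e)
    (fun w hw => by rw [e, mem_singleton] at hw; rwa [hw, tr_lf_op hL]) hp hb fun w hw => by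
      rw [e, mem_singleton] at hw
      rw [hw, lpV_lf_op hL, lf_op hL (by linarith), rot_inv]
      exact ⟨h3, by linarith⟩
  have m0 : x ∈ F9 M x := by simp [F9, DartMap.tri]
  have m1 := ps.cl.1 _ m0
  have m2 := ps.cl.1 _ m1
  have v0 : M.op (M.nx (M.nx x)) ∈ F9 M x := by simp [F9, DartMap.tri]
  have w0 : M.op (M.nx x) ∈ F9 M x := by simp [F9, DartMap.tri]
  have t : ∀ d ∈ F9 M x, M'.tri d = M.tri d := fun d hd => by
    rw [DartMap.tri, (k d hd).1, (k _ (ps.cl.1 _ hd)).1, DartMap.tri]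
  have e9 : F9 M' x = F9 M x := by
    rw [F9, (k _ m0).1, (k _ m1).1, o, t _ m0, t _ v0, t _ w0, F9]
  refine ⟨M', L', ⟨h', ?_, ?_, ?_⟩, (k _ m0).2, ?_, ?_⟩
  · rw [DartMap.Ann, (k _ m0).1, (k _ m1).1, o, (k _ v0).1, (k _ w0).1, (k _ (ps.cl.1 _ v0)).1,
      (k _ (ps.cl.1 _ w0)).1]
    exact an
  · rw [e9, o]
    exact (mem_sdiff.1 (e ▸ mem_singleton_self _)).2
  · rwa [e9]
  · rw [(k _ m0).1, (k _ m1).1, (k _ m2).2]
  · rw [(k _ m0).1, (k _ m1).1, o, (k _ v0).1, (k _ (ps.cl.1 _ v0)).2]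

theorem SEllS.fin {x : D} {p : V} (h : SEllS.Out ρ M L x p) (hp : Hyp p)
    (h1 : tr (lf ρ L (M.nx (M.op (M.nx (M.nx x))))) < 2)
    (h2 : lf ρ L (M.nx (M.op (M.nx (M.nx x)))) • p = p)
    (h3 : 0 < faceDet M L ρ (fun _ => p) x) : Succ D ρ := by
  refine node h.adm h1 hp h2 fun d d1 d2 => ?_
  rw [h.ann.1, DartMap.tri_nx] at d2
  rw [DartMap.tri_nx] at d1
  by_cases d0 : d ∈ M.tri x
  · rwa [faceDet_tri h.adm.mark.lab _ d0]
  · exact h.pos d (by simp [F9, d0, d1, d2])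

theorem SEllS.fin_flip {x : D} {p : V} (h : SEllS.Out ρ M L x p) (hp : Hyp p)
    (h1 : tr (lf ρ L (M.nx (M.op (M.nx (M.nx x))))) < 2)
    (h2 : lf ρ L (M.nx (M.op (M.nx (M.nx x)))) • p = p) {s : ℝ} (hs : 0 < s)
    (h3 : ρ (L x * L (M.nx x)) • p = s • p + s • ρ (L x) • p) : Succ D ρ := by
  have hL := h.adm.mark.lab
  have ht := h.adm.mark.tr
  obtain ⟨-, f1, f2, f3, f4⟩ := ht.flip_face hL (a := x) (α := vAct ρ) (A := det3)
    (fun g x y z => det3_psmul _ _ _ _) (pos := fun _ => p) rfl rfl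
  have eP : M.flipP (fun _ => p) x = fun _ => p := by ext1 d; simp [DartMap.flipP]
  simp only [eP, face_det3, vAct_apply, h3] at f1 f2 f3 f4
  have p0 := h.pos _ h.out
  rw [f1] at p0
  obtain ⟨-, -, -, -, -, -, n7⟩ := ht.flip_nx x
  have h' := h.adm.of_move (h.adm.mark.flip x)
  have cl : ∀ {y d}, y ∈ F9 M x → y ∉ M.tri x → d ∈ M.tri y →
      d ∉ M.tri x ∧ d ∉ M.tri (M.op x) := fun {y d} y1 y2 hd => by
    refine ⟨disjoint_right.1 (DartMap.tri_disjoint y2) hd, fun c => h.out ?_⟩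
    have : M.op x ∈ M.tri y := by
      rw [← DartMap.tri_eq_of_mem hd, DartMap.tri_eq_of_mem c]; simp [DartMap.tri]
    simp only [F9, mem_union] at y1 ⊢
    rcases y1 with (g | g) | g
    · exact absurd g y2
    · exact .inl (.inr (DartMap.tri_eq_of_mem g ▸ this))
    · exact .inr (DartMap.tri_eq_of_mem g ▸ this)
  have t : ∀ {y}, y ∈ F9 M x → y ∉ M.tri x → (M.flip x).tri y = M.tri y := fun {y} y1 y2 => by
    have a := cl (d := y) y1 y2 (by simp [DartMap.tri])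
    have b := cl (d := M.nx y) y1 y2 (by simp [DartMap.tri])
    rw [DartMap.tri, n7 _ a.1 a.2, n7 _ b.1 b.2, DartMap.tri]
  have v1 : M.nx (M.op (M.nx (M.nx x))) ∈ F9 M x := by simp [F9, DartMap.tri]
  have v2 : M.nx (M.op (M.nx (M.nx x))) ∉ M.tri x :=
    DartMap.nx_mem_tri.not.2 (ht.op_notMem_tri (by simp [DartMap.tri]))
  have w1 : M.nx (M.op (M.nx x)) ∈ F9 M x := by simp [F9, DartMap.tri]
  have w2 : M.nx (M.op (M.nx x)) ∉ M.tri x :=
    DartMap.nx_mem_tri.not.2 (ht.op_notMem_tri (by simp [DartMap.tri]))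
  have e : lf ρ (M.flipL L x) (M.nx (M.op (M.nx (M.nx x)))) =
      lf ρ L (M.nx (M.op (M.nx (M.nx x)))) := by
    have a := cl v1 v2 (d := M.nx (M.op (M.nx (M.nx x)))) (by simp [DartMap.tri])
    simp only [DartMap.mem_tri, not_or] at a
    simp only [lf, DartMap.flipL, a.1.1, a.2.1, if_false]
  refine node h' (e ▸ h1) hp (e ▸ h2) fun d d1 d2 => ?_
  rw [DartMap.flip_op, h.ann.1, t w1 w2, DartMap.tri_nx] at d2
  rw [t v1 v2, DartMap.tri_nx] at d1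
  by_cases d0 : d ∈ M.tri x ∪ M.tri (M.op x)
  · rw [← ht.flip_tri, mem_union] at d0
    rcases d0 with d0 | d0
    · rw [faceDet_tri h'.mark.lab _ d0, f2, det3_add_1, det3_smul_1, det3_smul_1, det3_self13,
        ← det3_cyc]
      nlinarith
    · rw [faceDet_tri h'.mark.lab _ d0, f3, det3_add_2, det3_smul_2, det3_smul_2, det3_self23,
        det3_cyc]
      nlinarith
  · rw [mem_union, not_or] at d0
    rw [f4 d d0.1 d0.2]
    exact h.pos d (by simp [F9, d0.1, d1, d2])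

theorem SEllS.bud_congr {L' : D → Γ} (hF : M.Closed K F) (h : ∀ d, d ∉ F → L' d = L d)
    (y : D → V) : bud ρ M L' K F (lf ρ L') y = bud ρ M L K F (lf ρ L) y := by
  rw [bud, bud, sum_congr rfl fun d hd => ?_, sum_congr (s₁ := K \ F) rfl fun d hd => ?_]
  · rw [lf, h d (mem_sdiff.1 hd).2, lf]
  · rw [faceAr, h d (mem_compl.1 hd), h _ ((hF.nx_mem_iff d).not.2 (mem_compl.1 hd)), faceAr]

omit [Fintype D] [DecidableEq D] in
theorem SEllS.tr_com (L : D → Γ) (e a : D) :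
    tr (cl (ρ (L a * L e * (L a)⁻¹ * (L e)⁻¹))) = tr (com ρ L e a) := by
  rw [com, ← tr_cl_inv, ← map_inv]
  congr 3
  group

theorem handle_small {τ : ℝ} (h0 : 0 < τ) (h2 : τ < 2) : ∃ c : ℝ, 0 < c ∧
    ∀ (M : DartMap D) (L : D → Γ) (e a : D), Adm ρ M L → Ell τ (lf ρ L e) → Itl M e a →
      tl (com ρ L e a) ≤ c → Succ D ρ := by
  obtain ⟨Bd, hBd⟩ := lpV_le_of_bounds 4
  obtain ⟨κ, hκ, H⟩ := SEllS.placed (D := D) (ρ := ρ) Bd
  obtain ⟨m, hm⟩ : ∃ m, m = 1 - τ ^ 2 / 4 := ⟨_, rfl⟩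
  have m0 : 0 < m := by nlinarith
  have m1 : m ≤ 1 := by nlinarith
  obtain ⟨δ, δ0, δ1, δ2⟩ : ∃ δ : ℝ, 0 < δ ∧ δ ≤ 1 ∧ δ ≤ κ :=
    ⟨min 1 κ, lt_min one_pos hκ, min_le_left _ _, min_le_right _ _⟩
  have mδ := mul_pos m0 δ0
  refine ⟨Real.arcosh (1 + 4 * (m * δ)), Real.arcosh_pos (by linarith),
    fun M L e a h hE ha hc => ?_⟩
  have hL := h.mark.lab
  obtain ⟨M', L₀, L', x, be, a0, a1, hx, an, l1, l2, l3, l4, l5, l6, l7, l8⟩ :=
    ear h (ha.op h.mark.tr)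
  have c1 : tr (lf ρ L₀ x) = tr (com ρ L e a) := by rw [lf, l3, SEllS.tr_com, tr_com_op hL]
  have c2 := com_hyp h (hE.2.2.1.trans_lt h2) ha
  generalize hal : L (M.op a) * L (M.op e) * (L (M.op a))⁻¹ = al at l2 l3 l6 l7 l8
  rw [hL.1] at l1 l8
  rw [hL.1, inv_inv] at l3
  have hA := lf_mk (ρ := ρ) L e
  generalize lf ρ L e = A at hE hA
  have tA := hE.2.2.1
  obtain ⟨p, hp, fp, xp, rp, -⟩ := exists_centre (g := A) (by rwa [tA, abs_of_pos h0])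
  have r0 : 0 < rot A p :=
    rot_pos_all (by rw [tA, abs_of_pos h0]; exact h2.le) hyp_oV.tim hE.2.2.2 hp.tim
  have r1 : rot A p ^ 2 = m := by rw [rp, tA, hm]; ring
  obtain ⟨β, hβ⟩ : ∃ β : SL(2, ℝ), (β : PSL(2, ℝ)) = ρ be := ⟨_, cl_mk _⟩
  obtain ⟨C, hC⟩ : ∃ C, C = β⁻¹ * A⁻¹ * β⁻¹⁻¹ := ⟨_, rfl⟩
  obtain ⟨q, hq⟩ : ∃ q, q = β⁻¹ • p := ⟨_, rfl⟩
  have q0 : Hyp q := hq ▸ hp.smul _
  have tC : tr C = τ := by rw [hC, tr_conj, tr_inv, tA]
  have mC : (C : PSL(2, ℝ)) = ρ al := by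
    rw [show al = be⁻¹ * (L e)⁻¹ * be⁻¹⁻¹ by rw [← l8]; group]
    simp only [hC, QuotientGroup.mk_mul, QuotientGroup.mk_inv, hβ, hA, map_mul, map_inv]
  have xC : ax C = -rot A p • q := by
    rw [hC, ax_conj, ax_inv, xp, hq, ← neg_smul, smul_comm]
  have fC : C • q = q := by
    rw [hC, hq, mul_smul, mul_smul, inv_smul_smul, inv_smul_eq_iff.2 fp.symm]
  have b1 := hp.one_le_B q0
  have tc : tr (C * A) = 2 + 2 * m * (B p q - 1) := by
    rw [tr_mul, tC, tA, xC, xp, B_smul_left, B_smul_right, B_comm q]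
    linear_combination 2 * B p q * r1 + 2 * hm
  have tc0 : 0 < tr (C * A) := by rw [tc]; nlinarith
  have e0 : lf ρ L₀ x = C * A := cl_eq tc0 (by rw [l3, map_mul, QuotientGroup.mk_mul, mC, hA])
  have e0' : lf ρ L' x = C * A := by rw [lf, l4, ← e0, lf]
  have e1 : lf ρ L₀ (M'.nx x) = A⁻¹ :=
    cl_eq (by rw [tr_inv, tA]; exact h0) (by rw [l1, map_inv, QuotientGroup.mk_inv, hA])
  have e2 : lf ρ L₀ (M'.nx (M'.nx x)) = C⁻¹ :=
    cl_eq (by rw [tr_inv, tC]; exact h0) (by rw [l2, map_inv, QuotientGroup.mk_inv, mC])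
  rw [← c1, e0] at c2
  have b2 : B p q - 1 ≤ δ := by
    rw [tl, ← c1, e0, Real.arcosh_le_arcosh (by nlinarith) (by linarith), tc] at hc
    by_contra hn
    have h3 := mul_lt_mul_of_pos_left (not_le.1 hn) m0
    nlinarith
  have rc : rot (C * A) q = τ / 2 * (rot A p * (B p q - 1)) := by
    rw [rot_mul, tC, tA, rot_centre hp fp q, rot.eq_1 C, xC, B_smul_left, q0.2, det3_smul_1,
      det3_self13]
    ring
  have r2 : rot A p ≤ 1 := by nlinarith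
  have r3 : 0 ≤ rot A p * (B p q - 1) := mul_nonneg r0.le (by linarith)
  have r4 : rot A p * (B p q - 1) ≤ δ := by nlinarith
  have r5 : 0 ≤ rot (C * A) q := by rw [rc]; positivity
  have r6 : rot (C * A) q ≤ δ := by rw [rc]; nlinarith
  obtain ⟨N, L₁, o, k1, k2, k3⟩ := H M' L' x q a1 hx an (e0' ▸ c2.le) q0 (by
      rw [SEllS.bud_congr (handle_ps hx an).1.cl l5]
      exact bud_handle a0 ⟨hx, by rw [e0, e1, e2]; group⟩ an (e0 ▸ c2.le)
        (by rw [e1, tr_inv, tA]; exact h0) fun _ => q0.cone)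
    (hBd _ _ q0 (by rw [e0', abs_of_pos tc0, tc]; nlinarith)
      (by rw [e0', abs_of_nonneg r5]; linarith)) (by rw [e0']; linarith)
  have e3 : lf ρ L₁ (N.nx (N.op (N.nx (N.nx x)))) = C :=
    cl_eq (by rw [tC]; exact h0) (by rw [k3, l6, mC])
  refine SEllS.fin o q0 (by rw [e3, tC]; exact h2) (by rw [e3, fC]) ?_
  rw [faceDet, lab_cyc' o.adm.mark.lab, k2, l7, inv_inv, k1, l4, l3, map_mul, map_mul, ← mC, ← hA,
    ← hβ, mul_smul, mul_smul, mk_smul, mk_smul, mk_smul, mk_smul,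
    show β • q = p by rw [hq, smul_inv_smul]]
  have := det_centre hE hp fp q0 (by rintro rfl; rw [tc, hp.2] at c2; linarith)
  rwa [← det3_smul C, fC] at this

theorem half_turn (h : Adm ρ M L) {e : D} (h0 : tr (lf ρ L e) = 0) : Succ D ρ := by
  obtain ⟨p, hp, fp, xp, rp, -⟩ := exists_centre (g := lf ρ L e) (by rw [h0]; norm_num)
  by_cases hs : ∃ a, Itl M e a
  swap
  · exact node h (by rw [h0]; norm_num) hp fp (half_sep h h0 hs hp fp)
  obtain ⟨a, ha⟩ := hs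
  obtain ⟨M', L₀, L', x, be, a0, a1, hx, an, l1, l2, l3, l4, l5, l6, l7, l8⟩ := ear h ha
  have c2 := com_hyp h (by rw [h0]; norm_num) ha
  rw [← SEllS.tr_com, ← l3, ← l4] at c2
  change 2 < tr (lf ρ L' x) at c2
  generalize L a * L e * (L a)⁻¹ = al at l2 l3 l6 l7 l8
  have hA := lf_mk (ρ := ρ) L e
  generalize lf ρ L e = A at h0 hA fp xp rp
  have r1 : rot A p ^ 2 = 1 := by rw [rp, h0]; ring
  obtain ⟨β, hβ⟩ : ∃ β : SL(2, ℝ), (β : PSL(2, ℝ)) = ρ be := ⟨_, cl_mk _⟩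
  obtain ⟨C, hC⟩ : ∃ C, C = β⁻¹ * A * β⁻¹⁻¹ := ⟨_, rfl⟩
  obtain ⟨q, hq⟩ : ∃ q, q = β⁻¹ • p := ⟨_, rfl⟩
  have q0 : Hyp q := hq ▸ hp.smul _
  have tC : tr C = 0 := by rw [hC, tr_conj, h0]
  have mC : (C : PSL(2, ℝ)) = ρ al := by
    rw [show al = be⁻¹ * L e * be⁻¹⁻¹ by rw [← l8]; group]
    simp only [hC, QuotientGroup.mk_mul, QuotientGroup.mk_inv, hβ, hA, map_mul, map_inv]
  have xC : ax C = rot A p • q := by rw [hC, ax_conj, xp, hq, smul_comm]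
  have fC : C • q = q := by rw [hC, hq, mul_smul, mul_smul, inv_smul_smul, fp]
  have b1 := hp.one_le_B q0
  have e0 : ((C * A⁻¹ : SL(2, ℝ)) : PSL(2, ℝ)) = ρ (L' x) := by
    rw [l4, l3, map_mul, map_inv, QuotientGroup.mk_mul, QuotientGroup.mk_inv, mC, hA]
  have rc : rot (lf ρ L' x) q = 0 := by
    have : rot (C * A⁻¹) q = 0 := by
      rw [rot_mul, tC, tr_inv, h0, xC, det3_smul_1, det3_self13]; ring
    rcases cl_cases e0 with g | g
    · rw [lf, g, this]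
    · rw [lf, g, rot_neg, this, neg_zero]
  have g1 : A⁻¹ • q = (2 * B p q) • p - q := by
    rw [smul_formula, tr_inv, h0, rot_inv, ax_inv, rot_centre hp fp q, xp, ← xp]
    nth_rw 1 [xp]
    rw [← neg_smul, smul_smul, show 2 * -(rot A p * B p q) * -rot A p = 2 * B p q by
      linear_combination 2 * B p q * r1]
    module
  have g2 : ρ (al * be) • q = (2 * B p q)⁻¹ • q + (2 * B p q)⁻¹ • ρ (L' x) • q := by
    rw [← e0, map_mul, ← mC, ← hβ, mul_smul, mk_smul, mk_smul, mk_smul,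
      show β • q = p by rw [hq, smul_inv_smul], mul_smul, g1, smul_sub, fC, smul_comm C, ← smul_add,
      add_sub_cancel, smul_smul, inv_mul_cancel₀ (by linarith), one_smul]
  have hL := a1.mark.lab
  have z : ∀ d, faceDet M' L' ρ (fun _ => q) d = 0 → faceAr M' L' ρ (fun _ => q) d = 0 :=
    fun d => (Ar_eq_zero_iff q0.cone (q0.cone.psmul _) (q0.cone.psmul _)).2
  have z1 : faceDet M' L' ρ (fun _ => q) x = 0 := by
    rw [faceDet, lab_cyc' hL, l7, inv_inv, g2, det3_add_3, det3_smul_3, det3_smul_3, det3_self13,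
      det3_self23]
    ring
  have z2 : faceDet M' L' ρ (fun _ => q) (M'.op (M'.nx (M'.nx x))) = 0 := by
    rw [← faceDet_nx ρ hL, faceDet, l6, ← mC, mk_smul, fC, det3_self12]
  have z3 : faceDet M' L' ρ (fun _ => q) (M'.op (M'.nx x)) = 0 := by
    rw [← faceDet_nx ρ hL, ← an.1, faceDet, hL.1, l6, map_inv, ← mC, ← QuotientGroup.mk_inv,
      mk_smul, inv_smul_eq_iff.2 fC.symm, det3_self12]
  obtain ⟨κ, hκ, H⟩ := SEllS.placed (D := D) (ρ := ρ) (lpV (lf ρ L' x) q)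
  obtain ⟨N, L₁, o, k1, k2, k3⟩ := H M' L' x q a1 hx an c2.le q0 (by
      obtain ⟨-, -, s1, s2⟩ := hx.handle an
      change M'.triK x \ F9 M' x = _ at s1
      change (F9 M' x).card = 9 at s2
      rw [bud_const a1 _ q0.cone, s1, sum_singleton, card_singleton, lf_op hL (by linarith),
        qa_inv (by linarith), (qa_eq_zero_iff (by linarith) q).2 rc,
        sum_congr rfl (g := fun _ => Real.pi) fun d hd => ?_, sum_const, s2]
      · simp only [nsmul_eq_mul]; push_cast; ring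
      · simp only [F9, mem_union] at hd
        rcases hd with (g | g) | g <;> rw [faceAr_tri hL _ g, z _ ‹_›, sub_zero])
    le_rfl (by rw [rc]; exact hκ.le)
  have e3 : ρ (L₁ (N.nx (N.op (N.nx (N.nx x))))) = C := by rw [k3, l6, mC]
  refine SEllS.fin_flip o q0 (by rw [lf, tr_cl e3.symm, tC]; norm_num)
    (by rw [lf_smul, e3, mk_smul, fC]) (s := (2 * B p q)⁻¹) (by positivity) ?_
  rw [lab_cyc' o.adm.mark.lab, k2, l7, inv_inv, k1, g2]

end A25f44
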