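import Pool.Agent.Lib.MP_a25f44_gt.STurnB
import Pool.Agent.Lib.MP_a25f44_gt.SAlg

/-! Definite decrements. -/

open scoped MatrixGroups
open Pool.Agent.Lib.MP_a25f44_gt Finset

noncomputable section

namespace A25f44

namespace SGain

/-- a globally continuous version of `arcosh` -/
def ac (x : ℝ) : ℝ := Real.arcosh (max 1 x)

lemma continuous_ac : Continuous ac :=
  Real.continuousOn_arcosh.comp_continuous (continuous_const.max continuous_id)
    fun x => Set.mem_Ici.2 (le_max_left 1 x)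

lemma ac_eq {x : ℝ} (h : 1 ≤ x) : ac x = Real.arcosh x := by rw [ac, max_eq_right h]

lemma ac_nonneg (x : ℝ) : 0 ≤ ac x := Real.arcosh_nonneg (le_max_left _ _)

lemma cosh_ac {x : ℝ} (h : 1 ≤ x) : Real.cosh (ac x) = x := by rw [ac_eq h, Real.cosh_arcosh h]

lemma ac_mono {x y : ℝ} (h : x ≤ y) : ac x ≤ ac y :=
  arcosh_mono (le_max_left _ _) (max_le_max le_rfl h)

lemma hy_eq (s t : ℝ) : hy s t = ac (Real.cosh s * Real.cosh t) :=
  (ac_eq (one_le_mul_of_one_le_of_one_le (Real.one_le_cosh s) (Real.one_le_cosh t))).symm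

/-- translation length from trace and turning -/
def T (p : ℝ × ℝ) : ℝ := ac (p.1 ^ 2 / 2 - 1)

/-- loop length from trace and turning -/
def L (p : ℝ × ℝ) : ℝ := ac (p.1 ^ 2 / 2 - 1 + 2 * p.2 ^ 2)

@[fun_prop] lemma continuous_T : Continuous T := continuous_ac.comp (by fun_prop)

@[fun_prop] lemma continuous_L : Continuous L := continuous_ac.comp (by fun_prop)

lemma continuous_hy {X : Type*} [TopologicalSpace X] {f g : X → ℝ} (hf : Continuous f)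
    (hg : Continuous g) : Continuous fun x => hy (f x) (g x) := by
  simp only [hy_eq]
  exact continuous_ac.comp (by fun_prop)

lemma continuous_G3 {X : Type*} [TopologicalSpace X] {f g h : X → ℝ} (hf : Continuous f)
    (hg : Continuous g) (hh : Continuous h) : Continuous fun x => G3 (f x) (g x) (h x) :=
  (hf.add (continuous_hy hg hh)).max
    ((hg.add (continuous_hy hf hh)).max (hh.add (continuous_hy hf hg)))

lemma T_le_L (p : ℝ × ℝ) : T p ≤ L p := ac_mono (by nlinarith [sq_nonneg p.2])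

lemma snd_eq_zero {p : ℝ × ℝ} (h : 2 ≤ p.1) (e : T p = L p) : p.2 = 0 := by
  have h1 : 1 ≤ p.1 ^ 2 / 2 - 1 := by nlinarith
  have h2 := congrArg Real.cosh e
  rw [T, L, cosh_ac h1, cosh_ac (by nlinarith [sq_nonneg p.2])] at h2
  exact pow_eq_zero_iff two_ne_zero |>.1 (by linarith)

lemma fst_eq_two {p : ℝ × ℝ} (h : 2 ≤ p.1) (e : T p = 0) : p.1 = 2 := by
  have h1 : 1 ≤ p.1 ^ 2 / 2 - 1 := by nlinarith
  have h2 := congrArg Real.cosh e
  rw [T, cosh_ac h1, Real.cosh_zero] at h2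
  nlinarith

lemma strict {ta tb tc la lb lc : ℝ} (ha : 0 ≤ ta) (hb : 0 ≤ tb) (hc : 0 ≤ tc) (h1 : tb ≤ lb)
    (h2 : tc ≤ lc) (h3 : 0 < lb) (h4 : 0 < lc) (h5 : lb + lc ≤ la)
    (h6 : tb = lb → tc = lc → ta ≠ 0) : G3 ta tb tc < ta + la := by
  have a1 := hy_le hb hc
  have a2 := hy_le ha hc
  have a3 := hy_le ha hb
  by_cases h : tb = lb ∧ tc = lc
  · have ha' : 0 < ta := lt_of_le_of_ne ha (h6 h.1 h.2).symm
    have hb' : 0 < tb := h.1 ▸ h3
    have hc' : 0 < tc := h.2 ▸ h4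
    have b1 := hy_lt hb' hc'
    have b2 := hy_lt ha' hc'
    have b3 := hy_lt ha' hb'
    exact max_lt (by linarith) (max_lt (by linarith) (by linarith))
  · have b1 : tb + tc < lb + lc := by
      rcases not_and_or.1 h with h | h
      · linarith [lt_of_le_of_ne h1 h]
      · linarith [lt_of_le_of_ne h2 h]
    exact max_lt (by linarith) (max_lt (by linarith) (by linarith))

/-- the relation between traces and turnings of three elements with product one -/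
def Rel (p q r : ℝ × ℝ) : Prop :=
  p.1 * q.1 * r.1 / 2 - 2 * p.1 * q.2 * r.2 - 2 * q.1 * p.2 * r.2 - 2 * r.1 * p.2 * q.2 =
    p.1 ^ 2 / 2 + q.1 ^ 2 / 2 + r.1 ^ 2 / 2 + 2 * (p.2 ^ 2 + q.2 ^ 2 + r.2 ^ 2) - 2

lemma rel {a b c : SL(2, ℝ)} (h : a * b * c = 1) {x : V} (hx : Hyp x) :
    Rel (tr a, rot a x) (tr b, rot b x) (tr c, rot c x) := by
  have h1 := congrArg Complex.re (Zc_loop3 h hx.cone)
  have e1 : B (a • x) ((a * b) • x) = B x (b • x) := by rw [mul_smul, B_smul]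
  have e2 : B ((a * b) • x) x = B x (c • x) := by
    rw [← B_smul c⁻¹ x, inv_smul_smul, eq_inv_of_mul_eq_one_left h]
  rw [Zc_re, nrm_smul, nrm_smul, e1, e2, B_smul_self, B_smul_self, B_smul_self, hx.2] at h1
  simp only [Complex.mul_re, Complex.mul_im, al_re, al_im, hx.nrm, Complex.re_ofNat,
    Complex.im_ofNat] at h1
  simp only [Rel]
  linarith

lemma gain_real (R : ℝ) {η₀ : ℝ} (h₀ : 0 < η₀) : ∃ m : ℝ, 0 < m ∧ ∀ p q r : ℝ × ℝ,
    ‖p‖ ≤ R → ‖q‖ ≤ R → ‖r‖ ≤ R → 2 ≤ p.1 → 2 ≤ q.1 → 2 ≤ r.1 → Rel p q r → η₀ ≤ L q →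
      η₀ ≤ L r → L q + L r - L p < m → m ≤ T p + L p - G3 (T p) (T q) (T r) := by
  let K : Set ((ℝ × ℝ) × (ℝ × ℝ) × (ℝ × ℝ)) := Metric.closedBall 0 R ∩
    {z | 2 ≤ z.1.1 ∧ 2 ≤ z.2.1.1 ∧ 2 ≤ z.2.2.1 ∧ Rel z.1 z.2.1 z.2.2 ∧ η₀ ≤ L z.2.1 ∧ η₀ ≤ L z.2.2}
  have hK : IsCompact K := by
    refine (isCompact_closedBall _ _).inter_right ?_
    simp only [Set.ofPred_and, Rel]
    exact (isClosed_le (by fun_prop) (by fun_prop)).inter
      ((isClosed_le (by fun_prop) (by fun_prop)).inter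
      ((isClosed_le (by fun_prop) (by fun_prop)).inter
      ((isClosed_eq (by fun_prop) (by fun_prop)).inter
      ((isClosed_le (by fun_prop) (by fun_prop)).inter
      (isClosed_le (by fun_prop) (by fun_prop))))))
  let F : (ℝ × ℝ) × (ℝ × ℝ) × (ℝ × ℝ) → ℝ := fun z =>
    max (T z.1 + L z.1 - G3 (T z.1) (T z.2.1) (T z.2.2)) (L z.2.1 + L z.2.2 - L z.1)
  have hF : Continuous F :=
    (Continuous.sub (by fun_prop) (continuous_G3 (by fun_prop) (by fun_prop) (by fun_prop))).max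
      (by fun_prop)
  have hpos : ∀ z ∈ K, 0 < F z := by
    rintro ⟨p, q, r⟩ ⟨-, h1, h2, h3, h4, h5, h6⟩
    simp only at h1 h2 h3 h4 h5 h6
    by_cases h : L q + L r ≤ L p
    · refine lt_max_of_lt_left (sub_pos.2 (strict (ac_nonneg _) (ac_nonneg _) (ac_nonneg _)
        (T_le_L q) (T_le_L r) (by linarith) (by linarith) h fun e1 e2 e3 => ?_))
      have a1 := snd_eq_zero h2 e1
      have a2 := snd_eq_zero h3 e2
      have a3 := fst_eq_two h1 e3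
      rw [Rel, a1, a2, a3] at h4
      have a4 : p.2 ^ 2 = 0 := by nlinarith [sq_nonneg p.2, sq_nonneg (q.1 - r.1)]
      have a5 : L p = T p := by rw [L, T, a4, mul_zero, add_zero]
      change T p = 0 at e3
      linarith
    · exact lt_max_of_lt_right (by simp only; linarith)
  obtain ⟨m, hm, hm'⟩ := hK.exists_forall_le' hF.continuousOn hpos
  refine ⟨m, hm, fun p q r b1 b2 b3 h1 h2 h3 h4 h5 h6 h7 => ?_⟩
  have := hm' (p, q, r) ⟨by
    rw [mem_closedBall_zero_iff, Prod.norm_def, Prod.norm_def]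
    exact max_le b1 (max_le b2 b3), h1, h2, h3, h4, h5, h6⟩
  exact (le_max_iff.1 this).resolve_right (not_le.2 h7)

lemma T_eq {a : SL(2, ℝ)} (h : 2 ≤ tr a) (r : ℝ) : T (tr a, r) = tl a :=
  ac_eq (one_le_tl_arg (h.trans (le_abs_self _)))

lemma L_eq (a : SL(2, ℝ)) {x : V} (hx : Hyp x) : L (tr a, rot a x) = lpV a x :=
  (ac_eq (one_le_lp a hx)).trans (lpV_eq a hx).symm

lemma cosh_le {a : SL(2, ℝ)} {x : V} (hx : Hyp x) {b : ℝ} (h : lpV a x ≤ b) :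
    tr a ^ 2 / 2 - 1 + 2 * rot a x ^ 2 ≤ Real.cosh b := by
  rw [← cosh_lpV a hx, Real.cosh_le_cosh, abs_of_nonneg (lpV_nonneg a hx)]
  exact h.trans (le_abs_self _)

lemma norm_le {a : SL(2, ℝ)} {x : V} (hx : Hyp x) {b : ℝ} (h : lpV a x ≤ b) :
    ‖(tr a, rot a x)‖ ≤ 2 * Real.cosh b + 3 := by
  have h1 := cosh_le hx h
  have h2 := Real.one_le_cosh b
  rw [Prod.norm_def, Real.norm_eq_abs, Real.norm_eq_abs]
  refine max_le (abs_le.2 ⟨?_, ?_⟩) (abs_le.2 ⟨?_, ?_⟩)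
  · nlinarith [sq_nonneg (tr a + 1), sq_nonneg (rot a x)]
  · nlinarith [sq_nonneg (tr a - 1), sq_nonneg (rot a x)]
  · nlinarith [sq_nonneg (rot a x + 1), sq_nonneg (tr a), sq_nonneg (rot a x)]
  · nlinarith [sq_nonneg (rot a x - 1), sq_nonneg (tr a), sq_nonneg (rot a x)]

/-- Cauchy-Schwarz on the orthogonal complement of a point -/
lemma cs (a b : SL(2, ℝ)) {x : V} (hx : Hyp x) : (B (ax a) (ax b) - rot a x * rot b x) ^ 2 ≤
    (rot a x ^ 2 + (tr a / 2) ^ 2 - 1) * (rot b x ^ 2 + (tr b / 2) ^ 2 - 1) := by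
  have h := det3_sq x (ax a) (ax b)
  rw [hx.2, B_ax_ax, B_ax_ax, B_comm x (ax a)] at h
  have h0 := sq_nonneg (det3 x (ax a) (ax b))
  simp only [rot]
  linarith

lemma exists_eta {δ : ℝ} (h : 0 < δ) : ∃ η : ℝ, 0 < η ∧ ∀ (b : SL(2, ℝ)) (x : V), Hyp x →
    lpV b x ≤ η → rot b x ^ 2 + (tr b / 2) ^ 2 - 1 ≤ δ := by
  refine ⟨Real.arcosh (1 + δ), Real.arcosh_pos (by linarith), fun b x hx hb => ?_⟩
  have := cosh_le hx hb
  rw [Real.cosh_arcosh (by linarith)] at this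
  linarith

lemma sq_bound {u r s Sa Sb M δ : ℝ} (h : (u - r * s) ^ 2 ≤ Sa * Sb) (h1 : r ^ 2 ≤ M)
    (h2 : s ^ 2 ≤ δ) (h3 : Sa ≤ M) (h4 : 0 ≤ Sb) (h5 : Sb ≤ δ) : u ^ 2 ≤ 4 * (M * δ) := by
  have hM : 0 ≤ M := (sq_nonneg r).trans h1
  have a1 : Sa * Sb ≤ M * δ := mul_le_mul h3 h5 h4 hM
  have a2 : r ^ 2 * s ^ 2 ≤ M * δ := mul_le_mul h1 h2 (sq_nonneg s) hM
  nlinarith [sq_nonneg (u - 2 * (r * s))]

end SGain

open SGain

theorem gain (Bd : ℝ) {η₀ : ℝ} (h₀ : 0 < η₀) : ∃ g η : ℝ, 0 < g ∧ 0 < η ∧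
    ∀ (a b c : SL(2, ℝ)) (x : V), 2 ≤ tr a → 2 ≤ tr b → 2 ≤ tr c → a * b * c = 1 → Hyp x →
      lpV a x ≤ Bd → η₀ ≤ lpV b x → η₀ ≤ lpV c x → lpV b x + lpV c x ≤ lpV a x + η →
      G3 (tl a) (tl b) (tl c) ≤ tl a + lpV a x - g := by
  obtain ⟨m, hm, h⟩ := gain_real (2 * Real.cosh (Bd + 1) + 3) h₀
  refine ⟨m, min (m / 2) 1, hm, lt_min (by linarith) one_pos,
    fun a b c x ha hb hc habc hx h1 h2 h3 h4 => ?_⟩
  have a1 := min_le_left (m / 2) 1
  have a2 := min_le_right (m / 2) 1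
  have := h (tr a, rot a x) (tr b, rot b x) (tr c, rot c x) (norm_le hx (by linarith))
    (norm_le hx (by linarith)) (norm_le hx (by linarith)) ha hb hc (rel habc hx)
    (by rwa [L_eq b hx]) (by rwa [L_eq c hx]) (by rw [L_eq a hx, L_eq b hx, L_eq c hx]; linarith)
  rw [T_eq ha, T_eq hb, T_eq hc, L_eq a hx] at this
  linarith

theorem short_Th (Bd : ℝ) {κ : ℝ} (hκ : 0 < κ) : ∃ η : ℝ, 0 < η ∧
    ∀ (a b : SL(2, ℝ)) (x : V), 2 ≤ tr a → 2 ≤ tr b → Hyp x → lpV a x ≤ Bd → lpV b x ≤ η →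
      |Th a b| ≤ κ := by
  have hM := Real.cosh_pos Bd
  obtain ⟨η, hη, h⟩ := exists_eta (δ := κ / (16 * Real.cosh Bd)) (by positivity)
  refine ⟨η, hη, fun a b x ha hb hx h1 h2 => ?_⟩
  have a1 := cosh_le hx h1
  have a2 := h b x hx h2
  have a3 : 0 ≤ (tr a / 2) ^ 2 - 1 := by nlinarith
  have a4 : 0 ≤ (tr b / 2) ^ 2 - 1 := by nlinarith
  have a5 := sq_nonneg (rot a x)
  have a6 := sq_nonneg (rot b x)
  have a7 := sq_bound (M := Real.cosh Bd) (δ := κ / (16 * Real.cosh Bd)) (cs a b hx)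
    (by linarith) (by linarith) (by linarith) (by linarith) a2
  have a8 : Real.cosh Bd * (κ / (16 * Real.cosh Bd)) = κ / 16 := by field_simp
  have a9 : ((tr a / 2) ^ 2 - 1) * ((tr b / 2) ^ 2 - 1) ≤
      Real.cosh Bd * (κ / (16 * Real.cosh Bd)) :=
    mul_le_mul (by linarith) (by linarith) a4 hM.le
  have a10 := mul_nonneg a3 a4
  have a11 := sq_nonneg (B (ax a) (ax b))
  rw [Th_eq_B, abs_le]
  constructor <;> linarith

theorem short_ell (Bd : ℝ) {τ : ℝ} (hτ : τ < 2) : ∃ η : ℝ, 0 < η ∧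
    ∀ (a b : SL(2, ℝ)) (x : V), |tr a| ≤ τ → 2 ≤ |tr b| → Hyp x → lpV a x ≤ Bd → lpV b x ≤ η →
      |tr (a * b)| < 2 := by
  have hM := Real.one_le_cosh Bd
  obtain ⟨ε, hε⟩ : ∃ ε, ε = 2 - τ := ⟨_, rfl⟩
  have hε0 : 0 < ε := by linarith
  obtain ⟨η, hη, h⟩ := exists_eta (δ := min (ε / 8) ((ε / 16) ^ 2 / Real.cosh Bd))
    (lt_min (by positivity) (by positivity))
  refine ⟨η, hη, fun a b x ha hb hx h1 h2 => ?_⟩
  have a1 := cosh_le hx h1
  have a2 := h b x hx h2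
  have a2' := a2.trans (min_le_left _ _)
  have a2'' := a2.trans (min_le_right _ _)
  have a3 := sq_nonneg (tr a)
  have a4 : 0 ≤ (tr b / 2) ^ 2 - 1 := by nlinarith [sq_abs (tr b)]
  have a5 := sq_nonneg (rot a x)
  have a6 := sq_nonneg (rot b x)
  have a7 := sq_bound (M := Real.cosh Bd) (δ := (ε / 16) ^ 2 / Real.cosh Bd) (cs a b hx)
    (by linarith) (by linarith) (by linarith) (by linarith) a2''
  have a8 : 4 * (Real.cosh Bd * ((ε / 16) ^ 2 / Real.cosh Bd)) = (ε / 8) ^ 2 := by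
    field_simp
    norm_num
  rw [a8] at a7
  have a9 : |B (ax a) (ax b)| ≤ ε / 8 := abs_le_of_sq_le_sq a7 (by positivity)
  have a10 : |tr b| ≤ 2 + ε / 4 := by nlinarith [sq_abs (tr b)]
  have a11 : |tr a| * |tr b| ≤ τ * (2 + ε / 4) :=
    mul_le_mul ha a10 (abs_nonneg _) ((abs_nonneg _).trans ha)
  have a12 : τ * ε ≤ 2 * ε := mul_le_mul_of_nonneg_right hτ.le hε0.le
  rw [tr_mul]
  refine (abs_sub _ _).trans_lt ?_
  rw [abs_div, abs_mul, abs_mul, abs_two]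
  linarith

end A25f44
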