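import Pool.Agent.Lib.MP_a25f44_gt.SSweep
import Pool.Agent.Lib.MP_a25f44_gt.SCombB

/-! The events of the sweep of a two vertex state. -/

open scoped MatrixGroups
open Pool.Agent.Lib.MP_a25f44_gt Finset

noncomputable section

namespace A25f44

variable {D Γ : Type} [Group Γ] [Fintype D] [DecidableEq D] {ρ : Γ →* PSL(2, ℝ)}
  {M : DartMap D} {L : D → Γ} {K F : Finset D}

lemma SEvent.dV_inv (g : PSL(2, ℝ)) (p q : V) : dV p (g⁻¹ • q) = dV q (g • p) := by
  rw [← dV_psmul g, smul_inv_smul, dV_comm]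

lemma SEvent.short (h : Adm ρ M L) {a w : D} (ha : a ≠ w) (ha' : a ≠ M.op w)
    (h1 : M.vtx {w, M.op w} a = w) (h2 : M.vtx {w, M.op w} (M.nx a) = w) {p : V} {η : ℝ}
    (hd : dV p (ρ (L a) • p) ≤ η) : ∃ (M' : DartMap D) (L' : D → Γ), Adm ρ M' L' ∧
      M'.op = M.op ∧ L' w = L w ∧ EvP ρ M' L' w p η := by
  obtain ⟨M', L', mv, hP, l1, l2⟩ := h.mark.x1A ha ha' h1 h2
  refine ⟨M', L', h.of_move mv, mv.op, l1, hP, Or.inr ?_⟩
  rw [← lpV_lf_op mv.mark.lab, mv.op, lf, lpV_cl]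
  rcases l2 with l2 | ⟨-, l2⟩
  · rwa [l2, map_inv, SEvent.dV_inv]
  · rwa [l2]

lemma SEvent.flat (h : Adm ρ M L) {w : D} (h1 : M.vtx {w, M.op w} (M.nx (M.nx w)) = w) {p : V}
    (hp : Hyp p) {s t η : ℝ} (hs : 0 ≤ s) (ht : 0 ≤ t) (hm : Hyp (s • p + t • ρ (L w) • p))
    (hd : dV (s • p + t • ρ (L w) • p) (ρ (L w * L (M.nx w)) • p) ≤ η / 2) :
    ∃ (M' : DartMap D) (L' : D → Γ), Adm ρ M' L' ∧ M'.op = M.op ∧ L' w = L w ∧
      EvP ρ M' L' w p η := by
  obtain ⟨M', L', mv, hP, l1, l2⟩ := h.mark.x1A (M.nx2_ne w) (h.mark.tr.op_ne_nx2 w).symm h1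
    (by rw [M.nx3]; exact (h.mark.tr.isCut_edge w).vtx_self (by simp))
  refine ⟨M', L', h.of_move mv, mv.op, l1, hP, Or.inl ?_⟩
  have l3 : L' (M'.nx (M'.nx w)) = L (M.nx (M.nx w)) := by
    rcases l2 with l2 | ⟨l2, -⟩
    · rwa [← mv.op, mv.mark.lab.1, inv_inj] at l2
    · exact absurd (M.nx3 w) l2
  have l4 : L' (M'.nx w) = L (M.nx w) := by
    have a := lab_cyc' mv.mark.lab w
    rw [l1, l3, ← lab_cyc' h.mark.lab] at a
    exact mul_left_cancel a
  simp only [lf, lpV_cl, l1, l3, l4]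
  have hq := hp.psmul (ρ (L w * L (M.nx w)))
  have e1 : dV p (ρ (L (M.nx w)) • p) = dV (ρ (L w) • p) (ρ (L w * L (M.nx w)) • p) := by
    rw [map_mul, mul_smul, dV_psmul]
  have e2 : dV p (ρ (L (M.nx (M.nx w))) • p) = dV p (ρ (L w * L (M.nx w)) • p) := by
    rw [lab_cyc' h.mark.lab, map_inv, SEvent.dV_inv]
  have t0 := (dV_comb hp (hp.psmul _) hs ht hm).2
  have t1 := dV_triangle hp hm hq
  have t2 := dV_triangle (hp.psmul (ρ (L w))) hm hq
  rw [dV_comm (ρ (L w) • p) (s • p + t • ρ (L w) • p)] at t2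
  linarith

theorem eventA {e : D} {z u : V} (h : ACfg ρ M L e z u)
    (hw : ∀ s t : ℝ, 0 ≤ s → 0 ≤ t → Hyp (s • z + t • u) →
      lf ρ L e • (s • z + t • u) ≠ s • z + t • u) {η : ℝ} (hη : 0 < η) :
    Succ D ρ ∨ ∃ (M' : DartMap D) (L' : D → Γ) (s t : ℝ), Adm ρ M' L' ∧ L' e = L e ∧ 0 ≤ s ∧
      0 ≤ t ∧ s + t ≤ 1 ∧ Hyp (s • z + t • u) ∧
      (EvP ρ M' L' e (s • z + t • u) η ∨ EvP ρ M' L' (M'.op e) u η ∨
        EvW ρ M' L' e (s • z + t • u) u η) := by
  have hL := h.adm.mark.lab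
  have n0 := M.op_ne e
  obtain ⟨M', L', y, k1, k2, k3, -, -, k6, k7, k8, k9⟩ := sweepPS (ρ := ρ) h.adm
    (h.adm.mark.tr.ps_edge e) (y₀ := fun d => if d = e then z else u) (y₁ := fun _ => u)
    (fun d => by split_ifs; exacts [h.hz, h.hu]) (fun _ => h.hu) (fun d _ => h.pos d)
    (fun w hw' s t hs ht => by
      simp only [sdiff_empty, mem_insert, mem_singleton] at hw'
      rcases hw' with rfl | rfl
      · simp only [if_true, ← lf_smul]
        exact hw s t hs ht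
      · simp only [if_neg n0]
        have e1 : s • u + t • u = (0 : ℝ) • z + (s + t) • u := by rw [zero_smul, zero_add, add_smul]
        rw [e1]
        intro a c
        refine hw 0 (s + t) le_rfl (add_nonneg hs ht) a ?_
        rw [hL.1, map_inv, inv_smul_eq_iff] at c
        rw [lf_smul, ← c]) (half_pos hη)
  have l0 : L' e = L e := k6 e (by simp)
  rw [← k2] at k3 k8 k9 n0
  have hL' := k1.mark.lab
  have tr := k1.mark.tr
  have yu : y (M'.op e) = u := by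
    obtain ⟨a, s, t, hs, ht, -, c⟩ := k7 (M'.op e)
    simp only [if_neg n0, ← add_smul] at c
    have b := a.2
    rw [c, B_smul_left, B_smul_right, h.hu.2] at b
    have : s + t = 1 := by nlinarith [add_nonneg hs ht]
    rw [c, this, one_smul]
  obtain ⟨hz', s, t, hs, ht, hst, ye⟩ := k7 e
  simp only [if_true] at ye
  have pc : ({M'.op e, M'.op (M'.op e)} : Finset D) = {e, M'.op e} := by
    rw [M'.op2, pair_comm]
  have back : ∀ {M'' : DartMap D} {L'' : D → Γ}, Adm ρ M'' L'' → M''.op = M'.op →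
      L'' (M'.op e) = L' (M'.op e) → L'' e = L e := fun a b c => by
    rw [hL'.1, ← b, a.mark.lab.1, inv_inj] at c
    rw [c, l0]
  have η2 : η / 2 ≤ η := by linarith
  have itl : ∀ a, a ∉ ({e, M'.op e} : Finset D) → M'.vtx {e, M'.op e} a = M'.op e →
      M'.vtx {e, M'.op e} (M'.nx a) = e → Itl M' e (M'.op a) := fun a ha b c =>
    ⟨by rw [k3.cut.vtx_op a ha, c],
      by rw [← k3.cut.vtx_op _ (k3.cut.op_notMem ha), M'.op2, b]⟩
  rcases k9 with rfl | ⟨a, -, ha, hd⟩ | ⟨w, hw', α, β, hα, hβ, hm, hd⟩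
  · exact Or.inl ⟨M', L', u, k1, h.hu, fun d => k8 d (by simp)⟩
  · right
    have ha' := ha
    simp only [mem_insert, mem_singleton, not_or] at ha'
    rcases vtx_edge tr e a with c1 | c1 <;> rcases vtx_edge tr e (M'.nx a) with c2 | c2 <;>
      rw [c1, c2] at hd
    · obtain ⟨M'', L'', a1, -, a3, a4⟩ := SEvent.short k1 ha'.1 ha'.2 c1 c2 (hd.trans η2)
      exact ⟨M'', L'', s, t, a1, a3.trans l0, hs, ht, hst, ye ▸ hz', Or.inl (ye ▸ a4)⟩
    · rw [yu] at hd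
      exact ⟨M', L', s, t, k1, l0, hs, ht, hst, ye ▸ hz', Or.inr (Or.inr ⟨a, y e, u, 1, 1, ⟨c1, c2⟩,
        hz', h.hu, zero_le_one, le_rfl, zero_le_one, le_rfl, by rw [one_mul, ye], (one_mul _).symm,
        hd.trans η2⟩)⟩
    · rw [yu] at hd
      exact ⟨M', L', s, t, k1, l0, hs, ht, hst, ye ▸ hz', Or.inr (Or.inr ⟨M'.op a, y e, u, 1, 1,
        itl a ha c1 c2, hz', h.hu, zero_le_one, le_rfl, zero_le_one, le_rfl, by rw [one_mul, ye],
        (one_mul _).symm, by rw [hL'.1, map_inv, SEvent.dV_inv]; exact hd.trans η2⟩)⟩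
    · rw [yu] at hd
      obtain ⟨M'', L'', a1, a2, a3, a4⟩ := SEvent.short k1 ha'.2 (by rw [M'.op2]; exact ha'.1)
        (by rw [pc]; exact c1) (by rw [pc]; exact c2) (hd.trans η2)
      exact ⟨M'', L'', s, t, a1, back a1 a2 a3, hs, ht, hst, ye ▸ hz',
        Or.inr (Or.inl (by rw [a2]; exact a4))⟩
  · right
    have nK := (k3.nx_notMem (mem_sdiff.1 hw').1 (mem_sdiff.1 hw').2).2
    simp only [sdiff_empty, mem_insert, mem_singleton] at hw'
    rcases hw' with rfl | rfl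
    · rcases vtx_edge tr w (M'.nx (M'.nx w)) with c | c <;> rw [c] at hd
      · obtain ⟨M'', L'', a1, -, a3, a4⟩ := SEvent.flat k1 c hz' hα hβ hm hd
        exact ⟨M'', L'', s, t, a1, a3.trans l0, hs, ht, hst, ye ▸ hz', Or.inl (ye ▸ a4)⟩
      · rw [yu, lab_cyc' hL', ← hL'.1] at hd
        refine ⟨M', L', s, t, k1, l0, hs, ht, hst, ye ▸ hz', Or.inr (Or.inr ⟨_, _, u, α + β, 1,
          itl _ nK c (by rw [M'.nx3]; exact k3.cut.vtx_self (by simp)), hm, h.hu,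
          add_nonneg hα hβ, (dV_comb hz' (hz'.psmul _) hα hβ hm).1, zero_le_one, le_rfl, ?_,
          (one_mul _).symm, hd.trans η2⟩)⟩
        rw [rot_add, rot_smul, rot_smul, ← lf_smul, rot_smul_self, ← ye, add_mul]
    · rw [yu] at hm hd
      rcases vtx_edge tr e (M'.nx (M'.nx (M'.op e))) with c | c <;> rw [c] at hd
      · rw [lab_cyc' hL', map_inv, SEvent.dV_inv] at hd
        refine ⟨M', L', s, t, k1, l0, hs, ht, hst, ye ▸ hz', Or.inr (Or.inr ⟨_, y e, _, 1, α + β,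
          ⟨c, by rw [M'.nx3]; exact k3.cut.vtx_self (by simp)⟩, hz', hm, zero_le_one, le_rfl,
          add_nonneg hα hβ, (dV_comb h.hu (h.hu.psmul _) hα hβ hm).1, by rw [one_mul, ye], ?_,
          hd.trans η2⟩)⟩
        rw [rot_add, rot_smul, rot_smul, ← rot_smul_self _ (ρ (L' (M'.op e)) • u), lf_smul, hL'.1,
          map_inv, smul_inv_smul, add_mul]
      · rw [yu] at hd
        obtain ⟨M'', L'', a1, a2, a3, a4⟩ := SEvent.flat k1 (by rw [pc]; exact c) h.hu hα hβ hm hd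
        exact ⟨M'', L'', s, t, a1, back a1 a2 a3, hs, ht, hst, ye ▸ hz',
          Or.inr (Or.inl (by rw [a2]; exact a4))⟩

end A25f44
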