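import Pool.Agent.Lib.MP_a25f44_gt.SNEv
import Pool.Agent.Lib.MP_a25f44_gt.SEvent

/-! The non elliptic descent. -/

open scoped MatrixGroups
open Pool.Agent.Lib.MP_a25f44_gt Finset

noncomputable section

namespace A25f44

variable {D Γ : Type} [Group Γ] [Fintype D] [DecidableEq D] {ρ : Γ →* PSL(2, ℝ)}
  {M : DartMap D} {L : D → Γ} {K F : Finset D}

theorem EvP.mono {e : D} {y : V} {s t : ℝ} (h : EvP ρ M L e y s) (hst : s ≤ t) :
    EvP ρ M L e y t :=
  ⟨h.1, h.2.imp (fun k => by linarith) fun k => k.trans hst⟩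

theorem EvW.mono {e : D} {z u : V} {s t : ℝ} (h : EvW ρ M L e z u s) (hst : s ≤ t) :
    EvW ρ M L e z u t := by
  obtain ⟨a, m₁, m₂, s₁, s₂, h1, h2, h3, h4, h5, h6, h7, h8, h9, h10⟩ := h
  exact ⟨a, m₁, m₂, s₁, s₂, h1, h2, h3, h4, h5, h6, h7, h8, h9, h10.trans hst⟩

lemma lf_congr {L' : D → Γ} {d d' : D} (h : L' d' = L d) : lf ρ L' d' = lf ρ L d := by
  simp only [lf, h]

lemma abs_comb_le {s t a b : ℝ} (hs : 0 ≤ s) (ht : 0 ≤ t) (hst : s + t ≤ 1) (h : |b| ≤ a) :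
    |s * a + t * b| ≤ |a| := by
  have h1 := abs_le.1 h
  have h0 : 0 ≤ a := (abs_nonneg b).trans h
  rw [abs_of_nonneg h0, abs_le]
  constructor <;> nlinarith

lemma descent {P : ℝ → Prop} {r g : ℝ} (hg : 0 < g) (h0 : P r) (h1 : ∀ s, P s → 0 ≤ s)
    (h2 : ∀ s, s ≤ r → P s → P (s - g)) : False := by
  have k : ∀ n : ℕ, P (r - n * g) := by
    intro n
    induction n with
    | zero => simpa using h0
    | succ n ih =>
      have := h2 _ (by have : 0 ≤ (n : ℝ) * g := by positivity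
                       linarith) ih
      convert this using 1
      push_cast; ring
  obtain ⟨n, hn⟩ := exists_nat_gt (r / g)
  have := h1 _ (k n)
  rw [div_lt_iff₀ hg] at hn
  linarith

theorem stepNE (hN : NE D ρ) (hS : ¬Succ D ρ) (Bd : ℝ) : ∃ g : ℝ, 0 < g ∧ ∀ s, s ≤ Bd →
    (∀ κ, 0 < κ → AS D ρ κ s) → ∀ κ, 0 < κ → AS D ρ κ (s - g) := by
  obtain ⟨gP, κP, hgP, hκP, HP⟩ := evP_NE hN hS Bd
  obtain ⟨gH, hgH, HH⟩ := handleNE hN hS (Bd + 1)
  obtain ⟨κW, hκW, HW⟩ := evW_hd hN Bd (ε := min (gH / 2) 1) (by positivity)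
  refine ⟨min gP (gH / 2), by positivity, fun s hs hA κ hκ => ?_⟩
  obtain ⟨M, L, e, z, u, hc, h1, h2, h3⟩ := hA (min κP κW) (by positivity)
  have ht := hN M L hc.adm e
  have ht' : 2 ≤ |tr (lf ρ L e)| := ht.trans (le_abs_self _)
  have hz := hc.hz
  have hu := hc.hu
  rcases eventA hc (fun s t _ _ hy => no_fix ht (lf_ne_one hc.adm e).1 hy)
    (η := min κP κW) (by positivity) with h | ⟨M', L', a, b, hA', he, ha, hb, hab, hy, hev⟩
  · exact absurd h hS
  have e1 : lf ρ L' e = lf ρ L e := lf_congr he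
  have r1 : rot (lf ρ L e) (a • z + b • u) = a * rot (lf ρ L e) z + b * rot (lf ρ L e) u := by
    rw [rot_add, rot_smul, rot_smul]
  have l1 : lpV (lf ρ L e) (a • z + b • u) ≤ lpV (lf ρ L e) z :=
    lpV_mono _ hy hz (r1 ▸ abs_comb_le ha hb hab h2)
  have r0 : 0 ≤ rot (lf ρ L e) z := (abs_nonneg _).trans h2
  have r2 : -min κP κW ≤ rot (lf ρ L e) (a • z + b • u) := by
    have := (abs_le.1 h1).1
    have k : 0 < min κP κW := by positivity
    rw [r1]; nlinarith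
  have t1 := tl_le_lpV ht' hu
  have t2 := tl_le_lpV ht' hz
  have m1 := min_le_left κP κW
  have m2 := min_le_right κP κW
  rcases hev with hev | hev | hev
  · refine (HP M' L' e _ s hs hA' hy (hev.mono m1) (by rw [e1]; linarith)
      (by rw [e1]; linarith) κ hκ).mono (by linarith [min_le_left gP (gH / 2)])
  · have e2 : lf ρ L' (M'.op e) = (lf ρ L e)⁻¹ := by
      rw [lf_op hA'.mark.lab (by rw [e1]; linarith), e1]
    refine (HP M' L' _ u s hs hA' hu (hev.mono m1) ?_ ?_ κ hκ).mono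
      (by linarith [min_le_left gP (gH / 2)])
    · rw [e2, rot_inv]; linarith [(abs_le.1 h1).2]
    · rw [e2, tl_inv, lpV_inv]; linarith
  · have := HW M' L' e _ u s hs hA' hy hu (hev.mono m2) (by rw [e1]; linarith)
      (by rw [e1]; linarith) (by rw [e1]; linarith)
    refine (HH _ (by linarith [min_le_right (gH / 2) 1]) this κ hκ).mono ?_
    linarith [min_le_left (gH / 2) 1, min_le_right gP (gH / 2)]

theorem neCase (hN : NE D ρ) (h : Adm ρ M L) : Succ D ρ := by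
  by_contra hS
  obtain ⟨M', L', x, hA, hB⟩ := start_of h (hN M L h)
    fun a e h1 h2 => h.mark.x2A (by have := h.card; omega) h1 h2
  have : ∃ r, ∀ κ, 0 < κ → AS D ρ κ r := by
    by_cases hn : M'.NoAnn (M'.triK x) (M'.tri x)
    · exact ⟨_, fun κ hκ => pantsNE hS hA hB hn (fun d _ => hN M' L' hA d) hκ one_pos⟩
    · obtain ⟨l, hl⟩ := (Set.finite_range fun d => tl (lf ρ L' d)).bddAbove
      obtain ⟨g, -, H⟩ := handleNE hN hS l
      exact ⟨_, H l le_rfl (hd_of_ann hA hB hn fun d _ => hl ⟨d, rfl⟩)⟩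
  obtain ⟨r, hr⟩ := this
  obtain ⟨g, hg, H⟩ := stepNE hN hS r
  exact descent (P := fun s => ∀ κ, 0 < κ → AS D ρ κ s) hg hr
    (fun s hs => (hs 1 one_pos).nonneg) H

end A25f44
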