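import Pool.Agent.Lib.MP_a25f44_gt.SEllQ
import Pool.Agent.Lib.MP_a25f44_gt.SEllR
import Pool.Agent.Lib.MP_a25f44_gt.SEllS
import Pool.Agent.Lib.MP_a25f44_gt.SGain
import Pool.Agent.Lib.MP_a25f44_gt.SNEf

/-! The elliptic descent and the conclusion. -/

open scoped MatrixGroups
open Pool.Agent.Lib.MP_a25f44_gt Finset

noncomputable section

namespace A25f44

variable {D Γ : Type} [Group Γ] [Fintype D] [DecidableEq D] {ρ : Γ →* PSL(2, ℝ)}
  {M : DartMap D} {L : D → Γ} {K F : Finset D}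

theorem startE (hS : ¬Succ D ρ) (h : Adm ρ M L) {e : D} {τ : ℝ} (hE : Ell τ (lf ρ L e)) :
    ∃ r : ℝ, ∀ κ, 0 < κ → ES D ρ τ κ r := by
  by_cases hi : ∃ a, Itl M e a
  · obtain ⟨a, ha⟩ := hi
    exact ⟨_, fun κ hκ => handle_es h hE ha hκ one_pos⟩
  have ht := h.mark.tr
  have hP := ht.ps_edge e
  have hn := (hP.nx_notMem (w := e) (by simp) (by simp)).2
  have v0 : M.vtx {e, M.op e} e = e := hP.cut.vtx_self (by simp)
  have v1 : M.vtx {e, M.op e} (M.nx (M.nx e)) = e := by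
    rcases vtx_edge ht e (M.nx (M.nx e)) with k | k
    · exact k
    refine absurd ⟨M.op (M.nx (M.nx e)), ?_, ?_⟩ hi
    · rw [hP.cut.vtx_op _ hn, M.nx3, v0]
    · rw [← hP.cut.vtx_op _ fun c => hn (by simpa [M.op2] using hP.cut.inv _ c), M.op2, k]
  obtain ⟨M', L', hm, hp, he, -⟩ := h.mark.x1A (a := M.nx (M.nx e)) (e := e)
    (fun c => hn (by simp [c])) (fun c => hn (by simp [c])) v1 (by rw [M.nx3, v0])
  have hA := h.of_move hm
  have hE' : Ell τ (lf ρ L' e) := by rwa [lf_congr he]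
  rcases pantsE hS hA hE' hp with ⟨-, -, k⟩ | ⟨a, ha, -⟩
  · exact ⟨_, fun κ hκ => k κ 1 hκ one_pos⟩
  · exact ⟨_, fun κ hκ => handle_es hA hE' ha hκ one_pos⟩

lemma lpV_third (hL : M.IsLab L) (e : D) {y : V} (hy : Hyp y) :
    lpV (lf ρ L (M.nx e)) y ≤ lpV (lf ρ L e) y + lpV (lf ρ L (M.nx (M.nx e))) y := by
  have k := lpV_mul_le (lf ρ L (M.nx (M.nx e))) (lf ρ L e) hy
  have e1 : lpV (lf ρ L (M.nx e)) y = lpV (lf ρ L (M.nx (M.nx e)) * lf ρ L e) y := by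
    rw [← lpV_inv (_ * _)]
    refine lpV_eq_of_mk ?_ y
    rw [QuotientGroup.mk_inv, QuotientGroup.mk_mul, lf_mk, lf_mk, lf_mk, ← map_mul, ← map_inv]
    congr 1
    have := hL.2 (M.nx (M.nx e))
    rw [M.nx3] at this
    exact eq_inv_of_mul_eq_one_right this
  linarith

lemma tr_third (hL : M.IsLab L) (e : D) :
    |tr (lf ρ L e * lf ρ L (M.nx e))| = tr (lf ρ L (M.nx (M.nx e))) := by
  have h0 : 0 ≤ tr (lf ρ L (M.nx (M.nx e))) := cl_tr _
  rcases lf_mul3 (ρ := ρ) hL e with k | k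
  · rw [eq_inv_of_mul_eq_one_left k, tr_inv, abs_of_nonneg h0]
  · have : -(lf ρ L e * lf ρ L (M.nx e)) * lf ρ L (M.nx (M.nx e)) = 1 := by
      rw [neg_mul, k, neg_neg]
    have := congrArg tr (eq_inv_of_mul_eq_one_left this)
    rw [tr_neg, tr_inv] at this
    rw [← abs_neg, this, abs_of_nonneg h0]

theorem stepE (hS : ¬Succ D ρ) {τ : ℝ} (h0 : 0 < τ) (h2 : τ < 2) (Bd : ℝ) : ∃ g : ℝ, 0 < g ∧
    ∀ r, r ≤ Bd → (∀ κ, 0 < κ → ES D ρ τ κ r) → ∀ κ, 0 < κ → ES D ρ τ κ (r - g) := by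
  obtain ⟨c, hc, HC⟩ := handle_small (D := D) (ρ := ρ) h0 h2
  obtain ⟨η₀, hη₀, H0⟩ := short_ell Bd h2
  obtain ⟨η₁, hη₁, H1⟩ := pantsR (D := D) (ρ := ρ)
  obtain ⟨η, hη, a1, a2, a3⟩ : ∃ η : ℝ, 0 < η ∧ 3 * η ≤ η₀ ∧ 2 * η ≤ η₁ ∧ 10 * η ≤ c :=
    ⟨min (η₀ / 3) (min (η₁ / 2) (c / 10)), by positivity, by linarith [min_le_left (η₀ / 3) (min (η₁ / 2) (c / 10))],
      by linarith [min_le_right (η₀ / 3) (min (η₁ / 2) (c / 10)), min_le_left (η₁ / 2) (c / 10)],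
      by linarith [min_le_right (η₀ / 3) (min (η₁ / 2) (c / 10)), min_le_right (η₁ / 2) (c / 10)]⟩
  refine ⟨η, hη, fun r hr hA κ hκ => ?_⟩
  have HH : ∀ (M : DartMap D) (L : D → Γ) (e a : D), Adm ρ M L → Ell τ (lf ρ L e) → Itl M e a →
      tl (com ρ L e a) ≤ r + 3 * η → ES D ρ τ κ (r - η) := fun M L e a hA hE ha hl => by
    have : c < tl (com ρ L e a) := lt_of_not_ge fun k => hS (HC M L e a hA hE ha k)
    exact (handle_es hA hE ha hκ hη).mono (by linarith)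
  have HT : ∀ (M : DartMap D) (L : D → Γ) (e a d : D) (y : V), Adm ρ M L → Ell τ (lf ρ L e) →
      Itl M e a → Hyp y → tr (com ρ L e a) = tr (lf ρ L d) →
      tl (com ρ L e a) ≤ lpV (lf ρ L d) y := fun M L e a d y hA hE ha hy k => by
    have := com_hyp hA (hE.2.2.1 ▸ h2) ha
    rw [tl_congr (congrArg _ k)]
    exact tl_le_lpV (k ▸ this.le.trans (le_abs_self _)) hy
  obtain ⟨M, L, e, z, u, hcf, hE, hw, k1, k2, k3⟩ := hA η hη
  have hz := hcf.hz
  have hu := hcf.hu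
  rcases eventA hcf hw hη with h | ⟨M', L', a, b, hA', he, ha, hb, hab, hy, hev⟩
  · exact absurd h hS
  have e1 : lf ρ L' e = lf ρ L e := lf_congr he
  have hE' : Ell τ (lf ρ L' e) := by rwa [e1]
  have hL := hA'.mark.lab
  have tt : |tr (lf ρ L e)| = τ := by rw [hE.2.2.1, abs_of_pos h0]
  have rz : 0 < rot (lf ρ L e) z := rot_pos_all (by linarith) hyp_oV.tim hE.2.2.2 hz.tim
  have l1 : lpV (lf ρ L' e) (a • z + b • u) ≤ r := by
    rw [e1]
    refine (lpV_mono _ hy hz ?_).trans k3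
    rw [rot_add, rot_smul, rot_smul]
    exact abs_comb_le ha hb hab (((lpV_le_lpV_iff _ hu hz).1 k2).trans (abs_of_pos rz).le)
  rw [← e1] at k1 tt
  set y := a • z + b • u
  rcases hev with ⟨hp, hev⟩ | ⟨hp, hev⟩ | ⟨f, m₁, m₂, s₁, s₂, hf, g1, g2, g3, g4, g5, g6, g7, g8, g9⟩
  · have n1 := lpV_nonneg (lf ρ L' (M'.nx e)) hy
    have n2 := lpV_nonneg (lf ρ L' (M'.nx (M'.nx e))) hy
    have n3 := lpV_nonneg (lf ρ L' e) hy
    have n4 := lpV_third (ρ := ρ) hL e hy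
    rcases pantsE hS hA' hE' hp with ⟨t1, t2, k⟩ | ⟨f, hf, k⟩
    · have s1 : η₀ < lpV (lf ρ L' (M'.nx e)) y := lt_of_not_ge fun q => by
        have := H0 _ _ y tt.le (t1.trans (le_abs_self _)) hy (l1.trans hr) q
        rw [tr_third hL] at this
        linarith
      have s2 : η₀ < lpV (lf ρ L' (M'.nx (M'.nx e))) y := lt_of_not_ge fun q => by
        have := H0 _ _ y tt.le (t2.trans (le_abs_self _)) hy (l1.trans hr) q
        have k := tr_third (ρ := ρ) hL (M'.nx (M'.nx e))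
        rw [M'.nx3] at k
        rw [tr_mul_comm, k] at this
        linarith
      have u1 := tl_le_lpV (t1.trans (le_abs_self _)) hy
      have u2 := tl_le_lpV (t2.trans (le_abs_self _)) hy
      refine (k κ η hκ hη).mono ?_
      rw [← le_sub_iff_add_le, max_le_iff]
      rcases hev with hev | hev
      · constructor <;> linarith
      · linarith
    · refine HH M' L' e f hA' hE' hf ?_
      rcases k with k | k <;> refine (HT M' L' e f _ y hA' hE' hf hy k).trans ?_ <;>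
        rcases hev with hev | hev <;> linarith
  · have n0 : lpV (lf ρ L' (M'.op e)) u ≤ η := by rwa [lpV_lf_op hL]
    have n1 := lpV_nonneg (lf ρ L' (M'.nx (M'.op e))) hu
    have n2 := lpV_nonneg (lf ρ L' (M'.nx (M'.nx (M'.op e)))) hu
    have n4 := lpV_third (ρ := ρ) hL (M'.op e) hu
    have b1 : lpV (lf ρ L' (M'.nx (M'.op e))) u ≤ 2 * η := by
      rcases hev with hev | hev <;> linarith
    have b2 : lpV (lf ρ L' (M'.nx (M'.nx (M'.op e)))) u ≤ 2 * η := by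
      rcases hev with hev | hev <;> linarith
    obtain ⟨f, hf, k⟩ := H1 M' L' e τ u hA' hE' hp hu fun d hd => by
      simp only [DartMap.tri, mem_insert, mem_singleton] at hd
      rcases hd with rfl | rfl | rfl <;> linarith
    refine absurd (HC M' L' e f hA' hE' hf ?_) hS
    rcases k with k | k <;> refine (HT M' L' e f _ u hA' hE' hf hu k).trans ?_ <;> linarith
  · refine HH M' L' e f hA' hE' hf ?_
    have q1 : lpV (lf ρ L' e) m₁ ≤ r := (lpV_mono _ g1 hy (by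
      rw [g7, abs_mul, abs_of_nonneg g3]; exact mul_le_of_le_one_left (abs_nonneg _) g4)).trans l1
    have q2 : lpV (lf ρ L' e) m₂ ≤ η := (lpV_mono _ g2 hu (by
      rw [g8, abs_mul, abs_of_nonneg g5]; exact mul_le_of_le_one_left (abs_nonneg _) g6)).trans k1
    have q3 := tl_le_lpV ((com_hyp hA' (hE'.2.2.1 ▸ h2) hf).le.trans (le_abs_self _)) g1
    have q4 : lpV (com ρ L' e f) m₁ =
        lpV (lf ρ L' e * (lf ρ L' f * (lf ρ L' e)⁻¹ * (lf ρ L' f)⁻¹)) m₁ := by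
      refine lpV_eq_of_mk ?_ m₁
      simp only [com, cl_mk, QuotientGroup.mk_inv, QuotientGroup.mk_mul, lf_mk, map_mul, map_inv,
        mul_assoc]
    have q5 := lpV_mul_le (lf ρ L' e) (lf ρ L' f * (lf ρ L' e)⁻¹ * (lf ρ L' f)⁻¹) g1
    have q6 := lpV_le_add (lf ρ L' f * (lf ρ L' e)⁻¹ * (lf ρ L' f)⁻¹) g1 (g2.smul (lf ρ L' f))
    rw [lpV_conj, lpV_inv, lf_smul] at q6
    linarith

theorem ellCase (h : Adm ρ M L) {e : D} (hE : tr (lf ρ L e) < 2) : Succ D ρ := by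
  by_contra hS
  have h0 : 0 ≤ tr (lf ρ L e) := cl_tr _
  rcases h0.eq_or_lt with h1 | h1
  · exact hS (half_turn h h1.symm)
  have : ∃ e', Ell (tr (lf ρ L e)) (lf ρ L e') := by
    rcases (rot_ne_zero (by rw [abs_of_pos h1]; exact hE.le) (lf_ne_one h e).1 (lf_ne_one h e).2
      hyp_oV.tim).lt_or_gt with k | k
    · refine ⟨M.op e, h1, hE, tr_lf_op h.mark.lab e, ?_⟩
      rw [lf_op h.mark.lab h1, rot_inv]; linarith
    · exact ⟨e, h1, hE, rfl, k⟩
  obtain ⟨e', he'⟩ := this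
  obtain ⟨r, hr⟩ := startE hS h he'
  obtain ⟨g, hg, H⟩ := stepE hS h1 hE r
  exact descent (P := fun s => ∀ κ, 0 < κ → ES D ρ (tr (lf ρ L e)) κ s) hg hr
    (fun s hs => (hs 1 one_pos).nonneg) H

theorem succ_of_adm (h : Adm ρ M L) : Succ D ρ := by
  by_cases hN : NE D ρ
  · exact neCase hN h
  · simp only [NE, not_forall, not_le] at hN
    obtain ⟨M', L', hA, d, hd⟩ := hN
    exact ellCase hA hd

end A25f44
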