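import Pool.Agent.Lib.MP_a25f44_gt.SAlg

/-! The point lemma, hexagon type. -/

open scoped MatrixGroups
open Pool.Agent.Lib.MP_a25f44_gt Finset

noncomputable section

namespace A25f44

open Filter Topology

/-- a chart of the hyperboloid -/
def SHex.X (z : ℝ × ℝ) : V := (z.1, z.2, (1 + z.2 ^ 2) / z.1)

lemma SHex.hyp {z : ℝ × ℝ} (h : 0 < z.1) : Hyp (SHex.X z) := by
  refine ⟨by simp only [SHex.X]; positivity, ?_⟩
  simp only [SHex.X, B]
  field_simp
  ring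

lemma SHex.cont {z : ℝ × ℝ} (h : 0 < z.1) : ContinuousAt SHex.X z := by
  unfold SHex.X
  fun_prop (disch := exact h.ne')

lemma SHex.cont_rot (A : SL(2, ℝ)) {z : ℝ × ℝ} (h : 0 < z.1) :
    ContinuousAt (fun z => rot A (SHex.X z)) z :=
  (continuous_B continuous_const continuous_id).continuousAt.comp (SHex.cont h)

lemma SHex.alg {p s u v l : ℝ} (hd : p * s - u * v = 1) (hl : 1 < l) (hs : 0 < s) (h1 : s ≤ p)
    (h2 : p ≤ s * l ^ 2) (h0 : s * u + p * v = 0) (huv : u * v < 0) :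
    (p + s) ^ 2 / 2 - 1 + 2 * ((u - v) / 2) ^ 2 = (p / s + (p / s)⁻¹) / 2 ∧
    (s * l + p / l) ^ 2 / 2 - 1 + 2 * ((l * v - u / l) / 2) ^ 2 =
      (l ^ 2 / (p / s) + (l ^ 2 / (p / s))⁻¹) / 2 ∧
    (u - v) / 2 * ((l * v - u / l) / 2) < 0 ∧
    ((u - v) / 2) ^ 2 ≤ (l + l⁻¹) ^ 2 * -(u * v) ∧
    ((l * v - u / l) / 2) ^ 2 ≤ (l + l⁻¹) ^ 2 * -(u * v) := by
  have hp : 0 < p := by linarith
  have hl0 : 0 < l := by linarith
  obtain ⟨t, ht⟩ : ∃ t, t = p / s := ⟨_, rfl⟩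
  have e1 : p = t * s := by rw [ht]; field_simp
  have t1 : 1 ≤ t := by rw [ht, le_div_iff₀ hs]; linarith
  have t2 : t ≤ l ^ 2 := by rw [ht, div_le_iff₀ hs]; linarith
  have t0 : 0 < t := by linarith
  have e2 : u = -t * v := mul_left_cancel₀ hs.ne' (by rw [e1] at h0; linarith)
  rw [← ht]
  subst e1 e2
  have hv : 0 < v ^ 2 := by nlinarith
  have e3 : t * (s ^ 2 + v ^ 2) = 1 := by linarith
  have hC : l ^ 2 + 2 ≤ (l + l⁻¹) ^ 2 := by
    have : (l + l⁻¹) ^ 2 = l ^ 2 + 2 + l⁻¹ ^ 2 := by field_simp; ring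
    nlinarith [sq_nonneg l⁻¹]
  have hw : 0 < t * v ^ 2 := by positivity
  have hC' := mul_le_mul_of_nonneg_right hC hw.le
  have l2 : 1 < l ^ 2 := by nlinarith
  refine ⟨?_, ?_, ?_, ?_, ?_⟩
  · field_simp
    linear_combination (t + 1) ^ 2 * e3
  · field_simp
    linear_combination (l ^ 2 + t) ^ 2 * e3
  · have : (-t * v - v) / 2 * ((l * v - -t * v / l) / 2) = -((t + 1) * (l + t / l) * v ^ 2 / 4) := by
      ring
    rw [this, neg_lt_zero]
    positivity
  · have : (t + 1) ^ 2 ≤ 4 * ((l ^ 2 + 2) * t) := by nlinarith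
    nlinarith [mul_le_mul_of_nonneg_right this hv.le]
  · have h3 : t / l ≤ l := by rw [div_le_iff₀ hl0]; linarith
    have h4 : 0 < t / l := by positivity
    have h5 : (l + t / l) ^ 2 ≤ 4 * ((l ^ 2 + 2) * t) := by nlinarith
    have : ((l * v - -t * v / l) / 2) ^ 2 = (l + t / l) ^ 2 * v ^ 2 / 4 := by ring
    rw [this]
    nlinarith [mul_le_mul_of_nonneg_right h5 hv.le]

lemma SHex.freq {k m y : ℝ} (hk : k ≠ 0) (hy : 0 < y) (h : k * y ^ 2 + m = 0) :
    ∃ᶠ x in 𝓝 y, 0 < k * x ^ 2 + m := by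
  rcases hk.lt_or_gt with hk | hk
  · refine Frequently.filter_mono (Eventually.frequently ?_) (nhdsWithin_le_nhds (s := Set.Iio y))
    filter_upwards [Ioo_mem_nhdsLT hy] with x hx
    nlinarith [mul_pos (sub_pos.2 hx.2) (add_pos hy hx.1)]
  · refine Frequently.filter_mono (Eventually.frequently ?_) (nhdsWithin_le_nhds (s := Set.Ioi y))
    filter_upwards [self_mem_nhdsWithin] with x hx
    have hx' : y < x := hx
    nlinarith [mul_pos (sub_pos.2 hx') (add_pos hy (hy.trans hx'))]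

lemma SHex.nf {a b c : SL(2, ℝ)} {l : ℝ} (hl : 1 < l) (h : a * b * c = 1) (e00 : (a * b) 0 0 = l)
    (e01 : (a * b) 0 1 = 0) (e10 : (a * b) 1 0 = 0) (e11 : (a * b) 1 1 = l⁻¹) (ha : 0 < tr a)
    (h1 : 2 * tr b ≤ tr a * tr c) (h2 : 2 * tr a ≤ tr b * tr c) (hT : 0 < Th a b) {ε : ℝ}
    (hε : 0 < ε) : ∃ (x : V) (sa sb : ℝ), Hyp x ∧ 0 < det3 x (a • x) ((a * b) • x) ∧
      rot c x < 0 ∧ rot a x * rot b x < 0 ∧ 0 ≤ sa ∧ 0 ≤ sb ∧ sa + sb = tl c ∧
      (tr a = tr b → sa = sb) ∧ lpV a x ≤ sa + ε ∧ lpV b x ≤ sb + ε ∧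
      rot a x ^ 2 ≤ tr c ^ 2 * Th a b / (tr c ^ 2 - 4) + ε ∧
      rot b x ^ 2 ≤ tr c ^ 2 * Th a b / (tr c ^ 2 - 4) + ε ∧ |rot c x| ≤ ε := by
  have hl0 : 0 < l := by linarith
  have hli : l⁻¹ < 1 := inv_lt_one_of_one_lt₀ hl
  have hli0 : 0 < l⁻¹ := inv_pos.2 hl0
  have hll : l * l⁻¹ = 1 := mul_inv_cancel₀ hl0.ne'
  have hc : c = (a * b)⁻¹ := eq_inv_of_mul_eq_one_right h
  have hb : b = a⁻¹ * (a * b) := by simp
  have hd := det_eq a
  have b00 : b 0 0 = a 1 1 * l := by rw [hb, mul00, inv00, inv01, e00, e10]; ring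
  have b01 : b 0 1 = -a 0 1 / l := by rw [hb, mul01, inv00, inv01, e01, e11]; ring
  have b10 : b 1 0 = -a 1 0 * l := by rw [hb, mul10, inv10, inv11, e00, e10]; ring
  have b11 : b 1 1 = a 0 0 / l := by rw [hb, mul11, inv10, inv11, e01, e11]; ring
  have tc : tr c = l + l⁻¹ := by rw [hc, tr_inv, tr, e00, e11]
  have tb : tr b = a 1 1 * l + a 0 0 / l := by rw [tr, b00, b11]
  have ta : tr a = a 0 0 + a 1 1 := rfl
  have rc : ∀ z, rot c (SHex.X z) = -((l - l⁻¹) / 2 * z.2) := fun z => by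
    simp only [hc, rot, B, ax, inv00, inv01, inv10, inv11, e00, e01, e10, e11, SHex.X]; ring
  have ra : ∀ y, rot a (SHex.X (y, 0)) = (a 0 1 / y - a 1 0 * y) / 2 := fun y => by
    simp only [rot, B, ax, SHex.X]; ring
  have rb : ∀ y, rot b (SHex.X (y, 0)) = (l * (a 1 0 * y) - a 0 1 / y / l) / 2 := fun y => by
    simp only [rot, B, ax, SHex.X, b01, b10]; ring
  have dt : ∀ y, 0 < y → det3 (SHex.X (y, 0)) (a • SHex.X (y, 0)) ((a * b) • SHex.X (y, 0)) =
      (a 0 0 * a 1 0 * y ^ 2 + a 0 1 * a 1 1) / y * ((l ^ 2 - l⁻¹ ^ 2) / 2) := fun y hy => by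
    simp only [det3, smul_1, smul_21, smul_22, e00, e01, e10, e11, SHex.X]
    field_simp
    ring
  have hT' := Th_eq h
  generalize a 0 0 = p at *
  generalize a 0 1 = q at *
  generalize a 1 0 = r at *
  generalize a 1 1 = s at *
  have hlp : 0 < l - l⁻¹ := by linarith
  have eC : tr c ^ 2 - 4 = (l - l⁻¹) ^ 2 := by rw [tc]; linear_combination 4 * hll
  have eT : Th a b = (l - l⁻¹) ^ 2 * -(q * r) := by
    rw [hT', ta, tb, tc]
    field_simp
    linear_combination (-(l ^ 2 - 1) ^ 2) * hd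
  have hqr : q * r < 0 := by
    rw [eT] at hT
    have := (pos_iff_pos_of_mul_pos hT).1 (by positivity)
    linarith
  have eB : tr c ^ 2 * Th a b / (tr c ^ 2 - 4) = (l + l⁻¹) ^ 2 * -(q * r) := by
    rw [eC, eT, tc, mul_left_comm, mul_div_cancel_left₀ _ (by positivity)]
  rw [ta, tb, tc, div_eq_mul_inv] at h1 h2
  have k1 : s ≤ p := le_of_mul_le_mul_right (by linarith) hlp
  have k2 : p ≤ s * l ^ 2 := by
    refine le_of_mul_le_mul_right (a := 1 - l⁻¹ ^ 2) ?_ (by nlinarith)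
    have : s * l ^ 2 * l⁻¹ ^ 2 = s := by field_simp
    have h3 : s * l * l⁻¹ = s := by field_simp
    have h4 : p * l⁻¹ * l = p := by field_simp
    nlinarith
  have hs : 0 < s := by
    rw [ta] at ha
    by_contra hs
    have : s * l ^ 2 ≤ 0 := mul_nonpos_of_nonpos_of_nonneg (not_lt.1 hs) (sq_nonneg l)
    linarith
  have hp : 0 < p := by linarith
  have hr : r ≠ 0 := by rintro rfl; simp at hqr
  have hk : p * r ≠ 0 := mul_ne_zero hp.ne' hr
  obtain ⟨y, hy, ey⟩ : ∃ y, 0 < y ∧ p * r * y ^ 2 + q * s = 0 := by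
    have : 0 < -(q * s) / (p * r) := by
      have e : -(q * s) / (p * r) = -(q * r) * s / (p * r ^ 2) := by field_simp
      rw [e]
      exact div_pos (mul_pos (by linarith) hs) (by positivity)
    refine ⟨√(-(q * s) / (p * r)), Real.sqrt_pos.2 this, ?_⟩
    rw [Real.sq_sqrt this.le]
    field_simp
    ring
  have euv : q / y * (r * y) = q * r := by field_simp
  obtain ⟨g1, g2, g3, g4, g5⟩ := SHex.alg (u := q / y) (v := r * y) (by rw [euv]; exact hd) hl hs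
    k1 k2 (by field_simp; linear_combination ey) (by rw [euv]; exact hqr)
  rw [← ra, ← rb] at g3
  rw [← ra, ← ta] at g1
  rw [← rb, ← tb] at g2
  rw [← ra, euv, ← eB] at g4
  rw [← rb, euv, ← eB] at g5
  have t1 : 1 ≤ p / s := by rw [le_div_iff₀ hs]; linarith
  have t2 : 1 ≤ l ^ 2 / (p / s) := by
    rw [le_div_iff₀ (by positivity), one_mul, div_le_iff₀ hs]; linarith
  rw [← Real.cosh_log (by positivity)] at g1 g2
  have s1 := Real.log_nonneg t1
  have s2 := Real.log_nonneg t2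
  have s3 : Real.log (p / s) + Real.log (l ^ 2 / (p / s)) = tl c := by
    rw [← Real.log_mul (by positivity) (by positivity), mul_div_cancel₀ _ (by positivity), tl,
      ← Real.arcosh_cosh (Real.log_nonneg (one_le_pow₀ hl.le (n := 2))),
      Real.cosh_log (by positivity), tc]
    congr 1
    field_simp
    ring
  have s4 : tr a = tr b → Real.log (p / s) = Real.log (l ^ 2 / (p / s)) := fun e => by
    rw [ta, tb] at e
    have e1 : p = s * l := by
      refine mul_right_cancel₀ (b := l - 1) (by linarith) ?_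
      field_simp at e
      linear_combination e
    rw [e1]
    congr 1
    field_simp
  generalize Real.log (p / s) = sa at *
  generalize Real.log (l ^ 2 / (p / s)) = sb at *
  generalize tr c ^ 2 * Th a b / (tr c ^ 2 - 4) = K at *
  have ch : ∀ x : ℝ, 0 ≤ x → Real.cosh x < Real.cosh (x + ε) := fun x hx =>
    Real.cosh_lt_cosh.2 (by rw [abs_of_nonneg hx, abs_of_nonneg (by linarith)]; linarith)
  have ca := SHex.cont_rot a (z := (y, 0)) hy
  have cb := SHex.cont_rot b (z := (y, 0)) hy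
  have cc := SHex.cont_rot c (z := (y, 0)) hy
  have ev : ∀ᶠ z in 𝓝 (y, (0 : ℝ)), 0 < z.1 ∧ rot a (SHex.X z) * rot b (SHex.X z) < 0 ∧
      tr a ^ 2 / 2 - 1 + 2 * rot a (SHex.X z) ^ 2 < Real.cosh (sa + ε) ∧
      tr b ^ 2 / 2 - 1 + 2 * rot b (SHex.X z) ^ 2 < Real.cosh (sb + ε) ∧
      rot a (SHex.X z) ^ 2 < K + ε ∧ rot b (SHex.X z) ^ 2 < K + ε ∧ |rot c (SHex.X z)| < ε := by
    refine (continuousAt_const.eventually_lt continuousAt_fst hy).and
      (((ca.mul cb).eventually_lt continuousAt_const g3).and (Eventually.and ?_ (Eventually.and ?_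
        (((ca.pow 2).eventually_lt continuousAt_const (lt_add_of_le_of_pos g4 hε)).and
        (((cb.pow 2).eventually_lt continuousAt_const (lt_add_of_le_of_pos g5 hε)).and
        (cc.abs.eventually_lt continuousAt_const (by simpa [rc] using hε)))))))
    · exact ContinuousAt.eventually_lt (by fun_prop) continuousAt_const (g1 ▸ ch sa s1)
    · exact ContinuousAt.eventually_lt (by fun_prop) continuousAt_const (g2 ▸ ch sb s2)
  rw [nhds_prod_eq] at ev
  obtain ⟨y1, d1, ev1⟩ := ((SHex.freq hk hy ey).and_eventually ev.curry).exists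
  have hy1 : 0 < y1 := ev1.self_of_nhds.1
  have cd : ContinuousAt (fun w : ℝ => det3 (SHex.X (y1, w)) (a • SHex.X (y1, w))
      ((a * b) • SHex.X (y1, w))) 0 := by
    have c1 : Continuous fun v : V => det3 v (a • v) ((a * b) • v) := by fun_prop
    exact c1.continuousAt.comp ((SHex.cont (z := (y1, 0)) hy1).comp (f := fun w : ℝ => (y1, w))
      (by fun_prop))
  have ev2 := continuousAt_const.eventually_lt cd (show 0 < _ by
    rw [dt y1 hy1]
    exact mul_pos (div_pos d1 hy1) (by nlinarith))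
  obtain ⟨w, ⟨⟨-, f1, f2, f3, f4, f5, f6⟩, f7⟩, hw⟩ :=
    (((ev1.and ev2).filter_mono (nhdsWithin_le_nhds (s := Set.Ioi 0))).and
      self_mem_nhdsWithin).exists
  have hx := SHex.hyp (z := (y1, w)) hy1
  refine ⟨SHex.X (y1, w), sa, sb, hx, f7, ?_, f1, s1, s2, s3, s4, ?_, ?_, f4.le, f5.le, f6.le⟩
  · rw [rc, neg_lt_zero]
    exact mul_pos (by linarith) hw
  · rw [lpV_eq a hx, arcosh_le_iff (one_le_lp a hx) (by linarith)]
    exact f2.le
  · rw [lpV_eq b hx, arcosh_le_iff (one_le_lp b hx) (by linarith)]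
    exact f3.le

/-- hexagon type (also with elliptic `a` or `b`): a point next to the flat point on the axis of
`c` -/
theorem hex {a b c : SL(2, ℝ)} (h : a * b * c = 1) (hc : 2 < tr c) (ha : 0 < tr a) (hb : 0 < tr b)
    (h1 : 2 * tr b ≤ tr a * tr c) (h2 : 2 * tr a ≤ tr b * tr c) (hT : 0 < Th a b) {ε : ℝ}
    (hε : 0 < ε) : ∃ (x : V) (sa sb : ℝ), Hyp x ∧ 0 < det3 x (a • x) ((a * b) • x) ∧
      rot c x < 0 ∧ rot a x * rot b x < 0 ∧ 0 ≤ sa ∧ 0 ≤ sb ∧ sa + sb = tl c ∧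
      (tr a = tr b → sa = sb) ∧ lpV a x ≤ sa + ε ∧ lpV b x ≤ sb + ε ∧
      rot a x ^ 2 ≤ tr c ^ 2 * Th a b / (tr c ^ 2 - 4) + ε ∧
      rot b x ^ 2 ≤ tr c ^ 2 * Th a b / (tr c ^ 2 - 4) + ε ∧ |rot c x| ≤ ε := by
  have hab : 2 < tr (a * b) := by rwa [eq_inv_of_mul_eq_one_left h, tr_inv]
  obtain ⟨g, e00, e01, e10, e11⟩ := exists_diag hab
  have e : g * (a * b) * g⁻¹ = g * a * g⁻¹ * (g * b * g⁻¹) := by group
  have h' : g * a * g⁻¹ * (g * b * g⁻¹) * (g * c * g⁻¹) = 1 := by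
    rw [show g * a * g⁻¹ * (g * b * g⁻¹) * (g * c * g⁻¹) = g * (a * b * c) * g⁻¹ by group, h]
    group
  have eT : Th (g * a * g⁻¹) (g * b * g⁻¹) = Th a b := by
    rw [Th_eq h', Th_eq h, tr_conj, tr_conj, tr_conj]
  obtain ⟨x, sa, sb, H⟩ := SHex.nf (one_lt_lam hab) h' (e ▸ e00) (e ▸ e01) (e ▸ e10) (e ▸ e11)
    (by rwa [tr_conj]) (by rwa [tr_conj, tr_conj, tr_conj]) (by rwa [tr_conj, tr_conj, tr_conj])
    (by rwa [eT]) hε
  obtain ⟨x, rfl⟩ : ∃ x', x = g • x' := ⟨g⁻¹ • x, by simp⟩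
  have e2 : ∀ A : SL(2, ℝ), (g * A * g⁻¹) • g • x = g • A • x := fun A => by
    rw [mul_smul, inv_smul_smul, mul_smul]
  rw [← e] at H
  simp only [eT, tr_conj, rot_conj, lpV_conj, tl_conj, e2, det3_smul] at H
  exact ⟨x, sa, sb, by simpa using H.1.smul g⁻¹, H.2⟩

end A25f44
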