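import Pool.Agent.Lib.MP_a25f44_gt.SMake
import Pool.Agent.Lib.MP_a25f44_gt.SHex

/-! The handle step of the elliptic descent. -/

open scoped MatrixGroups
open Pool.Agent.Lib.MP_a25f44_gt Finset

noncomputable section

namespace A25f44

variable {D Γ : Type} [Group Γ] [Fintype D] [DecidableEq D] {ρ : Γ →* PSL(2, ℝ)}
  {M : DartMap D} {L : D → Γ} {K F : Finset D}

omit [Fintype D] [DecidableEq D] in
lemma SEllH.mk_com (e a : D) :
    ((lf ρ L e * lf ρ L a * (lf ρ L e)⁻¹ * (lf ρ L a)⁻¹ : SL(2, ℝ)) : PSL(2, ℝ)) =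
      ρ (L e * L a * (L e)⁻¹ * (L a)⁻¹) := by
  simp only [QuotientGroup.mk_mul, QuotientGroup.mk_inv, lf, cl_mk, map_mul, map_inv]

omit [Fintype D] [DecidableEq D] in
lemma SEllH.com_eq {e : D} (hE : tr (lf ρ L e) < 2) (a : D) :
    com ρ L e a = lf ρ L e * lf ρ L a * (lf ρ L e)⁻¹ * (lf ρ L a)⁻¹ := by
  have h0 : 0 ≤ tr (lf ρ L e) := cl_tr _
  have := Th_nonneg_ell (a := lf ρ L e) (by rwa [abs_of_nonneg h0]) (lf ρ L a)
  exact cl_eq (by unfold Th at this; linarith) (SEllH.mk_com e a)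

theorem com_hyp (h : Adm ρ M L) {e a : D} (hE : tr (lf ρ L e) < 2) (ha : Itl M e a) :
    2 < tr (com ρ L e a) := by
  have h0 : |tr (lf ρ L e)| < 2 := (abs_of_nonneg (cl_tr _)).trans_lt hE
  rw [SEllH.com_eq hE]
  rcases (Th_nonneg_ell h0 (lf ρ L a)).eq_or_lt with z | z
  · obtain ⟨M', L', x, h', -, -, -, -, -, l⟩ := handle_of_itl h ha
    refine absurd ?_ (no_id h' x)
    rw [l, map_inv, ← SEllH.mk_com, Th_zero_ell h0 z.symm]
    simp
  · unfold Th at z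
    linarith

theorem handle_es (h : Adm ρ M L) {e a : D} {τ : ℝ} (hE : Ell τ (lf ρ L e)) (ha : Itl M e a)
    {κ ε : ℝ} (hκ : 0 < κ) (hε : 0 < ε) : ES D ρ τ κ (tl (com ρ L e a) / 2 + ε) := by
  have t0 := hE.1
  have t2 := hE.2.1
  have tA := hE.2.2.1
  have hC := com_hyp h (tA ▸ t2) ha
  have eC := SEllH.com_eq (ρ := ρ) (L := L) (e := e) (tA ▸ t2) a
  obtain ⟨M', L', x, h', hP, ex, an, l1, l2, l3⟩ := handle_of_itl h ha
  have hL := h'.mark.lab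
  have ea : lf ρ L' (M'.nx x) = lf ρ L e := by rw [ex, lf, l1, lf]
  have eb : lf ρ L' (M'.nx (M'.nx x)) = lf ρ L a * (lf ρ L e)⁻¹ * (lf ρ L a)⁻¹ := by
    have i : cl (ρ (L e))⁻¹ = (lf ρ L e)⁻¹ := cl_inv (by rw [← lf, tA]; exact t0)
    have := cl_conj (g := (ρ (L e))⁻¹) (by rw [i, tr_inv, tA]; exact t0) (lf ρ L a)
    rw [ex, lf, l2, map_mul, map_mul, map_inv, map_inv, ← i, ← this, lf_mk]
  have ec : lf ρ L' x = (com ρ L e a)⁻¹ := by
    rw [lf, l3, map_inv]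
    exact cl_inv (by rw [← com]; linarith)
  have tb : tr (lf ρ L' (M'.nx (M'.nx x))) = τ := by rw [eb, tr_conj, tr_inv, tA]
  have tc : tr (lf ρ L' x) = tr (com ρ L e a) := by rw [ec, tr_inv]
  have hB : Bad ρ M' L' x := ⟨hP, by rw [ea, eb, ec, eC]; group⟩
  have abc : lf ρ L' (M'.nx x) * lf ρ L' (M'.nx (M'.nx x)) * lf ρ L' x = 1 := by
    rw [ea, eb, ec, eC]; group
  have tl' : tl (lf ρ L' x) = tl (com ρ L e a) := by rw [tl, tc, tl]
  rw [← ea] at hE tA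
  rw [← tc] at hC
  rw [← tl']
  clear ea eb ec tc tl' eC l1 l2 l3 ha h
  subst ex
  have hT : 0 < Th (lf ρ L' (M'.nx x)) (lf ρ L' (M'.nx (M'.nx x))) := by
    rw [Th_eq abc, tA, tb]
    nlinarith [mul_pos (sub_pos.2 hC) (show 0 < tr (lf ρ L' x) + 2 - τ ^ 2 by nlinarith)]
  obtain ⟨z, sa, sb, hz, dz, rc, -, -, -, s1, s2, s3, -⟩ := hex abc hC (tA ▸ t0) (tb ▸ t0)
    (by rw [tA, tb]; nlinarith) (by rw [tA, tb]; nlinarith) hT hε
  have s2 := s2 (tA.trans tb.symm)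
  obtain ⟨p, hp, hf, -⟩ := exists_centre (g := lf ρ L' (M'.nx x))
    (by rw [tA, abs_of_pos t0]; exact t2)
  have hne : z ≠ p := by
    rintro rfl
    simp [hf] at dz
  obtain ⟨ps, eK⟩ := handle_ps hP an
  have hK := hP.cut
  have pos : ∀ d, pos2 M' (M'.nx x) z p d =
      if M'.vtx (M'.triK x) d = M'.op (M'.nx x) then p else z := fun d => by
    rw [pos2, vtx_pants hP.nx, M'.triK_nx]
    split_ifs with c1 c2 c2
    · exact absurd c2 (M'.op_ne _)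
    · rfl
    · rfl
    · exact absurd rfl c2
  obtain ⟨v1, v2, v3⟩ := hP.walls (d := M'.nx (M'.nx x)) (by simp [DartMap.tri])
  obtain ⟨w1, w2, -⟩ := hP.walls (d := M'.nx x) (by simp [DartMap.tri])
  suffices hpos : ∀ d, d ∉ M'.tri (M'.op (M'.nx x)) →
      0 < faceDet M' L' ρ (pos2 M' (M'.nx x) z p) d by
    obtain ⟨M1, L1, e1, z1, u1, k1, k2, k3, k4, k5, k6⟩ := makeE0 h' hE hp hf hz hne hpos hκ
    exact ⟨M1, L1, e1, z1, u1, k1, k2, k3, k4, k5, by linarith⟩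
  intro d hd
  by_cases c1 : d ∈ M'.tri x
  · have k : ∀ d ∈ M'.tri x, pos2 M' (M'.nx x) z p d = z := fun d hd => by
      rw [pos, hK.vtx_self (DartMap.mem_triK.2 (.inl hd)), if_neg]
      rintro rfl
      exact w2 hd
    rw [faceDet_tri hL _ (x := M'.nx x) (by rwa [M'.tri_nx]), faceDet, k _ (by simp [DartMap.tri]),
      k _ (by simp [DartMap.tri]), k _ (by simp [DartMap.tri, M'.nx3]), map_mul, mul_smul,
      ← lf_smul, ← lf_smul, ← lf_smul, ← mul_smul]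
    exact dz
  by_cases c2 : d ∈ M'.tri (M'.op (M'.nx (M'.nx x)))
  · have ne : M'.op (M'.nx (M'.nx x)) ≠ M'.op (M'.nx x) := fun c =>
      M'.nx2_ne_nx x (DartMap.op_inj.1 c)
    obtain ⟨a1, a2, -⟩ := ann_lab hL an
    rw [faceDet_tri hL _ c2, faceDet, pos, pos, pos, hK.vtx_self v1, v3, if_neg ne,
      vtx_ann hP v1 v2 w1 an, if_pos rfl]
    generalize M'.op (M'.nx (M'.nx x)) = v at a1 a2
    have a3 : L' v = L' (M'.nx v) * L' (M'.nx x) * (L' (M'.nx v))⁻¹ := by rw [a2]; group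
    have a4 : ∀ u : V, ρ (L' v) • u =
        (lf ρ L' (M'.nx v) * lf ρ L' (M'.nx x) * (lf ρ L' (M'.nx v))⁻¹) • u := fun u => by
      rw [a3, ← mk_smul]
      simp only [QuotientGroup.mk_mul, QuotientGroup.mk_inv, lf_mk, map_mul, map_inv]
    have a5 : (lf ρ L' (M'.nx v) * lf ρ L' (M'.nx x) * (lf ρ L' (M'.nx v))⁻¹) •
        lf ρ L' (M'.nx v) • p = lf ρ L' (M'.nx v) • p := by
      rw [mul_smul, inv_smul_smul, mul_smul, hf]
    rw [map_mul, mul_smul, a4, a4, ← lf_smul, a5]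
    refine det_centre (hE.conj _) (hp.smul _) a5 hz fun c => ?_
    rw [← c, ← a4] at a5
    have : lf ρ L' (M'.nx (M'.nx x)) • z = z := by
      rw [lf_smul, a1, map_inv, inv_smul_eq_iff, a5]
    simp [mul_smul, this] at dz
  have dF : d ∉ F9 M' x := by simp [F9, c1, c2, hd]
  have k : ∀ d, d ∉ F9 M' x → pos2 M' (M'.nx x) z p d = z := fun d hd => by
    rw [pos, if_neg fun c => hd ((ps.cl.vtx_mem_iff hK d).1 (by simp [c, F9, DartMap.tri]))]
  have r : ∀ w ∈ M'.triK x \ F9 M' x, 2 ≤ tr (lf ρ L' w) ∧ 0 < rot (lf ρ L' w) z := fun w hw => by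
    rw [eK, mem_singleton] at hw
    rw [hw, tr_lf_op hL, lf_op hL (by linarith), rot_inv]
    exact ⟨hC.le, by linarith⟩
  have := count hL ps (y := fun _ => z) (fun _ => hz.cone) x
    (fun w hw => .inr ⟨(r w hw).1, .inl ⟨hz, (r w hw).2⟩⟩)
    (bud_handle h' hB an hC.le (tA ▸ t0) fun _ => hz.cone) dF fun w hw _ => (r w hw).2
  rw [faceDet] at this ⊢
  rwa [k _ dF, k _ (by rwa [ps.cl.nx_mem_iff]), k _ (by rwa [ps.cl.nx_mem_iff, ps.cl.nx_mem_iff])]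

end A25f44
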