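import Pool.Agent.Lib.MP_a25f44_gt.SNoId
import Pool.Agent.Lib.MP_a25f44_gt.SAlg

/-! The other cuffs of a pair of pants with an elliptic cuff. -/

open scoped MatrixGroups
open Pool.Agent.Lib.MP_a25f44_gt Finset

noncomputable section

namespace A25f44

variable {D Γ : Type} [Group Γ] [Fintype D] [DecidableEq D] {ρ : Γ →* PSL(2, ℝ)}
  {M : DartMap D} {L : D → Γ} {K F : Finset D}

namespace SEllP

/-- the centre of an elliptic element, or an ideal fixed point -/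
def FixP (g : SL(2, ℝ)) (f : V) : Prop :=
  (tr g < 2 ∧ Hyp f ∧ g • f = f) ∨ (2 ≤ tr g ∧ Idl f ∧ rot g f = 0)

lemma exists_fixP {g : SL(2, ℝ)} (h : 0 ≤ tr g) : ∃ f, FixP g f := by
  rcases lt_or_ge (tr g) 2 with h2 | h2
  · obtain ⟨q, hq, hf, -⟩ := exists_centre (g := g) (by rwa [abs_of_nonneg h])
    exact ⟨q, .inl ⟨h2, hq, hf⟩⟩
  · obtain ⟨ξ, h3, h4⟩ := exists_fix (A := g) (by rwa [abs_of_nonneg h])
    exact ⟨ξ, .inr ⟨h2, h3, h4⟩⟩

variable {g : SL(2, ℝ)} {f p : V}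

lemma FixP.cone (h : FixP g f) : Cone f := h.elim (fun h => h.2.1.cone) fun h => h.2.1.1

lemma FixP.reg (h : FixP g f) : Tim f ∨ 2 ≤ tr g := h.imp (fun h => h.2.1.tim) fun h => h.1

lemma FixP.fix (h : FixP g f) : ∃ μ : ℝ, 0 < μ ∧ g • f = μ • f :=
  h.elim (fun h => ⟨1, one_pos, by rw [one_smul, h.2.2]⟩) fun h => h.2.1.fix h.2.2

lemma FixP.hyp (h : FixP g f) (h2 : tr g < 2) : Hyp f :=
  h.elim (fun h => h.2.1) fun h => absurd h.1 (not_le.2 h2)

lemma FixP.inv (h : FixP g f) : FixP g⁻¹ f :=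
  h.imp (fun h => ⟨by rw [tr_inv]; exact h.1, h.2.1, inv_smul_eq_iff.2 h.2.2.symm⟩)
    fun h => ⟨by rw [tr_inv]; exact h.1, h.2.1, by rw [rot_inv, h.2.2, neg_zero]⟩

lemma qa_le (h0 : 0 ≤ tr g) (hf : Hyp f) (hp : Hyp p) (h1 : 0 < rot g f) (h2 : rot g f ≤ rot g p) :
    qa g f ≤ qa g p := by
  rcases h0.eq_or_lt with h | h
  · have : ∀ v, 0 < rot g v → qa g v = Real.pi := fun v hv => by
      rw [qa, Complex.arg_eq_pi_div_two_iff.2 ⟨by rw [al_re, ← h]; ring, hv⟩]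
      ring
    rw [this f h1, this p (h1.trans_le h2)]
  · exact qa_mono h hf hp h2

/-- turning at the fixed point and at a finite point -/
lemma FixP.psi (h : FixP g f) (h0 : 0 ≤ tr g) (hp : Hyp p) : (2 ≤ tr g ∧ qa g f = 0) ∨
    (tr g < 2 ∧ ((0 < qa g f ∧ qa g f ≤ qa g p) ∨ (qa g p ≤ qa g f ∧ qa g f < 0))) := by
  rcases h with ⟨h1, h2, h3⟩ | ⟨h1, -, h3⟩
  · refine .inr ⟨h1, ?_⟩
    have e1 := rot_centre h2 h3 p
    have e2 := rot_centre_sq h2 h3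
    have e3 := h2.one_le_B hp
    rcases lt_trichotomy (rot g f) 0 with c | c | c
    · have := qa_le (g := g⁻¹) (by rwa [tr_inv]) h2 hp (by rw [rot_inv]; linarith)
        (by rw [rot_inv, rot_inv, e1]; nlinarith)
      rw [qa_inv h0, qa_inv h0] at this
      exact .inr ⟨by linarith, (qa_neg_iff _ _).2 c⟩
    · rw [c] at e2
      nlinarith
    · exact .inl ⟨(qa_pos_iff h0 _).2 c, qa_le h0 h2 hp c (by rw [e1]; nlinarith)⟩
  · exact .inl ⟨h1, (qa_eq_zero_iff h0 _).2 h3⟩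

variable {a b c : SL(2, ℝ)}

lemma arg_prod (H : a * b * c = 1) (hp : Hyp p) (hf : a • p = p) :
    ((Complex.arg (al a p) + Complex.arg (al b p) + Complex.arg (al c p) : ℝ) : Real.Angle) =
      (0 : ℝ) := by
  have hZ := Zc_loop3 H hp.cone
  rw [hf] at hZ
  have h1 := Zc_re_pos' hp.tim hp.tim (hp.cone.smul (a * b))
  have h2 : (Zc p p ((a * b) • p)).im = 0 := by rw [Zc_im, det3_self12]
  have e : Zc p p ((a * b) • p) = ((4 : ℝ) : ℂ) * (al a p * al b p * al c p) := by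
    rw [hZ]; norm_num
  have h3 := Complex.arg_eq_zero_iff.2 ⟨h1.le, h2⟩
  have n1 := al_ne_zero a hp.tim
  have n2 := al_ne_zero b hp.tim
  have n3 := al_ne_zero c hp.tim
  rw [e, Complex.arg_real_mul _ (by norm_num)] at h3
  rw [Real.Angle.coe_add, Real.Angle.coe_add, ← Complex.arg_mul_coe_angle n1 n2,
    ← Complex.arg_mul_coe_angle (mul_ne_zero n1 n2) n3, h3]

lemma sig (hp : Hyp p) (hf : a • p = p) (h1 : 0 < qa a p) (h2 : qa a p < Real.pi) (hb : 0 ≤ tr b)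
    (hc : 0 ≤ tr c) : (a * b * c = 1 → qa a p + qa b p + qa c p = 0) ∧
      (a * b * c = -1 → qa a p + qa b p + qa c p = 2 * Real.pi) := by
  have b1 := abs_le.1 (abs_qa_le hb p)
  have c1 := abs_le.1 (abs_qa_le hc p)
  have hπ := Real.pi_pos
  unfold qa at *
  constructor
  · intro H
    have := eq_of_angle_eq (arg_prod H hp hf) (abs_lt.2 ⟨by linarith, by linarith⟩)
    linarith
  · intro H
    have e := arg_prod (c := -c) (by rw [mul_neg, H, neg_neg]) hp hf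
    rw [al_neg, Real.Angle.coe_add, Complex.arg_neg_coe_angle (al_ne_zero c hp.tim), ← add_assoc,
      ← Real.Angle.coe_add] at e
    have e2 : ((Complex.arg (al a p) + Complex.arg (al b p) + Complex.arg (al c p) : ℝ) :
        Real.Angle) = (Real.pi : ℝ) := by
      rw [eq_neg_of_add_eq_zero_left e, Real.Angle.neg_coe_pi]
    have := eq_of_angle_eq e2 (abs_lt.2 ⟨by linarith, by linarith⟩)
    linarith

lemma tr_lt (hp : Hyp p) (hf : a • p = p) (h0 : 0 < tr a) (h1 : tr a < 2) (h2 : 0 < rot a p)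
    (h3 : tr b < 2) (h4 : 0 < rot b p) : tr (a * b) < 2 := by
  rw [tr_mul, ax_centre hp hf, B_smul_left, B_comm p]
  have : 0 < rot a p * B (ax b) p := mul_pos h2 h4
  nlinarith

lemma angle_le {S θ : ℝ} (hS : 0 < S) (h : (S : Real.Angle) = (θ : Real.Angle))
    (hθ : θ ≤ Real.pi) : θ ≤ S := by
  have := SNoId.angle (θ := θ - 2 * Real.pi) hS
    (by rw [h, Real.Angle.coe_sub, Real.Angle.coe_two_pi, sub_zero]) (by linarith [Real.pi_pos])
  linarith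

/-- the angle count -/
lemma core (H : a * b * c = 1 ∨ a * b * c = -1) (hp : Hyp p) (hf : a • p = p) (h0 : 0 < tr a)
    (h1 : tr a < 2) (h2 : 0 < rot a p) (hb : 0 ≤ tr b) (hc : 0 ≤ tr c) {u v : V} (hu : FixP b u)
    (hv : FixP c v) (hE : tr b < 2 ∨ tr c < 2) :
    -qa b p - qa c p + qa b u + qa c v < Real.pi ∧ ∀ r s t : ℝ, 0 < r →
      (r : Real.Angle) = (qa a p : ℝ) → (tr b < 2 → 0 < s ∧ (s : Real.Angle) = (qa b u : ℝ)) →
      (tr c < 2 → 0 < t ∧ (t : Real.Angle) = (qa c v : ℝ)) →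
      -qa b p - qa c p + qa b u + qa c v <
        r + (if tr b < 2 then s else 0) + (if tr c < 2 then t else 0) := by
  have a1 := (qa_pos_iff h0.le p).2 h2
  have a2 := (abs_lt.1 (abs_qa_lt h0 hp.tim)).2
  obtain ⟨s1, s2⟩ := sig hp hf a1 a2 hb hc
  have b1 := abs_le.1 (abs_qa_le hb p)
  have c1 := abs_le.1 (abs_qa_le hc p)
  have b2 := abs_le.1 (abs_qa_le hb u)
  have c2 := abs_le.1 (abs_qa_le hc v)
  have b3 := hu.psi hb hp
  have c3 := hv.psi hc hp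
  have hπ := Real.pi_pos
  have key : qa a p + qa b p + qa c p = 2 * Real.pi ∨
      (qa a p + qa b p + qa c p = 0 ∧ ((tr b < 2 ∧ qa b u < 0) ∨ (tr c < 2 ∧ qa c v < 0))) := by
    rcases H with H | H
    · have e := s1 H
      have x1 : tr b < 2 → 0 < qa b p → tr c < 2 := fun g1 g2 => by
        rw [← tr_inv, ← eq_inv_of_mul_eq_one_left H]
        exact tr_lt hp hf h0 h1 h2 g1 ((qa_pos_iff hb p).1 g2)
      have x2 : tr c < 2 → 0 < qa c p → tr b < 2 := fun g1 g2 => by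
        have : c * a * b = 1 := by
          rw [mul_assoc, mul_eq_one_comm, H]
        rw [← tr_inv, ← eq_inv_of_mul_eq_one_left this, tr_mul_comm]
        exact tr_lt hp hf h0 h1 h2 g1 ((qa_pos_iff hc p).1 g2)
      refine .inr ⟨e, ?_⟩
      rcases b3 with ⟨g1, g2⟩ | ⟨g1, ⟨g2, g3⟩ | ⟨g2, g3⟩⟩
      · rcases c3 with ⟨k1, k2⟩ | ⟨k1, ⟨k2, k3⟩ | ⟨k2, k3⟩⟩
        · rcases hE with k | k <;> linarith
        · linarith [x2 k1 (by linarith)]
        · exact .inr ⟨k1, k3⟩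
      · rcases c3 with ⟨k1, k2⟩ | ⟨k1, ⟨k2, k3⟩ | ⟨k2, k3⟩⟩
        · linarith [x1 g1 (by linarith)]
        · linarith
        · exact .inr ⟨k1, k3⟩
      · exact .inl ⟨g1, g3⟩
    · exact .inl (s2 H)
  constructor
  · rcases key with e | ⟨e, ⟨-, g⟩ | ⟨-, g⟩⟩
    · linarith
    · rcases c3 with ⟨-, k⟩ | ⟨-, ⟨-, k⟩ | ⟨-, k⟩⟩ <;> linarith
    · rcases b3 with ⟨-, k⟩ | ⟨-, ⟨-, k⟩ | ⟨-, k⟩⟩ <;> linarith
  · intro r s t r1 r2 hs ht
    have r3 := angle_le r1 r2 a2.le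
    have s3 : qa b u ≤ if tr b < 2 then s else 0 := by
      split_ifs with g
      · exact angle_le (hs g).1 (hs g).2 b2.2
      · exact (b3.resolve_right fun k => g k.1).2.le
    have t3 : qa c v ≤ if tr c < 2 then t else 0 := by
      split_ifs with g
      · exact angle_le (ht g).1 (ht g).2 c2.2
      · exact (c3.resolve_right fun k => g k.1).2.le
    rcases key with e | ⟨e, ⟨g, g'⟩ | ⟨g, g'⟩⟩
    · linarith
    · rw [if_pos g]
      linarith [SNoId.angle (hs g).1 (hs g).2 g'.le]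
    · rw [if_pos g] at t3 ⊢
      linarith [SNoId.angle (ht g).1 (ht g).2 g'.le]

lemma ann_case (hL : M.IsLab L) {e : D} (h2 : tr (lf ρ L e) < 2)
    (ha : M.Ann (M.op (M.nx (M.nx e))) (M.op (M.nx e))) :
    2 ≤ tr (lf ρ L (M.nx e)) ∧ 2 ≤ tr (lf ρ L (M.nx (M.nx e))) := by
  obtain ⟨e1, e2, e3⟩ := ann_lab hL ha
  generalize M.op (M.nx (M.nx e)) = v at e1 e2 e3
  have e4 : tr (lf ρ L e) = |tr (lf ρ L v * (lf ρ L (M.nx v))⁻¹ * (lf ρ L v)⁻¹ *
      (lf ρ L (M.nx v))⁻¹⁻¹)| := tr_cl (by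
    simp only [QuotientGroup.mk_mul, QuotientGroup.mk_inv, lf_mk, e3, map_mul, map_inv, inv_inv])
  have e5 : 2 ≤ tr (lf ρ L v) := by
    by_contra hc
    have := Th_nonneg_ell (a := lf ρ L v)
      ((abs_of_nonneg (cl_tr _)).trans_lt (not_le.1 hc)) (lf ρ L (M.nx v))⁻¹
    rw [e4] at h2
    rw [Th] at this
    linarith [(abs_lt.1 h2).2]
  constructor
  · have := tr_cl_conj (ρ (L v)) (ρ (L (M.nx v)))⁻¹
    rw [lf, e2, map_mul, map_mul, map_inv]
    rw [inv_inv] at this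
    rwa [this]
  · rw [lf, e1, map_inv, tr_cl_inv]
    exact e5

lemma noAnn_case (h : Adm ρ M L) {e : D} {τ : ℝ} (hE : Ell τ (lf ρ L e)) (hP : M.Pants e)
    (hn : M.NoAnn (M.triK e) (M.tri e))
    (hc : tr (lf ρ L (M.nx e)) < 2 ∨ tr (lf ρ L (M.nx (M.nx e))) < 2) : False := by
  have hL := h.mark.lab
  obtain ⟨t0, t2, rfl, hr⟩ := hE
  obtain ⟨p, hp, hf, -⟩ := exists_centre (g := lf ρ L e) (by rwa [abs_of_pos t0])
  have r0 : 0 < rot (lf ρ L e) p :=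
    rot_pos_all (by rw [abs_of_pos t0]; exact t2.le) hyp_oV.tim hr hp.tim
  have n1 : M.op e ≠ M.op (M.nx e) := DartMap.op_inj.not.2 (M.nx_ne e).symm
  have n2 : M.op e ≠ M.op (M.nx (M.nx e)) := DartMap.op_inj.not.2 (M.nx2_ne e).symm
  have n3 : M.op (M.nx e) ≠ M.op (M.nx (M.nx e)) := DartMap.op_inj.not.2 (M.nx2_ne_nx e).symm
  have hK := h.mark.tr.triK_sdiff e
  have l0 : ∀ d, 0 ≤ tr (lf ρ L d) := fun d => cl_tr _
  have l1 := lf_op (ρ := ρ) hL t0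
  obtain ⟨u, hu⟩ := exists_fixP (l0 (M.op (M.nx e)))
  obtain ⟨v, hv⟩ := exists_fixP (l0 (M.op (M.nx (M.nx e))))
  obtain ⟨y, y1, y2, y3, y4⟩ : ∃ y : D → V, y (M.op e) = p ∧ y (M.op (M.nx e)) = u ∧
      y (M.op (M.nx (M.nx e))) = v ∧ ∀ d, Cone (y d) := by
    refine ⟨fun d => if d = M.op (M.nx e) then u else if d = M.op (M.nx (M.nx e)) then v else p,
      by simp [n1, n2], by simp, by simp [n3.symm], fun d => ?_⟩
    dsimp only
    split_ifs
    exacts [hu.cone, hv.cone, hp.cone]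
  have hy : ∀ w ∈ M.triK e \ M.tri e, FixP (lf ρ L w) (y w) := by
    intro w hw
    rw [hK] at hw
    simp only [mem_insert, mem_singleton] at hw
    rcases hw with rfl | rfl | rfl
    · rw [y1, l1]
      exact FixP.inv (.inl ⟨t2, hp, hf⟩)
    · rwa [y2]
    · rwa [y3]
  have hfix : ∀ w ∈ M.triK e \ M.tri e, ∃ μ : ℝ, 0 < μ ∧ ρ (L w) • y w = μ • y w := fun w hw => by
    simpa only [lf_smul] using (hy w hw).fix
  have hb := bud_indep (ρ := ρ) hL hP (lifts_lf L _) (y := y) (y' := fun _ => p)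
    ⟨y4, fun w hw => (hy w hw).reg⟩ ⟨fun _ => hp.cone, fun _ _ => .inl hp.tim⟩
  rw [bud_const h _ hp.cone, SBud.sum_tri hL, faceAr_const, hf,
    Ar_self12 hp.cone (hp.cone.smul _), bud, hK, sum_insert (by simp [n1, n2]), sum_pair n3,
    sum_insert (by simp [n1, n2]), sum_pair n3, y1, y2, y3] at hb
  have H : lf ρ L e * (lf ρ L (M.op (M.nx e)))⁻¹ * (lf ρ L (M.op (M.nx (M.nx e))))⁻¹ = 1 ∨
      lf ρ L e * (lf ρ L (M.op (M.nx e)))⁻¹ * (lf ρ L (M.op (M.nx (M.nx e))))⁻¹ = -1 := by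
    rw [← mk_eq_one_iff]
    simp only [QuotientGroup.mk_mul, QuotientGroup.mk_inv, lf_mk, hL.1, map_inv, inv_inv,
      ← map_mul, hL.2, map_one]
  obtain ⟨k1, k2⟩ := core H hp hf t0 t2 r0 (by rw [tr_inv]; exact l0 _) (by rw [tr_inv]; exact l0 _)
    hu.inv hv.inv (by rwa [tr_inv, tr_inv, tr_lf_op hL, tr_lf_op hL])
  simp only [qa_inv (l0 _), tr_inv] at k1 k2
  have hg := fun d => good_pos (ρ := ρ) hL hP y4 hfix (d := d) (by
    rw [card_walls h.mark.tr]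
    push_cast
    linarith)
  obtain ⟨s1, s2⟩ := star_le hL hP hn y4 hfix hg
    (W := (M.triK e \ M.tri e).filter fun w => tr (lf ρ L w) < 2) (filter_subset _ _)
    fun w hw => (hy w (mem_filter.1 hw).1).hyp (mem_filter.1 hw).2
  have t3 : tr (lf ρ L (M.op e)) < 2 := by rwa [tr_lf_op hL]
  have s3 := s1 (M.op e) (mem_filter.2 ⟨by simp [hK], t3⟩)
  rw [y1, l1, qa_inv t0.le, neg_neg] at s3
  have := k2 _ _ _ s3.1 s3.2 (fun g => y2 ▸ s1 _ (mem_filter.2 ⟨by simp [hK], g⟩))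
    fun g => y3 ▸ s1 _ (mem_filter.2 ⟨by simp [hK], g⟩)
  rw [card_walls h.mark.tr, sum_filter, hK, sum_insert (by simp [n1, n2]), sum_pair n3,
    if_pos t3] at s2
  push_cast at s2
  linarith

end SEllP

theorem f1 (h : Adm ρ M L) {e : D} {τ : ℝ} (hE : Ell τ (lf ρ L e)) (hP : M.Pants e)
    (hn : M.NoAnn (M.triK e) (M.tri e) ∨ M.Ann (M.op (M.nx (M.nx e))) (M.op (M.nx e))) :
    2 ≤ tr (lf ρ L (M.nx e)) ∧ 2 ≤ tr (lf ρ L (M.nx (M.nx e))) := by
  rcases hn with hn | ha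
  · by_contra hc
    exact SEllP.noAnn_case h hE hP hn (by simpa only [not_and_or, not_le] using hc)
  · exact SEllP.ann_case h.mark.lab (hE.2.2.1 ▸ hE.2.1) ha

end A25f44
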