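import Pool.Agent.Lib.MP_a25f44_gt.SEllP
import Pool.Agent.Lib.MP_a25f44_gt.SMake
import Pool.Agent.Lib.MP_a25f44_gt.SNode
import Pool.Agent.Lib.MP_a25f44_gt.SHex

/-! The pants step of the elliptic descent. -/

open scoped MatrixGroups
open Pool.Agent.Lib.MP_a25f44_gt Finset

noncomputable section

namespace A25f44

variable {D Γ : Type} [Group Γ] [Fintype D] [DecidableEq D] {ρ : Γ →* PSL(2, ℝ)}
  {M : DartMap D} {L : D → Γ} {K F : Finset D}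

theorem ES.mono {τ κ s t : ℝ} (h : ES D ρ τ κ s) (hst : s ≤ t) : ES D ρ τ κ t := by
  obtain ⟨M, L, e, z, u, h1, h2, h3, h4, h5, h6⟩ := h
  exact ⟨M, L, e, z, u, h1, h2, h3, h4, h5, h6.trans hst⟩

theorem ES.nonneg {τ κ s : ℝ} (h : ES D ρ τ κ s) : 0 ≤ s := by
  obtain ⟨M, L, e, z, u, h1, -, -, -, -, h6⟩ := h
  exact (lpV_nonneg _ h1.hz).trans h6

lemma SEllQ.abs_lt {τ : ℝ} {A : SL(2, ℝ)} (hE : Ell τ A) : |tr A| < 2 := by
  rw [hE.2.2.1, abs_of_pos hE.1]; exact hE.2.1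

lemma SEllQ.rot_pos {τ : ℝ} {A : SL(2, ℝ)} (hE : Ell τ A) {v : V} (hv : Hyp v) : 0 < rot A v :=
  rot_pos_all (SEllQ.abs_lt hE).le hyp_oV.tim hE.2.2.2 hv.tim

theorem ell_bad (h : Adm ρ M L) {e : D} {τ : ℝ} (hE : Ell τ (lf ρ L e)) (hP : M.Pants e)
    (h2 : 2 ≤ tr (lf ρ L (M.nx e))) (h3 : 2 ≤ tr (lf ρ L (M.nx (M.nx e)))) : Bad ρ M L e := by
  have hL := h.mark.lab
  refine ⟨hP, (lf_mul3 hL e).resolve_right fun hn => ?_⟩
  obtain ⟨p, hp, hf, -⟩ := exists_centre (SEllQ.abs_lt hE)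
  have h1 : 0 < tr (lf ρ L e) := hE.2.2.1 ▸ hE.1
  have h2' : 0 < tr (lf ρ L (M.nx e)) := by linarith
  have h3' : 0 < tr (lf ρ L (M.nx (M.nx e))) := by linarith
  have e1 := Ev_neg_one h1 h2' h3' hn hp.tim
  have e2 := bud_pants h h1 h2' h3' hp.cone
  have e3 : Ev (lf ρ L e) (lf ρ L (M.nx e)) (lf ρ L (M.nx (M.nx e))) p < 2 * Real.pi := by
    have a1 := (qa_pos_iff h1.le p).2 (SEllQ.rot_pos hE hp)
    have a2 := (abs_lt.1 (abs_qa_lt h2' hp.tim)).1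
    have a3 := (abs_lt.1 (abs_qa_lt h3' hp.tim)).1
    rw [Ev, hf, Ar_self12 hp.cone (hp.cone.smul _)]
    linarith
  have e4 : Ev (lf ρ L e) (lf ρ L (M.nx e)) (lf ρ L (M.nx (M.nx e))) p = -(2 * Real.pi) := by
    rcases abs_cases (Ev (lf ρ L e) (lf ρ L (M.nx e)) (lf ρ L (M.nx (M.nx e))) p) with a | a <;>
      linarith [a.1]
  have h4 : ∀ w, ∃ ξ, Cone ξ ∧ (w ∈ M.triK e \ M.tri e →
      (∃ μ : ℝ, 0 < μ ∧ ρ (L w) • ξ = μ • ξ) ∧ (Tim ξ ∨ 2 ≤ tr (lf ρ L w)) ∧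
        (if w = M.op e then -Real.pi else 0) ≤ qa (lf ρ L w) ξ) := fun w => by
    by_cases hw : w = M.op e
    · refine ⟨p, hp.cone, fun _ => ⟨⟨1, one_pos, ?_⟩, .inl hp.tim, ?_⟩⟩
      · rw [← lf_smul, hw, lf_op hL h1, one_smul, inv_smul_eq_iff, hf]
      · rw [if_pos hw]
        exact (abs_le.1 (abs_qa_le (cl_tr _) p)).1
    by_cases hw' : 2 ≤ tr (lf ρ L w)
    · obtain ⟨ξ, a1, a2⟩ := exists_fix (hw'.trans (le_abs_self _))
      refine ⟨ξ, a1.1, fun _ => ⟨?_, .inr hw', ?_⟩⟩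
      · rw [← lf_smul]; exact a1.fix a2
      · rw [if_neg hw, qa_nonneg_iff, a2]
    · refine ⟨oV, hyp_oV.cone, fun hm => absurd ?_ hw'⟩
      rw [h.mark.tr.triK_sdiff] at hm
      simp only [mem_insert, mem_singleton] at hm
      rcases hm with hm | rfl | rfl
      exacts [absurd hm hw, by rwa [tr_lf_op hL], by rwa [tr_lf_op hL]]
  choose z z1 z2 using h4
  rw [bud_indep hL hP (lifts_lf (ρ := ρ) L _) ⟨fun _ => hp.cone, fun _ _ => .inl hp.tim⟩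
    ⟨z1, fun w hw => (z2 w hw).2.1⟩, bud, sum_def_fix hL hP z1 fun w hw => (z2 w hw).1,
    card_walls h.mark.tr, e4] at e2
  have a1 := sum_le_sum fun w (hw : w ∈ M.triK e \ M.tri e) => (z2 w hw).2.2
  have a2 : 0 ≤ ∑ d ∈ (M.tri e)ᶜ.filter (fun d => d ∉ M.triK e ∧ M.nx d ∉ M.triK e ∧
      M.nx (M.nx d) ∉ M.triK e), (Real.pi - faceAr M L ρ (fun d => z (M.vtx (M.triK e) d)) d) :=
    sum_nonneg fun d _ => def_nonneg (fun _ => z1 _) d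
  have a3 := Real.pi_pos
  rw [sum_ite_eq'] at a1
  push_cast at e2
  split_ifs at a1 <;> linarith

theorem SEllQ.main (hS : ¬Succ D ρ) (h : Adm ρ M L) {e : D} {τ : ℝ} (hE : Ell τ (lf ρ L e))
    (hB : Bad ρ M L e) (h2 : 2 ≤ tr (lf ρ L (M.nx e))) (h3 : 2 ≤ tr (lf ρ L (M.nx (M.nx e))))
    {κ ε : ℝ} (hκ : 0 < κ) (hε : 0 < ε) :
    ES D ρ τ κ (max (tl (lf ρ L (M.nx e))) (tl (lf ρ L (M.nx (M.nx e)))) + ε) := by
  have hL := h.mark.lab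
  have t0 := hE.1
  have t2 := hE.2.1
  have ht := hE.2.2.1
  have h1 : 0 < tr (lf ρ L e) := ht ▸ t0
  have h2' : 0 < tr (lf ρ L (M.nx e)) := by linarith
  have h3' : 0 < tr (lf ρ L (M.nx (M.nx e))) := by linarith
  have m1 := hB.2
  have m3 := hB.nx.nx.2
  simp only [M.nx3] at m3
  have hT := Th_pos_ell (SEllQ.abs_lt hE) (h2.trans (le_abs_self _)) (lf_ne_one h (M.nx e)).1
    (lf_ne_one h (M.nx e)).2
  by_cases c1 : 2 * tr (lf ρ L (M.nx e)) ≤ τ * tr (lf ρ L (M.nx (M.nx e)))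
  · obtain ⟨x, sa, sb, hx, a1, a2, a3, a4, a5, a6, -, a7, -⟩ := hex m1 (by nlinarith) h1 h2'
      (by rwa [ht]) (by rw [ht]; nlinarith) hT hε
    refine (makeE h hB hE h2 h3 hx (by rwa [faceDet_const]) ?_ a2 hκ).mono ?_
    · exact neg_of_mul_neg_right a3 (SEllQ.rot_pos hE hx).le
    · linarith [le_max_right (tl (lf ρ L (M.nx e))) (tl (lf ρ L (M.nx (M.nx e))))]
  by_cases c2 : 2 * tr (lf ρ L (M.nx (M.nx e))) ≤ τ * tr (lf ρ L (M.nx e))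
  · obtain ⟨x, sa, sb, hx, a1, a2, a3, a4, a5, a6, -, -, a7, -⟩ := hex m3 (by nlinarith) h3' h1
      (by rw [ht]; nlinarith) (by rwa [ht]) (by rw [Th_eq m3]; rw [Th_eq m1] at hT; linarith) hε
    refine (makeE h hB hE h2 h3 hx ?_ a2 ?_ hκ).mono ?_
    · rw [← faceDet_tri hL _ (show M.nx (M.nx e) ∈ M.tri e by simp [DartMap.tri]), faceDet_const,
        M.nx3]
      exact a1
    · exact neg_of_mul_neg_left a3 (SEllQ.rot_pos hE hx).le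
    · linarith [le_max_left (tl (lf ρ L (M.nx e))) (tl (lf ρ L (M.nx (M.nx e))))]
  exfalso
  obtain ⟨p, hp, hf, hax, -⟩ := exists_centre (SEllQ.abs_lt hE)
  have r0 := SEllQ.rot_pos hE hp
  have key : ∀ g : SL(2, ℝ), B (ax (lf ρ L e)) (ax g) = rot (lf ρ L e) p * rot g p := fun g => by
    rw [hax, B_smul_left, B_comm]; rfl
  have r2 : rot (lf ρ L (M.nx e)) p < 0 := by
    have := tr_mul (lf ρ L e) (lf ρ L (M.nx e))
    rw [eq_inv_of_mul_eq_one_left m1, tr_inv, key, ht] at this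
    exact neg_of_mul_neg_left (by linarith) r0.le
  have r3 : rot (lf ρ L (M.nx (M.nx e))) p < 0 := by
    have := tr_mul (lf ρ L (M.nx (M.nx e))) (lf ρ L e)
    rw [eq_inv_of_mul_eq_one_left m3, tr_inv, B_comm, key, ht] at this
    exact neg_of_mul_neg_left (by linarith) r0.le
  have hw : ∀ w ∈ M.triK e \ M.tri e, w = M.op e ∨
      (2 ≤ tr (lf ρ L w) ∧ 0 < rot (lf ρ L w) p) := fun w hm => by
    rw [h.mark.tr.triK_sdiff] at hm
    simp only [mem_insert, mem_singleton] at hm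
    rcases hm with hm | rfl | rfl
    · exact .inl hm
    · exact .inr ⟨by rwa [tr_lf_op hL], by rw [lf_op hL h2', rot_inv]; linarith⟩
    · exact .inr ⟨by rwa [tr_lf_op hL], by rw [lf_op hL h3', rot_inv]; linarith⟩
  refine hS (node h (ht ▸ t2) hp hf fun d d1 d2 => ?_)
  refine count hL hB.1 (y := fun _ => p) (fun _ => hp.cone) (M.op e) (fun w hm => ?_)
    (bud_bad h hB h1 h2' h3' ⟨fun _ => hp.cone, fun _ _ => .inl hp.tim⟩) d1 fun w hm hd => ?_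
  · rcases hw w hm with rfl | a
    · refine .inl ⟨rfl, ?_⟩
      rw [lf_op hL h1]
      exact ⟨by rwa [tr_inv], by rwa [tr_inv, ht], hp, by rw [inv_smul_eq_iff, hf],
        by rw [rot_inv]; linarith⟩
    · exact .inr ⟨a.1, .inl ⟨hp, a.2⟩⟩
  · rcases hw w hm with rfl | a
    exacts [absurd hd d2, a.2]

theorem pantsE (hS : ¬Succ D ρ) (h : Adm ρ M L) {e : D} {τ : ℝ} (hE : Ell τ (lf ρ L e))
    (hP : M.Pants e) :
    (2 ≤ tr (lf ρ L (M.nx e)) ∧ 2 ≤ tr (lf ρ L (M.nx (M.nx e))) ∧ ∀ κ ε : ℝ, 0 < κ → 0 < ε →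
      ES D ρ τ κ (max (tl (lf ρ L (M.nx e))) (tl (lf ρ L (M.nx (M.nx e)))) + ε)) ∨
    ∃ a, Itl M e a ∧ (tr (com ρ L e a) = tr (lf ρ L (M.nx e)) ∨
      tr (com ρ L e a) = tr (lf ρ L (M.nx (M.nx e)))) := by
  have hL := h.mark.lab
  by_cases hn : M.NoAnn (M.triK e) (M.tri e) ∨ M.Ann (M.op (M.nx (M.nx e))) (M.op (M.nx e))
  · obtain ⟨h2, h3⟩ := f1 h hE hP hn
    exact .inl ⟨h2, h3, fun κ ε hκ hε => SEllQ.main hS h hE (ell_bad h hE hP h2 h3) h2 h3 hκ hε⟩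
  obtain ⟨y, hy, ha⟩ := hP.noAnn_or.resolve_left fun a => hn (.inl a)
  rcases DartMap.mem_tri.1 hy with rfl | rfl | rfl
  · exact absurd (.inr ha) hn
  · rw [M.nx3] at ha
    obtain ⟨a, h1, h2⟩ := (itl_of_ann (ρ := ρ) hL hP).2 ha
    exact .inr ⟨a, h1, .inl h2⟩
  · simp only [M.nx3] at ha
    obtain ⟨a, h1, h2⟩ := (itl_of_ann (ρ := ρ) hL hP).1 ha.symm
    exact .inr ⟨a, h1, .inr h2⟩

end A25f44
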