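import Pool.Agent.Lib.MP_a25f44_gt.SLen

/-! Fixed points. -/

open scoped MatrixGroups
open Pool.Agent.Lib.MP_a25f44_gt Finset

noncomputable section

namespace A25f44

lemma exists_fix {A : SL(2, ℝ)} (h : 2 ≤ |tr A|) : ∃ ξ, Idl ξ ∧ rot A ξ = 0 := by
  rcases le_abs.1 h with h | h
  · obtain ⟨ξ, h1, h2, h3⟩ := exists_ideal_fixed h
    exact ⟨ξ, ⟨h1, h2⟩, rot_ideal_fixed h2 h3⟩
  · obtain ⟨ξ, h1, h2, h3⟩ := exists_ideal_fixed (g := -A) (by rwa [tr_neg])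
    rw [neg_smul_V] at h3
    exact ⟨ξ, ⟨h1, h2⟩, rot_ideal_fixed h2 h3⟩
lemma SGeo.par {ξ ζ : V} (h : Idl ξ) (h' : Cone ζ) (h0 : B ξ ζ = 0) :
    ∃ μ : ℝ, 0 < μ ∧ ζ = μ • ξ := by
  have hz : B ζ ζ = 0 := by
    by_contra hc
    have hT : Tim ζ := ⟨h'.1, lt_of_le_of_ne h'.2 (Ne.symm hc)⟩
    have := hT.B_pos h.1
    rw [B_comm] at this
    linarith
  obtain ⟨k1, k2, rfl⟩ := h.1.exists_real h.2
  obtain ⟨l1, l2, rfl⟩ := h'.exists_real hz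
  have hk : 0 < k1 ^ 2 + k2 ^ 2 := h.1.1
  have hl : 0 < l1 ^ 2 + l2 ^ 2 := h'.1
  have e : k1 * l2 - k2 * l1 = 0 := by
    simp only [B] at h0
    have : (k1 * l2 - k2 * l1) ^ 2 = 0 := by linear_combination 2 * h0
    exact pow_eq_zero_iff two_ne_zero |>.1 this
  refine ⟨(l1 ^ 2 + l2 ^ 2) / (k1 ^ 2 + k2 ^ 2), div_pos hl hk, ?_⟩
  refine Prod.ext ?_ (Prod.ext ?_ ?_) <;>
    simp only [Prod.smul_fst, Prod.smul_snd, smul_eq_mul] <;>
    rw [div_mul_eq_mul_div, eq_div_iff hk.ne']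
  · linear_combination -(k1 * l2 + k2 * l1) * e
  · linear_combination (k1 * l1 - k2 * l2) * e
  · linear_combination (k1 * l2 + k2 * l1) * e
lemma Idl.fix {A : SL(2, ℝ)} {ξ : V} (h : Idl ξ) (h0 : rot A ξ = 0) :
    ∃ μ : ℝ, 0 < μ ∧ A • ξ = μ • ξ :=
  SGeo.par h (h.1.smul A) (by rw [B_smul_self, h.2, h0]; ring)
lemma Idl.rot_eq_zero {A : SL(2, ℝ)} {ξ : V} (h : Idl ξ) {μ : ℝ} (h0 : A • ξ = μ • ξ) :
    rot A ξ = 0 := rot_ideal_fixed h.2 h0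
lemma Idl.psmul {ξ : V} (h : Idl ξ) (g : PSL(2, ℝ)) : Idl (g • ξ) :=
  ⟨h.1.psmul g, by rw [B_psmul]; exact h.2⟩
lemma Idl.par {ξ ζ : V} (h : Idl ξ) (h' : Cone ζ) (h0 : B ξ ζ = 0) :
    ∃ μ : ℝ, 0 < μ ∧ ζ = μ • ξ := SGeo.par h h' h0
lemma decomp_idl {ξ P : V} (h : Idl ξ) (hP : Tim P) :
    ∃ (a b : ℝ) (ζ : V), 0 < a ∧ 0 < b ∧ Idl ζ ∧ P = a • ξ + b • ζ := by
  have h1 := hP.B_pos h.1
  have h2 := hP.2
  obtain ⟨a, ha⟩ : ∃ a, a = B P P / (2 * B P ξ) := ⟨_, rfl⟩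
  have ha0 : 0 < a := by rw [ha]; positivity
  have ha1 : a * B P ξ = B P P / 2 := by rw [ha]; field_simp
  have e1 : B P (P - a • ξ) = B P P / 2 := by
    rw [B_sub_right, B_smul_right, ha1]; ring
  have e2 : B (P - a • ξ) (P - a • ξ) = 0 := by
    rw [B_sub_left, e1, B_smul_left, B_sub_right, B_smul_right, h.2, B_comm ξ P]
    linear_combination -ha1
  have hne : P - a • ξ ≠ 0 := by
    intro h0
    rw [h0, B_zero_right] at e1
    linarith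
  refine ⟨a, 1, P - a • ξ, ha0, one_pos, ⟨?_, e2⟩, by rw [one_smul]; abel⟩
  rcases cone_or_neg e2.ge hne with hc | hc
  · exact hc
  · have := hP.B_pos hc
    rw [B_neg_right, e1] at this
    linarith
lemma no_fix {A : SL(2, ℝ)} (h : 2 ≤ tr A) (h1 : A ≠ 1) {v : V} (hv : Hyp v) : A • v ≠ v := by
  intro hf
  obtain ⟨e1, e2⟩ := ax_of_fixed hv hf
  have e3 : rot A v ^ 2 = 0 := le_antisymm (by nlinarith) (sq_nonneg _)
  rw [pow_eq_zero_iff two_ne_zero |>.1 e3, zero_smul] at e1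
  rcases (ax_eq_zero_iff A).1 e1 with e | e
  · exact h1 e
  · rw [e, tr_neg, tr_one] at h; linarith
lemma ax_centre {A : SL(2, ℝ)} {p : V} (hp : Hyp p) (h : A • p = p) : ax A = rot A p • p :=
  (ax_of_fixed hp h).1
lemma rot_centre {A : SL(2, ℝ)} {p : V} (hp : Hyp p) (h : A • p = p) (v : V) :
    rot A v = rot A p * B p v := by
  rw [← B_smul_left, ← ax_centre hp h]; rfl
lemma rot_centre_sq {A : SL(2, ℝ)} {p : V} (hp : Hyp p) (h : A • p = p) :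
    rot A p ^ 2 + tr A ^ 2 / 4 = 1 := by
  rw [(ax_of_fixed hp h).2]; ring
lemma centre_unique {A : SL(2, ℝ)} (h : |tr A| < 2) {p q : V} (hp : Hyp p) (hq : Hyp q)
    (h1 : A • p = p) (h2 : A • q = q) : p = q := by
  have e1 := rot_centre_sq hp h1
  have e2 := rot_centre_sq hq h2
  rw [rot_centre hp h1 q] at e2
  have e3 : tr A ^ 2 < 4 := by have := abs_lt.1 h; nlinarith
  have e4 : rot A p ^ 2 * (B p q ^ 2 - 1) = 0 := by linear_combination e2 - e1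
  have e5 : B p q ^ 2 - 1 = 0 := (mul_eq_zero.1 e4).resolve_left (by linarith)
  have e6 := hp.one_le_B hq
  exact hp.eq_of_B_eq_one hq (by nlinarith)
/-- every element has a fixed point in the closed disc, finite unless `2 ≤ tr` -/
lemma exists_fix_any {A : SL(2, ℝ)} (h : 0 ≤ tr A) : ∃ (y : V) (μ : ℝ), Cone y ∧ 0 < μ ∧
    A • y = μ • y ∧ ((Hyp y ∧ μ = 1) ∨ (2 ≤ tr A ∧ B y y = 0)) := by
  rcases lt_or_ge (tr A) 2 with h2 | h2
  · obtain ⟨q, hq, hf, -⟩ := exists_centre (g := A) (by rwa [abs_of_nonneg h])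
    exact ⟨q, 1, hq.cone, one_pos, by rwa [one_smul], Or.inl ⟨hq, rfl⟩⟩
  · obtain ⟨ξ, h1, h3, h4⟩ := exists_ideal_fixed h2
    have := one_le_lam h2
    exact ⟨ξ, lam A ^ 2, h1, by positivity, h4, Or.inr ⟨h2, h3⟩⟩
lemma SGeo.cone_ax {A : SL(2, ℝ)} (h : |tr A| ≤ 2) (h0 : ax A ≠ 0) :
    Cone (ax A) ∨ Cone (-ax A) :=
  cone_or_neg (by rw [B_ax_ax]; have := abs_le.1 h; nlinarith) h0
lemma SGeo.cone_ax_of_pos {A : SL(2, ℝ)} (h : |tr A| ≤ 2) {u : V} (hu : Tim u)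
    (h0 : 0 < rot A u) : Cone (ax A) := by
  have hne : ax A ≠ 0 := by
    intro e
    rw [rot, e, B_zero_left] at h0
    exact lt_irrefl _ h0
  rcases SGeo.cone_ax h hne with hc | hc
  · exact hc
  · have := hu.B_pos hc
    rw [B_neg_right, B_comm] at this
    rw [rot] at h0
    linarith
/-- the sign of `rot` is constant for elliptic and parabolic elements -/
lemma rot_pos_all {A : SL(2, ℝ)} (h : |tr A| ≤ 2) {u : V} (hu : Tim u) (h0 : 0 < rot A u) {v : V}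
    (hv : Tim v) : 0 < rot A v := by
  rw [rot, B_comm]
  exact hv.B_pos (SGeo.cone_ax_of_pos h hu h0)
lemma rot_ne_zero {A : SL(2, ℝ)} (h : |tr A| ≤ 2) (h1 : A ≠ 1) (h2 : A ≠ -1) {v : V} (hv : Tim v) :
    rot A v ≠ 0 := by
  have hne : ax A ≠ 0 := fun e => ((ax_eq_zero_iff A).1 e).elim h1 h2
  rw [rot, B_comm]
  rcases SGeo.cone_ax h hne with hc | hc
  · exact (hv.B_pos hc).ne'
  · have := hv.B_pos hc
    rw [B_neg_right] at this
    linarith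
/-- a parabolic element: `ax` is a multiple of the fixed point -/
lemma rot_par {A : SL(2, ℝ)} (h : tr A = 2) (h0 : 0 < rot A oV) :
    Idl (ax A) ∧ A • ax A = ax A :=
  ⟨⟨SGeo.cone_ax_of_pos (by rw [h]; norm_num) hyp_oV.tim h0, by rw [B_ax_ax, h]; norm_num⟩,
    smul_ax A⟩
lemma exists_rot_small {A : SL(2, ℝ)} (h : 2 < tr A) {κ : ℝ} (hκ : 0 < κ) :
    ∃ v, Hyp v ∧ 0 < rot A v ∧ rot A v ≤ κ := by
  obtain ⟨q, hq, h0⟩ := exists_on_axis h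
  obtain ⟨m, hm⟩ : ∃ m, m = (tr A / 2) ^ 2 - 1 := ⟨_, rfl⟩
  have hm0 : 0 < m := by rw [hm]; nlinarith
  have hax : B (ax A) (ax A) = -m := by rw [B_ax_ax, hm]; ring
  have h0' : B (ax A) q = 0 := h0
  obtain ⟨t, ht⟩ : ∃ t, t = κ / m := ⟨_, rfl⟩
  have htm : t * m = κ := by rw [ht]; field_simp
  have hc0 : 0 < 1 + t ^ 2 * m := by positivity
  obtain ⟨c, hc⟩ : ∃ c, c = √(1 + t ^ 2 * m) := ⟨_, rfl⟩
  have hc1 : 0 < c := by rw [hc]; exact Real.sqrt_pos.2 hc0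
  have hc2 : c ^ 2 = 1 + t ^ 2 * m := by rw [hc]; exact Real.sq_sqrt hc0.le
  have e1 : B (c • q - t • ax A) (c • q - t • ax A) = 1 := by
    simp only [B_sub_left, B_sub_right, B_smul_left, B_smul_right, hq.2, hax, h0', B_comm q (ax A)]
    linear_combination hc2
  have e2 : B (c • q - t • ax A) q = c := by
    simp only [B_sub_left, B_smul_left, hq.2, h0']
    ring
  have e3 : rot A (c • q - t • ax A) = κ := by
    simp only [rot, B_sub_right, B_smul_right, hax, h0']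
    linear_combination htm
  refine ⟨c • q - t • ax A, ⟨?_, e1⟩, by rw [e3]; exact hκ, e3.le⟩
  rcases tim_or_neg (v := c • q - t • ax A) (by rw [e1]; exact one_pos) with hT | hT
  · exact hT.1
  · have := hT.B_pos hq.cone
    rw [B_neg_left, e2] at this
    linarith
lemma exists_rot_small_par {A : SL(2, ℝ)} (h : tr A = 2) {κ : ℝ} (hκ : 0 < κ) :
    ∃ v, Hyp v ∧ |rot A v| ≤ κ := by
  obtain ⟨g, h1, -, -⟩ := exists_upper h.ge
  obtain ⟨b, hb⟩ : ∃ b, b = (g * A * g⁻¹) 0 1 := ⟨_, rfl⟩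
  obtain ⟨y, hy⟩ : ∃ y, y = |b| / κ + 1 := ⟨_, rfl⟩
  have hy0 : 0 < y := by rw [hy]; positivity
  have hv : Hyp ((y, 0, y⁻¹) : V) := by
    refine ⟨by positivity, ?_⟩
    simp only [B]
    field_simp
    ring
  refine ⟨g⁻¹ • ((y, 0, y⁻¹) : V), hv.smul _, ?_⟩
  rw [← rot_conj g, smul_inv_smul]
  have e : rot (g * A * g⁻¹) ((y, 0, y⁻¹) : V) = b / (2 * y) := by
    simp only [rot, B, ax, h1, ← hb]
    field_simp
    ring
  rw [e, abs_div, abs_of_pos (by positivity : 0 < 2 * y), div_le_iff₀ (by positivity)]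
  have e2 : κ * y = |b| + κ := by rw [hy]; field_simp
  have := abs_nonneg b
  linarith
lemma near_centre {τ δ : ℝ} (h2 : |τ| < 2) (hδ : 0 < δ) : ∃ κ : ℝ, 0 < κ ∧
    ∀ (A : SL(2, ℝ)) (p u : V), tr A = τ → Hyp p → Hyp u → A • p = p → lpV A u ≤ κ →
      dV u p ≤ δ := by
  have hm : 0 < 1 - τ ^ 2 / 4 := by have := abs_lt.1 h2; nlinarith
  have hc : 1 < Real.cosh δ := Real.one_lt_cosh.2 hδ.ne'
  have hc2 : 0 < Real.cosh δ ^ 2 - 1 := by nlinarith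
  have hx : 1 < 1 + 2 * ((1 - τ ^ 2 / 4) * (Real.cosh δ ^ 2 - 1)) := by
    have := mul_pos hm hc2
    linarith
  refine ⟨Real.arcosh (1 + 2 * ((1 - τ ^ 2 / 4) * (Real.cosh δ ^ 2 - 1))), Real.arcosh_pos hx,
    fun A p u ht hp hu hf hl => ?_⟩
  have e1 := one_le_lp A hu
  rw [lpV_eq A hu, Real.arcosh_le_arcosh (by linarith) (by linarith)] at hl
  have e2 := rot_centre_sq hp hf
  rw [rot_centre hp hf u, mul_pow, show rot A p ^ 2 = 1 - τ ^ 2 / 4 by rw [← ht]; linarith,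
    ht] at hl
  have e3 : (1 - τ ^ 2 / 4) * B p u ^ 2 ≤ (1 - τ ^ 2 / 4) * Real.cosh δ ^ 2 := by linarith
  have e4 := le_of_mul_le_mul_left e3 hm
  rw [dV_le_iff hu hp hδ.le, B_comm]
  exact (abs_le_of_sq_le_sq' e4 (by linarith)).2
lemma det_centre {τ : ℝ} {A : SL(2, ℝ)} (hA : Ell τ A) {p x : V} (hp : Hyp p) (h : A • p = p)
    (hx : Hyp x) (hne : x ≠ p) : 0 < det3 x (A • x) p := by
  obtain ⟨h1, h2, h3, h4⟩ := hA
  have hr : 0 < rot A p :=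
    rot_pos_all (by rw [h3, abs_of_pos h1]; exact h2.le) hyp_oV.tim h4 hp.tim
  have hB : 1 < B x p := lt_of_le_of_ne (hx.one_le_B hp)
    (fun e => hne (hx.eq_of_B_eq_one hp e.symm))
  have e0 : det3 x (ax A) p = 0 := by rw [ax_centre hp h, det3_smul_2, det3_self23, mul_zero]
  rw [det3_smul_self, e0, rot_centre hp h x, hx.2, B_comm p x, h3]
  have : 0 < τ * rot A p * (B x p ^ 2 - 1) := mul_pos (mul_pos h1 hr) (by nlinarith)
  linarith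
lemma Ell.conj {τ : ℝ} {A : SL(2, ℝ)} (hA : Ell τ A) (h : SL(2, ℝ)) : Ell τ (h * A * h⁻¹) := by
  obtain ⟨h1, h2, h3, h4⟩ := hA
  refine ⟨h1, h2, by rw [tr_conj, h3], ?_⟩
  rw [← smul_inv_smul h oV, rot_conj]
  exact rot_pos_all (by rw [h3, abs_of_pos h1]; exact h2.le) hyp_oV.tim h4 (hyp_oV.tim.smul _)

end A25f44
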