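import Pool.Agent.Lib.MP_a25f44_gt.SLift

/-! Lengths. -/

open scoped MatrixGroups
open Pool.Agent.Lib.MP_a25f44_gt Finset

noncomputable section

namespace A25f44

/-- a point of a segment -/
lemma dV_comb {u v : V} (hu : Hyp u) (hv : Hyp v) {s t : ℝ} (hs : 0 ≤ s) (ht : 0 ≤ t)
    (h : Hyp (s • u + t • v)) :
    s + t ≤ 1 ∧ dV u (s • u + t • v) + dV (s • u + t • v) v = dV u v :=
  ⟨comb_sum_le hu hv hs ht h, dV_add_of_middle hu hv hs ht h⟩

lemma lpV_cl (g : PSL(2, ℝ)) (v : V) : lpV (cl g) v = dV v (g • v) := by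
  rw [lpV, cl_smul]
lemma tl_congr {A C : SL(2, ℝ)} (h : |tr A| = |tr C|) : tl A = tl C := by
  rw [tl, tl, ← sq_abs (tr A), h, sq_abs]
lemma tr_le_of_lpV {A : SL(2, ℝ)} {v : V} (hv : Hyp v) {b : ℝ} (h : lpV A v ≤ b) :
    |tr A| ≤ 2 * Real.cosh b := by
  have h0 := lpV_nonneg A hv
  have h1 := cosh_half_lpV_sq A hv
  have h2 : Real.cosh (lpV A v / 2) ≤ Real.cosh b :=
    Real.cosh_le_cosh.2 (by
      rw [abs_of_nonneg (by linarith), abs_of_nonneg (by linarith)]; linarith)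
  have h3 := Real.cosh_pos (lpV A v / 2)
  have h4 : |tr A| ≤ 2 * Real.cosh (lpV A v / 2) :=
    abs_le_of_sq_le_sq (by nlinarith [sq_nonneg (rot A v)]) (by linarith)
  linarith
lemma lpV_le_of_bounds (b : ℝ) : ∃ b' : ℝ, ∀ (A : SL(2, ℝ)) (v : V), Hyp v → |tr A| ≤ b →
    |rot A v| ≤ b → lpV A v ≤ b' := by
  refine ⟨Real.arcosh (b ^ 2 / 2 - 1 + 2 * b ^ 2), fun A v hv h1 h2 => ?_⟩
  rw [lpV_eq A hv]
  have e1 : tr A ^ 2 ≤ b ^ 2 := by
    rw [← sq_abs (tr A)]; exact pow_le_pow_left₀ (abs_nonneg _) h1 2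
  have e2 : rot A v ^ 2 ≤ b ^ 2 := by
    rw [← sq_abs (rot A v)]; exact pow_le_pow_left₀ (abs_nonneg _) h2 2
  exact arcosh_mono (one_le_lp A hv) (by linarith)
/-- small turning gives a loop close to the translation length -/
lemma lpV_near_tl {A : SL(2, ℝ)} (h : 2 ≤ |tr A|) {ε : ℝ} (hε : 0 < ε) :
    ∃ κ : ℝ, 0 < κ ∧ ∀ v, Hyp v → |rot A v| ≤ κ → lpV A v ≤ tl A + ε := by
  have h0 := tl_nonneg h
  have h1 : Real.cosh (tl A) < Real.cosh (tl A + ε) :=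
    Real.cosh_lt_cosh.2 (by
      rw [abs_of_nonneg h0, abs_of_nonneg (by linarith)]; linarith)
  have h2 : 0 < (Real.cosh (tl A + ε) - Real.cosh (tl A)) / 2 := by linarith
  refine ⟨√((Real.cosh (tl A + ε) - Real.cosh (tl A)) / 2), Real.sqrt_pos.2 h2,
    fun v hv hr => ?_⟩
  have e2 : rot A v ^ 2 ≤ (Real.cosh (tl A + ε) - Real.cosh (tl A)) / 2 := by
    rw [← sq_abs (rot A v), ← Real.sq_sqrt h2.le]
    exact pow_le_pow_left₀ (abs_nonneg _) hr 2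
  rw [lpV_eq A hv, arcosh_le_iff (one_le_lp A hv) (by linarith), ← cosh_tl h]
  linarith
lemma SLen.one_le (s t : ℝ) : 1 ≤ Real.cosh s * Real.cosh t :=
  one_le_mul_of_one_le_of_one_le (Real.one_le_cosh s) (Real.one_le_cosh t)
lemma hy_comm (s t : ℝ) : hy s t = hy t s := by rw [hy, hy, mul_comm]
lemma le_hy {s t : ℝ} (ht : 0 ≤ t) : t ≤ hy s t := by
  rw [hy, le_arcosh_iff (SLen.one_le s t) ht]
  exact le_mul_of_one_le_left (Real.cosh_pos t).le (Real.one_le_cosh s)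
lemma hy_le {s t : ℝ} (hs : 0 ≤ s) (ht : 0 ≤ t) : hy s t ≤ s + t := by
  rw [hy, arcosh_le_iff (SLen.one_le s t) (by linarith), Real.cosh_add]
  have := mul_nonneg (Real.sinh_nonneg_iff.2 hs) (Real.sinh_nonneg_iff.2 ht)
  linarith
lemma hy_lt {s t : ℝ} (hs : 0 < s) (ht : 0 < t) : hy s t < s + t := by
  rw [hy, arcosh_lt_iff (SLen.one_le s t) (by linarith), Real.cosh_add]
  have := mul_pos (Real.sinh_pos_iff.2 hs) (Real.sinh_pos_iff.2 ht)
  linarith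
lemma G3_rot (s t u : ℝ) : G3 t u s = G3 s t u := by
  rw [G3, G3, hy_comm u s, hy_comm t s, max_comm (s + hy t u), max_assoc]
lemma G3_swap (s t u : ℝ) : G3 t s u = G3 s t u := by
  rw [G3, G3, hy_comm t s, max_left_comm]

end A25f44
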