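import Pool.Agent.Lib.MP_a25f44_gt.H33Dist

/-! Lifts with nonnegative trace. -/

open scoped MatrixGroups
open Pool.Agent.Lib.MP_a25f44_gt Finset

noncomputable section

namespace A25f44

lemma cl_mk (g : PSL(2, ℝ)) : (cl g : PSL(2, ℝ)) = g := by
  unfold cl
  split_ifs
  · exact Quotient.out_eq g
  · rw [mk_neg]; exact Quotient.out_eq g
lemma cl_tr (g : PSL(2, ℝ)) : 0 ≤ tr (cl g) := by
  unfold cl
  split_ifs with h
  · exact h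
  · rw [tr_neg]; linarith
lemma cl_smul (g : PSL(2, ℝ)) (v : V) : cl g • v = g • v := by
  rw [← mk_smul, cl_mk]
lemma cl_eq {A : SL(2, ℝ)} {g : PSL(2, ℝ)} (h : 0 < tr A) (e : (A : PSL(2, ℝ)) = g) :
    cl g = A :=
  (lift_unique (e.trans (cl_mk g).symm) h (cl_tr g)).symm
lemma cl_cases {A : SL(2, ℝ)} {g : PSL(2, ℝ)} (e : (A : PSL(2, ℝ)) = g) :
    cl g = A ∨ cl g = -A :=
  (mk_eq_iff _ _).1 ((cl_mk g).trans e.symm)
lemma tr_cl {A : SL(2, ℝ)} {g : PSL(2, ℝ)} (e : (A : PSL(2, ℝ)) = g) : tr (cl g) = |tr A| := by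
  have h0 := cl_tr g
  rcases cl_cases e with h | h
  · rw [h] at h0 ⊢
    rw [abs_of_nonneg h0]
  · rw [h, tr_neg] at h0 ⊢
    rw [abs_of_nonpos (by linarith)]
lemma cl_inv {g : PSL(2, ℝ)} (h : 0 < tr (cl g)) : cl g⁻¹ = (cl g)⁻¹ :=
  cl_eq (by rwa [tr_inv]) (by rw [QuotientGroup.mk_inv, cl_mk])
lemma tr_cl_inv (g : PSL(2, ℝ)) : tr (cl g⁻¹) = tr (cl g) := by
  rw [tr_cl (A := (cl g)⁻¹) (by rw [QuotientGroup.mk_inv, cl_mk]), tr_inv,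
    abs_of_nonneg (cl_tr g)]
lemma tr_cl_conj (g h : PSL(2, ℝ)) : tr (cl (h * g * h⁻¹)) = tr (cl g) := by
  rw [tr_cl (A := cl h * cl g * (cl h)⁻¹) (by
    rw [QuotientGroup.mk_mul, QuotientGroup.mk_mul, QuotientGroup.mk_inv, cl_mk, cl_mk]),
    tr_conj, abs_of_nonneg (cl_tr g)]
lemma cl_conj {g : PSL(2, ℝ)} (hg : 0 < tr (cl g)) (h : SL(2, ℝ)) :
    cl ((h : PSL(2, ℝ)) * g * (h : PSL(2, ℝ))⁻¹) = h * cl g * h⁻¹ :=
  cl_eq (by rwa [tr_conj]) (by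
    rw [QuotientGroup.mk_mul, QuotientGroup.mk_mul, QuotientGroup.mk_inv, cl_mk])
lemma cl_eq_one {g : PSL(2, ℝ)} : cl g = 1 ↔ g = 1 := by
  constructor
  · intro h
    rw [← cl_mk g, h]; rfl
  · rintro rfl
    exact cl_eq (by rw [tr_one]; norm_num) rfl
lemma cl_mul3 {g h k : PSL(2, ℝ)} (e : g * h * k = 1) :
    cl g * cl h * cl k = 1 ∨ cl g * cl h * cl k = -1 := by
  rw [← mk_eq_one_iff, QuotientGroup.mk_mul, QuotientGroup.mk_mul, cl_mk, cl_mk, cl_mk, e]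

end A25f44
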