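import Pool.Agent.Lib.MP_a25f44_gt.SAlg

/-! The point lemmas, triangle and reducible types. -/

open scoped MatrixGroups
open Pool.Agent.Lib.MP_a25f44_gt Finset

noncomputable section

namespace A25f44

open Filter Topology

namespace STrg

/-- `c` is diagonal with entries `m < 1 < l` -/
structure NF (c : SL(2, ℝ)) (l m : ℝ) : Prop where
  l1 : 1 < l
  lm : l * m = 1
  c00 : c 0 0 = m
  c01 : c 0 1 = 0
  c10 : c 1 0 = 0
  c11 : c 1 1 = l

variable {a b c : SL(2, ℝ)} {l m : ℝ}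

lemma exists_NF (hc : 2 < tr c) : ∃ g l m, NF (g * c * g⁻¹) l m := by
  rw [← tr_inv] at hc
  obtain ⟨g, h1, h2, h3, h4⟩ := exists_diag hc
  have e : g * c * g⁻¹ = (g * c⁻¹ * g⁻¹)⁻¹ := by group
  have := one_lt_lam hc
  exact ⟨g, _, _, this, mul_inv_cancel₀ (by linarith), by rw [e, inv00, h4],
    by rw [e, inv01, h2, neg_zero], by rw [e, inv10, h3, neg_zero], by rw [e, inv11, h1]⟩

lemma NF.m0 (N : NF c l m) : 0 < m := by nlinarith [N.l1, N.lm]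
lemma NF.ml (N : NF c l m) : m < l := by nlinarith [N.l1, N.lm, N.m0]

lemma ab_eq (h : a * b * c = 1) : a * b = c⁻¹ := eq_inv_of_mul_eq_one_left h
lemma b_eq (h : a * b * c = 1) : b = a⁻¹ * c⁻¹ := by rw [← ab_eq h]; group

lemma NF.trc (N : NF c l m) : tr c = l + m := by rw [tr, N.c00, N.c11, add_comm]

lemma NF.rotc (N : NF c l m) (x : V) : rot c x = -((l - m) / 2 * x.2.1) := by
  simp only [rot, B, ax, N.c00, N.c01, N.c10, N.c11]; ring

lemma rota (a : SL(2, ℝ)) (y y' : ℝ) : rot a (y, 0, y') = (a 0 1 * y' - a 1 0 * y) / 2 := by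
  simp only [rot, B, ax]; ring

lemma NF.rotb (N : NF c l m) (h : a * b * c = 1) (y y' : ℝ) :
    rot b (y, 0, y') = (l * a 1 0 * y - m * a 0 1 * y') / 2 := by
  rw [rota, b_eq h]
  simp only [mul01, mul10, inv00, inv01, inv10, inv11, N.c00, N.c01, N.c10, N.c11]; ring

lemma NF.trb (N : NF c l m) (h : a * b * c = 1) : tr b = a 1 1 * l + a 0 0 * m := by
  rw [b_eq h]
  simp only [tr, mul00, mul11, inv00, inv01, inv10, inv11, N.c00, N.c01, N.c10, N.c11]; ring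

lemma NF.det (N : NF c l m) (h : a * b * c = 1) (y y' : ℝ) :
    det3 (y, 0, y') (a • ((y, 0, y') : V)) ((a * b) • ((y, 0, y') : V))
      = y * y' * (a 0 0 * a 1 0 * y + a 0 1 * a 1 1 * y') * ((l - m) * (l + m)) / 2 := by
  rw [ab_eq h]
  simp only [det3, smul_1, smul_21, smul_22, inv00, inv01, inv10, inv11, N.c00, N.c01, N.c10, N.c11]
  ring

lemma NF.th (N : NF c l m) (h : a * b * c = 1) : Th a b = -((l - m) ^ 2 * (a 0 1 * a 1 0)) := by
  rw [Th_eq h, N.trb h, N.trc, tr]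
  linear_combination (-(l - m) ^ 2) * det_eq a + (-(a 0 0 + a 1 1) ^ 2 + 4) * N.lm

lemma NF.sw01 (N : NF c l m) (h : a * b * c = 1) : (a * b * a⁻¹) 0 1 = -(l * a 0 1) := by
  rw [ab_eq h]
  simp only [mul01, inv00, inv01, inv11, N.c01, N.c11]; ring

lemma NF.sw10 (N : NF c l m) (h : a * b * c = 1) : (a * b * a⁻¹) 1 0 = -(m * a 1 0) := by
  rw [ab_eq h]
  simp only [mul10, inv00, inv10, inv11, N.c10, N.c00]; ring

lemma NF.sw00 (N : NF c l m) (h : a * b * c = 1) : (a * b * a⁻¹) 0 0 = l * a 1 1 := by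
  rw [ab_eq h]
  simp only [mul00, inv00, inv01, inv10, N.c01, N.c11]; ring

lemma sw_one (h : a * b * c = 1) : a * b * a⁻¹ * a * c = 1 := by rwa [inv_mul_cancel_right]

lemma conj_one (g : SL(2, ℝ)) (h : a * b * c = 1) :
    g * a * g⁻¹ * (g * b * g⁻¹) * (g * c * g⁻¹) = 1 := by
  rw [show g * a * g⁻¹ * (g * b * g⁻¹) * (g * c * g⁻¹) = g * (a * b * c) * g⁻¹ by group, h]; group

lemma Th_conj (g a b : SL(2, ℝ)) : Th (g * a * g⁻¹) (g * b * g⁻¹) = Th a b := by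
  rw [Th, Th, ← tr_conj g (a * b * a⁻¹ * b⁻¹)]; congr 2; group

lemma det_conj (g a b : SL(2, ℝ)) (x : V) : det3 (g • x) ((g * a * g⁻¹) • g • x)
    ((g * a * g⁻¹ * (g * b * g⁻¹)) • g • x) = det3 x (a • x) ((a * b) • x) := by
  simp only [mul_smul, inv_smul_smul, det3_smul]

lemma pull (g : SL(2, ℝ)) {x : V} (hx : Hyp x) : ∃ z, Hyp z ∧ x = g • z :=
  ⟨_, hx.smul g⁻¹, (smul_inv_smul _ _).symm⟩

/-- after a swap both off diagonal entries are nonnegative -/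
lemma side (h : a * b * c = 1) (hc : 2 < tr c) (hT : Th a b ≤ 0) : ∃ a' b' : SL(2, ℝ),
    (a' = a ∧ b' = b ∨ a' = a * b * a⁻¹ ∧ b' = a) ∧ a' * b' * c = 1 ∧ Th a' b' = Th a b ∧
    ∃ g l m, NF (g * c * g⁻¹) l m ∧ 0 ≤ (g * a' * g⁻¹) 0 1 ∧ 0 ≤ (g * a' * g⁻¹) 1 0 := by
  obtain ⟨g, l, m, N⟩ := exists_NF hc
  have h1 := conj_one g h
  rw [← Th_conj g, N.th h1, neg_nonpos] at hT
  rcases mul_nonneg_iff.1 ((mul_nonneg_iff_of_pos_left
    (pow_pos (sub_pos.2 N.ml) 2)).1 hT) with h2 | h2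
  · exact ⟨a, b, .inl ⟨rfl, rfl⟩, h, rfl, g, l, m, N, h2⟩
  refine ⟨_, a, .inr ⟨rfl, rfl⟩, sw_one h, by rw [Th_eq h, Th_eq (sw_one h), tr_conj]; ring,
    g, l, m, N, ?_⟩
  rw [show g * (a * b * a⁻¹) * g⁻¹ = g * a * g⁻¹ * (g * b * g⁻¹) * (g * a * g⁻¹)⁻¹ by group,
    N.sw01 h1, N.sw10 h1]
  exact ⟨by nlinarith [N.l1, h2.1], by nlinarith [N.m0, h2.2]⟩

lemma hyp_ax {y : ℝ} (hy : 0 < y) : Hyp (y, 0, y⁻¹) :=
  ⟨by positivity, by simp only [B]; field_simp; ring⟩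

/-- leave the axis -/
lemma off {y : ℝ} (hy : 0 < y) {P : V → Prop} (h : ∀ᶠ x in 𝓝 ((y, 0, y⁻¹) : V), P x) :
    ∃ x, Hyp x ∧ 0 < x.2.1 ∧ P x := by
  have c : Tendsto (fun t : ℝ => ((y * (1 + t ^ 2), t, y⁻¹) : V)) (𝓝 0) (𝓝 (y, 0, y⁻¹)) :=
    Continuous.tendsto' (by fun_prop) _ _ (by simp)
  obtain ⟨t, h1, h2⟩ := (show ∀ᶠ t in 𝓝[>] (0 : ℝ), P (y * (1 + t ^ 2), t, y⁻¹) ∧ 0 < t from
    (eventually_nhdsWithin_of_eventually_nhds (c.eventually h)).and self_mem_nhdsWithin).exists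
  exact ⟨_, ⟨by positivity, by simp only [B]; field_simp; ring⟩, h2, h1⟩

/-- move up along the axis -/
lemma along {y : ℝ} (hy : 0 < y) {P : V → Prop} (h : ∀ᶠ x in 𝓝 ((y, 0, y⁻¹) : V), P x) :
    ∃ z, y < z ∧ ∀ᶠ x in 𝓝 ((z, 0, z⁻¹) : V), P x := by
  have c : ContinuousAt (fun t : ℝ => ((t, 0, t⁻¹) : V)) y := by
    have := hy.ne'
    fun_prop (disch := assumption)
  obtain ⟨t, h1, h2⟩ := (show ∀ᶠ t in 𝓝[>] y, (∀ᶠ x in 𝓝 ((t, 0, t⁻¹) : V), P x) ∧ y < t from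
    (eventually_nhdsWithin_of_eventually_nhds (c.eventually h.eventually_nhds)).and
      self_mem_nhdsWithin).exists
  exact ⟨t, h2, h1⟩

@[fun_prop] lemma continuous_rot (a : SL(2, ℝ)) : Continuous (rot a) := by unfold rot; fun_prop

lemma ev_lt {f g : V → ℝ} {x : V} (hf : Continuous f) (hg : Continuous g) (h : f x < g x) :
    ∀ᶠ z in 𝓝 x, f z < g z := hf.continuousAt.eventually_lt hg.continuousAt h

lemma trg0 (N : NF c l m) (h : a * b * c = 1) (ha : 2 ≤ tr a) (hbc : tr b ≤ tr c)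
    (hT : Th a b < 0) (q0 : 0 ≤ a 0 1) (r0 : 0 ≤ a 1 0) {ε : ℝ} (hε : 0 < ε) : ∃ x : V, Hyp x ∧
      0 < det3 x (a • x) ((a * b) • x) ∧ rot c x < 0 ∧ rot a x < 0 ∧ 0 < rot b x ∧
      lpV b x ≤ hy (tl a) (tl c) + ε ∧ |rot a x| ≤ ε ∧
      rot b x ^ 2 ≤ tr c ^ 2 * |Th a b| / (tr c ^ 2 - 4) + ε ∧ |rot c x| ≤ ε := by
  have l1 := N.l1
  have lm := N.lm
  have m0 := N.m0
  have ml := sub_pos.2 N.ml
  have hd := det_eq a
  have qr : 0 < a 0 1 * a 1 0 := by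
    rw [N.th h, neg_lt_zero] at hT
    exact (mul_pos_iff_of_pos_left (by positivity)).1 hT
  have q1 : 0 < a 0 1 := q0.lt_of_ne fun e => by simp [← e] at qr
  have r1 : 0 < a 1 0 := r0.lt_of_ne fun e => by simp [← e] at qr
  have hc : 2 ≤ tr c := by rw [N.trc]; nlinarith [sq_nonneg (l - 1)]
  have ps : a 1 1 ≤ a 0 0 := by
    have : tr b * 2 ≤ tr c * tr a := by nlinarith
    rw [N.trb h, N.trc, tr] at this
    nlinarith
  have s0 : 0 < a 1 1 := by rw [tr] at ha; nlinarith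
  have p0 : 0 < a 0 0 := s0.trans_le ps
  obtain ⟨y, y0, hy⟩ : ∃ y : ℝ, 0 < y ∧ a 0 1 * y⁻¹ = a 1 0 * y := by
    refine ⟨√(a 0 1 / a 1 0), by positivity, ?_⟩
    rw [mul_inv_eq_iff_eq_mul₀ (by positivity), mul_assoc, Real.mul_self_sqrt (by positivity)]
    field_simp
  have e1 : rot b (y, 0, y⁻¹) = (l - m) * (a 1 0 * y) / 2 := by
    rw [N.rotb h]; linear_combination (-m / 2) * hy
  have e2 : rot b (y, 0, y⁻¹) ^ 2 = (l - m) ^ 2 * (a 0 1 * a 1 0) / 4 := by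
    rw [e1]
    linear_combination (-(l - m) ^ 2 * a 1 0 * y / 4) * hy
      + ((l - m) ^ 2 * a 1 0 * a 0 1 / 4) * mul_inv_cancel₀ y0.ne'
  have e3 : 1 ≤ Real.cosh (tl a) * Real.cosh (tl c) :=
    one_le_mul_of_one_le_of_one_le (Real.one_le_cosh _) (Real.one_le_cosh _)
  have e4 : 0 ≤ A25f44.hy (tl a) (tl c) := Real.arcosh_nonneg e3
  obtain ⟨z, yz, H⟩ := along y0 (P := fun x => 0 < det3 x (a • x) ((a * b) • x) ∧ 0 < rot b x ∧
      tr b ^ 2 / 2 - 1 + 2 * rot b x ^ 2 < Real.cosh (A25f44.hy (tl a) (tl c) + ε) ∧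
      |rot a x| < ε ∧ rot b x ^ 2 < tr c ^ 2 * |Th a b| / (tr c ^ 2 - 4) + ε ∧ |rot c x| < ε) (by
    refine (ev_lt (by fun_prop) (by fun_prop) ?_).and ((ev_lt (by fun_prop) (by fun_prop) ?_).and
      ((ev_lt (by fun_prop) (by fun_prop) ?_).and ((ev_lt (by fun_prop) (by fun_prop) ?_).and
      ((ev_lt (by fun_prop) (by fun_prop) ?_).and (ev_lt (by fun_prop) (by fun_prop) ?_)))))
    · rw [N.det h]; positivity
    · rw [e1]; positivity
    · refine lt_of_le_of_lt (b := Real.cosh (A25f44.hy (tl a) (tl c))) ?_ (Real.cosh_lt_cosh.2 (by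
        rw [abs_of_nonneg e4, abs_of_nonneg (by linarith)]; linarith))
      rw [A25f44.hy, Real.cosh_arcosh e3, cosh_tl (ha.trans (le_abs_self _)),
        cosh_tl (hc.trans (le_abs_self _)), e2, N.trb h, N.trc, tr]
      refine le_of_sub_nonneg (le_of_le_of_eq (show 0 ≤ (l - m) * (l + m) * ((a 0 0 - a 1 1)
        * (a 0 0 + a 1 1)) / 4 by have := sub_nonneg.2 ps; positivity) ?_)
      linear_combination (-(l - m) ^ 2 / 2) * hd + (-(a 0 0 + a 1 1) ^ 2 / 2 + 2) * lm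
    · rw [rota, hy]; simpa
    · have e5 : tr c ^ 2 - 4 = (l - m) ^ 2 := by rw [N.trc]; linear_combination 4 * lm
      rw [e2, N.th h, abs_neg, abs_of_pos (by positivity), e5, mul_div_assoc (tr c ^ 2),
        mul_div_cancel_left₀ _ (by positivity)]
      nlinarith [sq_nonneg (l - m)]
    · rw [N.rotc]; simpa)
  obtain ⟨x, hx, x0, ⟨h1, h2, h3, h4, h5, h6⟩, h7⟩ := off (y0.trans yz) (H.and
    (ev_lt (continuous_rot a) continuous_const (show _ < (0 : ℝ) by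
      rw [rota]
      nlinarith [mul_lt_mul_of_pos_left yz r1,
        mul_le_mul_of_nonneg_left (inv_anti₀ y0 yz.le) q0])))
  refine ⟨x, hx, h1, by rw [N.rotc, neg_lt_zero]; positivity, h7, h2, ?_, h4.le, h5.le, h6.le⟩
  rw [lpV_eq b hx, arcosh_le_iff (one_le_lp b hx) (by linarith)]
  exact h3.le

lemma red0 (N : NF c l m) (h : a * b * c = 1) (ha : 2 ≤ tr a) (hac : tr a ≤ tr c)
    (hbc : tr b ≤ tr c) (hT : Th a b = 0) (ha1 : a ≠ 1) (hb1 : b ≠ 1) (q0 : 0 ≤ a 0 1)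
    (r0 : 0 ≤ a 1 0) {ε : ℝ} (hε : 0 < ε) : ∃ x : V, Hyp x ∧
      0 < det3 x (a • x) ((a * b) • x) ∧ |rot a x| ≤ ε ∧ |rot b x| ≤ ε ∧ |rot c x| ≤ ε := by
  have l1 := N.l1
  have lm := N.lm
  have m0 := N.m0
  have ml := sub_pos.2 N.ml
  have m1 : m < 1 := by nlinarith
  have hd := det_eq a
  have qr : a 0 1 * a 1 0 = 0 := by
    rw [N.th h, neg_eq_zero] at hT
    exact (mul_eq_zero.1 hT).resolve_left (by positivity)
  rw [qr, sub_zero] at hd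
  rw [tr] at ha hac
  have s0 : 0 < a 1 1 := by nlinarith
  have p0 : 0 < a 0 0 := by nlinarith
  rcases q0.lt_or_eq with q1 | q1
  · have r1 := (mul_eq_zero.1 qr).resolve_left q1.ne'
    have e : a 0 1 * (a 0 1 / ε)⁻¹ = ε := by field_simp
    refine ⟨_, hyp_ax (div_pos q1 hε), by rw [N.det h, r1]; positivity, ?_, ?_, ?_⟩
    · rw [rota, r1, e, abs_le]; constructor <;> linarith
    · rw [N.rotb h, r1, mul_assoc m, e, abs_le]; constructor <;> nlinarith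
    · rw [N.rotc]; simpa using hε.le
  rcases r0.lt_or_eq with r1 | r1
  · have e : a 1 0 * (m * ε / a 1 0) = m * ε := by field_simp
    refine ⟨_, hyp_ax (div_pos (mul_pos m0 hε) r1), by rw [N.det h, ← q1]; positivity, ?_, ?_, ?_⟩
    · rw [rota, ← q1, e, abs_le]; constructor <;> nlinarith
    · rw [N.rotb h, ← q1, mul_assoc l, e, ← mul_assoc l, lm, abs_le]; constructor <;> linarith
    · rw [N.rotc]; simpa using hε.le
  rw [N.trb h] at hbc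
  rw [N.trc] at hac hbc
  have p1 : 1 < a 0 0 := by
    refine lt_of_le_of_ne ?_ fun e => ha1 (SL_ext e.symm q1.symm r1.symm ?_)
    · by_contra! e
      nlinarith [mul_pos (sub_pos.2 e) s0, mul_pos (sub_pos.2 e) m0]
    · rw [← e, one_mul] at hd
      exact hd
  have p2 : a 0 0 < l := by
    refine lt_of_le_of_ne ?_ fun e => hb1 ?_
    · by_contra! e
      nlinarith [mul_pos (sub_pos.2 e) s0, mul_pos (sub_pos.2 e) m0]
    · have : a * c = 1 := by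
        refine SL_ext ?_ ?_ ?_ ?_ <;>
          simp only [mul00, mul01, mul10, mul11, N.c00, N.c01, N.c10, N.c11, ← q1, ← r1, one00,
            one01, one10, one11]
        · rw [e]; linarith
        · ring
        · ring
        · rw [← e]; linarith
      rw [b_eq h, eq_inv_of_mul_eq_one_left this]; group
  obtain ⟨x, hx, x0, h1, h2, h3⟩ := off one_pos
    (P := fun x => |rot a x| < ε ∧ |rot b x| < ε ∧ |rot c x| < ε) (by
      refine (ev_lt (by fun_prop) (by fun_prop) ?_).and ((ev_lt (by fun_prop) (by fun_prop) ?_).and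
        (ev_lt (by fun_prop) (by fun_prop) ?_))
      · rw [rota, ← q1, ← r1]; simpa
      · rw [N.rotb h, ← q1, ← r1]; simpa
      · rw [N.rotc]; simpa)
  refine ⟨x, hx, ?_, h1.le, h2.le, h3.le⟩
  have x1 := hx.tim.fst_pos
  have x3 := hx.tim.trd_pos
  refine lt_of_lt_of_eq (show 0 < x.1 * x.2.1 * x.2.2 * ((l ^ 2 - a 0 0 ^ 2) * (l ^ 2 - 1)
    * (a 0 0 ^ 2 - 1) * (m * a 1 1) ^ 2) / 2 by
      have : 0 < l ^ 2 - a 0 0 ^ 2 := by nlinarith
      have : 0 < l ^ 2 - 1 := by nlinarith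
      have : 0 < a 0 0 ^ 2 - 1 := by nlinarith
      positivity) ?_
  rw [ab_eq h]
  simp only [det3, smul_1, smul_21, smul_22, inv00, inv01, inv10, inv11, N.c00, N.c01, N.c10, N.c11,
    ← q1, ← r1]
  obtain rfl : m = l⁻¹ := eq_inv_of_mul_eq_one_right lm
  rw [eq_inv_of_mul_eq_one_right hd]
  field_simp
  ring

lemma aff0 (N : NF c l m) (h : a * b * c = 1) (ha : tr a = 2) (h0 : 0 < rot a oV)
    (hbc : tr b = tr c) {ε : ℝ} (hε : 0 < ε) : ∃ x : V, Hyp x ∧ rot c x < 0 ∧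
      |rot a x| ≤ ε ∧ (0 < det3 x (a • x) ((a * b) • x) ∧ rot b x < 0 ∨
        0 < det3 x ((a * b * a⁻¹) • x) ((a * b * a⁻¹ * a) • x) ∧ rot (a * b * a⁻¹) x < 0) := by
  have l1 := N.l1
  have m0 := N.m0
  have ml := sub_pos.2 N.ml
  have hd := det_eq a
  rw [N.trb h, N.trc] at hbc
  rw [tr] at ha
  rw [oV, rota] at h0
  have s1 : a 1 1 = 1 := mul_left_cancel₀ ml.ne' (by linear_combination hbc - m * ha)
  have p1 : a 0 0 = 1 := by linarith
  have qr : a 0 1 * a 1 0 = 0 := by rw [s1, p1] at hd; linarith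
  have fin : ∀ x : V, 0 < x.2.1 → rot c x < 0 := fun x hx => by rw [N.rotc, neg_lt_zero]; positivity
  rcases mul_eq_zero.1 qr with q1 | r1
  · have r1 : 0 < -a 1 0 := by linarith
    have e : a 1 0 * (ε / -a 1 0) = -ε := by have := neg_ne_zero.1 r1.ne'; field_simp
    obtain ⟨x, hx, x0, h1, h2, h3⟩ := off (div_pos hε r1) (P := fun x => |rot a x| < ε ∧
        0 < det3 x ((a * b * a⁻¹) • x) ((a * b * a⁻¹ * a) • x) ∧ rot (a * b * a⁻¹) x < 0) (by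
      refine (ev_lt (by fun_prop) (by fun_prop) ?_).and ((ev_lt (by fun_prop) (by fun_prop) ?_).and
        (ev_lt (by fun_prop) (by fun_prop) ?_))
      · rw [rota, q1, e, abs_lt]; constructor <;> linarith
      · rw [N.det (sw_one h), N.sw00 h, N.sw01 h, N.sw10 h, q1, s1, ← mul_neg m]
        generalize -a 1 0 = r at r1
        simp only [mul_zero, neg_zero, zero_mul, add_zero]
        positivity
      · rw [rota, N.sw01 h, N.sw10 h, q1, neg_mul (m * _), mul_assoc m, e]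
        nlinarith)
    exact ⟨x, hx, fin x x0, h1.le, .inr ⟨h2, h3⟩⟩
  · have q1 : 0 < a 0 1 := by linarith
    have e : a 0 1 * (a 0 1 / ε)⁻¹ = ε := by field_simp
    obtain ⟨x, hx, x0, h1, h2, h3⟩ := off (div_pos q1 hε) (P := fun x => |rot a x| < ε ∧
        0 < det3 x (a • x) ((a * b) • x) ∧ rot b x < 0) (by
      refine (ev_lt (by fun_prop) (by fun_prop) ?_).and ((ev_lt (by fun_prop) (by fun_prop) ?_).and
        (ev_lt (by fun_prop) (by fun_prop) ?_))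
      · rw [rota, r1, e, abs_lt]; constructor <;> linarith
      · rw [N.det h, r1, s1]; positivity
      · rw [N.rotb h, r1, mul_assoc m, e]
        nlinarith)
    exact ⟨x, hx, fin x x0, h1.le, .inl ⟨h2, h3⟩⟩

end STrg

open STrg

/-- triangle type: a point next to the crossing of two axes -/
theorem trg {a b c : SL(2, ℝ)} (h : a * b * c = 1) (ha : 2 ≤ tr a) (hb : 2 ≤ tr b)
    (hac : tr a ≤ tr c) (hbc : tr b ≤ tr c) (hT : Th a b < 0) {ε : ℝ} (hε : 0 < ε) :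
    ∃ a' b' : SL(2, ℝ), (a' = a ∧ b' = b ∨ a' = a * b * a⁻¹ ∧ b' = a) ∧ ∃ x : V, Hyp x ∧
      0 < det3 x (a' • x) ((a' * b') • x) ∧ rot c x < 0 ∧ rot a' x < 0 ∧ 0 < rot b' x ∧
      lpV b' x ≤ hy (tl a') (tl c) + ε ∧ |rot a' x| ≤ ε ∧
      rot b' x ^ 2 ≤ tr c ^ 2 * |Th a b| / (tr c ^ 2 - 4) + ε ∧ |rot c x| ≤ ε := by
  have hc : 2 < tr c := lt_of_le_of_ne (ha.trans hac) fun e => by
    rw [Th_eq h, ← e, le_antisymm (hac.trans e.ge) ha, le_antisymm (hbc.trans e.ge) hb] at hT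
    norm_num at hT
  obtain ⟨a', b', H, h', e, g, l, m, N, q0, r0⟩ := side h hc hT.le
  have t : 2 ≤ tr a' ∧ tr b' ≤ tr c := by
    rcases H with ⟨rfl, rfl⟩ | ⟨rfl, rfl⟩
    exacts [⟨ha, hbc⟩, ⟨by rwa [tr_conj], hac⟩]
  obtain ⟨x, hx, K⟩ := trg0 N (conj_one g h') (by rw [tr_conj]; exact t.1)
    (by rw [tr_conj, tr_conj]; exact t.2) (by rwa [Th_conj, e]) q0 r0 hε
  obtain ⟨z, hz, rfl⟩ := pull g hx
  simp only [det_conj, rot_conj, lpV_conj, tl_conj, tr_conj, Th_conj, e] at K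
  exact ⟨a', b', H, z, hz, K⟩

/-- reducible type -/
theorem red {a b c : SL(2, ℝ)} (h : a * b * c = 1) (ha : 2 ≤ tr a) (hb : 2 ≤ tr b)
    (hac : tr a ≤ tr c) (hbc : tr b ≤ tr c) (hc : 2 < tr c) (hT : Th a b = 0) (ha1 : a ≠ 1)
    (hb1 : b ≠ 1) {ε : ℝ} (hε : 0 < ε) :
    ∃ a' b' : SL(2, ℝ), (a' = a ∧ b' = b ∨ a' = a * b * a⁻¹ ∧ b' = a) ∧ ∃ x : V, Hyp x ∧
      0 < det3 x (a' • x) ((a' * b') • x) ∧ |rot a' x| ≤ ε ∧ |rot b' x| ≤ ε ∧
      |rot c x| ≤ ε := by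
  obtain ⟨a', b', H, h', e, g, l, m, N, q0, r0⟩ := side h hc hT.le
  have ne : ∀ g x : SL(2, ℝ), x ≠ 1 → g * x * g⁻¹ ≠ 1 := fun g x hx e => hx (by simpa using e)
  have t : 2 ≤ tr a' ∧ tr a' ≤ tr c ∧ tr b' ≤ tr c ∧ a' ≠ 1 ∧ b' ≠ 1 := by
    rcases H with ⟨rfl, rfl⟩ | ⟨rfl, rfl⟩
    exacts [⟨ha, hac, hbc, ha1, hb1⟩, ⟨by rwa [tr_conj], by rwa [tr_conj], hac, ne _ _ hb1, ha1⟩]
  obtain ⟨x, hx, K⟩ := red0 N (conj_one g h') (by rw [tr_conj]; exact t.1)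
    (by rw [tr_conj, tr_conj]; exact t.2.1) (by rw [tr_conj, tr_conj]; exact t.2.2.1)
    (by rwa [Th_conj, e]) (ne _ _ t.2.2.2.1) (ne _ _ t.2.2.2.2) q0 r0 hε
  obtain ⟨z, hz, rfl⟩ := pull g hx
  simp only [det_conj, rot_conj] at K
  exact ⟨a', b', H, z, hz, K⟩

/-- affine handle: `a` parabolic, `b` and `c` hyperbolic of the same trace -/
theorem aff {a b c : SL(2, ℝ)} (h : a * b * c = 1) (ha : tr a = 2) (h0 : 0 < rot a oV)
    (hbc : tr b = tr c) (hc : 2 < tr c) {ε : ℝ} (hε : 0 < ε) : ∃ x : V, Hyp x ∧ rot c x < 0 ∧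
      |rot a x| ≤ ε ∧ (0 < det3 x (a • x) ((a * b) • x) ∧ rot b x < 0 ∨
        0 < det3 x ((a * b * a⁻¹) • x) ((a * b * a⁻¹ * a) • x) ∧ rot (a * b * a⁻¹) x < 0) := by
  obtain ⟨g, l, m, N⟩ := exists_NF hc
  obtain ⟨x, hx, K⟩ := aff0 N (conj_one g h) (by rwa [tr_conj])
    (rot_pos_all (by rw [tr_conj, ha, abs_two]) (hyp_oV.smul g).tim (by rwa [rot_conj]) hyp_oV.tim)
    (by rwa [tr_conj, tr_conj]) hε
  obtain ⟨z, hz, rfl⟩ := pull g hx
  rw [show g * a * g⁻¹ * (g * b * g⁻¹) * (g * a * g⁻¹)⁻¹ = g * (a * b * a⁻¹) * g⁻¹ by group] at K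
  simp only [det_conj, rot_conj] at K
  exact ⟨z, hz, K⟩

end A25f44
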