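import Pool.Agent.Lib.MP_a25f44_gt.SPlace
import Pool.Agent.Lib.MP_a25f44_gt.SHex
import Pool.Agent.Lib.MP_a25f44_gt.STrg

/-! The pants step of the non elliptic descent. -/

open scoped MatrixGroups
open Pool.Agent.Lib.MP_a25f44_gt Finset

noncomputable section

namespace A25f44

variable {D Γ : Type} [Group Γ] [Fintype D] [DecidableEq D] {ρ : Γ →* PSL(2, ℝ)}
  {M : DartMap D} {L : D → Γ} {K F : Finset D}

omit [Fintype D] in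
lemma SNE.wall {x w : D} (hw : w ∈ M.triK x \ M.tri x) : ∃ d ∈ M.tri x, w = M.op d :=
  ⟨M.op w, (DartMap.mem_triK.1 (mem_sdiff.1 hw).1).resolve_left (mem_sdiff.1 hw).2,
    (M.op2 w).symm⟩

omit [Fintype D] in
lemma SNE.all_tri {x : D} {P : D → Prop} :
    (∀ d ∈ M.tri x, P d) ↔ P x ∧ P (M.nx x) ∧ P (M.nx (M.nx x)) := by
  simp [DartMap.tri]

lemma SNE.mul3 {x : D} (hB : Bad ρ M L x) :
    lf ρ L (M.nx x) * lf ρ L (M.nx (M.nx x)) * lf ρ L x = 1 := by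
  have := hB.nx.2
  rwa [M.nx3] at this

lemma SNE.bud {x : D} (h : Adm ρ M L) (hB : Bad ρ M L x)
    (h2 : ∀ d ∈ M.tri x, 2 ≤ tr (lf ρ L d)) {o : V} (ho : Hyp o) :
    bud ρ M L (M.triK x) (M.tri x) (lf ρ L) (fun _ => o) =
      3 * Real.pi * (M.triK x \ M.tri x).card := by
  obtain ⟨a, b, c⟩ := SNE.all_tri.1 h2
  exact bud_bad h hB (by linarith) (by linarith) (by linarith)
    ⟨fun _ => ho.cone, fun _ _ => .inl ho.tim⟩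

lemma SNE.tr_wall {x : D} (h : Adm ρ M L) (h2 : ∀ d ∈ M.tri x, 2 ≤ tr (lf ρ L d)) :
    ∀ w ∈ M.triK x \ M.tri x, 2 ≤ tr (lf ρ L w) := fun w hw => by
  obtain ⟨d, hd, rfl⟩ := SNE.wall hw
  rw [tr_lf_op h.mark.lab]
  exact h2 d hd

/-- not all three cuffs are parabolic -/
theorem not_all_par (h : Adm ρ M L) {x : D} (hB : Bad ρ M L x)
    (hn : M.NoAnn (M.triK x) (M.tri x)) (h1 : tr (lf ρ L x) = 2) (h2 : tr (lf ρ L (M.nx x)) = 2)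
    (h3 : tr (lf ρ L (M.nx (M.nx x))) = 2) : False := by
  have e : ∀ d ∈ M.tri x, tr (lf ρ L d) = 2 := SNE.all_tri.2 ⟨h1, h2, h3⟩
  have e' : ∀ d ∈ M.tri x, 2 ≤ tr (lf ρ L d) := fun d hd => (e d hd).ge
  have key : ∀ d ∈ M.tri x, 0 < rot (lf ρ L d) oV := fun d hd => by
    have w := hB.1.walls hd
    have := np h hB.1 hn (SNE.tr_wall h e') (fun _ => hyp_oV.cone) (SNE.bud h hB e' hyp_oV)
      (mem_sdiff.2 ⟨w.1, w.2.1⟩) (by rw [tr_lf_op h.mark.lab]; exact e d hd)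
    rw [lf_op h.mark.lab (by rw [e d hd]; norm_num), rot_inv] at this
    linarith
  obtain ⟨a, b, c⟩ := SNE.all_tri.1 key
  rcases all_par hB.2 h1 h2 h3 (lf_ne_one h x).1 with k | k | k <;> linarith

/-- rotation of the face so that the first dart has the largest trace -/
lemma SNE.exists_max {x : D} (hB : Bad ρ M L x) : ∃ y, Bad ρ M L y ∧ M.tri y = M.tri x ∧
    M.triK y = M.triK x ∧ tr (lf ρ L (M.nx y)) ≤ tr (lf ρ L y) ∧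
    tr (lf ρ L (M.nx (M.nx y))) ≤ tr (lf ρ L y) ∧
    Th (lf ρ L (M.nx y)) (lf ρ L (M.nx (M.nx y))) = Th (lf ρ L (M.nx x)) (lf ρ L (M.nx (M.nx x))) ∧
    G3 (tl (lf ρ L y)) (tl (lf ρ L (M.nx y))) (tl (lf ρ L (M.nx (M.nx y)))) =
      G3 (tl (lf ρ L x)) (tl (lf ρ L (M.nx x))) (tl (lf ρ L (M.nx (M.nx x)))) := by
  have step : ∀ {y : D}, Bad ρ M L y →
      Th (lf ρ L (M.nx (M.nx y))) (lf ρ L (M.nx (M.nx (M.nx y)))) =
        Th (lf ρ L (M.nx y)) (lf ρ L (M.nx (M.nx y))) ∧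
      G3 (tl (lf ρ L (M.nx y))) (tl (lf ρ L (M.nx (M.nx y)))) (tl (lf ρ L (M.nx (M.nx (M.nx y))))) =
        G3 (tl (lf ρ L y)) (tl (lf ρ L (M.nx y))) (tl (lf ρ L (M.nx (M.nx y)))) := fun hy => by
    refine ⟨?_, by rw [M.nx3, G3_rot]⟩
    rw [Th_eq (SNE.mul3 hy.nx), Th_eq (SNE.mul3 hy), M.nx3]
    ring
  by_cases c1 : tr (lf ρ L (M.nx x)) ≤ tr (lf ρ L x) ∧
      tr (lf ρ L (M.nx (M.nx x))) ≤ tr (lf ρ L x)
  · exact ⟨x, hB, rfl, rfl, c1.1, c1.2, rfl, rfl⟩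
  rw [not_and_or, not_le, not_le] at c1
  rcases le_total (tr (lf ρ L (M.nx (M.nx x)))) (tr (lf ρ L (M.nx x))) with c2 | c2
  · refine ⟨M.nx x, hB.nx, M.tri_nx x, M.triK_nx x, c2, ?_, (step hB).1, (step hB).2⟩
    rw [M.nx3]
    rcases c1 with c1 | c1 <;> linarith
  · refine ⟨M.nx (M.nx x), hB.nx.nx, (M.tri_nx _).trans (M.tri_nx x),
      (M.triK_nx _).trans (M.triK_nx x), ?_, ?_, (step hB.nx).1.trans (step hB).1,
      (step hB.nx).2.trans (step hB).2⟩ <;> simp only [M.nx3]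
    · rcases c1 with c1 | c1 <;> linarith
    · exact c2

lemma SNE.two_lt (h : Adm ρ M L) {x : D} (hB : Bad ρ M L x)
    (hn : M.NoAnn (M.triK x) (M.tri x)) (h2 : ∀ d ∈ M.tri x, 2 ≤ tr (lf ρ L d))
    (m1 : tr (lf ρ L (M.nx x)) ≤ tr (lf ρ L x))
    (m2 : tr (lf ρ L (M.nx (M.nx x))) ≤ tr (lf ρ L x)) : 2 < tr (lf ρ L x) := by
  obtain ⟨a, b, c⟩ := SNE.all_tri.1 h2
  by_contra hc
  exact not_all_par h hB hn (by linarith) (by linarith) (by linarith)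

/-- the state for the pair `(a', b')` -/
lemma SNE.swap (h : Adm ρ M L) {x : D} (hB : Bad ρ M L x)
    (hn : M.NoAnn (M.triK x) (M.tri x)) (hb : 0 < tr (lf ρ L (M.nx (M.nx x)))) {a' b' : SL(2, ℝ)}
    (e : a' = lf ρ L (M.nx x) ∧ b' = lf ρ L (M.nx (M.nx x)) ∨
      a' = lf ρ L (M.nx x) * lf ρ L (M.nx (M.nx x)) * (lf ρ L (M.nx x))⁻¹ ∧
        b' = lf ρ L (M.nx x)) :
    ∃ (M' : DartMap D) (L' : D → Γ), Adm ρ M' L' ∧ Bad ρ M' L' x ∧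
      M'.NoAnn (M'.triK x) (M'.tri x) ∧ lf ρ L' x = lf ρ L x ∧ lf ρ L' (M'.nx x) = a' ∧
      lf ρ L' (M'.nx (M'.nx x)) = b' := by
  rcases e with ⟨rfl, rfl⟩ | ⟨rfl, rfl⟩
  · exact ⟨M, L, h, hB, hn, rfl, rfl, rfl⟩
  · obtain ⟨M', L', a1, a2, a3, a4, a5, a6, -⟩ := backflip_bad h hB hb
    exact ⟨M', L', a1, a2, a6 hn, a3, a4, a5⟩

lemma SNE.face (h : Adm ρ M L) {x : D} {o : V}
    (hd : 0 < det3 o (lf ρ L (M.nx x) • o) ((lf ρ L (M.nx x) * lf ρ L (M.nx (M.nx x))) • o)) :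
    ∀ d ∈ M.tri x, 0 < faceDet M L ρ (fun _ => o) d := fun d hd' => by
  rw [faceDet_tri h.mark.lab _ (x := M.nx x) (by rwa [M.tri_nx]), faceDet_const]
  exact hd

/-- a positive pants face with small turning gives success -/
lemma SNE.succ (Bd : ℝ) : ∃ κ : ℝ, 0 < κ ∧ κ ≤ 1 ∧ ∀ (M : DartMap D) (L : D → Γ) (x : D) (o : V),
    Adm ρ M L → Bad ρ M L x → M.NoAnn (M.triK x) (M.tri x) → Hyp o →
    (∀ d ∈ M.tri x, (2 ≤ tr (lf ρ L d) ∧ tr (lf ρ L d) ≤ Bd) ∧ |rot (lf ρ L d) o| ≤ κ) →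
    0 < det3 o (lf ρ L (M.nx x) • o) ((lf ρ L (M.nx x) * lf ρ L (M.nx (M.nx x))) • o) →
    Succ D ρ := by
  obtain ⟨b', hb'⟩ := lpV_le_of_bounds (max Bd 1)
  obtain ⟨κ, k0, hκ⟩ := place_succ (D := D) (ρ := ρ) b'
  refine ⟨min κ 1, lt_min k0 one_pos, min_le_right _ _, fun M L x o h hB hn ho H hd => ?_⟩
  have h2 : ∀ d ∈ M.tri x, 2 ≤ tr (lf ρ L d) := fun d hd => (H d hd).1.1
  refine hκ M L _ _ o h hB.1 hn (SNE.tr_wall h h2) ho (SNE.bud h hB h2 ho) (fun w hw => ?_)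
    (SNE.face h hd)
  obtain ⟨d, hd, rfl⟩ := SNE.wall hw
  obtain ⟨⟨a1, a2⟩, a3⟩ := H d hd
  rw [lpV_lf_op h.mark.lab, lf_op h.mark.lab (by linarith), rot_inv]
  refine ⟨hb' _ _ ho ?_ (a3.trans ((min_le_right _ _).trans (le_max_right _ _))), ?_⟩
  · rw [abs_of_nonneg (by linarith)]
    exact a2.trans (le_max_left _ _)
  · linarith [le_abs_self (rot (lf ρ L d) o), min_le_left κ 1]

/-- a nearly reducible bad pair of pants gives success -/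
theorem lemmaS (hS : ¬Succ D ρ) (Bd : ℝ) : ∃ η : ℝ, 0 < η ∧ ∀ (M : DartMap D) (L : D → Γ) (x : D),
    Adm ρ M L → Bad ρ M L x → M.NoAnn (M.triK x) (M.tri x) →
    (∀ d ∈ M.tri x, 2 ≤ tr (lf ρ L d) ∧ tr (lf ρ L d) ≤ Bd) →
    η < |Th (lf ρ L (M.nx x)) (lf ρ L (M.nx (M.nx x)))| := by
  obtain ⟨κ, k0, k1, hκ⟩ := SNE.succ (D := D) (ρ := ρ) Bd
  have e0 : 0 < κ ^ 2 / 2 := by positivity
  have e1 : κ ^ 2 / 2 ≤ κ := by nlinarith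
  obtain ⟨η, η0, hη⟩ := small_m Bd e0
  refine ⟨η, η0, fun M L x₀ h hB₀ hn H => lt_of_not_ge fun hT => hS ?_⟩
  obtain ⟨x, hB, t1, t2, m1, m2, eT, -⟩ := SNE.exists_max hB₀
  rw [← t1, ← t2] at hn
  rw [← t1] at H
  rw [← eT] at hT
  have hc := SNE.two_lt h hB hn (fun d hd => (H d hd).1) m1 m2
  obtain ⟨Hc, Ha, Hb⟩ := SNE.all_tri.1 H
  have p := SNE.mul3 hB
  have hm := hη _ _ _ p Ha.1 Hb.1 m1 m2 hc Hc.2 hT
  have sq : ∀ r : ℝ, r ^ 2 ≤ tr (lf ρ L x) ^ 2 *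
      |Th (lf ρ L (M.nx x)) (lf ρ L (M.nx (M.nx x)))| / (tr (lf ρ L x) ^ 2 - 4) + κ ^ 2 / 2 →
      |r| ≤ κ := fun r hr => abs_le_of_sq_le_sq (by linarith) k0.le
  have fin : ∀ (a' b' : SL(2, ℝ)) (o : V),
      (a' = lf ρ L (M.nx x) ∧ b' = lf ρ L (M.nx (M.nx x)) ∨
        a' = lf ρ L (M.nx x) * lf ρ L (M.nx (M.nx x)) * (lf ρ L (M.nx x))⁻¹ ∧
          b' = lf ρ L (M.nx x)) → Hyp o → 0 < det3 o (a' • o) ((a' * b') • o) →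
      |rot a' o| ≤ κ → |rot b' o| ≤ κ → |rot (lf ρ L x) o| ≤ κ → Succ D ρ := by
    intro a' b' o e ho hd r1 r2 r3
    obtain ⟨M', L', a1, a2, a3, a4, a5, a6⟩ := SNE.swap h hB hn (by linarith [Hb.1]) e
    refine hκ M' L' x o a1 a2 a3 ho (SNE.all_tri.2 ?_) (by rwa [a5, a6])
    rw [a4, a5, a6]
    rcases e with ⟨rfl, rfl⟩ | ⟨rfl, rfl⟩
    · exact ⟨⟨Hc, r3⟩, ⟨Ha, r1⟩, Hb, r2⟩
    · exact ⟨⟨Hc, r3⟩, ⟨by rwa [tr_conj], r1⟩, Ha, r2⟩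
  rcases lt_trichotomy (Th (lf ρ L (M.nx x)) (lf ρ L (M.nx (M.nx x)))) 0 with s | s | s
  · obtain ⟨a', b', e, o, ho, hd, -, -, -, -, r1, r2, r3⟩ := trg p Ha.1 Hb.1 m1 m2 s e0
    exact fin a' b' o e ho hd (r1.trans e1) (sq _ r2) (r3.trans e1)
  · obtain ⟨a', b', e, o, ho, hd, r1, r2, r3⟩ :=
      red p Ha.1 Hb.1 m1 m2 hc s (lf_ne_one h _).1 (lf_ne_one h _).1 k0
    exact fin a' b' o e ho hd r1 r2 r3
  · obtain ⟨o, sa, sb, ho, hd, -, -, -, -, -, -, -, -, r1, r2, r3⟩ := hex p hc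
      (by linarith [Ha.1]) (by linarith [Hb.1]) (by nlinarith [Ha.1]) (by nlinarith [Hb.1]) s e0
    rw [← abs_of_pos s] at r1 r2
    exact fin _ _ o (.inl ⟨rfl, rfl⟩) ho hd (sq _ r1) (sq _ r2) (r3.trans e1)

lemma SNE.mono {κ s t : ℝ} (h : AS D ρ κ s) (hst : s ≤ t) : AS D ρ κ t := by
  obtain ⟨M, L, e, z, u, a, b, c, d⟩ := h
  exact ⟨M, L, e, z, u, a, b, c, d.trans hst⟩

theorem pantsNE (hS : ¬Succ D ρ) (h : Adm ρ M L) {x : D} (hB : Bad ρ M L x)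
    (hn : M.NoAnn (M.triK x) (M.tri x)) (h2 : ∀ d ∈ M.tri x, 2 ≤ tr (lf ρ L d)) {κ ε : ℝ}
    (hκ : 0 < κ) (hε : 0 < ε) :
    AS D ρ κ (G3 (tl (lf ρ L x)) (tl (lf ρ L (M.nx x))) (tl (lf ρ L (M.nx (M.nx x)))) + ε) := by
  obtain ⟨y, hY, t1, t2, m1, m2, -, eG⟩ := SNE.exists_max hB
  rw [← t1, ← t2] at hn
  rw [← t1] at h2
  rw [← eG]
  clear hB t1 t2 eG x
  have hc := SNE.two_lt h hY hn h2 m1 m2
  obtain ⟨Hc, Ha, Hb⟩ := SNE.all_tri.1 h2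
  have p := SNE.mul3 hY
  have e0 : 0 < ε / 2 := by linarith
  have tc : 0 ≤ tl (lf ρ L y) := (tl_pos hc).le
  have g1 : tl (lf ρ L (M.nx y)) + hy (tl (lf ρ L (M.nx (M.nx y)))) (tl (lf ρ L y)) ≤
      G3 (tl (lf ρ L y)) (tl (lf ρ L (M.nx y))) (tl (lf ρ L (M.nx (M.nx y)))) := by
    rw [hy_comm]
    exact (le_max_left _ _).trans (le_max_right _ _)
  have g2 : tl (lf ρ L (M.nx (M.nx y))) + hy (tl (lf ρ L (M.nx y))) (tl (lf ρ L y)) ≤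
      G3 (tl (lf ρ L y)) (tl (lf ρ L (M.nx y))) (tl (lf ρ L (M.nx (M.nx y)))) := by
    rw [hy_comm]
    exact (le_max_right _ _).trans (le_max_right _ _)
  rcases lt_trichotomy (Th (lf ρ L (M.nx y)) (lf ρ L (M.nx (M.nx y)))) 0 with s | s | s
  · obtain ⟨a', b', e, o, ho, hd, r1, r2, r3, l, -⟩ := trg p Ha Hb m1 m2 s e0
    obtain ⟨M', L', a1, a2, -, a4, a5, a6⟩ := SNE.swap h hY hn (by linarith) e
    have k : 2 ≤ tr a' ∧ 2 ≤ tr b' ∧ tl b' + hy (tl a') (tl (lf ρ L y)) ≤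
        G3 (tl (lf ρ L y)) (tl (lf ρ L (M.nx y))) (tl (lf ρ L (M.nx (M.nx y)))) := by
      rcases e with ⟨rfl, rfl⟩ | ⟨rfl, rfl⟩
      · exact ⟨Ha, Hb, g2⟩
      · rw [tr_conj, tl_conj]
        exact ⟨Hb, Ha, g1⟩
    have := makeA a1 a2.nx.nx (x := o) (by rw [a6]; exact k.2.1) (by rwa [M'.nx3, a4])
      (by rw [M'.nx3, a5]; exact k.1) ho
      (SNE.face a1 (by rwa [a5, a6]) _ (by simp [DartMap.tri])) (by rwa [a6])
      (by rwa [M'.nx3, a4]) (by rwa [M'.nx3, a5]) hκ e0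
    rw [a6] at this
    exact SNE.mono this (by linarith [k.2.2])
  · obtain ⟨η, η0, hη⟩ := lemmaS hS (tr (lf ρ L y))
    have := hη M L y h hY hn (SNE.all_tri.2 ⟨⟨Hc, le_rfl⟩, ⟨Ha, m1⟩, Hb, m2⟩)
    rw [s, abs_zero] at this
    exact absurd this η0.not_gt
  · obtain ⟨o, sa, sb, ho, hd, r1, r2, s1, s2, s3, -, l1, l2, -⟩ := hex p hc
      (by linarith) (by linarith) (by nlinarith) (by nlinarith) s e0
    rcases mul_neg_iff.1 r2 with ⟨r2, r3⟩ | ⟨r2, r3⟩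
    · refine SNE.mono (makeA h hY.nx Ha Hb (by rwa [M.nx3]) ho
        (SNE.face h hd _ (by simp [DartMap.tri])) r2 r3 (by rwa [M.nx3]) hκ e0) ?_
      linarith [le_hy (s := tl (lf ρ L (M.nx (M.nx y)))) tc]
    · refine SNE.mono (makeA h hY.nx.nx Hb (by rwa [M.nx3]) (by rwa [M.nx3]) ho
        (SNE.face h hd _ (by simp [DartMap.tri])) r3 (by rwa [M.nx3]) (by rwa [M.nx3]) hκ e0) ?_
      linarith [le_hy (s := tl (lf ρ L (M.nx y))) tc]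

end A25f44
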