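import Pool.Agent.Lib.MP_a25f44_gt.STor
import Pool.Agent.Lib.MP_a25f44_gt.SNE
import Pool.Agent.Lib.MP_a25f44_gt.SGain

/-! The events of the non elliptic descent. -/

open scoped MatrixGroups
open Pool.Agent.Lib.MP_a25f44_gt Finset

noncomputable section

namespace A25f44

variable {D Γ : Type} [Group Γ] [Fintype D] [DecidableEq D] {ρ : Γ →* PSL(2, ℝ)}
  {M : DartMap D} {L : D → Γ} {K F : Finset D}

lemma SNEv.dist {a b c : SL(2, ℝ)} (h : a * b * c = 1 ∨ a * b * c = -1) (y : V) :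
    dV y ((a * b) • y) = lpV c y ∧ dV ((a * b) • y) (a • y) = lpV b y := by
  refine ⟨?_, by rw [mul_smul, dV_smul, dV_comm, lpV]⟩
  rw [← lpV_inv c, ← mul_inv_cancel_right (a * b) c]
  rcases h with h | h
  · rw [h, one_mul, lpV]
  · rw [h, neg_mul, one_mul, neg_smul_V, lpV]

lemma SNEv.le_add {a b c : SL(2, ℝ)} (h : a * b * c = 1 ∨ a * b * c = -1) {y : V} (hy : Hyp y) :
    lpV b y ≤ lpV a y + lpV c y ∧ lpV c y ≤ lpV a y + lpV b y := by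
  obtain ⟨e1, e2⟩ := SNEv.dist h y
  constructor
  · have := dV_triangle (hy.smul (a * b)) hy (hy.smul a)
    rw [e2, dV_comm _ y, e1] at this
    unfold lpV at *
    linarith
  · rw [← e1]
    exact lpV_mul_le a b hy

lemma SNEv.abs_tr {a : SL(2, ℝ)} (h : 2 ≤ tr a) : 2 ≤ |tr a| := h.trans (le_abs_self _)

/-- a bad pair of pants with an annulus is a handle -/
theorem hd_of_ann (h : Adm ρ M L) {x : D} (hB : Bad ρ M L x)
    (hn : ¬M.NoAnn (M.triK x) (M.tri x)) {l : ℝ} (hl : ∀ d ∈ M.tri x, tl (lf ρ L d) ≤ l) :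
    Hd D ρ l := by
  obtain ⟨y, hy, ha⟩ := hB.1.noAnn_or.resolve_left hn
  refine ⟨M, L, y, h, ?_, ha, hl y hy⟩
  rcases DartMap.mem_tri.1 hy with rfl | rfl | rfl
  exacts [hB, hB.nx, hB.nx.nx]

theorem evP_bad (hN : NE D ρ) (Bd : ℝ) : ∃ κ : ℝ, 0 < κ ∧
    ∀ (M : DartMap D) (L : D → Γ) (e : D) (y : V), Adm ρ M L → Hyp y → EvP ρ M L e y κ →
      -κ ≤ rot (lf ρ L e) y → lpV (lf ρ L e) y ≤ Bd → Bad ρ M L e := by
  obtain ⟨κ₀, h₀, H₀⟩ := Ev_small (Bd + 1)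
  obtain ⟨η₁, h₁, H₁⟩ := Ar_flat Bd h₀
  obtain ⟨η₂, h₂, H₂⟩ := Ar_short h₀
  refine ⟨min (min κ₀ 1) (min η₁ η₂), by positivity, fun M L e y h hy hE hr hl => ⟨hE.1, ?_⟩⟩
  have k₀ : min (min κ₀ 1) (min η₁ η₂) ≤ κ₀ := (min_le_left _ _).trans (min_le_left _ _)
  have k₃ : min (min κ₀ 1) (min η₁ η₂) ≤ 1 := (min_le_left _ _).trans (min_le_right _ _)
  have k₁ : min (min κ₀ 1) (min η₁ η₂) ≤ η₁ := (min_le_right _ _).trans (min_le_left _ _)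
  have k₂ : min (min κ₀ 1) (min η₁ η₂) ≤ η₂ := (min_le_right _ _).trans (min_le_right _ _)
  have ht := hN M L h
  have hm := lf_mul3 (ρ := ρ) h.mark.lab e
  obtain ⟨e1, e2⟩ := SNEv.dist hm y
  obtain ⟨l1, -⟩ := SNEv.le_add hm hy
  have n0 := lpV_nonneg (lf ρ L e) hy
  have n1 := lpV_nonneg (lf ρ L (M.nx e)) hy
  have n2 := lpV_nonneg (lf ρ L (M.nx (M.nx e))) hy
  have hv := Ev_nonneg h hE.1 (ht _) (ht _) (ht _) hy.cone
  rcases hE.2 with q | q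
  · refine H₀ _ _ _ y (ht _) (ht _) (ht _) hm hy (by linarith) (by linarith) (by linarith) hv
      (by linarith) (Or.inl ((le_abs_self _).trans (H₁ _ _ _ hy (hy.smul _) (hy.smul _) hl ?_)))
    rw [e1, e2]
    unfold lpV at *
    linarith
  · refine H₀ _ _ _ y (ht _) (ht _) (ht _) hm hy (by linarith) (by linarith) (by linarith) hv
      (by linarith) (Or.inl ?_)
    have := H₂ y ((lf ρ L e * lf ρ L (M.nx e)) • y) (lf ρ L e • y) hy (hy.smul _) (hy.smul _).cone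
      (by linarith)
    rw [Ar_swap hy.cone (hy.smul _).cone (hy.smul _).cone, abs_neg] at this
    exact (le_abs_self _).trans this

theorem evP_NE (hN : NE D ρ) (hS : ¬Succ D ρ) (Bd : ℝ) : ∃ g κ : ℝ, 0 < g ∧ 0 < κ ∧
    ∀ (M : DartMap D) (L : D → Γ) (e : D) (y : V) (s : ℝ), s ≤ Bd → Adm ρ M L → Hyp y →
      EvP ρ M L e y κ → -κ ≤ rot (lf ρ L e) y → tl (lf ρ L e) + lpV (lf ρ L e) y ≤ s →
      ∀ κ', 0 < κ' → AS D ρ κ' (s - g) := by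
  obtain ⟨gH, h₀, H₀⟩ := handleNE hN hS (Bd + 1)
  obtain ⟨ηS, h₁, H₁⟩ := lemmaS hS (2 * Real.cosh (Bd + 1))
  obtain ⟨ηT, h₂, H₂⟩ := short_Th (Bd + 1) h₁
  obtain ⟨η₀, h₃, a₁, a₂, a₃⟩ : ∃ η₀ : ℝ, 0 < η₀ ∧ η₀ ≤ ηT ∧ η₀ ≤ gH / 2 ∧ η₀ ≤ 1 :=
    ⟨min ηT (min (gH / 2) 1), by positivity, min_le_left _ _,
      (min_le_right _ _).trans (min_le_left _ _), (min_le_right _ _).trans (min_le_right _ _)⟩
  obtain ⟨g₁, η₁, h₄, h₅, H₄⟩ := gain (Bd + 1) h₃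
  obtain ⟨κB, h₆, H₆⟩ := evP_bad hN Bd
  obtain ⟨κ, h₇, b₁, b₂, b₃⟩ : ∃ κ : ℝ, 0 < κ ∧ κ ≤ κB ∧ κ ≤ η₀ / 2 ∧ κ ≤ η₁ :=
    ⟨min κB (min (η₀ / 2) η₁), by positivity, min_le_left _ _,
      (min_le_right _ _).trans (min_le_left _ _), (min_le_right _ _).trans (min_le_right _ _)⟩
  refine ⟨min (gH / 2) (g₁ / 2), κ, by positivity, h₇,
    fun M L e y s hs h hy hE hr hl κ' hκ' => ?_⟩
  have c₁ := min_le_left (gH / 2) (g₁ / 2)
  have c₂ := min_le_right (gH / 2) (g₁ / 2)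
  have ht := hN M L h
  have t0 := tl_nonneg (SNEv.abs_tr (ht e))
  have hB : Bad ρ M L e := H₆ M L e y h hy ⟨hE.1, hE.2.imp (fun q => by linarith) fun q => by
    linarith⟩ (by linarith) (by linarith)
  obtain ⟨l1, -⟩ := SNEv.le_add (Or.inl hB.2) hy
  have n0 := lpV_nonneg (lf ρ L e) hy
  have n1 := lpV_nonneg (lf ρ L (M.nx e)) hy
  have n2 := lpV_nonneg (lf ρ L (M.nx (M.nx e))) hy
  have m1 : lpV (lf ρ L (M.nx e)) y ≤ s + η₀ := by rcases hE.2 with q | q <;> linarith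
  have m2 : lpV (lf ρ L (M.nx (M.nx e))) y ≤ s + η₀ := by rcases hE.2 with q | q <;> linarith
  have m : ∀ d ∈ M.tri e, lpV (lf ρ L d) y ≤ s + η₀ := by
    intro d hd
    rcases DartMap.mem_tri.1 hd with rfl | rfl | rfl
    exacts [by linarith, m1, m2]
  by_cases hn : M.NoAnn (M.triK e) (M.tri e)
  · have hT := H₁ M L e h hB hn fun d hd => ⟨ht d, (le_abs_self _).trans
      (tr_le_of_lpV hy ((m d hd).trans (by linarith)))⟩
    have p2 : η₀ < lpV (lf ρ L (M.nx (M.nx e))) y := by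
      by_contra q
      linarith [H₂ _ _ y (ht (M.nx e)) (ht (M.nx (M.nx e))) hy (by linarith) (by linarith)]
    have p1 : η₀ < lpV (lf ρ L (M.nx e)) y := by
      by_contra q
      have := H₂ _ _ y (ht (M.nx (M.nx e))) (ht (M.nx e)) hy (by linarith) (by linarith)
      rw [Th_eq_B, B_comm, mul_comm (tr _ ^ 2 - 4), ← Th_eq_B] at this
      linarith
    have q := hE.2.resolve_right (by linarith)
    have := H₄ _ _ _ y (ht _) (ht _) (ht _) hB.2 hy (by linarith) p1.le p2.le (by linarith)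
    exact (pantsNE hS h hB hn (fun d _ => ht d) hκ' (half_pos h₄)).mono (by linarith)
  · exact (H₀ _ (by linarith) (hd_of_ann h hB hn fun d hd =>
      (tl_le_lpV (SNEv.abs_tr (ht d)) hy).trans (m d hd)) κ' hκ').mono (by linarith)

theorem evW_hd (hN : NE D ρ) (Bd : ℝ) {ε : ℝ} (hε : 0 < ε) : ∃ κ : ℝ, 0 < κ ∧
    ∀ (M : DartMap D) (L : D → Γ) (e : D) (z u : V) (s : ℝ), s ≤ Bd → Adm ρ M L → Hyp z → Hyp u →
      EvW ρ M L e z u κ → -κ ≤ rot (lf ρ L e) z → |rot (lf ρ L e) u| ≤ κ →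
      lpV (lf ρ L e) z + lpV (lf ρ L e) u ≤ s → Hd D ρ (s + ε) := by
  obtain ⟨κ₀, h₀, H₀⟩ := Ev_small (Bd + 2)
  obtain ⟨η, h₁, H₁⟩ := rot_near Bd (half_pos h₀)
  obtain ⟨κ, h₂, b₁, b₂, b₃, b₄⟩ : ∃ κ : ℝ, 0 < κ ∧ κ ≤ κ₀ / 2 ∧ κ ≤ η ∧ κ ≤ ε / 2 ∧ κ ≤ 1 :=
    ⟨min (min (κ₀ / 2) η) (min (ε / 2) 1), by positivity,
      (min_le_left _ _).trans (min_le_left _ _), (min_le_left _ _).trans (min_le_right _ _),
      (min_le_right _ _).trans (min_le_left _ _), (min_le_right _ _).trans (min_le_right _ _)⟩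
  refine ⟨κ, h₂, fun M L e z u s hs h hz hu hE hr hr' hl => ?_⟩
  obtain ⟨a, m₁, m₂, s₁, s₂, ha, hm₁, hm₂, a₁, a₂, a₃, a₄, r₁, r₂, hd⟩ := hE
  obtain ⟨M', L', x, h', hP, e1, hA, e2, e3, -⟩ := handle_of_itl h ha
  have ht := hN M L h
  have ht' := hN M' L' h'
  have c1 : lf ρ L' e = lf ρ L e := by rw [lf, lf, e2]
  have c2 : lf ρ L' (M'.nx e) = lf ρ L a * (lf ρ L e)⁻¹ * (lf ρ L a)⁻¹ := by
    refine cl_eq (by rw [tr_conj, tr_inv]; linarith [ht e]) ?_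
    simp only [e3, QuotientGroup.mk_mul, QuotientGroup.mk_inv, lf_mk, map_mul, map_inv]
  have c3 : M'.nx (M'.nx e) = x := by rw [← e1, M'.nx3]
  rw [← lf_smul] at hd
  have hn := hm₂.smul (lf ρ L a)
  have n0 := lpV_nonneg (lf ρ L e) hz
  have n1 := lpV_nonneg (lf ρ L e) hu
  have l1 : lpV (lf ρ L e) m₁ ≤ lpV (lf ρ L e) z := lpV_mono _ hm₁ hz (by
    rw [r₁, abs_mul, abs_of_nonneg a₁]
    exact mul_le_of_le_one_left (abs_nonneg _) a₂)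
  have l0 : |rot (lf ρ L e) m₂| ≤ |rot (lf ρ L e) u| := by
    rw [r₂, abs_mul, abs_of_nonneg a₃]
    exact mul_le_of_le_one_left (abs_nonneg _) a₄
  have l2 : lpV (lf ρ L' (M'.nx e)) (lf ρ L a • m₂) ≤ lpV (lf ρ L e) u := by
    rw [c2, lpV_conj, lpV_inv]
    exact lpV_mono _ hm₂ hu l0
  have l3 := lpV_le_add (lf ρ L' (M'.nx e)) hm₁ hn
  have l4 : -κ ≤ rot (lf ρ L' (M'.nx e)) (lf ρ L a • m₂) := by
    rw [c2, rot_conj, rot_inv]
    linarith [le_abs_self (rot (lf ρ L e) m₂)]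
  have l5 := (abs_le.1 (H₁ (lf ρ L' (M'.nx e)) _ _ hn hm₁ (by linarith)
    (by rw [dV_comm]; linarith))).1
  have l6 : -κ ≤ rot (lf ρ L e) m₁ := by rw [r₁]; nlinarith
  have hm := lf_mul3 (ρ := ρ) h'.mark.lab e
  obtain ⟨-, l7⟩ := SNEv.le_add hm hm₁
  have hP' : M'.Pants e := e1 ▸ hP.nx
  rw [← c1] at l1 l6
  have hB : Bad ρ M' L' e := ⟨hP', H₀ _ _ _ m₁ (ht' _) (ht' _) (ht' _) hm hm₁
    (by rw [← c1] at hl n1; linarith) (by linarith) (by rw [← c1] at hl l2; linarith)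
    (Ev_nonneg h' hP' (ht' _) (ht' _) (ht' _) hm₁.cone) (by linarith) (Or.inr (by linarith))⟩
  refine ⟨M', L', x, h', c3 ▸ hB.nx.nx, hA, (tl_le_lpV (SNEv.abs_tr (ht' x)) hm₁).trans ?_⟩
  rw [c3] at l7
  rw [← c1] at hl l2
  linarith

end A25f44
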