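import Pool.Agent.Lib.MP_a25f44_gt.SBud
import Pool.Agent.Lib.MP_a25f44_gt.STurnB

/-! No short edge and no touch in an extremal region. -/

open scoped MatrixGroups
open Pool.Agent.Lib.MP_a25f44_gt Finset

noncomputable section

namespace A25f44

variable {D Γ : Type} [Group Γ] [Fintype D] [DecidableEq D] {ρ : Γ →* PSL(2, ℝ)}
  {M : DartMap D} {L : D → Γ} {K F : Finset D}

/-- the walls outside `J` pay exactly `π` each -/
theorem SShort.core (hL : M.IsLab L) (hP : M.PS K F) (h2 : ∀ w ∈ K \ F, 2 ≤ tr (lf ρ L w))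
    {y : D → V} (hy : ∀ d, Cone (y d))
    (hb : bud ρ M L K F (lf ρ L) y = 3 * Real.pi * (K \ F).card) {J : Finset D} (hJ : J ⊆ K \ F)
    {S : Finset D} (hS : ∀ f ∈ S, f ∉ F ∧ M.vtx K f ∈ J ∧ M.vtx K (M.nx f) ∈ J)
    (hd : ∀ d ∈ S, ∀ d' ∈ S, d' ∈ M.tri d → d' = d) (a : D → ℝ)
    (ha : ∀ f ∈ S, ∀ y' : D → V, (∀ d, Cone (y' d)) → (∀ w ∈ J, y' w = y w) →
      faceAr M L ρ (fun d => y' (M.vtx K d)) f ≤ a f) :
    ∑ f ∈ S, (Real.pi - a f) + ∑ w ∈ J, qa (lf ρ L w) (y w) ≤ Real.pi * J.card := by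
  classical
  have hex : ∀ w : D, ∃ ξ : V, w ∈ K \ F → Idl ξ ∧ rot (lf ρ L w) ξ = 0 := fun w => by
    by_cases hw : w ∈ K \ F
    · obtain ⟨ξ, h⟩ := exists_fix (A := lf ρ L w) ((h2 w hw).trans (le_abs_self _))
      exact ⟨ξ, fun _ => h⟩
    · exact ⟨oV, fun h => absurd h hw⟩
  choose ξ hξ using hex
  set y' : D → V := fun w => if w ∈ (K \ F) \ J then ξ w else y w with hy'
  have e1 : ∀ w ∈ (K \ F) \ J, y' w = ξ w := fun w hw => if_pos hw
  have e2 : ∀ w ∈ J, y' w = y w := fun w hw => if_neg fun h => (mem_sdiff.1 h).2 hw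
  have c' : ∀ d, Cone (y' d) := fun d => by
    by_cases h : d ∈ (K \ F) \ J
    · rw [e1 d h]; exact (hξ d (mem_sdiff.1 h).1).1.1
    · rw [show y' d = y d from if_neg h]; exact hy d
  have hb' : bud ρ M L K F (lf ρ L) y' = 3 * Real.pi * (K \ F).card := by
    rw [← hb]
    exact bud_indep hL hP (lifts_lf L _) ⟨c', fun w hw => Or.inr (h2 w hw)⟩
      ⟨hy, fun w hw => Or.inr (h2 w hw)⟩
  have nt : ∀ f ∈ S, ∀ w ∈ (K \ F) \ J, f ∉ M.tri w := fun f hf w hw h => by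
    obtain ⟨hw1, hw2⟩ := mem_sdiff.1 hw
    obtain ⟨wK, wF⟩ := mem_sdiff.1 hw1
    obtain ⟨-, h1, h3⟩ := hS f hf
    rcases DartMap.mem_tri.1 h with rfl | rfl | rfl
    · exact hw2 (hP.cut.vtx_self wK ▸ h1)
    · exact hw2 (hP.loop w wK wF ▸ h1)
    · rw [M.nx3, hP.cut.vtx_self wK] at h3; exact hw2 h3
  have self_tri : ∀ d : D, d ∈ M.tri d := fun d => DartMap.mem_tri.2 (Or.inl rfl)
  have dj : Disjoint S ((K \ F) \ J) := disjoint_left.2 fun f hf hw => nt f hf f hw (self_tri f)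
  have hsum := sum_faces_le (ρ := ρ) hL (C := Fᶜ) (hP.cl.compl hP.cut.inv).1
    (pos := fun d => y' (M.vtx K d)) (fun d => c' _) (S := S ∪ (K \ F) \ J)
    (fun f hf => by
      rcases mem_union.1 hf with h | h
      · exact mem_compl.2 (hS f h).1
      · exact mem_compl.2 (mem_sdiff.1 (mem_sdiff.1 h).1).2)
    (fun d h1 d' h3 h => by
      rcases mem_union.1 h1 with h1 | h1 <;> rcases mem_union.1 h3 with h3 | h3
      · exact hd d h1 d' h3 h
      · exact absurd (DartMap.tri_eq_of_mem h ▸ self_tri d) (nt d h1 d' h3)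
      · exact absurd h (nt d' h3 d h1)
      · exact wall_tri hP (mem_sdiff.1 h1).1 (mem_sdiff.1 (mem_sdiff.1 h3).1).1 h)
  rw [sum_union dj] at hsum
  have s1 : ∑ w ∈ (K \ F) \ J, (Real.pi - faceAr M L ρ (fun d => y' (M.vtx K d)) w) =
      Real.pi * ((K \ F) \ J).card := by
    rw [sum_congr rfl (g := fun _ => Real.pi), sum_const, nsmul_eq_mul, mul_comm]
    intro w hw
    obtain ⟨i1, i2⟩ := hξ w (mem_sdiff.1 hw).1
    obtain ⟨μ, hμ, hf⟩ := i1.fix i2
    rw [lf_smul, ← e1 w hw] at hf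
    rw [(faceAr_fix hP c' (mem_sdiff.1 hw).1 hμ hf).1, sub_zero]
  have s2 : ∑ w ∈ K \ F, qa (lf ρ L w) (y' w) = ∑ w ∈ J, qa (lf ρ L w) (y w) := by
    rw [← sum_sdiff hJ, sum_eq_zero, zero_add]
    · exact sum_congr rfl fun w hw => by rw [e2 w hw]
    · intro w hw
      rw [e1 w hw, qa_eq_zero_iff (by linarith [h2 w (mem_sdiff.1 hw).1])]
      exact (hξ w (mem_sdiff.1 hw).1).2
  have s3 : ∑ f ∈ S, (Real.pi - a f) ≤
      ∑ f ∈ S, (Real.pi - faceAr M L ρ (fun d => y' (M.vtx K d)) f) :=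
    sum_le_sum fun f hf => by linarith [ha f hf y' c' e2]
  have s4 : (((K \ F) \ J).card : ℝ) + J.card = (K \ F).card := by
    exact_mod_cast card_sdiff_add_card_eq_card hJ
  rw [bud, s2, ← s4] at hb'
  rw [s1] at hsum
  nlinarith

variable (ρ M L K) in
/-- length of the edge of `f` -/
def SShort.len (y : D → V) (f : D) : ℝ :=
  dV (y (M.vtx K f)) (ρ (L f) • y (M.vtx K (M.nx f)))

omit [Fintype D] [DecidableEq D] in
lemma SShort.dV_inv (g : Γ) (u v : V) : dV u (ρ g⁻¹ • v) = dV v (ρ g • u) := by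
  rw [← dV_psmul (ρ g), ← mul_smul, ← map_mul, mul_inv_cancel, map_one, one_smul, dV_comm]

omit [DecidableEq D] in
lemma SShort.vtx_nx_op (hK : M.IsCut K) {f : D} (hf : f ∉ K) :
    M.vtx K (M.nx (M.op f)) = M.vtx K f := by
  rw [← hK.vtx_op _ (hK.op_notMem hf), M.op2]

omit [DecidableEq D] in
lemma SShort.len_op (hL : M.IsLab L) (hK : M.IsCut K) (y : D → V) {f : D} (hf : f ∉ K) :
    SShort.len ρ M L K y (M.op f) = SShort.len ρ M L K y f := by
  rw [SShort.len, SShort.len, SShort.vtx_nx_op hK hf, hK.vtx_op f hf, hL.1, SShort.dV_inv]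

omit [Fintype D] [DecidableEq D] in
lemma SShort.len_tri (hL : M.IsLab L) {y : D → V} (hy : ∀ d, Hyp (y d)) (f : D) :
    SShort.len ρ M L K y (M.nx (M.nx f)) ≤
      SShort.len ρ M L K y f + SShort.len ρ M L K y (M.nx f) := by
  rw [SShort.len, SShort.len, SShort.len, M.nx3, hL.nx2, SShort.dV_inv,
    ← dV_psmul (ρ (L f)) (y (M.vtx K (M.nx f))), ← mul_smul, ← map_mul]
  exact dV_triangle (hy _) ((hy _).psmul _) ((hy _).psmul _)

lemma SShort.len_wall (hP : M.PS K F) (y : D → V) {w : D} (hw : w ∈ K \ F) :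
    SShort.len ρ M L K y w = lpV (lf ρ L w) (y w) := by
  obtain ⟨wK, wF⟩ := mem_sdiff.1 hw
  rw [SShort.len, hP.loop w wK wF, hP.cut.vtx_self wK, lpV, lf_smul]

omit [Fintype D] [DecidableEq D] in
/-- area of a face with a controlled side -/
lemma SShort.face_le {y y' : D → V} (hy : ∀ d, Hyp (y d)) (hc : ∀ d, Cone (y' d)) {J : Finset D}
    (e : ∀ w ∈ J, y' w = y w) {f : D} (h1 : M.vtx K f ∈ J) (h2 : M.vtx K (M.nx f) ∈ J) {l a : ℝ}
    (hl : SShort.len ρ M L K y f ≤ l)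
    (H : ∀ u v w : V, Hyp u → Hyp v → Cone w → dV u v ≤ l → |Ar u v w| ≤ a) :
    faceAr M L ρ (fun d => y' (M.vtx K d)) f ≤ a := by
  rw [faceAr, e _ h1, e _ h2]
  exact (le_abs_self _).trans (H _ _ _ (hy _) ((hy _).psmul _) ((hc _).psmul _) hl)

lemma SShort.qa_ge {A : SL(2, ℝ)} (h : 2 ≤ tr A) {v : V} (hv : Hyp v) {κ : ℝ} (hκ : 0 ≤ κ)
    (h0 : -κ ≤ rot A v) : -(2 * κ) ≤ qa A v := by
  rcases le_total 0 (rot A v) with h1 | h1
  · linarith [(qa_nonneg_iff A v).2 h1]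
  · have := abs_qa_le_two_rot h hv
    rw [abs_of_nonpos h1] at this
    linarith [neg_abs_le (qa A v)]

/-- two wall faces are glued along at most one side -/
lemma SShort.exit (hP : M.PS K F) (hn : M.NoAnn K F) {v w : D} (hv : v ∈ K \ F) (hw : w ∈ K) :
    ∃ e, (e = M.nx v ∨ e = M.nx (M.nx v)) ∧ M.op e ∉ M.tri w := by
  obtain ⟨vK, vF⟩ := mem_sdiff.1 hv
  obtain ⟨n1, n2⟩ := hP.nx_notMem vK vF
  by_contra h
  push Not at h
  have h1 := DartMap.mem_tri.1 (h _ (Or.inl rfl))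
  have h2 := DartMap.mem_tri.1 (h _ (Or.inr rfl))
  rcases h1 with h1 | h1 | h1
  · exact hP.cut.op_notMem n1 (h1 ▸ hw)
  · rcases h2 with h2 | h2 | h2
    · exact hP.cut.op_notMem n2 (h2 ▸ hw)
    · exact M.nx2_ne_nx v (DartMap.op_inj.1 (h2.trans h1.symm))
    · exact hP.not_ann hn vK vF hw ⟨h1, h2⟩
  · exact hP.glue_walls vK vF hw h1

/-- a third face next to a short edge between different vertices -/
lemma SShort.third (hL : M.IsLab L) (hP : M.PS K F) (hn : M.NoAnn K F) {y : D → V}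
    (hy : ∀ d, Hyp (y d)) {Bd : ℝ} (hB : ∀ w ∈ K \ F, lpV (lf ρ L w) (y w) ≤ Bd) {d : D}
    (dF : d ∉ F) (dK : d ∉ K) (hl : SShort.len ρ M L K y d ≤ 1)
    (hne : M.vtx K d ≠ M.vtx K (M.nx d)) :
    ∃ f, f ∉ F ∧ M.vtx K f ∈ ({M.vtx K d, M.vtx K (M.nx d)} : Finset D) ∧
      M.vtx K (M.nx f) ∈ ({M.vtx K d, M.vtx K (M.nx d)} : Finset D) ∧ f ∉ M.tri d ∧
      f ∉ M.tri (M.op d) ∧ SShort.len ρ M L K y f ≤ Bd + 1 := by
  have self_tri : ∀ d : D, d ∈ M.tri d := fun d => DartMap.mem_tri.2 (Or.inl rfl)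
  set J : Finset D := {M.vtx K d, M.vtx K (M.nx d)} with hJ
  have iJ : M.vtx K d ∈ J := by simp [hJ]
  have jJ : M.vtx K (M.nx d) ∈ J := by simp [hJ]
  have hi : M.vtx K d ∈ K \ F :=
    mem_sdiff.2 ⟨hP.cut.vtx_mem _, fun h => dF ((hP.cl.vtx_mem_iff hP.cut _).1 h)⟩
  have hj : M.vtx K (M.nx d) ∈ K \ F := mem_sdiff.2 ⟨hP.cut.vtx_mem _, fun h =>
    dF ((hP.cl.nx_mem_iff _).1 ((hP.cl.vtx_mem_iff hP.cut _).1 h))⟩
  have free : ∀ v ∈ K \ F, v ∈ J → v ∉ M.tri d → v ∉ M.tri (M.op d) →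
      ∃ f, f ∉ F ∧ M.vtx K f ∈ J ∧ M.vtx K (M.nx f) ∈ J ∧ f ∉ M.tri d ∧
        f ∉ M.tri (M.op d) ∧ SShort.len ρ M L K y f ≤ Bd + 1 := fun v hv vJ h1 h2 => by
    obtain ⟨vK, vF⟩ := mem_sdiff.1 hv
    refine ⟨v, vF, ?_, ?_, h1, h2, ?_⟩
    · rwa [hP.cut.vtx_self vK]
    · rwa [hP.loop v vK vF]
    · rw [SShort.len_wall hP y hv]; linarith [hB v hv]
  have glued : ∀ v ∈ K \ F, ∀ w ∈ K \ F, v ∈ J → v ∈ M.tri d → w ∈ M.tri (M.op d) →
      ∃ f, f ∉ F ∧ M.vtx K f ∈ J ∧ M.vtx K (M.nx f) ∈ J ∧ f ∉ M.tri d ∧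
        f ∉ M.tri (M.op d) ∧ SShort.len ρ M L K y f ≤ Bd + 1 := fun v hv w hw vJ h1 h2 => by
    obtain ⟨vK, vF⟩ := mem_sdiff.1 hv
    obtain ⟨n1, n2⟩ := hP.nx_notMem vK vF
    have t1 := DartMap.tri_eq_of_mem h1
    have t2 := DartMap.tri_eq_of_mem h2
    have lv : SShort.len ρ M L K y v ≤ Bd := by rw [SShort.len_wall hP y hv]; exact hB v hv
    have l0 : 0 ≤ Bd := (lpV_nonneg _ (hy v)).trans (hB v hv)
    have key : M.vtx K (M.nx (M.nx v)) ∈ J ∧ SShort.len ρ M L K y (M.nx v) ≤ Bd + 1 ∧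
        SShort.len ρ M L K y (M.nx (M.nx v)) ≤ Bd + 1 := by
      rcases DartMap.mem_tri.1 (t1 ▸ self_tri d : d ∈ M.tri v) with h | h | h
      · exact absurd (h ▸ vK) dK
      · have := SShort.len_tri (ρ := ρ) (K := K) hL hy v
        rw [← h] at this ⊢
        exact ⟨jJ, by linarith, by linarith⟩
      · have := SShort.len_tri (ρ := ρ) (K := K) hL hy (M.nx (M.nx v))
        simp only [M.nx3] at this
        rw [← h] at this ⊢
        exact ⟨iJ, by linarith, by linarith⟩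
    have v1 : M.vtx K (M.nx v) ∈ J := by rwa [hP.loop v vK vF]
    have v0 : M.vtx K v ∈ J := by rwa [hP.cut.vtx_self vK]
    have f1 : M.nx v ∉ F := fun h => vF ((hP.cl.nx_mem_iff _).1 h)
    have f2 : M.nx (M.nx v) ∉ F := fun h => f1 ((hP.cl.nx_mem_iff _).1 h)
    obtain ⟨e, he, h3⟩ := SShort.exit hP hn hv (mem_sdiff.1 hw).1
    have hK : e ∉ K := by rcases he with rfl | rfl <;> assumption
    have hF : e ∉ F := by rcases he with rfl | rfl <;> assumption
    refine ⟨M.op e, fun h => hF ((hP.cl.op_mem_iff hP.cut.inv hK).1 h), ?_, ?_, ?_, t2 ▸ h3, ?_⟩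
    · rw [hP.cut.vtx_op e hK]
      rcases he with rfl | rfl
      · exact key.1
      · rwa [M.nx3]
    · rw [SShort.vtx_nx_op hP.cut hK]
      rcases he with rfl | rfl
      · exact v1
      · exact key.1
    · rw [← t1]
      exact hP.cut.tr.op_notMem_tri (DartMap.mem_tri.2 (Or.inr he))
    · rw [SShort.len_op hL hP.cut y hK]
      rcases he with rfl | rfl
      · exact key.2.1
      · exact key.2.2
  have apart : ∀ x, M.vtx K d ∈ M.tri x → M.vtx K (M.nx d) ∉ M.tri x := fun x h1 h2 =>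
    hne (wall_tri hP hj (mem_sdiff.1 hi).1 (DartMap.tri_eq_of_mem h2 ▸ h1))
  by_cases a1 : M.vtx K d ∈ M.tri d
  · by_cases a2 : M.vtx K (M.nx d) ∈ M.tri (M.op d)
    · exact glued _ hi _ hj iJ a1 a2
    · exact free _ hj jJ (apart _ a1) a2
  · by_cases a2 : M.vtx K d ∈ M.tri (M.op d)
    · by_cases a3 : M.vtx K (M.nx d) ∈ M.tri d
      · exact glued _ hj _ hi jJ a3 a2
      · exact free _ hj jJ a3 (apart _ a2)
    · exact free _ hi iJ a1 a2

/-- no short edge in an extremal region -/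
theorem no_short (Bd : ℝ) : ∃ κ : ℝ, 0 < κ ∧ ∀ (M : DartMap D) (L : D → Γ) (K F : Finset D)
    (y : D → V), M.IsLab L → M.PS K F → M.NoAnn K F → (∀ w ∈ K \ F, 2 ≤ tr (lf ρ L w)) →
    (∀ d, Hyp (y d)) → bud ρ M L K F (lf ρ L) y = 3 * Real.pi * (K \ F).card →
    (∀ w ∈ K \ F, lpV (lf ρ L w) (y w) ≤ Bd ∧ -κ ≤ rot (lf ρ L w) (y w)) →
    ∀ d, d ∉ F → d ∉ K → κ < dV (y (M.vtx K d)) (ρ (L d) • y (M.vtx K (M.nx d))) := by
  classical
  obtain ⟨c, hc, Hc⟩ := Ar_side (Bd + 1)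
  obtain ⟨ε, hε, ε1, εc⟩ : ∃ ε : ℝ, 0 < ε ∧ 8 * ε ≤ 1 ∧ 8 * ε ≤ c :=
    ⟨min c 1 / 8, by positivity, by linarith [min_le_right c 1], by linarith [min_le_left c 1]⟩
  obtain ⟨η, hη, Hη⟩ := Ar_short hε
  obtain ⟨κ, hκ, κη, κε⟩ : ∃ κ : ℝ, 0 < κ ∧ κ ≤ η ∧ κ ≤ ε :=
    ⟨min η ε, by positivity, min_le_left _ _, min_le_right _ _⟩
  refine ⟨κ, hκ, fun M L K F y hL hP hn h2 hy hb hB d dF dK => ?_⟩
  by_contra hlt
  have hl : SShort.len ρ M L K y d ≤ κ := not_lt.1 hlt
  have self_tri : ∀ d : D, d ∈ M.tri d := fun d => DartMap.mem_tri.2 (Or.inl rfl)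
  have hi : M.vtx K d ∈ K \ F :=
    mem_sdiff.2 ⟨hP.cut.vtx_mem _, fun h => dF ((hP.cl.vtx_mem_iff hP.cut _).1 h)⟩
  have hj : M.vtx K (M.nx d) ∈ K \ F := mem_sdiff.2 ⟨hP.cut.vtx_mem _, fun h =>
    dF ((hP.cl.nx_mem_iff _).1 ((hP.cl.vtx_mem_iff hP.cut _).1 h))⟩
  have qi := SShort.qa_ge (h2 _ hi) (hy _) hκ.le (hB _ hi).2
  have qj := SShort.qa_ge (h2 _ hj) (hy _) hκ.le (hB _ hj).2
  have oF : M.op d ∉ F := fun h => dF ((hP.cl.op_mem_iff hP.cut.inv dK).1 h)
  have o1 : M.vtx K (M.op d) = M.vtx K (M.nx d) := hP.cut.vtx_op d dK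
  have o2 := SShort.vtx_nx_op hP.cut dK
  have ol : SShort.len ρ M L K y (M.op d) ≤ κ := by rwa [SShort.len_op hL hP.cut y dK]
  have t1 : M.op d ∉ M.tri d := hP.cut.tr.op_notMem_tri (self_tri d)
  have t2 : d ∉ M.tri (M.op d) := fun h => t1 (DartMap.tri_eq_of_mem h ▸ self_tri _)
  have n1 : d ≠ M.op d := fun h => M.op_ne d h.symm
  have := Real.pi_gt_three
  by_cases hne : M.vtx K d = M.vtx K (M.nx d)
  · have hS : ∀ f ∈ ({d, M.op d} : Finset D), f ∉ F ∧ M.vtx K f ∈ ({M.vtx K d} : Finset D) ∧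
        M.vtx K (M.nx f) ∈ ({M.vtx K d} : Finset D) := fun f hf => by
      rcases mem_insert.1 hf with rfl | hf
      · exact ⟨dF, mem_singleton_self _, mem_singleton.2 hne.symm⟩
      · rw [mem_singleton.1 hf]
        exact ⟨oF, mem_singleton.2 (o1.trans hne.symm), mem_singleton.2 o2⟩
    have H := SShort.core hL hP h2 (fun d => (hy d).cone) hb (J := {M.vtx K d})
      (singleton_subset_iff.2 hi) hS
      (fun f hf f' hf' h => by
        simp only [mem_insert, mem_singleton] at hf hf'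
        rcases hf with rfl | rfl <;> rcases hf' with rfl | rfl
        · rfl
        · exact absurd h t1
        · exact absurd h t2
        · rfl) (fun _ => ε)
      (fun f hf y' c' e => SShort.face_le hy c' e (hS f hf).2.1 (hS f hf).2.2 (l := η)
        (by
          simp only [mem_insert, mem_singleton] at hf
          rcases hf with rfl | rfl <;> linarith) Hη)
    rw [sum_pair n1, sum_singleton, card_singleton] at H
    push_cast at H
    linarith
  · obtain ⟨g, gF, g1, g2, g3, g4, gl⟩ := SShort.third hL hP hn hy (fun w hw => (hB w hw).1) dF dK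
      (by linarith) hne
    have n2 : g ≠ d := fun h => g3 (h ▸ self_tri _)
    have n3 : g ≠ M.op d := fun h => g4 (h ▸ self_tri _)
    have hS : ∀ f ∈ ({g, d, M.op d} : Finset D), f ∉ F ∧
        M.vtx K f ∈ ({M.vtx K d, M.vtx K (M.nx d)} : Finset D) ∧
        M.vtx K (M.nx f) ∈ ({M.vtx K d, M.vtx K (M.nx d)} : Finset D) := fun f hf => by
      simp only [mem_insert, mem_singleton] at hf
      rcases hf with rfl | rfl | rfl
      · exact ⟨gF, g1, g2⟩
      · exact ⟨dF, by simp, by simp⟩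
      · exact ⟨oF, by simp [o1], by simp [o2]⟩
    have H := SShort.core hL hP h2 (fun d => (hy d).cone) hb (J := {M.vtx K d, M.vtx K (M.nx d)})
      (insert_subset hi (singleton_subset_iff.2 hj)) hS
      (fun f hf f' hf' h => by
        simp only [mem_insert, mem_singleton] at hf hf'
        rcases hf with hf | hf | hf <;> rcases hf' with hf' | hf' | hf' <;> rw [hf, hf'] at h
        · rw [hf, hf']
        · exact absurd (DartMap.tri_eq_of_mem h ▸ self_tri _) g3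
        · exact absurd (DartMap.tri_eq_of_mem h ▸ self_tri _) g4
        · exact absurd h g3
        · rw [hf, hf']
        · exact absurd h t1
        · exact absurd h g4
        · exact absurd h t2
        · rw [hf, hf']) (fun f => if f = g then Real.pi - c else ε)
      (fun f hf y' c' e => by
        by_cases h : f = g
        · rw [if_pos h]
          exact SShort.face_le hy c' e (hS f hf).2.1 (hS f hf).2.2 (h ▸ gl) Hc
        · rw [if_neg h]
          refine SShort.face_le hy c' e (hS f hf).2.1 (hS f hf).2.2 (l := η) ?_ Hη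
          simp only [mem_insert, mem_singleton] at hf
          rcases hf with hf | hf | hf
          · exact absurd hf h
          · rw [hf]; linarith
          · rw [hf]; linarith)
    rw [sum_insert (by simp [n2, n3]), sum_pair n1, sum_pair hne, card_pair hne, if_pos rfl,
      if_neg n2.symm, if_neg n3.symm] at H
    push_cast at H
    linarith

/-- no apex near a wall in an extremal region -/
theorem no_touch (Bd : ℝ) : ∃ κ : ℝ, 0 < κ ∧ ∀ (M : DartMap D) (L : D → Γ) (K F : Finset D)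
    (y : D → V), M.IsLab L → M.PS K F → M.NoAnn K F → (∀ w ∈ K \ F, 2 ≤ tr (lf ρ L w)) →
    (∀ d, Hyp (y d)) → bud ρ M L K F (lf ρ L) y = 3 * Real.pi * (K \ F).card →
    (∀ w ∈ K \ F, lpV (lf ρ L w) (y w) ≤ Bd ∧ -κ ≤ rot (lf ρ L w) (y w)) →
    ∀ w ∈ K \ F, ∀ s t : ℝ, 0 ≤ s → 0 ≤ t → Hyp (s • y w + t • ρ (L w) • y w) →
      κ < dV (s • y w + t • ρ (L w) • y w)
        (ρ (L w * L (M.nx w)) • y (M.vtx K (M.nx (M.nx w)))) := by
  classical
  obtain ⟨κ0, hκ0, H0⟩ := no_short (D := D) (ρ := ρ) Bd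
  obtain ⟨c, hc, Hc⟩ := Ar_side (Bd + 1)
  obtain ⟨ε, hε, ε1, εc⟩ : ∃ ε : ℝ, 0 < ε ∧ 8 * ε ≤ 1 ∧ 8 * ε ≤ c :=
    ⟨min c 1 / 8, by positivity, by linarith [min_le_right c 1], by linarith [min_le_left c 1]⟩
  obtain ⟨η, hη, Hη⟩ := Ar_flat Bd hε
  obtain ⟨κ, hκ, κη, κε, κ1⟩ : ∃ κ : ℝ, 0 < κ ∧ 2 * κ ≤ η ∧ κ ≤ ε ∧ κ ≤ κ0 :=
    ⟨min (η / 2) (min ε κ0), by positivity, by linarith [min_le_left (η / 2) (min ε κ0)],
      (min_le_right _ _).trans (min_le_left _ _), (min_le_right _ _).trans (min_le_right _ _)⟩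
  refine ⟨κ, hκ, fun M L K F y hL hP hn h2 hy hb hB w hw s t hs ht hm => ?_⟩
  by_contra hlt
  have hl := not_lt.1 hlt
  obtain ⟨wK, wF⟩ := mem_sdiff.1 hw
  obtain ⟨n1, n2⟩ := hP.nx_notMem wK wF
  have f1 : M.nx w ∉ F := fun h => wF ((hP.cl.nx_mem_iff _).1 h)
  have f2 : M.nx (M.nx w) ∉ F := fun h => f1 ((hP.cl.nx_mem_iff _).1 h)
  obtain ⟨st, hd⟩ := dV_comb (hy w) ((hy w).psmul (ρ (L w))) hs ht hm
  set m := s • y w + t • ρ (L w) • y w with hmd
  have hlp : dV (y w) (ρ (L w) • y w) ≤ Bd := by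
    rw [← lf_smul]; exact (hB w hw).1
  by_cases hj : M.vtx K (M.nx (M.nx w)) = w
  · rw [hj] at hl
    have ha := (hy w).psmul (ρ (L w * L (M.nx w)))
    have hA := (hy w).psmul (ρ (L w))
    have d1 := dV_triangle (hy w) hm ha
    have d2 := dV_triangle ha hm hA
    rw [dV_comm _ m] at d2
    have d3 := dV_nonneg (hy w) hm
    have self_tri : ∀ d : D, d ∈ M.tri d := fun d => DartMap.mem_tri.2 (Or.inl rfl)
    have t1 : M.op (M.nx w) ∉ M.tri w :=
      hP.cut.tr.op_notMem_tri (DartMap.mem_tri.2 (Or.inr (Or.inl rfl)))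
    have n3 : w ≠ M.op (M.nx w) := fun h => t1 (h ▸ self_tri _)
    have v0 := hP.cut.vtx_self wK
    have v1 := hP.loop w wK wF
    have hS : ∀ f ∈ ({w, M.op (M.nx w)} : Finset D), f ∉ F ∧ M.vtx K f ∈ ({w} : Finset D) ∧
        M.vtx K (M.nx f) ∈ ({w} : Finset D) := fun f hf => by
      rcases mem_insert.1 hf with hf | hf
      · rw [hf]; exact ⟨wF, mem_singleton.2 v0, mem_singleton.2 v1⟩
      · rw [mem_singleton.1 hf]
        exact ⟨fun h => f1 ((hP.cl.op_mem_iff hP.cut.inv n1).1 h),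
          mem_singleton.2 ((hP.cut.vtx_op _ n1).trans hj),
          mem_singleton.2 ((SShort.vtx_nx_op hP.cut n1).trans v1)⟩
    have H := SShort.core hL hP h2 (fun d => (hy d).cone) hb (J := {w})
      (singleton_subset_iff.2 hw) hS
      (fun f hf f' hf' h => by
        simp only [mem_insert, mem_singleton] at hf hf'
        rcases hf with hf | hf <;> rcases hf' with hf' | hf' <;> rw [hf, hf'] at h
        · rw [hf, hf']
        · exact absurd h t1
        · exact absurd (DartMap.tri_eq_of_mem h ▸ self_tri _) t1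
        · rw [hf, hf']) (fun f => if f = w then ε else Real.pi - c)
      (fun f hf y' c' e => by
        by_cases h : f = w
        · rw [if_pos h, h, faceAr, v0, v1, hj, e w (mem_singleton_self w)]
          exact (le_abs_self _).trans (Hη _ _ _ (hy w) hA ha hlp (by linarith))
        · rw [if_neg h]
          refine SShort.face_le hy c' e (hS f hf).2.1 (hS f hf).2.2 ?_ Hc
          rw [mem_singleton.1 ((mem_insert.1 hf).resolve_left h), SShort.len_op hL hP.cut y n1,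
            SShort.len, v1, hj, ← dV_psmul (ρ (L w)), ← mul_smul, ← map_mul, dV_comm]
          linarith)
    rw [sum_pair n3, sum_singleton, card_singleton, if_pos rfl, if_neg n3.symm] at H
    have q := SShort.qa_ge (h2 _ hw) (hy _) hκ.le (hB _ hw).2
    push_cast at H
    linarith
  · have hr : rot (lf ρ L w) m = (s + t) * rot (lf ρ L w) (y w) := by
      rw [hmd, ← lf_smul, rot_add, rot_smul, rot_smul, rot_smul_self]; ring
    have hy1 : ∀ d, Hyp (Function.update y w m d) := fun d => by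
      by_cases h : d = w
      · rw [h, Function.update_self]; exact hm
      · rw [Function.update_of_ne h]; exact hy d
    have hb1 : bud ρ M L K F (lf ρ L) (Function.update y w m) = 3 * Real.pi * (K \ F).card := by
      rw [← hb]
      exact bud_indep hL hP (lifts_lf L _) ⟨fun d => (hy1 d).cone, fun w hw => Or.inr (h2 w hw)⟩
        ⟨fun d => (hy d).cone, fun w hw => Or.inr (h2 w hw)⟩
    have H := H0 M L K F _ hL hP hn h2 hy1 hb1 (fun v hv => by
      by_cases h : v = w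
      · rw [h, Function.update_self]
        refine ⟨(lpV_mono _ hm (hy w) ?_).trans (hB w hw).1, ?_⟩
        · rw [hr, abs_mul, abs_of_nonneg (add_nonneg hs ht)]
          exact mul_le_of_le_one_left (abs_nonneg _) st
        · rw [hr]
          nlinarith [(hB w hw).2, add_nonneg hs ht]
      · rw [Function.update_of_ne h]
        exact ⟨(hB v hv).1, by linarith [(hB v hv).2]⟩) _ f2 n2
    rw [M.nx3, hP.cut.vtx_self wK, Function.update_self, Function.update_of_ne hj, hL.nx2,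
      SShort.dV_inv] at H
    linarith

end A25f44
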