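import Pool.Agent.Lib.MP_a25f44_gt.SBud

/-! Angles around a vertex placed at a centre. -/

set_option linter.unusedSectionVars false
set_option linter.unusedVariables false

open scoped MatrixGroups
open Pool.Agent.Lib.MP_a25f44_gt Finset

noncomputable section

namespace A25f44

variable {D Γ : Type} [Group Γ] [Fintype D] [DecidableEq D] {ρ : Γ →* PSL(2, ℝ)}
  {M : DartMap D} {L : D → Γ} {K F : Finset D}

/-- the two ends of the edge of `d` are on different rays -/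
def NonCol (ρ : Γ →* PSL(2, ℝ)) (M : DartMap D) (L : D → Γ) (pos : D → V) (d : D) : Prop :=
  B (pos d) (pos d) * B (pos (M.nx d)) (pos (M.nx d)) < B (pos d) (ρ (L d) • pos (M.nx d)) ^ 2

/-- the sum of the signed angles at the vertex of the wall `w` -/
def starS (ρ : Γ →* PSL(2, ℝ)) (M : DartMap D) (L : D → Γ) (K : Finset D) (y : D → V) (w : D) : ℝ :=
  ∑ d ∈ univ.filter (fun d => M.vtx K d = w ∧ d ≠ w ∧ d ≠ M.nx w),
    faceAng M L ρ (fun d => y (M.vtx K d)) d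

lemma nonCol_of_det (hL : M.IsLab L) {pos : D → V} (hp : ∀ d, Cone (pos d)) {d : D}
    (h : faceDet M L ρ pos d ≠ 0) : NonCol ρ M L pos d := by
  have h1 := (hp d).nrm_mul_lt ((hp (M.nx d)).psmul (ρ (L d))) h
  rw [nrm_psmul] at h1
  rw [NonCol, ← (hp d).nrm_sq, ← (hp _).nrm_sq, ← mul_pow]
  exact pow_lt_pow_left₀ h1 (mul_nonneg (nrm_nonneg _) (nrm_nonneg _)) two_ne_zero

lemma NonCol.op (hL : M.IsLab L) (hK : M.IsCut K) {y : D → V} {d : D} (hd : d ∉ K)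
    (h : NonCol ρ M L (fun d => y (M.vtx K d)) d) :
    NonCol ρ M L (fun d => y (M.vtx K d)) (M.op d) := by
  have e := hK.vtx_op _ (hK.op_notMem hd)
  rw [M.op2] at e
  simp only [NonCol] at h ⊢
  rw [hK.vtx_op d hd, ← e, hL.1, ← B_psmul (ρ (L d)) _ (ρ _ • _), ← mul_smul, ← map_mul,
    mul_inv_cancel, map_one, one_smul, mul_comm, B_comm (ρ _ • _)]
  exact h

lemma det_zero_of_col (hL : M.IsLab L) (hK : M.IsCut K) {y : D → V} (hy : ∀ d, Cone (y d)) {d : D}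
    (hd : d ∉ K) (h : ¬NonCol ρ M L (fun d => y (M.vtx K d)) d) :
    faceDet M L ρ (fun d => y (M.vtx K d)) d = 0 ∧
      faceDet M L ρ (fun d => y (M.vtx K d)) (M.op d) = 0 := by
  refine ⟨by_contra fun c => h (nonCol_of_det hL (fun _ => hy _) c), by_contra fun c => h ?_⟩
  have := (nonCol_of_det hL (fun _ => hy _) c).op hL hK (hK.op_notMem hd)
  rwa [M.op2] at this

/-- if every face is positive or is the face of a wall at a fixed point, no edge collapses -/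
theorem nonCol_all (hL : M.IsLab L) (hP : M.PS K F) (hn : M.NoAnn K F) {y : D → V}
    (hy : ∀ d, Cone (y d))
    (hg : ∀ d, M.Good K F d → 0 < faceDet M L ρ (fun d => y (M.vtx K d)) d)
    (hf : ∀ w ∈ K \ F, 0 < faceDet M L ρ (fun d => y (M.vtx K d)) w ∨
      ∃ μ : ℝ, 0 < μ ∧ ρ (L w) • y w = μ • y w) {d : D} (hd : d ∉ K) (hF : d ∉ F) :
    NonCol ρ M L (fun d => y (M.vtx K d)) d := by
  refine hP.nd hn (fun d g => nonCol_of_det hL (fun _ => hy _) (hg d g).ne')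
    (fun d hd h => h.op hL hP.cut hd) (fun w hw wF => ?_) hd hF
  rcases hf w (mem_sdiff.2 ⟨hw, wF⟩) with h | ⟨μ, hμ, h⟩
  · exact iff_of_true (nonCol_of_det hL (fun _ => hy _) (by rw [faceDet_nx ρ hL]; exact h.ne'))
      (nonCol_of_det hL (fun _ => hy _) (by rw [faceDet_nx ρ hL, faceDet_nx ρ hL]; exact h.ne'))
  · simp only [NonCol, M.nx3, hP.loop w hw wF, hP.cut.vtx_self hw]
    generalize y (M.vtx K (M.nx (M.nx w))) = q
    have e1 : μ ^ 2 * B (y w) (y w) = B (y w) (y w) := by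
      conv_rhs => rw [← B_psmul (ρ (L w)), h, B_smul_left, B_smul_right]
      ring
    have e2 : B (y w) (ρ (L (M.nx w)) • q) = μ * B q (ρ (L (M.nx (M.nx w))) • y w) := by
      rw [← B_psmul (ρ (L w)), h, B_smul_left, ← B_psmul (ρ (L (M.nx (M.nx w)))), ← mul_smul,
        ← mul_smul, ← map_mul, ← map_mul]
      have := hL.2 (M.nx (M.nx w))
      rw [M.nx3] at this
      rw [this, map_one, one_smul, B_comm]
    rw [e2, mul_pow, ← e1, mul_assoc, mul_lt_mul_iff_right₀ (by positivity), e1, mul_comm]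

lemma SStar.add {p r u v : V} (hp : Hyp p) (hr : B r r < B p r ^ 2) (hu : B u u < B p u ^ 2)
    (hv : B v v < B p v ^ 2) :
    (angV p u v : Real.Angle) = (angV p r v : Real.Angle) - (angV p r u : Real.Angle) := by
  have n : ∀ a b : V, B a a < B p a ^ 2 → B b b < B p b ^ 2 → Tc p a b ≠ 0 := fun a b ha hb => by
    rw [← Complex.normSq_pos, normSq_Tc hp.cone, hp.2, one_mul, one_mul]
    exact mul_pos (sub_pos.2 ha) (sub_pos.2 hb)
  rw [eq_sub_iff_add_eq', angV, angV, angV, ← Complex.arg_mul_coe_angle (n _ _ hr hu) (n _ _ hu hv),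
    Tc_mul hp.cone, Complex.arg_real_mul]
  rw [hp.2, one_mul]
  exact sub_pos.2 hu

lemma SStar.self {p u : V} (hp : Cone p) (hu : Cone u) {μ : ℝ} (hμ : 0 < μ) :
    angV p u (μ • u) = 0 := by
  rw [angV, Complex.arg_eq_zero_iff, Tc_re, Tc_im, B_smul_right, B_smul_right, det3_smul_3,
    det3_self23]
  refine ⟨?_, by ring⟩
  nlinarith [mul_le_mul_of_nonneg_left (hp.B_sq_ge hu) hμ.le]

theorem star0 (hL : M.IsLab L) (hP : M.PS K F) {y : D → V} (hy : ∀ d, Cone (y d)) {w : D}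
    (hw : w ∈ K \ F) (hp : Hyp (y w)) {A : SL(2, ℝ)} (hA : (A : PSL(2, ℝ)) = ρ (L w))
    (hf : A • y w = y w)
    (hc : ∀ d, M.vtx K d = w → d ≠ w → NonCol ρ M L (fun d => y (M.vtx K d)) d) :
    ((starS ρ M L K y w : ℝ) : Real.Angle) = ((-qa A (y w) : ℝ) : Real.Angle) := by
  obtain ⟨wK, wF⟩ := mem_sdiff.1 hw
  have hl := hP.loop w wK wF
  obtain ⟨far, hfar⟩ : ∃ far : D → V, ∀ d, far d = ρ (L d) • y (M.vtx K (M.nx d)) := ⟨_, fun _ => rfl⟩
  have nc : ∀ d, M.vtx K d = w → d ≠ w → B (far d) (far d) < B (y w) (far d) ^ 2 := by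
    intro d h1 h2
    have := hc d h1 h2
    simp only [NonCol, h1, hp.2, one_mul] at this
    rwa [hfar, B_psmul]
  have sg : ∀ d, M.vtx K d = w → d ≠ M.nx w →
      far (M.sg d) = ρ (L d * L (M.nx d)) • y (M.vtx K (M.nx (M.nx d))) ∧
        B (far (M.sg d)) (far (M.sg d)) < B (y w) (far (M.sg d)) ^ 2 := by
    intro d h1 h2
    obtain ⟨a1, a2, a3, a4⟩ := hP.cut.star_aux wK hl h1 h2
    refine ⟨?_, nc _ a3 fun c => a4 (c ▸ wK)⟩
    rw [hfar, a2, hL.1, ← lab_cyc' hL, ← hP.cut.vtx_op _ (hP.cut.op_notMem a1), M.op2]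
  have n0 := nc _ hl (M.nx_ne w)
  have := hP.cut.star_sum wK hl fun d => (angV (y w) (far (M.nx w)) (far d) : Real.Angle)
  rw [starS, ← Real.Angle.coe_coeHom, map_sum, Real.Angle.coe_coeHom, sum_congr rfl, this]
  · have e := SStar.self hp.cone (u := far (M.nx w)) (hfar _ ▸ (hy _).psmul _) one_pos
    rw [one_smul] at e
    rw [e, (sg w (hP.cut.vtx_self wK) (M.nx_ne w).symm).1, map_mul, mul_smul, ← hfar, ← hA, mk_smul,
      angV_rot hp hf (hfar _ ▸ (hy _).psmul _) n0]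
    simp
  · intro d hd
    obtain ⟨h1, h2, h3⟩ := (mem_filter.1 hd).2
    rw [← SStar.add hp n0 (nc d h1 h2) (sg d h1 h3).2, (sg d h1 h3).1, hfar, faceAng, h1]

/-- the darts of the good faces -/
def SStar.G (M : DartMap D) (K F : Finset D) : Finset D :=
  Fᶜ.filter (fun d => d ∉ K ∧ M.nx d ∉ K ∧ M.nx (M.nx d) ∉ K)

lemma SStar.mem_G {d : D} : d ∈ SStar.G M K F ↔ M.Good K F d := by
  simp [SStar.G, DartMap.Good]

lemma SStar.nx_G (hP : M.PS K F) (d : D) : M.nx d ∈ SStar.G M K F ↔ d ∈ SStar.G M K F := by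
  simp only [SStar.mem_G]
  exact ⟨fun h => M.nx3 d ▸ (h.nx hP.cl).nx hP.cl, fun h => h.nx hP.cl⟩

/-- all walls at fixed points, all good faces positive: the cone angles are paid by the defect -/
theorem star_le (hL : M.IsLab L) (hP : M.PS K F) (hn : M.NoAnn K F) {y : D → V}
    (hy : ∀ d, Cone (y d)) (hf : ∀ w ∈ K \ F, ∃ μ : ℝ, 0 < μ ∧ ρ (L w) • y w = μ • y w)
    (hg : ∀ d, M.Good K F d → 0 < faceDet M L ρ (fun d => y (M.vtx K d)) d) {W : Finset D}
    (hW : W ⊆ K \ F) (hH : ∀ w ∈ W, Hyp (y w)) :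
    (∀ w ∈ W, 0 < starS ρ M L K y w ∧
      ((starS ρ M L K y w : ℝ) : Real.Angle) = ((-qa (lf ρ L w) (y w) : ℝ) : Real.Angle)) ∧
    3 * Real.pi * (K \ F).card + 3 * ∑ w ∈ W, starS ρ M L K y w ≤
      ∑ d ∈ Fᶜ, (Real.pi - faceAr M L ρ (fun d => y (M.vtx K d)) d) := by
  have nn : ∀ d ∈ SStar.G M K F, 0 ≤ faceAng M L ρ (fun d => y (M.vtx K d)) d := fun d hd =>
    (angV_nonneg_lt (hy _) ((hy _).psmul _) ((hy _).psmul _) (hg d (SStar.mem_G.1 hd))).1
  have oF : ∀ w ∈ W, ∀ d, M.vtx K d = w → d ≠ w → d ∉ K ∧ d ∉ F := fun w hw d h1 h2 =>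
    ⟨fun c => h2 (by rw [← h1, hP.cut.vtx_self c]), fun c => (mem_sdiff.1 (hW hw)).2
      (h1 ▸ (hP.cl.vtx_mem_iff hP.cut d).2 c)⟩
  have e : ∀ w ∈ W, starS ρ M L K y w = ∑ d ∈ (SStar.G M K F).filter (fun d => M.vtx K d = w),
      faceAng M L ρ (fun d => y (M.vtx K d)) d := by
    intro w hw
    have wK := (mem_sdiff.1 (hW hw)).1
    refine (sum_subset (fun d hd => ?_) fun d hd hd' => ?_).symm
    · obtain ⟨g, h1⟩ := mem_filter.1 hd
      rw [SStar.mem_G] at g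
      refine mem_filter.2 ⟨mem_univ _, h1, fun c => g.2.1 (c ▸ wK), fun c => g.2.2.2 ?_⟩
      rwa [c, M.nx3]
    · obtain ⟨h1, h2, h3⟩ := (mem_filter.1 hd).2
      obtain ⟨dK, dF⟩ := oF w hw d h1 h2
      rcases hP.good_or dK dF with g | ⟨v, vK, vF, rfl | rfl⟩
      · exact absurd (mem_filter.2 ⟨SStar.mem_G.2 g, h1⟩) hd'
      · exact absurd (by rw [← h1, hP.loop v vK vF]) h3
      · obtain ⟨μ, hμ, h⟩ := hf v (mem_sdiff.2 ⟨vK, vF⟩)
        rw [faceAng, M.nx3, hP.loop v vK vF, hP.cut.vtx_self vK, map_mul, mul_smul, h, smul_comm]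
        exact SStar.self (hy _) ((hy _).psmul _) hμ
  refine ⟨fun w hw => ⟨?_, ?_⟩, ?_⟩
  · obtain ⟨wK, wF⟩ := mem_sdiff.1 (hW hw)
    obtain ⟨d, g, h1⟩ := hP.exists_good hn wK wF
    rw [e w hw]
    refine sum_pos' (fun d hd => nn d (mem_filter.1 hd).1)
      ⟨d, mem_filter.2 ⟨SStar.mem_G.2 g, h1⟩, (angV_pos ?_ (hg d g)).1⟩
    exact (hH _ (h1 ▸ hw)).tim
  · obtain ⟨μ, hμ, h⟩ := hf w (hW hw)
    have e1 : μ ^ 2 = 1 := by
      have := B_psmul (ρ (L w)) (y w) (y w)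
      rw [h, B_smul_left, B_smul_right, (hH w hw).2] at this
      linarith
    rw [(pow_eq_one_iff_of_nonneg hμ.le two_ne_zero).1 e1, one_smul] at h
    exact star0 hL hP hy (hW hw) (hH w hw) (lf_mk L w) (by rw [lf_smul, h]) fun d h1 h2 =>
      nonCol_all hL hP hn hy hg (fun w hw => Or.inr (hf w hw)) (oF w hw d h1 h2).1
        (oF w hw d h1 h2).2
  · have s : ∀ f : D → ℝ, ∑ d ∈ SStar.G M K F, f (M.nx d) = ∑ d ∈ SStar.G M K F, f d := fun f =>
      sum_equiv M.nx (fun d => (SStar.nx_G hP d).symm) fun _ _ => rfl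
    have t := sum_congr (rfl : SStar.G M K F = _) fun d hd =>
      faceAng_sum ρ hL (fun _ => hy _) (hg d (SStar.mem_G.1 hd))
    rw [sum_add_distrib, sum_add_distrib,
      s fun d => faceAng M L ρ (fun d => y (M.vtx K d)) (M.nx d), s] at t
    have u := sum_le_sum_of_subset_of_nonneg
      (filter_subset (fun d => M.vtx K d ∈ W) (SStar.G M K F)) fun d hd _ => nn d hd
    rw [sum_def_fix hL hP hy hf, sum_congr rfl e, sum_fiberwise_eq_sum_filter]
    change _ ≤ _ + ∑ d ∈ SStar.G M K F, _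
    linarith

/-- if the defect left after the walls is less than `π`, the good faces are positive -/
theorem good_pos (hL : M.IsLab L) (hP : M.PS K F) {y : D → V} (hy : ∀ d, Cone (y d))
    (hf : ∀ w ∈ K \ F, ∃ μ : ℝ, 0 < μ ∧ ρ (L w) • y w = μ • y w)
    (hb : ∑ d ∈ Fᶜ, (Real.pi - faceAr M L ρ (fun d => y (M.vtx K d)) d) <
      3 * Real.pi * (K \ F).card + 3 * Real.pi) {d : D} (hd : M.Good K F d) :
    0 < faceDet M L ρ (fun d => y (M.vtx K d)) d := by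
  have := sum_faces_le (ρ := ρ) hL (fun d => (SStar.nx_G hP d).2)
    (pos := fun d => y (M.vtx K d)) (fun _ => hy _) (S := {d})
    (singleton_subset_iff.2 (SStar.mem_G.2 hd)) (by simp +contextual)
  rw [sum_def_fix hL hP hy hf] at hb
  change _ + ∑ d ∈ SStar.G M K F, _ < _ at hb
  rw [sum_singleton] at this
  exact det_pos_of_def (fun _ => hy _) (by linarith)

/-- one wall, at a finite fixed point -/
theorem one_wall (hL : M.IsLab L) (hP : M.PS K F) {w : D} (hw : K \ F = {w}) {p : V} (hp : Hyp p)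
    (hf : ρ (L w) • p = p)
    (hb : ∑ d ∈ Fᶜ, (Real.pi - faceAr M L ρ (fun _ => p) d) ≤ 6 * Real.pi) :
    (∀ d, d ∉ F → d ∉ M.tri w → 0 < faceDet M L ρ (fun _ => p) d) ∧
      ∃ S : ℝ, 0 < S ∧ (S : Real.Angle) = ((-qa (lf ρ L w) p : ℝ) : Real.Angle) ∧
        3 * Real.pi + 3 * S ≤ ∑ d ∈ Fᶜ, (Real.pi - faceAr M L ρ (fun _ => p) d) := by
  have hf' : ∀ v ∈ K \ F, ∃ μ : ℝ, 0 < μ ∧ ρ (L v) • p = μ • p := fun v hv =>
    ⟨1, one_pos, by rw [hw, mem_singleton] at hv; rw [hv, hf, one_smul]⟩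
  have hg : ∀ d, M.Good K F d → 0 < faceDet M L ρ (fun _ => p) d := by
    intro d hd
    obtain ⟨d', g, n⟩ : ∃ d', M.Good K F d' ∧ d' ∉ M.tri d := by
      obtain ⟨d1, d2, g1, g2, n⟩ := two_good hP hw
      by_cases c : d1 ∈ M.tri d
      · exact ⟨d2, g2, DartMap.tri_eq_of_mem c ▸ n⟩
      · exact ⟨d1, g1, c⟩
    have n1 : d ≠ d' := fun c => n (by simp [c, DartMap.tri])
    have n2 : d ∉ M.tri d' := fun c => n (by rw [DartMap.tri_eq_of_mem c]; simp [DartMap.tri])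
    have h1 := sum_faces_le (ρ := ρ) hL (fun d => (SStar.nx_G hP d).2) (pos := fun _ => p)
      (fun _ => hp.cone) (S := {d, d'})
      (insert_subset (SStar.mem_G.2 hd) (singleton_subset_iff.2 (SStar.mem_G.2 g))) (by simp [n, n2])
    have h2 := sum_def_fix (y := fun _ => p) hL hP (fun _ => hp.cone) hf'
    have h3 := def_pos (ρ := ρ) (M := M) (L := L) (pos := fun _ => p) (fun _ => hp.cone) (d := d')
      hp.tim
    change _ = _ + ∑ d ∈ SStar.G M K F, _ at h2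
    rw [hw, card_singleton, Nat.cast_one] at h2
    rw [sum_pair n1] at h1
    exact det_pos_of_def (fun _ => hp.cone) (by linarith)
  have k : ∀ d, d ∉ F → d ∉ M.tri w → d ∉ K := fun d h1 h2 c => h2 (by
    rw [mem_singleton.1 (hw ▸ mem_sdiff.2 ⟨c, h1⟩ : d ∈ ({w} : Finset D))]; simp [DartMap.tri])
  refine ⟨fun d h1 h2 => hg d ⟨h1, k d h1 h2, k _ ?_ ?_, k _ ?_ ?_⟩, ?_⟩
  · rwa [hP.cl.nx_mem_iff]
  · rwa [DartMap.nx_mem_tri]
  · rwa [hP.cl.nx_mem_iff, hP.cl.nx_mem_iff]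
  · rwa [DartMap.nx_mem_tri, DartMap.nx_mem_tri]
  obtain ⟨h1, h2⟩ := star_le (y := fun _ => p) hL hP (noAnn_one hP hw) (fun _ => hp.cone) hf' hg
    hw.ge fun _ _ => hp
  rw [hw, card_singleton, Nat.cast_one, mul_one, sum_singleton] at h2
  exact ⟨_, (h1 w (mem_singleton_self w)).1, (h1 w (mem_singleton_self w)).2, h2⟩

end A25f44
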