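import Pool.Agent.Lib.MP_a25f44_gt.SAlg

/-! Trace reduction on a handle. -/

open scoped MatrixGroups
open Pool.Agent.Lib.MP_a25f44_gt Finset

noncomputable section

namespace A25f44

/-- pairs of generators of a handle -/
structure TorSet (R : Set (SL(2, ℝ) × SL(2, ℝ))) : Prop where
  tw : ∀ a b, (a, b) ∈ R → (a, b * a) ∈ R
  tw' : ∀ a b, (a, b) ∈ R → (a, b * a⁻¹) ∈ R
  sw : ∀ a b, (a, b) ∈ R → (a * b, a⁻¹) ∈ R
  ne : ∀ a b, (a, b) ∈ R → 2 ≤ |tr a| ∧ 2 ≤ |tr b|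

/-- the triples of traces -/
def STorA.Tri (R : Set (SL(2, ℝ) × SL(2, ℝ))) (x y z : ℝ) : Prop :=
  ∃ a b, (a, b) ∈ R ∧ tr a = x ∧ tr b = y ∧ tr (a * b) = z

lemma STorA.tri_rot {R : Set (SL(2, ℝ) × SL(2, ℝ))} (h : TorSet R) {x y z : ℝ}
    (ht : STorA.Tri R x y z) : STorA.Tri R z x y := by
  obtain ⟨a, b, hab, rfl, rfl, rfl⟩ := ht
  exact ⟨a * b, a⁻¹, h.sw _ _ hab, rfl, tr_inv a, tr_conj a b⟩

lemma STorA.tri_move {R : Set (SL(2, ℝ) × SL(2, ℝ))} (h : TorSet R) {x y z : ℝ}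
    (ht : STorA.Tri R x y z) : STorA.Tri R x (x * y - z) y := by
  obtain ⟨a, b, hab, rfl, rfl, rfl⟩ := ht
  refine ⟨a, b * a⁻¹, h.tw' _ _ hab, rfl, ?_, ?_⟩
  · have := tr_mul_add_tr_mul_inv b a
    rw [tr_mul_comm b a] at this
    linarith
  · rw [← mul_assoc, tr_conj]

lemma STorA.tri_ge {R : Set (SL(2, ℝ) × SL(2, ℝ))} (h : TorSet R) {x y z : ℝ}
    (ht : STorA.Tri R x y z) : 2 ≤ |x| ∧ 2 ≤ |y| ∧ 2 ≤ |z| := by
  obtain ⟨a, b, hab, rfl, rfl, rfl⟩ := ht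
  refine ⟨(h.ne _ _ hab).1, (h.ne _ _ hab).2, ?_⟩
  have := (h.ne _ _ (h.tw _ _ hab)).2
  rwa [tr_mul_comm] at this

/-- the largest number of a positive triple is the larger root -/
lemma STorA.big_root {X Y Z θ : ℝ} (hX : 2 ≤ X) (hXY : X ≤ Y) (hYZ : Y ≤ Z) (hθ : 0 < θ)
    (e : X ^ 2 + Y ^ 2 + Z ^ 2 - X * Y * Z - 4 = θ) : X * Y < 2 * Z := by
  have h1 : X + 2 ≤ Y ^ 2 := by nlinarith
  have h2 : (X - 2) * (X + 2 - Y ^ 2) ≤ 0 :=
    mul_nonpos_of_nonneg_of_nonpos (by linarith) (by linarith)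
  have h3 : 0 < (Z - Y) * (Y + Z - X * Y) := by nlinarith
  by_contra hc
  have h4 : Y + Z - X * Y ≤ 0 := by linarith [not_lt.1 hc]
  have := mul_nonpos_of_nonneg_of_nonpos (sub_nonneg.2 hYZ) h4
  linarith

lemma STorA.drop {X Y Z θ δ : ℝ} (hX : 2 ≤ X) (hY : 2 ≤ Y) (hXZ : X ≤ Z) (hYZ : Y ≤ Z)
    (hθ : 0 < θ) (hδ : δ ^ 2 ≤ 4 * θ)
    (e : X ^ 2 + Y ^ 2 + Z ^ 2 - X * Y * Z - 4 = θ) : X * Y - Z ≤ Z - δ := by
  have h1 : X * Y < 2 * Z := by
    rcases le_total X Y with h | h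
    · exact STorA.big_root hX h hYZ hθ e
    · rw [mul_comm]
      exact STorA.big_root hY h hXZ hθ (by linarith)
  have h2 : 0 ≤ (X ^ 2 - 4) * (Y ^ 2 - 4) := mul_nonneg (by nlinarith) (by nlinarith)
  have h3 : δ ^ 2 ≤ (2 * Z - X * Y) ^ 2 := by nlinarith
  have := abs_le_of_sq_le_sq' h3 (by linarith)
  linarith [this.2]

/-- one step of the reduction, the largest absolute value being at the third place -/
lemma STorA.step {x y z θ δ : ℝ} (hx : 2 ≤ |x|) (hy : 2 ≤ |y|) (hxz : |x| ≤ |z|) (hyz : |y| ≤ |z|)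
    (hθ : 0 < θ) (hδ : δ ^ 2 ≤ 4 * θ) (e : x ^ 2 + y ^ 2 + z ^ 2 - x * y * z - 4 = θ)
    (hp : 0 ≤ x * y * z) (hq : 0 ≤ x * (x * y - z) * y) : |x * y - z| ≤ |z| - δ := by
  have e1 : |x| * |y| * |z| = x * y * z := by rw [← abs_mul, ← abs_mul, abs_of_nonneg hp]
  have hx2 := sq_abs x
  have hy2 := sq_abs y
  have hz2 := sq_abs z
  have h1 := STorA.drop hx hy hxz hyz hθ hδ (by rw [hx2, hy2, hz2, e1]; exact e)
  have hxy : 0 < |x| * |y| := by positivity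
  have e2 : (|x| * |y|) ^ 2 = (x * y) ^ 2 := by rw [mul_pow, mul_pow, hx2, hy2]
  have h2 : 0 ≤ |x| * |y| * (|x| * |y| - |z|) := by nlinarith
  have h3 : 0 ≤ |x| * |y| - |z| := by
    by_contra hc
    have := mul_neg_of_pos_of_neg hxy (not_le.1 hc)
    linarith
  have e3 : (x * y - z) ^ 2 = (|x| * |y| - |z|) ^ 2 := by nlinarith
  have := (sq_eq_sq_iff_abs_eq_abs _ _).1 e3
  rw [this, abs_of_nonneg h3]
  exact h1

lemma STorA.descent {P : ℝ → ℝ → ℝ → Prop} (h1 : ∀ x y z, P x y z → P z x y)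
    (h2 : ∀ x y z, P x y z → P x (x * y - z) y)
    (h3 : ∀ x y z, P x y z → 2 ≤ |x| ∧ 2 ≤ |y| ∧ 2 ≤ |z|) {θ δ : ℝ} (hθ : 0 < θ)
    (hδ : δ ^ 2 ≤ 4 * θ) (n : ℕ) : ∀ x y z, P x y z →
      x ^ 2 + y ^ 2 + z ^ 2 - x * y * z - 4 = θ → |x| + |y| + |z| ≤ n * δ →
      ∃ x y z, P x y z ∧ x * y * z < 0 := by
  induction n with
  | zero =>
    intro x y z hP _ hn
    obtain ⟨a, b, c⟩ := h3 x y z hP
    simp only [Nat.cast_zero, zero_mul] at hn
    linarith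
  | succ n ih =>
    have key : ∀ x y z, P x y z → x ^ 2 + y ^ 2 + z ^ 2 - x * y * z - 4 = θ →
        |x| + |y| + |z| ≤ (n + 1 : ℕ) * δ → |x| ≤ |z| → |y| ≤ |z| →
        ∃ x y z, P x y z ∧ x * y * z < 0 := by
      intro x y z hP e hn hxz hyz
      obtain ⟨a, b, -⟩ := h3 x y z hP
      rcases lt_or_ge (x * y * z) 0 with hp | hp
      · exact ⟨x, y, z, hP, hp⟩
      rcases lt_or_ge (x * (x * y - z) * y) 0 with hq | hq
      · exact ⟨_, _, _, h2 x y z hP, hq⟩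
      have := STorA.step a b hxz hyz hθ hδ e hp hq
      refine ih _ _ _ (h2 x y z hP) (by linear_combination e) ?_
      push_cast at hn
      linarith
    intro x y z hP e hn
    rcases le_total |x| |z| with hxz | hxz
    · rcases le_total |y| |z| with hyz | hyz
      · exact key x y z hP e hn hxz hyz
      · exact key z x y (h1 _ _ _ hP) (by linear_combination e) (by linarith) hyz (hxz.trans hyz)
    · rcases le_total |x| |y| with hxy | hxy
      · exact key z x y (h1 _ _ _ hP) (by linear_combination e) (by linarith) (hxz.trans hxy) hxy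
      · exact key y z x (h1 _ _ _ (h1 _ _ _ hP)) (by linear_combination e) (by linarith) hxy hxz

theorem tor_red {R : Set (SL(2, ℝ) × SL(2, ℝ))} (h : TorSet R) {a b : SL(2, ℝ)} (hab : (a, b) ∈ R)
    (hT : 0 < Th a b) : ∃ a' b' : SL(2, ℝ), (a', b') ∈ R ∧
      tr a' ^ 2 + 6 + 4 * |tr a'| ≤ tr (a' * b' * a'⁻¹ * b'⁻¹) := by
  have hδ : 0 < √(Th a b) := Real.sqrt_pos.2 hT
  have hδ2 : √(Th a b) ^ 2 ≤ 4 * Th a b := by rw [Real.sq_sqrt hT.le]; linarith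
  obtain ⟨n, hn⟩ := exists_nat_ge ((|tr a| + |tr b| + |tr (a * b)|) / √(Th a b))
  rw [div_le_iff₀ hδ] at hn
  obtain ⟨x, y, z, hP, hneg⟩ := STorA.descent (P := STorA.Tri R)
    (fun _ _ _ => STorA.tri_rot h) (fun _ _ _ => STorA.tri_move h) (fun _ _ _ => STorA.tri_ge h)
    hT hδ2 n _ _ _ ⟨a, b, hab, rfl, rfl, rfl⟩ (by rw [Th, tr_commutator]; ring) hn
  obtain ⟨hx, hy, hz⟩ := STorA.tri_ge h hP
  obtain ⟨a', b', hab', rfl, rfl, rfl⟩ := hP
  refine ⟨a', b', hab', ?_⟩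
  rw [tr_commutator]
  have e1 : |tr a'| * (|tr b'| * |tr (a' * b')|) = -(tr a' * tr b' * tr (a' * b')) := by
    rw [← abs_mul, ← abs_mul, ← mul_assoc, abs_of_neg hneg]
  have e2 : 4 ≤ |tr b'| * |tr (a' * b')| := by nlinarith
  have e3 : 4 ≤ tr b' ^ 2 := by rw [← sq_abs]; nlinarith
  have e4 : 4 ≤ tr (a' * b') ^ 2 := by rw [← sq_abs]; nlinarith
  have e5 := mul_le_mul_of_nonneg_left e2 (abs_nonneg (tr a'))
  linarith

/-- two nilpotent matrices with `tr (A B) = 0` commute -/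
lemma STorA.nil_comm {p q r p' q' r' : ℝ} (h : p ^ 2 + q * r = 0) (h' : p' ^ 2 + q' * r' = 0)
    (e : 2 * p * p' + q * r' + r * q' = 0) :
    q * r' = r * q' ∧ p * q' = q * p' ∧ r * p' = p * r' := by
  have e1 : (q * r' - r * q') ^ 2 = 0 := by
    linear_combination (q * r' + r * q' - 2 * p * p') * e + 4 * p' ^ 2 * h - 4 * q * r * h'
  have e2 : (p * q' - q * p') ^ 2 = 0 := by
    linear_combination q' ^ 2 * h + q ^ 2 * h' - q * q' * e
  have e3 : (r * p' - p * r') ^ 2 = 0 := by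
    linear_combination r' ^ 2 * h + r ^ 2 * h' - r * r' * e
  exact ⟨by linarith [pow_eq_zero_iff (two_ne_zero) |>.1 e1],
    by linarith [pow_eq_zero_iff (two_ne_zero) |>.1 e2],
    by linarith [pow_eq_zero_iff (two_ne_zero) |>.1 e3]⟩

lemma STorA.comm_of_par {a b : SL(2, ℝ)} (ha : tr a ^ 2 = 4) (hb : tr b ^ 2 = 4)
    (hc : 2 * tr (a * b) = tr a * tr b) : a * b = b * a := by
  have da := det_eq a
  have db := det_eq b
  simp only [tr, mul00, mul11] at ha hb hc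
  obtain ⟨e1, e2, e3⟩ := STorA.nil_comm (p := (a 0 0 - a 1 1) / 2) (q := a 0 1) (r := a 1 0)
    (p' := (b 0 0 - b 1 1) / 2) (q' := b 0 1) (r' := b 1 0)
    (by linear_combination (1 / 4) * ha - da) (by linear_combination (1 / 4) * hb - db)
    (by linear_combination (1 / 2) * hc)
  refine SL_ext ?_ ?_ ?_ ?_ <;> simp only [mul00, mul01, mul10, mul11]
  · linear_combination e1
  · linear_combination 2 * e2
  · linear_combination 2 * e3
  · linear_combination -e1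

theorem tor_aff {R : Set (SL(2, ℝ) × SL(2, ℝ))} (h : TorSet R) {a b : SL(2, ℝ)} (hab : (a, b) ∈ R)
    (hT : Th a b = 0) (h1 : a * b * a⁻¹ * b⁻¹ ≠ 1) :
    ∃ a' b' : SL(2, ℝ), (a', b') ∈ R ∧ 2 < |tr a'| := by
  by_contra hc
  have first : ∀ x y z, STorA.Tri R x y z → x ^ 2 = 4 := by
    intro x y z ht
    have h2 := (STorA.tri_ge h ht).1
    obtain ⟨a', b', hab', rfl, -, -⟩ := ht
    have h3 : |tr a'| ≤ 2 := not_lt.1 fun t => hc ⟨a', b', hab', t⟩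
    rw [← sq_abs, le_antisymm h3 h2]
    norm_num
  have t0 : STorA.Tri R (tr a) (tr b) (tr (a * b)) := ⟨a, b, hab, rfl, rfl, rfl⟩
  have hx := first _ _ _ t0
  have hz := first _ _ _ (STorA.tri_rot h t0)
  have hy := first _ _ _ (STorA.tri_rot h (STorA.tri_rot h t0))
  rw [Th, tr_commutator] at hT
  have e : 2 * tr (a * b) = tr a * tr b := by
    have e8 : tr a * tr b * tr (a * b) = 8 := by linarith
    linear_combination (-1 / 4 * tr (a * b)) * e8 + (1 / 4 * tr a * tr b) * hz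
  apply h1
  rw [STorA.comm_of_par hx hy e]
  group

lemma STorA.cosh_add_le (t : ℝ) {g : ℝ} (hg : 0 ≤ g) :
    Real.cosh (t + g) ≤ Real.exp g * Real.cosh t := by
  rw [Real.cosh_eq, Real.cosh_eq, neg_add, Real.exp_add, Real.exp_add]
  have h1 : Real.exp (-g) ≤ Real.exp g := Real.exp_le_exp.2 (by linarith)
  have h2 := mul_le_mul_of_nonneg_left h1 (Real.exp_pos (-t)).le
  linarith

theorem tor_gain (Bd : ℝ) : ∃ g : ℝ, 0 < g ∧ ∀ a c : SL(2, ℝ), 2 ≤ tr a →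
    tr a ^ 2 + 6 + 4 * tr a ≤ tr c → tl c ≤ Bd → tl a + tl c / 2 ≤ tl c - g := by
  have hK : 0 < Real.cosh (Bd / 2) := Real.cosh_pos _
  have h8 : 0 < 8 / Real.cosh (Bd / 2) := by positivity
  have hg : 0 < Real.log (1 + 8 / Real.cosh (Bd / 2)) := Real.log_pos (by linarith)
  refine ⟨_, hg, fun a c ha hc hB => ?_⟩
  have ha1 : 1 ≤ tr a ^ 2 / 2 - 1 := by nlinarith
  have hc2 : 1 ≤ tr c / 2 := by nlinarith
  have ht0 : 0 ≤ tl a := Real.arcosh_nonneg ha1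
  have hta : Real.cosh (tl a) = tr a ^ 2 / 2 - 1 := Real.cosh_arcosh ha1
  have hs0 : 0 ≤ Real.arcosh (tr c / 2) := Real.arcosh_nonneg hc2
  have hs : Real.cosh (Real.arcosh (tr c / 2)) = tr c / 2 := Real.cosh_arcosh hc2
  have hcs : tl c = 2 * Real.arcosh (tr c / 2) := by
    rw [tl, ← Real.arcosh_cosh (x := 2 * Real.arcosh (tr c / 2)) (by linarith), Real.cosh_two_mul,
      Real.sinh_sq, hs]
    congr 1
    ring
  set s := Real.arcosh (tr c / 2)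
  have hsB : Real.cosh s ≤ Real.cosh (Bd / 2) := by
    rw [Real.cosh_le_cosh, abs_of_nonneg hs0]
    exact le_trans (by linarith) (le_abs_self _)
  by_contra hlt
  have h1 : s < tl a + Real.log (1 + 8 / Real.cosh (Bd / 2)) := by linarith [not_le.1 hlt]
  have h2 : Real.cosh s < Real.cosh (tl a + Real.log (1 + 8 / Real.cosh (Bd / 2))) := by
    rw [Real.cosh_lt_cosh, abs_of_nonneg hs0, abs_of_nonneg (by linarith)]
    exact h1
  have h3 := STorA.cosh_add_le (tl a) hg.le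
  rw [Real.exp_log (by linarith)] at h3
  have h4 : Real.cosh (tl a) + 8 ≤ Real.cosh s := by rw [hta, hs]; linarith
  have h5 : 8 / Real.cosh (Bd / 2) * Real.cosh (tl a) ≤ 8 := by
    rw [div_mul_eq_mul_div, div_le_iff₀ hK]
    linarith
  linarith

end A25f44
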