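import Pool.Agent.Lib.MP_a25f44_gt.STorB
import Pool.Agent.Lib.MP_a25f44_gt.STorA
import Pool.Agent.Lib.MP_a25f44_gt.SHex

/-! The handle step of the non elliptic descent. -/

open scoped MatrixGroups
open Pool.Agent.Lib.MP_a25f44_gt Finset

noncomputable section

namespace A25f44

variable {D Γ : Type} [Group Γ] [Fintype D] [DecidableEq D] {ρ : Γ →* PSL(2, ℝ)}
  {M : DartMap D} {L : D → Γ} {K F : Finset D}

theorem AS.mono {κ s t : ℝ} (h : AS D ρ κ s) (hst : s ≤ t) : AS D ρ κ t := by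
  obtain ⟨M, L, e, z, u, h1, h2, h3, h4⟩ := h
  exact ⟨M, L, e, z, u, h1, h2, h3, h4.trans hst⟩

theorem AS.nonneg {κ s : ℝ} (h : AS D ρ κ s) : 0 ≤ s := by
  obtain ⟨M, L, e, z, u, h1, -, -, h4⟩ := h
  exact (add_nonneg (lpV_nonneg _ h1.hz) (lpV_nonneg _ h1.hu)).trans h4

theorem Hd.mono {s t : ℝ} (h : Hd D ρ s) (hst : s ≤ t) : Hd D ρ t := by
  obtain ⟨M, L, x, h1, h2, h3, h4⟩ := h
  exact ⟨M, L, x, h1, h2, h3, h4.trans hst⟩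

theorem STor.lifts (hL : M.IsLab L) {x : D}
    (ha : M.Ann (M.op (M.nx (M.nx x))) (M.op (M.nx x)))
    (h : 0 < tr (lf ρ L (M.op (M.nx (M.nx x))))) {b : SL(2, ℝ)}
    (hb : (b : PSL(2, ℝ)) = ρ (L (M.nx (M.op (M.nx (M.nx x)))))⁻¹) :
    lf ρ L (M.nx x) = b * lf ρ L (M.op (M.nx (M.nx x))) * b⁻¹ ∧
      lf ρ L (M.nx (M.nx x)) = (lf ρ L (M.op (M.nx (M.nx x))))⁻¹ := by
  obtain ⟨-, l2, -⟩ := ann_lab hL ha
  refine ⟨?_, by rw [← lf_op hL h, M.op2]⟩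
  have := cl_conj h b
  rwa [hb, ← map_inv, ← map_mul, ← map_mul, inv_inv, ← l2] at this

theorem STor.tr_eq (hL : M.IsLab L) {x : D}
    (ha : M.Ann (M.op (M.nx (M.nx x))) (M.op (M.nx x))) :
    tr (lf ρ L (M.nx x)) = tr (lf ρ L (M.nx (M.nx x))) := by
  obtain ⟨-, l2, -⟩ := ann_lab hL ha
  have := tr_cl_conj (ρ (L (M.op (M.nx (M.nx x))))) (ρ (L (M.nx (M.op (M.nx (M.nx x))))))⁻¹
  rw [inv_inv, ← map_inv, ← map_mul, ← map_mul, ← l2] at this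
  exact this.trans (tr_lf_op hL _)

/-- the generating pairs of a handle -/
theorem handle_gen (hN : NE D ρ) (h : Adm ρ M L) {x : D} (hB : Bad ρ M L x)
    (ha : M.Ann (M.op (M.nx (M.nx x))) (M.op (M.nx x))) :
    ∃ R : Set (SL(2, ℝ) × SL(2, ℝ)), TorSet R ∧ R.Nonempty ∧ ∀ a b, (a, b) ∈ R →
      a * b * a⁻¹ * b⁻¹ = lf ρ L x ∧ ∃ L' : D → Γ, Adm ρ M L' ∧ Bad ρ M L' x ∧ L' x = L x ∧
        tr (lf ρ L' (M.nx x)) = |tr a| := by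
  obtain ⟨v1, v2, v3⟩ := hB.1.walls (d := M.nx (M.nx x)) (by simp [DartMap.tri])
  obtain ⟨w1, -, -⟩ := hB.1.walls (d := M.nx x) (by simp [DartMap.tri])
  have x1 : x ∈ M.triK x := DartMap.mem_triK.2 (.inl (by simp [DartMap.tri]))
  have v4 : M.vtx (M.triK x) (M.nx (M.nx (M.op (M.nx (M.nx x))))) ≠ M.op (M.nx (M.nx x)) := by
    rw [vtx_ann hB.1 v1 v2 w1 ha]
    exact DartMap.op_inj.not.2 (M.nx2_ne_nx x).symm
  have key := fun {L' : D → Γ} (h' : Adm ρ M L') =>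
    @STor.lifts D Γ _ _ _ ρ M L' h'.mark.lab x ha (two_pos.trans_le (hN M L' h' _))
  have tor := fun {L' : D → Γ} (h' : Adm ρ M L') => h'.mark.torus hB.1 ha
  simp only at tor
  generalize M.op (M.nx (M.nx x)) = v at *
  have tw : ∀ (n : ℤ) (L' : D → Γ), Adm ρ M L' → ∃ L'', Adm ρ M L'' ∧ L'' x = L' x ∧
      L'' v = L' v ∧ (L'' (M.nx v))⁻¹ = (L' (M.nx v))⁻¹ * L' v ^ n := fun n L' h' => by
    obtain ⟨m1, m2⟩ := h'.mark.twist hB.1.cut v1 v3 n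
    exact ⟨_, h'.of_move m1, m2 x x1, m2 v v1, by simp [DartMap.gauge, v3, v4]⟩
  refine ⟨{p | p.1 * p.2 * p.1⁻¹ * p.2⁻¹ = lf ρ L x ∧ ∃ L' : D → Γ, Adm ρ M L' ∧ L' x = L x ∧
    (p.1 : PSL(2, ℝ)) = ρ (L' v) ∧ (p.2 : PSL(2, ℝ)) = ρ (L' (M.nx v))⁻¹},
    ⟨?_, ?_, ?_, ?_⟩, ⟨(lf ρ L v, (lf ρ L (M.nx v))⁻¹), ?_, L, h, rfl, lf_mk _ _, ?_⟩, ?_⟩
  · rintro a b ⟨e, L', h', e1, e2, e3⟩
    obtain ⟨L'', h'', f1, f2, f3⟩ := tw 1 L' h'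
    refine ⟨by rw [← e]; group, L'', h'', f1.trans e1, f2 ▸ e2, ?_⟩
    rw [f3, zpow_one, map_mul, ← e2, ← e3]
    rfl
  · rintro a b ⟨e, L', h', e1, e2, e3⟩
    obtain ⟨L'', h'', f1, f2, f3⟩ := tw (-1) L' h'
    refine ⟨by rw [← e]; group, L'', h'', f1.trans e1, f2 ▸ e2, ?_⟩
    rw [f3, zpow_neg_one, map_mul, map_inv ρ (L' v), ← e2, ← e3]
    rfl
  · rintro a b ⟨e, L', h', e1, e2, e3⟩
    obtain ⟨L'', m, f1, f2, f3, -⟩ := tor h'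
    refine ⟨by rw [← e]; group, L'', h'.of_move m, f3.trans e1, ?_, ?_⟩
    · rw [f1, map_mul, ← e2, ← e3]
      rfl
    · rw [f2, map_inv, ← e2]
      rfl
  · rintro a b ⟨-, L', h', -, e2, e3⟩
    rw [← tr_cl e2, ← tr_cl e3, map_inv, tr_cl_inv]
    exact ⟨hN M L' h' _, hN M L' h' _⟩
  · obtain ⟨k1, k2⟩ := key h (b := (lf ρ L (M.nx v))⁻¹) (by rw [map_inv, ← lf_mk]; rfl)
    have e := hB.2
    rw [k1, k2, mul_assoc, mul_eq_one_iff_eq_inv] at e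
    rw [e]
    group
  · rw [map_inv, ← lf_mk]
    rfl
  · rintro a b ⟨e, L', h', e1, e2, e3⟩
    obtain ⟨k1, k2⟩ := key h' e3
    refine ⟨e, L', h', ⟨hB.1, ?_⟩, e1, by rw [k1, tr_conj]; exact tr_cl e2⟩
    rw [k1, k2, lf, e1, ← lf, ← e, lf]
    rcases cl_cases e2 with c | c <;> rw [c]
    · group
    · simp only [inv_neg, mul_neg, neg_mul, neg_neg]
      group

theorem handle_hex (h : Adm ρ M L) {x : D} (hB : Bad ρ M L x)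
    (ha : M.Ann (M.op (M.nx (M.nx x))) (M.op (M.nx x))) (h2 : 2 ≤ tr (lf ρ L (M.nx x)))
    (h1 : tr (lf ρ L (M.nx x)) ^ 2 + 6 + 4 * tr (lf ρ L (M.nx x)) ≤ tr (lf ρ L x)) {κ ε : ℝ}
    (hκ : 0 < κ) (hε : 0 < ε) :
    AS D ρ κ (tl (lf ρ L (M.nx x)) + tl (lf ρ L x) / 2 + ε) := by
  have hL := h.mark.lab
  have e := hB.nx.2
  have t := STor.tr_eq (ρ := ρ) hL ha
  rw [M.nx3] at e
  have hc : 2 < tr (lf ρ L x) := by nlinarith
  obtain ⟨y, sa, sb, hy, hd, r1, r2, -, -, s1, s2, l1, l2, -⟩ := hex e hc (by linarith)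
    (by linarith) (by rw [← t]; nlinarith) (by rw [← t]; nlinarith) (by
      rw [Th_eq e, ← t]
      nlinarith [mul_pos (sub_pos.2 hc)
        (show 0 < tr (lf ρ L x) + 2 - tr (lf ρ L (M.nx x)) ^ 2 by linarith)]) (half_pos hε)
  have s3 := s2 t
  rw [← faceDet_const] at hd
  rcases mul_neg_iff.1 r2 with ⟨p, q⟩ | ⟨p, q⟩
  · refine (makeA h hB.nx h2 (t ▸ h2) (by rw [M.nx3]; exact hc.le) hy hd p q
      (by rwa [M.nx3]) hκ (half_pos hε)).mono (by linarith)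
  · refine (makeA h hB.nx.nx (t ▸ h2) (by rw [M.nx3]; exact hc.le) (by rwa [M.nx3]) hy
      (by rwa [faceDet_nx ρ hL]) q (by rwa [M.nx3]) (by rwa [M.nx3]) hκ (half_pos hε)).mono ?_
    rw [tl_congr (congrArg abs t)]
    linarith

theorem handleNE (hN : NE D ρ) (hS : ¬Succ D ρ) (Bd : ℝ) : ∃ g : ℝ, 0 < g ∧ ∀ l, l ≤ Bd →
    Hd D ρ l → ∀ κ, 0 < κ → AS D ρ κ (l - g) := by
  obtain ⟨g, hg, H⟩ := tor_gain Bd
  refine ⟨g / 2, half_pos hg, ?_⟩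
  rintro l hl ⟨M, L, x, h, hB, ha, ht⟩ κ hκ
  obtain ⟨R, hR, ⟨⟨a, b⟩, hab⟩, hk⟩ := handle_gen hN h hB ha
  have e := (hk a b hab).1
  have hx := hN M L h x
  rcases hx.lt_or_eq with c | c
  · obtain ⟨a', b', hab', h1⟩ := tor_red hR hab (by rw [Th, e]; linarith)
    obtain ⟨e', L', h', hB', e1, e2⟩ := hk a' b' hab'
    have e3 : lf ρ L' x = lf ρ L x := by rw [lf, e1, lf]
    rw [e', ← e3, ← sq_abs, ← e2] at h1
    rw [← e3] at ht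
    have h2 := hN M L' h' (M.nx x)
    have h3 := H _ _ h2 h1 (ht.trans hl)
    exact (handle_hex h' hB' ha h2 h1 hκ (half_pos hg)).mono (by linarith)
  · obtain ⟨a', b', hab', h1⟩ := tor_aff hR hab (by rw [Th, e, ← c, sub_self])
      (e ▸ (lf_ne_one h x).1)
    obtain ⟨-, L', h', hB', e1, e2⟩ := hk a' b' hab'
    exact absurd (handle_aff h' hB' ha (by rw [lf, e1, c, lf]) (e2 ▸ h1)) hS

end A25f44
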