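import Pool.Agent.Lib.MP_a25f44_gt.SPlace
import Pool.Agent.Lib.MP_a25f44_gt.STrg

/-! A handle with parabolic boundary. -/

open scoped MatrixGroups
open Pool.Agent.Lib.MP_a25f44_gt Finset

noncomputable section

namespace A25f44

variable {D Γ : Type} [Group Γ] [Fintype D] [DecidableEq D] {ρ : Γ →* PSL(2, ℝ)}
  {M : DartMap D} {L : D → Γ} {K F : Finset D}

/-- the nine faces of the handle are positive -/
theorem STorB.nine (h : Adm ρ M L) {x : D} (hB : Bad ρ M L x)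
    (ha : M.Ann (M.op (M.nx (M.nx x))) (M.op (M.nx x))) (h1 : tr (lf ρ L x) = 2)
    (h2 : 2 ≤ tr (lf ρ L (M.nx x))) (h3 : 2 ≤ tr (lf ρ L (M.nx (M.nx x))))
    (h0 : 0 < rot (lf ρ L x) oV) {p : V} (hp : Hyp p) (r2 : rot (lf ρ L (M.nx x)) p < 0)
    (r3 : rot (lf ρ L (M.nx (M.nx x))) p < 0) (hf : 0 < faceDet M L ρ (fun _ => p) x) :
    ∀ d ∈ F9 M x, 0 < faceDet M L ρ (fun _ => p) d := by
  have hL := h.mark.lab
  have hP : M.PS (M.triK x) (M.tri x) := hB.1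
  have hI := (rot_par h1 h0).1
  have n1 : M.op (M.nx x) ≠ M.op x := DartMap.op_inj.not.2 (M.nx_ne x)
  have n2 : M.op (M.nx (M.nx x)) ≠ M.op x := DartMap.op_inj.not.2 (M.nx2_ne x)
  obtain ⟨v1, v2, -⟩ := hB.1.walls (d := M.nx (M.nx x)) (by simp [DartMap.tri])
  obtain ⟨w1, w2, -⟩ := hB.1.walls (d := M.nx x) (by simp [DartMap.tri])
  obtain ⟨y, y0, y1⟩ : ∃ y : D → V, y (M.op x) = ax (lf ρ L x) ∧ ∀ d, d ≠ M.op x → y d = p :=
    ⟨fun d => if d = M.op x then ax (lf ρ L x) else p, if_pos rfl, fun d hd => if_neg hd⟩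
  have hy : ∀ d, Cone (y d) := fun d => by
    by_cases e : d = M.op x
    · rw [e, y0]; exact hI.1
    · rw [y1 d e]; exact hp.cone
  have hw : ∀ w ∈ M.triK x \ M.tri x, 2 ≤ tr (lf ρ L w) ∧
      (w ≠ M.op x → 0 < rot (lf ρ L w) p) := fun w hw => by
    rw [h.mark.tr.triK_sdiff] at hw
    simp only [mem_insert, mem_singleton] at hw
    rcases hw with rfl | rfl | rfl
    · exact ⟨by rw [tr_lf_op hL, h1], fun c => absurd rfl c⟩
    · exact ⟨by rwa [tr_lf_op hL], fun _ => by rw [lf_op hL (by linarith), rot_inv]; linarith⟩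
    · exact ⟨by rwa [tr_lf_op hL], fun _ => by rw [lf_op hL (by linarith), rot_inv]; linarith⟩
  have key : ∀ v w, v ∈ M.triK x → v ∉ M.tri x → w ∈ M.triK x → v ≠ M.op x → w ≠ M.op x →
      M.Ann v w → ∀ d ∈ M.tri v, 0 < faceDet M L ρ (fun _ => p) d := by
    intro v w v1 v2 w1 nv nw a d hd
    have c := count hL hP hy x (fun w' hw' => .inr ⟨(hw w' hw').1, by
        by_cases e : w' = M.op x
        · rw [e, y0, lf_op hL (by linarith), rot_inv]
          exact .inr ⟨hI.2, by rw [rot, hI.2, neg_zero]⟩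
        · rw [y1 _ e]
          exact .inl ⟨hp, (hw w' hw').2 e⟩⟩)
      (bud_bad h hB (by linarith) (by linarith) (by linarith) ⟨hy, fun w hw' => .inr (hw w hw').1⟩)
      v2 fun w' hw' t => by
        obtain rfl := wall_tri hP hw' v1 t
        rw [y1 _ nv]
        exact (hw _ hw').2 nv
    rw [faceDet_tri hL _ hd]
    simp only [faceDet] at c ⊢
    rwa [hP.cut.vtx_self v1, hP.loop v v1 v2, vtx_ann hP v1 v2 w1 a, y1 _ nv, y1 _ nw] at c
  intro d hd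
  rcases mem_union.1 hd with hd | hd
  · rcases mem_union.1 hd with hd | hd
    · rwa [faceDet_tri hL _ hd]
    · exact key _ _ v1 v2 w1 n2 n1 ha d hd
  · exact key _ _ w1 w2 v1 n1 n2 ha.symm d hd

theorem handle_aff (h : Adm ρ M L) {x : D} (hB : Bad ρ M L x)
    (ha : M.Ann (M.op (M.nx (M.nx x))) (M.op (M.nx x))) (h1 : tr (lf ρ L x) = 2)
    (h2 : 2 < tr (lf ρ L (M.nx x))) : Succ D ρ := by
  obtain ⟨Bd, hBd⟩ := lpV_le_of_bounds 2
  obtain ⟨κ, hκ, H⟩ := place_succ (D := D) (ρ := ρ) Bd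
  have core : ∀ (M : DartMap D) (L : D → Γ) (p : V), Adm ρ M L → Bad ρ M L x →
      M.Ann (M.op (M.nx (M.nx x))) (M.op (M.nx x)) → tr (lf ρ L x) = 2 →
      2 ≤ tr (lf ρ L (M.nx x)) → 2 ≤ tr (lf ρ L (M.nx (M.nx x))) → 0 < rot (lf ρ L x) oV →
      Hyp p → rot (lf ρ L (M.nx x)) p < 0 → rot (lf ρ L (M.nx (M.nx x))) p < 0 →
      0 < faceDet M L ρ (fun _ => p) x → |rot (lf ρ L x) p| ≤ min κ 2 → Succ D ρ := by
    intro M L p h hB ha h1 h2 h3 h0 hp r2 r3 hf hr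
    have hL := h.mark.lab
    obtain ⟨ps, e⟩ := handle_ps hB.1 ha
    refine H M L _ _ p h ps (noAnn_one ps e) (fun w hw => ?_) hp
      (bud_handle h hB ha h1.ge (by linarith) fun _ => hp.cone) (fun w hw => ?_)
      (STorB.nine h hB ha h1 h2 h3 h0 hp r2 r3 hf) <;> rw [e, mem_singleton] at hw <;> rw [hw]
    · rw [tr_lf_op hL, h1]
    · rw [lpV_lf_op hL, lf_op hL (by linarith), rot_inv]
      exact ⟨hBd _ _ hp (by rw [h1, abs_two]) (hr.trans (min_le_right _ _)),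
        neg_le_neg ((le_abs_self _).trans (hr.trans (min_le_left _ _)))⟩
  have hL := h.mark.lab
  obtain ⟨ps, e⟩ := handle_ps hB.1 ha
  obtain ⟨-, l2, -⟩ := ann_lab hL ha
  have t : tr (lf ρ L (M.nx x)) = tr (lf ρ L (M.nx (M.nx x))) := by
    have := tr_cl_conj (ρ (L (M.op (M.nx (M.nx x))))) (ρ (L (M.nx (M.op (M.nx (M.nx x))))))⁻¹
    rw [inv_inv, ← map_inv, ← map_mul, ← map_mul, ← l2] at this
    exact this.trans (tr_lf_op hL _)
  have h0 : 0 < rot (lf ρ L x) oV := by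
    have := np h ps (noAnn_one ps e) (fun w hw => by
        rw [e, mem_singleton] at hw
        rw [hw, tr_lf_op hL, h1]) (y := fun _ => oV) (fun _ => hyp_oV.cone)
      (bud_handle h hB ha h1.ge (by linarith) fun _ => hyp_oV.cone) (w := M.op x)
      (by rw [e, mem_singleton]) (by rw [tr_lf_op hL, h1])
    rwa [lf_op hL (by linarith), rot_inv, neg_lt_zero] at this
  obtain ⟨p, hp, r3, hr, ⟨hf, r2⟩ | ⟨hf, r2⟩⟩ :=
    aff hB.2 h1 h0 t (t ▸ h2) (lt_min hκ two_pos)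
  · exact core M L p h hB ha h1 h2.le (t ▸ h2.le) h0 hp r2 r3 (by rwa [faceDet_const]) hr
  obtain ⟨M', L', h', o, P', a1, a2, b1, -, out, l0, l1, l3, -⟩ := backflip' h hB.1.nx.nx
  simp only [M.nx3] at a1 a2 l1 l3
  rw [M.tri_nx, M.tri_nx] at b1 out
  rw [a1] at a2
  have a0 : M'.nx x = M.nx (M.nx x) := by rw [← M'.nx3 (M.nx (M.nx x)), a1, a2]
  have f0 : lf ρ L' x = lf ρ L x := by rw [lf, lf, l1]
  have f1 : lf ρ L' (M.nx (M.nx x)) = lf ρ L (M.nx (M.nx x)) := by rw [lf, lf, l0]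
  have f2 : lf ρ L' (M.nx x) = lf ρ L x * lf ρ L (M.nx x) * (lf ρ L x)⁻¹ := by
    rw [lf, l3, map_mul, map_mul, map_inv, ← lf_mk L x]
    exact cl_conj (g := ρ (L (M.nx x))) (lt_trans two_pos h2) _
  have P'' := P'.nx.nx
  rw [a1, a2] at P''
  have q : ∀ d ∈ M.tri x, M'.nx (M.op d) = M.nx (M.op d) ∧
      M'.nx (M.nx (M.op d)) = M.nx (M.nx (M.op d)) := fun d hd =>
    have := h.mark.tr.op_notMem_tri hd
    ⟨out _ this, out _ (DartMap.nx_mem_tri.not.2 this)⟩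
  have q1 := q (M.nx x) (by simp [DartMap.tri])
  have q2 := q (M.nx (M.nx x)) (by simp [DartMap.tri])
  refine core M' L' p h' ⟨P'', ?_⟩ ?_ (by rwa [f0]) ?_ ?_ (by rwa [f0]) hp ?_ ?_ ?_ (by rwa [f0])
  · rw [a0, a1, f0, f1, f2, eq_inv_of_mul_eq_one_right hB.2]
    group
  · rw [a0, a1, o]
    exact ⟨by rw [o, q1.1, q2.1]; exact ha.symm.1,
      by rw [o, q1.1, q2.1, q1.2, q2.2]; exact ha.symm.2⟩
  · rw [a0, f1, ← t]; exact h2.le
  · rw [a0, a1, f2, tr_conj]; exact h2.le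
  · rwa [a0, f1]
  · rwa [a0, a1, f2]
  · rw [← faceDet_tri h'.mark.lab _ (d := M.nx x) (by simp [DartMap.tri, a0, a1]),
      faceDet_const, a2, f0, f2]
    exact hf

end A25f44
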