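import Pool.Agent.Lib.MP_a25f44_gt.SStar

/-! Moving vertices off their fixed points. -/

open scoped MatrixGroups
open Pool.Agent.Lib.MP_a25f44_gt Finset

noncomputable section

namespace A25f44

variable {D Γ : Type} [Group Γ] [Fintype D] [DecidableEq D] {ρ : Γ →* PSL(2, ℝ)}
  {M : DartMap D} {L : D → Γ} {K F : Finset D}

lemma SUnc.cont_det3 {a b c : ℝ → V} (ha : Continuous a) (hb : Continuous b) (hc : Continuous c) :
    Continuous fun s => det3 (a s) (b s) (c s) := by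
  unfold det3
  fun_prop

lemma SUnc.ev_pos {G : ℝ → ℝ} (hG : Continuous G) (h0 : 0 < G 0) :
    ∀ᶠ s in nhdsWithin (0 : ℝ) (Set.Ioi 0), 0 < G s :=
  ((hG.tendsto 0).eventually (lt_mem_nhds h0)).filter_mono nhdsWithin_le_nhds

lemma SUnc.det3_pert (p a b q : V) (s : ℝ) :
    det3 (p + s • a) (p + s • b) q = s * det3 (p + s • a) (b - a) q := by
  simp only [det3, Prod.fst_add, Prod.snd_add, Prod.smul_fst, Prod.smul_snd, Prod.fst_sub,
    Prod.snd_sub, smul_eq_mul]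
  ring

/-- first order perturbation -/
theorem uncollapse (hP : M.PS K F) {y ν : D → V} {W : Finset D} (hW : W ⊆ K \ F)
    (hν : ∀ d, d ∉ W → ν d = 0) (hf : ∀ w ∈ W, ρ (L w) • y w = y w)
    (hd : ∀ w ∈ W, 0 < det3 (y w) (ρ (L w) • ν w - ν w)
      (ρ (L w * L (M.nx w)) • y (M.vtx K (M.nx (M.nx w)))))
    (hL : M.IsLab L)
    (hpos : ∀ d, d ∉ F → (∀ w ∈ W, d ∉ M.tri w) → 0 < faceDet M L ρ (fun d => y (M.vtx K d)) d) :
    ∀ᶠ s in nhdsWithin (0 : ℝ) (Set.Ioi 0), ∀ d, d ∉ F →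
      0 < faceDet M L ρ (fun d => y (M.vtx K d) + s • ν (M.vtx K d)) d := by
  have _ := hν
  rw [Filter.eventually_all]
  intro d
  by_cases hF : d ∈ F
  · exact Filter.Eventually.of_forall fun s h => absurd hF h
  by_cases hw : ∃ w ∈ W, d ∈ M.tri w
  · obtain ⟨w, hw, hdw⟩ := hw
    obtain ⟨wK, wF⟩ := mem_sdiff.1 (hW hw)
    have h1 := SUnc.ev_pos (G := fun s => det3 (y w + s • ν w) (ρ (L w) • ν w - ν w)
      (ρ (L w * L (M.nx w)) •
        (y (M.vtx K (M.nx (M.nx w))) + s • ν (M.vtx K (M.nx (M.nx w))))))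
      (SUnc.cont_det3 (by fun_prop) (by fun_prop) (by fun_prop)) (by simpa using hd w hw)
    filter_upwards [h1, self_mem_nhdsWithin] with s hs hs0 _
    rw [faceDet_tri hL _ hdw, faceDet, hP.cut.vtx_self wK, hP.loop w wK wF, smul_add, hf w hw,
      smul_comm (ρ (L w)) s, SUnc.det3_pert]
    exact mul_pos hs0 hs
  · push Not at hw
    have h1 := SUnc.ev_pos
      (G := fun s => faceDet M L ρ (fun d => y (M.vtx K d) + s • ν (M.vtx K d)) d)
      (SUnc.cont_det3 (by fun_prop) (by fun_prop) (by fun_prop)) (by simpa using hpos d hF hw)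
    exact h1.mono fun s hs _ => hs

omit [Fintype D] [DecidableEq D] in
lemma faceDet_scale {pos pos' : D → V} (h : ∀ d, ∃ c : ℝ, 0 < c ∧ pos' d = c • pos d) (d : D) :
    0 < faceDet M L ρ pos' d ↔ 0 < faceDet M L ρ pos d := by
  obtain ⟨a, ha, e1⟩ := h d
  obtain ⟨b, hb, e2⟩ := h (M.nx d)
  obtain ⟨c, hc, e3⟩ := h (M.nx (M.nx d))
  rw [faceDet, faceDet, e1, e2, e3, smul_comm _ b, smul_comm _ c, det3_smul_1, det3_smul_2,
    det3_smul_3, mul_pos_iff_of_pos_left ha, mul_pos_iff_of_pos_left hb,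
    mul_pos_iff_of_pos_left hc]

lemma det_par {A : SL(2, ℝ)} (h : tr A = 2) (h0 : 0 < rot A oV) {o w : V} (ho : Tim o)
    (hw : 0 < B (ax A) w) : 0 < det3 (ax A) (A⁻¹ • o - o) w := by
  have h1 : 0 < rot A o := rot_pos_all (by rw [h]; norm_num) hyp_oV.tim h0 ho
  have h2 : B (ax A) (ax A) = 0 := by rw [B_ax_ax, h]; norm_num
  have h3 : det3 (ax A) (A⁻¹ • o - o) w =
      2 * (B (ax A) w * rot A o - B (ax A) (ax A) * B o w) := by
    rw [smul_formula, tr_inv, rot_inv, ax_inv, h]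
    simp only [det3, cross, rot, B, Prod.fst_add, Prod.snd_add, Prod.smul_fst, Prod.smul_snd,
      Prod.fst_sub, Prod.snd_sub, Prod.fst_neg, Prod.snd_neg, smul_eq_mul]
    ring
  rw [h3, h2]
  nlinarith [mul_pos hw h1]

end A25f44
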