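import Mathlib

/-! Definitions used in the final statement. -/

namespace Pool.Agent.Lib.MP_a25f44_gt

open scoped MatrixGroups UpperHalfPlane Matrix ComplexConjugate

/-- The word `[a_1, b_1] ... [a_g, b_g]`, with `a_i = (i, false)` and `b_i = (i, true)`. -/
def relator (g : ℕ) : FreeGroup (Fin g × Bool) :=
  ((List.finRange g).map fun i : Fin g =>
    FreeGroup.of (i, false) * FreeGroup.of (i, true) *
      (FreeGroup.of (i, false))⁻¹ * (FreeGroup.of (i, true))⁻¹).prod

/-- The fundamental group of the closed orientable surface of genus `g`. -/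
abbrev SurfGroup (g : ℕ) : Type := PresentedGroup {relator g}

/-- Euler number `n`: lift the action of each generator on the projective line `ℝ / π ℤ` to a
homeomorphism of `ℝ`; the relator evaluated on the lifts is the translation by `n π`. -/
def HasEulerNumber {g : ℕ} (ρ : SurfGroup g →* PSL(2, ℝ)) (n : ℤ) : Prop :=
  ∃ F : Fin g × Bool → (ℝ ≃ₜ ℝ),
    (∀ i, ∃ A : SL(2, ℝ), (A : PSL(2, ℝ)) = ρ (PresentedGroup.of i) ∧
      ∀ t : ℝ, ∃ r : ℝ, 0 < r ∧
        A.1 *ᵥ ![Real.cos t, Real.sin t] = r • ![Real.cos (F i t), Real.sin (F i t)]) ∧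
    ∀ t : ℝ, FreeGroup.lift F (relator g) t = t + n * Real.pi

/-- `ρ` is the holonomy of a hyperbolic structure with exactly one cone point, of angle `4 π`, on
a closed surface with fundamental group `Γ`: `X` is the universal cover, `D` the developing map,
`p` a lift of the cone point. -/
def IsConeHolonomy {Γ : Type} [Group Γ] (ρ : Γ →* PSL(2, ℝ)) : Prop :=
  ∃ (X : Type) (_ : TopologicalSpace X) (_ : MulAction Γ X) (D : X → ℍ) (p : X),
    T2Space X ∧ SimplyConnectedSpace X ∧
    ContinuousConstSMul Γ X ∧ ProperlyDiscontinuousSMul Γ X ∧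
    (∀ (γ : Γ) (x : X), γ • x = x → γ = 1) ∧
    CompactSpace (MulAction.orbitRel.Quotient Γ X) ∧
    (∀ (γ : Γ) (A : SL(2, ℝ)), (A : PSL(2, ℝ)) = ρ γ → ∀ x : X, D (γ • x) = A • D x) ∧
    IsLocalHomeomorphOn D (MulAction.orbit Γ p)ᶜ ∧
    ∃ e : OpenPartialHomeomorph X ℂ, p ∈ e.source ∧
      ∀ y ∈ e.source, ((D y : ℂ) - D p) / ((D y : ℂ) - conj (D p : ℂ)) = e y ^ 2

end Pool.Agent.Lib.MP_a25f44_gt
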